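import Mathlib

set_option autoImplicit false

/-! A Ditor type obstruction to averaging operators, and combinatorics of `A(κ)^ℕ`. -/

namespace Pool.Agent.H81.Av
open Set Function Filter Topology

theorem ditor {L K : Type*} [TopologicalSpace L] [TopologicalSpace K] [CompactSpace L]
    [T2Space L] [CompactSpace K] [T2Space K] (f : C(L, K)) (T : C(L, ℝ) →ₗ[ℝ] C(K, ℝ)) (C : ℝ)
    (hC : ∀ h x, |T h x| ≤ C * ‖h‖) (hT : ∀ g : C(K, ℝ), T (g.comp f) = g) (P : Set K)
    (hP : P.Nonempty) (H : ∀ x ∈ P, ∃ C1 C2 : Set L, IsClosed C1 ∧ IsClosed C2 ∧ Disjoint C1 C2 ∧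
      ∀ V ∈ 𝓝 x, (∃ y ∈ V ∩ P, f ⁻¹' {y} ⊆ C1) ∧ ∃ y ∈ V ∩ P, f ⁻¹' {y} ⊆ C2) : False := by
  have hcl : IsClosedMap f := f.continuous.isClosedMap
  have nb : ∀ (y : K) (W : Set L), IsOpen W → f ⁻¹' {y} ⊆ W →
      ∃ V, IsOpen V ∧ y ∈ V ∧ f ⁻¹' V ⊆ W := by
    intro y W hW h
    refine ⟨(f '' Wᶜ)ᶜ, (hcl _ hW.isClosed_compl).isOpen_compl, ?_, fun a ha => ?_⟩
    · rintro ⟨a, h1, h2⟩
      exact h1 (h h2)
    · by_contra h1
      exact ha ⟨a, h1, rfl⟩
  have key : ∀ k : ℕ, ∃ x ∈ P, ∃ h : C(L, ℝ), (∀ a, |h a| ≤ 1) ∧ (k : ℝ) / 3 ≤ T h x ∧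
      ∃ V, IsOpen V ∧ x ∈ V ∧ ∀ a, f a ∈ V → h a = 0 := by
    intro k
    induction k with
    | zero =>
      obtain ⟨x, hx⟩ := hP
      exact ⟨x, hx, 0, by simp, by simp, univ, isOpen_univ, trivial, by simp⟩
    | succ k ih =>
      obtain ⟨x, hx, h, h1, h2, V, hV, hxV, h3⟩ := ih
      obtain ⟨C1, C2, c1, c2, c3, c4⟩ := H x hx
      obtain ⟨u, u0, u1, u2⟩ := exists_continuous_zero_one_of_isClosed c1 c2 c3
      obtain ⟨g, g0, g1, g2⟩ := exists_continuous_zero_one_of_isClosed hV.isClosed_compl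
        (isClosed_singleton (x := x)) (by simpa using hxV)
      let v : C(L, ℝ) := ⟨fun a => max 0 (min 1 (3 * u a - 1)), by fun_prop⟩
      have v0 : ∀ a, 0 ≤ v a ∧ v a ≤ 1 := fun a =>
        ⟨le_max_left _ _, max_le zero_le_one (min_le_left _ _)⟩
      have step : ∀ (w : C(L, ℝ)) (W D : Set L), (∀ a, 0 ≤ w a ∧ w a ≤ 1) → IsOpen W → D ⊆ W →
          (∀ a ∈ W, w a = 0) → (∀ V ∈ 𝓝 x, ∃ y ∈ V ∩ P, f ⁻¹' {y} ⊆ D) →
          1 / 2 ≤ T (w * g.comp f) x → ∃ x ∈ P, ∃ h : C(L, ℝ), (∀ a, |h a| ≤ 1) ∧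
          ((k + 1 : ℕ) : ℝ) / 3 ≤ T h x ∧ ∃ V, IsOpen V ∧ x ∈ V ∧ ∀ a, f a ∈ V → h a = 0 := by
        intro w W D w0 hW hD w1 hy hw
        have e1 : ((k + 1 : ℕ) : ℝ) / 3 < T (h + w * g.comp f) x := by
          rw [map_add, ContinuousMap.add_apply]; push_cast; linarith
        have e2 : {y | ((k + 1 : ℕ) : ℝ) / 3 < T (h + w * g.comp f) y} ∈ 𝓝 x :=
          (isOpen_lt continuous_const (T _).continuous).mem_nhds e1
        obtain ⟨y, ⟨⟨y1, y2⟩, y3⟩, y4⟩ := hy _ (inter_mem e2 (hV.mem_nhds hxV))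
        obtain ⟨V', v1, v2, v3⟩ := nb y W hW (y4.trans hD)
        refine ⟨y, y3, h + w * g.comp f, fun a => ?_, le_of_lt y1, V ∩ V', hV.inter v1, ⟨y2, v2⟩,
          fun a ha => ?_⟩
        · simp only [ContinuousMap.add_apply, ContinuousMap.mul_apply, ContinuousMap.comp_apply]
          by_cases ha : f a ∈ V
          · rw [h3 a ha, zero_add, abs_of_nonneg (mul_nonneg (w0 a).1 (g2 _).1)]
            exact mul_le_one₀ (w0 a).2 (g2 _).1 (g2 _).2
          · rw [g0 ha]
            simpa using h1 a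
        · simp only [ContinuousMap.add_apply, ContinuousMap.mul_apply, ContinuousMap.comp_apply]
          rw [h3 a ha.1, w1 a (v3 ha.2), zero_mul, add_zero]
      have tot : T (v * g.comp f) x + T ((1 - v) * g.comp f) x = 1 := by
        rw [← ContinuousMap.add_apply, ← map_add, ← add_mul, add_sub_cancel, one_mul, hT]
        exact g1 rfl
      rcases le_total (1 / 2) (T (v * g.comp f) x) with hh | hh
      · refine step v {a | u a < 1 / 3} C1 v0 (isOpen_lt u.continuous continuous_const)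
          (fun a ha => by simp only [mem_setOf_eq, u0 ha]; norm_num) (fun a ha => ?_)
          (fun V hV => (c4 V hV).1) hh
        have : u a < 1 / 3 := ha
        exact max_eq_left ((min_le_right _ _).trans (by linarith))
      · refine step (1 - v) {a | 2 / 3 < u a} C2 (fun a => ?_)
          (isOpen_lt continuous_const u.continuous)
          (fun a ha => by simp only [mem_setOf_eq, u1 ha]; norm_num) (fun a ha => ?_)
          (fun V hV => (c4 V hV).2) (by linarith)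
        · simp only [ContinuousMap.sub_apply, ContinuousMap.one_apply]
          constructor <;> linarith [(v0 a).1, (v0 a).2]
        · have : 2 / 3 < u a := ha
          simp only [ContinuousMap.sub_apply, ContinuousMap.one_apply, v, ContinuousMap.coe_mk]
          rw [min_eq_left (by linarith), max_eq_right zero_le_one, sub_self]
  obtain ⟨k, hk⟩ := exists_nat_gt (3 * |C|)
  obtain ⟨x, -, h, h1, h2, -⟩ := key k
  have h3 : ‖h‖ ≤ 1 := (ContinuousMap.norm_le _ zero_le_one).2 h1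
  have h4 := hC h x
  have h5 : C * ‖h‖ ≤ |C| := by
    nlinarith [le_abs_self C, abs_nonneg C, norm_nonneg h]
  linarith [le_abs_self (T h x)]

variable {κ : Type*}

lemma sunflower (t : ℕ) : ∀ (I : Set κ) (T : κ → Finset κ), I.Infinite →
    (∀ i ∈ I, (T i).card ≤ t) → ∃ (R : Finset κ) (j : ℕ → κ), Injective j ∧ (∀ n, j n ∈ I) ∧
      ∀ p ∉ R, ∀ n n', p ∈ T (j n) → p ∈ T (j n') → n = n' := by
  classical
  have base : ∀ (I : Set κ) (T : κ → Finset κ), I.Infinite → (∀ p, {i ∈ I | p ∈ T i}.Finite) →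
      ∃ (R : Finset κ) (j : ℕ → κ), Injective j ∧ (∀ n, j n ∈ I) ∧
      ∀ p ∉ R, ∀ n n', p ∈ T (j n) → p ∈ T (j n') → n = n' := by
    intro I T hI h
    obtain ⟨j, j1, j2⟩ := exists_seq_of_forall_finset_exists (fun x => x ∈ I)
      (fun x y => x ≠ y ∧ Disjoint (T x) (T y)) (fun s _ => by
        have hf : ((s : Set κ) ∪ ⋃ x ∈ s, ⋃ p ∈ T x, {i ∈ I | p ∈ T i}).Finite :=
          s.finite_toSet.union (s.finite_toSet.biUnion fun x _ =>
            (T x).finite_toSet.biUnion fun p _ => h p)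
        obtain ⟨y, y1, y2⟩ := (hI.diff hf).nonempty
        refine ⟨y, y1, fun x hx => ⟨fun e => y2 (Or.inl (e ▸ hx)), ?_⟩⟩
        rw [Finset.disjoint_left]
        intro p p1 p2
        exact y2 (Or.inr (mem_biUnion hx (mem_biUnion p1 ⟨y1, p2⟩))))
    refine ⟨∅, j, fun m n e => ?_, j1, fun p _ n n' h1 h2 => ?_⟩
    · rcases lt_trichotomy m n with h | h | h
      · exact absurd e (j2 m n h).1
      · exact h
      · exact absurd e.symm (j2 n m h).1
    · rcases lt_trichotomy n n' with h | h | h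
      · exact absurd h2 (Finset.disjoint_left.1 (j2 n n' h).2 h1)
      · exact h
      · exact absurd h1 (Finset.disjoint_left.1 (j2 n' n h).2 h2)
  induction t with
  | zero =>
    intro I T hI h
    refine base I T hI fun p => finite_empty.subset ?_
    rintro i ⟨h1, h2⟩
    have := Finset.card_eq_zero.1 (Nat.le_zero.1 (h i h1))
    simp [this] at h2
  | succ t ih =>
    intro I T hI h
    by_cases hp : ∀ p, {i ∈ I | p ∈ T i}.Finite
    · exact base I T hI hp
    push Not at hp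
    obtain ⟨p, hp⟩ := hp
    obtain ⟨R, j, j1, j2, j3⟩ := ih _ (fun i => (T i).erase p) hp fun i hi => by
      have := h i hi.1
      rw [Finset.card_erase_of_mem hi.2]; omega
    refine ⟨insert p R, j, j1, fun n => (j2 n).1, fun q hq n n' h1 h2 => ?_⟩
    rw [Finset.mem_insert, not_or] at hq
    exact j3 q hq.2 n n' (Finset.mem_erase.2 ⟨hq.1, h1⟩) (Finset.mem_erase.2 ⟨hq.1, h2⟩)

lemma pigeon {I : Set κ} (hI : ¬ I.Countable) (g : κ → ℕ) : ∃ n, ¬ {i ∈ I | g i = n}.Countable := by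
  by_contra h
  push Not at h
  exact hI ((countable_iUnion h).mono fun i hi =>
    mem_iUnion.2 ⟨g i, show i ∈ I ∧ g i = g i from ⟨hi, rfl⟩⟩)

def Cl (m : ℕ) (T : Finset κ) (a b : ℕ → OnePoint κ) : Prop :=
  ∀ s < m, ∀ p ∈ T, (a s = (p : κ) ↔ b s = (p : κ))

variable [TopologicalSpace κ] [DiscreteTopology κ]

lemma clopen_pt (s : ℕ) (p : κ) : IsClopen {a : ℕ → OnePoint κ | a s = p} := by
  have h : IsClopen ({(p : OnePoint κ)} : Set (OnePoint κ)) := by
    refine ⟨isClosed_singleton, ?_⟩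
    rw [← image_singleton]
    exact OnePoint.isOpen_image_coe.2 (isOpen_discrete _)
  exact h.preimage (continuous_apply s)

lemma Cl_nhds (m : ℕ) (T : Finset κ) (z : ℕ → OnePoint κ) : {a | Cl m T a z} ∈ 𝓝 z := by
  have : ∀ᶠ a : ℕ → OnePoint κ in 𝓝 z, ∀ s ∈ Finset.range m, ∀ p ∈ T,
      (a s = (p : κ) ↔ z s = (p : κ)) := by
    refine (eventually_all_finset _).2 fun s _ => (eventually_all_finset _).2 fun p _ => ?_
    by_cases h : z s = p
    · filter_upwards [(clopen_pt s p).isOpen.mem_nhds h] with a ha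
      exact iff_of_true ha h
    · filter_upwards [(clopen_pt s p).compl.isOpen.mem_nhds h] with a ha
      exact iff_of_false ha h
  filter_upwards [this] with a ha s hs
  exact ha s (Finset.mem_range.2 hs)

lemma unif (φ : (ℕ → OnePoint κ) → ℝ) (hφ : Continuous φ) {ε : ℝ} (hε : 0 < ε) :
    ∃ (m : ℕ) (T : Finset κ), ∀ a b, Cl m T a b → |φ a - φ b| < ε := by
  classical
  have hK : IsCompact {p : (ℕ → OnePoint κ) × (ℕ → OnePoint κ) | ε ≤ |φ p.1 - φ p.2|} :=
    (isClosed_le continuous_const (by fun_prop)).isCompact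
  obtain ⟨t, ht⟩ := hK.elim_finite_subcover
    (fun q : ℕ × κ => {p : (ℕ → OnePoint κ) × (ℕ → OnePoint κ) |
      ¬ (p.1 q.1 = q.2 ↔ p.2 q.1 = q.2)})
    (fun q => by
      have h1 := (clopen_pt q.1 q.2).preimage
        (continuous_fst (X := ℕ → OnePoint κ) (Y := ℕ → OnePoint κ))
      have h2 := (clopen_pt q.1 q.2).preimage
        (continuous_snd (X := ℕ → OnePoint κ) (Y := ℕ → OnePoint κ))
      convert ((h1.inter h2.compl).union (h1.compl.inter h2)).isOpen using 1
      ext p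
      simp only [mem_setOf_eq, mem_union, mem_inter_iff, mem_preimage, mem_compl_iff]
      tauto) (by
      rintro ⟨z, w⟩ h
      have : z ≠ w := by
        rintro rfl
        simp only [mem_setOf_eq, sub_self, abs_zero] at h
        linarith
      obtain ⟨s, hs⟩ := Function.ne_iff.1 this
      by_cases h1 : z s = OnePoint.infty
      · obtain ⟨p, hp⟩ := OnePoint.ne_infty_iff_exists.1 (show w s ≠ OnePoint.infty from h1 ▸ hs.symm)
        refine mem_iUnion.2 ⟨(s, p), fun h2 => hs ?_⟩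
        exact (h2.2 hp.symm).trans hp
      · obtain ⟨p, hp⟩ := OnePoint.ne_infty_iff_exists.1 h1
        refine mem_iUnion.2 ⟨(s, p), fun h2 => hs ?_⟩
        exact hp.symm.trans (h2.1 hp.symm).symm)
  refine ⟨t.sup Prod.fst + 1, t.image Prod.snd, fun z w h => ?_⟩
  by_contra hc
  have := ht (show (z, w) ∈ {p : (ℕ → OnePoint κ) × (ℕ → OnePoint κ) | ε ≤ |φ p.1 - φ p.2|}
    from not_lt.1 hc)
  simp only [mem_iUnion, mem_setOf_eq] at this
  obtain ⟨q, hq, h3⟩ := this
  exact h3 (h q.1 (Nat.lt_succ_of_le (Finset.le_sup (f := Prod.fst) hq)) q.2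
    (Finset.mem_image_of_mem _ hq))

end Pool.Agent.H81.Av
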