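import Pool.Agent.H81.Aver1

set_option autoImplicit false

/-! No map of `A(κ)^ℕ` to the ball `B(κ)` has an averaging operator. -/

namespace Pool.Agent.H81.Av
open Set Function Filter Topology

variable {κ : Type*}

def BB (κ : Type*) : Set (κ → ℝ) := {x | ∀ F : Finset κ, ∑ i ∈ F, |x i| ≤ 1}

instance : CompactSpace (BB κ) := by
  refine isCompact_iff_compactSpace.1 ((isCompact_univ_pi fun _ : κ =>
    (isCompact_Icc : IsCompact (Icc (-1 : ℝ) 1))).of_isClosed_subset ?_ ?_)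
  · unfold BB
    rw [setOf_forall]
    exact isClosed_iInter fun F => isClosed_le (by fun_prop) continuous_const
  · intro x hx i _
    have := hx {i}
    rw [Finset.sum_singleton] at this
    exact abs_le.1 this

def PP (κ : Type*) : Set (BB κ) :=
  {x | ∃ S : Finset κ, (∀ i ∉ S, x.1 i = 0) ∧ ∑ i ∈ S, |x.1 i| < 1}

lemma mem_BB {y : κ → ℝ} {S : Finset κ} (h1 : ∀ i ∉ S, y i = 0) (h2 : ∑ i ∈ S, |y i| ≤ 1) :
    y ∈ BB κ := by
  classical
  intro F
  refine le_trans ?_ h2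
  calc ∑ i ∈ F, |y i| ≤ ∑ i ∈ F ∪ S, |y i| :=
        Finset.sum_le_sum_of_subset_of_nonneg Finset.subset_union_left fun _ _ _ => abs_nonneg _
    _ = ∑ i ∈ S, |y i| := (Finset.sum_subset Finset.subset_union_right fun i _ hi => by
        rw [h1 i hi, abs_zero]).symm

/-- spread mass `r` uniformly over blocks of length `N` of the sequence `j`. -/
lemma seqY (x : BB κ) {S : Finset κ} (h1 : ∀ i ∉ S, x.1 i = 0) {r : ℝ} (hr : 0 < r)
    (h2 : ∑ i ∈ S, |x.1 i| + r < 1) (j : ℕ → κ) (hj : Injective j) (hjS : ∀ n, j n ∉ S) {N : ℕ}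
    (hN : 0 < N) : ∃ y : ℕ → BB κ, (∀ k, y k ∈ PP κ) ∧ Tendsto y atTop (𝓝 x) ∧
      (∀ k, ∀ i ∈ S, (y k).1 i = x.1 i) ∧
      ∀ k, ∀ n ∈ Finset.Ico (k * N) (k * N + N), (y k).1 (j n) = r / N := by
  classical
  let J : ℕ → Finset κ := fun k => (Finset.Ico (k * N) (k * N + N)).image j
  let Y : ℕ → κ → ℝ := fun k i => if i ∈ J k then r / N else x.1 i
  have hd : ∀ k, Disjoint S (J k) := fun k => Finset.disjoint_right.2 fun i hi => by
    obtain ⟨n, -, rfl⟩ := Finset.mem_image.1 hi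
    exact hjS n
  have hS : ∀ k, ∀ i ∈ S, Y k i = x.1 i := fun k i hi =>
    if_neg (Finset.disjoint_left.1 (hd k) hi)
  have h0 : ∀ k, ∀ i ∉ S ∪ J k, Y k i = 0 := fun k i hi => by
    rw [Finset.mem_union, not_or] at hi
    simp only [Y, if_neg hi.2, h1 i hi.1]
  have hN' : (0 : ℝ) < N := by exact_mod_cast hN
  have hs : ∀ k, ∑ i ∈ S ∪ J k, |Y k i| < 1 := fun k => by
    rw [Finset.sum_union (hd k), Finset.sum_congr rfl fun i hi => by rw [hS k i hi],
      Finset.sum_congr rfl (s₁ := J k) (g := fun _ => r / N) fun i hi => by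
        simp only [Y, if_pos hi]; exact abs_of_pos (div_pos hr hN'),
      Finset.sum_const, Finset.card_image_of_injective _ hj, Nat.card_Ico, nsmul_eq_mul,
      Nat.add_sub_cancel_left, mul_div_cancel₀ _ hN'.ne']
    exact h2
  refine ⟨fun k => ⟨Y k, mem_BB (h0 k) (hs k).le⟩, fun k => ⟨_, h0 k, hs k⟩, ?_, hS,
    fun k n hn => if_pos (Finset.mem_image_of_mem _ hn)⟩
  rw [tendsto_subtype_rng, tendsto_pi_nhds]
  intro i
  refine tendsto_const_nhds.congr' ?_
  by_cases hi : ∃ n, j n = i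
  · obtain ⟨n, rfl⟩ := hi
    filter_upwards [eventually_gt_atTop n] with k hk
    refine (if_neg fun h => ?_).symm
    obtain ⟨n', h3, h4⟩ := Finset.mem_image.1 h
    rw [hj h4, Finset.mem_Ico] at h3
    nlinarith [h3.1]
  · refine Eventually.of_forall fun k => (if_neg fun h => ?_).symm
    obtain ⟨n', -, h4⟩ := Finset.mem_image.1 h
    exact hi ⟨n', h4⟩

variable [TopologicalSpace κ] [DiscreteTopology κ]

lemma plural [Uncountable κ] (f : C(ℕ → OnePoint κ, BB κ)) (x : BB κ) (hx : x ∈ PP κ) :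
    ∃ C1 C2 : Set (ℕ → OnePoint κ), IsClosed C1 ∧ IsClosed C2 ∧ Disjoint C1 C2 ∧
      ∀ V ∈ 𝓝 x, (∃ y ∈ V ∩ PP κ, f ⁻¹' {y} ⊆ C1) ∧ ∃ y ∈ V ∩ PP κ, f ⁻¹' {y} ⊆ C2 := by
  classical
  obtain ⟨S, s1, s2⟩ := hx
  obtain ⟨r, hr⟩ : ∃ r : ℝ, r = 2 * (1 - ∑ i ∈ S, |x.1 i|) / 3 := ⟨_, rfl⟩
  have hr0 : 0 < r := by linarith
  have fc : ∀ i, Continuous fun a => (f a).1 i := fun i =>
    (continuous_apply i).comp (continuous_subtype_val.comp f.continuous)
  choose M1 T1 u1 using fun i => unif _ (fc i) (show 0 < r / 10 by linarith)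
  have hI0 : ¬ ((S : Set κ)ᶜ).Countable := fun h =>
    not_countable_univ (α := κ) (union_compl_self (S : Set κ) ▸ S.countable_toSet.union h)
  obtain ⟨m1, hI1⟩ := pigeon hI0 M1
  obtain ⟨N, hN⟩ : ∃ N : ℕ, N = 10 * (2 * m1 + 1) := ⟨_, rfl⟩
  have hN0 : 0 < N := by omega
  have hN' : (0 : ℝ) < N := by exact_mod_cast hN0
  choose M2 T2 u2 using fun i => unif _ (fc i) (show 0 < r / N / 10 by positivity)
  obtain ⟨m2, hI2⟩ := pigeon hI1 M2
  obtain ⟨t, hI3⟩ := pigeon hI2 fun i => (T2 i).card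
  obtain ⟨R, j, j1, j2, j3⟩ := sunflower t _ T2 (fun h => hI3 h.countable) fun i hi => hi.2.le
  have jS : ∀ n, j n ∉ S := fun n => (j2 n).1.1.1
  obtain ⟨y1, a1, a2, a3, a4⟩ := seqY x s1 hr0 (by linarith) j j1 jS one_pos
  obtain ⟨y2, b1, b2, b3, b4⟩ := seqY x s1 hr0 (by linarith) j j1 jS hN0
  obtain ⟨m0, T0, u0⟩ := unif (fun a => ∑ i ∈ S, |(f a).1 i|)
    (continuous_finset_sum _ fun i _ => (fc i).abs) (show 0 < r / 10 by linarith)
  let C : (ℕ → BB κ) → ℕ → Set (ℕ → OnePoint κ) := fun y n => closure (⋃ k ≥ n, f ⁻¹' {y k})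
  have Cm : ∀ y n, C y (n + 1) ⊆ C y n := fun y n =>
    closure_mono (biUnion_subset_biUnion_left fun k hk => Nat.le_of_succ_le hk)
  have fin : ∀ y : ℕ → BB κ, (∀ k, y k ∈ PP κ) → Tendsto y atTop (𝓝 x) → ∀ n, ∀ V ∈ 𝓝 x,
      ∃ w ∈ V ∩ PP κ, f ⁻¹' {w} ⊆ C y n := by
    intro y h1 h2 n V hV
    obtain ⟨k, k1, k2⟩ := ((h2.eventually hV).and (eventually_ge_atTop n)).exists
    exact ⟨y k, ⟨k1, h1 k⟩, (subset_biUnion_of_mem (u := fun k => f ⁻¹' {y k}) k2).trans
      subset_closure⟩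
  suffices h : ∃ n, Disjoint (C y1 n) (C y2 n) by
    obtain ⟨n, hn⟩ := h
    exact ⟨_, _, isClosed_closure, isClosed_closure, hn,
      fun V hV => ⟨fin y1 a1 a2 n V hV, fin y2 b1 b2 n V hV⟩⟩
  by_contra hc
  push Not at hc
  obtain ⟨z, hz⟩ := IsCompact.nonempty_iInter_of_sequence_nonempty_isCompact_isClosed
    (fun n => C y1 n ∩ C y2 n) (fun n => inter_subset_inter (Cm _ n) (Cm _ n))
    (fun n => not_disjoint_iff_nonempty_inter.1 (hc n))
    (isClosed_closure.inter isClosed_closure).isCompact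
    fun n => isClosed_closure.inter isClosed_closure
  obtain ⟨z1, z2⟩ := mem_iInter.1 hz 0
  obtain ⟨a, ha, ha'⟩ := mem_closure_iff_nhds.1 z1 _ (Cl_nhds (max m0 m2) (R ∪ T0) z)
  obtain ⟨b, hb, hb'⟩ := mem_closure_iff_nhds.1 z2 _ (Cl_nhds (max m0 m2) (R ∪ T0) z)
  simp only [mem_iUnion, mem_preimage, mem_singleton_iff] at ha' hb'
  obtain ⟨k, -, hk⟩ := ha'
  obtain ⟨l, -, hl⟩ := hb'
  have hab : Cl (max m0 m2) (R ∪ T0) a b := fun s hs p hp => (ha s hs p hp).trans (hb s hs p hp).symm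
  let c : ℕ → OnePoint κ := fun s => if s < m1 then a s else b s
  have c0 : ∑ i ∈ S, |x.1 i| - r / 10 < ∑ i ∈ S, |(f c).1 i| := by
    have := u0 a c fun s hs p hp => by
      simp only [c]
      split_ifs
      · rfl
      · exact hab s (lt_max_of_lt_left hs) p (Finset.mem_union_right _ hp)
    rw [hk, Finset.sum_congr rfl fun i hi => by rw [a3 k i hi], abs_lt] at this
    linarith [this.2]
  have c1 : r - r / 10 < |(f c).1 (j k)| := by
    have := u1 (j k) a c fun s hs p hp => by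
      rw [(j2 k).1.1.2] at hs
      simp only [c, if_pos hs]
    rw [hk, a4 k k (by simp), abs_lt] at this
    have h2 := le_abs_self ((f c).1 (j k))
    norm_num at this
    linarith [this.2]
  have idx : ∀ w : OnePoint κ, ∃ n0, ∀ n, ∀ p ∉ R, p ∈ T2 (j n) → w = p → n = n0 := by
    intro w
    by_cases h : ∃ n, ∃ p ∉ R, p ∈ T2 (j n) ∧ w = p
    · obtain ⟨n0, p0, h1, h2, h3⟩ := h
      refine ⟨n0, fun n p h4 h5 h6 => ?_⟩
      have : p = p0 := OnePoint.coe_injective (h6.symm.trans h3)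
      exact j3 p h4 n n0 h5 (this ▸ h2)
    · exact ⟨0, fun n p h4 h5 h6 => absurd ⟨n, p, h4, h5, h6⟩ h⟩
  choose ix hix using idx
  let D : Finset ℕ := insert k ((Finset.range m1).image (fun s => ix (a s)) ∪
    (Finset.range m1).image fun s => ix (b s))
  have hD : D.card ≤ 2 * m1 + 1 := by
    refine (Finset.card_insert_le _ _).trans (Nat.succ_le_succ ((Finset.card_union_le _ _).trans ?_))
    have e1 := Finset.card_image_le (s := Finset.range m1) (f := fun s => ix (a s))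
    have e2 := Finset.card_image_le (s := Finset.range m1) (f := fun s => ix (b s))
    rw [Finset.card_range] at e1 e2
    omega
  let G := Finset.Ico (l * N) (l * N + N) \ D
  have hG : 9 * N ≤ 10 * G.card := by
    have := Finset.le_card_sdiff D (Finset.Ico (l * N) (l * N + N))
    rw [Nat.card_Ico, Nat.add_sub_cancel_left] at this
    simp only [G]
    omega
  have c2 : ∀ n ∈ G, r / N - r / N / 10 ≤ |(f c).1 (j n)| := by
    intro n hn
    obtain ⟨n1, n2⟩ := Finset.mem_sdiff.1 hn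
    have := u2 (j n) b c fun s hs p hp => by
      rw [(j2 n).1.2] at hs
      simp only [c]
      split_ifs with h
      · by_cases hR : p ∈ R
        · exact (hab s (lt_max_of_lt_right hs) p (Finset.mem_union_left _ hR)).symm
        · refine iff_of_false (fun e => n2 ?_) fun e => n2 ?_
          · exact Finset.mem_insert_of_mem (Finset.mem_union_right _ (Finset.mem_image.2
              ⟨s, Finset.mem_range.2 h, (hix _ n p hR hp e).symm⟩))
          · exact Finset.mem_insert_of_mem (Finset.mem_union_left _ (Finset.mem_image.2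
              ⟨s, Finset.mem_range.2 h, (hix _ n p hR hp e).symm⟩))
      · rfl
    rw [hl, b4 l n n1, abs_lt] at this
    linarith [this.2, le_abs_self ((f c).1 (j n))]
  have hkG : k ∉ G := fun h => (Finset.mem_sdiff.1 h).2 (Finset.mem_insert_self _ _)
  have tot := (f c).2 (S ∪ (insert k G).image j)
  rw [Finset.sum_union (Finset.disjoint_right.2 fun i hi => by
    obtain ⟨n, -, rfl⟩ := Finset.mem_image.1 hi
    exact jS n), Finset.sum_image fun _ _ _ _ h => j1 h, Finset.sum_insert hkG] at tot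
  have c3 := Finset.card_nsmul_le_sum G _ _ c2
  rw [nsmul_eq_mul] at c3
  have hG' : (9 : ℝ) * N ≤ 10 * G.card := by exact_mod_cast hG
  have e : r / N * N = r := div_mul_cancel₀ _ hN'.ne'
  have hq : 0 < r / N := by positivity
  generalize r / N = q at *
  nlinarith

theorem main [Uncountable κ] (f : C(ℕ → OnePoint κ, BB κ))
    (T : C(ℕ → OnePoint κ, ℝ) →ₗ[ℝ] C(BB κ, ℝ)) (C : ℝ) (hC : ∀ h x, |T h x| ≤ C * ‖h‖)
    (hT : ∀ g : C(BB κ, ℝ), T (g.comp f) = g) : False :=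
  ditor f T C hC hT (PP κ) ⟨⟨0, fun F => by simp⟩, ∅, fun _ _ => rfl, by simp⟩ (plural f)

end Pool.Agent.H81.Av
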