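import Mathlib

set_option autoImplicit false

/-! Planar moves preserving `|t| + |y|`. -/

namespace Pool.Agent.H81.Bl
open Set

noncomputable def cl (a b t : ℝ) : ℝ := max a (min b t)

noncomputable def nr (p : ℝ × ℝ) : ℝ := |p.1| + |p.2|

noncomputable def PP (s θ : ℝ) : ℝ × ℝ :=
  (s - |θ|, -θ + 2 * max (θ - s) 0 - 2 * max (-θ - s) 0)

noncomputable def th (p : ℝ × ℝ) : ℝ := if 0 ≤ p.2 then p.1 - nr p else nr p - p.1

noncomputable def MM (φ : ℝ → ℝ → ℝ) (p : ℝ × ℝ) : ℝ × ℝ := PP (nr p) (φ (nr p) (th p))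

lemma nr_nonneg (p : ℝ × ℝ) : 0 ≤ nr p := by unfold nr; positivity

lemma nr_PP {s θ : ℝ} (h1 : -2 * s ≤ θ) (h2 : θ ≤ 2 * s) : nr (PP s θ) = s := by
  simp only [nr, PP, max_def, abs]
  split_ifs <;> linarith

lemma th_PP {s θ : ℝ} (h1 : -2 * s ≤ θ) (h2 : θ ≤ 2 * s) (h3 : θ < 2 * s ∨ θ ≤ 0) :
    th (PP s θ) = θ := by
  unfold th
  rw [nr_PP h1 h2]
  simp only [PP, max_def, abs]
  rcases h3 with h3 | h3 <;> split_ifs <;> linarith

lemma PP_th (p : ℝ × ℝ) : PP (nr p) (th p) = p := by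
  obtain ⟨t, y⟩ := p
  simp only [PP, th, nr, Prod.mk.injEq, max_def, abs]
  constructor <;> split_ifs <;> linarith

lemma th_rng (p : ℝ × ℝ) :
    -2 * nr p ≤ th p ∧ th p ≤ 2 * nr p ∧ (th p < 2 * nr p ∨ nr p = 0) := by
  obtain ⟨t, y⟩ := p
  have h0 := nr_nonneg (t, y)
  refine ⟨?_, ?_, ?_⟩
  · simp only [th, nr, max_def, abs]
    split_ifs <;> linarith
  · simp only [th, nr, max_def, abs]
    split_ifs <;> linarith
  · rcases h0.eq_or_lt with h | h
    · exact Or.inr h.symm
    · left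
      simp only [th, nr, max_def, abs] at h ⊢
      split_ifs at h ⊢ <;> linarith

structure Adm (φ : ℝ → ℝ → ℝ) : Prop where
  cont : Continuous fun q : ℝ × ℝ => φ q.1 q.2
  mono : ∀ s, StrictMono (φ s)
  lo : ∀ s, 0 ≤ s → φ s (-2 * s) = -2 * s
  hi : ∀ s, 0 ≤ s → φ s (2 * s) = 2 * s

variable {φ : ℝ → ℝ → ℝ}

lemma Adm.rng (h : Adm φ) (p : ℝ × ℝ) :
    -2 * nr p ≤ φ (nr p) (th p) ∧ φ (nr p) (th p) ≤ 2 * nr p ∧
      (φ (nr p) (th p) < 2 * nr p ∨ φ (nr p) (th p) ≤ 0) := by
  obtain ⟨h1, h2, h3⟩ := th_rng p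
  have a1 := (h.mono (nr p)).monotone h1
  have a2 := (h.mono (nr p)).monotone h2
  rw [h.lo _ (nr_nonneg p)] at a1
  rw [h.hi _ (nr_nonneg p)] at a2
  refine ⟨a1, a2, ?_⟩
  rcases h3 with h3 | h3
  · left
    have := h.mono (nr p) h3
    rwa [h.hi _ (nr_nonneg p)] at this
  · right; linarith

lemma Adm.nr_MM (h : Adm φ) (p : ℝ × ℝ) : nr (MM φ p) = nr p :=
  nr_PP (h.rng p).1 (h.rng p).2.1

lemma Adm.inj (h : Adm φ) : Function.Injective (MM φ) := by
  intro p q hpq
  have e1 : nr p = nr q := by rw [← h.nr_MM p, hpq, h.nr_MM]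
  have e2 := congrArg th hpq
  unfold MM at e2
  rw [th_PP (h.rng p).1 (h.rng p).2.1 (h.rng p).2.2,
    th_PP (h.rng q).1 (h.rng q).2.1 (h.rng q).2.2, ← e1] at e2
  have e3 := (h.mono _).injective e2
  rw [← PP_th p, e3, e1, PP_th]

lemma Adm.surj (h : Adm φ) : Function.Surjective (MM φ) := by
  intro q
  obtain ⟨h1, h2, h3⟩ := th_rng q
  have h0 := nr_nonneg q
  have hc : Continuous (φ (nr q)) := h.cont.comp (Continuous.prodMk_right (nr q))
  have hle : -2 * nr q ≤ 2 * nr q := by linarith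
  obtain ⟨θ, ⟨a1, a2⟩, a3⟩ := intermediate_value_Icc hle hc.continuousOn
    (show th q ∈ Icc (φ (nr q) (-2 * nr q)) (φ (nr q) (2 * nr q)) by
      rw [h.lo _ h0, h.hi _ h0]; exact ⟨h1, h2⟩)
  refine ⟨PP (nr q) θ, ?_⟩
  have a4 : θ < 2 * nr q ∨ θ ≤ 0 := by
    rcases a2.eq_or_lt with e | e
    · rw [e, h.hi _ h0] at a3
      rcases h3 with h3 | h3
      · linarith
      · right; linarith
    · exact Or.inl e
  unfold MM
  rw [nr_PP a1 a2, th_PP a1 a2 a4, a3, PP_th]

lemma Adm.cont_MM (h : Adm φ) : Continuous (MM φ) := by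
  have e : MM φ = fun p => if 0 ≤ p.2 then PP (nr p) (φ (nr p) (p.1 - nr p))
      else PP (nr p) (φ (nr p) (nr p - p.1)) := by
    funext p
    unfold MM th
    split_ifs <;> rfl
  have hn : Continuous nr := by unfold nr; fun_prop
  have hP : Continuous fun q : ℝ × ℝ => PP q.1 q.2 := by unfold PP; fun_prop
  rw [e]
  refine Continuous.if_le (hP.comp (hn.prodMk (h.cont.comp (hn.prodMk (continuous_fst.sub hn)))))
    (hP.comp (hn.prodMk (h.cont.comp (hn.prodMk (hn.sub continuous_fst))))) continuous_const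
    continuous_snd ?_
  rintro ⟨t, y⟩ hy
  simp only at hy
  subst hy
  rcases le_total 0 t with ht | ht
  · have : nr (t, 0) = t := by simp [nr, abs_of_nonneg ht]
    simp only [this, sub_self]
  · have e1 : nr (t, 0) = -t := by simp [nr, abs_of_nonpos ht]
    have e2 : t - -t = -2 * -t := by ring
    have e3 : -t - t = 2 * -t := by ring
    simp only [e1]
    rw [e2, e3, h.lo _ (by linarith), h.hi _ (by linarith)]
    simp only [PP, Prod.mk.injEq, max_def, abs]
    constructor <;> split_ifs <;> linarith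

noncomputable def gg (c e t : ℝ) : ℝ := max (t - c + e) 0 / e

noncomputable def T0 (c e s θ : ℝ) : ℝ :=
  min (2 * min (s + min θ 0) 0) (min θ 0 + gg c e (s + min θ 0)) + max (s + min θ 0 - c) 0 +
    max (θ - max (s - c) 0) 0

lemma gg_nonneg {c e : ℝ} (he : 0 < e) (t : ℝ) : 0 ≤ gg c e t := by unfold gg; positivity

lemma gg_mono {c e : ℝ} (he : 0 < e) : Monotone (gg c e) := fun x y h => by
  unfold gg; gcongr

lemma gg_c {c e : ℝ} (he : 0 < e) : gg c e c = 1 := by
  unfold gg
  rw [sub_self, zero_add, max_eq_left he.le, div_self he.ne']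

lemma gg_zero {c e t : ℝ} (h : t ≤ c - e) : gg c e t = 0 := by
  unfold gg
  rw [max_eq_right (by linarith), zero_div]

lemma T0_mono {c e : ℝ} (he : 0 < e) (s : ℝ) : Monotone (T0 c e s) := fun x y h => by
  unfold T0
  have h1 : min x 0 ≤ min y 0 := min_le_min_right _ h
  have h2 : gg c e (s + min x 0) ≤ gg c e (s + min y 0) := gg_mono he (by linarith)
  gcongr

lemma T0_lo {c e s : ℝ} (hc : 0 ≤ c) (he : 0 < e) (hs : 0 ≤ s) : T0 c e s (-2 * s) = -2 * s := by
  unfold T0
  have := gg_nonneg (c := c) he (s + min (-2 * s) 0)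
  generalize gg c e (s + min (-2 * s) 0) = G at this
  simp only [max_def, min_def]
  split_ifs <;> linarith

lemma T0_hi {c e s : ℝ} (hc : 0 ≤ c) (he : 0 < e) (hs : 0 ≤ s) : T0 c e s (2 * s) = 2 * s := by
  unfold T0
  have := gg_nonneg (c := c) he (s + min (2 * s) 0)
  generalize gg c e (s + min (2 * s) 0) = G at this
  simp only [max_def, min_def]
  split_ifs <;> linarith

lemma T0_val {c e : ℝ} (hc : 0 ≤ c) (he : 0 < e) (p : ℝ × ℝ) (hp : nr p ≤ 1) :
    nr p - |T0 c e (nr p) (th p)| = min p.1 c + min (max p.2 0) (gg c e (min p.1 c)) := by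
  obtain ⟨t, y⟩ := p
  have a1 : t ≤ |t| := le_abs_self t
  have a2 : 0 ≤ |t| := abs_nonneg t
  unfold T0 th
  simp only
  split_ifs with hy
  · have e1 : nr (t, y) = |t| + y := by simp [nr, abs_of_nonneg hy]
    rw [e1] at hp ⊢
    have e2 : min (t - (|t| + y)) 0 = t - (|t| + y) := min_eq_left (by linarith)
    have e3 : |t| + y + (t - (|t| + y)) = t := by ring
    rw [e2, e3, max_eq_left hy]
    rcases le_total t c with htc | htc
    · rw [min_eq_left htc]
      have := gg_nonneg (c := c) he t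
      generalize gg c e t = G at this
      simp only [max_def, min_def, abs]
      split_ifs <;> linarith
    · rw [min_eq_right htc, gg_c he]
      have := gg_mono (c := c) he htc
      rw [gg_c he] at this
      generalize gg c e t = G at this
      rw [abs_of_nonneg (hc.trans htc)] at *
      simp only [max_def, min_def, abs]
      split_ifs <;> linarith
  · push Not at hy
    have e1 : nr (t, y) = |t| - y := by simp [nr, abs_of_neg hy, sub_eq_add_neg]
    rw [e1] at hp ⊢
    have e2 : min (|t| - y - t) 0 = 0 := min_eq_right (by linarith)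
    rw [e2, max_eq_right hy.le, min_eq_left (gg_nonneg he _)]
    have := gg_nonneg (c := c) he (|t| - y + 0)
    generalize gg c e (|t| - y + 0) = G at this
    generalize |t| = u at *
    simp only [max_def, min_def, abs]
    split_ifs <;> linarith

def StepOK (δ lo hi lo' hi' : ℝ) : Prop :=
  ∀ η > (0 : ℝ), ∃ M : ℝ × ℝ ≃ ℝ × ℝ, Continuous M ∧ (∀ p, nr (M p) = nr p) ∧ ∃ η' > (0 : ℝ),
    (∀ p, nr p ≤ 1 → ∀ a b, lo ≤ a → a ≤ b → b ≤ hi → |cl a b (M p).1 - cl a b p.1| ≤ η) ∧
    ∀ p q, nr p ≤ 1 → nr q ≤ 1 → cl 0 δ p.2 = cl 0 δ q.2 → |cl lo hi p.1 - cl lo hi q.1| ≤ η' →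
      |cl lo' hi' (M p).1 - cl lo' hi' (M q).1| ≤ η

lemma cl_lip (a b t u : ℝ) : |cl a b t - cl a b u| ≤ |t - u| := by
  simp only [cl, max_def, min_def, abs]
  split_ifs <;> linarith

lemma cl_neg {a b : ℝ} (h : a ≤ b) (t : ℝ) : cl (-b) (-a) (-t) = -cl a b t := by
  simp only [cl, max_def, min_def]
  split_ifs <;> linarith

lemma key1 {c e a b : ℝ} (he : 0 < e) (hab : a ≤ b) (hb : b ≤ c) (t z : ℝ) (hz : 0 ≤ z) :
    |cl a b (min t c + min z (gg c e (min t c))) - cl a b t| ≤ e := by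
  rcases le_total t (c - e) with h | h
  · rw [min_eq_left (by linarith : t ≤ c), gg_zero h, min_eq_right hz, add_zero, sub_self,
      abs_zero]
    exact he.le
  · have := le_min hz (gg_nonneg (c := c) he (min t c))
    generalize min z (gg c e (min t c)) = G at this
    simp only [cl, max_def, min_def, abs]
    split_ifs <;> linarith

lemma key2 {c e δ lo : ℝ} (he : 0 < e) (hδ : 0 < δ) (hlo : lo ≤ c - e) (t y : ℝ) :
    |cl lo (c + δ) (min t c + min (max y 0) (gg c e (min t c))) -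
      cl lo (c + δ) (cl lo c t + min (cl 0 δ y) (gg c e (cl lo c t)))| ≤ e := by
  rcases le_total t (c - e) with h | h
  · have h2 : cl lo c t ≤ c - e := max_le hlo ((min_le_right _ _).trans h)
    rw [min_eq_left (by linarith : t ≤ c), gg_zero h, gg_zero h2,
      min_eq_right (le_max_right y 0), min_eq_right (show 0 ≤ cl 0 δ y from le_max_left _ _),
      add_zero, add_zero]
    have : cl lo (c + δ) t = cl lo (c + δ) (cl lo c t) := by
      unfold cl
      rw [min_eq_right (by linarith : t ≤ c), min_eq_right (by linarith : t ≤ c + δ),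
        min_eq_right (max_le (by linarith) (by linarith) : max lo t ≤ c + δ), ← max_assoc,
        max_self]
    rw [← this, sub_self, abs_zero]
    exact he.le
  · have h2 : cl lo c t = min t c := by
      unfold cl
      rw [min_comm, max_eq_right (le_min (by linarith) (by linarith))]
    rw [h2]
    have h3 : c - e ≤ min t c := le_min h (by linarith)
    have h4 : min t c ≤ c := min_le_right _ _
    have := gg_nonneg (c := c) he (min t c)
    generalize gg c e (min t c) = G at this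
    generalize min t c = τ at *
    have h5 : min (cl 0 δ y) G = min (min (max y 0) G) δ := by
      simp only [cl, max_def, min_def]
      split_ifs <;> linarith
    rw [h5]
    have h6 : 0 ≤ min (max y 0) G := le_min (le_max_right _ _) this
    generalize min (max y 0) G = m at *
    have h7 : 0 ≤ min m δ := le_min h6 hδ.le
    unfold cl
    rw [max_eq_right (le_min (by linarith) (by linarith) : lo ≤ min (c + δ) (τ + m)),
      max_eq_right (le_min (by linarith) (by linarith) : lo ≤ min (c + δ) (τ + min m δ)), abs_le]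
    simp only [min_def]
    constructor <;> split_ifs <;> linarith

lemma gg_lip {c e : ℝ} (he : 0 < e) (t u : ℝ) : |gg c e t - gg c e u| ≤ |t - u| / e := by
  unfold gg
  rw [← sub_div, abs_div, abs_of_pos he]
  have h := abs_max_sub_max_le_abs (t - c + e) (u - c + e) 0
  rw [show t - c + e - (u - c + e) = t - u by ring] at h
  exact div_le_div_of_nonneg_right h he.le

lemma stepUp {δ lo c : ℝ} (hδ : 0 < δ) (hc : 0 ≤ c) (hlo : lo < c) :
    StepOK δ lo c lo (c + δ) := by
  intro η hη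
  obtain ⟨e, he, he1, he2, he3⟩ : ∃ e : ℝ, 0 < e ∧ e ≤ η / 16 ∧ e ≤ c - lo ∧ e ≤ 1 :=
    ⟨min (η / 16) (min (c - lo) 1), lt_min (by linarith) (lt_min (by linarith) one_pos),
      min_le_left _ _, (min_le_right _ _).trans (min_le_left _ _),
      (min_le_right _ _).trans (min_le_right _ _)⟩
  let φ : ℝ → ℝ → ℝ := fun s θ => (1 - e) * T0 c e s θ + e * θ
  have hφ : Adm φ := by
    refine ⟨?_, fun s x y h => ?_, fun s hs => ?_, fun s hs => ?_⟩
    · simp only [φ, T0, gg]; fun_prop
    · have := T0_mono (c := c) he s h.le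
      simp only [φ]
      nlinarith
    · simp only [φ, T0_lo hc he hs]; ring
    · simp only [φ, T0_hi hc he hs]; ring
  have hv : ∀ p, nr p ≤ 1 →
      |(MM φ p).1 - (min p.1 c + min (max p.2 0) (gg c e (min p.1 c)))| ≤ 4 * e := by
    intro p hp
    rw [← T0_val hc he p hp]
    obtain ⟨h1, h2, -⟩ := th_rng p
    have a1 := T0_mono (c := c) he (nr p) h1
    have a2 := T0_mono (c := c) he (nr p) h2
    rw [T0_lo hc he (nr_nonneg p)] at a1
    rw [T0_hi hc he (nr_nonneg p)] at a2
    simp only [MM, PP, φ]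
    generalize T0 c e (nr p) (th p) = T at *
    have e1 : nr p - |(1 - e) * T + e * th p| - (nr p - |T|) = |T| - |(1 - e) * T + e * th p| := by
      ring
    rw [e1]
    refine (abs_abs_sub_abs_le_abs_sub _ _).trans ?_
    have e2 : T - ((1 - e) * T + e * th p) = e * (T - th p) := by ring
    rw [e2, abs_mul, abs_of_pos he, mul_comm]
    gcongr
    rw [abs_le]; constructor <;> linarith
  refine ⟨Equiv.ofBijective (MM φ) ⟨hφ.inj, hφ.surj⟩, hφ.cont_MM, hφ.nr_MM, e * e, by positivity,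
    fun p hp a b _ hab hb => ?_, fun p q hp hq h1 h2 => ?_⟩
  · have a1 := key1 he hab hb p.1 (max p.2 0) (le_max_right _ _)
    have a2 := (cl_lip a b _ _).trans (hv p hp)
    simp only [Equiv.ofBijective_apply]
    rw [abs_le] at *
    constructor <;> linarith [a1.1, a1.2, a2.1, a2.2]
  · have a1 := key2 he hδ (by linarith : lo ≤ c - e) p.1 p.2
    have a2 := key2 he hδ (by linarith : lo ≤ c - e) q.1 q.2
    have a3 := (cl_lip lo (c + δ) _ _).trans (hv p hp)
    have a4 := (cl_lip lo (c + δ) _ _).trans (hv q hq)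
    have a5 := gg_lip (c := c) he (cl lo c p.1) (cl lo c q.1)
    have a6 : |cl lo c p.1 - cl lo c q.1| / e ≤ e := by rw [div_le_iff₀ he]; exact h2
    have a7 : e * e ≤ e := by nlinarith
    have a8 := cl_lip lo (c + δ) (cl lo c p.1 + min (cl 0 δ p.2) (gg c e (cl lo c p.1)))
      (cl lo c q.1 + min (cl 0 δ q.2) (gg c e (cl lo c q.1)))
    have a9 : |cl lo c p.1 + min (cl 0 δ p.2) (gg c e (cl lo c p.1)) -
      (cl lo c q.1 + min (cl 0 δ q.2) (gg c e (cl lo c q.1)))| ≤ 2 * e := by
      rw [h1]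
      have b1 := a5.trans a6
      have b2 := h2.trans a7
      generalize gg c e (cl lo c p.1) = G at *
      generalize gg c e (cl lo c q.1) = H at *
      rw [abs_le] at b1 b2 ⊢
      obtain ⟨b1, b3⟩ := b1
      obtain ⟨b2, b4⟩ := b2
      simp only [min_def]
      constructor <;> split_ifs <;> linarith
    have a10 := a8.trans a9
    simp only [Equiv.ofBijective_apply]
    rw [abs_le] at a1 a2 a3 a4 a10 ⊢
    constructor <;> linarith [a1.1, a1.2, a2.1, a2.2, a3.1, a3.2, a4.1, a4.2, a10.1, a10.2]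

lemma StepOK.neg {δ lo hi lo' hi' : ℝ} (h : StepOK δ lo hi lo' hi') (h1 : lo ≤ hi)
    (h2 : lo' ≤ hi') : StepOK δ (-hi) (-lo) (-hi') (-lo') := by
  intro η hη
  obtain ⟨M, hc, hn, η', hη', a1, a2⟩ := h η hη
  let R : ℝ × ℝ ≃ ℝ × ℝ := (Equiv.neg ℝ).prodCongr (Equiv.refl ℝ)
  have hR : ∀ p, R p = (-p.1, p.2) := fun p => rfl
  have hRc : Continuous R := by
    have : (R : ℝ × ℝ → ℝ × ℝ) = fun p => (-p.1, p.2) := rfl
    rw [this]; fun_prop
  have hRn : ∀ p, nr (R p) = nr p := fun p => by simp [hR, nr]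
  refine ⟨(R.trans M).trans R, hRc.comp (hc.comp hRc), fun p => ?_, η', hη',
    fun p hp a b ha hab hb => ?_, fun p q hp hq b1 b2 => ?_⟩
  · simp only [Equiv.trans_apply, hRn, hn]
  · have := a1 (R p) (by rwa [hRn]) (-b) (-a) (by linarith) (by linarith) (by linarith)
    simp only [Equiv.trans_apply]
    rw [hR (M (R p))]
    have e1 := cl_neg (neg_le_neg hab) (M (R p)).1
    have e2 := cl_neg hab p.1
    rw [neg_neg, neg_neg] at e1
    rw [hR p] at this
    simp only at this ⊢
    rw [e2] at this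
    rw [hR p] at e1
    rw [hR p, e1, abs_le] at *
    constructor <;> linarith [this.1, this.2]
  · simp only [Equiv.trans_apply]
    rw [hR (M (R p)), hR (M (R q))]
    simp only
    rw [cl_neg h2, cl_neg h2, neg_sub_neg, abs_sub_comm]
    refine a2 (R p) (R q) (by rwa [hRn]) (by rwa [hRn]) b1 ?_
    have e1 := cl_neg h1 (-p.1)
    have e2 := cl_neg h1 (-q.1)
    rw [neg_neg] at e1 e2
    rw [e1, e2, neg_sub_neg, abs_sub_comm] at b2
    exact b2

lemma stepDown {δ hi c : ℝ} (hδ : 0 < δ) (hc : c ≤ 0) (hhi : c < hi) :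
    StepOK δ c hi (c - δ) hi := by
  have := (stepUp hδ (neg_nonneg.2 hc) (neg_lt_neg hhi)).neg (by linarith) (by linarith)
  rw [neg_neg, neg_neg] at this
  have e : -(-c + δ) = c - δ := by ring
  rwa [e] at this

end Pool.Agent.H81.Bl
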