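import Pool.Agent.H81.Ball1

set_option autoImplicit false

/-! Shrinking the fibres of the clamping map by norm preserving homeomorphisms. -/

namespace Pool.Agent.H81.Bl
open Set Function
open scoped ENNReal

variable {ι : Type*}

noncomputable def NN (x : ι → ℝ) : ℝ≥0∞ := ∑' i, ‖x i‖ₑ

lemma enorm_add_eq (p : ℝ × ℝ) : ‖p.1‖ₑ + ‖p.2‖ₑ = ENNReal.ofReal (nr p) := by
  unfold nr
  rw [ENNReal.ofReal_add (abs_nonneg _) (abs_nonneg _), ← Real.enorm_eq_ofReal_abs,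
    ← Real.enorm_eq_ofReal_abs]

open Classical in
lemma NN_split (x : ι → ℝ) {i j : ι} (h : i ≠ j) :
    NN x = ENNReal.ofReal (nr (x i, x j)) + ∑' l, if l = i ∨ l = j then 0 else ‖x l‖ₑ := by
  rw [← enorm_add_eq]
  unfold NN
  rw [ENNReal.tsum_eq_add_tsum_ite i, ENNReal.tsum_eq_add_tsum_ite j, if_neg h.symm, add_assoc]
  congr 2
  refine tsum_congr fun l => ?_
  by_cases h1 : l = i <;> by_cases h2 : l = j <;> simp [h1, h2]

lemma nr_le {x : ι → ℝ} (hx : NN x ≤ 1) {i j : ι} (h : i ≠ j) : nr (x i, x j) ≤ 1 := by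
  rw [NN_split x h] at hx
  exact ENNReal.ofReal_le_one.1 (le_self_add.trans hx)

lemma abs_le_one {x : ι → ℝ} (hx : NN x ≤ 1) (i : ι) : |x i| ≤ 1 := by
  have := (ENNReal.le_tsum (f := fun i => ‖x i‖ₑ) i).trans hx
  rwa [Real.enorm_eq_ofReal_abs, ENNReal.ofReal_le_one] at this

open Classical in
noncomputable def lf (M : ℝ × ℝ → ℝ × ℝ) (i j : ι) (x : ι → ℝ) : ι → ℝ :=
  fun l => if l = i then (M (x i, x j)).1 else if l = j then (M (x i, x j)).2 else x l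

lemma lf_i (M : ℝ × ℝ → ℝ × ℝ) (i j : ι) (x : ι → ℝ) : lf M i j x i = (M (x i, x j)).1 := by
  simp [lf]

lemma lf_j (M : ℝ × ℝ → ℝ × ℝ) {i j : ι} (h : i ≠ j) (x : ι → ℝ) :
    lf M i j x j = (M (x i, x j)).2 := by
  simp [lf, h.symm]

lemma lf_o (M : ℝ × ℝ → ℝ × ℝ) {i j l : ι} (h1 : l ≠ i) (h2 : l ≠ j) (x : ι → ℝ) :
    lf M i j x l = x l := by
  simp [lf, h1, h2]

lemma lf_lf (M M' : ℝ × ℝ → ℝ × ℝ) (hM : ∀ p, M' (M p) = p) {i j : ι} (h : i ≠ j) (x : ι → ℝ) :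
    lf M' i j (lf M i j x) = x := by
  funext l
  by_cases h1 : l = i
  · rw [h1, lf_i, lf_i, lf_j M h, Prod.mk.eta, hM]
  · by_cases h2 : l = j
    · rw [h2, lf_j M' h, lf_i, lf_j M h, Prod.mk.eta, hM]
    · rw [lf_o _ h1 h2, lf_o _ h1 h2]

noncomputable def lfE (M : ℝ × ℝ ≃ ℝ × ℝ) {i j : ι} (h : i ≠ j) : (ι → ℝ) ≃ (ι → ℝ) :=
  ⟨lf M i j, lf M.symm i j, lf_lf _ _ M.symm_apply_apply h, lf_lf _ _ M.apply_symm_apply h⟩

lemma lf_cont {M : ℝ × ℝ → ℝ × ℝ} (hM : Continuous M) (i j : ι) : Continuous (lf M i j) := by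
  refine continuous_pi fun l => ?_
  unfold lf
  split_ifs <;> fun_prop

lemma NN_lf {M : ℝ × ℝ → ℝ × ℝ} (hM : ∀ p, nr (M p) = nr p) {i j : ι} (h : i ≠ j) (x : ι → ℝ) :
    NN (lf M i j x) = NN x := by
  rw [NN_split _ h, NN_split x h, lf_i, lf_j M h, Prod.mk.eta, hM]
  congr 1
  refine tsum_congr fun l => ?_
  split_ifs with h1
  · rfl
  · push Not at h1
    rw [lf_o _ h1.1 h1.2]

def Claim (a b : ι → ℝ) (J : Finset ι) (lo hi : ι → ℝ) : Prop :=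
  ∀ η > 0, ∃ k : (ι → ℝ) ≃ (ι → ℝ), Continuous k ∧ (∀ x, NN (k x) = NN x) ∧ ∃ S : Finset ι,
    (∀ x, ∀ j ∉ S, k x j = x j) ∧
    (∀ x, NN x ≤ 1 → ∀ j ∈ J, |cl (a j) (b j) (k x j) - cl (a j) (b j) (x j)| ≤ η) ∧
    ∀ x y, NN x ≤ 1 → NN y ≤ 1 → (∀ j, cl (a j) (b j) (x j) = cl (a j) (b j) (y j)) →
      ∀ j ∈ J, |cl (lo j) (hi j) (k x j) - cl (lo j) (hi j) (k y j)| ≤ η

lemma claim0 (a b : ι → ℝ) (J : Finset ι) : Claim a b J a b := fun η hη =>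
  ⟨Equiv.refl _, continuous_id, fun _ => rfl, ∅, fun _ _ _ => rfl,
    fun x _ j _ => by simp [hη.le], fun x y _ _ h j _ => by simp [h j, hη.le]⟩

lemma cl_cl {a b δ : ℝ} (ha : a ≤ 0) (hδ : 0 ≤ δ) (hb : δ ≤ b) (t : ℝ) :
    cl 0 δ t = cl 0 δ (cl a b t) := by
  simp only [cl, max_def, min_def]
  split_ifs <;> linarith

lemma Claim.step [DecidableEq ι] {a b : ι → ℝ} {J : Finset ι} {lo hi : ι → ℝ}
    (H : Claim a b J lo hi) (ha : ∀ j, a j ≤ 0) {δ : ℝ} (hδ : 0 < δ)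
    (hinf : {j | δ ≤ b j}.Infinite) {i : ι} (hi' : i ∈ J) {l h : ℝ}
    (hs : StepOK δ (lo i) (hi i) l h) (h1 : lo i ≤ a i) (h2 : a i ≤ b i) (h3 : b i ≤ hi i) :
    Claim a b J (update lo i l) (update hi i h) := by
  intro η hη
  obtain ⟨M, hc, hn, η', hη', m1, m2⟩ := hs (η / 2) (by linarith)
  obtain ⟨k, kc, kn, S, k1, k2, k3⟩ := H (min η' (η / 2)) (lt_min hη' (by linarith))
  obtain ⟨j, hj, hj'⟩ := hinf.exists_notMem_finset (S ∪ J)
  rw [Finset.mem_union, not_or] at hj'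
  have hij : i ≠ j := fun e => hj'.2 (e ▸ hi')
  have e0 : ∀ x, (k.trans (lfE M hij)) x = lf M i j (k x) := fun x => rfl
  have l1 := min_le_left η' (η / 2)
  have l2 := min_le_right η' (η / 2)
  refine ⟨k.trans (lfE M hij), (lf_cont hc i j).comp kc, fun x => ?_, insert i (insert j S),
    fun x r hr => ?_, fun x hx r hr => ?_, fun x y hx hy hxy r hr => ?_⟩
  · rw [e0, NN_lf hn hij, kn]
  · simp only [Finset.mem_insert, not_or] at hr
    rw [e0, lf_o _ hr.1 hr.2.1, k1 _ _ hr.2.2]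
  · have a1 := k2 x hx r hr
    rw [e0]
    by_cases hri : r = i
    · subst hri
      have a2 := m1 (k x r, k x j) (nr_le (by rwa [kn]) hij) _ _ h1 h2 h3
      rw [lf_i]
      rw [abs_le] at *
      constructor <;> linarith [a1.1, a1.2, a2.1, a2.2]
    · rw [lf_o _ hri (fun e : r = j => hj'.2 (e ▸ hr))]
      linarith
  · have a1 := k3 x y hx hy hxy r hr
    rw [e0, e0]
    by_cases hri : r = i
    · subst hri
      rw [update_self, update_self, lf_i, lf_i]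
      refine (m2 (k x r, k x j) (k y r, k y j) (nr_le (by rwa [kn]) hij) (nr_le (by rwa [kn]) hij)
        ?_ (a1.trans l1)).trans (by linarith)
      simp only
      rw [k1 _ _ hj'.1, k1 _ _ hj'.1, cl_cl (ha j) hδ.le hj, hxy j, ← cl_cl (ha j) hδ.le hj]
    · rw [update_of_ne hri, update_of_ne hri, lf_o _ hri (fun e : r = j => hj'.2 (e ▸ hr)),
        lf_o _ hri (fun e : r = j => hj'.2 (e ▸ hr))]
      linarith

structure Dat (a b : ι → ℝ) : Prop where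
  ha : ∀ j, a j ≤ 0
  hb : ∀ j, 0 ≤ b j
  hab : ∀ j, a j < b j
  inf : ∀ _ : ι, ∃ δ > 0, {j | δ ≤ b j}.Infinite

def CC (a b : ι → ℝ) (J : Finset ι) (lo hi : ι → ℝ) : Prop :=
  Claim a b J lo hi ∧ (∀ j, lo j ≤ a j) ∧ ∀ j, b j ≤ hi j

variable {a b : ι → ℝ} {J : Finset ι}

lemma Dat.up (D : Dat a b) {lo hi : ι → ℝ} (H : CC a b J lo hi) {i : ι} (hi' : i ∈ J) :
    ∃ hi', CC a b J lo hi' ∧ 1 ≤ hi' i ∧ ∀ j, hi j ≤ hi' j := by
  classical
  obtain ⟨δ, hδ, hinf⟩ := D.inf i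
  have key : ∀ n : ℕ, ∃ hi', CC a b J lo hi' ∧ n * δ ≤ hi' i ∧ ∀ j, hi j ≤ hi' j := by
    intro n
    induction n with
    | zero => exact ⟨hi, H, by simpa using (D.hb i).trans (H.2.2 i), fun _ => le_rfl⟩
    | succ n ih =>
      obtain ⟨h, ⟨c1, c2, c3⟩, c4, c5⟩ := ih
      have := c1.step D.ha hδ hinf hi' (stepUp hδ ((D.hb i).trans (c3 i))
        ((c2 i).trans_lt ((D.hab i).trans_le (c3 i)))) (c2 i) (D.hab i).le (c3 i)
      rw [update_eq_self] at this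
      have hu : ∀ j, h j ≤ update h i (h i + δ) j := fun j => by
        by_cases e : j = i
        · subst e; rw [update_self]; linarith
        · rw [update_of_ne e]
      refine ⟨_, ⟨this, c2, fun j => (c3 j).trans (hu j)⟩, ?_, fun j => (c5 j).trans (hu j)⟩
      rw [update_self]; push_cast; linarith
  obtain ⟨n, hn⟩ := exists_nat_ge (1 / δ)
  obtain ⟨h, c1, c2, c3⟩ := key n
  exact ⟨h, c1, ((div_le_iff₀ hδ).1 hn).trans c2, c3⟩

lemma Dat.down (D : Dat a b) {lo hi : ι → ℝ} (H : CC a b J lo hi) {i : ι} (hi' : i ∈ J) :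
    ∃ lo', CC a b J lo' hi ∧ lo' i ≤ -1 ∧ ∀ j, lo' j ≤ lo j := by
  classical
  obtain ⟨δ, hδ, hinf⟩ := D.inf i
  have key : ∀ n : ℕ, ∃ lo', CC a b J lo' hi ∧ lo' i ≤ -(n * δ) ∧ ∀ j, lo' j ≤ lo j := by
    intro n
    induction n with
    | zero => exact ⟨lo, H, by simpa using (H.2.1 i).trans (D.ha i), fun _ => le_rfl⟩
    | succ n ih =>
      obtain ⟨h, ⟨c1, c2, c3⟩, c4, c5⟩ := ih
      have := c1.step D.ha hδ hinf hi' (stepDown hδ ((c2 i).trans (D.ha i))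
        ((c2 i).trans_lt ((D.hab i).trans_le (c3 i)))) (c2 i) (D.hab i).le (c3 i)
      rw [update_eq_self] at this
      have hu : ∀ j, update h i (h i - δ) j ≤ h j := fun j => by
        by_cases e : j = i
        · subst e; rw [update_self]; linarith
        · rw [update_of_ne e]
      refine ⟨_, ⟨this, fun j => (hu j).trans (c2 j), c3⟩, ?_, fun j => (hu j).trans (c5 j)⟩
      rw [update_self]; push_cast; linarith
  obtain ⟨n, hn⟩ := exists_nat_ge (1 / δ)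
  obtain ⟨h, c1, c2, c3⟩ := key n
  exact ⟨h, c1, c2.trans (neg_le_neg ((div_le_iff₀ hδ).1 hn)), c3⟩

lemma Dat.full (D : Dat a b) (J : Finset ι) (T : Finset ι) (hT : T ⊆ J) :
    ∃ lo hi, CC a b J lo hi ∧ ∀ j ∈ T, lo j ≤ -1 ∧ 1 ≤ hi j := by
  classical
  induction T using Finset.induction_on with
  | empty => exact ⟨a, b, ⟨claim0 a b J, fun _ => le_rfl, fun _ => le_rfl⟩, by simp⟩
  | insert i T _ ih =>
    obtain ⟨lo, hi, c1, c2⟩ := ih ((Finset.subset_insert _ _).trans hT)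
    have hi' := hT (Finset.mem_insert_self _ _)
    obtain ⟨hi2, d1, d2, d3⟩ := D.up c1 hi'
    obtain ⟨lo2, f1, f2, f3⟩ := D.down d1 hi'
    refine ⟨lo2, hi2, f1, fun j hj => ?_⟩
    rcases Finset.mem_insert.1 hj with rfl | hj
    · exact ⟨f2, d2⟩
    · exact ⟨(f3 j).trans (c2 j hj).1, (c2 j hj).2.trans (d3 j)⟩

lemma cl_eq {a b t : ℝ} (h1 : a ≤ t) (h2 : t ≤ b) : cl a b t = t := by
  unfold cl
  rw [min_eq_right h2, max_eq_right h1]

lemma Dat.shrink (D : Dat a b) (J : Finset ι) {η : ℝ} (hη : 0 < η) :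
    ∃ k : (ι → ℝ) ≃ (ι → ℝ), Continuous k ∧ (∀ x, NN (k x) = NN x) ∧
    (∀ x, NN x ≤ 1 → ∀ j ∈ J, |cl (a j) (b j) (k x j) - cl (a j) (b j) (x j)| ≤ η) ∧
    ∀ x y, NN x ≤ 1 → NN y ≤ 1 → (∀ j, cl (a j) (b j) (x j) = cl (a j) (b j) (y j)) →
      ∀ j ∈ J, |k x j - k y j| ≤ η := by
  obtain ⟨lo, hi, c1, c2⟩ := D.full J J subset_rfl
  obtain ⟨k, kc, kn, S, -, k2, k3⟩ := c1.1 η hη
  refine ⟨k, kc, kn, k2, fun x y hx hy hxy j hj => ?_⟩
  have a1 := abs_le.1 (abs_le_one (x := k x) (by rwa [kn]) j)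
  have a2 := abs_le.1 (abs_le_one (x := k y) (by rwa [kn]) j)
  have := k3 x y hx hy hxy j hj
  rwa [cl_eq ((c2 j hj).1.trans a1.1) (a1.2.trans (c2 j hj).2),
    cl_eq ((c2 j hj).1.trans a2.1) (a2.2.trans (c2 j hj).2)] at this

end Pool.Agent.H81.Bl
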