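import Pool.Agent.H81.Ball2

set_option autoImplicit false

/-! Bing shrinking (Baire category) for norm preserving homeomorphisms. -/

namespace Pool.Agent.H81.Bl
open Set Function Filter Topology
open scoped ENNReal

variable {ι : Type*}

lemma NN_lsc : LowerSemicontinuous (NN : (ι → ℝ) → ℝ≥0∞) :=
  lowerSemicontinuous_tsum fun i => ((continuous_apply i).enorm).lowerSemicontinuous

lemma NN_closed (r : ℝ≥0∞) : IsClosed {x : ι → ℝ | NN x ≤ r} := NN_lsc.isClosed_preimage r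

abbrev XX (ι : Type*) := {x : ι → ℝ // NN x ≤ 1}

instance : CompactSpace (XX ι) := by
  refine isCompact_iff_compactSpace.1 ((isCompact_univ_pi fun _ : ι =>
    (isCompact_Icc : IsCompact (Icc (-1 : ℝ) 1))).of_isClosed_subset (NN_closed 1) ?_)
  intro x hx i _
  exact abs_le.1 (abs_le_one hx i)

lemma evc (i : ι) : Continuous fun x : XX ι => x.1 i :=
  (continuous_apply i).comp continuous_subtype_val

lemma unif (φ : XX ι → ℝ) (hφ : Continuous φ) {ε : ℝ} (hε : 0 < ε) :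
    ∃ J : Finset ι, ∃ η > 0, ∀ z w : XX ι, (∀ j ∈ J, |z.1 j - w.1 j| ≤ η) → |φ z - φ w| < ε := by
  classical
  have hK : IsCompact {p : XX ι × XX ι | ε ≤ |φ p.1 - φ p.2|} :=
    (isClosed_le continuous_const (by fun_prop)).isCompact
  obtain ⟨t, ht⟩ := hK.elim_finite_subcover
    (fun q : ι × ℕ => {p : XX ι × XX ι | 1 / ((q.2 : ℝ) + 1) < |p.1.1 q.1 - p.2.1 q.1|})
    (fun q => isOpen_lt continuous_const
      (((evc q.1).comp continuous_fst).sub ((evc q.1).comp continuous_snd)).abs) (by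
      rintro ⟨z, w⟩ h
      have : z ≠ w := by
        rintro rfl
        simp only [mem_setOf_eq, sub_self, abs_zero] at h
        linarith
      obtain ⟨j, hj⟩ := Function.ne_iff.1 (fun e => this (Subtype.ext e))
      obtain ⟨n, hn⟩ := exists_nat_one_div_lt (abs_pos.2 (sub_ne_zero.2 hj))
      exact mem_iUnion.2 ⟨(j, n), hn⟩)
  have hev : ∀ᶠ η in 𝓝[>] (0 : ℝ), ∀ q ∈ t, η ≤ 1 / ((q.2 : ℝ) + 1) :=
    (eventually_all_finset t).2 fun q _ =>
      nhdsWithin_le_nhds (Iic_mem_nhds (Nat.one_div_pos_of_nat (n := q.2)))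
  obtain ⟨η, h1, h2⟩ := (hev.and self_mem_nhdsWithin).exists
  refine ⟨t.image Prod.fst, η, h2, fun z w h => ?_⟩
  by_contra hc
  have := ht (show (z, w) ∈ {p : XX ι × XX ι | ε ≤ |φ p.1 - φ p.2|} from not_lt.1 hc)
  simp only [mem_iUnion, mem_setOf_eq] at this
  obtain ⟨q, hq, h3⟩ := this
  linarith [h q.1 (Finset.mem_image_of_mem _ hq), h1 q hq]

lemma cl_cont (a b : ℝ) : Continuous (cl a b) := by unfold cl; fun_prop

noncomputable def rh (a b : ι → ℝ) (h : XX ι ≃ₜ XX ι) : ι → C(XX ι, ℝ) := fun i =>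
  ⟨fun x => cl (a i) (b i) ((h x).1 i), (cl_cont _ _).comp ((evc i).comp h.continuous)⟩

def RR (a b : ι → ℝ) : Set (ι → C(XX ι, ℝ)) :=
  {f | ∃ h : XX ι ≃ₜ XX ι, (∀ x, NN (h x).1 = NN x.1) ∧ f = rh a b h}

def UU (q : ι × ℕ) : Set (ι → C(XX ι, ℝ)) :=
  {f | ∀ x y : XX ι, (∀ j, f j x = f j y) → |x.1 q.1 - y.1 q.1| < 1 / ((q.2 : ℝ) + 1)}

lemma UU_open (q : ι × ℕ) : IsOpen (UU q) := by
  rw [← isClosed_compl_iff]
  have h : IsClosed {p : (ι → C(XX ι, ℝ)) × (XX ι × XX ι) | (∀ j, p.1 j p.2.1 = p.1 j p.2.2) ∧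
      1 / ((q.2 : ℝ) + 1) ≤ |p.2.1.1 q.1 - p.2.2.1 q.1|} := by
    rw [setOf_and, setOf_forall]
    exact IsClosed.inter (isClosed_iInter fun j => isClosed_eq (by fun_prop) (by fun_prop))
      (isClosed_le continuous_const (((evc q.1).comp (continuous_fst.comp continuous_snd)).sub
        ((evc q.1).comp (continuous_snd.comp continuous_snd))).abs)
  convert isClosedMap_fst_of_compactSpace _ h using 1
  ext f
  simp only [UU, mem_compl_iff, mem_setOf_eq, not_forall, not_lt, mem_image, Prod.exists,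
    exists_and_right, exists_eq_right, exists_prop]

variable {a b : ι → ℝ}

lemma Dat.dense (D : Dat a b) (q : ι × ℕ) : RR a b ⊆ closure (RR a b ∩ UU q) := by
  classical
  rintro f ⟨g, gn, rfl⟩
  rw [mem_closure_iff_nhds]
  intro t ht
  rw [nhds_pi, mem_pi'] at ht
  obtain ⟨I, s, hs, hI⟩ := ht
  have hev : ∀ᶠ η in 𝓝[>] (0 : ℝ), ∀ i ∈ I, Metric.closedBall (rh a b g i) η ⊆ s i :=
    (eventually_all_finset I).2 fun i _ =>
      nhdsWithin_le_nhds (eventually_closedBall_subset (hs i))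
  obtain ⟨η, h1, h2⟩ := (hev.and self_mem_nhdsWithin).exists
  obtain ⟨J, η', h3, h4⟩ := unif (fun z => (g.symm z).1 q.1) ((evc q.1).comp g.symm.continuous)
    (Nat.one_div_pos_of_nat (n := q.2))
  obtain ⟨k, kc, kn, k1, k2⟩ := D.shrink (I ∪ J) (lt_min h2 h3)
  let k' : XX ι ≃ XX ι := k.subtypeEquiv fun x => by rw [kn]
  have hk' : Continuous k' := (kc.comp continuous_subtype_val).subtype_mk _
  let K : XX ι ≃ₜ XX ι := hk'.homeoOfEquivCompactToT2
  have hK : ∀ x, (K x).1 = k x.1 := fun x => rfl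
  refine ⟨rh a b (g.trans K.symm), hI fun i hi => h1 i hi ?_, ⟨_, fun x => ?_, rfl⟩,
    fun x y hxy => ?_⟩
  · rw [Metric.mem_closedBall, ContinuousMap.dist_le (le_of_lt h2)]
    intro x
    have := k1 _ (K.symm (g x)).2 i (Finset.mem_union_left _ hi)
    rw [← hK, K.apply_symm_apply] at this
    rw [Real.dist_eq, abs_sub_comm]
    exact this.trans (min_le_left _ _)
  · rw [← gn x, Homeomorph.trans_apply, ← kn, ← hK, K.apply_symm_apply]
  · have := h4 (g x) (g y) fun j hj => by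
      have := k2 _ _ (K.symm (g x)).2 (K.symm (g y)).2 hxy j (Finset.mem_union_right _ hj)
      rw [← hK, ← hK, K.apply_symm_apply, K.apply_symm_apply] at this
      exact this.trans (min_le_right _ _)
    simpa using this

lemma enorm_cl {a b : ℝ} (ha : a ≤ 0) (hb : 0 ≤ b) (t : ℝ) : ‖cl a b t‖ₑ ≤ ‖t‖ₑ := by
  rw [Real.enorm_eq_ofReal_abs, Real.enorm_eq_ofReal_abs]
  refine ENNReal.ofReal_le_ofReal ?_
  have := cl_lip a b t 0
  rwa [cl_eq ha hb, sub_zero, sub_zero] at this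

theorem Dat.block [Countable ι] (D : Dat a b) :
    ∃ Φ : XX ι → ι → ℝ, Continuous Φ ∧ Injective Φ ∧ (∀ x, NN (Φ x) = NN x.1) ∧
      (∀ x j, a j ≤ Φ x j ∧ Φ x j ≤ b j) ∧
      ∀ y, NN y ≤ 1 → (∀ j, a j ≤ y j ∧ y j ≤ b j) → ∃ x, Φ x = y := by
  set F := closure (RR a b) with hF
  have hFc : IsClosed F := isClosed_closure
  have : TopologicalSpace.IsCompletelyMetrizableSpace F := hFc.isCompletelyMetrizableSpace
  have hd : Dense (⋂ q : ι × ℕ, (Subtype.val ⁻¹' UU q : Set F)) := by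
    refine dense_iInter_of_isOpen (fun q => (UU_open q).preimage continuous_subtype_val)
      fun q => ?_
    rw [Subtype.dense_iff, Subtype.image_preimage_coe]
    exact closure_minimal ((D.dense q).trans (closure_mono
      (inter_subset_inter_left _ subset_closure))) isClosed_closure
  have : Nonempty F := ⟨⟨_, subset_closure ⟨Homeomorph.refl _, fun _ => rfl, rfl⟩⟩⟩
  obtain ⟨⟨f, hf⟩, hU⟩ := hd.nonempty
  simp only [mem_iInter, mem_preimage] at hU
  have ev : ∀ x : XX ι, Continuous fun f : ι → C(XX ι, ℝ) => fun j => f j x := fun x => by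
    fun_prop
  have inj : Injective fun (x : XX ι) j => f j x := by
    intro x y h
    refine Subtype.ext (funext fun i => ?_)
    by_contra hne
    obtain ⟨n, hn⟩ := exists_nat_one_div_lt (abs_pos.2 (sub_ne_zero.2 hne))
    exact lt_asymm hn (hU (i, n) x y (congrFun h))
  have p1 : ∀ x : XX ι, NN (fun j => f j x) ≤ NN x.1 := fun x => by
    refine closure_minimal (t := {f : ι → C(XX ι, ℝ) | NN (fun j => f j x) ≤ NN x.1}) ?_
      ((NN_closed _).preimage (ev x)) hf
    rintro _ ⟨g, gn, rfl⟩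
    rw [mem_setOf_eq, ← gn x]
    exact ENNReal.tsum_le_tsum fun j => enorm_cl (D.ha j) (D.hb j) _
  have p2 : ∀ (x : XX ι) j, f j x ∈ Icc (a j) (b j) := fun x j => by
    refine closure_minimal (t := {f : ι → C(XX ι, ℝ) | f j x ∈ Icc (a j) (b j)}) ?_
      (isClosed_Icc.preimage (by fun_prop)) hf
    rintro _ ⟨g, gn, rfl⟩
    exact ⟨le_max_left _ _, max_le (D.hab j).le (min_le_left _ _)⟩
  have p3 : ∀ y, NN y ≤ 1 → (∀ j, a j ≤ y j ∧ y j ≤ b j) →
      ∃ x : XX ι, NN x.1 ≤ NN y ∧ (fun j => f j x) = y := fun y hy hy' => by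
    have h : IsClosed {p : (ι → C(XX ι, ℝ)) × XX ι | NN p.2.1 ≤ NN y ∧
        (fun j => p.1 j p.2) = y} :=
      ((NN_closed _).preimage (continuous_subtype_val.comp continuous_snd)).inter
        (isClosed_eq (by fun_prop) continuous_const)
    have := closure_minimal (s := RR a b) ?_ (isClosedMap_fst_of_compactSpace _ h) hf
    · obtain ⟨⟨f', x⟩, h1, rfl⟩ := this
      exact ⟨x, h1⟩
    rintro _ ⟨g, gn, rfl⟩
    refine ⟨(_, g.symm ⟨y, hy⟩), ⟨?_, funext fun j => ?_⟩, rfl⟩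
    · simp only
      rw [← gn, g.apply_symm_apply]
    · simp only [rh, ContinuousMap.coe_mk, g.apply_symm_apply]
      exact cl_eq (hy' j).1 (hy' j).2
  refine ⟨fun x j => f j x, by fun_prop, inj, fun x => le_antisymm (p1 x) ?_, p2,
    fun y hy hy' => ?_⟩
  · obtain ⟨x', h1, h2⟩ := p3 _ ((p1 x).trans x.2) (p2 x)
    rwa [inj h2] at h1
  · obtain ⟨x, -, h⟩ := p3 y hy hy'
    exact ⟨x, h⟩

end Pool.Agent.H81.Bl
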