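import Pool.Agent.H81.Ball3

set_option autoImplicit false

/-! Gluing countable blocks. -/

namespace Pool.Agent.H81.Bl
open Set Function Filter Topology
open scoped ENNReal

universe u
variable {κ : Type u}

lemma part1 (L : Set κ) (hL : L.Infinite) : ∃ f : κ → κ,
    (∀ l, {i ∈ L | f i = l}.Countable) ∧ ∀ i ∈ L, {j ∈ L | f j = f i}.Infinite := by
  classical
  have := hL.to_subtype
  obtain ⟨e⟩ : Nonempty (L ≃ L × ℕ) := by
    rw [← Cardinal.lift_mk_eq']
    simp only [Cardinal.mk_prod, Cardinal.lift_id, Cardinal.lift_uzero, Cardinal.mk_nat,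
      Cardinal.lift_aleph0]
    exact (Cardinal.mul_aleph0_eq (Cardinal.aleph0_le_mk L)).symm
  refine ⟨fun i => if h : i ∈ L then ((e ⟨i, h⟩).1 : κ) else i, fun l => ?_, fun i hi => ?_⟩
  · by_cases hl : l ∈ L
    · refine (countable_range fun n : ℕ => (e.symm (⟨l, hl⟩, n) : κ)).mono ?_
      rintro i ⟨hi, h⟩
      simp only [dif_pos hi] at h
      refine ⟨(e ⟨i, hi⟩).2, ?_⟩
      have : (⟨l, hl⟩ : L) = (e ⟨i, hi⟩).1 := Subtype.ext h.symm
      simp only [this, Prod.mk.eta, Equiv.symm_apply_apply]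
    · refine countable_empty.mono ?_
      rintro i ⟨hi, h⟩
      simp only [dif_pos hi] at h
      exact hl (h ▸ (e ⟨i, hi⟩).1.2)
  · refine infinite_of_injective_forall_mem (f := fun n : ℕ => (e.symm ((e ⟨i, hi⟩).1, n) : κ))
      (fun m n h => ?_) fun n => ⟨(e.symm _).2, ?_⟩
    · simpa using Subtype.ext h
    · simp only [dif_pos hi, dif_pos (e.symm ((e ⟨i, hi⟩).1, n)).2, Subtype.coe_eta,
        Equiv.apply_symm_apply]

lemma part2 [Uncountable κ] (b : κ → ℝ) (hb : ∀ i, 0 < b i) : ∃ β : κ → κ,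
    (∀ l, {i | β i = l}.Countable) ∧ ∀ i, ∃ δ > 0, {j | β j = β i ∧ δ ≤ b j}.Infinite := by
  classical
  choose ℓ hℓ using fun i => exists_nat_one_div_lt (hb i)
  let L : ℕ → Set κ := fun n => {i | ℓ i = n}
  obtain ⟨n0, hn0⟩ : ∃ n, (L n).Infinite := by
    by_contra h
    push Not at h
    refine not_countable_univ (α := κ) ((countable_iUnion fun n => (h n).countable).mono ?_)
    exact fun i _ => mem_iUnion.2 ⟨ℓ i, rfl⟩
  choose! f f1 f2 using part1 (κ := κ)
  obtain ⟨i0, hi0⟩ := hn0.nonempty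
  let β : κ → κ := fun i => if (L (ℓ i)).Infinite then f (L (ℓ i)) i else f (L n0) i0
  have key : ∀ n, (L n).Infinite → ∀ i ∈ L n,
      ∃ δ > 0, {j | β j = f (L n) i ∧ δ ≤ b j}.Infinite := by
    intro n hn i hi
    refine ⟨1 / ((n : ℝ) + 1), Nat.one_div_pos_of_nat, (f2 _ hn i hi).mono ?_⟩
    rintro j ⟨h1, h2⟩
    have h3 : ℓ j = n := h1
    refine ⟨?_, h3 ▸ (hℓ j).le⟩
    simp only [β, h3, if_pos hn, h2]
  refine ⟨β, fun l => ?_, fun i => ?_⟩
  · refine (countable_iUnion fun n => show ({i ∈ L n | β i = l}).Countable from ?_).mono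
      fun i hi => mem_iUnion.2 ⟨ℓ i, show i ∈ L (ℓ i) ∧ β i = l from ⟨rfl, hi⟩⟩
    by_cases hn : (L n).Infinite
    · refine (f1 _ hn l).mono ?_
      rintro i ⟨h1, h2⟩
      have h3 : ℓ i = n := h1
      refine ⟨h1, ?_⟩
      simpa only [β, h3, if_pos hn] using h2
    · exact (not_infinite.1 hn).countable.mono fun i hi => hi.1
  · by_cases hn : (L (ℓ i)).Infinite
    · have : β i = f (L (ℓ i)) i := if_pos hn
      rw [this]
      exact key _ hn i rfl
    · have : β i = f (L n0) i0 := if_neg hn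
      rw [this]
      exact key _ hn0 i0 hi0

lemma NN_fib (β : κ → κ) (x : κ → ℝ) :
    NN x = ∑' l, NN fun i : {i // β i = l} => x i.1 := by
  unfold NN
  rw [← (Equiv.sigmaFiberEquiv β).tsum_eq, ENNReal.tsum_sigma']
  rfl

def rs (β : κ → κ) (l : κ) (x : XX κ) : XX {i // β i = l} :=
  ⟨fun i => x.1 i.1, le_trans (ENNReal.le_tsum
    (f := fun l => NN fun i : {i // β i = l} => x.1 i.1) l) (NN_fib β x.1 ▸ x.2)⟩

theorem glob [Uncountable κ] {a b : κ → ℝ} (ha : ∀ i, a i ≤ 0) (hb : ∀ i, 0 < b i) :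
    ∃ Φ : XX κ → κ → ℝ, Continuous Φ ∧ Injective Φ ∧ (∀ x, NN (Φ x) ≤ 1) ∧
      (∀ x j, a j ≤ Φ x j ∧ Φ x j ≤ b j) ∧
      ∀ y, NN y ≤ 1 → (∀ j, a j ≤ y j ∧ y j ≤ b j) → ∃ x, Φ x = y := by
  obtain ⟨β, b1, b2⟩ := part2 b hb
  have D : ∀ l, Dat (fun i : {i // β i = l} => a i.1) (fun i => b i.1) := fun l =>
    ⟨fun j => ha _, fun j => (hb _).le, fun j => (ha _).trans_lt (hb _), fun i => by
      obtain ⟨δ, hδ, h⟩ := b2 i.1
      refine ⟨δ, hδ, Infinite.of_image Subtype.val (h.mono ?_)⟩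
      rintro j ⟨h1, h2⟩
      exact ⟨⟨j, h1.trans i.2⟩, h2, rfl⟩⟩
  have : ∀ l, Countable {i // β i = l} := fun l => (b1 l).to_subtype
  choose Φ c1 c2 c3 c4 c5 using fun l => (D l).block
  have hr : ∀ l, Continuous (rs β l) := fun l => by
    unfold rs
    exact Continuous.subtype_mk (continuous_pi fun i : {i // β i = l} => evc i.1) _
  let G : XX κ → κ → ℝ := fun x i => Φ (β i) (rs β (β i) x) ⟨i, rfl⟩
  have hG : ∀ x l, (fun i : {i // β i = l} => G x i.1) = Φ l (rs β l x) := by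
    intro x l
    funext ⟨i, hi⟩
    subst hi
    rfl
  refine ⟨G, continuous_pi fun i => (continuous_apply _).comp ((c1 _).comp (hr _)),
    fun x y h => ?_, fun x => ?_, fun x j => c4 (β j) _ ⟨j, rfl⟩, fun y hy hy' => ?_⟩
  · refine Subtype.ext (funext fun i => ?_)
    have := c2 (β i) (show Φ _ (rs β (β i) x) = Φ _ (rs β (β i) y) by rw [← hG, ← hG, h])
    exact congrFun (congrArg Subtype.val this) ⟨i, rfl⟩
  · rw [NN_fib β]
    simp only [hG, c3]
    exact (NN_fib β x.1).symm.trans_le x.2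
  · choose z hz using fun l => c5 l (rs β l ⟨y, hy⟩).1 (rs β l ⟨y, hy⟩).2 fun j => hy' j.1
    let x : κ → ℝ := fun i => (z (β i)).1 ⟨i, rfl⟩
    have hx : ∀ l, (fun i : {i // β i = l} => x i.1) = (z l).1 := by
      intro l
      funext ⟨i, hi⟩
      subst hi
      rfl
    have hx1 : NN x ≤ 1 := by
      rw [NN_fib β]
      refine le_trans (le_of_eq (tsum_congr fun l => ?_)) ((NN_fib β y).symm.trans_le hy)
      rw [hx, ← c3, hz]
      rfl
    refine ⟨⟨x, hx1⟩, funext fun i => ?_⟩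
    have : rs β (β i) ⟨x, hx1⟩ = z (β i) := Subtype.ext (hx _)
    simp only [G, this, hz]
    rfl

theorem main [Uncountable κ] {a b : κ → ℝ} (hab : ∀ i, a i < b i)
    (hs : ∑' i, ENNReal.ofReal (max 0 (a i) + max 0 (-b i)) < 1) :
    Nonempty (XX κ ≃ₜ {x : κ → ℝ | NN x ≤ 1 ∧ ∀ i, a i ≤ x i ∧ x i ≤ b i}) := by
  classical
  set σ := ∑' i, ENNReal.ofReal (max 0 (a i) + max 0 (-b i)) with hσ
  have hσ1 : σ ≠ ⊤ := hs.ne_top
  set R : ℝ := 1 - σ.toReal with hR
  have hR0 : 0 < R := by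
    have := (ENNReal.toReal_lt_toReal hσ1 ENNReal.one_ne_top).2 hs
    rw [ENNReal.toReal_one] at this
    linarith
  have hone : σ + ENNReal.ofReal R = 1 := by
    rw [← ENNReal.ofReal_toReal hσ1, ← ENNReal.ofReal_add ENNReal.toReal_nonneg hR0.le, hR]
    simp
  let c : κ → ℝ := fun i => cl (a i) (b i) 0
  have hc : ∀ i, a i ≤ c i ∧ c i ≤ b i := fun i =>
    ⟨le_max_left _ _, max_le (hab i).le (min_le_left _ _)⟩
  let τ : κ → ℝ := fun i => if c i < b i then R else -R
  let a' : κ → ℝ := fun i => if c i < b i then (a i - c i) / R else 0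
  let b' : κ → ℝ := fun i => if c i < b i then (b i - c i) / R else (c i - a i) / R
  have hτ : ∀ i, |τ i| = R := fun i => by
    simp only [τ]; split_ifs <;> simp [abs_of_pos hR0]
  have hτ0 : ∀ i, τ i ≠ 0 := fun i h => by
    have := hτ i
    rw [h, abs_zero] at this
    linarith
  have band : ∀ i w, (a' i ≤ w ∧ w ≤ b' i) ↔ (a i ≤ c i + τ i * w ∧ c i + τ i * w ≤ b i) := by
    intro i w
    simp only [a', b', τ]
    split_ifs with h
    · rw [div_le_iff₀ hR0, le_div_iff₀ hR0]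
      constructor <;> rintro ⟨h1, h2⟩ <;> constructor <;> linarith
    · have h0 : c i = b i := le_antisymm (hc i).2 (not_lt.1 h)
      rw [le_div_iff₀ hR0, ← mul_nonneg_iff_of_pos_left hR0]
      constructor <;> rintro ⟨h1, h2⟩ <;> constructor <;> linarith
  have nrm : ∀ w : κ → ℝ, (∀ i, a i ≤ c i + τ i * w i ∧ c i + τ i * w i ≤ b i) →
      (NN (fun i => c i + τ i * w i) ≤ 1 ↔ NN w ≤ 1) := by
    intro w hw
    have e : NN (fun i => c i + τ i * w i) = σ + ENNReal.ofReal R * NN w := by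
      unfold NN
      rw [hσ, ← ENNReal.tsum_mul_left, ← ENNReal.tsum_add]
      refine tsum_congr fun i => ?_
      rw [Real.enorm_eq_ofReal_abs, Real.enorm_eq_ofReal_abs, ← ENNReal.ofReal_mul hR0.le,
        ← ENNReal.ofReal_add (by positivity) (by positivity), ← hτ i, ← abs_mul]
      congr 1
      obtain ⟨h1, h2⟩ := hw i
      have h3 := hab i
      simp only [c, cl] at h1 h2 ⊢
      generalize τ i * w i = v at *
      simp only [max_def, min_def, abs] at h1 h2 ⊢
      split_ifs at h1 h2 ⊢ <;> linarith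
    rw [e, ← hone, ENNReal.add_le_add_iff_left hσ1]
    nth_rewrite 2 [← mul_one (ENNReal.ofReal R)]
    rw [ENNReal.mul_le_mul_iff_right (ENNReal.ofReal_pos.2 hR0).ne' ENNReal.ofReal_ne_top, hone]
  obtain ⟨Φ, c1, c2, c3, c4, c5⟩ := glob (a := a') (b := b') (fun i => by
      simp only [a']
      split_ifs
      · exact div_nonpos_of_nonpos_of_nonneg (by linarith [(hc i).1]) hR0.le
      · exact le_rfl) (fun i => by
      simp only [b']
      split_ifs with h
      · exact div_pos (by linarith) hR0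
      · exact div_pos (by linarith [hab i]) hR0)
  let G : XX κ → {x : κ → ℝ | NN x ≤ 1 ∧ ∀ i, a i ≤ x i ∧ x i ≤ b i} := fun x =>
    ⟨fun i => c i + τ i * Φ x i, (nrm _ fun i => (band i _).1 (c4 x i)).2 (c3 x),
      fun i => (band i _).1 (c4 x i)⟩
  have hG : Continuous G := Continuous.subtype_mk (by fun_prop) _
  have hb : Bijective G := by
    refine ⟨fun x y h => c2 (funext fun i => ?_), fun ⟨y, h1, h2⟩ => ?_⟩
    · have := congrFun (congrArg Subtype.val h) i
      exact mul_left_cancel₀ (hτ0 i) (add_left_cancel this)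
    · have e : ∀ i, c i + τ i * ((y i - c i) / τ i) = y i := fun i => by
        field_simp [hτ0 i]; ring
      obtain ⟨x, hx⟩ := c5 (fun i => (y i - c i) / τ i)
        ((nrm _ fun i => by rw [e]; exact h2 i).1 (by simpa only [e] using h1))
        fun i => (band i _).2 (by rw [e]; exact h2 i)
      exact ⟨x, Subtype.ext (funext fun i => by simp only [G, hx, e])⟩
  exact ⟨Continuous.homeoOfEquivCompactToT2 (f := Equiv.ofBijective G hb) hG⟩

end Pool.Agent.H81.Bl
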