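import Mathlib

set_option autoImplicit false

namespace Pool.Agent.H81.Bern
open Cardinal Set

theorem exists_new {G S : Set ℝ} (hG : #G = 𝔠) (hS : #S < 𝔠) : ∃ a ∈ G, a ∉ S := by
  by_contra h
  push Not at h
  have : #G ≤ #S := mk_le_mk_of_subset h
  exact absurd (hG ▸ this) (not_le.mpr hS)

theorem union_lt {S T : Set ℝ} (hS : #S < 𝔠) (hT : #T < 𝔠) : #(S ∪ T : Set ℝ) < 𝔠 :=
  (mk_union_le S T).trans_lt (add_lt_of_lt aleph0_le_continuum hS hT)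

/-- A Bernstein-type rigid set. -/
theorem rigid {I : Type} (hI : #I ≤ 𝔠) (f : I → ℝ → ℝ) (G : I → Set ℝ)
    (hG : ∀ i, #(G i) = 𝔠) (Q : Set ℝ) (hQ : Q.Countable) :
    ∃ A : Set ℝ, (∀ a ∈ A, ∃ i, a ∈ G i) ∧ ∀ i,
      (∃ a ∈ A, a ∈ G i ∧ (f i a = a ∨ (f i a ∉ A ∧ f i a ∉ Q))) ∨
      (∃ S : Set ℝ, #S < 𝔠 ∧ 𝔠 ≤ #{a | a ∈ A ∧ f i a ∈ S}) := by
  classical
  obtain ⟨r, wo, hr⟩ := exists_ord_eq (I × ℝ)
  have hcard : #(I × ℝ) ≤ 𝔠 := by
    rw [mk_prod, lift_id, lift_id, mk_real]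
    calc #I * 𝔠 ≤ 𝔠 * 𝔠 := by gcongr
      _ = 𝔠 := continuum_mul_self
  have hseg : ∀ k : I × ℝ, #{j // r j k} < 𝔠 := fun k =>
    lt_of_lt_of_le (by simpa [Ordinal.card_typein] using card_typein_lt k hr) hcard
  have hQ' : #Q < 𝔠 := lt_of_le_of_lt (mk_le_aleph0_iff.mpr hQ.to_subtype) aleph0_lt_continuum
  let PA : (k : I × ℝ) → ((j : I × ℝ) → r j k → ℝ × ℝ) → Set ℝ :=
    fun k p => range fun j : {j // r j k} => (p j.1 j.2).1
  let PB : (k : I × ℝ) → ((j : I × ℝ) → r j k → ℝ × ℝ) → Set ℝ :=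
    fun k p => range fun j : {j // r j k} => (p j.1 j.2).2
  have hPA : ∀ k p, #(PA k p) < 𝔠 := fun k p => mk_range_le.trans_lt (hseg k)
  have hPB : ∀ k p, #(PB k p) < 𝔠 := fun k p => mk_range_le.trans_lt (hseg k)
  have step : ∀ (k : I × ℝ) (p : (j : I × ℝ) → r j k → ℝ × ℝ), ∃ ab : ℝ × ℝ,
      ab.1 ∈ G k.1 ∧ ab.1 ∉ PA k p ∧ ab.1 ∉ PB k p ∧ ab.2 ∉ PA k p ∧ ab.2 ≠ ab.1 ∧
      ((f k.1 ab.1 = ab.1 ∨ (f k.1 ab.1 = ab.2 ∧ ab.2 ∉ Q)) ∨
        ∀ a ∈ G k.1, a ∉ PA k p ∪ PB k p → f k.1 a ∈ PA k p ∪ Q) := by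
    intro k p
    have nb : ∀ a : ℝ, ∃ b, b ∉ PA k p ∧ b ≠ a := by
      intro a
      obtain ⟨b, -, hb⟩ := exists_new (G := univ) (S := PA k p ∪ {a}) (by simp [mk_real])
        (union_lt (hPA k p) (by simpa using one_lt_aleph0.trans aleph0_lt_continuum))
      simp only [mem_union, mem_singleton_iff, not_or] at hb
      exact ⟨b, hb⟩
    by_cases h : ∀ a ∈ G k.1, a ∉ PA k p ∪ PB k p → f k.1 a ∈ PA k p ∪ Q
    · obtain ⟨a, haG, ha⟩ := exists_new (hG k.1) (union_lt (hPA k p) (hPB k p))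
      obtain ⟨b, hb, hba⟩ := nb a
      simp only [mem_union, not_or] at ha
      exact ⟨(a, b), haG, ha.1, ha.2, hb, hba, Or.inr h⟩
    · push Not at h
      obtain ⟨a, haG, ha, hf⟩ := h
      simp only [mem_union, not_or] at ha hf
      by_cases hfa : f k.1 a = a
      · obtain ⟨b, hb, hba⟩ := nb a
        exact ⟨(a, b), haG, ha.1, ha.2, hb, hba, Or.inl (Or.inl hfa)⟩
      · exact ⟨(a, f k.1 a), haG, ha.1, ha.2, hf.1, hfa, Or.inl (Or.inr ⟨rfl, hf.2⟩)⟩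
  choose nxt hn using step
  let F : I × ℝ → ℝ × ℝ := wo.wf.fix fun k p => nxt k p
  have hF : ∀ k, F k = nxt k fun j _ => F j := fun k => wo.wf.fix_eq _ k
  have H := fun k => hn k fun j _ => F j
  simp only [← hF] at H
  have mA : ∀ j k, r j k → (F j).1 ∈ PA k fun j _ => F j := fun j k h => ⟨⟨j, h⟩, rfl⟩
  have mB : ∀ j k, r j k → (F j).2 ∈ PB k fun j _ => F j := fun j k h => ⟨⟨j, h⟩, rfl⟩
  have hinj : Function.Injective fun k => (F k).1 := by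
    intro j k h
    rcases trichotomous_of r j k with h1 | h1 | h1
    · exact absurd (mA j k h1) (by simpa [show (F j).1 = (F k).1 from h] using (H k).2.1)
    · exact h1
    · exact absurd (mA k j h1) (by simpa [show (F k).1 = (F j).1 from h.symm] using (H j).2.1)
  have hAB : ∀ j k, (F j).1 ≠ (F k).2 := by
    intro j k h
    rcases trichotomous_of r j k with h1 | h1 | h1
    · exact (H k).2.2.2.1 (h ▸ mA j k h1)
    · subst h1; exact (H j).2.2.2.2.1 h.symm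
    · exact (H j).2.2.1 (h ▸ mB k j h1)
  refine ⟨range fun k => (F k).1, ?_, fun i => ?_⟩
  · rintro a ⟨k, rfl⟩; exact ⟨k.1, (H k).1⟩
  rcases (H (i, 0)).2.2.2.2.2 with h | h
  · left
    refine ⟨(F (i, 0)).1, ⟨_, rfl⟩, (H (i, 0)).1, ?_⟩
    rcases h with h | ⟨h, hq⟩
    · exact Or.inl h
    · right
      rw [h]
      exact ⟨fun ⟨k, hk⟩ => hAB k _ hk, hq⟩
  · right
    refine ⟨_, union_lt (hPA (i, 0) fun j _ => F j) hQ', ?_⟩
    by_contra hlt
    rw [not_le] at hlt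
    have hT : #(range fun t : ℝ => (F (i, t)).1) = 𝔠 := by
      rw [mk_range_eq _ (fun s t h => (Prod.ext_iff.mp (hinj h)).2), mk_real]
    obtain ⟨a, ⟨t, rfl⟩, ha⟩ := exists_new hT
      (union_lt (union_lt (hPA (i, 0) fun j _ => F j) (hPB (i, 0) fun j _ => F j)) hlt)
    rw [mem_union, not_or] at ha
    exact ha.2 ⟨⟨_, rfl⟩, h _ (H (i, t)).1 ha.1⟩

/-- residual Borel sets of reals have the cardinality of the continuum -/
theorem mk_residual {G : Set ℝ} (hm : MeasurableSet G) (hG : G ∈ residual ℝ) : #G = 𝔠 := by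
  have hc : ¬ Countable G := by
    intro hc
    have h1 : (⋂ x : G, ({(x : ℝ)}ᶜ : Set ℝ)) ∈ residual ℝ :=
      countable_iInter_mem.mpr fun x =>
        residual_of_dense_open isOpen_compl_singleton (dense_compl_singleton _)
    obtain ⟨y, hy, hy'⟩ := (dense_of_mem_residual (Filter.inter_mem hG h1)).nonempty
    exact (mem_iInter.mp hy' ⟨y, hy⟩) rfl
  have := hm.standardBorel
  have h2 := (PolishSpace.measurableEquivNatBoolOfNotCountable hc).toEquiv.cardinal_eq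
  simpa using h2

theorem mk_cont : #C(ℝ × ℝ, ℝ × ℝ) ≤ 𝔠 := by
  have hd : DenseRange (Prod.map ((↑) : ℚ → ℝ) ((↑) : ℚ → ℝ)) :=
    Rat.denseRange_cast.prodMap Rat.denseRange_cast
  have : Function.Injective fun (g : C(ℝ × ℝ, ℝ × ℝ)) (v : ℚ × ℚ) =>
      g (Prod.map ((↑) : ℚ → ℝ) ((↑) : ℚ → ℝ) v) := by
    intro g g' h
    ext1 v
    exact congrFun (hd.equalizer g.continuous g'.continuous h) v
  refine (mk_le_of_injective this).trans ?_
  simp [mk_real]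

end Pool.Agent.H81.Bern
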