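import Mathlib

namespace Pool.Agent.H81.Climb

open Finset

def ew (u v : Fin 3) : ZMod 2 := if (u = 0 ∧ v = 1) ∨ (u = 1 ∧ v = 0) then 1 else 0

theorem ew_sq : ∀ a b c d : Fin 3,
    ¬ ((a = 0 ∨ b = 0 ∨ c = 0 ∨ d = 0) ∧ (a = 1 ∨ b = 1 ∨ c = 1 ∨ d = 1) ∧
      (a = 2 ∨ b = 2 ∨ c = 2 ∨ d = 2)) → ew c d = ew a b + (ew b d - ew a c) := by
  decide

theorem ew_nz : ∀ a b : Fin 3, a ≠ 0 → b ≠ 0 → ew a b = 0 := by decide
theorem ew_n1 : ∀ a b : Fin 3, a ≠ 1 → b ≠ 1 → ew a b = 0 := by decide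

theorem sperner (m n : ℕ) (c : ℕ → ℕ → Fin 3) (hb : ∀ i, c i 0 = 0)
    (hl : ∀ j, j ≤ n → c 0 (j + 1) ≠ 0) (h01 : c 0 1 = 1) (ht : ∀ i, c i (n + 1) ≠ 0)
    (hr : ∀ j, j ≤ n + 1 → c m j ≠ 1) :
    ∃ i < m, ∃ j ≤ n,
      (c i j = 0 ∨ c i (j + 1) = 0 ∨ c (i + 1) j = 0 ∨ c (i + 1) (j + 1) = 0) ∧
      (c i j = 1 ∨ c i (j + 1) = 1 ∨ c (i + 1) j = 1 ∨ c (i + 1) (j + 1) = 1) ∧
      (c i j = 2 ∨ c i (j + 1) = 2 ∨ c (i + 1) j = 2 ∨ c (i + 1) (j + 1) = 2) := by
  by_contra hcon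
  have hsq : ∀ i < m, ∀ j ≤ n, ew (c (i + 1) j) (c (i + 1) (j + 1)) =
      ew (c i j) (c i (j + 1)) + (ew (c i (j + 1)) (c (i + 1) (j + 1)) - ew (c i j) (c (i + 1) j)) :=
    fun i hi j hj => ew_sq _ _ _ _ fun h => hcon ⟨i, hi, j, hj, h⟩
  have key : ∀ i ≤ m, ∑ j ∈ range (n + 1), ew (c i j) (c i (j + 1)) = 1 := by
    intro i
    induction i with
    | zero =>
      intro _
      rw [sum_range_succ', hb, zero_add, h01, sum_eq_zero]
      · decide
      · intro j hj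
        exact ew_nz _ _ (hl j (by have := mem_range.1 hj; omega))
          (hl (j + 1) (by have := mem_range.1 hj; omega))
    | succ i ih =>
      intro hi
      rw [sum_congr rfl (fun j hj => hsq i (by omega) j (by have := mem_range.1 hj; omega)),
        sum_add_distrib, ih (by omega),
        sum_range_sub (fun j => ew (c i j) (c (i + 1) j)), ew_nz _ _ (ht _) (ht _), hb, hb]
      decide
  have h1 := key m le_rfl
  rw [sum_eq_zero (fun j hj => ew_n1 _ _ (hr j (by have := mem_range.1 hj; omega))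
    (hr (j + 1) (by have := mem_range.1 hj; omega)))] at h1
  exact absurd h1 (by decide)

variable {X : Type*}

/-- weak chain -/
def WChain (𝒞 : Set (Set X)) (p q : X) (k : ℕ) : Prop :=
  ∃ D : ℕ → Set X, (∀ i, D i ∈ 𝒞) ∧ p ∈ D 0 ∧ q ∈ D k ∧ ∀ i < k, (D i ∩ D (i + 1)).Nonempty

theorem exists_wchain [TopologicalSpace X] [PreconnectedSpace X] (𝒞 : Set (Set X))
    (ho : ∀ U ∈ 𝒞, IsOpen U) (hc : ⋃₀ 𝒞 = Set.univ) (p q : X) : ∃ k, WChain 𝒞 p q k := by
  have hmem : ∀ x, ∃ U ∈ 𝒞, x ∈ U := fun x => by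
    have : x ∈ ⋃₀ 𝒞 := hc ▸ Set.mem_univ x
    exact this
  have hcl : IsClopen {y | ∃ k, WChain 𝒞 p y k} := by
    constructor
    · rw [← closure_subset_iff_isClosed]
      intro y hy
      obtain ⟨U, hU, hyU⟩ := hmem y
      obtain ⟨z, hzU, k, D, h1, h2, h3, h4⟩ := mem_closure_iff.1 hy U (ho U hU) hyU
      refine ⟨k + 1, fun i => if i ≤ k then D i else U, fun i => ?_, by simpa using h2,
        by simpa using hyU, fun i hi => ?_⟩
      · dsimp only
        split_ifs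
        exacts [h1 i, hU]
      · by_cases hik : i < k
        · simp only [if_pos hik.le, if_pos (Nat.succ_le_of_lt hik)]
          exact h4 i hik
        · have : i = k := by omega
          subst this
          simp only [le_refl, if_true, Nat.not_succ_le_self, if_false]
          exact ⟨z, h3, hzU⟩
    · rw [isOpen_iff_mem_nhds]
      rintro y ⟨k, D, h1, h2, h3, h4⟩
      filter_upwards [(ho _ (h1 k)).mem_nhds h3] with z hz
      exact ⟨k, D, h1, h2, hz, h4⟩
  obtain ⟨U, hU, hpU⟩ := hmem p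
  have := hcl.eq_univ ⟨p, 0, fun _ => U, fun _ => hU, hpU, hpU, fun i hi => absurd hi (by omega)⟩
  have hq : q ∈ {y | ∃ k, WChain 𝒞 p y k} := this ▸ Set.mem_univ q
  exact hq

theorem exists_chain (𝒞 : Set (Set X)) (p q : X) (h : ∃ k, WChain 𝒞 p q k) :
    ∃ (k : ℕ) (D : ℕ → Set X), (∀ i, D i ∈ 𝒞) ∧ p ∈ D 0 ∧ q ∈ D k ∧
      (∀ i < k, (D i ∩ D (i + 1)).Nonempty) ∧
      ∀ i j, i + 1 < j → j ≤ k → ¬ (D i ∩ D j).Nonempty := by
  classical
  obtain ⟨D, h1, h2, h3, h4⟩ := Nat.find_spec h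
  refine ⟨Nat.find h, D, h1, h2, h3, h4, fun i j hij hj hne => ?_⟩
  set k := Nat.find h with hk
  have hlt : k - (j - i - 1) < k := by omega
  refine Nat.find_min h hlt ⟨fun l => if l ≤ i then D l else D (l + (j - i - 1)), fun l => ?_,
    by simpa using h2, ?_, fun l hl => ?_⟩
  · dsimp only
    split_ifs <;> exact h1 _
  · have h5 : ¬ (k - (j - i - 1) ≤ i) := by omega
    have h6 : k - (j - i - 1) + (j - i - 1) = k := by omega
    simp only [if_neg h5, h6]
    exact h3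
  · rcases lt_trichotomy l i with hli | hli | hli
    · simp only [if_pos hli.le, if_pos (Nat.succ_le_of_lt hli)]
      exact h4 l (by omega)
    · subst hli
      have h6 : l + 1 + (j - l - 1) = j := by omega
      simp only [le_refl, if_true, Nat.not_succ_le_self, if_false, h6]
      exact hne
    · have h5 : ¬ l ≤ i := by omega
      have h6 : ¬ l + 1 ≤ i := by omega
      have h7 : l + 1 + (j - i - 1) = l + (j - i - 1) + 1 := by omega
      simp only [if_neg h5, if_neg h6, h7]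
      exact h4 _ (by omega)

theorem points (k : ℕ) (D : ℕ → Set X) (p q : X) (hp : p ∈ D 0) (hq : q ∈ D k)
    (h : ∀ i < k, (D i ∩ D (i + 1)).Nonempty) :
    ∃ α : ℕ → X, α 0 = p ∧ α (k + 1) = q ∧ ∀ i ≤ k, α i ∈ D i ∧ α (i + 1) ∈ D i := by
  classical
  have : Nonempty X := ⟨p⟩
  choose! z hz using h
  refine ⟨fun i => if i = 0 then p else if i ≤ k then z (i - 1) else q, by simp, by simp,
    fun i hi => ⟨?_, ?_⟩⟩
  · by_cases h0 : i = 0
    · subst h0; simpa using hp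
    · obtain ⟨l, rfl⟩ := Nat.exists_eq_succ_of_ne_zero h0
      simp only [if_neg h0, if_pos hi]
      exact (hz l (by omega)).2
  · by_cases h0 : i + 1 ≤ k
    · simp only [Nat.succ_ne_zero, if_false, if_pos h0]
      exact (hz i (by omega)).1
    · have : i = k := by omega
      subst this
      simpa using hq

/-- approximate mountain climbing -/
theorem climb [MetricSpace X] (g : X → ℝ) (a ε η : ℝ) (ha : 0 < a) (hε : 0 < ε) (hη : 0 < η)
    (hg : ∀ x y, dist x y < ε → |g x - g y| < η) (m n : ℕ) (α β : ℕ → X)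
    (h0 : α 0 = β 0) (hmin : ∀ x, g (β 0) ≤ g x) (hmax : ∀ x, g x ≤ g (β n))
    (hα : ∀ i < m, dist (α i) (α (i + 1)) < ε) (hβ : ∀ j < n, dist (β j) (β (j + 1)) < ε)
    (hfar : ∀ j ≤ n, a ≤ dist (α m) (β j)) :
    ∃ x y, |dist x y - a| ≤ 2 * ε ∧ |g x - g y| < 2 * η := by
  classical
  set c : ℕ → ℕ → Fin 3 := fun i j => if j = 0 ∨ g (β (j - 1)) < g (α i) then 0 else
    if dist (α i) (β (j - 1)) < a then 1 else 2 with hc
  have c0 : ∀ i j, c i j = 0 → j = 0 ∨ g (β (j - 1)) < g (α i) := by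
    intro i j h
    by_contra h'
    simp only [hc, if_neg h'] at h
    split_ifs at h <;> exact absurd h (by decide)
  have c1 : ∀ i j, c i j = 1 → j ≠ 0 ∧ g (α i) ≤ g (β (j - 1)) ∧ dist (α i) (β (j - 1)) < a := by
    intro i j h
    simp only [hc] at h
    split_ifs at h with h1 h2
    · exact absurd h (by decide)
    · push Not at h1
      exact ⟨h1.1, h1.2, h2⟩
    · exact absurd h (by decide)
  have c2 : ∀ i j, c i j = 2 → a ≤ dist (α i) (β (j - 1)) := by
    intro i j h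
    simp only [hc] at h
    split_ifs at h with h1 h2
    · exact absurd h (by decide)
    · exact absurd h (by decide)
    · exact not_lt.1 h2
  obtain ⟨i, hi, j, hj, H0, H1, H2⟩ := sperner m n c (fun i => by simp [hc])
    (fun j _ h => by
      rcases c0 _ _ h with h | h
      · omega
      · rw [h0] at h; exact absurd h (not_lt.2 (hmin _)))
    (by
      have : ¬ (g (β 0) < g (α 0)) := by rw [h0]; exact lt_irrefl _
      simp [hc, this, h0, ha])
    (fun i h => by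
      rcases c0 _ _ h with h | h
      · omega
      · exact absurd h (not_lt.2 (hmax _)))
    (fun j hj h => absurd (c1 _ _ h).2.2 (not_lt.2 (hfar _ (by omega))))
  have sq : ∀ v : Fin 3, (c i j = v ∨ c i (j + 1) = v ∨ c (i + 1) j = v ∨ c (i + 1) (j + 1) = v) →
      ∃ i' j', (i' = i ∨ i' = i + 1) ∧ (j' = j ∨ j' = j + 1) ∧ c i' j' = v := by
    rintro v (h | h | h | h)
    exacts [⟨_, _, .inl rfl, .inl rfl, h⟩, ⟨_, _, .inl rfl, .inr rfl, h⟩,
      ⟨_, _, .inr rfl, .inl rfl, h⟩, ⟨_, _, .inr rfl, .inr rfl, h⟩]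
  have dα : ∀ s t, (s = i ∨ s = i + 1) → (t = i ∨ t = i + 1) → dist (α s) (α t) < ε := by
    rintro s t (rfl | rfl) (rfl | rfl)
    · simpa using hε
    · exact hα _ hi
    · rw [dist_comm]; exact hα _ hi
    · simpa using hε
  have dβ : ∀ s t, (s = j ∨ s = j + 1) → (t = j ∨ t = j + 1) →
      dist (β (s - 1)) (β (t - 1)) < ε := by
    have hj' : dist (β (j - 1)) (β (j + 1 - 1)) < ε := by
      rcases j with _ | j
      · simpa using hε
      · exact hβ j (by omega)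
    rintro s t (rfl | rfl) (rfl | rfl)
    · simpa using hε
    · exact hj'
    · rw [dist_comm]; exact hj'
    · simpa using hε
  obtain ⟨i0, j0, a0, b0, e0⟩ := sq _ H0
  obtain ⟨i1, j1, a1, b1, e1⟩ := sq _ H1
  obtain ⟨i2, j2, a2, b2, e2⟩ := sq _ H2
  obtain ⟨f1, f2, f3⟩ := c1 _ _ e1
  have f4 := c2 _ _ e2
  refine ⟨α i1, β (j1 - 1), ?_, ?_⟩
  · have t1 := dα i2 i1 a2 a1
    have t2 := dβ j1 j2 b1 b2
    have t3 := dist_triangle4 (α i2) (α i1) (β (j1 - 1)) (β (j2 - 1))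
    rw [abs_le]; constructor <;> linarith
  · rcases c0 _ _ e0 with h | h
    · have : j1 - 1 = 0 := by omega
      rw [this] at f2 ⊢
      have := hmin (α i1)
      rw [abs_lt]; constructor <;> linarith
    · have t1 := abs_lt.1 (hg _ _ (dα i0 i1 a0 a1))
      have t2 := abs_lt.1 (hg _ _ (dβ j0 j1 b0 b1))
      rw [abs_lt]; constructor <;> linarith [t1.1, t1.2, t2.1, t2.2]

end Pool.Agent.H81.Climb
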