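import Mathlib

namespace Pool.Agent.H81.Comb

open Set Filter Topology

def comb (a b : ℝ) (h : ℝ → ℝ) : Set (ℝ × ℝ) :=
  {p | a ≤ p.1 ∧ p.1 ≤ b ∧ 0 ≤ p.2 ∧ p.2 ≤ h p.1}

structure Good (h : ℝ → ℝ) : Prop where
  nonneg : ∀ x, 0 ≤ h x
  le_one : ∀ x, h x ≤ 1
  fin : ∀ ε > 0, {x | ε ≤ h x}.Finite

variable {h : ℝ → ℝ} {a b : ℝ}

theorem Good.iso (H : Good h) (x ε : ℝ) (hε : 0 < ε) : ∀ᶠ s in 𝓝 x, s ≠ x → h s < ε := by
  have hc : IsClosed ({s | ε ≤ h s} \ {x}) := ((H.fin ε hε).subset diff_subset).isClosed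
  filter_upwards [hc.isOpen_compl.mem_nhds (x := x) (by simp)] with s hs hsx
  by_contra h'
  exact hs ⟨not_lt.1 h', hsx⟩

theorem Good.closed (H : Good h) : IsClosed (comb a b h) := by
  rw [← closure_subset_iff_isClosed]
  rintro ⟨x, y⟩ hp
  have hbox : IsClosed {p : ℝ × ℝ | a ≤ p.1 ∧ p.1 ≤ b ∧ 0 ≤ p.2} :=
    (isClosed_le continuous_const continuous_fst).inter
      ((isClosed_le continuous_fst continuous_const).inter (isClosed_le continuous_const continuous_snd))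
  have h1 : a ≤ x ∧ x ≤ b ∧ 0 ≤ y := closure_minimal (s := comb a b h)
    (t := {p : ℝ × ℝ | a ≤ p.1 ∧ p.1 ≤ b ∧ 0 ≤ p.2}) (fun p hp => ⟨hp.1, hp.2.1, hp.2.2.1⟩) hbox hp
  refine ⟨h1.1, h1.2.1, h1.2.2, ?_⟩
  by_contra h2
  obtain ⟨c, hc1, hc2⟩ := exists_between (not_le.1 h2)
  have hc0 : 0 < c := (H.nonneg x).trans_lt hc1
  have e1 : ∀ᶠ p : ℝ × ℝ in 𝓝 (x, y), p.1 ≠ x → h p.1 < c :=
    (continuous_fst.tendsto (x, y)).eventually (H.iso x c hc0)
  have e2 : ∀ᶠ p : ℝ × ℝ in 𝓝 (x, y), c < p.2 :=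
    (continuous_snd.tendsto (x, y)).eventually (lt_mem_nhds hc2)
  obtain ⟨p, hp1, hp2, hp3⟩ := ((mem_closure_iff_frequently.1 hp).and_eventually (e1.and e2)).exists
  by_cases hx : p.1 = x
  · have := hp1.2.2.2
    rw [hx] at this
    exact absurd (hp3.trans_le this) (not_lt.2 hc1.le)
  · exact absurd ((hp3.trans_le hp1.2.2.2).trans (hp2 hx)) (lt_irrefl _)

theorem Good.compact (H : Good h) : IsCompact (comb a b h) :=
  ((isCompact_Icc (a := a) (b := b)).prod (isCompact_Icc (a := (0 : ℝ)) (b := 1))).of_isClosed_subset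
    H.closed fun p hp => ⟨⟨hp.1, hp.2.1⟩, hp.2.2.1, hp.2.2.2.trans (H.le_one _)⟩

theorem preconn (S : Set (ℝ × ℝ)) (hab : a ≤ b) (h1 : ∀ s, a ≤ s → s ≤ b → (s, (0 : ℝ)) ∈ S)
    (h2 : ∀ p ∈ S, a ≤ p.1 ∧ p.1 ≤ b ∧ 0 ≤ p.2 ∧ ∀ t, 0 ≤ t → t ≤ p.2 → (p.1, t) ∈ S) :
    IsPreconnected S := by
  refine isPreconnected_of_forall (a, 0) fun p hp => ?_
  obtain ⟨e1, e2, e3, e4⟩ := h2 p hp
  refine ⟨Icc a b ×ˢ {0} ∪ {p.1} ×ˢ Icc 0 p.2, ?_, .inl ⟨⟨le_rfl, hab⟩, rfl⟩,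
    .inr ⟨rfl, e3, le_rfl⟩, IsPreconnected.union (p.1, 0) ⟨⟨e1, e2⟩, rfl⟩ ⟨rfl, le_rfl, e3⟩
      (isPreconnected_Icc.prod isPreconnected_singleton)
      (isPreconnected_singleton.prod isPreconnected_Icc)⟩
  rintro ⟨s, t⟩ (⟨hs, rfl⟩ | ⟨rfl, ht⟩)
  · exact h1 s hs.1 hs.2
  · exact e4 t ht.1 ht.2

theorem Good.preconn (H : Good h) (hab : a ≤ b) : IsPreconnected (comb a b h) :=
  Comb.preconn _ hab (fun s h1 h2 => ⟨h1, h2, le_rfl, H.nonneg s⟩)
    fun p hp => ⟨hp.1, hp.2.1, hp.2.2.1, fun t h1 h2 => ⟨hp.1, hp.2.1, h1, h2.trans hp.2.2.2⟩⟩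

theorem Good.tip (H : Good h) (hab : a ≤ b) (x : ℝ) (hx : 0 < h x) :
    IsPreconnected (comb a b h \ {(x, h x)}) := by
  refine Comb.preconn _ hab (fun s h1 h2 => ⟨⟨h1, h2, le_rfl, H.nonneg s⟩, fun e => ?_⟩)
    fun p hp => ⟨hp.1.1, hp.1.2.1, hp.1.2.2.1, fun t h1 h2 =>
      ⟨⟨hp.1.1, hp.1.2.1, h1, h2.trans hp.1.2.2.2⟩, fun e => hp.2 ?_⟩⟩
  · exact hx.ne (congrArg Prod.snd e)
  · have e1 : p.1 = x := congrArg Prod.fst e
    have e2 : t = h x := congrArg Prod.snd e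
    have := hp.1.2.2.2
    rw [e1] at this
    exact Prod.ext e1 (le_antisymm this (e2 ▸ h2))

theorem Good.cut1 (H : Good h) {x y : ℝ} (h1 : a ≤ x) (h2 : x ≤ b) (hy : 0 < y) (hy' : y < h x) :
    ¬ IsPreconnected (comb a b h \ {(x, y)}) := by
  intro hc
  obtain ⟨O, hO, hO1, hO2⟩ := eventually_nhds_iff.1 (H.iso x y hy)
  obtain ⟨p, hp, ⟨hp1, hp2⟩, hp3⟩ := hc (O ×ˢ Ioi y) ({x} ×ˢ Ici y)ᶜ (hO1.prod isOpen_Ioi)
    (isClosed_singleton.prod isClosed_Ici).isOpen_compl (by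
      rintro ⟨s, t⟩ ⟨hp, hp'⟩
      by_cases e : (s, t) ∈ ({x} : Set ℝ) ×ˢ Ici y
      · obtain ⟨rfl, e⟩ := e
        exact .inl ⟨hO2, lt_of_le_of_ne e fun e' => hp' (Prod.ext rfl e'.symm)⟩
      · exact .inr e)
    ⟨(x, h x), ⟨⟨h1, h2, H.nonneg x, le_rfl⟩, fun e => hy'.ne' (congrArg Prod.snd e)⟩, hO2, hy'⟩
    ⟨(x, 0), ⟨⟨h1, h2, le_rfl, H.nonneg x⟩, fun e => hy.ne (congrArg Prod.snd e)⟩,
      fun e => absurd e.2 (not_le.2 hy)⟩
  by_cases e : p.1 = x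
  · exact hp3 ⟨e, mem_Ici.2 (le_of_lt (mem_Ioi.1 hp2))⟩
  · exact absurd ((hp.1.2.2.2.trans_lt (hO _ hp1 e)).trans hp2) (lt_irrefl _)

theorem Good.cut2 (H : Good h) {x : ℝ} (h1 : a < x) (h2 : x < b) :
    ¬ IsPreconnected (comb a b h \ {(x, 0)}) := by
  classical
  intro hc
  have H' : Good (fun s => if s = x then 0 else h s) := by
    refine ⟨fun s => ?_, fun s => ?_, fun ε hε => (H.fin ε hε).subset fun s hs => ?_⟩
    · split_ifs
      exacts [le_rfl, H.nonneg s]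
    · split_ifs
      exacts [zero_le_one, H.le_one s]
    · simp only [mem_setOf_eq] at hs ⊢
      split_ifs at hs
      exacts [absurd hs (not_le.2 hε), hs]
  obtain ⟨p, hp, hp1, hp3⟩ := hc {p | p.1 < x} (comb a x fun s => if s = x then 0 else h s)ᶜ
    (isOpen_lt continuous_fst continuous_const) H'.closed.isOpen_compl (by
      rintro ⟨s, t⟩ ⟨hp, hp'⟩
      by_cases e : s < x
      · exact .inl e
      · refine .inr fun e' => hp' ?_
        have e1 : s = x := le_antisymm e'.2.1 (not_lt.1 e)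
        have e2 := e'.2.2.2
        simp only [e1, if_true] at e2
        exact Prod.ext e1 (le_antisymm e2 hp.2.2.1))
    ⟨(a, 0), ⟨⟨le_rfl, (h1.trans h2).le, le_rfl, H.nonneg a⟩, fun e => h1.ne (congrArg Prod.fst e)⟩, h1⟩
    ⟨(b, 0), ⟨⟨(h1.trans h2).le, le_rfl, le_rfl, H.nonneg b⟩, fun e => h2.ne' (congrArg Prod.fst e)⟩,
      fun e => absurd e.2.1 (not_le.2 h2)⟩
  have hp1' : p.1 < x := hp1
  exact hp3 ⟨hp.1.1, hp1'.le, hp.1.2.2.1, by simpa [hp1'.ne] using hp.1.2.2.2⟩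

theorem Good.dense (H : Good h) : Dense {x | h x = 0} := by
  have hc : {x | h x = 0}ᶜ.Countable := by
    refine (countable_iUnion fun n : ℕ => (H.fin (1 / ((n : ℝ) + 1)) (by positivity)).countable).mono ?_
    intro x hx
    obtain ⟨n, hn⟩ := exists_nat_one_div_lt (lt_of_le_of_ne (H.nonneg x) (Ne.symm hx))
    exact mem_iUnion.2 ⟨n, hn.le⟩
  simpa using hc.dense_compl ℝ

theorem Good.order (H : Good h) (p : comb a b h) (ε : ℝ) (hε : 0 < ε) :
    ∃ U : Set (comb a b h), IsOpen U ∧ p ∈ U ∧ U ⊆ Metric.ball p ε ∧ (frontier U).encard ≤ 3 := by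
  obtain ⟨⟨x, y⟩, hp⟩ := p
  have hy : 0 ≤ y := hp.2.2.1
  obtain ⟨e, he0, he1, he2⟩ : ∃ e, 0 < e ∧ e ≤ ε ∧ (0 < y → 2 * e ≤ y) := by
    rcases hy.eq_or_lt with h0 | h0
    · exact ⟨ε, hε, le_rfl, fun h => absurd h0 h.ne⟩
    · exact ⟨min ε (y / 2), lt_min hε (by linarith), min_le_left _ _,
        fun _ => by linarith [min_le_right ε (y / 2)]⟩
  obtain ⟨δ, hδ, hδ'⟩ := Metric.eventually_nhds_iff.1 (H.iso x e he0)
  obtain ⟨l, hl0, hl1, hl2⟩ := H.dense.exists_between (x := x - min δ ε) (y := x)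
    (by linarith [lt_min hδ hε])
  obtain ⟨r, hr0, hr1, hr2⟩ := H.dense.exists_between (x := x) (y := x + min δ ε)
    (by linarith [lt_min hδ hε])
  have m1 := min_le_left δ ε
  have m2 := min_le_right δ ε
  have hfr : ∀ q : comb a b h,
      q ∈ frontier ((↑) ⁻¹' (Ioo l r ×ˢ Ioo (y - e) (y + e)) : Set (comb a b h)) →
      (q.1 = (l, 0) ∧ y = 0) ∨ (q.1 = (r, 0) ∧ y = 0) ∨ q.1 = (x, y + e) ∨
        (q.1 = (x, y - e) ∧ y ≠ 0) := by
    rintro ⟨⟨s, t⟩, q1, q2, q3, q4⟩ hq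
    have hq' := continuous_subtype_val.frontier_preimage_subset _ hq
    have hq1 : (s, t) ∈ Icc l r ×ˢ Icc (y - e) (y + e) :=
      (isClosed_Icc.prod isClosed_Icc).closure_subset_iff.2
        (prod_mono Ioo_subset_Icc_self Ioo_subset_Icc_self) hq'.1
    have hq2 : (s, t) ∉ Ioo l r ×ˢ Ioo (y - e) (y + e) := by
      have := hq'.2
      rwa [(isOpen_Ioo.prod isOpen_Ioo).interior_eq] at this
    obtain ⟨⟨k1, k2⟩, k3, k4⟩ := hq1
    simp only at q1 q2 q3 q4 k1 k2 k3 k4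
    have hsx : e ≤ t → s = x := fun ht => by
      by_contra hs
      have := hδ' (y := s) (by rw [Real.dist_eq, abs_lt]; constructor <;> linarith) hs
      linarith
    have hy0 : t = 0 → y = 0 := fun ht => by
      by_contra h0
      have := he2 (lt_of_le_of_ne hy (Ne.symm h0))
      linarith
    by_cases c1 : s = l
    · have : t = 0 := le_antisymm (by rw [c1, show h l = 0 from hl0] at q4; exact q4) q3
      exact .inl ⟨Prod.ext c1 this, hy0 this⟩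
    by_cases c2 : s = r
    · have : t = 0 := le_antisymm (by rw [c2, show h r = 0 from hr0] at q4; exact q4) q3
      exact .inr (.inl ⟨Prod.ext c2 this, hy0 this⟩)
    by_cases c3 : t = y + e
    · exact .inr (.inr (.inl (Prod.ext (hsx (by linarith)) c3)))
    by_cases c4 : t = y - e
    · have h0 : 0 < y := by linarith
      exact .inr (.inr (.inr ⟨Prod.ext (hsx (by linarith [he2 h0])) c4, h0.ne'⟩))
    exact absurd ⟨⟨lt_of_le_of_ne k1 (Ne.symm c1), lt_of_le_of_ne k2 c2⟩,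
      lt_of_le_of_ne k3 (Ne.symm c4), lt_of_le_of_ne k4 c3⟩ hq2
  have hcard : ∀ (S : Set (comb a b h)) (u v w : ℝ × ℝ), (∀ q ∈ S, q.1 = u ∨ q.1 = v ∨ q.1 = w) →
      S.encard ≤ 3 := by
    intro S u v w hS
    rw [← Subtype.val_injective.encard_image]
    refine (encard_le_encard (t := {u, v, w}) ?_).trans ?_
    · rintro _ ⟨q, hq, rfl⟩
      exact hS q hq
    · refine (encard_insert_le _ _).trans ?_
      refine (add_le_add_left (encard_insert_le _ _) _).trans ?_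
      rw [encard_singleton]
      norm_num
  refine ⟨(↑) ⁻¹' (Ioo l r ×ˢ Ioo (y - e) (y + e)),
    (isOpen_Ioo.prod isOpen_Ioo).preimage continuous_subtype_val,
    ⟨⟨hl2, hr1⟩, by simp only; linarith, by simp only; linarith⟩, ?_, ?_⟩
  · rintro ⟨⟨s, t⟩, hq⟩ ⟨⟨k1, k2⟩, k3, k4⟩
    simp only at k1 k2 k3 k4
    rw [Metric.mem_ball, Subtype.dist_eq, Prod.dist_eq, max_lt_iff, Real.dist_eq, Real.dist_eq,
      abs_lt, abs_lt]
    simp only
    refine ⟨⟨?_, ?_⟩, ?_, ?_⟩ <;> linarith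
  · by_cases h0 : y = 0
    · refine hcard _ (l, 0) (r, 0) (x, y + e) fun q hq => ?_
      rcases hfr q hq with h | h | h | h
      exacts [.inl h.1, .inr (.inl h.1), .inr (.inr h), absurd h0 h.2]
    · refine hcard _ (x, y - e) (x, y + e) (x, y + e) fun q hq => ?_
      rcases hfr q hq with h | h | h | h
      exacts [absurd h.2 h0, absurd h.2 h0, .inr (.inr h), .inl h.1]

theorem dim_one (X : Type) [MetricSpace X] [PreconnectedSpace X] (p q : X) (hpq : p ≠ q)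
    (H : ∀ (p : X) (ε : ℝ), 0 < ε → ∃ U : Set X, IsOpen U ∧ p ∈ U ∧ U ⊆ Metric.ball p ε ∧
      (frontier U).encard ≤ 3) : smallInductiveDimension X = 1 := by
  apply le_antisymm
  · refine (smallInductiveDimension_le_iff (n := 1)).2
      (.succ 1 {U | IsOpen U ∧ (frontier U).Finite} ?_ fun U hU => ?_)
    · refine TopologicalSpace.isTopologicalBasis_of_isOpen_of_nhds (fun U hU => hU.1) ?_
      intro x O hx hO
      obtain ⟨ε, hε, hb⟩ := Metric.isOpen_iff.1 hO x hx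
      obtain ⟨U, h1, h2, h3, h4⟩ := H x ε hε
      exact ⟨U, ⟨h1, finite_of_encard_le_coe (k := 3) h4⟩, h2, h3.trans hb⟩
    · have := hU.2.to_subtype
      rw [hasSmallInductiveDimensionLT_one_iff]
      exact TopologicalSpace.isTopologicalBasis_of_isOpen_of_nhds (fun U hU => hU.2)
        fun x O hx hO => ⟨O, isClopen_discrete O, hx, Subset.rfl⟩
  · by_contra h
    have h1 := hasSmallInductiveDimensionLT_one_iff.1
      ((smallInductiveDimension_lt_iff (n := 1)).1 (not_le.1 h))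
    obtain ⟨U, hU, h2, h3⟩ := h1.exists_subset_of_mem_open (a := p) (u := {q}ᶜ) hpq isOpen_compl_singleton
    have := IsClopen.eq_univ hU ⟨p, h2⟩
    exact h3 (this ▸ mem_univ q) rfl

end Pool.Agent.H81.Comb
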