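import Mathlib
import Pool.Agent.H81.Comb

namespace Pool.Agent.H81.Comb

open Set Filter Topology

open Classical in
noncomputable def hY (x : ℝ) : ℝ := if ∃ n : ℕ, x = (1 / 2) ^ n then x else 0

noncomputable def hX (x : ℝ) : ℝ := if x ≤ 0 then hY (x + 1) else hY x

theorem pow_pos' (n : ℕ) : (0 : ℝ) < (1 / 2) ^ n := by positivity
theorem pow_le' (n : ℕ) : ((1 : ℝ) / 2) ^ n ≤ 1 := pow_le_one₀ (by norm_num) (by norm_num)

theorem hY_pow (n : ℕ) : hY ((1 / 2) ^ n) = (1 / 2) ^ n := by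
  rw [hY, if_pos ⟨n, rfl⟩]

theorem hY_cases (x : ℝ) : hY x = 0 ∨ ∃ n : ℕ, x = (1 / 2) ^ n ∧ hY x = x := by
  by_cases h : ∃ n : ℕ, x = (1 / 2) ^ n
  · obtain ⟨n, hn⟩ := h
    exact .inr ⟨n, hn, by rw [hY, if_pos ⟨n, hn⟩]⟩
  · exact .inl (by rw [hY, if_neg h])

theorem hY_le {x : ℝ} (hx : 0 ≤ x) : hY x ≤ x := by
  rcases hY_cases x with h | ⟨n, -, h⟩
  · rw [h]; exact hx
  · exact h.le

theorem fin_pow (ε : ℝ) (hε : 0 < ε) : {n : ℕ | ε ≤ (1 / 2) ^ n}.Finite := by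
  obtain ⟨N, hN⟩ := exists_pow_lt_of_lt_one hε (show (1 / 2 : ℝ) < 1 by norm_num)
  refine (finite_lt_nat N).subset fun n hn => ?_
  by_contra h
  have : ((1 : ℝ) / 2) ^ n ≤ (1 / 2) ^ N :=
    pow_le_pow_of_le_one (by norm_num) (by norm_num) (not_lt.1 h)
  have hn' : ε ≤ (1 / 2) ^ n := hn
  linarith

theorem goodY : Good hY := by
  refine ⟨fun x => ?_, fun x => ?_, fun ε hε => ?_⟩
  · rcases hY_cases x with h | ⟨n, rfl, h⟩
    · exact h.ge
    · rw [h]; exact (pow_pos' n).le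
  · rcases hY_cases x with h | ⟨n, rfl, h⟩
    · rw [h]; exact zero_le_one
    · rw [h]; exact pow_le' n
  · refine ((fin_pow ε hε).image fun n => ((1 : ℝ) / 2) ^ n).subset fun x hx => ?_
    have hx' : ε ≤ hY x := hx
    rcases hY_cases x with h | ⟨n, rfl, h⟩
    · linarith
    · exact ⟨n, by rwa [h] at hx', rfl⟩

theorem goodX : Good hX := by
  refine ⟨fun x => ?_, fun x => ?_, fun ε hε => ?_⟩
  · unfold hX; split_ifs <;> exact goodY.nonneg _
  · unfold hX; split_ifs <;> exact goodY.le_one _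
  · refine (((goodY.fin ε hε).image fun x => x - 1).union (goodY.fin ε hε)).subset fun x hx => ?_
    have hx' : ε ≤ hX x := hx
    unfold hX at hx'
    split_ifs at hx'
    · exact .inl ⟨x + 1, hx', by ring⟩
    · exact .inr hx'

theorem hY_scale (k : ℕ) {s : ℝ} (hs : s ≤ 1) : hY ((1 / 2) ^ k * s) = (1 / 2) ^ k * hY s := by
  rcases hY_cases s with h | ⟨n, rfl, h⟩
  · rcases hY_cases ((1 / 2) ^ k * s) with h' | ⟨n, hn, -⟩
    · rw [h, h', mul_zero]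
    · have hkn : k ≤ n := by
        by_contra h1
        have h2 : ((1 : ℝ) / 2) ^ k < (1 / 2) ^ n :=
          pow_lt_pow_right_of_lt_one₀ (by norm_num) (by norm_num) (not_le.1 h1)
        nlinarith [pow_pos' k]
      obtain ⟨m, rfl⟩ := Nat.exists_eq_add_of_le hkn
      rw [pow_add] at hn
      have := mul_left_cancel₀ (pow_pos' k).ne' hn
      rw [this, hY_pow] at h
      exact absurd h (pow_pos' m).ne'
  · rw [h, ← pow_add, hY_pow]

theorem hY_gap (k : ℕ) {s : ℝ} (h1 : (1 / 2) ^ k / 2 < s) (h2 : s < (1 / 2) ^ k) : hY s = 0 := by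
  rcases hY_cases s with h | ⟨n, rfl, -⟩
  · exact h
  · exfalso
    have e1 : k < n := (pow_lt_pow_iff_right_of_lt_one₀ (by norm_num) (by norm_num)).1 h2
    have e2 : ((1 : ℝ) / 2) ^ n ≤ (1 / 2) ^ (k + 1) :=
      pow_le_pow_of_le_one (by norm_num) (by norm_num) e1
    rw [pow_succ] at e2
    linarith

abbrev XX : Set (ℝ × ℝ) := comb (-1) 1 hX
abbrev YY : Set (ℝ × ℝ) := comb 0 1 hY

theorem noncut_iff (S : Set (ℝ × ℝ)) (p : S) :
    IsPreconnected ({p}ᶜ : Set S) ↔ IsPreconnected (S \ {p.1}) := by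
  rw [← IsInducing.subtypeVal.isPreconnected_image]
  congr! 1
  ext q
  constructor
  · rintro ⟨r, hr, rfl⟩
    exact ⟨r.2, fun e => hr (Subtype.ext e)⟩
  · rintro ⟨h1, h2⟩
    exact ⟨⟨q, h1⟩, fun e => h2 (congrArg Subtype.val e), rfl⟩

theorem accY (q : YY) (hq : ∃ᶠ p in 𝓝 q, p ≠ q ∧ IsPreconnected ({p}ᶜ : Set YY)) :
    q.1 = (0, 0) := by
  by_contra h0
  have hq1 : 0 < q.1.1 := by
    refine lt_of_le_of_ne q.2.1 fun e => h0 (Prod.ext e.symm (le_antisymm ?_ q.2.2.2.1))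
    have := q.2.2.2.2.trans (hY_le q.2.1)
    rwa [← e] at this
  set T : Set (ℝ × ℝ) := insert (1, 0) ((fun x => (x, hY x)) '' {x | q.1.1 / 2 ≤ hY x}) with hT
  have hTf : T.Finite := ((goodY.fin _ (by linarith)).image _).insert _
  have hc : IsClosed (T \ {q.1}) := (hTf.subset diff_subset).isClosed
  have e1 : ∀ᶠ p : YY in 𝓝 q, p.1 ∈ (T \ {q.1})ᶜ :=
    continuous_subtype_val.continuousAt.eventually (hc.isOpen_compl.mem_nhds (by simp))
  have e2 : ∀ᶠ p : YY in 𝓝 q, q.1.1 / 2 < p.1.1 :=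
    (continuous_fst.comp continuous_subtype_val).continuousAt.eventually
      (lt_mem_nhds (by simp only [Function.comp]; linarith))
  obtain ⟨⟨⟨s, t⟩, k1, k2, k3, k4⟩, ⟨hp1, hp2⟩, hp3, hp4⟩ := (hq.and_eventually (e1.and e2)).exists
  rw [noncut_iff] at hp2
  simp only at k1 k2 k3 k4 hp2 hp4
  refine hp3 ⟨?_, fun e => hp1 (Subtype.ext e)⟩
  rcases k3.eq_or_lt with h | h
  · subst h
    rcases k2.eq_or_lt with h' | h'
    · exact .inl (Prod.ext h' rfl)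
    · exact absurd hp2 (goodY.cut2 (by linarith) h')
  · rcases k4.eq_or_lt with h' | h'
    · refine .inr ⟨s, ?_, Prod.ext rfl h'.symm⟩
      rcases hY_cases s with h2 | ⟨n, -, h2⟩
      · linarith
      · show q.1.1 / 2 ≤ hY s
        linarith
    · exact absurd hp2 (goodY.cut1 k1 k2 h h')

theorem accX (x : ℕ → ℝ) (a : ℝ) (ha : (a, (0 : ℝ)) ∈ XX) (h1 : ∀ n, -1 ≤ x n ∧ x n ≤ 1)
    (h2 : ∀ n, hX (x n) = (1 / 2) ^ n) (h3 : Tendsto x atTop (𝓝 a)) :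
    ∃ᶠ p in 𝓝 (⟨_, ha⟩ : XX), p ≠ ⟨_, ha⟩ ∧ IsPreconnected ({p}ᶜ : Set XX) := by
  have ht : Tendsto (fun n => (⟨(x n, hX (x n)), (h1 n).1, (h1 n).2, goodX.nonneg _, le_rfl⟩ : XX))
      atTop (𝓝 ⟨_, ha⟩) := by
    rw [tendsto_subtype_rng]
    refine h3.prodMk_nhds ?_
    simp only [h2]
    exact tendsto_pow_atTop_nhds_zero_of_lt_one (by norm_num) (by norm_num)
  refine ht.frequently (Frequently.of_forall fun n => ⟨fun e => ?_, ?_⟩)
  · have := congrArg (fun p : XX => p.1.2) e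
    simp only [h2] at this
    exact (pow_pos' n).ne' this
  · rw [noncut_iff]
    exact goodX.tip (by norm_num) _ (by rw [h2]; exact pow_pos' n)

theorem not_homeo : IsEmpty (XX ≃ₜ YY) := by
  refine ⟨fun φ => ?_⟩
  have key : ∀ q : XX, (∃ᶠ p in 𝓝 q, p ≠ q ∧ IsPreconnected ({p}ᶜ : Set XX)) →
      (φ q).1 = (0, 0) := by
    intro q hq
    refine accY _ ((φ.continuous.tendsto q).frequently (hq.mono fun p hp => ⟨?_, ?_⟩))
    · exact fun e => hp.1 (φ.injective e)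
    · have := φ.isPreconnected_image.2 hp.2
      rwa [image_compl_eq φ.bijective, image_singleton] at this
  have t0 := tendsto_pow_atTop_nhds_zero_of_lt_one (show (0 : ℝ) ≤ 1 / 2 by norm_num) (by norm_num)
  have a1 := key _ (accX (fun n => (1 / 2) ^ n) 0 ⟨by norm_num, by norm_num, le_rfl, goodX.nonneg _⟩
    (fun n => ⟨by linarith [pow_pos' n], pow_le' n⟩)
    (fun n => by rw [hX, if_neg (not_le.2 (pow_pos' n)), hY_pow]) t0)
  have a2 := key _ (accX (fun n => (1 / 2) ^ n - 1) (-1)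
    ⟨by norm_num, by norm_num, le_rfl, goodX.nonneg _⟩
    (fun n => ⟨by linarith [pow_pos' n], by linarith [pow_le' n]⟩)
    (fun n => by rw [hX, if_pos (by linarith [pow_le' n]), sub_add_cancel, hY_pow])
    (by simpa using t0.sub_const 1))
  have := congrArg (fun p : XX => p.1.1) (φ.injective (Subtype.ext (a1.trans a2.symm)))
  norm_num at this

noncomputable def F (δ : ℝ) (p : ℝ × ℝ) : ℝ × ℝ :=
  (max (max (δ / 2 * (p.1 + 1)) (δ / 2 + p.1 / 2)) p.1,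
    δ / 2 * max 0 (p.2 - max p.1 0) + p.2 * max 0 (min 1 ((p.1 - δ / 2) / (δ / 2))))

theorem F_cont (δ : ℝ) : Continuous (F δ) := by
  unfold F; fun_prop

theorem XX_pos {p : ℝ × ℝ} (hp : p ∈ XX) (h : 0 < p.1) : p.2 ≤ hY p.1 := by
  have := hp.2.2.2
  rwa [hX, if_neg (not_le.2 h)] at this

theorem F_left {δ : ℝ} (h0 : 0 < δ) (h1 : δ ≤ 1) {p : ℝ × ℝ} (hp : 0 ≤ p.2) (h : p.1 ≤ 0) :
    F δ p = (δ / 2 * (p.1 + 1), δ / 2 * p.2) := by
  have e1 : (p.1 - δ / 2) / (δ / 2) ≤ 0 := div_nonpos_of_nonpos_of_nonneg (by linarith) (by linarith)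
  rw [F, max_eq_left (a := δ / 2 * (p.1 + 1)) (by nlinarith), max_eq_left (by nlinarith),
    max_eq_right h, sub_zero, max_eq_right hp, max_eq_left ((min_le_right _ _).trans e1)]
  simp

theorem F_mid (k : ℕ) {p : ℝ × ℝ} (hp : p ∈ XX) (h : 0 < p.1) (h' : p.1 < (1 / 2) ^ k) :
    F ((1 / 2) ^ k) p = ((1 / 2) ^ k / 2 + p.1 / 2, 0) := by
  have h0 := pow_pos' k
  have h1 := pow_le' k
  have h2 := (XX_pos hp h).trans (hY_le h.le)
  rw [F, max_eq_right (a := (1 / 2) ^ k / 2 * (p.1 + 1)) (by nlinarith), max_eq_left (by nlinarith),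
    max_eq_left h.le, max_eq_left (a := 0) (b := p.2 - p.1) (by linarith)]
  by_cases h3 : p.1 ≤ (1 / 2) ^ k / 2
  · have e1 : (p.1 - (1 / 2) ^ k / 2) / ((1 / 2) ^ k / 2) ≤ 0 :=
      div_nonpos_of_nonpos_of_nonneg (by linarith) (by linarith)
    rw [max_eq_left ((min_le_right _ _).trans e1)]
    simp
  · have := XX_pos hp h
    rw [hY_gap k (not_le.1 h3) h'] at this
    rw [le_antisymm this hp.2.2.1]
    simp

theorem F_right {δ : ℝ} (h0 : 0 < δ) (h1 : δ ≤ 1) {p : ℝ × ℝ} (hp : p.2 ≤ p.1) (h : δ ≤ p.1) :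
    F δ p = p := by
  have e1 : 1 ≤ (p.1 - δ / 2) / (δ / 2) := by
    rw [le_div_iff₀ (by linarith)]; linarith
  rw [F, max_eq_right (a := δ / 2 * (p.1 + 1)) (by nlinarith), max_eq_right (by nlinarith),
    max_eq_left (a := p.1) (by linarith), max_eq_left (a := 0) (b := p.2 - p.1) (by linarith),
    min_eq_left e1, max_eq_right zero_le_one]
  simp

theorem F_cases (k : ℕ) {p : ℝ × ℝ} (hp : p ∈ XX) :
    (p.1 ≤ 0 ∧ F ((1 / 2) ^ k) p = ((1 / 2) ^ k / 2 * (p.1 + 1), (1 / 2) ^ k / 2 * p.2)) ∨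
    (0 < p.1 ∧ p.1 < (1 / 2) ^ k ∧ F ((1 / 2) ^ k) p = ((1 / 2) ^ k / 2 + p.1 / 2, 0)) ∨
    ((1 / 2) ^ k ≤ p.1 ∧ F ((1 / 2) ^ k) p = p) := by
  rcases le_or_gt p.1 0 with h | h
  · exact .inl ⟨h, F_left (pow_pos' k) (pow_le' k) hp.2.2.1 h⟩
  rcases lt_or_ge p.1 ((1 / 2) ^ k) with h' | h'
  · exact .inr (.inl ⟨h, h', F_mid k hp h h'⟩)
  · exact .inr (.inr ⟨h', F_right (pow_pos' k) (pow_le' k) ((XX_pos hp h).trans (hY_le h.le)) h'⟩)

theorem F_mem (k : ℕ) {p : ℝ × ℝ} (hp : p ∈ XX) : F ((1 / 2) ^ k) p ∈ YY := by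
  have h0 := pow_pos' k
  have h1 := pow_le' k
  obtain ⟨k1, k2, k3, k4⟩ := id hp
  rcases F_cases k hp with ⟨h, e⟩ | ⟨h, h', e⟩ | ⟨h, e⟩ <;> rw [e]
  · refine ⟨by simp only; nlinarith, by simp only; nlinarith, by simp only; positivity, ?_⟩
    have := hY_scale (k + 1) (s := p.1 + 1) (by linarith)
    rw [hX, if_pos h] at k4
    rw [pow_succ, ← div_eq_mul_one_div] at this
    simp only [this]
    gcongr
  · exact ⟨by simp only; linarith, by simp only; linarith, le_rfl, goodY.nonneg _⟩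
  · exact ⟨by linarith, k2, k3, XX_pos hp (by linarith)⟩

theorem F_surj (k : ℕ) {q : ℝ × ℝ} (hq : q ∈ YY) : ∃ p ∈ XX, F ((1 / 2) ^ k) p = q := by
  have h0 := pow_pos' k
  have h1 := pow_le' k
  obtain ⟨a, b⟩ := q
  obtain ⟨k1, k2, k3, k4⟩ := hq
  simp only at k1 k2 k3 k4
  by_cases c1 : a ≤ (1 / 2) ^ k / 2
  · have e1 : a / ((1 / 2) ^ k / 2) ≤ 1 := by rw [div_le_one (by linarith)]; exact c1
    have e2 : 0 ≤ a / ((1 / 2) ^ k / 2) := by positivity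
    have e3 : (1 / 2) ^ k / 2 * (a / ((1 / 2) ^ k / 2)) = a := by field_simp
    have e4 := hY_scale (k + 1) e1
    rw [pow_succ, ← div_eq_mul_one_div, e3] at e4
    refine ⟨(a / ((1 / 2) ^ k / 2) - 1, b / ((1 / 2) ^ k / 2)), ⟨by simp only; linarith,
      by simp only; linarith, by simp only; positivity, ?_⟩, ?_⟩
    · simp only
      rw [hX, if_pos (by linarith), sub_add_cancel, div_le_iff₀ (by linarith)]
      linarith
    · rw [F_left h0 h1 (by simp only; positivity) (by simp only; linarith)]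
      refine Prod.ext ?_ ?_
      · simp only [sub_add_cancel, e3]
      · simp only
        field_simp
  by_cases c2 : a < (1 / 2) ^ k
  · have hm : (2 * a - (1 / 2) ^ k, (0 : ℝ)) ∈ XX :=
      ⟨by simp only; linarith, by simp only; linarith, le_rfl, goodX.nonneg _⟩
    refine ⟨_, hm, ?_⟩
    rw [F_mid k hm (by simp only; linarith) (by simp only; linarith)]
    rw [hY_gap k (not_le.1 c1) c2] at k4
    exact Prod.ext (by simp only; ring) (le_antisymm k3 k4)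
  · refine ⟨(a, b), ⟨by simp only; linarith, k2, k3, ?_⟩,
      F_right h0 h1 (k4.trans (hY_le k1)) (not_lt.1 c2)⟩
    simp only
    rwa [hX, if_neg (by linarith)]

theorem F_fib (k : ℕ) {p q : ℝ × ℝ} (hp : p ∈ XX) (hq : q ∈ XX)
    (h : F ((1 / 2) ^ k) p = F ((1 / 2) ^ k) q) :
    p = q ∨ (p.1 = q.1 ∧ 0 < p.1 ∧ p.1 < (1 / 2) ^ k) := by
  have h0 := pow_pos' k
  have hp1 := hp.1
  have hq1 := hq.1
  rcases F_cases k hp with ⟨a, e⟩ | ⟨a, a', e⟩ | ⟨a, e⟩ <;>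
    rcases F_cases k hq with ⟨b, e'⟩ | ⟨b, b', e'⟩ | ⟨b, e'⟩ <;> rw [e, e'] at h <;>
    have h1 := congrArg Prod.fst h <;> have h2 := congrArg Prod.snd h <;>
    try simp only at h1 h2
  · exact .inl (Prod.ext (by nlinarith) (by nlinarith))
  · nlinarith
  · nlinarith
  · nlinarith
  · exact .inr ⟨by linarith, a, a'⟩
  · linarith
  · nlinarith
  · linarith
  · exact .inl h

theorem F_convex (k : ℕ) (c : ℝ × ℝ) : Convex ℝ {p | p ∈ XX ∧ F ((1 / 2) ^ k) p = c} := by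
  rintro p ⟨hp, hp'⟩ q ⟨hq, hq'⟩ s t hs ht hst
  rcases F_fib k hp hq (hp'.trans hq'.symm) with rfl | ⟨e, e1, e2⟩
  · rw [← add_smul, hst, one_smul]; exact ⟨hp, hp'⟩
  · have e3 : (s • p + t • q).1 = p.1 := by
      simp only [Prod.fst_add, Prod.smul_fst, smul_eq_mul, ← e]
      rw [← add_mul, hst, one_mul]
    have hm : s • p + t • q ∈ XX := by
      refine ⟨e3 ▸ hp.1, e3 ▸ hp.2.1, ?_, ?_⟩
      · simp only [Prod.snd_add, Prod.smul_snd, smul_eq_mul]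
        exact add_nonneg (mul_nonneg hs hp.2.2.1) (mul_nonneg ht hq.2.2.1)
      · have a1 := hp.2.2.2
        have a2 := hq.2.2.2
        rw [← e] at a2
        rw [e3]
        simp only [Prod.snd_add, Prod.smul_snd, smul_eq_mul]
        calc s * p.2 + t * q.2 ≤ s * hX p.1 + t * hX p.1 := by gcongr
          _ = hX p.1 := by rw [← add_mul, hst, one_mul]
    refine ⟨hm, ?_⟩
    rw [F_mid k hm (e3 ▸ e1) (e3 ▸ e2), e3, ← F_mid k hp e1 e2, hp']

theorem F_dist (k : ℕ) {p q : ℝ × ℝ} (hp : p ∈ XX) (hq : q ∈ XX)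
    (h : F ((1 / 2) ^ k) p = F ((1 / 2) ^ k) q) : dist p q ≤ (1 / 2) ^ k := by
  rcases F_fib k hp hq h with rfl | ⟨e, e1, e2⟩
  · simp
  · have a1 := (XX_pos hp e1).trans (hY_le e1.le)
    have a2 := (XX_pos hq (e ▸ e1)).trans (hY_le (e ▸ e1.le))
    have a3 := hp.2.2.1
    have a4 := hq.2.2.1
    rw [Prod.dist_eq, max_le_iff, e, dist_self, Real.dist_eq, abs_le]
    refine ⟨(pow_pos' k).le, ?_, ?_⟩ <;> linarith

def R (p : ℝ × ℝ) : ℝ × ℝ := (max p.1 0, min p.2 (max p.1 0))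

theorem R_cont : Continuous R := by unfold R; fun_prop

theorem R_left {p : ℝ × ℝ} (hp : p ∈ XX) (h : p.1 ≤ 0) : R p = (0, 0) := by
  rw [R, max_eq_right h, min_eq_right hp.2.2.1]

theorem R_right {p : ℝ × ℝ} (hp : p.2 ≤ p.1) (h : 0 ≤ p.1) : R p = p := by
  rw [R, max_eq_left h, min_eq_left hp]

theorem R_mem {p : ℝ × ℝ} (hp : p ∈ XX) : R p ∈ YY := by
  rcases le_or_gt p.1 0 with h | h
  · rw [R_left hp h]
    exact ⟨le_rfl, zero_le_one, le_rfl, goodY.nonneg _⟩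
  · rw [R_right ((XX_pos hp h).trans (hY_le h.le)) h.le]
    exact ⟨h.le, hp.2.1, hp.2.2.1, XX_pos hp h⟩

theorem R_surj {q : ℝ × ℝ} (hq : q ∈ YY) : ∃ p ∈ XX, R p = q := by
  have h1 := hq.2.2.2.trans (hY_le hq.1)
  refine ⟨q, ⟨by linarith [hq.1], hq.2.1, hq.2.2.1, ?_⟩, R_right h1 hq.1⟩
  rw [hX]
  split_ifs with h
  · exact (h1.trans h).trans (goodY.nonneg _)
  · exact hq.2.2.2

theorem FR_dist (k : ℕ) {p : ℝ × ℝ} (hp : p ∈ XX) :
    dist (F ((1 / 2) ^ k) p) (R p) ≤ (1 / 2) ^ k := by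
  have h0 := pow_pos' k
  have a1 := hp.1
  have a3 := hp.2.2.1
  have a4 := hp.2.2.2.trans (goodX.le_one _)
  rcases F_cases k hp with ⟨a, e⟩ | ⟨a, a', e⟩ | ⟨a, e⟩ <;> rw [e]
  · rw [R_left hp a, Prod.dist_eq, max_le_iff, Real.dist_eq, Real.dist_eq, abs_le, abs_le]
    simp only
    refine ⟨⟨?_, ?_⟩, ?_, ?_⟩ <;> nlinarith
  · have a5 := (XX_pos hp a).trans (hY_le a.le)
    rw [R_right a5 a.le, Prod.dist_eq, max_le_iff, Real.dist_eq, Real.dist_eq, abs_le, abs_le]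
    simp only
    refine ⟨⟨?_, ?_⟩, ?_, ?_⟩ <;> linarith
  · have a' : 0 < p.1 := by linarith
    rw [R_right ((XX_pos hp a').trans (hY_le a'.le)) a'.le, dist_self]
    exact h0.le

end Pool.Agent.H81.Comb
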