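import Mathlib

namespace Pool.Agent.H81.ConstWidth

open Metric Set
open scoped RealInnerProductSpace

variable {E : Type*} [NormedAddCommGroup E] [InnerProductSpace ℝ E]

/-- Any set of diameter at most one lies in a set equal to the intersection of the unit balls
around its points. -/
theorem exists_complete (T : Set E) (hT : ∀ x ∈ T, ∀ y ∈ T, dist x y ≤ 1) :
    ∃ K : Set E, T ⊆ K ∧ ∀ y, y ∈ K ↔ ∀ x ∈ K, dist x y ≤ 1 := by
  have h := zorn_subset_nonempty {S : Set E | ∀ x ∈ S, ∀ y ∈ S, dist x y ≤ 1} ?_ T hT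
  · obtain ⟨K, hTK, hK⟩ := h
    refine ⟨K, hTK, fun y => ⟨fun hy x hx => hK.prop x hx y hy, fun hy => ?_⟩⟩
    have h1 : insert y K ∈ {S : Set E | ∀ x ∈ S, ∀ y ∈ S, dist x y ≤ 1} := by
      intro a ha b hb
      rcases ha with rfl | ha <;> rcases hb with rfl | hb
      · simp
      · rw [dist_comm]; exact hy b hb
      · exact hy a ha
      · exact hK.prop a ha b hb
    exact hK.le_of_ge h1 (subset_insert _ _) (mem_insert _ _)
  · intro c hc hch _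
    refine ⟨⋃₀ c, ?_, fun s hs => subset_sUnion_of_mem hs⟩
    rintro x ⟨s, hs, hx⟩ y ⟨t, ht, hy⟩
    rcases hch.total hs ht with h | h
    · exact hc ht x (h hx) y hy
    · exact hc hs x hx y (h hy)

theorem complete_eq {K : Set E} (hK : ∀ y, y ∈ K ↔ ∀ x ∈ K, dist x y ≤ 1) :
    K = ⋂ x ∈ K, closedBall x 1 := by
  ext y
  simp only [mem_iInter, mem_closedBall]
  rw [hK y]
  simp [dist_comm]

theorem complete_convex {K : Set E} (hK : ∀ y, y ∈ K ↔ ∀ x ∈ K, dist x y ≤ 1) : Convex ℝ K := by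
  rw [complete_eq hK]
  exact convex_iInter₂ fun x _ => convex_closedBall x 1

theorem complete_closed {K : Set E} (hK : ∀ y, y ∈ K ↔ ∀ x ∈ K, dist x y ≤ 1) : IsClosed K := by
  rw [complete_eq hK]
  exact isClosed_biInter fun x _ => isClosed_closedBall

theorem complete_bounded {K : Set E} (hK : ∀ y, y ∈ K ↔ ∀ x ∈ K, dist x y ≤ 1) :
    Bornology.IsBounded K := by
  rw [Metric.isBounded_iff]
  exact ⟨1, fun x hx y hy => (hK y).1 hy x hx⟩

theorem strong {K : Set E} (hK : ∀ y, y ∈ K ↔ ∀ x ∈ K, dist x y ≤ 1) {x y : E} (hx : x ∈ K)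
    (hy : y ∈ K) {t : ℝ} (h0 : 0 ≤ t) (h1 : t ≤ 1) {u : E} (hu : ‖u‖ = 1) :
    y + t • (x - y) + (t * (1 - t) * ‖x - y‖ ^ 2 / 2) • u ∈ K := by
  rw [hK]
  intro c hc
  have hx' := (hK x).1 hx c hc
  have hy' := (hK y).1 hy c hc
  rw [dist_comm, dist_eq_norm] at hx' hy' ⊢
  set a := t * (1 - t) * ‖x - y‖ ^ 2 / 2 with ha
  have ha0 : 0 ≤ a := by
    have : 0 ≤ 1 - t := by linarith
    positivity
  have key : ‖y + t • (x - y) - c‖ ^ 2 = (1 - t) * ‖y - c‖ ^ 2 + t * ‖x - c‖ ^ 2 - 2 * a := by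
    have e1 : y + t • (x - y) - c = (1 - t) • (y - c) + t • (x - c) := by module
    have e2 : x - y = (x - c) - (y - c) := by abel
    rw [ha, e1, e2, norm_add_sq_real, norm_sub_sq_real (x - c), norm_smul, norm_smul, inner_smul_left,
      inner_smul_right, real_inner_comm (x - c) (y - c), mul_pow, mul_pow, Real.norm_eq_abs,
      Real.norm_eq_abs, sq_abs, sq_abs]
    simp only [conj_trivial]
    ring
  have hx2 : ‖x - c‖ ^ 2 ≤ 1 := by nlinarith [norm_nonneg (x - c)]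
  have hy2 : ‖y - c‖ ^ 2 ≤ 1 := by nlinarith [norm_nonneg (y - c)]
  have hle : ‖y + t • (x - y) - c‖ ^ 2 ≤ 1 - 2 * a := by
    rw [key]; nlinarith
  have hle2 : ‖y + t • (x - y) - c‖ ≤ 1 - a := by
    have h3 : 0 ≤ 1 - 2 * a := le_trans (sq_nonneg _) hle
    apply abs_le_of_sq_le_sq' _ (by linarith) |>.2
    nlinarith
  have e3 : y + t • (x - y) + a • u - c = (y + t • (x - y) - c) + a • u := by abel
  rw [e3]
  refine (norm_add_le _ _).trans ?_
  rw [norm_smul, hu, Real.norm_eq_abs, abs_of_nonneg ha0]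
  linarith

theorem antipode {K : Set E} (hK : ∀ y, y ∈ K ↔ ∀ x ∈ K, dist x y ≤ 1) {u y : E} (hu : ‖u‖ = 1)
    (hy : y ∈ K) (hmax : ∀ x ∈ K, ⟪u, x⟫ ≤ ⟪u, y⟫) : y - u ∈ K := by
  rw [hK]
  intro x hx
  have h1 : ∀ t : ℝ, 0 < t → t ≤ 1 → ⟪u, x - y⟫ + (1 - t) * ‖x - y‖ ^ 2 / 2 ≤ 0 := by
    intro t h0 h1
    have h2 := hmax _ (strong hK hx hy h0.le h1 hu)
    rw [inner_add_right, inner_add_right, inner_smul_right, inner_smul_right,
      real_inner_self_eq_norm_sq, hu] at h2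
    have h3 : t * (⟪u, x - y⟫ + (1 - t) * ‖x - y‖ ^ 2 / 2) ≤ 0 := by nlinarith
    by_contra h4
    push Not at h4
    have := mul_pos h0 h4
    linarith
  have h2 : ⟪u, x - y⟫ + ‖x - y‖ ^ 2 / 2 ≤ 0 := by
    apply le_of_forall_pos_le_add
    intro ε hε
    have hxy : ‖x - y‖ ≤ 1 := by rw [← dist_eq_norm]; exact (hK y).1 hy x hx
    have hxy2 : ‖x - y‖ ^ 2 ≤ 1 := by nlinarith [norm_nonneg (x - y)]
    have h3 := h1 (min ε 1) (lt_min hε one_pos) (min_le_right _ _)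
    have h4 : min ε 1 ≤ ε := min_le_left _ _
    have h5 : 0 < min ε 1 := lt_min hε one_pos
    nlinarith [sq_nonneg ‖x - y‖]
  rw [dist_eq_norm]
  have e : x - (y - u) = (x - y) + u := by abel
  rw [e]
  have h3 : ‖x - y + u‖ ^ 2 ≤ 1 := by
    rw [norm_add_sq_real, hu, real_inner_comm]; linarith
  nlinarith [norm_nonneg (x - y + u)]

/-- a complete set has width one in every direction -/
theorem complete_width [FiniteDimensional ℝ E] {K : Set E} (hne : K.Nonempty)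
    (hK : ∀ y, y ∈ K ↔ ∀ x ∈ K, dist x y ≤ 1) {u : E} (hu : ‖u‖ = 1) :
    sSup ((fun x => ⟪u, x⟫) '' K) - sInf ((fun x => ⟪u, x⟫) '' K) = 1 := by
  have hc : IsCompact K :=
    Metric.isCompact_of_isClosed_isBounded (complete_closed hK) (complete_bounded hK)
  obtain ⟨y, hy, hmax⟩ := hc.exists_isMaxOn hne (f := fun x => ⟪u, x⟫) (by fun_prop)
  have hm : ∀ x ∈ K, ⟪u, x⟫ ≤ ⟪u, y⟫ := fun x hx => hmax hx
  have h1 := antipode hK hu hy hm
  have hS : IsGreatest ((fun x => ⟪u, x⟫) '' K) ⟪u, y⟫ :=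
    ⟨⟨y, hy, rfl⟩, by rintro _ ⟨x, hx, rfl⟩; exact hm x hx⟩
  have hI : IsLeast ((fun x => ⟪u, x⟫) '' K) (⟪u, y⟫ - 1) := by
    refine ⟨⟨y - u, h1, ?_⟩, ?_⟩
    · simp only [inner_sub_right, real_inner_self_eq_norm_sq, hu]; ring
    · rintro _ ⟨x, hx, rfl⟩
      have h2 : ⟪u, y - x⟫ ≤ ‖u‖ * ‖y - x‖ := real_inner_le_norm _ _
      have h3 : ‖y - x‖ ≤ 1 := by rw [← dist_eq_norm]; exact (hK x).1 hx y hy
      rw [inner_sub_right, hu] at h2
      simp only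
      linarith
  rw [hS.csSup_eq, hI.csInf_eq]; ring

theorem dist_le_of_width {K : Set E} (hc : IsCompact K)
    (hw : ∀ u : E, ‖u‖ = 1 → sSup ((fun x => ⟪u, x⟫) '' K) - sInf ((fun x => ⟪u, x⟫) '' K) = 1)
    {x y : E} (hx : x ∈ K) (hy : y ∈ K) : dist x y ≤ 1 := by
  rcases eq_or_ne x y with rfl | hne
  · simp
  have hn : 0 < ‖x - y‖ := norm_pos_iff.2 (sub_ne_zero.2 hne)
  set u := ‖x - y‖⁻¹ • (x - y) with hu
  have hu1 : ‖u‖ = 1 := by
    rw [hu, norm_smul, norm_inv, norm_norm, inv_mul_cancel₀ hn.ne']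
  have himg : IsCompact ((fun x => ⟪u, x⟫) '' K) := hc.image (by fun_prop)
  have h1 : ⟪u, x⟫ ≤ sSup ((fun x => ⟪u, x⟫) '' K) := le_csSup himg.bddAbove ⟨x, hx, rfl⟩
  have h2 : sInf ((fun x => ⟪u, x⟫) '' K) ≤ ⟪u, y⟫ := csInf_le himg.bddBelow ⟨y, hy, rfl⟩
  have h3 : ⟪u, x - y⟫ = ‖x - y‖ := by
    rw [hu, inner_smul_left, real_inner_self_eq_norm_sq]
    simp only [conj_trivial]
    field_simp
  rw [inner_sub_right] at h3
  rw [dist_eq_norm]
  linarith [hw u hu1]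

theorem euler (x y z w : E) :
    4 * dist (midpoint ℝ x y) (midpoint ℝ z w) ^ 2 + dist x y ^ 2 + dist z w ^ 2 =
      dist x z ^ 2 + dist x w ^ 2 + dist y z ^ 2 + dist y w ^ 2 := by
  have e : midpoint ℝ x y - midpoint ℝ z w = (1 / 2 : ℝ) • ((x + y) - (z + w)) := by
    rw [midpoint_eq_smul_add, midpoint_eq_smul_add]; simp [smul_sub]
  simp only [dist_eq_norm]
  rw [e, norm_smul]
  simp only [← real_inner_self_eq_norm_sq, mul_pow, Real.norm_eq_abs, sq_abs, inner_sub_left,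
    inner_sub_right, inner_add_left, inner_add_right, real_inner_comm]
  ring

theorem mid_le {x y z w : E} (h1 : dist x y = 1) (h2 : dist z w = 1) (a : dist x z ≤ 1)
    (b : dist x w ≤ 1) (c : dist y z ≤ 1) (d : dist y w ≤ 1) :
    dist (midpoint ℝ x y) (midpoint ℝ z w) ≤ 1 / √2 := by
  have h := euler x y z w
  rw [h1, h2] at h
  have h3 : dist (midpoint ℝ x y) (midpoint ℝ z w) ^ 2 ≤ (1 / √2) ^ 2 := by
    rw [div_pow, Real.sq_sqrt (by norm_num)]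
    nlinarith [dist_nonneg (x := x) (y := z), dist_nonneg (x := x) (y := w),
      dist_nonneg (x := y) (y := z), dist_nonneg (x := y) (y := w)]
  exact (abs_le_of_sq_le_sq' h3 (by positivity)).2

theorem mid_eq {x y z w : E} (h1 : dist x y = 1) (h2 : dist z w = 1) (a : dist x z = 1)
    (b : dist x w = 1) (c : dist y z = 1) (d : dist y w = 1) :
    dist (midpoint ℝ x y) (midpoint ℝ z w) = 1 / √2 := by
  have h := euler x y z w
  rw [h1, h2, a, b, c, d] at h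
  have h3 : dist (midpoint ℝ x y) (midpoint ℝ z w) ^ 2 = (1 / √2) ^ 2 := by
    rw [div_pow, Real.sq_sqrt (by norm_num)]
    linarith
  exact (pow_left_inj₀ dist_nonneg (by positivity) two_ne_zero).1 h3

theorem planar_alg {r s c A B : ℝ} (hsc : s + c = 1) (hA : |A| ≤ s - r) (hB : |B| ≤ c - r)
    (hid : 4 * r * c * s = A ^ 2 * s + B ^ 2 * c) : r ≤ 1 / 4 := by
  by_contra h
  push Not at h
  have hs : 0 ≤ s - r := le_trans (abs_nonneg _) hA
  have hc : 0 ≤ c - r := le_trans (abs_nonneg _) hB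
  have hA2 : A ^ 2 ≤ (s - r) ^ 2 := by rw [← sq_abs]; gcongr
  have hB2 : B ^ 2 ≤ (c - r) ^ 2 := by rw [← sq_abs]; gcongr
  set σ := s - r with hσ
  set γ := c - r with hγ
  have e1 : s = r + σ := by ring
  have e2 : c = r + γ := by ring
  have hT : σ + γ < 2 * r := by linarith
  have h1 : A ^ 2 * s + B ^ 2 * c ≤ σ ^ 2 * (r + σ) + γ ^ 2 * (r + γ) := by
    rw [← e1, ← e2]
    have : 0 ≤ s := by linarith
    have : 0 ≤ c := by linarith
    gcongr
  have hp : 0 ≤ σ * γ := mul_nonneg hs hc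
  have h2 : σ ^ 2 * (r + σ) + γ ^ 2 * (r + γ) ≤ (σ + γ) ^ 2 * (r + σ + γ) := by nlinarith
  have h3 : (σ + γ) ^ 2 * (r + σ + γ) < (2 * r) ^ 2 * (r + σ + γ) := by
    apply mul_lt_mul_of_pos_right _ (by linarith)
    gcongr
  have h4 : (2 * r) ^ 2 * (r + σ + γ) ≤ 4 * r * (r + γ) * (r + σ) := by nlinarith
  rw [← e1, ← e2] at h4
  rw [e1] at h4
  nlinarith

theorem planar_alg2 {v0 v1 p0 p1 m0 m1 : ℝ} (hpm : p0 * m0 + p1 * m1 = 0)
    (hsum : (m0 ^ 2 + m1 ^ 2) + (p0 ^ 2 + p1 ^ 2) = 1)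
    (a' : (v0 + m0) ^ 2 + (v1 + m1) ^ 2 ≤ 1) (b' : (v0 + p0) ^ 2 + (v1 + p1) ^ 2 ≤ 1)
    (c' : (v0 - p0) ^ 2 + (v1 - p1) ^ 2 ≤ 1) (d' : (v0 - m0) ^ 2 + (v1 - m1) ^ 2 ≤ 1) :
    v0 ^ 2 + v1 ^ 2 ≤ 1 / 4 := by
  refine planar_alg (r := v0 ^ 2 + v1 ^ 2) (s := m0 ^ 2 + m1 ^ 2) (c := p0 ^ 2 + p1 ^ 2)
    (A := 2 * (v0 * p0 + v1 * p1)) (B := 2 * (v0 * m0 + v1 * m1)) hsum
    (abs_le.2 ⟨by linarith, by linarith⟩) (abs_le.2 ⟨by linarith, by linarith⟩) ?_
  have : (v0 ^ 2 + v1 ^ 2) * (p0 ^ 2 + p1 ^ 2) * (m0 ^ 2 + m1 ^ 2) -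
      (v0 * p0 + v1 * p1) ^ 2 * (m0 ^ 2 + m1 ^ 2) - (v0 * m0 + v1 * m1) ^ 2 * (p0 ^ 2 + p1 ^ 2) =
      (p0 * m0 + p1 * m1) * ((v0 ^ 2 + v1 ^ 2) * (p0 * m0 + p1 * m1) -
        2 * (v0 * p0 + v1 * p1) * (v0 * m0 + v1 * m1)) := by ring
  rw [hpm] at this
  linear_combination 4 * this

theorem mid_le_planar {x y z w : EuclideanSpace ℝ (Fin 2)} (h1 : dist x y = 1) (h2 : dist z w = 1)
    (a : dist x z ≤ 1) (b : dist x w ≤ 1) (c : dist y z ≤ 1) (d : dist y w ≤ 1) :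
    dist (midpoint ℝ x y) (midpoint ℝ z w) ≤ 1 / 2 := by
  have sq : ∀ p q : EuclideanSpace ℝ (Fin 2), dist p q ^ 2 = (p 0 - q 0) ^ 2 + (p 1 - q 1) ^ 2 := by
    intro p q
    rw [EuclideanSpace.dist_eq, Real.sq_sqrt (by positivity), Fin.sum_univ_two]
    simp [Real.dist_eq, sq_abs]
  have h1' := sq x y
  have h2' := sq z w
  rw [h1] at h1'
  rw [h2] at h2'
  have a' : (x 0 - z 0) ^ 2 + (x 1 - z 1) ^ 2 ≤ 1 := by
    rw [← sq]; nlinarith [dist_nonneg (x := x) (y := z)]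
  have b' : (x 0 - w 0) ^ 2 + (x 1 - w 1) ^ 2 ≤ 1 := by
    rw [← sq]; nlinarith [dist_nonneg (x := x) (y := w)]
  have c' : (y 0 - z 0) ^ 2 + (y 1 - z 1) ^ 2 ≤ 1 := by
    rw [← sq]; nlinarith [dist_nonneg (x := y) (y := z)]
  have d' : (y 0 - w 0) ^ 2 + (y 1 - w 1) ^ 2 ≤ 1 := by
    rw [← sq]; nlinarith [dist_nonneg (x := y) (y := w)]
  have hm := sq (midpoint ℝ x y) (midpoint ℝ z w)
  have m : ∀ p q : EuclideanSpace ℝ (Fin 2), ∀ i, midpoint ℝ p q i = (p i + q i) / 2 := by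
    intro p q i
    rw [midpoint_eq_smul_add]; simp; ring
  rw [m, m, m, m] at hm
  have key := planar_alg2 (v0 := (x 0 + y 0) / 2 - (z 0 + w 0) / 2)
    (v1 := (x 1 + y 1) / 2 - (z 1 + w 1) / 2) (p0 := ((x 0 - y 0) + (z 0 - w 0)) / 2)
    (p1 := ((x 1 - y 1) + (z 1 - w 1)) / 2) (m0 := ((x 0 - y 0) - (z 0 - w 0)) / 2)
    (m1 := ((x 1 - y 1) - (z 1 - w 1)) / 2) (by linear_combination (h2' - h1') / 4)
    (by linear_combination (-h1' - h2') / 2) (by convert a' using 2 <;> ring)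
    (by convert b' using 2 <;> ring) (by convert c' using 2 <;> ring)
    (by convert d' using 2 <;> ring)
  have h3 : dist (midpoint ℝ x y) (midpoint ℝ z w) ^ 2 ≤ (1 / 2) ^ 2 := by
    rw [hm]; linarith
  exact (abs_le_of_sq_le_sq' h3 (by positivity)).2

theorem exists_tetra {d : ℕ} (hd : 3 ≤ d) : ∃ x y z w : EuclideanSpace ℝ (Fin d),
    dist x y = 1 ∧ dist z w = 1 ∧ dist x z = 1 ∧ dist x w = 1 ∧ dist y z = 1 ∧ dist y w = 1 := by
  let i : Fin d := ⟨0, by omega⟩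
  let j : Fin d := ⟨1, by omega⟩
  let k : Fin d := ⟨2, by omega⟩
  have hij : i ≠ j := by simp [i, j]
  have hik : i ≠ k := by simp [i, k]
  have hjk : j ≠ k := by simp [j, k]
  let A : Fin d → EuclideanSpace ℝ (Fin d) := fun i => EuclideanSpace.single i (1 / √2 : ℝ)
  have h1 : ∀ p q, p ≠ q → ‖A p + A q‖ = 1 := by
    intro p q h
    have : ‖A p + A q‖ ^ 2 = 1 ^ 2 := by
      rw [norm_add_sq_real]
      simp [A, EuclideanSpace.inner_single_left, h]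
      norm_num
    exact (pow_left_inj₀ (norm_nonneg _) (by positivity) two_ne_zero).1 this
  have h2 : ∀ p q, p ≠ q → ‖A p - A q‖ = 1 := by
    intro p q h
    have : ‖A p - A q‖ ^ 2 = 1 ^ 2 := by
      rw [norm_sub_sq_real]
      simp [A, EuclideanSpace.inner_single_left, h]
      norm_num
    exact (pow_left_inj₀ (norm_nonneg _) (by positivity) two_ne_zero).1 this
  refine ⟨A i + A j, 0, A i + A k, A j + A k, ?_, ?_, ?_, ?_, ?_, ?_⟩
  · rw [dist_zero_right]; exact h1 _ _ hij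
  · rw [dist_add_right, dist_eq_norm]; exact h2 _ _ hij
  · rw [dist_add_left, dist_eq_norm]; exact h2 _ _ hjk
  · rw [add_comm (A i), dist_add_left, dist_eq_norm]; exact h2 _ _ hik
  · rw [dist_zero_left]; exact h1 _ _ hik
  · rw [dist_zero_left]; exact h1 _ _ hjk

theorem exists_tri : ∃ x y z : EuclideanSpace ℝ (Fin 2),
    dist x y = 1 ∧ dist x z = 1 ∧ dist y z = 1 := by
  refine ⟨!₂[0, 0], !₂[1, 0], !₂[1 / 2, √3 / 2], ?_, ?_, ?_⟩
  · simp [EuclideanSpace.dist_eq]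
  · simp [EuclideanSpace.dist_eq, div_pow]
    norm_num
  · simp [EuclideanSpace.dist_eq, div_pow, Real.dist_eq]
    norm_num

theorem four_points {x y z w : E} (h1 : dist x y ≤ 1) (h2 : dist z w ≤ 1) (a : dist x z ≤ 1)
    (b : dist x w ≤ 1) (c : dist y z ≤ 1) (d : dist y w ≤ 1) :
    ∀ p ∈ ({x, y, z, w} : Set E), ∀ q ∈ ({x, y, z, w} : Set E), dist p q ≤ 1 := by
  intro p hp q hq
  simp only [mem_insert_iff, mem_singleton_iff] at hp hq
  rcases hp with rfl | rfl | rfl | rfl <;> rcases hq with rfl | rfl | rfl | rfl <;>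
    first | simp | assumption | (rw [dist_comm]; assumption)

/-- the main statement with all definitions unfolded -/
theorem main (d : ℕ) (hd : 2 ≤ d) :
    IsGreatest {t : ℝ | ∃ K : Set (EuclideanSpace ℝ (Fin d)), (IsCompact K ∧ Convex ℝ K ∧
      ∀ u : EuclideanSpace ℝ (Fin d), ‖u‖ = 1 →
        sSup ((fun x => ⟪u, x⟫) '' K) - sInf ((fun x => ⟪u, x⟫) '' K) = 1) ∧
      t = diam {m | ∃ x ∈ K, ∃ y ∈ K, dist x y = 1 ∧ m = midpoint ℝ x y}}
      (if d = 2 then 1 / 2 else 1 / √2) := by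
  have up : ∀ K : Set (EuclideanSpace ℝ (Fin d)), (∀ x ∈ K, ∀ y ∈ K, dist x y ≤ 1) →
      ∀ p ∈ {m | ∃ x ∈ K, ∃ y ∈ K, dist x y = 1 ∧ m = midpoint ℝ x y},
      ∀ q ∈ {m | ∃ x ∈ K, ∃ y ∈ K, dist x y = 1 ∧ m = midpoint ℝ x y},
      dist p q ≤ (if d = 2 then 1 / 2 else 1 / √2 : ℝ) := by
    rintro K hK _ ⟨x, hx, y, hy, h1, rfl⟩ _ ⟨z, hz, w, hw, h2, rfl⟩
    split_ifs with h
    · subst h
      exact mid_le_planar h1 h2 (hK _ hx _ hz) (hK _ hx _ hw) (hK _ hy _ hz) (hK _ hy _ hw)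
    · exact mid_le h1 h2 (hK _ hx _ hz) (hK _ hx _ hw) (hK _ hy _ hz) (hK _ hy _ hw)
  have pos : (0 : ℝ) ≤ (if d = 2 then 1 / 2 else 1 / √2 : ℝ) := by split_ifs <;> positivity
  constructor
  · have : ∃ x y z w : EuclideanSpace ℝ (Fin d), dist x y = 1 ∧ dist z w = 1 ∧ dist x z ≤ 1 ∧
        dist x w ≤ 1 ∧ dist y z ≤ 1 ∧ dist y w ≤ 1 ∧
        dist (midpoint ℝ x y) (midpoint ℝ z w) = (if d = 2 then 1 / 2 else 1 / √2 : ℝ) := by
      split_ifs with h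
      · subst h
        obtain ⟨x, y, z, h1, h2, h3⟩ := exists_tri
        refine ⟨x, y, x, z, h1, h2, by simp, h2.le, by rw [dist_comm]; exact h1.le, h3.le, ?_⟩
        have e := euler x y x z
        rw [dist_comm y x, h1, h2, h3, dist_self] at e
        have h4 : dist (midpoint ℝ x y) (midpoint ℝ x z) ^ 2 = (1 / 2) ^ 2 := by linarith
        exact (pow_left_inj₀ dist_nonneg (by positivity) two_ne_zero).1 h4
      · obtain ⟨x, y, z, w, h1, h2, h3, h4, h5, h6⟩ := exists_tetra (d := d) (by omega)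
        exact ⟨x, y, z, w, h1, h2, h3.le, h4.le, h5.le, h6.le, mid_eq h1 h2 h3 h4 h5 h6⟩
    obtain ⟨x, y, z, w, h1, h2, a, b, c, e, hm⟩ := this
    obtain ⟨K, hT, hK⟩ := exists_complete _ (four_points h1.le h2.le a b c e)
    have hx : x ∈ K := hT (by simp)
    have hy : y ∈ K := hT (by simp)
    have hz : z ∈ K := hT (by simp)
    have hw : w ∈ K := hT (by simp)
    refine ⟨K, ⟨Metric.isCompact_of_isClosed_isBounded (complete_closed hK) (complete_bounded hK),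
      complete_convex hK, fun u hu => complete_width ⟨x, hx⟩ hK hu⟩, ?_⟩
    have hup := up K (fun p hp q hq => (hK q).1 hq p hp)
    apply le_antisymm
    · rw [← hm]
      refine dist_le_diam_of_mem ?_ ⟨x, hx, y, hy, h1, rfl⟩ ⟨z, hz, w, hw, h2, rfl⟩
      rw [Metric.isBounded_iff]
      exact ⟨_, fun p hp q hq => hup p hp q hq⟩
    · exact diam_le_of_forall_dist_le pos hup
  · rintro _ ⟨K, ⟨hc, -, hw⟩, rfl⟩
    exact diam_le_of_forall_dist_le pos (up K fun x hx y hy => dist_le_of_width hc hw hx hy)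

end Pool.Agent.H81.ConstWidth
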