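import Mathlib

set_option autoImplicit false

namespace Pool.Agent.H81.Cv

open Set Matrix Filter Topology

abbrev V4 := Fin 4 → ℝ
abbrev T4 := Fin 4 → Fin 4 → Fin 4 → Fin 4 → ℝ
abbrev M4 := Matrix (Fin 4) (Fin 4) ℝ
abbrev SL4 := Matrix.SpecialLinearGroup (Fin 4) ℝ

/-- The 4-linear form of a 4-tensor. -/
def ev (R : T4) (a b c d : V4) : ℝ := ∑ i, ∑ j, ∑ k, ∑ l, a i * b j * c k * d l * R i j k l

/-- Algebraic curvature tensors on `ℝ^4`. -/
def Curv : Submodule ℝ T4 where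
  carrier := {R | (∀ i j k l, R i j k l = -R j i k l) ∧ (∀ i j k l, R i j k l = R k l i j) ∧
    ∀ i j k l, R i j k l + R i k l j + R i l j k = 0}
  add_mem' := by
    rintro R S ⟨a1, a2, a3⟩ ⟨b1, b2, b3⟩
    refine ⟨fun i j k l => ?_, fun i j k l => ?_, fun i j k l => ?_⟩ <;> simp only [Pi.add_apply]
    · linarith [a1 i j k l, b1 i j k l]
    · linarith [a2 i j k l, b2 i j k l]
    · linarith [a3 i j k l, b3 i j k l]
  zero_mem' := by simp
  smul_mem' := by
    rintro c R ⟨a1, a2, a3⟩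
    refine ⟨fun i j k l => ?_, fun i j k l => ?_, fun i j k l => ?_⟩ <;>
      simp only [Pi.smul_apply, smul_eq_mul]
    · rw [a1 i j k l]; ring
    · rw [a2 i j k l]
    · linear_combination c * a3 i j k l

structure Quad (F : V4 → V4 → V4 → V4 → ℝ) : Prop where
  a1 : ∀ x y b c d, F (x + y) b c d = F x b c d + F y b c d
  s1 : ∀ (r : ℝ) x b c d, F (r • x) b c d = r * F x b c d
  a2 : ∀ a x y c d, F a (x + y) c d = F a x c d + F a y c d
  s2 : ∀ (r : ℝ) a x c d, F a (r • x) c d = r * F a x c d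
  a3 : ∀ a b x y d, F a b (x + y) d = F a b x d + F a b y d
  s3 : ∀ (r : ℝ) a b x d, F a b (r • x) d = r * F a b x d
  a4 : ∀ a b c x y, F a b c (x + y) = F a b c x + F a b c y
  s4 : ∀ (r : ℝ) a b c x, F a b c (r • x) = r * F a b c x

lemma lin {f : V4 → ℝ} (h1 : ∀ x y, f (x + y) = f x + f y) (h2 : ∀ (r : ℝ) x, f (r • x) = r * f x)
    (a : V4) (T : M4) : f (a ᵥ* T) = ∑ i, a i * f (T i) := by
  have : a ᵥ* T = a 0 • T 0 + a 1 • T 1 + a 2 • T 2 + a 3 • T 3 := by
    ext j; simp [vecMul, dotProduct, Fin.sum_univ_four]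
  rw [this, Fin.sum_univ_four]
  simp only [h1, h2]

lemma Quad.ev_eq {F : V4 → V4 → V4 → V4 → ℝ} (h : Quad F) (T : M4) (a b c d : V4) :
    ev (fun i j k l => F (T i) (T j) (T k) (T l)) a b c d =
      F (a ᵥ* T) (b ᵥ* T) (c ᵥ* T) (d ᵥ* T) := by
  rw [lin (f := fun x => F x _ _ _) (fun x y => h.a1 x y _ _ _) (fun r x => h.s1 r x _ _ _)]
  simp_rw [fun u => lin (f := fun x => F u x (c ᵥ* T) (d ᵥ* T)) (fun x y => h.a2 _ x y _ _)
      (fun r x => h.s2 r _ x _ _) b T,
    fun u v => lin (f := fun x => F u v x (d ᵥ* T)) (fun x y => h.a3 _ _ x y _)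
      (fun r x => h.s3 r _ _ x _) c T,
    fun u v w => lin (f := fun x => F u v w x) (fun x y => h.a4 _ _ _ x y)
      (fun r x => h.s4 r _ _ _ x) d T]
  simp only [ev, Finset.mul_sum, mul_assoc]

lemma ev_quad (R : T4) : Quad (ev R) := by
  constructor <;> intros <;>
    simp only [ev, Pi.add_apply, Pi.smul_apply, smul_eq_mul, add_mul, mul_add,
      Finset.sum_add_distrib, Finset.mul_sum] <;>
    refine Finset.sum_congr rfl fun i _ => Finset.sum_congr rfl fun j _ =>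
      Finset.sum_congr rfl fun k _ => Finset.sum_congr rfl fun l _ => by ring

lemma ev_prod (R : T4) (a b c d : V4) : ev R a b c d =
    ∑ x : Fin 4 × Fin 4 × Fin 4 × Fin 4,
      a x.1 * b x.2.1 * c x.2.2.1 * d x.2.2.2 * R x.1 x.2.1 x.2.2.1 x.2.2.2 := by
  simp only [ev, Fintype.sum_prod_type]

lemma ev_A1 {R : T4} (h : R ∈ Curv) (a b c d : V4) : ev R a b c d = -ev R b a c d := by
  rw [ev_prod, ev_prod, ← Finset.sum_neg_distrib]
  exact Fintype.sum_equiv ⟨fun x => (x.2.1, x.1, x.2.2), fun x => (x.2.1, x.1, x.2.2),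
    fun _ => rfl, fun _ => rfl⟩ _ _ fun x => by
      simp only [Equiv.coe_fn_mk]; rw [h.1]; ring

lemma ev_PS {R : T4} (h : R ∈ Curv) (a b c d : V4) : ev R a b c d = ev R c d a b := by
  rw [ev_prod, ev_prod]
  exact Fintype.sum_equiv ⟨fun x => (x.2.2.1, x.2.2.2, x.1, x.2.1),
    fun x => (x.2.2.1, x.2.2.2, x.1, x.2.1), fun _ => rfl, fun _ => rfl⟩ _ _ fun x => by
      simp only [Equiv.coe_fn_mk]; rw [h.2.1]; ring

lemma ev_Bi {R : T4} (h : R ∈ Curv) (a b c d : V4) :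
    ev R a b c d + ev R a c d b + ev R a d b c = 0 := by
  have e1 : ev R a c d b = ∑ x : Fin 4 × Fin 4 × Fin 4 × Fin 4,
      a x.1 * b x.2.1 * c x.2.2.1 * d x.2.2.2 * R x.1 x.2.2.1 x.2.2.2 x.2.1 := by
    rw [ev_prod]
    exact Fintype.sum_equiv ⟨fun x => (x.1, x.2.2.2, x.2.1, x.2.2.1),
      fun x => (x.1, x.2.2.1, x.2.2.2, x.2.1), fun _ => rfl, fun _ => rfl⟩ _ _ fun x => by
        simp only [Equiv.coe_fn_mk]; ring
  have e2 : ev R a d b c = ∑ x : Fin 4 × Fin 4 × Fin 4 × Fin 4,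
      a x.1 * b x.2.1 * c x.2.2.1 * d x.2.2.2 * R x.1 x.2.2.2 x.2.1 x.2.2.1 := by
    rw [ev_prod]
    exact Fintype.sum_equiv ⟨fun x => (x.1, x.2.2.1, x.2.2.2, x.2.1),
      fun x => (x.1, x.2.2.2, x.2.1, x.2.2.1), fun _ => rfl, fun _ => rfl⟩ _ _ fun x => by
        simp only [Equiv.coe_fn_mk]; ring
  rw [e1, e2, ev_prod, ← Finset.sum_add_distrib, ← Finset.sum_add_distrib]
  exact Finset.sum_eq_zero fun x _ => by
    linear_combination a x.1 * b x.2.1 * c x.2.2.1 * d x.2.2.2 * h.2.2 x.1 x.2.1 x.2.2.1 x.2.2.2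

lemma ev_one (R : T4) (i j k l : Fin 4) :
    ev R ((1 : M4) i) ((1 : M4) j) ((1 : M4) k) ((1 : M4) l) = R i j k l := by
  simp [ev, one_apply, ite_mul]

lemma ev_add (R S : T4) (a b c d : V4) : ev (R + S) a b c d = ev R a b c d + ev S a b c d := by
  simp only [ev, Pi.add_apply, mul_add, Finset.sum_add_distrib]

lemma ev_smul (r : ℝ) (R : T4) (a b c d : V4) : ev (r • R) a b c d = r * ev R a b c d := by
  simp only [ev, Pi.smul_apply, smul_eq_mul, Finset.mul_sum]
  exact Finset.sum_congr rfl fun i _ => Finset.sum_congr rfl fun j _ =>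
      Finset.sum_congr rfl fun k _ => Finset.sum_congr rfl fun l _ => by ring

/-- The tensor action `(T R)_{ijkl} = ∑ T_{ia} T_{jb} T_{kc} T_{ld} R_{abcd}`, as a linear map. -/
def actL (T : SL4) : Curv →ₗ[ℝ] Curv where
  toFun R := ⟨fun i j k l => ev R (T i) (T j) (T k) (T l),
    fun _ _ _ _ => ev_A1 R.2 _ _ _ _, fun _ _ _ _ => ev_PS R.2 _ _ _ _,
    fun _ _ _ _ => ev_Bi R.2 _ _ _ _⟩
  map_add' R S := Subtype.ext (by ext i j k l; exact ev_add _ _ _ _ _ _)
  map_smul' r R := Subtype.ext (by ext i j k l; exact ev_smul _ _ _ _ _ _)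

lemma ev_act (T : SL4) (R : Curv) (a b c d : V4) :
    ev (actL T R).1 a b c d = ev R.1 (a ᵥ* T.1) (b ᵥ* T.1) (c ᵥ* T.1) (d ᵥ* T.1) :=
  (ev_quad R.1).ev_eq T.1 a b c d

/-- The representation of `SL(4, ℝ)` on algebraic curvature tensors. -/
def act : SL4 →* (Curv →ₗ[ℝ] Curv) where
  toFun := actL
  map_one' := LinearMap.ext fun R => Subtype.ext (by ext i j k l; exact ev_one R.1 i j k l)
  map_mul' S T := LinearMap.ext fun R => Subtype.ext (by
    ext i j k l
    exact (ev_act T R (S i) (S j) (S k) (S l)).symm)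

def evL (s t : V4) : Curv →ₗ[ℝ] ℝ where
  toFun R := ev R.1 s t s t
  map_add' R S := ev_add _ _ _ _ _ _
  map_smul' r R := ev_smul _ _ _ _ _ _

def p01 (s t : V4) : ℝ := s 0 * t 1 - s 1 * t 0

lemma det0 {R : T4} (h : R ∈ Curv) (h0 : ∀ s t, p01 s t ≠ 0 → ev R s t s t = 0) : R = 0 := by
  have q := ev_quad R
  have h1 : ∀ s t, ev R s t s t = 0 := fun s t => by
    let P : Polynomial ℝ := Polynomial.X ^ 2 +
      (Polynomial.C (s 0 + t 1) * Polynomial.X + Polynomial.C (p01 s t))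
    have hP : P ≠ 0 := (Polynomial.monic_X_pow_add (lt_of_le_of_lt Polynomial.degree_linear_le
      (by norm_num))).ne_zero
    have hd := (Polynomial.finite_setOf_isRoot hP).countable.dense_compl ℝ
    have := Continuous.ext_on hd (f := fun e : ℝ => ev R (s + e • (1 : M4) 0) (t + e • (1 : M4) 1)
      (s + e • (1 : M4) 0) (t + e • (1 : M4) 1)) (g := fun _ => 0) (by unfold ev; fun_prop)
      continuous_const fun e he => h0 _ _ fun h2 => he (by
        simp [p01, one_apply] at h2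
        simp [P, p01]
        linarith)
    simpa using congrFun this 0
  have h2 : ∀ a t c, ev R a t c t = 0 := fun a t c => by
    have := h1 (a + c) t
    simp only [q.a1, q.a3, h1] at this
    linarith [ev_PS h a t c t]
  have h3 : ∀ a b c d, ev R a b c d = ev R a d b c := fun a b c d => by
    have := h2 a (b + d) c
    simp only [q.a2, q.a4, h2] at this
    linarith [ev_PS h a d c b, ev_A1 h c b a d, ev_PS h b c a d]
  ext i j k l
  rw [← ev_one R i j k l]
  generalize (1 : M4) i = a, (1 : M4) j = b, (1 : M4) k = c, (1 : M4) l = d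
  have := ev_Bi h a b c d
  have := h3 a b c d
  have := h3 a d b c
  show _ = (0 : ℝ)
  linarith

lemma ext0 {R S : Curv} (h0 : ∀ s t, p01 s t ≠ 0 → ev R.1 s t s t = ev S.1 s t s t) : R = S := by
  rw [← sub_eq_zero]
  refine Subtype.ext (det0 (R - S).2 fun s t h => ?_)
  show evL s t (R - S) = 0
  rw [map_sub]; exact sub_eq_zero.2 (h0 s t h)

def d4 (a b c d : V4) : ℝ :=
  (a 0 * b 1 - a 1 * b 0) * (c 2 * d 3 - c 3 * d 2) - (a 0 * b 2 - a 2 * b 0) * (c 1 * d 3 - c 3 * d 1)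
  + (a 0 * b 3 - a 3 * b 0) * (c 1 * d 2 - c 2 * d 1)
  + (a 1 * b 2 - a 2 * b 1) * (c 0 * d 3 - c 3 * d 0)
  - (a 1 * b 3 - a 3 * b 1) * (c 0 * d 2 - c 2 * d 0)
  + (a 2 * b 3 - a 3 * b 2) * (c 0 * d 1 - c 1 * d 0)

lemma det4 (M : M4) : M.det = d4 (M 0) (M 1) (M 2) (M 3) := by
  simp [Matrix.det_succ_row_zero, Fin.sum_univ_succ, d4, Fin.succAbove]
  ring

lemma d4_quad : Quad d4 := by
  constructor <;> intros <;> simp only [d4, Pi.add_apply, Pi.smul_apply, smul_eq_mul] <;> ring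

noncomputable def cpl (s t : V4) (h : p01 s t ≠ 0) : SL4 :=
  ⟨Matrix.of ![s, t, ![0, 0, 1, 0], ![0, 0, 0, (p01 s t)⁻¹]], by
    rw [det4]
    simp [d4]
    exact mul_inv_cancel₀ h⟩

noncomputable def cplT (s t : V4) (h : p01 s t ≠ 0) : SL4 :=
  ⟨(cpl s t h).1ᵀ, by rw [det_transpose]; exact (cpl s t h).2⟩

def DD (a b : V4) : Curv :=
  ⟨fun i j k l => (a i * b j - a j * b i) * (a k * b l - a l * b k),
    fun _ _ _ _ => by ring, fun _ _ _ _ => by ring, fun _ _ _ _ => by ring⟩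

noncomputable def EE : Curv := DD ((1 : M4) 0) ((1 : M4) 1)

lemma ev_EE (a b c d : V4) : ev EE.1 a b c d = p01 a b * p01 c d := by
  simp [ev, EE, DD, Fin.sum_univ_four, one_apply, p01]
  ring

lemma act_EE (T : SL4) : act T EE = DD (T.1ᵀ 0) (T.1ᵀ 1) := by
  refine Subtype.ext ?_
  ext i j k l
  show ev EE.1 (T i) (T j) (T k) (T l) = _
  rw [ev_EE]
  simp only [p01, DD, transpose_apply]
  ring

lemma EE_ne : EE ≠ 0 := fun h => by
  have := congrArg (fun R : Curv => R.1 0 1 0 1) h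
  simp [EE, DD, one_apply] at this

noncomputable def dg (d : V4) (h : d 0 * d 1 * d 2 * d 3 = 1) : SL4 :=
  ⟨diagonal d, by rw [det_diagonal, Fin.prod_univ_four, h]⟩

lemma act_diag (T : SL4) (h : ∀ i j, i ≠ j → T i j = 0) (R : Curv) (i j k l : Fin 4) :
    (act T R).1 i j k l = T i i * T j j * T k k * T l l * R.1 i j k l := by
  have e : ∀ i, T i = T i i • (1 : M4) i := fun i => by
    ext j
    by_cases hij : i = j
    · subst hij; simp
    · simp [h i j hij, one_apply_ne hij]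
  show ev R.1 (T i) (T j) (T k) (T l) = _
  have q := ev_quad R.1
  rw [e i, e j, e k, e l, q.s1, q.s2, q.s3, q.s4, ev_one]
  simp
  ring

lemma ev_cov {R : T4} (h : R ∈ Curv) (s t : V4) (a b c d : ℝ) :
    ev R (a • s + b • t) (c • s + d • t) (a • s + b • t) (c • s + d • t) =
      (a * d - b * c) ^ 2 * ev R s t s t := by
  have q := ev_quad R
  have z1 : ∀ x u v, ev R x x u v = 0 := fun x u v => by linarith [ev_A1 h x x u v]
  have z2 : ∀ x u v, ev R u v x x = 0 := fun x u v => by rw [ev_PS h, z1]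
  have e1 := ev_A1 h t s s t
  have e2 := ev_A1 h t s t s
  have e3 : ev R s t t s = -ev R s t s t := by rw [ev_PS h, e1]
  simp only [q.a1, q.a2, q.a3, q.a4, q.s1, q.s2, q.s3, q.s4, z1, z2, e1, e2, e3]
  ring

lemma irred (U : Submodule ℝ Curv) (hU : ∀ T : SL4, ∀ w ∈ U, act T w ∈ U) : U = ⊥ ∨ U = ⊤ := by
  refine or_iff_not_imp_left.2 fun hb => ?_
  obtain ⟨R, hR, hR0⟩ := (Submodule.ne_bot_iff U).1 hb
  obtain ⟨s, t, hp, hs⟩ : ∃ s t, p01 s t ≠ 0 ∧ ev R.1 s t s t ≠ 0 := by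
    by_contra hn
    push Not at hn
    exact hR0 (Subtype.ext (det0 R.2 hn))
  have hR1 := hU (cpl s t hp) R hR
  have hs1 : (act (cpl s t hp) R).1 0 1 0 1 ≠ 0 := hs
  generalize act (cpl s t hp) R = S at hR1 hs1
  have hE : EE ∈ U := by
    let γ : Fin 4 → ℝ → ℝ := fun i x => ![1, 1, x ^ 2, x ^ 2] i
    let L : ℝ → Curv := fun x => if hx : x = 0 then S.1 0 1 0 1 • EE else
      x ^ 4 • act (dg ![x⁻¹, x⁻¹, x, x] (by simp; field_simp)) S
    have hL : ∀ x i j k l, (L x).1 i j k l = γ i x * γ j x * γ k x * γ l x * S.1 i j k l := by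
      intro x i j k l
      by_cases hx : x = 0
      · subst hx
        have a1 := S.2.1
        have a2 := S.2.2.1
        have b1 : S.1 1 0 0 1 = -S.1 0 1 0 1 := a1 _ _ _ _
        have b2 : S.1 0 1 1 0 = -S.1 0 1 0 1 := by rw [a2, b1]
        have b3 : S.1 1 0 1 0 = S.1 0 1 0 1 := by rw [a1, b2, neg_neg]
        have b4 : ∀ i k l, S.1 i i k l = 0 := fun i k l => by linarith [a1 i i k l]
        have b5 : ∀ i k l, S.1 k l i i = 0 := fun i k l => by rw [a2, b4]
        simp only [L, dif_pos, γ, EE, DD, SetLike.val_smul, Pi.smul_apply, smul_eq_mul]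
        fin_cases i <;> fin_cases j <;> fin_cases k <;> fin_cases l <;>
          simp [one_apply, b1, b2, b3, b4, b5]
      · simp only [L, dif_neg hx, SetLike.val_smul, Pi.smul_apply, smul_eq_mul]
        rw [act_diag _ (fun i j hij => diagonal_apply_ne _ hij)]
        have e : ∀ i, γ i x = x * (dg ![x⁻¹, x⁻¹, x, x] (by simp; field_simp)) i i := fun i => by
          show _ = x * diagonal ![x⁻¹, x⁻¹, x, x] i i
          fin_cases i <;> simp [γ, hx, sq]
        simp only [e]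
        ring
    have hγ : ∀ i, Continuous (γ i) := fun i => by fin_cases i <;> simp [γ] <;> fun_prop
    have hc : Continuous L := by
      refine continuous_induced_rng.2 (continuous_pi fun i => continuous_pi fun j =>
        continuous_pi fun k => continuous_pi fun l => ?_)
      simp only [Function.comp_apply, hL]
      fun_prop
    have h0 : L 0 ∈ U := by
      refine U.closed_of_finiteDimensional.mem_of_tendsto
        ((hc.tendsto 0).mono_left (nhdsWithin_le_nhds (s := {0}ᶜ))) ?_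
      filter_upwards [self_mem_nhdsWithin] with x hx
      simp only [L, dif_neg (show ¬ x = 0 from hx)]
      exact U.smul_mem _ (hU _ _ hR1)
    simp only [L, dif_pos] at h0
    exact (U.smul_mem_iff hs1).1 h0
  by_contra hn
  obtain ⟨f, hf0, hf⟩ := U.exists_dual_map_eq_bot_of_lt_top (lt_top_iff_ne_top.2 hn) inferInstance
  let B : Curv →ₗ[ℝ] Module.Dual ℝ Curv := LinearMap.mk₂ ℝ
    (fun R S => ∑ x : Fin 4 × Fin 4 × Fin 4 × Fin 4,
      R.1 x.1 x.2.1 x.2.2.1 x.2.2.2 * S.1 x.1 x.2.1 x.2.2.1 x.2.2.2)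
    (fun _ _ _ => by simp [add_mul, Finset.sum_add_distrib])
    (fun _ _ _ => by simp [Finset.mul_sum, mul_assoc])
    (fun _ _ _ => by simp [mul_add, Finset.sum_add_distrib])
    (fun _ _ _ => by simp [Finset.mul_sum, mul_left_comm])
  have hB : Function.Injective B := by
    rw [injective_iff_map_eq_zero]
    intro R h
    have h1 : ∑ x : Fin 4 × Fin 4 × Fin 4 × Fin 4,
      R.1 x.1 x.2.1 x.2.2.1 x.2.2.2 * R.1 x.1 x.2.1 x.2.2.1 x.2.2.2 = 0 := LinearMap.congr_fun h R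
    have := (Finset.sum_eq_zero_iff_of_nonneg fun x _ => mul_self_nonneg _).1 h1
    refine Subtype.ext ?_
    ext i j k l
    exact mul_self_eq_zero.1 (this (i, j, k, l) (Finset.mem_univ _))
  obtain ⟨R', rfl⟩ := (LinearMap.injective_iff_surjective_of_finrank_eq_finrank
    Subspace.dual_finrank_eq.symm).1 hB f
  apply hf0
  have : R' = 0 := Subtype.ext (det0 R'.2 fun a b hp => by
    have h1 : B R' (DD a b) = 0 := by
      have h2 := Submodule.mem_map_of_mem (f := B R') (hU (cplT a b hp) _ hE)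
      rw [hf, act_EE] at h2
      exact h2
    have h3 : B R' (DD a b) = ev R'.1 a b a b - ev R'.1 a b b a - ev R'.1 b a a b +
        ev R'.1 b a b a := by
      simp only [ev_prod, ← Finset.sum_sub_distrib, ← Finset.sum_add_distrib]
      show ∑ x : Fin 4 × Fin 4 × Fin 4 × Fin 4, R'.1 x.1 x.2.1 x.2.2.1 x.2.2.2 *
        (DD a b).1 x.1 x.2.1 x.2.2.1 x.2.2.2 = _
      exact Finset.sum_congr rfl fun x _ => by simp only [DD]; ring
    linarith [ev_A1 R'.2 b a a b, ev_A1 R'.2 b a b a, ev_PS R'.2 a b b a])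
  rw [this, map_zero]

lemma hw_zero {w : Curv}
    (h1 : ∀ T : SL4, ((∀ i j, j < i → T i j = 0) ∧ ∀ i, T i i = 1) → act T w = w)
    (h2 : w.1 0 1 0 1 = 0) : w = 0 := by
  refine Subtype.ext (det0 w.2 fun s t hp => ?_)
  let s' : V4 := ![1, 0, (s 2 * t 1 - s 1 * t 2) / p01 s t, (s 3 * t 1 - s 1 * t 3) / p01 s t]
  let t' : V4 := ![0, 1, (s 0 * t 2 - s 2 * t 0) / p01 s t, (s 0 * t 3 - s 3 * t 0) / p01 s t]
  have hp' : p01 s' t' = 1 := by simp [p01, s', t']
  have h3 := h1 (cpl s' t' (by rw [hp']; exact one_ne_zero)) ⟨fun i j hij => by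
      fin_cases i <;> fin_cases j <;> simp [cpl, s', t'] at hij ⊢,
    fun i => by fin_cases i <;> simp [cpl, s', t', hp']⟩
  have h4 : ev w.1 s' t' s' t' = 0 := by
    rw [← h2]; conv_rhs => rw [← h3]
    rfl
  have e1 : s = s 0 • s' + s 1 • t' := by
    ext i; fin_cases i <;> simp [s', t'] <;> field_simp <;> simp only [p01] <;> ring
  have e2 : t = t 0 • s' + t 1 • t' := by
    ext i; fin_cases i <;> simp [s', t'] <;> field_simp <;> simp only [p01] <;> ring
  rw [e1, e2, ev_cov w.2, h4, mul_zero]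

end Pool.Agent.H81.Cv
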