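import Pool.Agent.H81.Curv1

set_option autoImplicit false

namespace Pool.Agent.H81.Cv

open Set Matrix Filter Topology

noncomputable def Bq (D : M4) (a b c d : V4) : ℝ :=
  1 / 2 * ∑ k, ∑ l, d4 (a ᵥ* D) (b ᵥ* D) ((1 - D) k) ((1 - D) l) * d4 c d ((1 : M4) k) ((1 : M4) l)

lemma Bq_quad (D : M4) : Quad (Bq D) := by
  have q := d4_quad
  constructor <;> intros <;>
    simp only [Bq, add_vecMul, smul_vecMul, q.a1, q.a2, q.s1, q.s2, add_mul, mul_add,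
      Finset.sum_add_distrib, Finset.mul_sum] <;>
    refine Finset.sum_congr rfl fun i _ => Finset.sum_congr rfl fun j _ => by ring

lemma d4_A1 (a b c d : V4) : d4 a b c d = -d4 b a c d := by simp only [d4]; ring
lemma d4_A2 (a b c d : V4) : d4 a b c d = -d4 a b d c := by simp only [d4]; ring

lemma Bq_A1 (D : M4) (a b c d : V4) : Bq D a b c d = -Bq D b a c d := by
  simp only [Bq, d4_A1 (a ᵥ* D) (b ᵥ* D), neg_mul, Finset.sum_neg_distrib, mul_neg]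

lemma Bq_A2 (D : M4) (a b c d : V4) : Bq D a b c d = -Bq D a b d c := by
  simp only [Bq, d4_A1 c d, Finset.sum_neg_distrib, mul_neg]

noncomputable def Rq (D : M4) (a b c d : V4) : ℝ :=
  1 / 6 * (2 * Bq D a b c d + 2 * Bq D c d a b + Bq D c b a d + Bq D a d c b - Bq D d b a c -
    Bq D a c d b)

lemma Rq_quad (D : M4) : Quad (Rq D) := by
  have q := Bq_quad D
  constructor <;> intros <;>
    simp only [Rq, q.a1, q.a2, q.a3, q.a4, q.s1, q.s2, q.s3, q.s4] <;> ring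

lemma Rq_sym (D : M4) (a b c d : V4) : Rq D a b c d = -Rq D b a c d ∧
    Rq D a b c d = Rq D c d a b ∧ Rq D a b c d + Rq D a c d b + Rq D a d b c = 0 := by
  simp only [Rq]
  rw [Bq_A1 D b a c d, Bq_A2 D c d b a, Bq_A1 D c a b d, Bq_A1 D d a b c, Bq_A1 D c b a d,
    Bq_A1 D d b a c, Bq_A2 D b d c a, Bq_A2 D b c d a, Bq_A2 D a d c b, Bq_A2 D a c d b,
    Bq_A1 D d c a b, Bq_A2 D a b d c]
  refine ⟨?_, ?_, ?_⟩ <;> ring

noncomputable def Rc (D : M4) : Curv :=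
  ⟨fun i j k l => Rq D ((1 : M4) i) ((1 : M4) j) ((1 : M4) k) ((1 : M4) l),
    fun _ _ _ _ => (Rq_sym D _ _ _ _).1, fun _ _ _ _ => (Rq_sym D _ _ _ _).2.1,
    fun _ _ _ _ => (Rq_sym D _ _ _ _).2.2⟩

lemma ev_Rc (D : M4) (s t : V4) : ev (Rc D).1 s t s t = Bq D s t s t := by
  have := (Rq_quad D).ev_eq 1 s t s t
  simp only [vecMul_one] at this
  refine this.trans ?_
  have z : Bq D t t s s = 0 := by linarith [Bq_A1 D t t s s]
  have z' : Bq D s s t t = 0 := by linarith [Bq_A1 D s s t t]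
  simp only [Rq, z, z']
  ring

lemma Rc_cont : Continuous Rc := by
  refine Continuous.subtype_mk (continuous_pi fun i => continuous_pi fun j =>
    continuous_pi fun k => continuous_pi fun l => ?_) _
  simp only [Rq, Bq, d4, vecMul, dotProduct, Matrix.sub_apply]
  fun_prop

def PP : M4 := diagonal ![1, 1, 0, 0]
def QQ : M4 := diagonal ![0, 0, 1, 1]

def MM (S B D : M4) : M4 := PP * S * D + QQ * B * (1 - D)

lemma det_MM {S B : M4} (h : S * Bᵀ = 1) (hB : B.det = 1) (D : M4) :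
    (MM S B D).det = Bq D (S 0) (S 1) (S 0) (S 1) := by
  have q := d4_quad
  have r : ∀ i, MM S B D i = ![S 0 ᵥ* D, S 1 ᵥ* D, B 2 ᵥ* (1 - D), B 3 ᵥ* (1 - D)] i := by
    intro i
    ext j
    fin_cases i <;> simp [MM, PP, QQ, Matrix.mul_assoc] <;> rfl
  have j : ∀ k l, d4 (S 0) (S 1) ((1 : M4) k) ((1 : M4) l) = B 2 k * B 3 l - B 2 l * B 3 k := by
    intro k l
    have h1 := det_mul (Matrix.of ![S 0, S 1, (1 : M4) k, (1 : M4) l]) Bᵀ
    rw [det_transpose, hB, mul_one, det4, det4] at h1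
    have h2 : ∀ i j, ∑ m, S i m * B j m = (1 : M4) i j := fun i j => by
      rw [← h]; rfl
    simp [mul_apply, d4, h2, one_apply] at h1
    simp [d4, one_apply]
    linarith
  rw [det4, r, r, r, r]
  simp only [cons_val_zero, cons_val_one, cons_val, Bq, j]
  rw [lin (f := fun x => d4 _ _ x _) (fun x y => q.a3 _ _ x y _) (fun r x => q.s3 r _ _ x _)]
  simp_rw [fun u => lin (f := fun x => d4 (S 0 ᵥ* D) (S 1 ᵥ* D) u x) (fun x y => q.a4 _ _ _ x y)
      (fun r x => q.s4 r _ _ _ x) (B 3) (1 - D)]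
  have z : ∀ x, d4 (S 0 ᵥ* D) (S 1 ᵥ* D) x x = 0 := fun x => by
    linarith [d4_A2 (S 0 ᵥ* D) (S 1 ᵥ* D) x x]
  simp only [Fin.sum_univ_four, z, d4_A2 _ _ ((1 - D) 1) ((1 - D) 0),
    d4_A2 _ _ ((1 - D) 2) ((1 - D) 0), d4_A2 _ _ ((1 - D) 3) ((1 - D) 0),
    d4_A2 _ _ ((1 - D) 2) ((1 - D) 1), d4_A2 _ _ ((1 - D) 3) ((1 - D) 1),
    d4_A2 _ _ ((1 - D) 3) ((1 - D) 2)]
  ring

lemma pq_zero {x z : V4} (h : PP *ᵥ x + QQ *ᵥ z = 0) : x ⬝ᵥ z = 0 := by
  have h0 := congrFun h 0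
  have h1 := congrFun h 1
  have h2 := congrFun h 2
  have h3 := congrFun h 3
  simp [PP, QQ, mulVec_diagonal] at h0 h1 h2 h3
  simp [dotProduct, Fin.sum_univ_four, h0, h1, h2, h3]

lemma MM_mv (S B D : M4) (v : V4) :
    MM S B D *ᵥ v = PP *ᵥ (S *ᵥ (D *ᵥ v)) + QQ *ᵥ (B *ᵥ (v - D *ᵥ v)) := by
  simp only [MM, add_mulVec, ← mulVec_mulVec, sub_mulVec, one_mulVec]

lemma dot_SB {S B : M4} (h : S * Bᵀ = 1) (x z : V4) : (S *ᵥ x) ⬝ᵥ (B *ᵥ z) = x ⬝ᵥ z := by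
  rw [dotProduct_mulVec, ← mulVec_transpose, mulVec_mulVec, mul_eq_one_comm.1 h, one_mulVec]

lemma det_nonneg {S B : M4} (h : S * Bᵀ = 1) (hB : B.det = 1) {D : M4}
    (hD : ∀ v, 0 ≤ (D *ᵥ v) ⬝ᵥ (v - D *ᵥ v)) : 0 ≤ (MM S B D).det := by
  by_contra hn
  let f : ℝ → ℝ := fun t => (MM S B ((1 - t) • D + (t / 2) • 1)).det
  have hc : Continuous f := by
    refine Continuous.matrix_det ?_
    unfold MM
    fun_prop
  have h0 : f 0 < 0 := by simpa [f] using hn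
  have h1 : 0 ≤ f 1 := by
    have q := d4_quad
    have e : (1 : M4) - (1 / 2 : ℝ) • (1 : M4) = (1 / 2 : ℝ) • (1 : M4) := by module
    have e2 : ∀ k, ((1 / 2 : ℝ) • (1 : M4)) k = (1 / 2 : ℝ) • (1 : M4) k := fun _ => rfl
    simp only [f, det_MM h hB, sub_self, zero_smul, zero_add, Bq, e, vecMul_smul, vecMul_one, e2,
      q.s1, q.s2, q.s3, q.s4, mul_assoc]
    refine mul_nonneg (by norm_num) (Finset.sum_nonneg fun k _ => Finset.sum_nonneg fun l _ => ?_)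
    have := mul_self_nonneg (d4 (S 0) (S 1) ((1 : M4) k) ((1 : M4) l))
    positivity
  obtain ⟨t, ht, e⟩ := intermediate_value_Icc zero_le_one hc.continuousOn ⟨h0.le, h1⟩
  have ht0 : 0 < t := lt_of_le_of_ne ht.1 (fun h => by rw [← h] at e; linarith)
  obtain ⟨v, hv, hv0⟩ := Matrix.exists_mulVec_eq_zero_iff.2 e
  rw [MM_mv] at hv0
  have h2 := pq_zero hv0
  rw [dot_SB h] at h2
  have h3 := hD v
  have h4 : 0 < v ⬝ᵥ v := lt_of_le_of_ne (Finset.sum_nonneg fun i _ => mul_self_nonneg _)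
    (fun h => hv (dotProduct_self_eq_zero.1 h.symm))
  have h5 : 0 ≤ (v - (2 : ℝ) • D *ᵥ v) ⬝ᵥ (v - (2 : ℝ) • D *ᵥ v) :=
    Finset.sum_nonneg fun i _ => mul_self_nonneg _
  simp only [add_mulVec, smul_mulVec, one_mulVec, add_dotProduct, dotProduct_add, dotProduct_sub,
    sub_dotProduct, smul_dotProduct, dotProduct_smul, smul_eq_mul, dotProduct_comm v (D *ᵥ v)]
    at h2 h3 h5
  have h6 := mul_nonneg (sub_nonneg.2 ht.2) h3
  have h7 := mul_nonneg (mul_nonneg ht.1 (sub_nonneg.2 ht.2)) h5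
  have h8 := mul_pos ht0 h4
  nlinarith

end Pool.Agent.H81.Cv
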