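import Pool.Agent.H81.Mink2

set_option autoImplicit false

namespace Pool.Agent.H81.Mink

open Set MeasureTheory Filter Topology Matrix
open scoped Pointwise

variable {n : ℕ}

section meas
variable {α : Type*} [MeasurableSpace α]

lemma inf_restrict (μ ν : Measure α) {A : Set α} (hA : MeasurableSet A) :
    (μ ⊓ ν).restrict A = μ.restrict A ⊓ ν.restrict A := by
  apply le_antisymm
  · exact le_inf (Measure.restrict_mono Subset.rfl inf_le_left)
      (Measure.restrict_mono Subset.rfl inf_le_right)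
  · have h0 : (μ.restrict A ⊓ ν.restrict A).restrict A = μ.restrict A ⊓ ν.restrict A := by
      apply Measure.restrict_eq_self_of_ae_mem
      exact ae_mono inf_le_left (ae_restrict_mem hA)
    rw [← h0]
    exact Measure.restrict_mono Subset.rfl (le_inf (inf_le_left.trans Measure.restrict_le_self)
      (inf_le_right.trans Measure.restrict_le_self))

lemma inf_map (μ ν : Measure α) {e e' : α → α} (he : Measurable e) (he' : Measurable e')
    (h : ∀ x, e (e' x) = x) (h' : ∀ x, e' (e x) = x) :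
    μ.map e ⊓ ν.map e = (μ ⊓ ν).map e := by
  apply le_antisymm
  · have h1 : ∀ τ : Measure α, (τ.map e').map e = τ := fun τ => by
      rw [Measure.map_map he he', show e ∘ e' = id from funext h, Measure.map_id]
    have h2 : ∀ τ : Measure α, (τ.map e).map e' = τ := fun τ => by
      rw [Measure.map_map he' he, show e' ∘ e = id from funext h', Measure.map_id]
    rw [← h1 (μ.map e ⊓ ν.map e)]
    refine Measure.map_mono (le_inf ?_ ?_) he
    · exact (Measure.map_mono inf_le_left he').trans (h2 μ).le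
    · exact (Measure.map_mono inf_le_right he').trans (h2 ν).le
  · exact le_inf (Measure.map_mono inf_le_left he) (Measure.map_mono inf_le_right he)

lemma inf_hahn (μ ν : Measure α) [IsFiniteMeasure μ] [IsFiniteMeasure ν] :
    ∃ S, MeasurableSet S ∧ μ.restrict S + ν.restrict Sᶜ ≤ μ ⊓ ν := by
  obtain ⟨S, hS, h1, h2⟩ := hahn_decomposition ν μ
  refine ⟨S, hS, le_inf (Measure.le_iff.2 fun t ht => ?_) (Measure.le_iff.2 fun t ht => ?_)⟩
  · rw [Measure.add_apply, Measure.restrict_apply ht, Measure.restrict_apply ht,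
      ← measure_inter_add_diff (μ := μ) t hS]
    exact add_le_add le_rfl (h2 _ (ht.inter hS.compl) inter_subset_right)
  · rw [Measure.add_apply, Measure.restrict_apply ht, Measure.restrict_apply ht,
      ← measure_inter_add_diff (μ := ν) t hS]
    exact add_le_add (h1 _ (ht.inter hS) inter_subset_right) le_rfl

lemma spl {r : Measure α} {N S : Set α} (h : r Nᶜ = 0) (hS : MeasurableSet S) (A : Set α) :
    r A = r (A ∩ (N ∩ S)) + r (A ∩ (N \ S)) := by
  rw [← measure_inter_conull (s := A) h, ← measure_inter_add_diff (μ := r) (A ∩ N) hS,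
    inter_assoc, inter_diff_assoc]

lemma loc {r r' : Measure α} {N T : Set α} (h : r.restrict N = r'.restrict N)
    (hT : T ⊆ N) : r T = r' T := by
  rw [← Measure.restrict_eq_self r hT, h, Measure.restrict_eq_self r' hT]

lemma val_meas {r1 r2 r3 r4 : Measure α} {N1 N2 N3 N4 : Set α} (m1 : MeasurableSet N1)
    (m2 : MeasurableSet N2) (m3 : MeasurableSet N3) (m4 : MeasurableSet N4) (z1 : r1 N1ᶜ = 0)
    (z2 : r2 N2ᶜ = 0) (z3 : r3 N3ᶜ = 0) (z4 : r4 N4ᶜ = 0)
    (l31 : r3.restrict (N3 ∩ N1) = r1.restrict (N3 ∩ N1))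
    (l32 : r3.restrict (N3 ∩ N2) = r2.restrict (N3 ∩ N2))
    (l41 : r4.restrict (N4 ∩ N1) = r1.restrict (N4 ∩ N1))
    (l42 : r4.restrict (N4 ∩ N2) = r2.restrict (N4 ∩ N2))
    (hi : ∀ p, p ∈ N1 ∧ p ∈ N2 ↔ p ∈ N3 ∧ p ∈ N4) (hu : ∀ p, p ∈ N1 ∨ p ∈ N2 ↔ p ∈ N3 ∨ p ∈ N4) :
    r3 + r4 = r1 + r2 := by
  ext A hA
  have e1 : N1 \ N3 = N4 \ N2 := by
    ext p; have := hi p; have := hu p; simp only [mem_diff]; tauto
  have e2 : N2 \ N4 = N3 \ N1 := by
    ext p; have := hi p; have := hu p; simp only [mem_diff]; tauto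
  rw [Measure.add_apply, Measure.add_apply, spl z3 m1 A, spl z4 m2 A, spl z1 m3 A, spl z2 m4 A,
    e1, e2, inter_comm N1 N3, inter_comm N2 N4, loc l31 inter_subset_right,
    loc l42 inter_subset_right,
    loc (T := A ∩ (N3 \ N1)) l32 (fun p hp => ⟨hp.2.1, (e2.symm ▸ hp.2 : p ∈ N2 \ N4).1⟩),
    loc (T := A ∩ (N4 \ N2)) l41 (fun p hp => ⟨hp.2.1, (e1.symm ▸ hp.2 : p ∈ N1 \ N3).1⟩)]
  ring

end meas

noncomputable def mu (C : Set (V n)) : Measure (V n × V n) := (mm (pol C)).map Prod.swap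

noncomputable def rho (C : Set (V n)) : Measure (V n × V n) := mm C ⊓ mu C

lemma swap_N {C : Set (V n)} (h : Body C) : Prod.swap ⁻¹' N C = N (pol C) := by
  ext p
  simp only [N, mem_preimage, mem_setOf_eq, Prod.fst_swap, Prod.snd_swap, pol_pol h,
    dotProduct_comm p.2]
  tauto

lemma mu_fin {C : Set (V n)} (h : Body C) : IsFiniteMeasure (mu C) := by
  have := mm_fin h.pol
  unfold mu; infer_instance

lemma mu_N [NeZero n] {C : Set (V n)} (h : Body C) : mu C (N C)ᶜ = 0 := by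
  rw [mu, Measure.map_apply measurable_swap (N_meas h).compl, preimage_compl, swap_N h]
  exact mm_N h.pol

lemma rho_N [NeZero n] {C : Set (V n)} (h : Body C) : rho C (N C)ᶜ = 0 :=
  le_antisymm ((Measure.le_iff'.1 (inf_le_left : rho C ≤ mm C) _).trans (mm_N h).le) zero_le

lemma rho_loc [NeZero n] {C D : Set (V n)} (hC : Body C) (hD : Body D) :
    (rho C).restrict (N C ∩ N D) = (rho D).restrict (N C ∩ N D) := by
  have hm := (N_meas hC).inter (N_meas hD)
  rw [rho, rho, inf_restrict _ _ hm, inf_restrict _ _ hm, mm_loc hC hD, mu, mu,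
    Measure.restrict_map measurable_swap hm, Measure.restrict_map measurable_swap hm,
    preimage_inter, swap_N hC, swap_N hD, mm_loc hC.pol hD.pol]

lemma rho_img [NeZero n] {C : Set (V n)} (h : Body C) {A B : Matrix (Fin n) (Fin n) ℝ}
    (hAB : Aᵀ * B = 1) (hA : A.det = 1) (hB : B.det = 1) :
    rho (A.mulVec '' C) = (rho C).map (Prod.map A.mulVec B.mulVec) := by
  have h1 : B * Aᵀ = 1 := mul_eq_one_comm.1 hAB
  have h2 : Bᵀ * A = 1 := by simpa using congrArg transpose hAB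
  have h3 : A * Bᵀ = 1 := mul_eq_one_comm.1 h2
  have ht : ∀ A B : Matrix (Fin n) (Fin n) ℝ, Measurable (Prod.map A.mulVec B.mulVec) :=
    fun A B => (cont_mv A).measurable.prodMap (cont_mv B).measurable
  rw [rho, rho, mm_img h hAB hB, mu, mu, pol_img hAB, mm_img h.pol h2 hA,
    Measure.map_map measurable_swap (ht _ _), ← inf_map _ _ (ht A B) (ht Bᵀ Aᵀ)
      (fun x => by simp [Prod.map, Matrix.mulVec_mulVec, h1, h3])
      (fun x => by simp [Prod.map, Matrix.mulVec_mulVec, h2, hAB]),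
    Measure.map_map (ht _ _) measurable_swap]
  rfl

lemma seg {K L : Set (V n)} (hK : Body K) (hL : Body L) (h : Convex ℝ (K ∪ L)) {x y u : V n}
    (hx : x ∈ K) (hy : y ∈ L) :
    ∃ z ∈ K ∩ L, ∃ a b : ℝ, 0 ≤ a ∧ 0 ≤ b ∧ a + b = 1 ∧ z = a • x + b • y ∧
      z ⬝ᵥ u = a * (x ⬝ᵥ u) + b * (y ⬝ᵥ u) := by
  obtain ⟨z, ⟨a, b, ha, hb, hab, rfl⟩, hz⟩ :=
    isPreconnected_closed_iff.1 (convex_segment x y).isPreconnected K L hK.cpt.isClosed
      hL.cpt.isClosed (h.segment_subset (Or.inl hx) (Or.inr hy))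
      ⟨x, left_mem_segment _ _ _, hx⟩ ⟨y, right_mem_segment _ _ _, hy⟩
  exact ⟨_, hz, a, b, ha, hb, hab, rfl, by simp⟩

lemma N_or {K L : Set (V n)} (hK : Body K) (hL : Body L) (h : Convex ℝ (K ∪ L))
    {p : V n × V n} (hp : p ∈ N K) : p ∈ N (K ∪ L) ∨ p ∈ N (K ∩ L) := by
  obtain ⟨h1, h2, h3⟩ := hp
  by_cases hu : p.2 ∈ pol L
  · exact Or.inl ⟨Or.inl h1, fun x hx => hx.elim (h2 x) (hu x), h3⟩
  · refine Or.inr ⟨⟨h1, ?_⟩, fun x hx => h2 x hx.1, h3⟩
    obtain ⟨y, hy⟩ := not_forall.1 hu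
    obtain ⟨hy, hy2⟩ := Classical.not_imp.1 hy
    obtain ⟨z, hz, a, b, ha, hb, hab, e, e2⟩ := seg (u := p.2) hK hL h h1 hy
    have := h2 z hz.1
    have hb0 : b = 0 := by rw [e2, h3] at this; nlinarith [not_le.1 hy2]
    have ha1 : a = 1 := by linarith
    have := hz.2
    rwa [e, hb0, ha1, one_smul, zero_smul, add_zero] at this

lemma Body.union {K L : Set (V n)} (hK : Body K) (hL : Body L) (h : Convex ℝ (K ∪ L)) :
    Body (K ∪ L) := ⟨hK.cpt.union hL.cpt, h, interior_mono subset_union_left hK.int⟩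

lemma Body.inter {K L : Set (V n)} (hK : Body K) (hL : Body L) : Body (K ∩ L) :=
  ⟨hK.cpt.inter_right hL.cpt.isClosed, hK.cvx.inter hL.cvx, by
    rw [interior_inter]; exact ⟨hK.int, hL.int⟩⟩

lemma rho_val [NeZero n] {K L : Set (V n)} (hK : Body K) (hL : Body L) (h : Convex ℝ (K ∪ L)) :
    rho (K ∪ L) + rho (K ∩ L) = rho K + rho L := by
  have hU := hK.union hL h
  have hI := hK.inter hL
  refine val_meas (N_meas hK) (N_meas hL) (N_meas hU) (N_meas hI) (rho_N hK) (rho_N hL)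
    (rho_N hU) (rho_N hI) (rho_loc hU hK) (rho_loc hU hL) (rho_loc hI hK) (rho_loc hI hL)
    (fun p => ⟨?_, ?_⟩) (fun p => ⟨?_, ?_⟩)
  · rintro ⟨⟨a1, a2, a3⟩, b1, b2, -⟩
    exact ⟨⟨Or.inl a1, fun x hx => hx.elim (a2 x) (b2 x), a3⟩, ⟨a1, b1⟩, fun x hx => a2 x hx.1, a3⟩
  · rintro ⟨⟨-, a2, a3⟩, b1, -, -⟩
    exact ⟨⟨b1.1, fun x hx => a2 x (Or.inl hx), a3⟩, b1.2, fun x hx => a2 x (Or.inr hx), a3⟩
  · rintro (a | a)
    · exact N_or hK hL h a
    · have := N_or hL hK (by rwa [union_comm]) a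
      rwa [union_comm, inter_comm] at this
  · rintro (⟨a1, a2, a3⟩ | ⟨a1, a2, a3⟩)
    · exact a1.imp (fun b => ⟨b, fun x hx => a2 x (Or.inl hx), a3⟩)
        (fun b => ⟨b, fun x hx => a2 x (Or.inr hx), a3⟩)
    · by_contra hn
      rw [not_or] at hn
      have k1 : ¬ p.2 ∈ pol K := fun k => hn.1 ⟨a1.1, k, a3⟩
      have k2 : ¬ p.2 ∈ pol L := fun k => hn.2 ⟨a1.2, k, a3⟩
      obtain ⟨x, hx⟩ := not_forall.1 k1
      obtain ⟨hx, hx2⟩ := Classical.not_imp.1 hx
      obtain ⟨y, hy⟩ := not_forall.1 k2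
      obtain ⟨hy, hy2⟩ := Classical.not_imp.1 hy
      obtain ⟨z, hz, a, b, ha, hb, hab, -, e2⟩ := seg (u := p.2) hK hL h hx hy
      have := a2 z hz
      rw [e2] at this
      have q1 := not_le.1 hx2
      have q2 := not_le.1 hy2
      rcases ha.lt_or_eq with ha | ha
      · nlinarith
      · rw [← ha] at this hab; nlinarith

variable {W : Type*} [NormedAddCommGroup W] [NormedSpace ℝ W]

lemma int_of {τ : Measure (V n × V n)} [IsFiniteMeasure τ] {K : Set (V n × V n)}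
    (hK : IsCompact K) (h0 : τ Kᶜ = 0) {φ : V n × V n → W} (hφ : Continuous φ) :
    Integrable φ τ := by
  obtain ⟨M, hM⟩ := hK.exists_bound_of_continuousOn hφ.continuousOn
  refine Integrable.of_bound hφ.aestronglyMeasurable M ?_
  filter_upwards [mem_ae_iff.2 h0] with p hp using hM p hp

lemma mm_int [NeZero n] {C : Set (V n)} (h : Body C) {φ : V n × V n → W} (hφ : Continuous φ) :
    Integrable φ (mm C) := by
  have := mm_fin h; exact int_of (N_cpt h) (mm_N h) hφ

lemma mu_int [NeZero n] {C : Set (V n)} (h : Body C) {φ : V n × V n → W} (hφ : Continuous φ) :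
    Integrable φ (mu C) := by
  have := mu_fin h; exact int_of (N_cpt h) (mu_N h) hφ

lemma rho_int [NeZero n] {C : Set (V n)} (h : Body C) {φ : V n × V n → W} (hφ : Continuous φ) :
    Integrable φ (rho C) := (mm_int h hφ).mono_measure inf_le_left

lemma pp_mono {α : Type*} [MeasurableSpace α] {τ τ' : Measure α} (h : τ ≤ τ') {φ : α → W}
    (hi : Integrable φ τ') (ξ : W →L[ℝ] ℝ) : PP τ φ ξ ≤ PP τ' φ ξ :=
  integral_mono_measure h (Eventually.of_forall fun _ => le_max_right _ _) (pp_int hi ξ)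

lemma pp_add {α : Type*} [MeasurableSpace α] {τ τ' : Measure α} {φ : α → W}
    (hi : Integrable φ τ) (hi' : Integrable φ τ') (ξ : W →L[ℝ] ℝ) :
    PP (τ + τ') φ ξ = PP τ φ ξ + PP τ' φ ξ :=
  integral_add_measure (pp_int hi ξ) (pp_int hi' ξ)

lemma pp_ind {α : Type*} [MeasurableSpace α] (τ : Measure α) {S : Set α} (hS : MeasurableSet S)
    (φ : α → W) (ξ : W →L[ℝ] ℝ) : PP (τ.restrict S) φ ξ = PP τ (S.indicator φ) ξ := by
  rw [PP, PP, ← integral_indicator hS]
  congr 1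
  ext z
  by_cases hz : z ∈ S <;> simp [hz]

lemma pp_mu {C : Set (V n)} {φ : V n × V n → W} (hφ : Continuous φ)
    (ξ : W →L[ℝ] ℝ) : PP (mu C) φ ξ = PP (mm (pol C)) (φ ∘ Prod.swap) ξ := by
  rw [PP, PP, mu, integral_map measurable_swap.aemeasurable
    (Continuous.aestronglyMeasurable (by fun_prop))]
  rfl

lemma rho_usc [NeZero n] [FiniteDimensional ℝ W] {Cs : ℕ → Set (V n)} {C : Set (V n)}
    (h : Conv Cs C)
    (hs : ∀ j, Body (Cs j)) (hC : Body C) {w : V n × V n → W} (hw : Continuous w) {ε : ℝ}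
    (hε : 0 < ε) : ∀ᶠ j in atTop, ∀ ξ, PP (rho (Cs j)) w ξ ≤ PP (rho C) w ξ + ‖ξ‖ * ε := by
  have := mm_fin hC
  have := mu_fin hC
  obtain ⟨S, hS, hle⟩ := inf_hahn (mm C) (mu C)
  have i1 := (mm_int hC hw).indicator hS
  have i2 := (mu_int hC hw).indicator hS
  obtain ⟨g, hg, -⟩ := (i1.add_measure i2).exists_boundedContinuous_integral_sub_le
    (show 0 < ε / 3 by positivity)
  have gc : Continuous g := g.continuous
  have wc : Continuous fun p => w p - g p := hw.sub gc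
  rw [integral_add_measure (f := fun x => ‖S.indicator w x - g x‖) (i1.sub (mm_int hC gc)).norm
    (i2.sub (mu_int hC gc)).norm] at hg
  filter_upwards [mm_usc h hs hC gc (show 0 < ε / 3 by positivity),
    mm_usc h.pol (fun j => (hs j).pol) hC.pol (wc.comp continuous_swap)
      (show 0 < ε / 3 by positivity)] with j h1 h2 ξ
  have a1 := h1 ξ
  have a2 := h2 ξ
  rw [← pp_mu wc, ← pp_mu wc] at a2
  have a3 : PP (rho (Cs j)) w ξ ≤
      PP (rho (Cs j)) g ξ + PP (rho (Cs j)) (fun p => w p - g p) ξ := by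
    rw [PP, PP, PP, ← integral_add (pp_int (rho_int (hs j) gc) ξ) (pp_int (rho_int (hs j) wc) ξ)]
    refine integral_mono (pp_int (rho_int (hs j) hw) ξ)
      ((pp_int (rho_int (hs j) gc) ξ).add (pp_int (rho_int (hs j) wc) ξ)) fun p => ?_
    have h4 := le_max_left (ξ (g p)) 0
    have h5 := le_max_right (ξ (g p)) 0
    have h6 := le_max_left (ξ (w p - g p)) 0
    have h7 := le_max_right (ξ (w p - g p)) 0
    have h8 : ξ (w p - g p) = ξ (w p) - ξ (g p) := map_sub _ _ _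
    exact max_le (by linarith) (by linarith)
  have a4 := pp_mono (inf_le_left : rho (Cs j) ≤ _) (mm_int (hs j) gc) ξ
  have a5 := pp_mono (inf_le_right : rho (Cs j) ≤ _) (mu_int (hs j) wc) ξ
  have a6 := pp_lip (mm_int hC gc) i1 ξ
  have a7 := pp_lip (mu_int hC wc) ((mu_int hC hw).indicator hS.compl) ξ
  have a8 := pp_mono hle (rho_int hC hw) ξ
  rw [pp_add (mm_int hC hw).restrict (mu_int hC hw).restrict, pp_ind _ hS, pp_ind _ hS.compl] at a8
  have e1 : ∫ p, ‖g p - S.indicator w p‖ ∂mm C = ∫ p, ‖S.indicator w p - g p‖ ∂mm C := by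
    simp only [norm_sub_rev]
  have e2 : ∫ p, ‖w p - g p - Sᶜ.indicator w p‖ ∂mu C = ∫ p, ‖S.indicator w p - g p‖ ∂mu C := by
    congr 1
    ext p
    by_cases hp : p ∈ S <;> simp [hp]
  rw [e1] at a6
  rw [e2] at a7
  have a9 := mul_le_mul_of_nonneg_left hg (norm_nonneg ξ)
  have : rho C = mm C ⊓ mu C := rfl
  rw [← this] at a8
  have : rho (Cs j) = mm (Cs j) ⊓ mu (Cs j) := rfl
  rw [← this] at a4 a5
  linarith

end Pool.Agent.H81.Mink
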