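import Pool.Agent.H81.Curv2
import Pool.Agent.H81.Mink3

set_option autoImplicit false

namespace Pool.Agent.H81.Cv

open Set Matrix Filter Topology MeasureTheory Pool.Agent.H81.Mink

def Gm (K : Set V4) : Set (V4 × V4) := {p | p.1 ∈ K ∧ ∀ y ∈ K, y ⬝ᵥ p.2 ≤ p.1 ⬝ᵥ p.2}

lemma dnn (x : V4) : 0 ≤ x ⬝ᵥ x := Finset.sum_nonneg fun _ _ => mul_self_nonneg _

lemma ex_proj {K : Set V4} (h : Cpt K) (w : V4) : ∃ x, (x, w - x) ∈ Gm K := by
  obtain ⟨x, hx, hm⟩ := h.cpt.exists_isMinOn h.ne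
    (show Continuous fun y : V4 => (w - y) ⬝ᵥ (w - y) by fun_prop).continuousOn
  refine ⟨x, hx, fun y hy => ?_⟩
  have k : ∀ t : ℝ, 0 < t → t ≤ 1 → (y - x) ⬝ᵥ (w - x) ≤ t * ((y - x) ⬝ᵥ (y - x)) := by
    intro t h0 h1
    have := hm (h.cvx.add_smul_sub_mem hx hy ⟨h0.le, h1⟩)
    have e : w - (x + t • (y - x)) = (w - x) - t • (y - x) := by abel
    simp only [mem_setOf_eq, e] at this
    generalize w - x = a, y - x = b at this ⊢
    simp only [sub_dotProduct, dotProduct_sub, smul_dotProduct, dotProduct_smul, smul_eq_mul,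
      dotProduct_comm a b] at this
    have h2 := mul_nonneg h0.le (mul_nonneg h0.le (dnn b))
    exact le_of_mul_le_mul_left (by nlinarith) h0
  have : (y - x) ⬝ᵥ (w - x) ≤ 0 := by
    have ht : Tendsto (fun t : ℝ => t * ((y - x) ⬝ᵥ (y - x))) (𝓝[>] 0)
        (𝓝 (0 * ((y - x) ⬝ᵥ (y - x)))) :=
      ((continuous_id.mul continuous_const).tendsto 0).mono_left nhdsWithin_le_nhds
    rw [zero_mul] at ht
    refine ge_of_tendsto ht ?_
    filter_upwards [Ioc_mem_nhdsGT zero_lt_one] with t h using k t h.1 h.2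
  rw [sub_dotProduct] at this
  exact sub_nonpos.1 this

noncomputable def X (K : Set V4) (w : V4) : V4 := Classical.epsilon fun x => (x, w - x) ∈ Gm K

lemma X_mem {K : Set V4} (h : Cpt K) (w : V4) : (X K w, w - X K w) ∈ Gm K :=
  Classical.epsilon_spec (ex_proj h w)

lemma Gm_mono {K : Set V4} {p q : V4 × V4} (hp : p ∈ Gm K) (hq : q ∈ Gm K) :
    0 ≤ (p.1 - q.1) ⬝ᵥ (p.2 - q.2) := by
  have := hp.2 _ hq.1
  have := hq.2 _ hp.1
  simp only [sub_dotProduct, dotProduct_sub]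
  linarith

lemma X_eq {K : Set V4} (h : Cpt K) {p : V4 × V4} (hp : p ∈ Gm K) : X K (p.1 + p.2) = p.1 := by
  have := Gm_mono (X_mem h (p.1 + p.2)) hp
  simp only at this
  rw [show p.1 + p.2 - X K (p.1 + p.2) - p.2 = -(X K (p.1 + p.2) - p.1) by abel,
    dotProduct_neg] at this
  exact sub_eq_zero.1 (dotProduct_self_eq_zero.1 (le_antisymm (by linarith) (dnn _)))

lemma X_mono {K : Set V4} (h : Cpt K) (w w' : V4) :
    0 ≤ (X K w - X K w') ⬝ᵥ ((w - w') - (X K w - X K w')) := by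
  have := Gm_mono (X_mem h w) (X_mem h w')
  rwa [show w - X K w - (w' - X K w') = (w - w') - (X K w - X K w') by abel] at this

lemma nsq (x : V4) : ‖x‖ * ‖x‖ ≤ x ⬝ᵥ x := by
  have : ‖x‖ ≤ √(x ⬝ᵥ x) := (pi_norm_le_iff_of_nonneg (Real.sqrt_nonneg _)).2 fun i => by
    rw [Real.norm_eq_abs]
    apply Real.abs_le_sqrt
    rw [sq]
    exact Finset.single_le_sum (f := fun i => x i * x i) (fun i _ => mul_self_nonneg _)
      (Finset.mem_univ i)
  calc ‖x‖ * ‖x‖ ≤ √(x ⬝ᵥ x) * √(x ⬝ᵥ x) := by gcongr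
    _ = _ := Real.mul_self_sqrt (dnn x)

lemma X_lip {K : Set V4} (h : Cpt K) : LipschitzWith 4 (X K) := by
  refine LipschitzWith.of_dist_le_mul fun w w' => ?_
  rw [dist_eq_norm, dist_eq_norm]
  have h1 := X_mono h w w'
  generalize X K w - X K w' = a, w - w' = b at h1 ⊢
  rw [dotProduct_sub] at h1
  have h2 := dot_le a b
  have h3 := l1_le b
  have h4 := nsq a
  have h5 := mul_le_mul_of_nonneg_left h3 (norm_nonneg a)
  rcases (norm_nonneg a).eq_or_lt with h0 | h0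
  · rw [← h0]; positivity
  · refine le_of_mul_le_mul_left ?_ h0
    push_cast at h5 ⊢
    linarith

noncomputable def DX (K : Set V4) (w : V4) : M4 := LinearMap.toMatrix' (fderiv ℝ (X K) w : V4 →ₗ[ℝ] V4)

lemma DX_mv (K : Set V4) (w v : V4) : DX K w *ᵥ v = fderiv ℝ (X K) w v := by
  rw [DX, LinearMap.toMatrix'_mulVec]; rfl

lemma DX_slope {K : Set V4} {w : V4} (hd : DifferentiableAt ℝ (X K) w) (v : V4) :
    Tendsto (fun t : ℝ => t⁻¹ • (X K (w + t • v) - X K w)) (𝓝[>] 0) (𝓝 (DX K w *ᵥ v)) := by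
  rw [DX_mv]
  exact (hd.hasFDerivAt.hasLineDerivAt v).tendsto_slope_zero_right

lemma DX_mono {K : Set V4} (h : Cpt K) (w v : V4) : 0 ≤ (DX K w *ᵥ v) ⬝ᵥ (v - DX K w *ᵥ v) := by
  by_cases hd : DifferentiableAt ℝ (X K) w
  · have hc : Continuous fun a : V4 => a ⬝ᵥ (v - a) := by fun_prop
    refine ge_of_tendsto ((hc.tendsto _).comp (DX_slope hd v)) ?_
    filter_upwards [self_mem_nhdsWithin] with t ht
    have ht : 0 < t := ht
    have := X_mono h (w + t • v) w
    rw [add_sub_cancel_left] at this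
    simp only [Function.comp_apply]
    generalize X K (w + t • v) - X K w = a at this ⊢
    have e : v - t⁻¹ • a = t⁻¹ • (t • v - a) := by
      rw [smul_sub, smul_smul, inv_mul_cancel₀ ht.ne', one_smul]
    rw [e, smul_dotProduct, dotProduct_smul, smul_eq_mul, smul_eq_mul]
    positivity
  · simp [DX_mv, fderiv_zero_of_not_differentiableAt hd]

def pr (p : V4 × V4) : V4 := PP *ᵥ p.1 + QQ *ᵥ p.2

lemma pr_cont : Continuous pr :=
  ((cont_mv PP).comp continuous_fst).add ((cont_mv QQ).comp continuous_snd)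

noncomputable def G (S B : M4) (K : Set V4) (w : V4) : V4 := pr (S *ᵥ X K w, B *ᵥ (w - X K w))

noncomputable def cl (M : M4) : V4 →L[ℝ] V4 := LinearMap.toContinuousLinearMap (toLin' M)

lemma cl_ap (M : M4) (v : V4) : cl M v = M *ᵥ v := rfl

lemma cl_det (M : M4) : (cl M).det = M.det := LinearMap.det_toLin' M

lemma G_der (S B : M4) {K : Set V4} {w : V4} (hd : DifferentiableAt ℝ (X K) w) :
    HasFDerivAt (G S B K) (cl (MM S B (DX K w))) w := by
  have h1 := ((cl PP).hasFDerivAt.comp w ((cl S).hasFDerivAt.comp w hd.hasFDerivAt)).add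
    ((cl QQ).hasFDerivAt.comp w ((cl B).hasFDerivAt.comp w
      ((hasFDerivAt_id w).sub hd.hasFDerivAt)))
  refine h1.congr_fderiv (ContinuousLinearMap.ext fun v => ?_)
  rw [cl_ap, MM_mv, DX_mv]
  rfl

lemma G_lip (S B : M4) {K : Set V4} (h : Cpt K) : ∃ c, LipschitzWith c (G S B K) :=
  ⟨_, ((cl PP).lipschitz.comp ((cl S).lipschitz.comp (X_lip h))).add
    ((cl QQ).lipschitz.comp ((cl B).lipschitz.comp (LipschitzWith.id.sub (X_lip h))))⟩

lemma lip_null {f : V4 → V4} {c : NNReal} (h : LipschitzWith c f) {s : Set V4}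
    (hs : volume s = 0) : volume (f '' s) = 0 := by
  rw [← hausdorffMeasure_pi_real] at hs ⊢
  have := h.hausdorffMeasure_image_le (d := Fintype.card (Fin 4)) (by positivity) s
  rwa [hs, mul_zero, nonpos_iff_eq_zero] at this

lemma Gm_seg {K : Set V4} (h : Cpt K) {x z x' z' : V4} (h1 : (x, z) ∈ Gm K) (h2 : (x', z') ∈ Gm K)
    (e2 : (x' - x) ⬝ᵥ (z' - z) = 0) {t : ℝ} (t0 : 0 ≤ t) (t1 : t ≤ 1) :
    (x + t • (x' - x), (1 - t) • z + t • z') ∈ Gm K := by
  refine ⟨h.cvx.add_smul_sub_mem h1.1 h2.1 ⟨t0, t1⟩, fun y hy => ?_⟩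
  have c1 := h1.2 y hy
  have c2 := h2.2 y hy
  have c3 := h1.2 _ h2.1
  have c4 := h2.2 _ h1.1
  simp only [sub_dotProduct, dotProduct_sub, add_dotProduct, dotProduct_add, smul_dotProduct,
    dotProduct_smul, smul_eq_mul] at c1 c2 c3 c4 e2 ⊢
  have d1 : x' ⬝ᵥ z = x ⬝ᵥ z := by linarith
  have d2 : x ⬝ᵥ z' = x' ⬝ᵥ z' := by linarith
  rw [d1, d2]
  nlinarith

lemma G_inj {S B : M4} (hS : S * Bᵀ = 1) {K : Set V4} (h : Cpt K) {w w' : V4}
    (hd : DifferentiableAt ℝ (X K) w) (h0 : (MM S B (DX K w)).det ≠ 0)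
    (e : G S B K w = G S B K w') : w = w' := by
  by_contra hn
  apply h0
  have e1 : PP *ᵥ (S *ᵥ (X K w' - X K w)) + QQ *ᵥ (B *ᵥ ((w' - w) - (X K w' - X K w))) = 0 := by
    rw [← sub_eq_zero.2 e.symm]
    simp only [G, pr, mulVec_sub]
    abel
  have e2 := pq_zero e1
  rw [dot_SB hS] at e2
  have k : ∀ t : ℝ, 0 ≤ t → t ≤ 1 → X K (w + t • (w' - w)) = X K w + t • (X K w' - X K w) := by
    intro t t0 t1
    refine Eq.trans ?_ (X_eq h (Gm_seg h (X_mem h w) (X_mem h w') (by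
      rw [← e2]; congr 1; abel) t0 t1))
    congr 1
    simp only
    module
  have e3 : DX K w *ᵥ (w' - w) = X K w' - X K w := by
    refine tendsto_nhds_unique (DX_slope hd _) (tendsto_const_nhds.congr' ?_)
    filter_upwards [Ioc_mem_nhdsGT zero_lt_one] with t ht
    rw [k t ht.1.le ht.2, add_sub_cancel_left, smul_smul, inv_mul_cancel₀ ht.1.ne', one_smul]
  refine Matrix.exists_mulVec_eq_zero_iff.1 ⟨w' - w, sub_ne_zero.2 (Ne.symm hn), ?_⟩
  rw [MM_mv, e3, e1]

noncomputable def toM : (V4 →L[ℝ] V4) →ₗ[ℝ] M4 where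
  toFun L := LinearMap.toMatrix' (L : V4 →ₗ[ℝ] V4)
  map_add' a b := by simp
  map_smul' a b := by simp

lemma toM_cont : Continuous toM := toM.continuous_of_finiteDimensional

lemma det_meas (S B : M4) (K : Set V4) : Measurable fun w => (MM S B (DX K w)).det := by
  have : Continuous fun L : V4 →L[ℝ] V4 => (MM S B (toM L)).det := by
    refine Continuous.matrix_det ?_
    have := toM_cont
    unfold MM
    fun_prop
  exact this.measurable.comp (measurable_fderiv ℝ (X K))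

lemma area {S B : M4} (hS : S * Bᵀ = 1) (hB : B.det = 1) {K : Set V4} (h : Cpt K) {Z : Set V4}
    (hZ : MeasurableSet Z) :
    volume (G S B K '' Z) = ∫⁻ w in Z, ENNReal.ofReal (MM S B (DX K w)).det := by
  have hm := measurableSet_of_differentiableAt ℝ (X K)
  have ae := (X_lip h).ae_differentiableAt (μ := volume)
  have nn : ∀ w, |(cl (MM S B (DX K w))).det| = (MM S B (DX K w)).det := fun w => by
    rw [cl_det, abs_of_nonneg (det_nonneg hS hB (DX_mono h w))]
  obtain ⟨c, hc⟩ := G_lip S B h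
  apply le_antisymm
  · calc volume (G S B K '' Z)
        ≤ volume (G S B K '' (Z ∩ {w | DifferentiableAt ℝ (X K) w}) ∪
          G S B K '' {w | ¬ DifferentiableAt ℝ (X K) w}) := by
          rw [← image_union]
          exact measure_mono (image_mono fun w hw => (em (DifferentiableAt ℝ (X K) w)).imp
            (fun hd => ⟨hw, hd⟩) id)
      _ ≤ _ := measure_union_le _ _
      _ = volume (G S B K '' (Z ∩ {w | DifferentiableAt ℝ (X K) w})) := by
          rw [lip_null hc (ae_iff.1 ae), add_zero]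
      _ ≤ _ := addHaar_image_le_lintegral_abs_det_fderiv volume (hZ.inter hm)
          fun w hw => (G_der S B hw.2).hasFDerivWithinAt
      _ ≤ _ := by
          simp only [nn]
          exact lintegral_mono_set inter_subset_left
  · have hm2 : MeasurableSet (Z ∩ ({w | DifferentiableAt ℝ (X K) w} ∩
        {w | (MM S B (DX K w)).det ≠ 0})) :=
      hZ.inter (hm.inter ((det_meas S B K) (measurableSet_singleton 0)).compl)
    have := lintegral_abs_det_fderiv_eq_addHaar_image volume hm2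
      (fun w hw => (G_der S B hw.2.1).hasFDerivWithinAt)
      fun w hw w' _ e => G_inj hS h hw.2.1 hw.2.2 e
    refine le_trans ?_ (this.le.trans (measure_mono (image_mono inter_subset_left)))
    simp only [nn]
    rw [← lintegral_indicator hZ, ← lintegral_indicator hm2]
    refine lintegral_mono_ae ?_
    filter_upwards [ae] with w hw
    by_cases h1 : w ∈ Z
    · by_cases h2 : (MM S B (DX K w)).det = 0
      · simp [h1, h2]
      · rw [indicator_of_mem h1, indicator_of_mem (show w ∈ _ ∩ (_ ∩ _) from ⟨h1, hw, h2⟩)]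
    · simp [h1]

lemma bad_null {K : Set V4} (h : Cpt K) :
    ∀ᵐ q : V4, ∀ p ∈ Gm K, ∀ p' ∈ Gm K, pr p = q → pr p' = q → p.2 = p'.2 := by
  have ae := (X_lip h).ae_differentiableAt (μ := volume)
  obtain ⟨c, hc⟩ := G_lip 1 1 h
  have h1 := lip_null hc (ae_iff.1 ae)
  have h2 := addHaar_image_eq_zero_of_det_fderivWithin_eq_zero volume (f := G 1 1 K)
    (s := {w | DifferentiableAt ℝ (X K) w ∧ (MM 1 1 (DX K w)).det = 0})
    (fun w hw => (G_der 1 1 hw.1).hasFDerivWithinAt) fun w hw => by rw [cl_det]; exact hw.2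
  have e : ∀ p ∈ Gm K, G 1 1 K (p.1 + p.2) = pr p := fun p hp => by
    simp [G, X_eq h hp]
  filter_upwards [measure_eq_zero_iff_ae_notMem.1 h1, measure_eq_zero_iff_ae_notMem.1 h2]
    with q a1 a2 p hp p' hp' e1 e2
  have hd : DifferentiableAt ℝ (X K) (p.1 + p.2) := by
    by_contra hn; exact a1 ⟨_, hn, (e p hp).trans e1⟩
  have := G_inj (S := 1) (B := 1) (by simp) h hd (fun h0 => a2 ⟨_, ⟨hd, h0⟩, (e p hp).trans e1⟩)
    (w' := p'.1 + p'.2) (by rw [e p hp, e p' hp', e1, e2])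
  have h3 : p.1 = p'.1 := by rw [← X_eq h hp, this, X_eq h hp']
  rw [h3] at this
  exact add_left_cancel this

noncomputable def XZ (K : Set V4) (w : V4) : V4 × V4 := (X K w, w - X K w)

lemma XZ_cont {K : Set V4} (h : Cpt K) : Continuous (XZ K) :=
  (X_lip h).continuous.prodMk (continuous_id.sub (X_lip h).continuous)

lemma G_img (S B : M4) {K : Set V4} (h : Cpt K) (A : Set (V4 × V4)) :
    G S B K '' (XZ K ⁻¹' A) = pr '' (Prod.map S.mulVec B.mulVec '' (Gm K ∩ A)) := by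
  ext q
  constructor
  · rintro ⟨w, hw, rfl⟩
    exact ⟨_, ⟨XZ K w, ⟨X_mem h w, hw⟩, rfl⟩, rfl⟩
  · rintro ⟨_, ⟨p, hp, rfl⟩, rfl⟩
    have e : XZ K (p.1 + p.2) = p := by simp [XZ, X_eq h hp.1]
    exact ⟨p.1 + p.2, by rw [mem_preimage, e]; exact hp.2, by simp [G, X_eq h hp.1, Prod.map]⟩

def LL (K : Set V4) : Set (V4 × V4) := Gm K ∩ {p | p.2 ∈ pol K}

lemma LL_cpt {K : Set V4} (h : Body K) : IsCompact (LL K) := by
  have : LL K = (K ×ˢ pol K) ∩ ⋂ y ∈ K, {p | y ⬝ᵥ p.2 ≤ p.1 ⬝ᵥ p.2} := by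
    ext; simp [LL, Gm]; tauto
  rw [this]
  exact (h.cpt.prod h.pol.cpt).inter_right
    (isClosed_biInter fun y _ => isClosed_le (by fun_prop) (by fun_prop))

noncomputable def aV (K : Set V4) : ENNReal := volume (pr '' LL K)

lemma aV_ne {K : Set V4} (h : Body K) : aV K ≠ ⊤ := ((LL_cpt h).image pr_cont).measure_lt_top.ne

lemma LL_img {S B : M4} (hS : S * Bᵀ = 1) (K : Set V4) :
    LL (S.mulVec '' K) = Prod.map S.mulVec B.mulVec '' LL K := by
  have h1 : Sᵀ * B = 1 := by simpa using congrArg transpose (mul_eq_one_comm.1 hS)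
  ext p
  constructor
  · rintro ⟨⟨⟨x, hx, e⟩, h2⟩, h3⟩
    rw [mem_setOf_eq, pol_img h1] at h3
    obtain ⟨z, hz, e2⟩ := h3
    refine ⟨(x, z), ⟨⟨hx, fun y hy => ?_⟩, hz⟩, Prod.ext e e2⟩
    have := h2 _ ⟨y, hy, rfl⟩
    rwa [← e, ← e2, dot_SB hS, dot_SB hS] at this
  · rintro ⟨p, ⟨⟨h2, h3⟩, h4⟩, rfl⟩
    refine ⟨⟨⟨_, h2, rfl⟩, ?_⟩, by rw [mem_setOf_eq, pol_img h1]; exact ⟨_, h4, rfl⟩⟩
    rintro _ ⟨y, hy, rfl⟩
    simp only [Prod.map_fst, Prod.map_snd, dot_SB hS]
    exact h3 y hy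

def Zs (K : Set V4) : Set V4 := XZ K ⁻¹' {p | p.2 ∈ pol K}

lemma Zs_meas {K : Set V4} (h : Cpt K) : MeasurableSet (Zs K) :=
  (((pol_closed K).preimage continuous_snd).preimage (XZ_cont h)).measurableSet

noncomputable def ph (K : Set V4) : Curv := ∫ w in Zs K, Rc (DX K w)

lemma ph_int {K : Set V4} (h : Body K) : IntegrableOn (fun w => Rc (DX K w)) (Zs K) := by
  have hc : Continuous fun L : V4 →L[ℝ] V4 => Rc (toM L) := Rc_cont.comp toM_cont
  obtain ⟨M, hM⟩ := (isCompact_closedBall (0 : V4 →L[ℝ] V4) 4).exists_bound_of_continuousOn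
    hc.continuousOn
  refine Measure.integrableOn_of_bounded (M := M) ?_
    (hc.comp_stronglyMeasurable (measurable_fderiv ℝ (X K)).stronglyMeasurable).aestronglyMeasurable
    (Eventually.of_forall fun w => hM _ ?_)
  · refine ((measure_mono fun w hw => ?_).trans_lt
      ((h.cpt.prod h.pol.cpt).image continuous_add).measure_lt_top).ne
    exact ⟨XZ K w, ⟨(X_mem h.toCpt w).1, hw⟩, by simp [XZ]⟩
  · rw [mem_closedBall_zero_iff]
    exact_mod_cast norm_fderiv_le_of_lipschitz ℝ (X_lip h.toCpt)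

lemma key {S B : M4} (hS : S * Bᵀ = 1) (hB : B.det = 1) {K : Set V4} (h : Body K) :
    ev (ph K).1 (S 0) (S 1) (S 0) (S 1) = (aV (S.mulVec '' K)).toReal := by
  have := FiniteDimensional.complete ℝ Curv
  rw [aV, LL_img hS, LL, ← G_img S B h.toCpt, ← Zs, area hS hB h.toCpt (Zs_meas h.toCpt),
    ← integral_eq_lintegral_of_nonneg_ae
      (Eventually.of_forall fun w => det_nonneg hS hB (DX_mono h.toCpt w))
      (det_meas S B K).aestronglyMeasurable]
  simp only [det_MM hS hB, ← ev_Rc]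
  exact ((LinearMap.toContinuousLinearMap (evL (S 0) (S 1))).integral_comp_comm (ph_int h)).symm

end Pool.Agent.H81.Cv
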