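import Pool.Agent.H81.Curv3

set_option autoImplicit false

namespace Pool.Agent.H81.Cv

open Set Matrix Filter Topology MeasureTheory Pool.Agent.H81.Mink

noncomputable def mK (K : Set V4) : Measure (V4 × V4) :=
  ((volume.withDensity fun w => ENNReal.ofReal (MM 1 1 (DX K w)).det).restrict (Zs K)).map (XZ K)

lemma mK_apply {K : Set V4} (h : Cpt K) {A : Set (V4 × V4)} (hA : MeasurableSet A) :
    mK K A = volume (pr '' (LL K ∩ A)) := by
  have hm := (XZ_cont h).measurable hA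
  have e := G_img 1 1 h (A ∩ {p | p.2 ∈ pol K})
  have e1 : Prod.map (1 : M4).mulVec (1 : M4).mulVec = id := by ext <;> simp
  rw [e1, image_id] at e
  rw [mK, Measure.map_apply (XZ_cont h).measurable hA, Measure.restrict_apply hm,
    withDensity_apply _ (hm.inter (Zs_meas h)), ← area (by simp) det_one h (hm.inter (Zs_meas h)),
    LL, inter_assoc, inter_comm _ A, ← e]
  rfl

lemma LL_meas {K : Set V4} (h : Body K) : MeasurableSet (LL K) := (LL_cpt h).isClosed.measurableSet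

lemma mK_loc {K D : Set V4} (hK : Body K) (hD : Body D) :
    (mK K).restrict (LL K ∩ LL D) = (mK D).restrict (LL K ∩ LL D) := by
  ext A hA
  have hm := hA.inter ((LL_meas hK).inter (LL_meas hD))
  rw [Measure.restrict_apply hA, Measure.restrict_apply hA, mK_apply hK.toCpt hm,
    mK_apply hD.toCpt hm, inter_eq_right.2 (show A ∩ (LL K ∩ LL D) ⊆ LL K from fun p hp => hp.2.1),
    inter_eq_right.2 (show A ∩ (LL K ∩ LL D) ⊆ LL D from fun p hp => hp.2.2)]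

lemma mK_N {K : Set V4} (h : Body K) : mK K (LL K)ᶜ = 0 := by
  rw [mK_apply h.toCpt (LL_meas h).compl]; simp

lemma mK_univ {K : Set V4} (h : Body K) : mK K univ = aV K := by
  rw [mK_apply h.toCpt MeasurableSet.univ, inter_univ, aV]

lemma LL_iff {K : Set V4} (h : Body K) (p : V4 × V4) : p ∈ LL K ↔ (p.2 = 0 ∧ p.1 ∈ K) ∨
    ((0 < p.1 ⬝ᵥ p.2 ∧ p.1 ⬝ᵥ p.2 ≤ 1) ∧ (p.1, (p.1 ⬝ᵥ p.2)⁻¹ • p.2) ∈ N K) := by
  constructor
  · rintro ⟨⟨h1, h2⟩, h3⟩
    by_cases h0 : p.2 = 0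
    · exact Or.inl ⟨h0, h1⟩
    · have e : sp K p.2 = p.1 ⬝ᵥ p.2 := sp_eq h.toCpt h1 rfl h2
      have hp := sp_pos h h0
      have := nrm_mem h h0
      rw [e] at hp this
      exact Or.inr ⟨⟨hp, h3 _ h1⟩, h1, this, by
        rw [dotProduct_smul, smul_eq_mul, inv_mul_cancel₀ hp.ne']⟩
  · rintro (⟨h0, h1⟩ | ⟨⟨h0, h1⟩, h2, h3, -⟩)
    · exact ⟨⟨h1, fun y _ => by simp [h0]⟩, fun y _ => by simp [h0]⟩
    · have k : ∀ y ∈ K, y ⬝ᵥ p.2 ≤ p.1 ⬝ᵥ p.2 := fun y hy => by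
        have := h3 y hy
        rwa [dotProduct_smul, smul_eq_mul, inv_mul_le_iff₀ h0, mul_one] at this
      exact ⟨⟨h2, k⟩, fun y hy => (k y hy).trans h1⟩

lemma N_hi {K L : Set V4} (p : V4 × V4) :
    p ∈ N K ∧ p ∈ N L ↔ p ∈ N (K ∪ L) ∧ p ∈ N (K ∩ L) := by
  constructor
  · rintro ⟨⟨a1, a2, a3⟩, b1, b2, -⟩
    exact ⟨⟨Or.inl a1, fun x hx => hx.elim (a2 x) (b2 x), a3⟩, ⟨a1, b1⟩, fun x hx => a2 x hx.1, a3⟩
  · rintro ⟨⟨-, a2, a3⟩, b1, -, -⟩
    exact ⟨⟨b1.1, fun x hx => a2 x (Or.inl hx), a3⟩, b1.2, fun x hx => a2 x (Or.inr hx), a3⟩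

lemma N_hu {K L : Set V4} (hK : Body K) (hL : Body L) (h : Convex ℝ (K ∪ L)) (p : V4 × V4) :
    p ∈ N K ∨ p ∈ N L ↔ p ∈ N (K ∪ L) ∨ p ∈ N (K ∩ L) := by
  constructor
  · rintro (a | a)
    · exact N_or hK hL h a
    · have := N_or hL hK (by rwa [union_comm]) a
      rwa [union_comm, inter_comm] at this
  · rintro (⟨a1, a2, a3⟩ | ⟨a1, a2, a3⟩)
    · exact a1.imp (fun b => ⟨b, fun x hx => a2 x (Or.inl hx), a3⟩)
        (fun b => ⟨b, fun x hx => a2 x (Or.inr hx), a3⟩)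
    · by_contra hn
      rw [not_or] at hn
      have k1 : ¬ p.2 ∈ pol K := fun k => hn.1 ⟨a1.1, k, a3⟩
      have k2 : ¬ p.2 ∈ pol L := fun k => hn.2 ⟨a1.2, k, a3⟩
      obtain ⟨x, hx⟩ := not_forall.1 k1
      obtain ⟨hx, hx2⟩ := Classical.not_imp.1 hx
      obtain ⟨y, hy⟩ := not_forall.1 k2
      obtain ⟨hy, hy2⟩ := Classical.not_imp.1 hy
      obtain ⟨z, hz, a, b, ha, hb, hab, -, e2⟩ := seg (u := p.2) hK hL h hx hy
      have := a2 z hz
      rw [e2] at this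
      have q1 := not_le.1 hx2
      have q2 := not_le.1 hy2
      rcases ha.lt_or_eq with ha | ha
      · nlinarith
      · rw [← ha] at this hab; nlinarith

lemma aV_val {K L : Set V4} (hK : Body K) (hL : Body L) (h : Convex ℝ (K ∪ L)) :
    aV (K ∪ L) + aV (K ∩ L) = aV K + aV L := by
  have hU := hK.union hL h
  have hI := hK.inter hL
  have := val_meas (LL_meas hK) (LL_meas hL) (LL_meas hU) (LL_meas hI) (mK_N hK) (mK_N hL)
    (mK_N hU) (mK_N hI) (mK_loc hU hK) (mK_loc hU hL) (mK_loc hI hK) (mK_loc hI hL)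
    (fun p => ?_) (fun p => ?_)
  · have := congrArg (fun m : Measure (V4 × V4) => m univ) this
    simpa only [Measure.add_apply, mK_univ hK, mK_univ hL, mK_univ hU, mK_univ hI] using this
  · rw [LL_iff hK, LL_iff hL, LL_iff hU, LL_iff hI]
    have := N_hi (K := K) (L := L) (p.1, (p.1 ⬝ᵥ p.2)⁻¹ • p.2)
    by_cases h0 : p.2 = 0
    · simp [h0]; tauto
    · simp only [h0, false_and, false_or]; tauto
  · rw [LL_iff hK, LL_iff hL, LL_iff hU, LL_iff hI]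
    have := N_hu hK hL h (p.1, (p.1 ⬝ᵥ p.2)⁻¹ • p.2)
    by_cases h0 : p.2 = 0
    · simp [h0]; tauto
    · simp only [h0, false_and, false_or]; tauto

lemma bd_null {K : Set V4} (h : Body K) :
    volume (pr '' (LL K ∩ {p | p.1 ⬝ᵥ p.2 = 1})) = 0 := by
  have : IsFiniteMeasure (mK K) := ⟨by rw [mK_univ h]; exact (aV_ne h).lt_top⟩
  have hg : Measurable fun p : V4 × V4 => p.1 ⬝ᵥ p.2 := by fun_prop
  have hc := Measure.countable_meas_level_set_pos (μ := mK K) hg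
  obtain ⟨t, ht, h0⟩ : ∃ t ∈ Ioo (0 : ℝ) 1, mK K {p | p.1 ⬝ᵥ p.2 = t} = 0 := by
    by_contra hn
    push Not at hn
    have := (hc.mono (show Ioo (0 : ℝ) 1 ⊆ _ from fun t ht => pos_iff_ne_zero.2 (hn t ht))
      ).measure_zero volume
    simp at this
  rw [mK_apply h.toCpt (A := {p | p.1 ⬝ᵥ p.2 = t}) (hg (measurableSet_singleton t))] at h0
  refine measure_mono_null ?_ (lip_null (cl (diagonal ![1, 1, t⁻¹, t⁻¹])).lipschitz h0)
  rintro _ ⟨p, ⟨⟨⟨h1, h2⟩, h3⟩, h4⟩, rfl⟩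
  have h4 : p.1 ⬝ᵥ p.2 = 1 := h4
  refine ⟨_, ⟨(p.1, t • p.2), ⟨⟨⟨h1, fun y hy => ?_⟩, fun y hy => ?_⟩, ?_⟩, rfl⟩, ?_⟩
  · simp only [dotProduct_smul, smul_eq_mul]
    exact mul_le_mul_of_nonneg_left (h2 y hy) ht.1.le
  · simp only [dotProduct_smul, smul_eq_mul]
    nlinarith [h3 y hy, ht.1, ht.2]
  · simp [h4]
  · ext i
    fin_cases i <;> simp [cl_ap, pr, PP, QQ, mulVec_diagonal, ht.1.ne']

lemma PP_adj (x s : V4) : (PP *ᵥ x) ⬝ᵥ s = x ⬝ᵥ (PP *ᵥ s) := by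
  rw [adj, PP, diagonal_transpose]

lemma danskin {C : Set V4} (h : Cpt C) {z0 q : V4} {r : ℝ} (hr : 0 < r)
    (hm : ∀ s : V4, ‖PP *ᵥ s‖ < r → sp C z0 + q ⬝ᵥ (PP *ᵥ s) ≤ sp C (z0 + PP *ᵥ s)) :
    ∃ x ∈ C, x ⬝ᵥ z0 = sp C z0 ∧ PP *ᵥ x = PP *ᵥ q := by
  let F := C ∩ {x | sp C z0 ≤ x ⬝ᵥ z0}
  have hF : Cpt (PP.mulVec '' F) := by
    obtain ⟨x, hx, e, -⟩ := exmax h z0
    refine ⟨(h.cpt.inter_right (isClosed_le continuous_const (cont_dot z0))).image (cont_mv _),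
      Convex.linear_image (h.cvx.inter ?_) (toLin' PP), _, x, ⟨hx, e.ge⟩, rfl⟩
    intro u hu v hv a b ha hb hab
    simp only [mem_setOf_eq, add_dotProduct, smul_dotProduct, smul_eq_mul] at *
    have h1 := mul_le_mul_of_nonneg_left hu ha
    have h2 := mul_le_mul_of_nonneg_left hv hb
    have : a * sp C z0 + b * sp C z0 = sp C z0 := by rw [← add_mul, hab, one_mul]
    linarith
  obtain ⟨x, hx, e⟩ := mem_of_sp hF (x := PP *ᵥ q) fun s => by
    obtain ⟨M, hM⟩ := h.cpt.exists_bound_of_continuousOn (cont_dot (PP *ᵥ s)).continuousOn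
    have k : ∀ᶠ e in 𝓝[>] (0 : ℝ), ∃ x ∈ C ∩ {x | q ⬝ᵥ (PP *ᵥ s) ≤ x ⬝ᵥ (PP *ᵥ s)},
        sp C z0 - e * (M - q ⬝ᵥ (PP *ᵥ s)) ≤ x ⬝ᵥ z0 := by
      have ht : Tendsto (fun e : ℝ => ‖e • PP *ᵥ s‖) (𝓝[>] 0) (𝓝 ‖(0 : ℝ) • PP *ᵥ s‖) :=
        ((show Continuous fun e : ℝ => ‖e • PP *ᵥ s‖ by fun_prop).tendsto 0).mono_left
          nhdsWithin_le_nhds
      rw [zero_smul, norm_zero] at ht
      filter_upwards [ht.eventually (gt_mem_nhds hr), self_mem_nhdsWithin] with e h1 h2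
      have h2 : 0 < e := h2
      have h3 := hm (e • s) (by rwa [mulVec_smul])
      obtain ⟨x, hx, e1, -⟩ := exmax h (z0 + PP *ᵥ (e • s))
      rw [← e1, mulVec_smul, dotProduct_add, dotProduct_smul, dotProduct_smul, smul_eq_mul,
        smul_eq_mul] at h3
      have h4 := le_sp h hx z0
      have h5 := (le_abs_self _).trans (hM x hx)
      exact ⟨x, ⟨hx, le_of_mul_le_mul_left (by linarith) h2⟩, by nlinarith⟩
    obtain ⟨_, x1, hx1, -⟩ := k.exists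
    obtain ⟨x, hx, hmx⟩ := (h.cpt.inter_right (isClosed_le continuous_const
      (cont_dot (PP *ᵥ s)))).exists_isMaxOn ⟨x1, hx1⟩ (cont_dot z0).continuousOn
    have h6 : sp C z0 ≤ x ⬝ᵥ z0 := by
      have ht : Tendsto (fun e : ℝ => sp C z0 - e * (M - q ⬝ᵥ (PP *ᵥ s))) (𝓝[>] 0)
          (𝓝 (sp C z0 - 0 * (M - q ⬝ᵥ (PP *ᵥ s)))) :=
        ((show Continuous fun e : ℝ => sp C z0 - e * (M - q ⬝ᵥ (PP *ᵥ s)) by fun_prop).tendsto
          0).mono_left nhdsWithin_le_nhds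
      rw [zero_mul, sub_zero] at ht
      refine le_of_tendsto ht (k.mono ?_)
      rintro e ⟨y, hy, h7⟩
      exact h7.trans (hmx hy)
    refine le_trans ?_ (le_sp hF ⟨x, ⟨hx.1, h6⟩, rfl⟩ s)
    rw [PP_adj, PP_adj]
    exact hx.2
  exact ⟨x, hx.1, le_antisymm (le_sp h hx.1 z0) hx.2, e⟩

lemma lim1 {α : Type*} [TopologicalSpace α] {S : Set α} (hS : IsClosed S) {f : ℝ → α}
    (hf : ContinuousAt f 1) (h : ∀ l > 1, f l ∈ S) : f 1 ∈ S :=
  hS.mem_of_tendsto (hf.tendsto.mono_left (nhdsWithin_le_nhds (s := Ioi 1)))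
    (eventually_nhdsWithin_of_forall h)

lemma lim_mem {Cs : ℕ → Set V4} {C : Set V4} (hC : IsClosed C) {x : ℕ → V4} {a : V4}
    (h : ∀ l > 1, ∀ᶠ j in atTop, Sub l (Cs j) C) (hx : ∀ j, x j ∈ Cs j)
    (ht : Tendsto x atTop (𝓝 a)) : a ∈ C := by
  have := lim1 hC (f := fun l : ℝ => l⁻¹ • a)
    ((continuousAt_inv₀ one_ne_zero).smul continuousAt_const) fun l hl =>
      hC.mem_of_tendsto (ht.const_smul l⁻¹) ((h l hl).mono fun j hj => hj _ (hx j))
  simpa using this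

lemma caseA {Ks : ℕ → Set V4} {K : Set V4} (h : Conv Ks K) (hK : Body K) {q : V4}
    (hq : q ∉ pr '' LL K) : ∀ᶠ j in atTop, q ∉ pr '' LL (Ks j) := by
  by_contra hn
  obtain ⟨φ, hφ, h1⟩ := extraction_of_frequently_atTop
    ((not_eventually.1 hn).and_eventually (h 2 (by norm_num)))
  simp only [not_not] at h1
  choose p hp e using fun j => (h1 j).1
  obtain ⟨a, -, ψ, hψ, ht⟩ := ((K2_cpt hK.cpt).prod (K2_cpt hK.pol.cpt)).tendsto_subseq
    (x := p) fun j => ⟨(h1 j).2.1.K2 (hp j).1.1, (h1 j).2.2.pol.K2 (hp j).2⟩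
  have tt := (hφ.comp hψ).tendsto_atTop
  have t1 := (continuous_fst.tendsto a).comp ht
  have t2 := (continuous_snd.tendsto a).comp ht
  refine hq ⟨a, ⟨⟨lim_mem (Cs := fun j => Ks (φ (ψ j))) hK.cpt.isClosed
    (fun l hl => (tt.eventually (h l hl)).mono fun j hj => hj.1) (fun j => (hp _).1.1) t1,
    fun y hy => ?_⟩, lim_mem (Cs := fun j => pol (Ks (φ (ψ j)))) (pol_closed K)
    (fun l hl => (tt.eventually (h l hl)).mono fun j hj => hj.2.pol) (fun j => (hp _).2) t2⟩, ?_⟩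
  · have := lim1 (S := {y : V4 | y ⬝ᵥ a.2 ≤ a.1 ⬝ᵥ a.2}) (isClosed_le (cont_dot _) continuous_const)
      (f := fun l : ℝ => l⁻¹ • y) ((continuousAt_inv₀ one_ne_zero).smul continuousAt_const)
      fun l hl => (isClosed_le (show Continuous fun p : V4 × V4 => (l⁻¹ • y) ⬝ᵥ p.2 by fun_prop)
        (show Continuous fun p : V4 × V4 => p.1 ⬝ᵥ p.2 by fun_prop)).mem_of_tendsto ht
          ((tt.eventually (h l hl)).mono fun j hj => (hp _).1.2 _ (hj.2 y hy))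
    simpa using this
  · exact tendsto_nhds_unique ((pr_cont.tendsto a).comp ht)
      (tendsto_const_nhds.congr fun j => (e _).symm)

lemma PQ1 (s : V4) : QQ *ᵥ (PP *ᵥ s) = 0 := by
  ext i; fin_cases i <;> simp [PP, QQ, mulVec_diagonal]

lemma PQ2 {s : V4} (h : QQ *ᵥ s = 0) : PP *ᵥ s = s := by
  have h2 := congrFun h 2
  have h3 := congrFun h 3
  simp [QQ, mulVec_diagonal] at h2 h3
  ext i; fin_cases i <;> simp [PP, mulVec_diagonal, h2, h3]

lemma loc_min {C : Set V4} (h : Cpt C) {x z z1 : V4} {r : ℝ} (h1 : z1 ∈ Metric.ball z r)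
    (h2 : QQ *ᵥ z1 = QQ *ᵥ z)
    (hm : ∀ z' ∈ Metric.ball z r, QQ *ᵥ z' = QQ *ᵥ z → sp C z1 - x ⬝ᵥ z1 ≤ sp C z' - x ⬝ᵥ z') :
    ∃ x', (x', z1) ∈ Gm C ∧ pr (x', z1) = pr (x, z) := by
  rw [Metric.mem_ball] at h1
  obtain ⟨x', a1, a2, a3⟩ := danskin h (z0 := z1) (q := x) (sub_pos.2 h1) fun s hs => by
    have := hm (z1 + PP *ᵥ s) (by
      rw [Metric.mem_ball]
      have := dist_triangle (z1 + PP *ᵥ s) z1 z
      rw [dist_self_add_left] at this
      linarith) (by rw [mulVec_add, PQ1, add_zero, h2])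
    rw [dotProduct_add] at this
    linarith
  exact ⟨x', ⟨a1, fun y hy => (le_sp h hy z1).trans a2.ge⟩, by simp only [pr, a3, h2]⟩

lemma caseB {Ks : ℕ → Set V4} {K : Set V4} (h : Conv Ks K) (hs : ∀ j, Body (Ks j)) (hK : Body K)
    {x z : V4} (hp : (x, z) ∈ Gm K) (h1 : x ⬝ᵥ z < 1)
    (hu : ∀ p' ∈ Gm K, pr p' = pr (x, z) → z = p'.2) :
    ∀ᶠ j in atTop, pr (x, z) ∈ pr '' LL (Ks j) := by
  have e : sp K z = x ⬝ᵥ z := sp_eq hK.toCpt hp.1 rfl hp.2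
  obtain ⟨c, c1, c2⟩ := exists_between h1
  obtain ⟨r, hr, hb⟩ := Metric.nhds_basis_closedBall.mem_iff.1
    (((sp_cont hK.toCpt).tendsto z).eventually (gt_mem_nhds (e.symm ▸ c1 : sp K z < c)))
  have hA : IsClosed {z' : V4 | QQ *ᵥ z' = QQ *ᵥ z} := isClosed_eq (cont_mv _) continuous_const
  have hφ : ∀ C, Cpt C → Continuous fun z' => sp C z' - x ⬝ᵥ z' := fun C hC =>
    (sp_cont hC).sub (by fun_prop)
  obtain ⟨δ, d0, hδ⟩ := ((isCompact_sphere z r).inter_right hA).exists_forall_le'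
    (hφ K hK.toCpt).continuousOn (a := 0) fun z1 hz => by
      by_contra hn
      obtain ⟨x', a1, a2⟩ := loc_min hK.toCpt (x := x) (z := z) (r := r + 1) (z1 := z1)
        (by rw [Metric.mem_ball, Metric.mem_sphere.1 hz.1]; linarith) hz.2 fun z' _ _ => by
          linarith [le_sp hK.toCpt hp.1 z', not_lt.1 hn]
      have := hu _ a1 a2
      have h2 := Metric.mem_sphere.1 hz.1
      simp only at this
      rw [← this, dist_self] at h2
      linarith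
  have c0 : 0 < 1 - c := by linarith
  obtain ⟨η, η0, η1, η2⟩ : ∃ η > 0, η ≤ δ / 3 ∧ η ≤ 1 - c :=
    ⟨min (δ / 3) (1 - c), by positivity, min_le_left _ _, min_le_right _ _⟩
  filter_upwards [h (1 + η) (by linarith)] with j hj
  have nn : ∀ C : Set V4, Body C → ∀ z', 0 ≤ sp C z' := fun C hC z' => by
    simpa using le_sp hC.toCpt hC.zero z'
  have b1 : ∀ z' ∈ Metric.closedBall z r, sp (Ks j) z' ≤ 1 ∧ sp (Ks j) z' ≤ sp K z' + η ∧
      sp K z' ≤ sp (Ks j) z' + η := fun z' hz' => by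
    have a1 := hj.1.sp (by linarith) (hs j).toCpt hK.toCpt z'
    have a2 := hj.2.sp (by linarith) hK.toCpt (hs j).toCpt z'
    have a3 : sp K z' < c := hb hz'
    have a4 := nn K hK z'
    have a5 := nn _ (hs j) z'
    have a6 : sp (Ks j) z' ≤ 1 := by nlinarith
    exact ⟨a6, by nlinarith, by nlinarith⟩
  obtain ⟨z1, hz, hm⟩ := ((isCompact_closedBall z r).inter_right hA).exists_isMinOn
    ⟨z, Metric.mem_closedBall_self hr.le, rfl⟩ (hφ _ (hs j).toCpt).continuousOn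
  have hz1 : z1 ∈ Metric.ball z r := by
    refine Metric.mem_ball.2 (lt_of_le_of_ne (Metric.mem_closedBall.1 hz.1) fun h2 => ?_)
    have a1 := hδ z1 ⟨h2, hz.2⟩
    have a2 : sp (Ks j) z1 - x ⬝ᵥ z1 ≤ sp (Ks j) z - x ⬝ᵥ z :=
      hm ⟨Metric.mem_closedBall_self hr.le, rfl⟩
    have a3 := (b1 z1 hz.1).2.2
    have a4 := (b1 z (Metric.mem_closedBall_self hr.le)).2.1
    linarith
  obtain ⟨x', a1, a2⟩ := loc_min (hs j).toCpt (x := x) hz1 hz.2 fun z' a b =>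
    hm ⟨Metric.ball_subset_closedBall a, b⟩
  exact ⟨_, ⟨a1, (mem_pol (hs j).toCpt).2 (b1 z1 hz.1).1⟩, a2⟩

lemma aV_tend {Ks : ℕ → Set V4} {K : Set V4} (h : Conv Ks K) (hs : ∀ j, Body (Ks j))
    (hK : Body K) : Tendsto (fun j => aV (Ks j)) atTop (𝓝 (aV K)) := by
  have hB := ((K2_cpt hK.cpt).prod (K2_cpt hK.pol.cpt)).image pr_cont
  refine tendsto_measure_of_ae_tendsto_indicator atTop
    ((LL_cpt hK).image pr_cont).isClosed.measurableSet
    (fun j => ((LL_cpt (hs j)).image pr_cont).isClosed.measurableSet)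
    hB.isClosed.measurableSet hB.measure_lt_top.ne
    ((h 2 (by norm_num)).mono fun j hj => image_mono fun p hp =>
      ⟨hj.1.K2 hp.1.1, hj.2.pol.K2 hp.2⟩) ?_
  filter_upwards [bad_null hK.toCpt, measure_eq_zero_iff_ae_notMem.1 (bd_null hK)] with q a1 a2
  by_cases hq : q ∈ pr '' LL K
  · obtain ⟨p, hp, rfl⟩ := hq
    refine (caseB h hs hK hp.1 (lt_of_le_of_ne (hp.2 _ hp.1.1) fun e => a2 ⟨p, ⟨hp, e⟩, rfl⟩)
      fun p' hp' e => a1 p hp.1 p' hp' rfl e).mono fun j hj => iff_of_true hj ⟨p, hp, rfl⟩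
  · exact (caseA h hK hq).mono fun j hj => iff_of_false hj hq

lemma cube_body : Body (Metric.closedBall (0 : V4) 1) :=
  ⟨isCompact_closedBall _ _, convex_closedBall _ _,
    mem_interior_iff_mem_nhds.2 (Metric.closedBall_mem_nhds _ one_pos)⟩

lemma aV_cube : aV (Metric.closedBall (0 : V4) 1) ≠ 0 := by
  refine ((Metric.measure_ball_pos volume (![0, 0, 1 / 4, 1 / 4] : V4)
    (show (0 : ℝ) < 1 / 4 by norm_num)).trans_le (measure_mono fun q hq => ?_)).ne'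
  rw [Metric.mem_ball, dist_pi_lt_iff (by norm_num)] at hq
  have h0 := abs_lt.1 (hq 0)
  have h1 := abs_lt.1 (hq 1)
  have h2 := abs_lt.1 (hq 2)
  have h3 := abs_lt.1 (hq 3)
  simp at h0 h1 h2 h3
  have k : ∀ y ∈ Metric.closedBall (0 : V4) 1, y ⬝ᵥ ![0, 0, q 2, q 3] ≤ q 2 + q 3 := fun y hy => by
    rw [mem_closedBall_zero_iff, pi_norm_le_iff_of_nonneg zero_le_one] at hy
    have a2 := abs_le.1 (hy 2)
    have a3 := abs_le.1 (hy 3)
    simp [dotProduct, Fin.sum_univ_four]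
    nlinarith
  refine ⟨(![q 0, q 1, 1, 1], ![0, 0, q 2, q 3]), ⟨⟨?_, fun y hy => (k y hy).trans ?_⟩,
    fun y hy => (k y hy).trans (by linarith)⟩, ?_⟩
  · rw [mem_closedBall_zero_iff, pi_norm_le_iff_of_nonneg zero_le_one]
    intro i
    fin_cases i <;> simp [abs_le] <;> constructor <;> linarith
  · simp [dotProduct, Fin.sum_univ_four]
  · ext i; fin_cases i <;> simp [pr, PP, QQ, mulVec_diagonal]

lemma sl1 (T : SL4) : T.1 * ((T⁻¹).1ᵀ)ᵀ = 1 := by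
  have := Matrix.SpecialLinearGroup.coe_mul T T⁻¹
  rw [mul_inv_cancel] at this
  rw [transpose_transpose]
  exact this.symm

lemma sl2 (T : SL4) : T.1ᵀ * (T⁻¹).1ᵀ = 1 := by
  simpa using congrArg transpose (mul_eq_one_comm.1 (sl1 T))

lemma keyS (S : SL4) {K : Set V4} (h : Body K) :
    ev (ph K).1 (S.1 0) (S.1 1) (S.1 0) (S.1 1) = (aV (S.1.mulVec '' K)).toReal :=
  key (sl1 S) (by rw [det_transpose]; exact (S⁻¹).2) h

lemma keyc {s t : V4} (hp : p01 s t ≠ 0) {K : Set V4} (h : Body K) :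
    ev (ph K).1 s t s t = (aV ((cpl s t hp).1.mulVec '' K)).toReal := keyS (cpl s t hp) h

lemma ph_eqv (T : SL4) {K : Set V4} (h : Body K) : ph (T.1.mulVec '' K) = act T (ph K) := by
  refine ext0 fun s t hp => ?_
  rw [keyc hp (h.img (sl2 T)), image_image]
  simp only [mulVec_mulVec]
  exact ((ev_act T (ph K) s t s t).trans (keyS (cpl s t hp * T) h)).symm

lemma ph_val {K L : Set V4} (hK : Body K) (hL : Body L) (h : Convex ℝ (K ∪ L)) :
    ph (K ∪ L) + ph (K ∩ L) = ph K + ph L := by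
  refine ext0 fun s t hp => ?_
  have hi : Function.Injective (cpl s t hp).1.mulVec := fun a b e => by
    have := congrArg ((cpl s t hp)⁻¹).1.mulVec e
    have h1 := mul_eq_one_comm.1 (sl1 (cpl s t hp))
    rw [transpose_transpose] at h1
    simpa only [mulVec_mulVec, h1, one_mulVec] using this
  have hK' := hK.img (sl2 (cpl s t hp))
  have hL' := hL.img (sl2 (cpl s t hp))
  have hc : Convex ℝ ((cpl s t hp).1.mulVec '' K ∪ (cpl s t hp).1.mulVec '' L) := by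
    rw [← image_union]; exact h.linear_image (toLin' _)
  rw [Submodule.coe_add, Submodule.coe_add, ev_add, ev_add, keyc hp hK, keyc hp hL,
    keyc hp (hK.union hL h), keyc hp (hK.inter hL), image_union, image_inter hi,
    ← ENNReal.toReal_add (aV_ne (hK'.union hL' hc)) (aV_ne (hK'.inter hL')), aV_val hK' hL' hc,
    ENNReal.toReal_add (aV_ne hK') (aV_ne hL')]

lemma ph_tend {Ks : ℕ → Set V4} {K : Set V4} (h : Conv Ks K) (hs : ∀ j, Body (Ks j))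
    (hK : Body K) : Tendsto (fun j => ph (Ks j)) atTop (𝓝 (ph K)) := by
  let E : Curv →ₗ[ℝ] ({p : V4 × V4 // p01 p.1 p.2 ≠ 0} → ℝ) := LinearMap.pi fun p => evL p.1.1 p.1.2
  have hE : IsClosedEmbedding E := E.isClosedEmbedding_of_injective
    (LinearMap.ker_eq_bot'.2 fun R hR => Subtype.ext (det0 R.2 fun s t hp =>
      congrFun hR ⟨(s, t), hp⟩))
  rw [hE.isEmbedding.tendsto_nhds_iff, tendsto_pi_nhds]
  rintro ⟨⟨s, t⟩, hp⟩
  show Tendsto (fun j => ev (ph (Ks j)).1 s t s t) _ (𝓝 (ev (ph K).1 s t s t))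
  simp only [keyc hp (hs _), keyc hp hK]
  have hK' := hK.img (sl2 (cpl s t hp))
  refine (ENNReal.tendsto_toReal (aV_ne hK')).comp
    (aV_tend (fun l hl => (h l hl).mono fun j hj => ⟨?_, ?_⟩) (fun j => (hs j).img (sl2 _)) hK')
  · rintro _ ⟨x, hx, rfl⟩
    exact ⟨_, hj.1 x hx, mulVec_smul _ _ _⟩
  · rintro _ ⟨x, hx, rfl⟩
    exact ⟨_, hj.2 x hx, mulVec_smul _ _ _⟩

lemma ph_ne : ph (Metric.closedBall (0 : V4) 1) ≠ 0 := fun h => by
  have := keyS 1 cube_body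
  have e : (1 : SL4).1.mulVec = id := by ext; simp
  rw [h, e, image_id] at this
  refine (ENNReal.toReal_ne_zero.2 ⟨aV_cube, aV_ne cube_body⟩) (this.symm.trans ?_)
  simp [ev]

end Pool.Agent.H81.Cv
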