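import Pool.Agent.H81.DenseDefs

namespace H81Dense
open Set
open scoped ENNReal NNReal

variable {E : Type*} [MetricSpace E]

def Trip (S : Set E) (p q : E) (T : Set E) (l : ℝ≥0∞) : Prop :=
  ∃ γ : ℝ → E, IsCurve S γ ∧ γ 0 = p ∧ γ 1 = q ∧ T ⊆ γ '' Icc 0 1 ∧ len γ ≤ l

lemma Trip.mono {S : Set E} {p q : E} {T T' : Set E} {l l' : ℝ≥0∞} (h : Trip S p q T l)
    (hT : T' ⊆ T) (hl : l ≤ l') : Trip S p q T' l' := by
  obtain ⟨γ, h1, h2, h3, h4, h5⟩ := h
  exact ⟨γ, h1, h2, h3, hT.trans h4, h5.trans hl⟩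

lemma Trip.idist_le {S : Set E} {p q : E} {T : Set E} {l : ℝ≥0∞} (h : Trip S p q T l) :
    idist S p q ≤ l := by
  obtain ⟨γ, h1, h2, h3, -, h5⟩ := h
  exact iInf_le_of_le γ (iInf_le_of_le h1 (iInf_le_of_le h2 (iInf_le_of_le h3 h5)))

lemma edist_le_idist (S : Set E) (x y : E) : edist x y ≤ idist S x y := by
  refine le_iInf fun γ => le_iInf fun _ => le_iInf fun h0 => le_iInf fun h1 => ?_
  rw [← h0, ← h1]
  exact eVariationOn.edist_le γ (by simp) (by simp)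

lemma Trip.trans {S : Set E} {p q r : E} {T T' : Set E} {l l' : ℝ≥0∞} (h : Trip S p q T l)
    (h' : Trip S q r T' l') : Trip S p r (T ∪ T') (l + l') := by
  obtain ⟨γ, ⟨c1, m1⟩, h2, h3, h4, h5⟩ := h
  obtain ⟨δ, ⟨c2, m2⟩, k2, k3, k4, k5⟩ := h'
  set f : ℝ → E := fun t => if t ≤ 1 / 2 then γ (2 * t) else δ (2 * t - 1) with hf
  have e1 : EqOn f (γ ∘ fun t => 2 * t) (Icc 0 (1 / 2)) := fun t ht => by simp only [hf, if_pos ht.2]; rfl
  have e2 : EqOn f (δ ∘ fun t => 2 * t - 1) (Icc (1 / 2) 1) := fun t ht => by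
    rcases eq_or_lt_of_le ht.1 with h | h
    · simp only [hf, ← h, le_refl, if_true, Function.comp]; norm_num [h3, k2]
    · simp only [hf, if_neg (not_le.2 h)]; rfl
  have a1 : MapsTo (fun t : ℝ => 2 * t) (Icc 0 (1 / 2)) (Icc 0 1) := fun t ht =>
    ⟨by linarith [ht.1], by linarith [ht.2]⟩
  have a2 : MapsTo (fun t : ℝ => 2 * t - 1) (Icc (1 / 2) 1) (Icc 0 1) := fun t ht =>
    ⟨by linarith [ht.1], by linarith [ht.2]⟩
  have hu : Icc (0 : ℝ) 1 = Icc 0 (1 / 2) ∪ Icc (1 / 2) 1 :=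
    (Icc_union_Icc_eq_Icc (by norm_num) (by norm_num)).symm
  refine ⟨f, ⟨?_, ?_⟩, ?_, ?_, ?_, ?_⟩
  · rw [hu]
    refine ContinuousOn.union_of_isClosed ?_ ?_ isClosed_Icc isClosed_Icc
    · exact (c1.comp (by fun_prop) a1).congr e1
    · exact (c2.comp (by fun_prop) a2).congr e2
  · rw [hu]
    rintro t (ht | ht)
    · rw [e1 ht]; exact m1 (a1 ht)
    · rw [e2 ht]; exact m2 (a2 ht)
  · rw [e1 (by norm_num)]; simpa using h2
  · rw [e2 (by norm_num)]; simp only [Function.comp]; norm_num [k3]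
  · rintro x (hx | hx)
    · obtain ⟨t, ht, rfl⟩ := h4 hx
      refine ⟨t / 2, ⟨by linarith [ht.1], by linarith [ht.2]⟩, ?_⟩
      rw [e1 ⟨by linarith [ht.1], by linarith [ht.2]⟩]; simp only [Function.comp]; congr 1; ring
    · obtain ⟨t, ht, rfl⟩ := k4 hx
      refine ⟨(t + 1) / 2, ⟨by linarith [ht.1], by linarith [ht.2]⟩, ?_⟩
      rw [e2 ⟨by linarith [ht.1], by linarith [ht.2]⟩]; simp only [Function.comp]; congr 1; ring
  · have := eVariationOn.Icc_add_Icc f (s := univ) (a := 0) (b := 1 / 2) (c := 1) (by norm_num)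
      (by norm_num) (mem_univ _)
    simp only [univ_inter] at this
    unfold len
    rw [← this, eVariationOn.congr e1, eVariationOn.congr e2]
    refine add_le_add (le_trans ?_ h5) (le_trans ?_ k5)
    · exact eVariationOn.comp_le_of_monotoneOn γ _ (fun x _ y _ h => by linarith) a1
    · exact eVariationOn.comp_le_of_monotoneOn δ _ (fun x _ y _ h => by linarith) a2

lemma trip_seg {F : Type*} [NormedAddCommGroup F] [NormedSpace ℝ F] {S : Set E} {ψ : F → E}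
    {Q : Set F} {lam : ℝ≥0} (hQ : Convex ℝ Q) (hψ : LipschitzOnWith lam ψ Q) (hS : MapsTo ψ Q S)
    {a b : F} (ha : a ∈ Q) (hb : b ∈ Q) :
    Trip S (ψ a) (ψ b) (ψ '' segment ℝ a b) (ENNReal.ofReal (lam * dist a b)) := by
  have hm : MapsTo (AffineMap.lineMap a b : ℝ → F) (Icc 0 1) Q := fun t ht =>
    hQ.segment_subset ha hb (by rw [segment_eq_image_lineMap]; exact ⟨t, ht, rfl⟩)
  have hl : LipschitzOnWith (lam * nndist a b) (ψ ∘ (AffineMap.lineMap a b : ℝ → F)) (Icc 0 1) :=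
    hψ.comp (lipschitzWith_lineMap a b).lipschitzOnWith hm
  refine ⟨ψ ∘ (AffineMap.lineMap a b : ℝ → F), ⟨hl.continuousOn, hS.comp hm⟩, by simp, by simp,
    ?_, ?_⟩
  · rw [segment_eq_image_lineMap, image_comp]
  · have h1 := hl.comp_eVariationOn_le (g := fun t : ℝ => t) (s := Icc 0 1) (mapsTo_id _)
    have h2 : eVariationOn (fun t : ℝ => t) (Icc 0 1) ≤ 1 := by
      have := MonotoneOn.eVariationOn_le (f := fun t : ℝ => t) (s := univ)
        (fun _ _ _ _ h => h) (mem_univ (0 : ℝ)) (mem_univ (1 : ℝ))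
      simpa using this
    refine le_trans h1 (le_trans (mul_le_mul_right h2 _) ?_)
    rw [mul_one, ← ENNReal.ofReal_coe_nnreal]
    exact le_of_eq (by simp)

def Sq (a b w : ℝ) : Set ℂ := {z | a ≤ z.re ∧ z.re ≤ a + w ∧ b ≤ z.im ∧ z.im ≤ b + w}

lemma convex_Sq (a b w : ℝ) : Convex ℝ (Sq a b w) := by
  intro x hx y hy s t hs ht hst
  obtain ⟨h1, h2, h3, h4⟩ := hx
  obtain ⟨k1, k2, k3, k4⟩ := hy
  have e : t = 1 - s := by linarith
  subst e
  refine ⟨?_, ?_, ?_, ?_⟩ <;> simp <;> nlinarith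

lemma hor_sub (a w y : ℝ) (hw : 0 < w) : {z : ℂ | a ≤ z.re ∧ z.re ≤ a + w ∧ z.im = y} ⊆
    segment ℝ (⟨a, y⟩ : ℂ) ⟨a + w, y⟩ := by
  rintro z ⟨h1, h2, h3⟩
  refine ⟨(a + w - z.re) / w, (z.re - a) / w, div_nonneg (by linarith) hw.le,
    div_nonneg (by linarith) hw.le, by field_simp; ring, ?_⟩
  apply Complex.ext <;> simp [h3] <;> field_simp <;> ring

lemma dist_re (x x' y : ℝ) : dist (⟨x, y⟩ : ℂ) ⟨x', y⟩ = |x - x'| := by
  rw [Complex.dist_of_im_eq (by simp)]; simp [Real.dist_eq]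

lemma dist_im (x y y' : ℝ) : dist (⟨x, y⟩ : ℂ) ⟨x, y'⟩ = |y - y'| := by
  rw [Complex.dist_of_re_eq (by simp)]; simp [Real.dist_eq]

lemma zigzag {S : Set E} {ψ : ℂ → E} {lam : ℝ≥0} {a b w s : ℝ} (hw : 0 < w) (hs : 0 < s)
    (hψ : LipschitzOnWith lam ψ (Sq a b w)) (hS : MapsTo ψ (Sq a b w) S) (k : ℕ) (hk : k * s ≤ w) :
    ∃ x : ℝ, (x = a ∨ x = a + w) ∧ Trip S (ψ ⟨a, b⟩) (ψ ⟨x, b + k * s⟩)
      (⋃ i ≤ k, ψ '' {z : ℂ | a ≤ z.re ∧ z.re ≤ a + w ∧ z.im = b + i * s})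
      (ENNReal.ofReal (lam * ((k + 1) * (w + s)))) := by
  have hl : (0 : ℝ) ≤ lam := lam.2
  induction k with
  | zero =>
    refine ⟨a + w, Or.inr rfl, ?_⟩
    have := trip_seg (convex_Sq a b w) hψ hS (a := ⟨a, b⟩) (b := ⟨a + w, b⟩)
      ⟨by simp, by simp [hw.le], by simp, by simp [hw.le]⟩
      ⟨by simp [hw.le], by simp, by simp, by simp [hw.le]⟩
    simp only [Nat.cast_zero, zero_mul, add_zero]
    refine this.mono ?_ (ENNReal.ofReal_le_ofReal ?_)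
    · simp only [nonpos_iff_eq_zero, iUnion_iUnion_eq_left, Nat.cast_zero, zero_mul, add_zero]
      exact image_mono (hor_sub a w b hw)
    · rw [dist_re]
      have : |a - (a + w)| = w := by rw [abs_sub_comm]; simp [abs_of_pos hw]
      rw [this]; nlinarith
  | succ k ih =>
    have hk0 : (0 : ℝ) ≤ k * s := by positivity
    push_cast at hk
    obtain ⟨x, hx, ht⟩ := ih (by nlinarith)
    have hxa : a ≤ x ∧ x ≤ a + w := by rcases hx with rfl | rfl <;> constructor <;> linarith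
    set y : ℝ := b + ((k + 1 : ℕ) : ℝ) * s with hy
    have hy1 : b ≤ y ∧ y ≤ b + w := by rw [hy]; push_cast; constructor <;> nlinarith
    have t1 := trip_seg (convex_Sq a b w) hψ hS (a := ⟨x, b + k * s⟩) (b := ⟨x, y⟩)
      ⟨hxa.1, hxa.2, by simpa using hk0, by simp; nlinarith⟩ ⟨hxa.1, hxa.2, hy1.1, hy1.2⟩
    have t2 := trip_seg (convex_Sq a b w) hψ hS (a := ⟨x, y⟩) (b := ⟨2 * a + w - x, y⟩)
      ⟨hxa.1, hxa.2, hy1.1, hy1.2⟩ ⟨by simp; linarith, by simp; linarith, hy1.1, hy1.2⟩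
    refine ⟨2 * a + w - x, by rcases hx with rfl | rfl; exacts [Or.inr (by ring), Or.inl (by ring)],
      ((ht.trans t1).trans t2).mono ?_ ?_⟩
    · intro p hp
      simp only [mem_iUnion] at hp
      obtain ⟨i, hi, hp⟩ := hp
      rcases Nat.lt_or_ge i (k + 1) with h | h
      · exact Or.inl (Or.inl (mem_iUnion₂.2 ⟨i, Nat.lt_succ_iff.1 h, hp⟩))
      · obtain rfl : i = k + 1 := le_antisymm hi h
        refine Or.inr (image_mono ?_ hp)
        rcases hx with rfl | rfl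
        · rw [show 2 * x + w - x = x + w by ring]; exact hor_sub x w y hw
        · rw [show 2 * a + w - (a + w) = a by ring, segment_symm]; exact hor_sub a w y hw
    · rw [dist_im, dist_re]
      have e1 : |b + k * s - y| = s := by
        rw [hy]; push_cast; rw [show b + k * s - (b + (k + 1) * s) = -s by ring, abs_neg, abs_of_pos hs]
      have e2 : |x - (2 * a + w - x)| = w := by
        rcases hx with rfl | rfl
        · rw [show x - (2 * x + w - x) = -w by ring, abs_neg, abs_of_pos hw]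
        · rw [show a + w - (2 * a + w - (a + w)) = w by ring, abs_of_pos hw]
      rw [e1, e2, ← ENNReal.ofReal_add (by positivity) (by positivity),
        ← ENNReal.ofReal_add (by positivity) (by positivity)]
      apply ENNReal.ofReal_le_ofReal
      push_cast; nlinarith

def Cost (S : Set E) (b : E) (T : Set E) (a : ℝ) : Prop :=
  ∃ C : ℝ, 0 ≤ C ∧ ∀ ε > 0, ∃ T', Trip S b b T' (ENNReal.ofReal (a / (2 * ε) + C)) ∧
    ∀ x ∈ T, ∃ y ∈ T', idist S x y ≤ ENNReal.ofReal ε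

lemma Cost.mono {S : Set E} {b : E} {T T' : Set E} {a : ℝ} (h : Cost S b T a) (hT : T' ⊆ T) :
    Cost S b T' a := by
  obtain ⟨C, hC, h⟩ := h
  refine ⟨C, hC, fun ε hε => ?_⟩
  obtain ⟨U, h1, h2⟩ := h ε hε
  exact ⟨U, h1, fun x hx => h2 x (hT hx)⟩

lemma Cost.union {S : Set E} {b : E} {T T' : Set E} {a a' : ℝ} (ha : 0 ≤ a) (ha' : 0 ≤ a')
    (h : Cost S b T a) (h' : Cost S b T' a') : Cost S b (T ∪ T') (a + a') := by
  obtain ⟨C, hC, h⟩ := h
  obtain ⟨C', hC', h'⟩ := h'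
  refine ⟨C + C', by positivity, fun ε hε => ?_⟩
  obtain ⟨U, h1, h2⟩ := h ε hε
  obtain ⟨U', k1, k2⟩ := h' ε hε
  refine ⟨U ∪ U', (h1.trans k1).mono subset_rfl ?_, ?_⟩
  · rw [← ENNReal.ofReal_add (by positivity) (by positivity)]
    exact ENNReal.ofReal_le_ofReal (le_of_eq (by ring))
  · rintro x (hx | hx)
    · obtain ⟨y, hy, h⟩ := h2 x hx; exact ⟨y, Or.inl hy, h⟩
    · obtain ⟨y, hy, h⟩ := k2 x hx; exact ⟨y, Or.inr hy, h⟩

lemma cost_cell {S : Set E} {ψ : ℂ → E} {lam : ℝ≥0} {a b w : ℝ} (hw : 0 < w) (hlam : 0 < lam)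
    (hψ : LipschitzOnWith lam ψ (Sq a b w)) (hS : MapsTo ψ (Sq a b w) S)
    (hc : ∀ p ∈ S, ∀ q ∈ S, ∃ l : ℝ, 0 ≤ l ∧ Trip S p q ∅ (ENNReal.ofReal l)) {o : E} (ho : o ∈ S) :
    Cost S o (ψ '' Sq a b w) (lam ^ 2 * w ^ 2) := by
  have hl : (0 : ℝ) < lam := hlam
  have hab : (⟨a, b⟩ : ℂ) ∈ Sq a b w := ⟨by simp, by simp [hw.le], by simp, by simp [hw.le]⟩
  obtain ⟨l1, hl1, t1⟩ := hc o ho _ (hS hab)
  obtain ⟨l2, hl2, t2⟩ := hc _ (hS hab) o ho
  refine ⟨l1 + l2 + 6 * lam * w, by positivity, fun ε hε => ?_⟩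
  set n : ℕ := ⌈lam * w / (2 * ε)⌉₊ with hn
  have hn0 : 0 < n := Nat.ceil_pos.2 (by positivity)
  have hn0' : (1 : ℝ) ≤ n := by exact_mod_cast hn0
  have hn1 : lam * w / (2 * ε) ≤ n := Nat.le_ceil _
  have hn2 : (n : ℝ) < lam * w / (2 * ε) + 1 := Nat.ceil_lt_add_one (by positivity)
  set s : ℝ := w / n with hs
  have hs0 : 0 < s := by positivity
  have hns : n * s = w := by rw [hs]; field_simp
  have hsw : s ≤ w := by nlinarith
  have hsε : lam * s ≤ 2 * ε := by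
    rw [div_le_iff₀ (by positivity)] at hn1
    rw [hs, ← mul_div_assoc, div_le_iff₀ (by positivity)]; linarith
  obtain ⟨x, hx, t3⟩ := zigzag hw hs0 hψ hS n hns.le
  have hxa : a ≤ x ∧ x ≤ a + w := by rcases hx with rfl | rfl <;> constructor <;> linarith
  have t4 := trip_seg (convex_Sq a b w) hψ hS (a := ⟨x, b + n * s⟩) (b := ⟨a, b⟩)
    ⟨hxa.1, hxa.2, by simp; positivity, by simp [hns]⟩ hab
  have hd : dist (⟨x, b + n * s⟩ : ℂ) ⟨a, b⟩ ≤ 2 * w := by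
    refine (dist_triangle _ (⟨x, b⟩ : ℂ) _).trans ?_
    rw [dist_im, dist_re, hns, add_sub_cancel_left, abs_of_pos hw, abs_of_nonneg (by linarith)]
    linarith
  refine ⟨_, (((t1.trans t3).trans t4).trans t2).mono subset_rfl ?_, ?_⟩
  · rw [← ENNReal.ofReal_add (by positivity) (by positivity),
      ← ENNReal.ofReal_add (by positivity) (by positivity),
      ← ENNReal.ofReal_add (by positivity) (by positivity)]
    apply ENNReal.ofReal_le_ofReal
    have e1 : (n + 1) * (w + s) ≤ (lam * w / (2 * ε) + 4) * w := by nlinarith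
    have e2 : lam * ((lam * w / (2 * ε) + 4) * w) = lam ^ 2 * w ^ 2 / (2 * ε) + 4 * lam * w := by
      ring
    have e3 := mul_le_mul_of_nonneg_left e1 hl.le
    have e4 := mul_le_mul_of_nonneg_left hd hl.le
    linarith
  · rintro _ ⟨z, ⟨z1, z2, z3, z4⟩, rfl⟩
    set i : ℕ := ⌊(z.im - b) / s + 1 / 2⌋₊ with hi
    have hq : 0 ≤ (z.im - b) / s := div_nonneg (by linarith) hs0.le
    have hi1 : (i : ℝ) ≤ (z.im - b) / s + 1 / 2 := Nat.floor_le (by linarith)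
    have hi2 : (z.im - b) / s + 1 / 2 < i + 1 := Nat.lt_floor_add_one _
    have hq2 : (z.im - b) / s * s = z.im - b := by field_simp
    have hq3 : (z.im - b) / s ≤ n := by rw [div_le_iff₀ hs0]; linarith
    have hin : i ≤ n := by
      have : (i : ℝ) < n + 1 := by linarith
      exact Nat.lt_succ_iff.1 (by exact_mod_cast this)
    have hin' : (i : ℝ) ≤ n := by exact_mod_cast hin
    have hi0 : (0 : ℝ) ≤ i * s := by positivity
    refine ⟨ψ ⟨z.re, b + i * s⟩, Or.inl (Or.inl (Or.inr (mem_iUnion₂.2 ⟨i, hin,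
      ⟨⟨z.re, b + i * s⟩, ⟨z1, z2, rfl⟩, rfl⟩⟩))), ?_⟩
    have t5 := trip_seg (convex_Sq a b w) hψ hS (a := z) (b := ⟨z.re, b + i * s⟩) ⟨z1, z2, z3, z4⟩
      ⟨z1, z2, by simpa using hi0, by simp; nlinarith⟩
    refine t5.idist_le.trans (ENNReal.ofReal_le_ofReal ?_)
    have : dist z (⟨z.re, b + i * s⟩ : ℂ) ≤ s / 2 := by
      rw [show dist z (⟨z.re, b + i * s⟩ : ℂ) = |z.im - (b + i * s)| from dist_im z.re z.im _, abs_le]
      constructor <;> nlinarith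
    nlinarith

lemma Cost.L_le {S : Set E} {b : E} {a : ℝ} (ha : 0 ≤ a) (h : Cost S b S a) :
    ∃ C : ℝ, ∀ ε > 0, ENNReal.ofReal ε * L S ε ≤ ENNReal.ofReal (a / 2 + C * ε) := by
  obtain ⟨C, hC, h⟩ := h
  refine ⟨C, fun ε hε => ?_⟩
  obtain ⟨T, ⟨γ, h1, -, -, h4, h5⟩, h2⟩ := h ε hε
  have : L S ε ≤ ENNReal.ofReal (a / (2 * ε) + C) := by
    refine iInf_le_of_le γ (iInf_le_of_le h1 (iInf_le_of_le (fun x hx => ?_) h5))
    obtain ⟨y, hy, h⟩ := h2 x hx
    obtain ⟨t, ht, rfl⟩ := h4 hy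
    exact ⟨t, ht, h⟩
  refine (mul_le_mul_right this _).trans ?_
  rw [← ENNReal.ofReal_mul hε.le]
  exact ENNReal.ofReal_le_ofReal (le_of_eq (by field_simp))

end H81Dense
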