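import Pool.Agent.H81.Dense1

namespace H81Dense
open Set MeasureTheory Metric Filter Topology
open scoped ENNReal NNReal

abbrev E3 := EuclideanSpace ℝ (Fin 3)

structure Chart (S : Set E3) (lam : ℝ≥0) where
  O : Set E3
  p : E3 → ℂ
  ψ : ℂ → E3
  V : Set ℂ
  hO : IsOpen O
  hp : ContinuousOn p O
  hV : IsOpen V
  mp : MapsTo p (S ∩ O) V
  lip : LipschitzOnWith lam ψ V
  mS : MapsTo ψ V S
  inv : ∀ x ∈ S ∩ O, ψ (p x) = x

def Chart.empty (S : Set E3) (lam : ℝ≥0) : Chart S lam :=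
  ⟨∅, fun _ => 0, fun _ => 0, ∅, isOpen_empty, by simp, isOpen_empty, by simp [MapsTo], by simp,
    by simp [MapsTo], by simp⟩

structure Nice (S G : Set E3) : Prop where
  cpt : IsCompact S
  ne : S.Nonempty
  conn : ∀ p ∈ S, ∀ q ∈ S, ∃ l : ℝ, 0 ≤ l ∧ Trip S p q ∅ (ENNReal.ofReal l)
  bad : ∀ x ∈ S, ∃ (Λ : ℝ≥0) (c : Chart S Λ), 0 < Λ ∧ x ∈ c.O ∧
    volume (c.p '' ((S \ G) ∩ c.O)) = 0
  good : ∀ x ∈ S ∩ G, ∀ lam : ℝ≥0, 1 < lam → ∃ c : Chart S lam, x ∈ c.O ∧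
    LipschitzOnWith lam c.p (S ∩ c.O)

lemma muC : (μHE[2] : Measure ℂ) = volume := by
  have := InnerProductSpace.euclideanHausdorffMeasure_eq_volume (V := ℂ)
  rwa [Complex.finrank_real_complex] at this

lemma lip_mu {X Y : Type*} [EMetricSpace X] [MeasurableSpace X] [BorelSpace X] [EMetricSpace Y]
    [MeasurableSpace Y] [BorelSpace Y] {f : X → Y} {s : Set X} {K : ℝ≥0}
    (h : LipschitzOnWith K f s) : μHE[2] (f '' s) ≤ (K : ℝ≥0∞) ^ 2 * μHE[2] s := by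
  have := h.hausdorffMeasure_image_le (d := ((2 : ℕ) : ℝ)) (by positivity)
  rw [ENNReal.rpow_natCast] at this
  simp only [Measure.euclideanHausdorffMeasure_def, Measure.smul_apply, ENNReal.smul_def,
    smul_eq_mul]
  calc _ ≤ _ := mul_le_mul_right this _
    _ = _ := by ring

lemma Chart.mu_le {S : Set E3} {lam : ℝ≥0} (c : Chart S lam) {T : Set E3} (hT : T ⊆ S ∩ c.O) :
    μHE[2] T ≤ (lam : ℝ≥0∞) ^ 2 * volume (c.p '' T) := by
  have h1 : T ⊆ c.ψ '' (c.p '' T) := fun x hx => ⟨_, ⟨x, hx, rfl⟩, c.inv x (hT hx)⟩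
  have h2 := lip_mu (c.lip.mono (s := c.p '' T) (by rintro _ ⟨x, hx, rfl⟩; exact c.mp (hT hx)))
  rw [muC] at h2
  exact (measure_mono h1).trans h2

def Cov (S : Set E3) (o : E3) (T : Set E3) (c : ℝ≥0∞) : Prop :=
  ∃ (ι : Type) (O : ι → Set E3) (a : ι → ℝ), (∀ i, IsOpen (O i)) ∧ T ⊆ ⋃ i, O i ∧
    (∀ i, 0 ≤ a i) ∧ (∀ i, Cost S o (S ∩ O i) (a i)) ∧ ∑' i, ENNReal.ofReal (a i) ≤ c

lemma Cov.mono {S : Set E3} {o : E3} {T T' : Set E3} {c c' : ℝ≥0∞} (h : Cov S o T c)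
    (hT : T' ⊆ T) (hc : c ≤ c') : Cov S o T' c' := by
  obtain ⟨ι, O, a, h1, h2, h3, h4, h5⟩ := h
  exact ⟨ι, O, a, h1, hT.trans h2, h3, h4, h5.trans hc⟩

lemma Cov.iUnion {S : Set E3} {o : E3} {κ : Type} {T : κ → Set E3} {c : κ → ℝ≥0∞}
    (h : ∀ j, Cov S o (T j) (c j)) : Cov S o (⋃ j, T j) (∑' j, c j) := by
  choose ι O a h1 h2 h3 h4 h5 using h
  refine ⟨Σ j, ι j, fun i => O i.1 i.2, fun i => a i.1 i.2, fun i => h1 _ _, ?_, fun i => h3 _ _,
    fun i => h4 _ _, ?_⟩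
  · intro x hx
    obtain ⟨j, hj⟩ := mem_iUnion.1 hx
    obtain ⟨i, hi⟩ := mem_iUnion.1 (h2 j hj)
    exact mem_iUnion.2 ⟨⟨j, i⟩, hi⟩
  · rw [ENNReal.tsum_sigma']
    exact ENNReal.tsum_le_tsum h5

lemma Cov.union {S : Set E3} {o : E3} {T T' : Set E3} {c c' : ℝ≥0∞} (h : Cov S o T c)
    (h' : Cov S o T' c') : Cov S o (T ∪ T') (c + c') := by
  have := Cov.iUnion (S := S) (o := o) (κ := Bool) (T := fun b => cond b T T')
    (c := fun b => cond b c c') (by rintro (_ | _); exacts [h', h])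
  refine this.mono ?_ (by simp [tsum_fintype])
  rw [union_eq_iUnion]

lemma Cov.cost {S G : Set E3} (hS : Nice S G) {o : E3} (ho : o ∈ S) {c : ℝ≥0∞} (h : Cov S o S c) :
    ∃ a : ℝ, 0 ≤ a ∧ ENNReal.ofReal a ≤ c ∧ Cost S o S a := by
  classical
  obtain ⟨ι, O, a, h1, h2, h3, h4, h5⟩ := h
  obtain ⟨F, hF⟩ := hS.cpt.elim_finite_subcover O h1 h2
  have key : ∀ F : Finset ι, Cost S o (S ∩ ⋃ i ∈ F, O i) (∑ i ∈ F, a i) := by
    intro F
    induction F using Finset.induction_on with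
    | empty =>
      obtain ⟨l, hl, t⟩ := hS.conn o ho o ho
      exact ⟨l, hl, fun ε _ => ⟨∅, by simpa using t, by simp⟩⟩
    | insert i F hi ih =>
      rw [Finset.sum_insert hi, Finset.set_biUnion_insert, inter_union_distrib_left]
      exact Cost.union (h3 i) (Finset.sum_nonneg fun j _ => h3 j) (h4 i) ih
  refine ⟨_, Finset.sum_nonneg fun j _ => h3 j, ?_, (key F).mono (subset_inter subset_rfl hF)⟩
  rw [ENNReal.ofReal_sum_of_nonneg fun j _ => h3 j]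
  exact (ENNReal.sum_le_tsum F).trans h5

lemma Chart.cov {S G : Set E3} (hS : Nice S G) {o : E3} (ho : o ∈ S) {lam : ℝ≥0} (hlam : 0 < lam)
    (c : Chart S lam) {T : Set E3} (hT : T ⊆ S ∩ c.O) {θ : ℝ≥0} (hθ : 1 < θ) {η : ℝ≥0∞}
    (hη : η ≠ 0) : Cov S o T ((lam : ℝ≥0∞) ^ 2 * θ ^ 2 * (volume (c.p '' T) + η)) := by
  have hθ' : (1 : ℝ) < θ := hθ
  set e := Complex.measurableEquivRealProd with he
  have hv : volume (e '' (c.p '' T)) = volume (c.p '' T) := by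
    rw [← Complex.volume_preserving_equiv_real_prod.measure_preimage_equiv,
      preimage_image_eq _ e.injective]
  obtain ⟨t, r, -, ht, hr, hcov, hsum⟩ := Besicovitch.exists_closedBall_covering_tsum_measure_le
    (volume : Measure (ℝ × ℝ)) hη
    (fun x => {r | 0 < r ∧ Sq (x.1 - θ * r) (x.2 - θ * r) (2 * θ * r) ⊆ c.V}) (e '' (c.p '' T)) (by
      rintro _ ⟨z, ⟨x, hx, hz⟩, rfl⟩ δ hδ
      obtain ⟨ρ, hρ, hb⟩ := Metric.isOpen_iff.1 c.hV z (hz ▸ c.mp (hT hx))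
      have hm : 0 < min (δ / 2) (ρ / (4 * θ)) := by positivity
      refine ⟨min (δ / 2) (ρ / (4 * θ)), ⟨hm, fun w ⟨w1, w2, w3, w4⟩ => hb ?_⟩, hm,
        (min_le_left _ _).trans_lt (by linarith)⟩
      have h1 : θ * min (δ / 2) (ρ / (4 * θ)) ≤ ρ / 4 := by
        calc _ ≤ θ * (ρ / (4 * θ)) := by gcongr; exact min_le_right _ _
          _ = ρ / 4 := by field_simp
      simp only [he, Complex.measurableEquivRealProd_apply] at w1 w2 w3 w4
      rw [mem_ball, dist_eq_norm]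
      refine (Complex.norm_le_abs_re_add_abs_im _).trans_lt ?_
      have a1 : |(w - z).re| ≤ ρ / 4 := by rw [abs_le]; simp; constructor <;> linarith
      have a2 : |(w - z).im| ≤ ρ / 4 := by rw [abs_le]; simp; constructor <;> linarith
      linarith)
  refine ⟨t, fun x => c.O ∩ c.p ⁻¹' {z | |z.re - x.1.1| < θ * r x ∧ |z.im - x.1.2| < θ * r x},
    fun x => lam ^ 2 * (2 * θ * r x) ^ 2, fun x => ?_, fun y hy => ?_, fun x => by positivity,
    fun x => ?_, ?_⟩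
  · refine c.hp.isOpen_inter_preimage c.hO ?_
    rw [setOf_and]
    refine IsOpen.inter ?_ ?_ <;> (apply isOpen_lt <;> fun_prop)
  · obtain ⟨x, hx, hb⟩ := mem_iUnion₂.1 (hcov ⟨_, ⟨y, hy, rfl⟩, rfl⟩)
    have hr0 := (hr x hx).1
    refine mem_iUnion.2 ⟨⟨x, hx⟩, (hT hy).2, ?_⟩
    rw [mem_closedBall, Prod.dist_eq, max_le_iff, Real.dist_eq, Real.dist_eq] at hb
    simp only [he, Complex.measurableEquivRealProd_apply] at hb
    exact ⟨hb.1.trans_lt (by nlinarith), hb.2.trans_lt (by nlinarith)⟩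
  · have hr0 := (hr x x.2).1
    refine (cost_cell (by positivity) hlam (c.lip.mono (hr x x.2).2)
      (c.mS.mono_left (hr x x.2).2) hS.conn ho).mono ?_
    rintro y ⟨hy, hyO, h1, h2⟩
    rw [abs_lt] at h1 h2
    exact ⟨c.p y, ⟨by linarith, by linarith, by linarith, by linarith⟩, c.inv y ⟨hy, hyO⟩⟩
  · rw [← hv]
    refine le_trans (le_of_eq ?_) (mul_le_mul_right hsum _)
    rw [← ENNReal.tsum_mul_left]
    refine tsum_congr fun x => ?_
    have hr0 := (hr x x.2).1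
    rw [← closedBall_prod_same, Measure.volume_eq_prod, Measure.prod_prod, Real.volume_closedBall,
      Real.volume_closedBall, ← ENNReal.ofReal_mul (by positivity), ← ENNReal.ofReal_coe_nnreal,
      ← ENNReal.ofReal_coe_nnreal, ← ENNReal.ofReal_pow (by positivity),
      ← ENNReal.ofReal_pow (by positivity), ← ENNReal.ofReal_mul (by positivity),
      ← ENNReal.ofReal_mul (by positivity)]
    congr 1; ring

lemma Nice.bad_cover {S G : Set E3} (hS : Nice S G) : ∃ (ι : Type) (_ : Fintype ι) (Λ : ι → ℝ≥0)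
    (c : ∀ i, Chart S (Λ i)) (B : ι → Set E3), (∀ i, 0 < Λ i) ∧ (∀ i, IsCompact (B i)) ∧
    (∀ i, B i ⊆ (c i).O) ∧ S ⊆ ⋃ i, B i ∧ ∀ i, volume ((c i).p '' ((S \ G) ∩ (c i).O)) = 0 := by
  classical
  choose Λ c h1 h2 h3 using hS.bad
  have : ∀ x (hx : x ∈ S), ∃ r > 0, closedBall x r ⊆ (c x hx).O := fun x hx =>
    nhds_basis_closedBall.mem_iff.1 ((c x hx).hO.mem_nhds (h2 x hx))
  choose r hr hb using this
  obtain ⟨F, hF⟩ := hS.cpt.elim_nhds_subcover' (fun x hx => closedBall x (r x hx))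
    (fun x hx => closedBall_mem_nhds _ (hr x hx))
  refine ⟨F, inferInstance, fun i => Λ i.1 i.1.2, fun i => c i.1 i.1.2,
    fun i => closedBall i.1 (r i.1 i.1.2), fun i => h1 _ _, fun i => isCompact_closedBall _ _,
    fun i => hb _ _, fun x hx => ?_, fun i => h3 _ _⟩
  obtain ⟨i, hi, h⟩ := mem_iUnion₂.1 (hF hx)
  exact mem_iUnion.2 ⟨⟨i, hi⟩, h⟩

lemma Nice.finite {S G : Set E3} (hS : Nice S G) : μHE[2] S ≠ ∞ := by
  obtain ⟨ι, _, Λ, c, B, -, h2, h3, h4, -⟩ := hS.bad_cover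
  have : S ⊆ ⋃ i, S ∩ B i := by rw [← inter_iUnion]; exact subset_inter subset_rfl h4
  refine ne_top_of_le_ne_top ?_ ((measure_mono this).trans (measure_iUnion_fintype_le _ _))
  refine ENNReal.sum_ne_top.2 fun i _ => ne_top_of_le_ne_top ?_
    ((c i).mu_le (inter_subset_inter_right _ (h3 i)))
  exact ENNReal.mul_ne_top (by simp) (((hS.cpt.inter (h2 i)).image_of_continuousOn
    ((c i).hp.mono (inter_subset_right.trans (h3 i)))).measure_lt_top.ne)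

lemma Nice.null {S G : Set E3} (hS : Nice S G) : μHE[2] (S \ G) = 0 := by
  obtain ⟨ι, _, Λ, c, B, -, -, h3, h4, h5⟩ := hS.bad_cover
  refine measure_mono_null (t := ⋃ i, (S \ G) ∩ (c i).O) (fun x hx => ?_)
    (measure_iUnion_null fun i => ?_)
  · obtain ⟨i, hi⟩ := mem_iUnion.1 (h4 hx.1)
    exact mem_iUnion.2 ⟨i, hx, h3 i hi⟩
  · have := (c i).mu_le (T := (S \ G) ∩ (c i).O) (inter_subset_inter_left _ diff_subset)
    rw [h5 i, mul_zero] at this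
    exact le_antisymm this bot_le

lemma Nice.cov_bad {S G : Set E3} (hS : Nice S G) {o : E3} (ho : o ∈ S) {η : ℝ≥0∞} (hη : η ≠ 0) :
    Cov S o (S \ G) η := by
  obtain ⟨ι, _, Λ, c, B, h1, -, h3, h4, h5⟩ := hS.bad_cover
  obtain ⟨d, hd, hs⟩ := ENNReal.exists_pos_sum_of_countable' hη ι
  refine (Cov.iUnion (T := fun i => (S \ G) ∩ (c i).O) (c := d) fun i => ?_).mono
    (fun x hx => ?_) hs.le
  · obtain ⟨n, hn, hlt⟩ := ENNReal.exists_nnreal_pos_mul_lt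
      (a := (Λ i : ℝ≥0∞) ^ 2 * ((2 : ℝ≥0) : ℝ≥0∞) ^ 2) (by finiteness) (hd i).ne'
    refine ((c i).cov hS ho (h1 i) (inter_subset_inter_left _ diff_subset) (θ := 2) one_lt_two
      (η := n) (by simpa using hn.ne')).mono subset_rfl ?_
    rw [h5 i, zero_add, mul_comm]; exact hlt.le
  · obtain ⟨i, hi⟩ := mem_iUnion.1 (h4 hx.1)
    exact mem_iUnion.2 ⟨i, hx, h3 i hi⟩

lemma Nice.good_cover {S G : Set E3} (hS : Nice S G) {lam : ℝ≥0} (hlam : 1 < lam) :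
    ∃ (c : ℕ → Chart S lam) (A : ℕ → Set E3), (∀ n, LipschitzOnWith lam (c n).p (S ∩ (c n).O)) ∧
      (∀ n, MeasurableSet (A n)) ∧ (∀ n, A n ⊆ S ∩ (c n).O) ∧ Pairwise (Function.onFun Disjoint A) ∧
      S ∩ G ⊆ ⋃ n, A n := by
  choose c h1 h2 using fun x : ↥(S ∩ G) => hS.good x.1 x.2 lam hlam
  obtain ⟨T, hT, hU⟩ := TopologicalSpace.isOpen_iUnion_countable (fun x => (c x).O)
    fun x => (c x).hO
  obtain ⟨f, hf⟩ := ((hT.image c).insert (Chart.empty S lam)).exists_eq_range (insert_nonempty _ _)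
  refine ⟨f, fun n => S ∩ disjointed (fun n => (f n).O) n, fun n => ?_, fun n =>
    hS.cpt.measurableSet.inter (MeasurableSet.disjointed (fun n => (f n).hO.measurableSet) n),
    fun n => inter_subset_inter_right _ (disjointed_subset _ n), fun i j hij =>
    ((disjoint_disjointed _) hij).mono inter_subset_right inter_subset_right, fun x hx => ?_⟩
  · have : f n ∈ insert (Chart.empty S lam) (c '' T) := hf ▸ mem_range_self n
    rcases this with h | ⟨x, -, h⟩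
    · rw [h]; simp [Chart.empty]
    · rw [← h]; exact h2 x
  · rw [← inter_iUnion, iUnion_disjointed]
    refine ⟨hx.1, ?_⟩
    have : x ∈ ⋃ i ∈ T, (c i).O := hU ▸ mem_iUnion.2 ⟨⟨x, hx⟩, h1 _⟩
    obtain ⟨i, hi, h⟩ := mem_iUnion₂.1 this
    obtain ⟨n, hn⟩ : c i ∈ range f := hf ▸ Or.inr ⟨i, hi, rfl⟩
    exact mem_iUnion.2 ⟨n, hn ▸ h⟩

lemma Nice.upper_aux {S G : Set E3} (hS : Nice S G) {o : E3} (ho : o ∈ S) {lam : ℝ≥0}
    (hlam : 1 < lam) {η : ℝ≥0∞} (hη : η ≠ 0) :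
    Cov S o S ((lam : ℝ≥0∞) ^ 4 * (lam ^ 2 * μHE[2] S + η) + η) := by
  obtain ⟨c, A, h1, h2, h3, h4, h5⟩ := hS.good_cover hlam
  obtain ⟨d, hd, hs⟩ := ENNReal.exists_pos_sum_of_countable' hη ℕ
  have key := Cov.iUnion (T := A) (c := fun n => (lam : ℝ≥0∞) ^ 4 * (lam ^ 2 * μHE[2] (A n) + d n))
    fun n => ((c n).cov hS ho (zero_lt_one.trans hlam) (h3 n) hlam (hd n).ne').mono subset_rfl (by
      have := lip_mu ((h1 n).mono (h3 n))
      rw [muC] at this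
      rw [← pow_add]; gcongr)
  refine (key.union (hS.cov_bad ho hη)).mono (fun x hx => ?_) ?_
  · by_cases h : x ∈ G
    exacts [Or.inl (h5 ⟨hx, h⟩), Or.inr ⟨hx, h⟩]
  · rw [ENNReal.tsum_mul_left, ENNReal.tsum_add, ENNReal.tsum_mul_left, ← measure_iUnion h4 h2]
    gcongr
    exact iUnion_subset fun n => (h3 n).trans inter_subset_left

lemma Nice.upper {S G : Set E3} (hS : Nice S G) {b : ℝ≥0∞} (hb : μHE[2] S / 2 < b) :
    ∀ᶠ ε in 𝓝[>] (0 : ℝ), ENNReal.ofReal ε * L S ε < b := by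
  obtain ⟨o, ho⟩ := hS.ne
  obtain ⟨m, hm⟩ : ∃ m : ℝ≥0, μHE[2] S = m := ⟨_, (ENNReal.coe_toNNReal hS.finite).symm⟩
  obtain ⟨b', hb1, hb2⟩ := ENNReal.lt_iff_exists_nnreal_btwn.1 hb
  have hb3 : (m : ℝ) / 2 < b' := by
    rw [hm] at hb1
    have : m / 2 < b' := by
      rw [← ENNReal.coe_lt_coe, ENNReal.coe_div (by norm_num)]; exact_mod_cast hb1
    exact_mod_cast this
  have hc : ContinuousAt (fun t : ℝ≥0 => (((1 + t) ^ 4 * ((1 + t) ^ 2 * m + t) + t : ℝ≥0) : ℝ) / 2)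
      0 := by fun_prop
  have he : ∀ᶠ t : ℝ≥0 in 𝓝[>] 0,
      (((1 + t) ^ 4 * ((1 + t) ^ 2 * m + t) + t : ℝ≥0) : ℝ) / 2 < b' :=
    nhdsWithin_le_nhds (hc.eventually (gt_mem_nhds (by simpa using hb3)))
  obtain ⟨t, ht, ht0⟩ := (he.and self_mem_nhdsWithin).exists
  have ht0 : 0 < t := ht0
  obtain ⟨a, ha, hle, hcost⟩ := (hS.upper_aux ho (lam := 1 + t) (by simpa using ht0) (η := t)
    (by simpa using ht0.ne')).cost hS ho
  have ha2 : a / 2 < b' := by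
    refine lt_of_le_of_lt ?_ ht
    gcongr
    rw [hm] at hle
    rw [← ENNReal.ofReal_le_coe]
    exact_mod_cast hle
  obtain ⟨C, hC⟩ := hcost.L_le ha
  have hc2 : ContinuousAt (fun ε : ℝ => a / 2 + C * ε) 0 := by fun_prop
  filter_upwards [nhdsWithin_le_nhds (hc2.eventually (gt_mem_nhds (a := (b' : ℝ))
    (by simpa using ha2))), self_mem_nhdsWithin] with ε h1 h2
  refine (hC ε h2).trans_lt (lt_of_le_of_lt ?_ hb2)
  rw [ENNReal.ofReal_le_coe]; exact h1.le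

end H81Dense
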