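import Pool.Agent.H81.Dense2

namespace H81Dense
open Set MeasureTheory Metric Filter Topology
open scoped ENNReal NNReal

lemma shift0 {d r : ℝ} (hd : 0 ≤ d) (hr : 0 ≤ r) :
    volume (ball (d : ℂ) r \ ball 0 r) ≤ ENNReal.ofReal (2 * r * d) := by
  set D : Set ℂ := ball 0 r with hD
  have mem : ∀ (c : ℝ) (z : ℂ), z ∈ ball (c : ℂ) r ↔ (z.re - c) ^ 2 + z.im ^ 2 < r ^ 2 := by
    intro c z
    rw [mem_ball, dist_eq_norm, ← sq_lt_sq₀ (norm_nonneg _) hr, Complex.sq_norm,
      Complex.normSq_apply]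
    simp [sq]
  have mem0 : ∀ z : ℂ, z ∈ D ↔ z.re ^ 2 + z.im ^ 2 < r ^ 2 := fun z => by
    have := mem 0 z
    rwa [Complex.ofReal_zero, sub_zero] at this
  set H : Set ℂ := {z | z.re < 0} with hH
  have mH : MeasurableSet H := (isOpen_lt (by fun_prop) (by fun_prop)).measurableSet
  set R : Set ℂ := Complex.measurableEquivRealProd ⁻¹' (Icc 0 d ×ˢ Icc (-r) r) with hR
  have vR : volume R = ENNReal.ofReal (2 * r * d) := by
    rw [hR, Complex.volume_preserving_equiv_real_prod.measure_preimage_equiv,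
      Measure.volume_eq_prod, Measure.prod_prod, Real.volume_Icc, Real.volume_Icc,
      ← ENNReal.ofReal_mul (by linarith)]
    congr 1; ring
  have sub : (ball (d : ℂ) r \ D) ∪ D ⊆ ((D ∩ H) ∪ (fun z => z + (-d : ℂ)) ⁻¹' (D \ H)) ∪ R := by
    intro z hz
    have hz' : (z.re - d) ^ 2 + z.im ^ 2 < r ^ 2 ∨ z.re ^ 2 + z.im ^ 2 < r ^ 2 := by
      rcases hz with h | h
      exacts [Or.inl ((mem d z).1 h.1), Or.inr ((mem0 z).1 h)]
    rcases lt_or_ge z.re 0 with h | h
    · refine Or.inl (Or.inl ⟨(mem0 z).2 ?_, h⟩)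
      rcases hz' with k | k <;> nlinarith
    rcases le_or_gt z.re d with h' | h'
    · have : z.im ^ 2 < r ^ 2 := by rcases hz' with k | k <;> nlinarith
      have := abs_lt.1 (abs_lt_of_sq_lt_sq this hr)
      exact Or.inr ⟨⟨h, h'⟩, this.1.le, this.2.le⟩
    · refine Or.inl (Or.inr ⟨(mem0 _).2 ?_, ?_⟩)
      · simp only [Complex.add_re, Complex.neg_re, Complex.ofReal_re, Complex.add_im,
          Complex.neg_im, Complex.ofReal_im]
        rcases hz' with k | k <;> nlinarith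
      · simp [hH]; linarith
  have h1 := (measure_mono (μ := volume) sub).trans ((measure_union_le _ _).trans
    (add_le_add_left (measure_union_le _ _) _))
  rw [measure_union disjoint_sdiff_left measurableSet_ball, measure_preimage_add_right,
    measure_inter_add_diff _ mH, vR, add_comm] at h1
  exact (ENNReal.add_le_add_iff_left measure_ball_lt_top.ne).1 h1

lemma shift1 (p q : ℂ) {r : ℝ} (hr : 0 ≤ r) :
    volume (ball q r \ ball p r) ≤ ENNReal.ofReal (2 * r * dist p q) := by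
  rcases eq_or_ne q p with rfl | h
  · simp
  have hn : ‖q - p‖ ≠ 0 := by simpa [sub_eq_zero] using h
  have hn' : ((‖q - p‖ : ℝ) : ℂ) ≠ 0 := by exact_mod_cast hn
  set u : ℂ := (q - p) / ‖q - p‖ with hu
  have hu1 : ‖u‖ = 1 := by rw [hu, norm_div]; simp [hn]
  have hu0 : u ≠ 0 := by rintro h; simp [h] at hu1
  have iso : Isometry fun z => p + u * z := Isometry.of_dist_eq fun a b => by
    rw [dist_eq_norm, dist_eq_norm, show p + u * a - (p + u * b) = u * (a - b) by ring, norm_mul,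
      hu1, one_mul]
  have sub : ball q r \ ball p r ⊆ (fun z => p + u * z) '' (ball ((‖q - p‖ : ℝ) : ℂ) r \ ball 0 r) := by
    intro w ⟨h1, h2⟩
    have e : p + u * ((w - p) / u) = w := by field_simp; ring
    refine ⟨(w - p) / u, ⟨?_, fun h => h2 ?_⟩, e⟩
    · rw [mem_ball, ← iso.dist_eq, e, show p + u * ((‖q - p‖ : ℝ) : ℂ) = q by
        rw [hu]; field_simp; ring]
      exact h1
    · rw [mem_ball, ← iso.dist_eq, e] at h
      simpa using h
  refine (measure_mono sub).trans ?_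
  rw [← muC, iso.euclideanHausdorffMeasure_image, muC, dist_comm, dist_eq_norm]
  exact shift0 (norm_nonneg _) hr

lemma vball (p : ℂ) {r : ℝ} (hr : 0 ≤ r) : volume (ball p r) = ENNReal.ofReal (Real.pi * r ^ 2) := by
  rw [Complex.volume_ball, ← ENNReal.ofReal_pow hr, ← ENNReal.ofReal_coe_nnreal,
    ← ENNReal.ofReal_mul (by positivity), NNReal.coe_real_pi, mul_comm]

lemma shift2 (p q : ℂ) {r r' R : ℝ} (hr : 0 ≤ r) (hr' : 0 ≤ r') (h1 : r ≤ R) (h2 : r' ≤ R) :
    volume (ball q r' \ ball p r) ≤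
      ENNReal.ofReal (2 * R * dist p q + 2 * Real.pi * R * |r - r'|) := by
  have hR : 0 ≤ R := hr.trans h1
  have sub : ball q r' \ ball p r ⊆ (ball q r \ ball p r) ∪ (ball q r' \ ball q r) := by
    intro z ⟨a, b⟩
    by_cases h : z ∈ ball q r
    exacts [Or.inl ⟨h, b⟩, Or.inr ⟨a, h⟩]
  refine (measure_mono sub).trans ((measure_union_le _ _).trans ?_)
  rw [ENNReal.ofReal_add (by positivity) (by positivity)]
  refine add_le_add ((shift1 p q hr).trans (ENNReal.ofReal_le_ofReal (by gcongr))) ?_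
  rcases le_total r' r with h | h
  · rw [diff_eq_empty.2 (ball_subset_ball h)]; simp
  · rw [measure_diff (ball_subset_ball h) measurableSet_ball.nullMeasurableSet
      measure_ball_lt_top.ne, vball _ hr, vball _ hr', ← ENNReal.ofReal_sub _ (by positivity)]
    apply ENNReal.ofReal_le_ofReal
    rw [abs_sub_comm, abs_of_nonneg (by linarith)]
    have : r' ^ 2 - r ^ 2 ≤ 2 * R * (r' - r) := by nlinarith
    nlinarith [Real.pi_pos]

open Classical in
lemma piece {S P W : Set E3} {π : E3 → ℂ} {lam : ℝ≥0} (hπ : LipschitzOnWith lam π (S ∩ W))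
    (hPS : P ⊆ S) {δ ρ : ℝ} (hρ : 0 < ρ) (hρδ : ρ ≤ δ) (hl : 0 < lam)
    (hW : ∀ y, infDist y P ≤ 4 * δ → y ∈ W)
    {x : ℕ → E3} {n : ℕ} (hx : ∀ i, x i ∈ S) (hs : ∀ i < n, dist (x i) (x (i + 1)) ≤ δ)
    (hd : ∀ y ∈ P, ∃ i ≤ n, dist y (x i) < ρ) :
    volume (π '' P) ≤ ENNReal.ofReal (Real.pi * (lam * ρ) ^ 2 +
      (2 * lam ^ 2 * ρ + 2 * Real.pi * (lam * ρ) ^ 2 / δ) *
        ∑ i ∈ Finset.range n, if infDist (x i) P ≤ 3 * δ then dist (x i) (x (i + 1)) else 0) := by
  have hδ : 0 < δ := hρ.trans_le hρδ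
  have hl' : (0 : ℝ) < lam := hl
  set R : ℝ := lam * ρ with hR
  have hR0 : 0 < R := by positivity
  set r : E3 → ℝ := fun y => R * max 0 (min 1 (2 - infDist y P / δ)) with hr
  have r0 : ∀ y, 0 ≤ r y := fun y => mul_nonneg hR0.le (le_max_left _ _)
  have r1 : ∀ y, r y ≤ R := fun y =>
    mul_le_of_le_one_right hR0.le (max_le zero_le_one (min_le_left _ _))
  have rl : ∀ y z, |r y - r z| ≤ R / δ * dist y z := by
    intro y z
    rw [hr, ← mul_sub, abs_mul, abs_of_pos hR0, div_mul_eq_mul_div, mul_div_assoc]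
    gcongr
    refine (abs_max_sub_max_le_max _ _ _ _).trans (max_le (by simp; positivity) ?_)
    refine (abs_min_sub_min_le_max _ _ _ _).trans (max_le (by simp; positivity) ?_)
    rw [show 2 - infDist y P / δ - (2 - infDist z P / δ) = -((infDist y P - infDist z P) / δ) by ring,
      abs_neg, abs_div, abs_of_pos hδ]
    gcongr
    have := (lipschitz_infDist_pt P).dist_le_mul y z
    simpa [Real.dist_eq] using this
  set c : ℝ := 2 * lam ^ 2 * ρ + 2 * Real.pi * R ^ 2 / δ with hc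
  have hc0 : 0 ≤ c := by positivity
  have key : ∀ k ≤ n, volume (⋃ i ≤ k, ball (π (x i)) (r (x i))) ≤ ENNReal.ofReal
      (Real.pi * R ^ 2 + c * ∑ i ∈ Finset.range k,
        if infDist (x i) P ≤ 3 * δ then dist (x i) (x (i + 1)) else 0) := by
    intro k
    induction k with
    | zero =>
      intro _
      simp only [nonpos_iff_eq_zero, iUnion_iUnion_eq_left, Finset.range_zero, Finset.sum_empty,
        mul_zero, add_zero]
      rw [vball _ (r0 _)]
      apply ENNReal.ofReal_le_ofReal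
      have := r0 (x 0); have := r1 (x 0); have := Real.pi_pos
      gcongr
    | succ k ih =>
      intro hk
      have sub : (⋃ i ≤ k + 1, ball (π (x i)) (r (x i))) ⊆ (⋃ i ≤ k, ball (π (x i)) (r (x i))) ∪
          (ball (π (x (k + 1))) (r (x (k + 1))) \ ball (π (x k)) (r (x k))) := by
        intro z hz
        obtain ⟨i, hi, hz⟩ := mem_iUnion₂.1 hz
        rcases Nat.lt_or_ge i (k + 1) with h | h
        · exact Or.inl (mem_iUnion₂.2 ⟨i, Nat.lt_succ_iff.1 h, hz⟩)
        · obtain rfl : i = k + 1 := le_antisymm hi h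
          by_cases h' : z ∈ ball (π (x k)) (r (x k))
          exacts [Or.inl (mem_iUnion₂.2 ⟨k, le_rfl, h'⟩), Or.inr ⟨hz, h'⟩]
      refine (measure_mono sub).trans ((measure_union_le _ _).trans ?_)
      have hsum : 0 ≤ ∑ i ∈ Finset.range k,
          if infDist (x i) P ≤ 3 * δ then dist (x i) (x (i + 1)) else 0 :=
        Finset.sum_nonneg fun i _ => by split_ifs <;> positivity
      rw [Finset.sum_range_succ, mul_add, ← add_assoc, ENNReal.ofReal_add (by positivity)
        (by split_ifs <;> positivity)]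
      refine add_le_add (ih (by omega)) ?_
      have hk' := hs k (by omega)
      have t1 := infDist_le_infDist_add_dist (x := x k) (y := x (k + 1)) (s := P)
      have t2 := infDist_le_infDist_add_dist (x := x (k + 1)) (y := x k) (s := P)
      rw [dist_comm] at t2
      split_ifs with h
      · refine (shift2 _ _ (r0 _) (r0 _) (r1 _) (r1 _)).trans (ENNReal.ofReal_le_ofReal ?_)
        have a1 := hπ.dist_le_mul (x k) ⟨hx _, hW _ (by linarith)⟩ (x (k + 1))
          ⟨hx _, hW _ (by linarith)⟩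
        have a2 := rl (x k) (x (k + 1))
        have := Real.pi_pos
        calc _ ≤ 2 * R * (lam * dist (x k) (x (k + 1))) +
              2 * Real.pi * R * (R / δ * dist (x k) (x (k + 1))) := by gcongr
          _ = _ := by rw [hc, hR]; ring
      · have : r (x (k + 1)) = 0 := by
          have : 2 - infDist (x (k + 1)) P / δ ≤ 0 := by
            rw [sub_nonpos, le_div_iff₀ hδ]; linarith [not_le.1 h]
          simp only [hr]
          rw [max_eq_left ((min_le_right _ _).trans this), mul_zero]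
        simp [this]
  refine le_trans (measure_mono ?_) (key n le_rfl)
  rintro _ ⟨y, hy, rfl⟩
  obtain ⟨i, hi, h⟩ := hd y hy
  have t : infDist (x i) P ≤ δ := (infDist_le_dist_of_mem hy).trans (by rw [dist_comm]; linarith)
  refine mem_iUnion₂.2 ⟨i, hi, ?_⟩
  have : r (x i) = R := by
    have : 1 ≤ 2 - infDist (x i) P / δ := by
      have : infDist (x i) P / δ ≤ 1 := by rwa [div_le_one hδ]
      linarith
    simp only [hr]
    rw [min_eq_left this, max_eq_right zero_le_one, mul_one]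
  rw [this, mem_ball]
  refine (hπ.dist_le_mul y ⟨hPS hy, hW _ (by rw [infDist_zero_of_mem hy]; positivity)⟩ (x i)
    ⟨hx _, hW _ (by linarith)⟩).trans_lt (by rw [hR]; gcongr)

lemma sample {γ : ℝ → E3} (hγ : ContinuousOn γ (Icc 0 1)) {τ : ℝ} (hτ : 0 < τ) :
    ∃ (u : ℕ → ℝ) (n : ℕ), Monotone u ∧ (∀ i, u i ∈ Icc (0 : ℝ) 1) ∧
      (∀ i < n, dist (γ (u i)) (γ (u (i + 1))) < τ) ∧
      ∀ t ∈ Icc (0 : ℝ) 1, ∃ i ≤ n, dist (γ t) (γ (u i)) < τ := by
  obtain ⟨σ, hσ, h⟩ := Metric.uniformContinuousOn_iff.1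
    (isCompact_Icc.uniformContinuousOn_of_continuous hγ) τ hτ
  obtain ⟨m, hm⟩ := exists_nat_one_div_lt hσ
  set n : ℕ := m + 1 with hn
  have hn0 : (0 : ℝ) < n := by rw [hn]; positivity
  have hm' : 1 / (n : ℝ) < σ := by rw [hn]; push_cast; exact hm
  have hu : ∀ i : ℕ, min 1 ((i : ℝ) / n) ∈ Icc (0 : ℝ) 1 := fun i =>
    ⟨le_min zero_le_one (by positivity), min_le_left _ _⟩
  have hu' : ∀ i : ℕ, i ≤ n → min 1 ((i : ℝ) / n) = i / n := fun i hi =>
    min_eq_right (by rw [div_le_one hn0]; exact_mod_cast hi)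
  refine ⟨fun i => min 1 (i / n), n, fun i j hij => min_le_min le_rfl (by gcongr), hu,
    fun i hi => h _ (hu _) _ (hu _) ?_, fun t ht => ?_⟩
  · beta_reduce
    rw [hu' i hi.le, hu' (i + 1) hi, Real.dist_eq]
    push_cast
    rw [show (i : ℝ) / n - (i + 1) / n = -(1 / n) by ring, abs_neg, abs_of_pos (by positivity)]
    exact hm'
  · have a1 : (⌊t * n⌋₊ : ℝ) ≤ t * n := Nat.floor_le (by have := ht.1; positivity)
    have a2 : t * n < ⌊t * n⌋₊ + 1 := Nat.lt_floor_add_one _
    have a3 : ⌊t * n⌋₊ ≤ n := by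
      have : (⌊t * n⌋₊ : ℝ) ≤ n := by nlinarith [ht.2]
      exact_mod_cast this
    refine ⟨_, a3, h _ ht _ (hu _) ?_⟩
    beta_reduce
    rw [hu' _ a3, Real.dist_eq, show t - (⌊t * n⌋₊ : ℝ) / n = (t * n - ⌊t * n⌋₊) / n by
      field_simp, abs_of_nonneg (div_nonneg (by linarith) hn0.le)]
    refine lt_of_le_of_lt ?_ hm'
    gcongr; linarith

lemma Nice.compacts {S G : Set E3} (hS : Nice S G) {lam : ℝ≥0} (hlam : 1 < lam) {a : ℝ}
    (ha : ENNReal.ofReal a < μHE[2] S) :
    ∃ (c : ℕ → Chart S lam) (P : ℕ → Set E3) (F : Finset ℕ),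
      (∀ n, LipschitzOnWith lam (c n).p (S ∩ (c n).O)) ∧ (∀ n, IsCompact (P n)) ∧
      (∀ n, P n ⊆ S ∩ (c n).O) ∧ Pairwise (Function.onFun Disjoint P) ∧
      (∀ n ∈ F, (P n).Nonempty) ∧ ENNReal.ofReal a < ∑ n ∈ F, μHE[2] (P n) := by
  classical
  obtain ⟨c, A, h1, h2, h3, h4, h5⟩ := hS.good_cover hlam
  have : IsFiniteMeasure ((μHE[2] : Measure E3).restrict S) :=
    ⟨by simpa using hS.finite.lt_top⟩
  obtain ⟨d, hd, hs⟩ := ENNReal.exists_pos_sum_of_countable' (tsub_pos_of_lt ha).ne' ℕ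
  choose P p1 p2 p3 using fun n => (h2 n).exists_isCompact_lt_add
    (μ := (μHE[2] : Measure E3).restrict S) (measure_ne_top _ _) (hd n).ne'
  have p4 : ∀ n, μHE[2] (A n) ≤ μHE[2] (P n) + d n := fun n => by
    have := p3 n
    rw [Measure.restrict_eq_self _ ((h3 n).trans inter_subset_left),
      Measure.restrict_eq_self _ (((p1 n).trans (h3 n)).trans inter_subset_left)] at this
    exact this.le
  have q1 : μHE[2] S ≤ ∑' n, μHE[2] (P n) + ∑' n, d n := by
    rw [← ENNReal.tsum_add]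
    refine (measure_le_inter_add_diff _ S G).trans ?_
    rw [hS.null, add_zero]
    exact (measure_mono h5).trans ((measure_iUnion_le _).trans (ENNReal.tsum_le_tsum p4))
  have q2 : ENNReal.ofReal a < ∑' n, μHE[2] (P n) := by
    by_contra h
    have := q1.trans_lt (ENNReal.add_lt_add_of_le_of_lt
      (ne_top_of_le_ne_top ENNReal.ofReal_ne_top (not_lt.1 h)) (not_lt.1 h) hs)
    rw [add_tsub_cancel_of_le ha.le] at this
    exact lt_irrefl _ this
  rw [ENNReal.tsum_eq_iSup_nat, lt_iSup_iff] at q2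
  obtain ⟨N, hN⟩ := q2
  refine ⟨c, P, (Finset.range N).filter fun n => (P n).Nonempty, h1, p2,
    fun n => (p1 n).trans (h3 n), fun i j hij => (h4 hij).mono (p1 i) (p1 j),
    fun n hn => (Finset.mem_filter.1 hn).2, ?_⟩
  rwa [Finset.sum_filter_of_ne]
  intro n _ hn
  by_contra h
  rw [not_nonempty_iff_eq_empty.1 h] at hn
  simp at hn

lemma Nice.lower {S G : Set E3} (hS : Nice S G) {b : ℝ≥0∞} (hb : b < μHE[2] S / 2) :
    ∀ᶠ ε in 𝓝[>] (0 : ℝ), b < ENNReal.ofReal ε * L S ε := by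
  classical
  obtain ⟨m, hm⟩ : ∃ m : ℝ≥0, μHE[2] S = m := ⟨_, (ENNReal.coe_toNNReal hS.finite).symm⟩
  obtain ⟨b', hb1, hb2⟩ := ENNReal.lt_iff_exists_nnreal_btwn.1 hb
  have hb3 : 2 * (b' : ℝ) < m := by
    rw [hm] at hb2
    have : b' < m / 2 := by
      rw [← ENNReal.coe_lt_coe, ENNReal.coe_div (by norm_num)]; exact_mod_cast hb2
    have : (b' : ℝ) < m / 2 := by exact_mod_cast this
    linarith
  have hb0 : (0 : ℝ) ≤ b' := b'.2
  obtain ⟨a, ha1, ha2⟩ := exists_between hb3
  have hc : ContinuousAt (fun t : ℝ≥0 => 2 * ((1 + t : ℝ≥0) : ℝ) ^ 5 * b') 0 := by fun_prop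
  have he : ∀ᶠ t : ℝ≥0 in 𝓝[>] 0, 2 * ((1 + t : ℝ≥0) : ℝ) ^ 5 * b' < a :=
    nhdsWithin_le_nhds (hc.eventually (gt_mem_nhds (by simpa using ha1)))
  obtain ⟨t, ht, ht0⟩ := (he.and self_mem_nhdsWithin).exists
  have ht0 : 0 < t := ht0
  set lam : ℝ≥0 := 1 + t with hlam
  have hl1 : 1 < lam := by simpa [hlam] using ht0
  have hl1' : (1 : ℝ) < lam := hl1
  obtain ⟨c, P, F, h1, h2, h3, h4, h5, h6⟩ := hS.compacts hl1 (a := a) (by
    rw [hm, ← ENNReal.ofReal_coe_nnreal]; exact (ENNReal.ofReal_lt_ofReal_iff (by linarith)).2 ha2)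
  have small : ∀ δ0 : ℝ, 0 < δ0 → ∀ᶠ δ : ℝ in 𝓝[>] 0, 4 * δ ≤ δ0 := fun δ0 h0 => by
    filter_upwards [Ioo_mem_nhdsGT (show (0 : ℝ) < δ0 / 4 by positivity)] with δ hδ
    linarith [hδ.2]
  have e1 : ∀ᶠ δ : ℝ in 𝓝[>] 0, ∀ j ∈ F, cthickening (4 * δ) (P j) ⊆ (c j).O := by
    rw [Filter.eventually_all_finset]
    intro j _
    obtain ⟨δ0, h0, h⟩ := (h2 j).exists_cthickening_subset_open (c j).hO
      ((h3 j).trans inter_subset_right)
    filter_upwards [small δ0 h0] with δ hδ using (cthickening_mono hδ _).trans h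
  have e2 : ∀ᶠ δ : ℝ in 𝓝[>] 0, ∀ j ∈ F, ∀ k ∈ F, j ≠ k →
      Disjoint (cthickening (4 * δ) (P j)) (cthickening (4 * δ) (P k)) := by
    simp only [Filter.eventually_all_finset]
    intro j _ k _
    rcases eq_or_ne j k with rfl | hjk
    · simp
    obtain ⟨δ0, h0, h⟩ := (h4 hjk).exists_cthickenings (h2 j) (h2 k).isClosed
    filter_upwards [small δ0 h0] with δ hδ _ using
      h.mono (cthickening_mono hδ _) (cthickening_mono hδ _)
  obtain ⟨δ, ⟨d1, d2⟩, hδ⟩ := ((e1.and e2).and self_mem_nhdsWithin).exists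
  have hδ : 0 < δ := hδ
  have near : ∀ j ∈ F, ∀ y, infDist y (P j) ≤ 4 * δ → y ∈ cthickening (4 * δ) (P j) := by
    intro j hj y hy
    obtain ⟨z, hz, e⟩ := (h2 j).exists_infDist_eq_dist (h5 j hj) y
    exact mem_cthickening_of_dist_le y z _ _ hz (e ▸ hy)
  have c1 : ContinuousAt (fun ε : ℝ => (lam : ℝ) ^ 2 * (F.card * (Real.pi * (lam * (lam * ε)) ^ 2) +
      (2 * lam ^ 3 + 2 * Real.pi * lam ^ 4 * ε / δ) * b')) 0 := by fun_prop
  have c2 : ContinuousAt (fun ε : ℝ => (lam : ℝ) * ε) 0 := by fun_prop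
  filter_upwards [nhdsWithin_le_nhds (c1.eventually (gt_mem_nhds (a := a) (by
    simp only [mul_zero, zero_div, add_zero, ne_eq, OfNat.ofNat_ne_zero, not_false_eq_true,
      zero_pow, zero_add]; linarith))), nhdsWithin_le_nhds (c2.eventually (gt_mem_nhds (a := δ)
      (by simpa using hδ))), self_mem_nhdsWithin] with ε k1 k2 hε
  have hε : 0 < ε := hε
  have main : ENNReal.ofReal (b' / ε) ≤ L S ε := by
    refine le_iInf fun γ => le_iInf fun hγ => le_iInf fun hd => ?_
    by_contra hlt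
    obtain ⟨u, n, u1, u2, u3, u4⟩ := sample hγ.1 (τ := min δ ((lam - 1) * ε))
      (lt_min hδ (mul_pos (by linarith) hε))
    set x : ℕ → E3 := fun i => γ (u i) with hx
    have s1 : ∑ i ∈ Finset.range n, dist (x i) (x (i + 1)) ≤ b' / ε := by
      have := (eVariationOn.sum_le (f := γ) (n := n) u1 u2).trans (not_le.1 hlt).le
      simp only [edist_dist] at this
      rw [← ENNReal.ofReal_sum_of_nonneg fun _ _ => dist_nonneg,
        ENNReal.ofReal_le_ofReal_iff (by positivity)] at this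
      simpa only [dist_comm] using this
    have dense : ∀ y ∈ S, ∃ i ≤ n, dist y (x i) < lam * ε := fun y hy => by
      obtain ⟨t, ht, h⟩ := hd y hy
      obtain ⟨i, hi, h'⟩ := u4 t ht
      have h'' := (edist_le_idist S y (γ t)).trans h
      rw [edist_dist, ENNReal.ofReal_le_ofReal_iff hε.le] at h''
      refine ⟨i, hi, (dist_triangle _ (γ t) _).trans_lt ?_⟩
      have := h'.trans_le (min_le_right _ _)
      linarith
    set κ : ℝ := 2 * lam ^ 2 * (lam * ε) + 2 * Real.pi * (lam * (lam * ε)) ^ 2 / δ with hκ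
    have hκ0 : 0 ≤ κ := by have := Real.pi_pos; positivity
    set w : ℕ → ℕ → ℝ := fun j i =>
      if infDist (x i) (P j) ≤ 3 * δ then dist (x i) (x (i + 1)) else 0 with hw
    have w0 : ∀ j i, 0 ≤ w j i := fun j i => by simp only [hw]; split_ifs <;> positivity
    have pos : ∀ j, 0 ≤ (lam : ℝ) ^ 2 * (Real.pi * (lam * (lam * ε)) ^ 2 +
        κ * ∑ i ∈ Finset.range n, w j i) := fun j => by
      have := Real.pi_pos
      have := Finset.sum_nonneg (s := Finset.range n) fun i _ => w0 j i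
      positivity
    have each : ∀ j ∈ F, μHE[2] (P j) ≤ ENNReal.ofReal ((lam : ℝ) ^ 2 *
        (Real.pi * (lam * (lam * ε)) ^ 2 + κ * ∑ i ∈ Finset.range n, w j i)) := by
      intro j hj
      have := piece (h1 j) ((h3 j).trans inter_subset_left) (ρ := lam * ε) (by positivity) k2.le
        (zero_lt_one.trans hl1) (fun y hy => d1 j hj (near j hj y hy)) (x := x) (n := n)
        (fun i => hγ.2 (u2 i)) (fun i hi => ((u3 i hi).trans_le (min_le_left _ _)).le)
        (fun y hy => dense y (h3 j hy).1)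
      refine ((c j).mu_le (h3 j)).trans ?_
      rw [ENNReal.ofReal_mul (by positivity), ENNReal.ofReal_pow (by positivity),
        ENNReal.ofReal_coe_nnreal]
      exact mul_le_mul_right (by convert this) _
    have tot := h6.trans_le (Finset.sum_le_sum each)
    rw [← ENNReal.ofReal_sum_of_nonneg fun j _ => pos j] at tot
    have tot' := (ENNReal.ofReal_lt_ofReal_iff'.1 tot).1
    have s2 : ∑ j ∈ F, ∑ i ∈ Finset.range n, w j i ≤ b' / ε := by
      rw [Finset.sum_comm]
      refine le_trans (Finset.sum_le_sum fun i _ => ?_) s1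
      simp only [hw]
      rw [← Finset.sum_filter, Finset.sum_const, nsmul_eq_mul]
      refine mul_le_of_le_one_left dist_nonneg ?_
      have : (F.filter fun j => infDist (x i) (P j) ≤ 3 * δ).card ≤ 1 := by
        rw [Finset.card_le_one]
        intro j hj k hk
        obtain ⟨j1, j2⟩ := Finset.mem_filter.1 hj
        obtain ⟨l1, l2⟩ := Finset.mem_filter.1 hk
        by_contra h
        exact disjoint_left.1 (d2 j j1 k l1 h) (near j j1 (x i) (by linarith))
          (near k l1 (x i) (by linarith))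
      exact_mod_cast this
    rw [← Finset.mul_sum, Finset.sum_add_distrib, Finset.sum_const, nsmul_eq_mul,
      ← Finset.mul_sum] at tot'
    have s3 : κ * ∑ j ∈ F, ∑ i ∈ Finset.range n, w j i ≤
        (2 * lam ^ 3 + 2 * Real.pi * lam ^ 4 * ε / δ) * b' := by
      refine (mul_le_mul_of_nonneg_left s2 hκ0).trans (le_of_eq ?_)
      rw [hκ]; field_simp
    have s4 := mul_le_mul_of_nonneg_left s3 (show (0 : ℝ) ≤ lam ^ 2 by positivity)
    have k1 : (lam : ℝ) ^ 2 * (F.card * (Real.pi * (lam * (lam * ε)) ^ 2) +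
      (2 * lam ^ 3 + 2 * Real.pi * lam ^ 4 * ε / δ) * b') < a := k1
    rw [mul_add] at k1 tot'
    linarith
  refine hb1.trans_le (le_trans (le_of_eq ?_) (mul_le_mul_right main _))
  rw [← ENNReal.ofReal_mul hε.le, mul_div_cancel₀ _ hε.ne', ENNReal.ofReal_coe_nnreal]

theorem Nice.tendsto {S G : Set E3} (hS : Nice S G) :
    Tendsto (fun ε : ℝ => ENNReal.ofReal ε * L S ε) (𝓝[>] 0) (𝓝 (μHE[2] S / 2)) :=
  tendsto_order.2 ⟨fun _ hb => hS.lower hb, fun _ hb => hS.upper hb⟩

end H81Dense
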