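import Pool.Agent.H81.Dense3

namespace H81Dense
open Set MeasureTheory Metric Filter Topology Module
open scoped ENNReal NNReal InnerProductSpace

structure Gauge (g : E3 → ℝ) (C : ℝ≥0) (M : ℝ) : Prop where
  hom : ∀ t, 0 ≤ t → ∀ x, g (t • x) = t * g x
  conv : ConvexOn ℝ univ g
  lip : LipschitzWith C g
  M0 : 0 < M
  low : ∀ x, ‖x‖ ≤ M * g x

noncomputable def R (g : E3 → ℝ) (x : E3) : E3 := (g x)⁻¹ • x

lemma radial (x y : E3) {a b : ℝ} (ha : 0 < a) (hb : 0 < b) :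
    dist (a⁻¹ • x) (b⁻¹ • y) ≤ (dist x y + ‖b⁻¹ • y‖ * |a - b|) / a := by
  have : a⁻¹ • x - b⁻¹ • y = a⁻¹ • ((x - y) - (a - b) • (b⁻¹ • y)) := by
    rw [smul_smul, sub_sub, smul_sub]
    congr 1
    rw [show y + ((a - b) * b⁻¹) • y = (1 + (a - b) * b⁻¹) • y by rw [add_smul, one_smul],
      smul_smul]
    congr 1; field_simp; ring
  rw [dist_eq_norm, dist_eq_norm, this, norm_smul, norm_inv, Real.norm_of_nonneg ha.le,
    div_eq_inv_mul]
  gcongr
  refine (norm_sub_le _ _).trans (le_of_eq ?_)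
  rw [norm_smul (a - b), Real.norm_eq_abs, mul_comm]

variable {g : E3 → ℝ} {C : ℝ≥0} {M : ℝ}

lemma Gauge.pos (h : Gauge g C M) {x : E3} (hx : x ≠ 0) : 0 < g x :=
  pos_of_mul_pos_of_pos_left' ((norm_pos_iff.2 hx).trans_le (h.low x)) h.M0
where pos_of_mul_pos_of_pos_left' {a b : ℝ} (h : 0 < a * b) (ha : 0 < a) : 0 < b :=
  (mul_pos_iff_of_pos_left ha).1 h

lemma Gauge.gR (h : Gauge g C M) {x : E3} (hx : 0 < g x) : g (R g x) = 1 := by
  rw [R, h.hom _ (by positivity)]; field_simp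

lemma Gauge.normS (h : Gauge g C M) {x : E3} (hx : g x = 1) : ‖x‖ ≤ M := by
  simpa [hx] using h.low x

lemma Gauge.ne0 (h : Gauge g C M) {x : E3} (hx : g x = 1) : x ≠ 0 := by
  rintro rfl
  have := h.hom 0 le_rfl 0
  simp [hx] at this

lemma Gauge.R_smul (h : Gauge g C M) {x : E3} (hx : g x = 1) {t : ℝ} (ht : 0 < t) :
    R g (t • x) = x := by
  rw [R, h.hom _ ht.le, hx, smul_smul]; simp [ht.ne']

lemma Gauge.R_dist (h : Gauge g C M) {x y : E3} {m η : ℝ} (hm : 0 < m) (hη : 0 ≤ η) (hx : m ≤ g x)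
    (hy : m ≤ g y) (hd : |g x - g y| ≤ η * dist x y) :
    dist (R g x) (R g y) ≤ (1 + M * η) / m * dist x y := by
  have := h.M0
  refine (radial x y (hm.trans_le hx) (hm.trans_le hy)).trans ?_
  have h1 : ‖(g y)⁻¹ • y‖ ≤ M := h.normS (h.gR (hm.trans_le hy))
  calc _ ≤ (dist x y + M * (η * dist x y)) / m := by gcongr
    _ = _ := by ring

lemma plane {n : E3} (hn : n ≠ 0) : ∃ (ι : ℂ → E3) (τ : E3 →L[ℝ] ℂ), Isometry ι ∧
    (∀ z, ⟪n, ι z⟫_ℝ = 1) ∧ ∀ y, ⟪n, y⟫_ℝ = 1 → ι (τ y) = y := by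
  have : Fact (finrank ℝ E3 = 2 + 1) := ⟨by simp⟩
  have hn' : ‖n‖ ^ 2 ≠ 0 := by positivity
  let J : ℂ ≃ₗᵢ[ℝ] (ℝ ∙ n)ᗮ := Complex.orthonormalBasisOneI.repr.trans
    (OrthonormalBasis.fromOrthogonalSpanSingleton 2 hn).repr.symm
  let P0 : E3 →ₗ[ℝ] E3 := LinearMap.id - ((innerSL ℝ n : E3 →ₗ[ℝ] ℝ).smulRight ((‖n‖ ^ 2)⁻¹ • n))
  have hP0 : ∀ y, P0 y = y - ⟪n, y⟫_ℝ • ((‖n‖ ^ 2)⁻¹ • n) := fun y => rfl
  let P1 : E3 →ₗ[ℝ] (ℝ ∙ n)ᗮ := P0.codRestrict _ fun y => by
    rw [Submodule.mem_orthogonal_singleton_iff_inner_right, hP0, inner_sub_right, inner_smul_right,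
      inner_smul_right, real_inner_self_eq_norm_sq]
    field_simp; ring
  refine ⟨fun z => (‖n‖ ^ 2)⁻¹ • n + (J z : E3),
    LinearMap.toContinuousLinearMap (J.symm.toLinearEquiv.toLinearMap ∘ₗ P1),
    Isometry.of_dist_eq fun a b => ?_, fun z => ?_, fun y hy => ?_⟩
  · rw [dist_add_left, ← Subtype.dist_eq, J.dist_map]
  · rw [inner_add_right, inner_smul_right, real_inner_self_eq_norm_sq,
      Submodule.mem_orthogonal_singleton_iff_inner_right.1 (J z).2]
    field_simp; ring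
  · have : J (LinearMap.toContinuousLinearMap (J.symm.toLinearEquiv.toLinearMap ∘ₗ P1) y) = P1 y :=
      J.apply_symm_apply _
    simp only [this]
    change _ + P0 y = y
    rw [hP0, hy, one_smul]; abel

lemma contP (n : E3) : ContinuousOn (fun y : E3 => (⟪n, y⟫_ℝ)⁻¹ • y) {y | 0 < ⟪n, y⟫_ℝ} :=
  ContinuousOn.smul (ContinuousOn.inv₀ (f := fun y : E3 => ⟪n, y⟫_ℝ) (by fun_prop)
    fun _ hy => ne_of_gt hy) continuousOn_id

lemma inner_P {n y : E3} (hy : 0 < ⟪n, y⟫_ℝ) : ⟪n, (⟪n, y⟫_ℝ)⁻¹ • y⟫_ℝ = 1 := by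
  rw [inner_smul_right]; field_simp

lemma Gauge.bad (h : Gauge g C M) {x : E3} (hx : g x = 1) :
    ∃ (Λ : ℝ≥0) (c : Chart {y | g y = 1} Λ), 0 < Λ ∧ x ∈ c.O ∧
      volume (c.p '' (({y | g y = 1} \ {y | DifferentiableAt ℝ g y}) ∩ c.O)) = 0 := by
  have hx0 := h.ne0 hx
  have hM := h.M0
  have hn : 0 < ‖x‖ := norm_pos_iff.2 hx0
  obtain ⟨ι, τ, i1, i2, i3⟩ := plane hx0
  have lowg : ∀ z, (M * ‖x‖)⁻¹ ≤ g (ι z) := fun z => by
    have a1 := real_inner_le_norm x (ι z)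
    have a2 := h.low (ι z)
    rw [i2] at a1
    rw [inv_le_iff_one_le_mul₀ (by positivity)]
    nlinarith
  have hO : IsOpen {y : E3 | 0 < ⟪x, y⟫_ℝ} := isOpen_lt (by fun_prop) (by fun_prop)
  refine ⟨⟨(1 + M * C) / (M * ‖x‖)⁻¹, by positivity⟩,
    ⟨{y | 0 < ⟪x, y⟫_ℝ}, fun y => τ ((⟪x, y⟫_ℝ)⁻¹ • y), fun z => R g (ι z), univ, hO,
      τ.continuous.comp_continuousOn (contP x), isOpen_univ, mapsTo_univ _ _,
      LipschitzOnWith.of_dist_le_mul fun a _ b _ => ?_,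
      fun z _ => h.gR (lt_of_lt_of_le (by positivity) (lowg z)), fun y hy => ?_⟩,
    by rw [← NNReal.coe_pos]; change 0 < (1 + M * C) / (M * ‖x‖)⁻¹; positivity,
    real_inner_self_pos.2 hx0, ?_⟩
  · rw [← i1.dist_eq a b]
    exact h.R_dist (by positivity) C.2 (lowg a) (lowg b) (h.lip.dist_le_mul _ _)
  · rw [i3 _ (inner_P hy.2)]
    exact h.R_smul hy.1 (inv_pos.2 hy.2)
  · have ae := (h.lip.comp i1.lipschitz).ae_differentiableAt (μ := volume)
    refine measure_mono_null ?_ (ae_iff.1 ae)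
    rintro _ ⟨y, ⟨⟨-, hy2⟩, hy3⟩, rfl⟩ hd
    refine hy2 ?_
    have hy3 : 0 < ⟪x, y⟫_ℝ := hy3
    have d0 : DifferentiableAt ℝ (fun y : E3 => ⟪x, y⟫_ℝ) y := (innerSL ℝ x).differentiableAt
    have d1 : DifferentiableAt ℝ (fun y : E3 => τ ((⟪x, y⟫_ℝ)⁻¹ • y)) y :=
      τ.differentiableAt.comp y ((d0.inv hy3.ne').smul differentiableAt_id)
    have d2 := d0.mul (DifferentiableAt.comp (g := g ∘ ι) y hd d1)
    refine d2.congr_of_eventuallyEq ?_
    filter_upwards [hO.mem_nhds hy3] with w hw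
    have hw : 0 < ⟪x, w⟫_ℝ := hw
    simp only [Pi.mul_apply, Function.comp]
    rw [i3 _ (inner_P hw), h.hom _ (by positivity)]
    field_simp

lemma Gauge.good (h : Gauge g C M) {x : E3} (hx : g x = 1) (hd : DifferentiableAt ℝ g x)
    {lam : ℝ≥0} (hlam : 1 < lam) : ∃ c : Chart {y | g y = 1} lam, x ∈ c.O ∧
      LipschitzOnWith lam c.p ({y | g y = 1} ∩ c.O) := by
  have hM := h.M0
  have hl : (1 : ℝ) < lam := hlam
  set n : E3 := (InnerProductSpace.toDual ℝ E3).symm (fderiv ℝ g x) with hn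
  have hnl : ∀ y, ⟪n, y⟫_ℝ = fderiv ℝ g x y := fun y => InnerProductSpace.toDual_symm_apply
  have euler : ⟪n, x⟫_ℝ = 1 := by
    have a1 : HasDerivAt (fun t : ℝ => t • x) x 1 := by simpa using (hasDerivAt_id (1 : ℝ)).smul_const x
    have a2 : HasFDerivAt g (fderiv ℝ g x) ((fun t : ℝ => t • x) 1) := by simpa using hd.hasFDerivAt
    have a3 := a2.comp_hasDerivAt 1 a1
    have a4 : HasDerivAt (g ∘ fun t : ℝ => t • x) 1 1 := by
      refine (hasDerivAt_id (1 : ℝ)).congr_of_eventuallyEq ?_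
      filter_upwards [Ioi_mem_nhds (zero_lt_one' ℝ)] with t ht
      simp [h.hom t (le_of_lt ht), hx]
    rw [hnl]; exact a3.unique a4
  have hn0 : n ≠ 0 := by rintro h0; simp [h0] at euler
  obtain ⟨ι, τ, i1, i2, i3⟩ := plane hn0
  have c1 : ContinuousAt (fun η : ℝ => (1 + 2 * M * η) / (1 - η)) 0 := by
    fun_prop (disch := norm_num)
  have ev : ∀ᶠ η : ℝ in 𝓝[>] 0, (1 + 2 * M * η) / (1 - η) < lam :=
    nhdsWithin_le_nhds (c1.eventually (gt_mem_nhds (a := (lam : ℝ)) (by simpa using hl)))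
  obtain ⟨η, e1, e0, e2⟩ := (ev.and (Ioo_mem_nhdsGT (show (0 : ℝ) < 1 / 2 by norm_num))).exists
  set k : E3 → ℝ := fun y => g y - ⟪n, y⟫_ℝ with hk
  obtain ⟨r, hr, k1, k2⟩ : ∃ r > 0, (∀ y ∈ ball x r, |k y| ≤ η) ∧
      ∀ y ∈ ball x r, ∀ z ∈ ball x r, |k y - k z| ≤ η * dist y z := by
    have := (hasFDerivAt_iff_isLittleO.1 hd.hasFDerivAt).bound (show 0 < η / 4 by positivity)
    obtain ⟨s, hs, hb⟩ := Metric.eventually_nhds_iff.1 this
    set r := min (s / 2) 1 with hr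
    have hr0 : 0 < r := by positivity
    have hr1 : r ≤ s / 2 := min_le_left _ _
    have hr2 : r ≤ 1 := min_le_right _ _
    have kb : ∀ y, dist y x < 2 * r → |k y| ≤ η / 4 * (2 * r) := fun y hy => by
      have := hb (hy.trans_le (by linarith))
      rw [← hnl, inner_sub_right, euler, hx, ← dist_eq_norm y x, Real.norm_eq_abs] at this
      rw [show k y = g y - 1 - (⟪n, y⟫_ℝ - 1) by simp [hk]]
      exact this.trans (by gcongr)
    have kc : ConvexOn ℝ (ball x (2 * r)) k :=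
      (h.conv.subset (subset_univ _) (convex_ball _ _)).sub
        ((innerSL ℝ n : E3 →ₗ[ℝ] ℝ).concaveOn (convex_ball _ _))
    have := kc.lipschitzOnWith_of_abs_le hr0 kb
    rw [show 2 * r - r = r by ring] at this
    refine ⟨r, hr0, fun y hy => (kb y (by linarith [mem_ball.1 hy])).trans (by nlinarith),
      fun y hy z hz => ?_⟩
    have := this.dist_le_mul y hy z hz
    rw [Real.coe_toNNReal _ (by positivity), show 2 * (η / 4 * (2 * r)) / r = η by
      field_simp; ring] at this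
    exact this
  have hO : IsOpen {y : E3 | 0 < ⟪n, y⟫_ℝ} := isOpen_lt (by fun_prop) (by fun_prop)
  have gl : ∀ z, ι z ∈ ball x r → 1 - η ≤ g (ι z) := fun z hz => by
    have := (abs_le.1 (k1 _ hz)).1
    simp only [hk, i2] at this; linarith
  refine ⟨⟨ball x r ∩ ({y | 0 < ⟪n, y⟫_ℝ} ∩ (fun y : E3 => (⟪n, y⟫_ℝ)⁻¹ • y) ⁻¹' ball x r),
    fun y => τ ((⟪n, y⟫_ℝ)⁻¹ • y), fun z => R g (ι z), ι ⁻¹' ball x r,
    isOpen_ball.inter ((contP n).isOpen_inter_preimage hO isOpen_ball),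
    (τ.continuous.comp_continuousOn (contP n)).mono fun y hy => hy.2.1,
    isOpen_ball.preimage i1.continuous, fun y hy => ?_,
    LipschitzOnWith.of_dist_le_mul fun a ha b hb => ?_,
    fun z hz => h.gR (lt_of_lt_of_le (by linarith) (gl z hz)), fun y hy => ?_⟩,
    ⟨mem_ball_self hr, by simp [euler], by simp [euler, hr]⟩,
    LipschitzOnWith.of_dist_le_mul fun a ha b hb => ?_⟩
  · simp only [mem_preimage]
    rw [i3 _ (inner_P hy.2.2.1)]; exact hy.2.2.2
  · rw [← i1.dist_eq a b]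
    refine (h.R_dist (m := 1 - η) (by linarith) e0.le (gl a ha) (gl b hb) ?_).trans ?_
    · simpa [hk, i2] using k2 _ ha _ hb
    · gcongr
      refine le_trans ?_ e1.le
      gcongr
      · linarith
      · linarith
  · beta_reduce
    rw [i3 _ (inner_P hy.2.2.1)]
    exact h.R_smul hy.1 (inv_pos.2 hy.2.2.1)
  · obtain ⟨a1, a2, a3, -⟩ := ha
    obtain ⟨b1, b2, b3, -⟩ := hb
    have a1 : g a = 1 := a1
    have b1 : g b = 1 := b1
    beta_reduce
    rw [← i1.dist_eq, i3 _ (inner_P a3), i3 _ (inner_P b3)]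
    refine (radial a b a3 b3).trans ?_
    have a4 : 1 - η ≤ ⟪n, a⟫_ℝ := by
      have := (abs_le.1 (k1 _ a2)).2
      simp only [hk, a1] at this; linarith
    have b4 : 1 - η ≤ ⟪n, b⟫_ℝ := by
      have := (abs_le.1 (k1 _ b2)).2
      simp only [hk, b1] at this; linarith
    have h1 : ‖(⟪n, b⟫_ℝ)⁻¹ • b‖ ≤ 2 * M := by
      rw [norm_smul, norm_inv, Real.norm_of_nonneg (by linarith)]
      have : (⟪n, b⟫_ℝ)⁻¹ ≤ 2 := by rw [inv_le_comm₀ (by linarith) (by norm_num)]; linarith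
      have := h.normS b1
      gcongr
    have h2 : |⟪n, a⟫_ℝ - ⟪n, b⟫_ℝ| ≤ η * dist a b := by
      have := k2 _ a2 _ b2
      simp only [hk, a1, b1] at this
      rwa [show 1 - ⟪n, a⟫_ℝ - (1 - ⟪n, b⟫_ℝ) = -(⟪n, a⟫_ℝ - ⟪n, b⟫_ℝ) by ring, abs_neg] at this
    have : 0 < 1 - η := by linarith
    calc _ ≤ (dist a b + 2 * M * (η * dist a b)) / (1 - η) := by gcongr
      _ = (1 + 2 * M * η) / (1 - η) * dist a b := by ring
      _ ≤ _ := by gcongr

lemma Gauge.conn1 (h : Gauge g C M) {p q : E3} (hp : g p = 1) (hq : g q = 1)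
    (h0 : (0 : E3) ∉ segment ℝ p q) :
    ∃ l : ℝ, 0 ≤ l ∧ Trip {y | g y = 1} p q ∅ (ENNReal.ofReal l) := by
  have hM := h.M0
  have cs : IsCompact (segment ℝ p q) := by
    rw [segment_eq_image_lineMap]; exact isCompact_Icc.image (by fun_prop)
  obtain ⟨z, hz, hm⟩ := cs.exists_isMinOn ⟨p, left_mem_segment _ _ _⟩
    h.lip.continuous.continuousOn
  have hz0 : 0 < g z := h.pos (by rintro rfl; exact h0 hz)
  have := trip_seg (S := {y | g y = 1}) (ψ := R g) (lam := ⟨(1 + M * C) / g z, by positivity⟩)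
    (convex_segment p q) (LipschitzOnWith.of_dist_le_mul fun a ha b hb =>
      h.R_dist hz0 C.2 (hm ha) (hm hb) (h.lip.dist_le_mul _ _))
    (fun y hy => h.gR (hz0.trans_le (hm hy))) (left_mem_segment _ _ _) (right_mem_segment _ _ _)
  have e1 : R g p = p := by simp [R, hp]
  have e2 : R g q = q := by simp [R, hq]
  rw [e1, e2] at this
  exact ⟨_, by positivity, this.mono (empty_subset _) le_rfl⟩

lemma Gauge.conn (h : Gauge g C M) {p q : E3} (hp : g p = 1) (hq : g q = 1) :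
    ∃ l : ℝ, 0 ≤ l ∧ Trip {y | g y = 1} p q ∅ (ENNReal.ofReal l) := by
  classical
  obtain ⟨w, hw⟩ := Submodule.exists_of_finrank_lt (Submodule.span ℝ ({p, q} : Set E3)) (by
    have := finrank_span_le_card (R := ℝ) ({p, q} : Set E3)
    have h2 : ({p, q} : Set E3).toFinset.card ≤ 2 := by
      simpa using Finset.card_le_two (a := p) (b := q)
    simp only [finrank_euclideanSpace, Fintype.card_fin]; omega)
  have hw0 : w ≠ 0 := by rintro rfl; exact hw 1 one_ne_zero (by simp)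
  have gw := h.pos hw0
  have key : ∀ v ∈ Submodule.span ℝ ({p, q} : Set E3), g v = 1 → (0 : E3) ∉ segment ℝ v (R g w) := by
    rintro v hv gv ⟨a, b, -, -, hab, e⟩
    have hb : b ≠ 0 := by
      rintro rfl
      rw [add_zero] at hab
      simp [hab] at e
      exact h.ne0 gv e
    refine hw (b * (g w)⁻¹) (by positivity) ?_
    rw [← smul_smul, show b • (g w)⁻¹ • w = -(a • v) from eq_neg_of_add_eq_zero_right e]
    exact Submodule.neg_mem _ (Submodule.smul_mem _ _ hv)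
  obtain ⟨l1, h1, t1⟩ := h.conn1 hp (h.gR gw) (key p (Submodule.subset_span (by simp)) hp)
  obtain ⟨l2, h2, t2⟩ := h.conn1 (h.gR gw) hq
    (by rw [segment_symm]; exact key q (Submodule.subset_span (by simp)) hq)
  exact ⟨l1 + l2, by positivity, (t1.trans t2).mono (empty_subset _)
    (by rw [ENNReal.ofReal_add h1 h2])⟩

lemma Gauge.nice (h : Gauge g C M) : Nice {y | g y = 1} {y | DifferentiableAt ℝ g y} where
  cpt := (isCompact_closedBall (0 : E3) M).of_isClosed_subset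
    (isClosed_eq h.lip.continuous continuous_const) fun y hy => by simpa using h.normS hy
  ne := by
    obtain ⟨w, hw⟩ := exists_ne (0 : E3)
    exact ⟨_, h.gR (h.pos hw)⟩
  conn := fun _ hp _ hq => h.conn hp hq
  bad := fun _ hx => h.bad hx
  good := fun _ hx _ hl => h.good hx.1 hx.2 hl

def Chart.shift {S : Set E3} {lam : ℝ≥0} (ch : Chart S lam) (c : E3) :
    Chart ((fun y => y - c) ⁻¹' S) lam where
  O := (fun y => y - c) ⁻¹' ch.O
  p := fun y => ch.p (y - c)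
  ψ := fun z => ch.ψ z + c
  V := ch.V
  hO := ch.hO.preimage (by fun_prop)
  hp := ch.hp.comp (by fun_prop) fun _ hy => hy
  hV := ch.hV
  mp := fun _ hy => ch.mp hy
  lip := LipschitzOnWith.of_dist_le_mul fun a ha b hb => by
    rw [dist_add_right]; exact ch.lip.dist_le_mul a ha b hb
  mS := fun z hz => by simpa using ch.mS hz
  inv := fun y hy => by rw [ch.inv (y - c) hy]; simp

lemma Nice.shift {S G : Set E3} (hS : Nice S G) (c : E3) :
    Nice ((fun y => y - c) ⁻¹' S) ((fun y => y - c) ⁻¹' G) where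
  cpt := (Homeomorph.subRight c).isCompact_preimage.2 hS.cpt
  ne := by obtain ⟨x, hx⟩ := hS.ne; exact ⟨x + c, by simpa using hx⟩
  conn := fun p hp q hq => by
    obtain ⟨l, hl, γ, ⟨h1, h2⟩, h3, h4, -, h5⟩ := hS.conn _ hp _ hq
    refine ⟨l, hl, fun t => γ t + c, ⟨by fun_prop, fun t ht => by simpa using h2 ht⟩,
      by simp [h3], by simp [h4], empty_subset _, le_trans ?_ h5⟩
    have := ((isometry_add_right c).lipschitz.lipschitzOnWith (s := univ)).comp_eVariationOn_le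
      (g := γ) (s := Icc 0 1) (mapsTo_univ _ _)
    rw [ENNReal.coe_one, one_mul] at this
    exact this
  bad := fun x hx => by
    obtain ⟨Λ, ch, h1, h2, h3⟩ := hS.bad _ hx
    refine ⟨Λ, ch.shift c, h1, h2, measure_mono_null ?_ h3⟩
    rintro _ ⟨y, hy, rfl⟩
    exact ⟨y - c, hy, rfl⟩
  good := fun x hx lam hl => by
    obtain ⟨ch, h1, h2⟩ := hS.good (x - c) hx lam hl
    refine ⟨ch.shift c, h1, LipschitzOnWith.of_dist_le_mul fun a ha b hb => ?_⟩
    have := h2.dist_le_mul (a - c) ha (b - c) hb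
    rwa [dist_sub_right] at this

theorem nice_frontier {K : Set E3} (hK : IsCompact K) (hc : Convex ℝ K)
    (hi : (interior K).Nonempty) : ∃ G, Nice (frontier K) G := by
  obtain ⟨c, hcK⟩ := hi
  set K' : Set E3 := (fun y => y + c) ⁻¹' K with hK'
  have k1 : IsCompact K' := (Homeomorph.addRight c).isCompact_preimage.2 hK
  have k2 : Convex ℝ K' := hc.translate_preimage_left c
  have k3 : K' ∈ 𝓝 (0 : E3) := (continuous_add_right c).continuousAt.preimage_mem_nhds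
    (by simpa using mem_interior_iff_mem_nhds.1 hcK)
  have k4 := absorbent_nhds_zero (𝕜 := ℝ) k3
  obtain ⟨C, hC⟩ := k2.lipschitz_gauge k3
  obtain ⟨M, hM, hb⟩ := k1.isBounded.subset_closedBall_lt 0 0
  have hg : Gauge (gauge K') C M :=
    ⟨fun t ht x => gauge_smul_of_nonneg ht x, ⟨convex_univ, fun x _ y _ a b ha hb _ =>
      (gauge_add_le k2 k4 _ _).trans (by rw [gauge_smul_of_nonneg ha, gauge_smul_of_nonneg hb])⟩,
      hC, hM, fun x => by
        have := le_gauge_of_subset_closedBall (x := x) k4 hM.le hb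
        rwa [div_le_iff₀' hM] at this⟩
  have e : frontier K = (fun y => y - c) ⁻¹' {y | gauge K' y = 1} := by
    ext y
    simp only [mem_preimage, mem_setOf_eq, gauge_eq_one_iff_mem_frontier k2 k3]
    have := (Homeomorph.addRight c).preimage_frontier K
    rw [show frontier K' = (Homeomorph.addRight c) ⁻¹' frontier K from this.symm]
    simp
  exact ⟨_, e ▸ hg.nice.shift c⟩

end H81Dense
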