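import Mathlib

namespace H81Dense
open Set
open scoped ENNReal

variable {E : Type*} [PseudoEMetricSpace E]

/-- a curve in `S`: a continuous map `[0,1] → S` -/
def IsCurve (S : Set E) (γ : ℝ → E) : Prop := ContinuousOn γ (Icc 0 1) ∧ MapsTo γ (Icc 0 1) S

/-- length of a curve (total variation on `[0,1]`) -/
noncomputable def len (γ : ℝ → E) : ℝ≥0∞ := eVariationOn γ (Icc 0 1)

/-- intrinsic distance in `S`: infimum of lengths of curves in `S` from `x` to `y` -/
noncomputable def idist (S : Set E) (x y : E) : ℝ≥0∞ :=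
  ⨅ (γ : ℝ → E) (_ : IsCurve S γ) (_ : γ 0 = x) (_ : γ 1 = y), len γ

/-- `L_S(ε)`: infimum of lengths of curves in `S` that are `ε`-dense for the intrinsic distance -/
noncomputable def L (S : Set E) (ε : ℝ) : ℝ≥0∞ :=
  ⨅ (γ : ℝ → E) (_ : IsCurve S γ)
    (_ : ∀ x ∈ S, ∃ t ∈ Icc (0 : ℝ) 1, idist S x (γ t) ≤ ENNReal.ofReal ε), len γ

end H81Dense
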