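import Mathlib

namespace Pool.Agent.H81.Plane

open Set MeasureTheory
open scoped RealInnerProductSpace

abbrev E2 := EuclideanSpace ℝ (Fin 2)
abbrev E3 := EuclideanSpace ℝ (Fin 3)

theorem mp2 : MeasurePreserving (fun x : E2 => (x 0, x 1)) volume volume :=
  (volume_preserving_finTwoArrow ℝ).comp (PiLp.volume_preserving_ofLp (Fin 2))

theorem vol_region {f g : ℝ → ℝ} {a b : ℝ} (hab : a ≤ b) (hf : Continuous f) (hg : Continuous g)
    (hfg : ∀ x ∈ Ioo a b, f x ≤ g x) :
    volume {x : E2 | x 0 ∈ Ioo a b ∧ f (x 0) < x 1 ∧ x 1 < g (x 0)} =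
      ENNReal.ofReal (∫ y in a..b, (g y - f y)) := by
  have h := volume_regionBetween_eq_integral (μ := volume) (f := f) (g := g) (s := Ioo a b)
    (hf.integrableOn_Icc.mono_set Ioo_subset_Icc_self)
    (hg.integrableOn_Icc.mono_set Ioo_subset_Icc_self) measurableSet_Ioo hfg
  rw [intervalIntegral.integral_of_le hab, integral_Ioc_eq_integral_Ioo]
  have h2 := mp2.measure_preimage (s := regionBetween f g (Ioo a b))
    (measurableSet_regionBetween hf.measurable hg.measurable measurableSet_Ioo).nullMeasurableSet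
  exact h2.trans h

theorem tri_pos {Q : Set E2} (hQ : Convex ℝ Q) {h p : ℝ} (hh : 0 ≤ h) (h0 : !₂[0, 0] ∈ Q)
    (h1 : !₂[0, 1] ∈ Q) (h2 : !₂[h, p] ∈ Q) :
    ENNReal.ofReal (h / 2) ≤ volume (Q ∩ {x | 0 < x 0}) := by
  rcases hh.eq_or_lt with rfl | hh
  · simp
  have e := vol_region (f := fun y => p * y / h) (g := fun y => p * y / h + 1 - y / h) hh.le
    (by fun_prop) (by fun_prop) (fun x hx => by
      have : x / h < 1 := (div_lt_one hh).2 hx.2
      linarith)
  have e2 : ∫ y in (0 : ℝ)..h, (p * y / h + 1 - y / h - p * y / h) = h / 2 := by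
    have : ∀ y : ℝ, p * y / h + 1 - y / h - p * y / h = 1 - h⁻¹ * y := fun y => by ring
    simp_rw [this]
    rw [intervalIntegral.integral_sub (by simp) (Continuous.intervalIntegrable (by fun_prop) _ _),
      intervalIntegral.integral_const_mul, integral_id]
    simp; field_simp; ring
  rw [e2] at e
  rw [← e]
  apply measure_mono
  rintro x ⟨⟨a1, a2⟩, a3, a4⟩
  refine ⟨?_, a1⟩
  have t1 : 0 < x 0 / h := by positivity
  have hm := hQ.sum_mem (t := Finset.univ) (w := ![1 - x 0 / h - (x 1 - p * x 0 / h), x 1 - p * x 0 / h, x 0 / h])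
    (z := ![!₂[0, 0], !₂[0, 1], !₂[h, p]]) (by
      intro i _; fin_cases i <;> simp <;> linarith) (by simp [Fin.sum_univ_three])
      (by intro i _; fin_cases i <;> simpa)
  convert hm using 1
  ext i; fin_cases i <;> simp [Fin.sum_univ_three] <;> field_simp <;> ring

theorem tri_neg {Q : Set E2} (hQ : Convex ℝ Q) {h p : ℝ} (hh : h ≤ 0) (h0 : !₂[0, 0] ∈ Q)
    (h1 : !₂[0, 1] ∈ Q) (h2 : !₂[h, p] ∈ Q) :
    ENNReal.ofReal (-h / 2) ≤ volume (Q ∩ {x | x 0 < 0}) := by
  rcases hh.eq_or_lt with rfl | hh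
  · simp
  have hne : h ≠ 0 := hh.ne
  have e := vol_region (f := fun y => p * y / h) (g := fun y => p * y / h + 1 - y / h) hh.le
    (by fun_prop) (by fun_prop) (fun x hx => by
      have : x / h < 1 := (div_lt_one_of_neg hh).2 hx.1
      linarith)
  have e2 : ∫ y in h..(0 : ℝ), (p * y / h + 1 - y / h - p * y / h) = -h / 2 := by
    have : ∀ y : ℝ, p * y / h + 1 - y / h - p * y / h = 1 - h⁻¹ * y := fun y => by ring
    simp_rw [this]
    rw [intervalIntegral.integral_sub (by simp) (Continuous.intervalIntegrable (by fun_prop) _ _),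
      intervalIntegral.integral_const_mul, integral_id]
    simp; field_simp; ring
  rw [e2] at e
  rw [← e]
  apply measure_mono
  rintro x ⟨⟨a1, a2⟩, a3, a4⟩
  refine ⟨?_, a2⟩
  have t1 : 0 < x 0 / h := div_pos_of_neg_of_neg a2 hh
  have hm := hQ.sum_mem (t := Finset.univ) (w := ![1 - x 0 / h - (x 1 - p * x 0 / h), x 1 - p * x 0 / h, x 0 / h])
    (z := ![!₂[0, 0], !₂[0, 1], !₂[h, p]]) (by
      intro i _; fin_cases i <;> simp <;> linarith) (by simp [Fin.sum_univ_three])
      (by intro i _; fin_cases i <;> simpa)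
  convert hm using 1
  ext i; fin_cases i <;> simp [Fin.sum_univ_three] <;> field_simp <;> ring

theorem quad {Q : Set E2} (hQ : Convex ℝ Q) {q p : ℝ} (h0 : !₂[0, 0] ∈ Q)
    (h1 : !₂[0, 1] ∈ Q) (h2 : !₂[q, p] ∈ Q) (h3 : !₂[q + 1, p] ∈ Q) :
    ENNReal.ofReal (1 / 2) ≤ volume Q := by
  rcases le_total 0 q with hq | hq
  · refine le_trans (ENNReal.ofReal_le_ofReal (by linarith)) ((tri_pos hQ (by linarith) h0 h1 h3).trans
      (measure_mono inter_subset_left))
  rcases le_total (q + 1) 0 with hq1 | hq1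
  · refine le_trans (ENNReal.ofReal_le_ofReal (by linarith)) ((tri_neg hQ hq h0 h1 h2).trans
      (measure_mono inter_subset_left))
  have a := tri_pos hQ hq1 h0 h1 h3
  have b := tri_neg hQ hq h0 h1 h2
  have hm : MeasurableSet {x : E2 | 0 < x 0} := measurableSet_lt measurable_const (by fun_prop)
  rw [← measure_inter_add_diff Q hm]
  have e : (1 / 2 : ℝ) = (q + 1) / 2 + (-q / 2) := by ring
  rw [e, ENNReal.ofReal_add (by linarith) (by linarith)]
  refine add_le_add a (b.trans (measure_mono ?_))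
  rintro x ⟨hx, hx2⟩
  exact ⟨hx, fun h => lt_asymm (show x 0 < 0 from hx2) h⟩

/-- triple product -/
def det3 (a b c : E3) : ℝ :=
  a 0 * (b 1 * c 2 - b 2 * c 1) - a 1 * (b 0 * c 2 - b 2 * c 0) + a 2 * (b 0 * c 1 - b 1 * c 0)

theorem inner3 (a b : E3) : ⟪a, b⟫ = a 0 * b 0 + a 1 * b 1 + a 2 * b 2 := by
  simp [PiLp.inner_apply, Fin.sum_univ_three]; ring

theorem nsq3 (a : E3) : ‖a‖ ^ 2 = a 0 ^ 2 + a 1 ^ 2 + a 2 ^ 2 := by
  rw [← real_inner_self_eq_norm_sq, inner3]; ring

/-- orthogonal projection along `u` -/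
noncomputable def pr (u : E3) : E3 →ₗ[ℝ] E3 := LinearMap.id - (innerₛₗ ℝ u).smulRight u

theorem pr_apply (u x : E3) : pr u x = x - ⟪u, x⟫ • u := by simp [pr]

/-- the linear map with columns `a`, `b` -/
noncomputable def cols (a b : E3) : E2 →ₗ[ℝ] E3 :=
  (EuclideanSpace.proj (𝕜 := ℝ) (0 : Fin 2)).toLinearMap.smulRight a +
    (EuclideanSpace.proj (𝕜 := ℝ) (1 : Fin 2)).toLinearMap.smulRight b

theorem cols_apply (a b : E3) (s : E2) : cols a b s = s 0 • a + s 1 • b := by simp [cols]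

theorem normDet_cols_sq (a b : E3) :
    (cols a b).normDet ^ 2 = ⟪a, a⟫ * ⟪b, b⟫ - ⟪a, b⟫ ^ 2 := by
  have h := (cols a b).normDet_sq_eq_det_gram (EuclideanSpace.basisFun (Fin 2) ℝ)
  rw [Matrix.det_fin_two] at h
  simp only [Matrix.gram_apply, cols_apply] at h
  simp at h
  simp only [real_inner_self_eq_norm_sq]
  rw [h, real_inner_comm a b]; ring

theorem normDet_cols_pr {u : E3} (hu : ‖u‖ = 1) (a b : E3) :
    (cols (pr u a) (pr u b)).normDet = |det3 a b u| := by
  apply (pow_left_inj₀ (LinearMap.normDet_nonneg _) (abs_nonneg _) two_ne_zero).1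
  have h1 : u 0 ^ 2 + u 1 ^ 2 + u 2 ^ 2 = 1 := by rw [← nsq3, hu]; norm_num
  have key : ∀ x y : E3, ⟪pr u x, pr u y⟫ = ⟪x, y⟫ - ⟪u, x⟫ * ⟪u, y⟫ := by
    intro x y
    rw [pr_apply, pr_apply, inner_sub_left, inner_sub_right, inner_sub_right, inner_smul_left,
      inner_smul_right, inner_smul_left, inner_smul_right, real_inner_self_eq_norm_sq, hu,
      real_inner_comm u x]
    simp; ring
  rw [normDet_cols_sq, key, key, key, sq_abs]
  simp only [inner3, det3]
  linear_combination (-((a 0 * a 0 + a 1 * a 1 + a 2 * a 2) * (b 0 * b 0 + b 1 * b 1 + b 2 * b 2) -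
    (a 0 * b 0 + a 1 * b 1 + a 2 * b 2) ^ 2)) * h1

theorem area_cols (a b : E3) (S : Set E2) :
    μHE[2] (cols a b '' S) = ENNReal.ofReal (cols a b).normDet * volume S := by
  have := (cols a b).euclideanHausdorffMeasure_image_eq_normDet_mul_volume S
  simpa using this

theorem area_translate (v : E3) (S : Set E3) (d : ℕ) : μHE[d] ((fun x => v + x) '' S) = μHE[d] S :=
  (isometry_add_left v).euclideanHausdorffMeasure_image S

/-- the shadow of a convex set containing four points -/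
theorem proj_area_ge {K : Set E3} (hK : Convex ℝ K) {A B C D u : E3} (hu : ‖u‖ = 1) (hA : A ∈ K)
    (hB : B ∈ K) (hC : C ∈ K) (hD : D ∈ K) :
    ENNReal.ofReal (|det3 (D - C) (B - A) u| / 2) ≤ μHE[2] (pr u '' K) := by
  rcases eq_or_ne (det3 (D - C) (B - A) u) 0 with h | h
  · simp [h]
  set a := D - C with ha
  set b := B - A with hb
  set c := C - A with hc
  set f := cols (pr u a) (pr u b) with hf
  let Q : Set E2 := {s | pr u A + f s ∈ pr u '' K}
  have hQ : Convex ℝ Q := by
    have h1 : Convex ℝ (pr u '' K) := hK.linear_image _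
    exact (h1.translate_preimage_right (pr u A)).linear_preimage f
  have hu0 : pr u u = 0 := by rw [pr_apply, real_inner_self_eq_norm_sq, hu]; simp
  have cr : c = (det3 c b u / det3 a b u) • a + (det3 a c u / det3 a b u) • b +
      (det3 a b c / det3 a b u) • u := by
    ext i
    fin_cases i <;> simp <;> field_simp <;> simp only [det3] <;> ring
  have hc' : pr u c = (det3 c b u / det3 a b u) • pr u a + (det3 a c u / det3 a b u) • pr u b := by
    conv_lhs => rw [cr]
    simp [hu0]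
  have hv := quad hQ (q := det3 c b u / det3 a b u) (p := det3 a c u / det3 a b u)
    ⟨A, hA, by simp [hf, cols_apply]⟩ ⟨B, hB, by simp [hf, cols_apply, hb]⟩
    ⟨C, hC, by
      simp only [hf, cols_apply, PiLp.toLp_apply, Matrix.cons_val_zero, Matrix.cons_val_one]
      rw [← hc', hc]; simp⟩
    ⟨D, hD, by
      simp only [hf, cols_apply, PiLp.toLp_apply, Matrix.cons_val_zero, Matrix.cons_val_one]
      rw [add_smul, one_smul, add_right_comm, ← hc', hc, ha]; simp⟩
  have hsub : (fun x => pr u A + x) '' (f '' Q) ⊆ pr u '' K := by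
    rintro _ ⟨_, ⟨s, hs, rfl⟩, rfl⟩; exact hs
  refine le_trans ?_ (measure_mono hsub)
  rw [area_translate, hf, area_cols, normDet_cols_pr hu, div_eq_mul_one_div,
    ENNReal.ofReal_mul (abs_nonneg _)]
  gcongr

end Pool.Agent.H81.Plane
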