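import Mathlib
import Pool.Agent.H81.Plane

namespace Pool.Agent.H81.Door

open Set MeasureTheory Pool.Agent.H81.Plane
open scoped RealInnerProductSpace

def K : Set E3 := {x | 10 * |x 0| ≤ 10 + x 2 ∧ 10 * |x 1| ≤ 10 - x 2}
def D : Set E3 := {x | x 2 = 0 ∧ |x 0| ≤ 3 / 2 ∧ |x 0| + |x 1| ≤ 2}

theorem abs_le_norm (x : E3) (i : Fin 3) : |x i| ≤ ‖x‖ := by
  simpa using PiLp.norm_apply_le x i

theorem K_compact : IsCompact K := by
  have c1 : IsClosed {x : E3 | 10 * |x 0| ≤ 10 + x 2} := isClosed_le (by fun_prop) (by fun_prop)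
  have c2 : IsClosed {x : E3 | 10 * |x 1| ≤ 10 - x 2} := isClosed_le (by fun_prop) (by fun_prop)
  refine (isCompact_closedBall (0 : E3) 11).of_isClosed_subset (c1.inter c2) ?_
  rintro x ⟨h1, h2⟩
  rw [mem_closedBall_zero_iff]
  apply (abs_le_of_sq_le_sq' _ (by norm_num)).2
  rw [nsq3, ← sq_abs (x 0), ← sq_abs (x 1)]
  have := abs_nonneg (x 0)
  have := abs_nonneg (x 1)
  nlinarith

theorem abs_comb {x y a b : ℝ} (ha : 0 ≤ a) (hb : 0 ≤ b) : |a * x + b * y| ≤ a * |x| + b * |y| := by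
  refine (abs_add_le _ _).trans ?_
  rw [abs_mul, abs_mul, abs_of_nonneg ha, abs_of_nonneg hb]

theorem K_convex : Convex ℝ K := by
  rintro x ⟨h1, h2⟩ y ⟨h3, h4⟩ a b ha hb hab
  simp only [K, mem_setOf_eq, PiLp.add_apply, PiLp.smul_apply, smul_eq_mul]
  have e1 := abs_comb (x := x 0) (y := y 0) ha hb
  have e2 := abs_comb (x := x 1) (y := y 1) ha hb
  constructor <;> nlinarith

theorem K_int : (interior K).Nonempty := by
  refine ⟨0, mem_interior_iff_mem_nhds.2 (Filter.mem_of_superset (Metric.ball_mem_nhds 0 (by norm_num : (0 : ℝ) < 1 / 2)) ?_)⟩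
  intro x hx
  rw [mem_ball_zero_iff] at hx
  have h0 := abs_le_norm x 0
  have h1 := abs_le_norm x 1
  have h2 := abs_le.1 (abs_le_norm x 2)
  constructor <;> linarith [h2.1, h2.2]

theorem D_compact : IsCompact D := by
  have c0 : IsClosed {x : E3 | x 2 = 0} := isClosed_eq (by fun_prop) (by fun_prop)
  have c1 : IsClosed {x : E3 | |x 0| ≤ 3 / 2} := isClosed_le (by fun_prop) (by fun_prop)
  have c2 : IsClosed {x : E3 | |x 0| + |x 1| ≤ 2} := isClosed_le (by fun_prop) (by fun_prop)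
  refine (isCompact_closedBall (0 : E3) 3).of_isClosed_subset (c0.inter (c1.inter c2)) ?_
  rintro x ⟨h1, h2, h3⟩
  rw [mem_closedBall_zero_iff]
  apply (abs_le_of_sq_le_sq' _ (by norm_num)).2
  rw [nsq3, ← sq_abs (x 0), ← sq_abs (x 1), h1]
  have := abs_nonneg (x 0)
  have := abs_nonneg (x 1)
  nlinarith

theorem D_convex : Convex ℝ D := by
  rintro x ⟨h1, h2, h2'⟩ y ⟨h3, h4, h4'⟩ a b ha hb hab
  simp only [D, mem_setOf_eq, PiLp.add_apply, PiLp.smul_apply, smul_eq_mul]
  have e1 := abs_comb (x := x 0) (y := y 0) ha hb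
  have e2 := abs_comb (x := x 1) (y := y 1) ha hb
  refine ⟨by simp [h1, h3], ?_, ?_⟩ <;> nlinarith

theorem D_int : ∃ p ∈ D, ∃ r : ℝ, 0 < r ∧ ∀ x : E3, x 2 = 0 → dist x p < r → x ∈ D := by
  refine ⟨0, by simp [D]; norm_num, 1, one_pos, fun x hx h => ?_⟩
  rw [dist_zero_right] at h
  have h0 := abs_le_norm x 0
  have h1 := abs_le_norm x 1
  exact ⟨hx, by linarith, by linarith⟩

theorem D_area : μHE[2] D ≤ ENNReal.ofReal (756 / 100) := by
  let S : Set E2 := {x | x 0 ∈ Ioo (-(151 / 100)) (151 / 100) ∧ -(2002 / 1000 - |x 0|) < x 1 ∧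
    x 1 < 2002 / 1000 - |x 0|}
  have hS : D ⊆ cols !₂[1, 0, 0] !₂[0, 1, 0] '' S := by
    rintro x ⟨h1, h2, h3⟩
    have h2' := abs_le.1 h2
    have := le_abs_self (x 1)
    have := neg_abs_le (x 1)
    refine ⟨!₂[x 0, x 1], ⟨⟨?_, ?_⟩, ?_, ?_⟩, ?_⟩
    · simp; linarith [h2'.1]
    · simp; linarith [h2'.2]
    · simp; linarith
    · simp; linarith
    · ext i; fin_cases i <;> simp [cols_apply, h1]
  refine (measure_mono hS).trans ?_
  have hn : (cols !₂[1, 0, 0] !₂[0, 1, 0]).normDet = 1 := by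
    apply (pow_left_inj₀ (LinearMap.normDet_nonneg _) zero_le_one two_ne_zero).1
    rw [normDet_cols_sq, inner3, inner3, inner3]; simp
  rw [area_cols, hn, ENNReal.ofReal_one, one_mul]
  rw [vol_region (f := fun y => -(2002 / 1000 - |y|)) (g := fun y => 2002 / 1000 - |y|) (by norm_num)
    (by fun_prop) (by fun_prop) (fun x hx => by
      have : |x| ≤ 151 / 100 := abs_le.2 ⟨hx.1.le, hx.2.le⟩
      linarith)]
  apply ENNReal.ofReal_le_ofReal
  have i1 : ∫ y in (-(151 / 100) : ℝ)..0, (2002 / 1000 - |y| - -(2002 / 1000 - |y|)) =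
      ∫ y in (-(151 / 100) : ℝ)..0, (2002 / 500 + 2 * y) := by
    apply intervalIntegral.integral_congr
    intro y hy
    rw [uIcc_of_le (by norm_num)] at hy
    simp only [abs_of_nonpos hy.2]; ring
  have i2 : ∫ y in (0 : ℝ)..(151 / 100), (2002 / 1000 - |y| - -(2002 / 1000 - |y|)) =
      ∫ y in (0 : ℝ)..(151 / 100), (2002 / 500 - 2 * y) := by
    apply intervalIntegral.integral_congr
    intro y hy
    rw [uIcc_of_le (by norm_num)] at hy
    simp only [abs_of_nonneg hy.1]; ring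
  rw [← intervalIntegral.integral_add_adjacent_intervals (b := 0)
    (Continuous.intervalIntegrable (by fun_prop) _ _)
    (Continuous.intervalIntegrable (by fun_prop) _ _), i1, i2,
    intervalIntegral.integral_add (by simp) (Continuous.intervalIntegrable (by fun_prop) _ _),
    intervalIntegral.integral_sub (by simp) (Continuous.intervalIntegrable (by fun_prop) _ _),
    intervalIntegral.integral_const_mul, intervalIntegral.integral_const_mul, integral_id, integral_id]
  norm_num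

theorem K_area {u : E3} (hu : ‖u‖ = 1) : ENNReal.ofReal (76 / 10) ≤ μHE[2] (pr u '' K) := by
  have hA : !₂[2, 0, 10] ∈ K := by simp [K]; norm_num
  have hB : !₂[-2, 0, 10] ∈ K := by simp [K]; norm_num
  have hC : !₂[0, 2, -10] ∈ K := by simp [K]; norm_num
  have hD : !₂[0, -2, -10] ∈ K := by simp [K]; norm_num
  have h1 := proj_area_ge K_convex hu hA hB hC hD
  have h2 := proj_area_ge K_convex hu hA hC hB hD
  have h3 := proj_area_ge K_convex hu hA hD hB hC
  have e1 : det3 (!₂[0, -2, -10] - !₂[0, 2, -10]) (!₂[-2, 0, 10] - !₂[2, 0, 10]) u = -16 * u 2 := by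
    simp [det3]; ring
  have e2 : det3 (!₂[0, -2, -10] - !₂[-2, 0, 10]) (!₂[0, 2, -10] - !₂[2, 0, 10]) u =
      80 * (u 0 + u 1) := by
    simp [det3]; ring
  have e3 : det3 (!₂[0, 2, -10] - !₂[-2, 0, 10]) (!₂[0, -2, -10] - !₂[2, 0, 10]) u =
      80 * (-u 0 + u 1) := by
    simp [det3]; ring
  rw [e1] at h1
  rw [e2] at h2
  rw [e3] at h3
  have hn : u 0 ^ 2 + u 1 ^ 2 + u 2 ^ 2 = 1 := by rw [← nsq3, hu]; norm_num
  by_contra hcon
  push Not at hcon
  have a1 := (ENNReal.ofReal_lt_ofReal_iff (by norm_num)).1 (h1.trans_lt hcon)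
  have a2 := (ENNReal.ofReal_lt_ofReal_iff (by norm_num)).1 (h2.trans_lt hcon)
  have a3 := (ENNReal.ofReal_lt_ofReal_iff (by norm_num)).1 (h3.trans_lt hcon)
  have b1 := abs_lt.1 (show |-16 * u 2| < 152 / 10 by linarith)
  have b2 := abs_lt.1 (show |80 * (u 0 + u 1)| < 152 / 10 by linarith)
  have b3 := abs_lt.1 (show |80 * (-u 0 + u 1)| < 152 / 10 by linarith)
  nlinarith [b1.1, b1.2, b2.1, b2.2, b3.1, b3.2]

theorem area_lt {u : E3} (hu : ‖u‖ = 1) :
    μHE[2] D < μHE[2] ((fun x => x - ⟪u, x⟫ • u) '' K) := by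
  have e : (fun x => x - ⟪u, x⟫ • u) = pr u := funext fun x => (pr_apply u x).symm
  rw [e]
  exact D_area.trans_lt (((ENNReal.ofReal_lt_ofReal_iff (by norm_num)).2 (by norm_num)).trans_le
    (K_area hu))

noncomputable def ang (t : ℝ) : ℝ := Real.pi / 2 * min (max (3 * t - 1) 0) 1
noncomputable def ht (t : ℝ) : ℝ := 11 * (max (1 - 3 * t) 0 - max (3 * t - 2) 0)
noncomputable def rot (t : ℝ) : Matrix (Fin 3) (Fin 3) ℝ :=
  !![Real.cos (ang t), -Real.sin (ang t), 0; Real.sin (ang t), Real.cos (ang t), 0; 0, 0, 1]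
noncomputable def tr (t : ℝ) : E3 := !₂[0, 0, ht t]

theorem rot_cont : Continuous rot := by
  have : Continuous ang := by unfold ang; fun_prop
  apply continuous_matrix
  intro i j
  fin_cases i <;> fin_cases j <;> simp [rot] <;> fun_prop

theorem tr_cont : Continuous tr := by
  have : Continuous ht := by unfold ht; fun_prop
  unfold tr
  fun_prop

theorem rot_mem (t : ℝ) : rot t ∈ Matrix.specialOrthogonalGroup (Fin 3) ℝ := by
  rw [Matrix.mem_specialOrthogonalGroup_iff, Matrix.mem_orthogonalGroup_iff]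
  have h := Real.cos_sq_add_sin_sq (ang t)
  constructor
  · ext i j
    fin_cases i <;> fin_cases j <;> simp [rot, Matrix.mul_apply, Fin.sum_univ_three] <;> nlinarith
  · simp [rot, Matrix.det_fin_three]; nlinarith

theorem mv (t : ℝ) (x : E3) : Matrix.toEuclideanLin (rot t) x + tr t =
    !₂[Real.cos (ang t) * x 0 - Real.sin (ang t) * x 1,
      Real.sin (ang t) * x 0 + Real.cos (ang t) * x 1, x 2 + ht t] := by
  ext i
  fin_cases i <;>
    simp [rot, tr, Matrix.toEuclideanLin_apply, Matrix.mulVec, dotProduct, Fin.sum_univ_three] <;> ring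

theorem start_pos (x : E3) (hx : x ∈ K) : 0 < (Matrix.toEuclideanLin (rot 0) x + tr 0) 2 := by
  rw [mv]
  have := hx.1
  have := abs_nonneg (x 0)
  simp [ht]; linarith

theorem end_neg (x : E3) (hx : x ∈ K) : (Matrix.toEuclideanLin (rot 1) x + tr 1) 2 < 0 := by
  rw [mv]
  have := hx.2
  have := abs_nonneg (x 1)
  simp [ht]; norm_num; linarith

theorem pass (t : ℝ) (x : E3) (hx : x ∈ K) (h : (Matrix.toEuclideanLin (rot t) x + tr t) 2 = 0) :
    Matrix.toEuclideanLin (rot t) x + tr t ∈ D := by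
  refine ⟨h, ?_⟩
  rw [mv] at h ⊢
  obtain ⟨h1, h2⟩ := hx
  have h' : x 2 + ht t = 0 := by simpa using h
  simp only [PiLp.toLp_apply, Matrix.cons_val_zero, Matrix.cons_val_one]
  rcases le_total (3 * t) 1 with ht1 | ht1
  · have ha : ang t = 0 := by
      rw [ang, max_eq_right (by linarith)]; simp
    have hh : 0 ≤ ht t := by
      rw [ht, max_eq_left (by linarith), max_eq_right (by linarith)]; linarith
    simp only [ha, Real.cos_zero, Real.sin_zero, one_mul, zero_mul, sub_zero, zero_add]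
    constructor <;> linarith
  rcases le_total (3 * t) 2 with ht2 | ht2
  · have hh : ht t = 0 := by
      rw [ht, max_eq_right (by linarith), max_eq_right (by linarith)]; simp
    have hs := Real.cos_sq_add_sin_sq (ang t)
    set c := Real.cos (ang t)
    set s := Real.sin (ang t)
    have a1 : x 0 ^ 2 ≤ 1 := by
      rw [← sq_abs]; nlinarith [abs_nonneg (x 0)]
    have a2 : x 1 ^ 2 ≤ 1 := by
      rw [← sq_abs]; nlinarith [abs_nonneg (x 1)]
    have a3 : |c * x 0 - s * x 1| ^ 2 + |s * x 0 + c * x 1| ^ 2 ≤ 2 := by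
      rw [sq_abs, sq_abs]
      have : (c * x 0 - s * x 1) ^ 2 + (s * x 0 + c * x 1) ^ 2 =
        (c ^ 2 + s ^ 2) * (x 0 ^ 2 + x 1 ^ 2) := by ring
      rw [this, hs]; linarith
    have := abs_nonneg (c * x 0 - s * x 1)
    have := abs_nonneg (s * x 0 + c * x 1)
    constructor
    · nlinarith
    · nlinarith [sq_nonneg (|c * x 0 - s * x 1| - |s * x 0 + c * x 1|)]
  · have ha : ang t = Real.pi / 2 := by
      rw [ang, max_eq_left (by linarith), min_eq_right (by linarith)]; simp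
    have hh : ht t ≤ 0 := by
      rw [ht, max_eq_right (by linarith), max_eq_left (by linarith)]; linarith
    simp only [ha, Real.cos_pi_div_two, Real.sin_pi_div_two, one_mul, zero_mul, zero_sub, add_zero,
      abs_neg]
    constructor <;> linarith

end Pool.Agent.H81.Door
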