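import Mathlib

open scoped Pointwise

namespace Pool.Agent.H81.GeomMean

/-- The polar set. -/
def polar {n : ℕ} (K : Set (EuclideanSpace ℝ (Fin n))) : Set (EuclideanSpace ℝ (Fin n)) :=
  {y | ∀ x ∈ K, inner ℝ x y ≤ (1 : ℝ)}

/-- The arithmetic-harmonic iteration `(A_k, H_k)` started at `(K, T)`. -/
def iter {n : ℕ} (K T : Set (EuclideanSpace ℝ (Fin n))) :
    ℕ → Set (EuclideanSpace ℝ (Fin n)) × Set (EuclideanSpace ℝ (Fin n))
  | 0 => (K, T)
  | k + 1 => ((1 / 2 : ℝ) • ((iter K T k).1 + (iter K T k).2),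
      polar ((1 / 2 : ℝ) • (polar (iter K T k).1 + polar (iter K T k).2)))

/-- The geometric mean `G(K, T)`: the limit of the decreasing sequence `A_1 ⊇ A_2 ⊇ ⋯` of compact
sets, that is, its intersection. -/
def geomMean {n : ℕ} (K T : Set (EuclideanSpace ℝ (Fin n))) : Set (EuclideanSpace ℝ (Fin n)) :=
  ⋂ k : ℕ, (iter K T (k + 1)).1

/-- Origin-symmetric convex bodies. -/
def IsSymmBody {n : ℕ} (K : Set (EuclideanSpace ℝ (Fin n))) : Prop :=
  IsCompact K ∧ Convex ℝ K ∧ (interior K).Nonempty ∧ K = -K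

/-- The constant `g_n`. -/
noncomputable def g (n : ℕ) : ℝ :=
  sInf {r : ℝ | ∃ K T : Set (EuclideanSpace ℝ (Fin n)), IsSymmBody K ∧ IsSymmBody T ∧
    r = (MeasureTheory.volume (geomMean K T)).toReal /
      Real.sqrt ((MeasureTheory.volume K).toReal * (MeasureTheory.volume T).toReal)}

end Pool.Agent.H81.GeomMean
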