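import Mathlib
import Pool.Agent.H81.GeomMeanDefs

open scoped Pointwise RealInnerProductSpace
open Set MeasureTheory

namespace Pool.Agent.H81.GeomMean

variable {n : ℕ}

abbrev E (n : ℕ) := EuclideanSpace ℝ (Fin n)

theorem mem_A {K T : Set (E n)} {k : ℕ} {x : E n} : x ∈ (iter K T (k + 1)).1 ↔
    ∃ a ∈ (iter K T k).1, ∃ h ∈ (iter K T k).2, x = (1 / 2 : ℝ) • (a + h) := by
  constructor
  · rintro ⟨_, ⟨a, ha, h, hh, rfl⟩, rfl⟩; exact ⟨a, ha, h, hh, rfl⟩
  · rintro ⟨a, ha, h, hh, rfl⟩; exact ⟨_, ⟨a, ha, h, hh, rfl⟩, rfl⟩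

theorem mem_H {K T : Set (E n)} {k : ℕ} {y : E n} : y ∈ (iter K T (k + 1)).2 ↔
    ∀ p ∈ polar (iter K T k).1, ∀ q ∈ polar (iter K T k).2, ⟪p, y⟫ + ⟪q, y⟫ ≤ 2 := by
  constructor
  · intro hy p hp q hq
    have := hy _ ⟨_, ⟨p, hp, q, hq, rfl⟩, rfl⟩
    simp only [inner_smul_left, inner_add_left, conj_trivial] at this
    linarith
  · rintro hy _ ⟨_, ⟨p, hp, q, hq, rfl⟩, rfl⟩
    have := hy p hp q hq
    simp only [inner_smul_left, inner_add_left, conj_trivial]
    linarith

theorem polar_anti {K T : Set (E n)} (h : K ⊆ T) : polar T ⊆ polar K := fun _ hy x hx => hy x (h hx)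

theorem zero_mem_polar (K : Set (E n)) : (0 : E n) ∈ polar K := fun x _ => by simp

theorem iter_mono {K T K' T' : Set (E n)} (h1 : K ⊆ K') (h2 : T ⊆ T') (k : ℕ) :
    (iter K T k).1 ⊆ (iter K' T' k).1 ∧ (iter K T k).2 ⊆ (iter K' T' k).2 := by
  induction k with
  | zero => exact ⟨h1, h2⟩
  | succ k ih =>
    constructor
    · intro x hx
      obtain ⟨a, ha, h, hh, rfl⟩ := mem_A.1 hx
      exact mem_A.2 ⟨a, ih.1 ha, h, ih.2 hh, rfl⟩
    · intro y hy
      exact mem_H.2 fun p hp q hq => mem_H.1 hy p (polar_anti ih.1 hp) q (polar_anti ih.2 hq)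

theorem single_mem_polar {A : Set (E n)} {i : Fin n} {α t : ℝ} (h : ∀ x ∈ A, |x i| ≤ α)
    (ht : |t| * α ≤ 1) : EuclideanSpace.single i t ∈ polar A := by
  intro x hx
  rw [EuclideanSpace.inner_single_right]
  simp only [conj_trivial]
  refine (le_abs_self _).trans ?_
  rw [abs_mul]
  exact (mul_le_mul_of_nonneg_left (h x hx) (abs_nonneg _)).trans ht

theorem slab {K T : Set (E n)} {i : Fin n} {M : ℝ} (hM : 1 ≤ M) (hK : ∀ x ∈ K, |x i| ≤ M)
    (hT : ∀ x ∈ T, |x i| ≤ M⁻¹) (k : ℕ) : ∃ α : ℝ, 1 ≤ α ∧ α ≤ M ∧ α ≤ M / 2 ^ k + 1 ∧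
      (∀ x ∈ (iter K T k).1, |x i| ≤ α) ∧ ∀ x ∈ (iter K T k).2, |x i| ≤ α⁻¹ := by
  induction k with
  | zero => exact ⟨M, hM, le_rfl, by simp, hK, hT⟩
  | succ k ih =>
    obtain ⟨α, h1, h2, h3, h4, h5⟩ := ih
    have h0 : 0 < α := by linarith
    have hi : α⁻¹ ≤ 1 := inv_le_one_of_one_le₀ h1
    have hi0 : 0 < α⁻¹ := inv_pos.2 h0
    have hm : α * α⁻¹ = 1 := mul_inv_cancel₀ h0.ne'
    refine ⟨(α + α⁻¹) / 2, by nlinarith [sq_nonneg (α - 1)], by linarith, ?_, ?_, ?_⟩
    · have : M / 2 ^ (k + 1) = M / 2 ^ k / 2 := by rw [pow_succ, div_div]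
      linarith
    · intro x hx
      obtain ⟨a, ha, h, hh, rfl⟩ := mem_A.1 hx
      have a1 := abs_le.1 (h4 a ha)
      have a2 := abs_le.1 (h5 h hh)
      simp only [PiLp.smul_apply, PiLp.add_apply, smul_eq_mul]
      exact abs_le.2 ⟨by linarith [a1.1, a2.1], by linarith [a1.2, a2.2]⟩
    · intro y hy
      have b1 := mem_H.1 hy _ (single_mem_polar (t := α⁻¹) h4 (by rw [abs_of_pos hi0]; linarith)) _
        (single_mem_polar (t := α) h5 (by rw [abs_of_pos h0]; linarith))
      have b2 := mem_H.1 hy _ (single_mem_polar (t := -α⁻¹) h4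
        (by rw [abs_neg, abs_of_pos hi0]; linarith)) _
        (single_mem_polar (t := -α) h5 (by rw [abs_neg, abs_of_pos h0]; linarith))
      simp only [EuclideanSpace.inner_single_left, conj_trivial] at b1 b2
      rw [inv_div, le_div_iff₀ (by positivity)]
      rcases abs_cases (y i) with h | h <;> rw [h.1] <;> linarith

def S (K T : Set (E n)) : ℕ → Set (E n)
  | 0 => {0}
  | k + 1 => {z | ∃ p ∈ polar (iter K T k).1, ∃ s ∈ S K T k, z = (1 / 2 : ℝ) • (p + s)}

theorem zero_mem_S (K T : Set (E n)) (k : ℕ) : (0 : E n) ∈ S K T k := by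
  induction k with
  | zero => rfl
  | succ k ih => exact ⟨0, zero_mem_polar _, 0, ih, by simp⟩

theorem claim1 {K T K' T' : Set (E n)} (h1 : K ⊆ K') (h2 : T ⊆ T') {q : E n} (hq : q ∈ polar T)
    (k : ℕ) : ∀ s ∈ S K' T' k, s + (1 / 2 ^ k : ℝ) • q ∈ polar (iter K T k).2 := by
  induction k with
  | zero => rintro s rfl; simpa [iter] using hq
  | succ k ih =>
    rintro _ ⟨p, hp, s, hs, rfl⟩ y hy
    have := mem_H.1 hy p (polar_anti (iter_mono h1 h2 k).1 hp) _ (ih s hs)
    rw [real_inner_comm]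
    simp only [inner_add_left, inner_smul_left, conj_trivial] at this ⊢
    have e : (1 / 2 ^ (k + 1) : ℝ) = 1 / 2 ^ k / 2 := by rw [pow_succ, div_div]
    rw [e]; linarith

theorem claimD {K T U : Set (E n)} (h0 : (0 : E n) ∈ U)
    (hU : ∀ y, (∀ q ∈ U, ⟪q, y⟫ ≤ (1 : ℝ)) → y ∈ T) (k : ℕ) : ∀ y : E n,
    (∀ s ∈ S K T k, ∀ q ∈ U, ⟪s, y⟫ + (1 / 2 ^ k : ℝ) * ⟪q, y⟫ ≤ 1) → y ∈ (iter K T k).2 := by
  induction k with
  | zero =>
    intro y hy
    exact hU y fun q hq => by simpa using hy 0 rfl q hq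
  | succ k ih =>
    intro y hy
    refine mem_H.2 fun p hp r hr => ?_
    have key : ∀ s ∈ S K T k, ∀ q ∈ U, ⟪s, y⟫ + (1 / 2 ^ k : ℝ) * ⟪q, y⟫ ≤ 2 - ⟪p, y⟫ := by
      intro s hs q hq
      have := hy _ ⟨p, hp, s, hs, rfl⟩ q hq
      simp only [inner_add_left, inner_smul_left, conj_trivial] at this
      have e : (1 / 2 ^ (k + 1) : ℝ) = 1 / 2 ^ k / 2 := by rw [pow_succ, div_div]
      rw [e] at this; linarith
    have h1 : 0 ≤ 2 - ⟪p, y⟫ := by simpa using key 0 (zero_mem_S K T k) 0 h0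
    have : ⟪r, y⟫ ≤ 2 - ⟪p, y⟫ := by
      apply le_of_forall_gt_imp_ge_of_dense
      intro γ hγ
      have hγ0 : 0 < γ := by linarith
      have := hr _ (ih (γ⁻¹ • y) fun s hs q hq => by
        have := key s hs q hq
        simp only [inner_smul_right]
        rw [mul_left_comm, ← mul_add, inv_mul_le_iff₀ hγ0]; linarith)
      rw [inner_smul_left, conj_trivial, inv_mul_le_iff₀ hγ0, real_inner_comm] at this
      linarith
    linarith

def box (s : Finset (Fin n)) (a : Fin n → ℝ) : Set (E n) := {x | ∀ i ∈ s, |x i| ≤ a i}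

/-- partial pairing bound at step `k` -/
def Pair (s : Finset (Fin n)) (K T : Set (E n)) (k : ℕ) (l : ℝ) : Prop :=
  ∀ x ∈ (iter K T k).1, ∀ y ∈ (iter K T k).2, ∑ i ∈ s, x i * y i ≤ l

noncomputable def pj (s : Finset (Fin n)) (x : E n) : E n :=
  WithLp.toLp 2 fun i => if i ∈ s then x i else 0

theorem inner_pj (s : Finset (Fin n)) (x y : E n) : ⟪y, pj s x⟫ = ∑ i ∈ s, x i * y i := by
  simp [pj, PiLp.inner_apply, Finset.sum_ite_mem]

theorem Pair.succ {s : Finset (Fin n)} {K T : Set (E n)} {k : ℕ} {l : ℝ} (hl : 0 < l)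
    (h : Pair s K T k l) : Pair s K T (k + 1) l := by
  intro x hx y hy
  obtain ⟨a, ha, b, hb, rfl⟩ := mem_A.1 hx
  have := mem_H.1 hy (l⁻¹ • pj s b) (fun z hz => by
    rw [inner_smul_right, inner_pj, inv_mul_le_iff₀ hl, mul_one]
    simpa [mul_comm] using h z hz b hb) (l⁻¹ • pj s a) (fun z hz => by
    rw [inner_smul_right, inner_pj, inv_mul_le_iff₀ hl, mul_one]
    exact h a ha z hz)
  rw [real_inner_comm, real_inner_comm y, inner_smul_right, inner_smul_right, inner_pj, inner_pj,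
    ← mul_add, inv_mul_le_iff₀ hl] at this
  simp only [PiLp.smul_apply, PiLp.add_apply, smul_eq_mul, mul_assoc, add_mul, ← Finset.mul_sum,
    Finset.sum_add_distrib]
  linarith

theorem Pair.le {s : Finset (Fin n)} {K T : Set (E n)} {k m : ℕ} {l : ℝ} (hl : 0 < l)
    (h : Pair s K T k l) (hm : k ≤ m) : Pair s K T m l := by
  induction hm with
  | refl => exact h
  | step _ ih => exact ih.succ hl

theorem exists_scales (s : Finset (Fin n)) : ∀ l : ℝ, 1 < l → ∃ a : Fin n → ℝ, (∀ i, 1 ≤ a i) ∧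
    ∃ m, Pair s (box s a) (box s fun i => (a i)⁻¹) m l := by
  induction s using Finset.induction_on with
  | empty => exact fun l hl => ⟨fun _ => 1, fun _ => le_rfl, 0, fun x _ y _ => by simp; linarith⟩
  | insert j s hj ih =>
    intro l hl
    set δ := min ((l - 1) / 4) 1 with hδ
    have hδ0 : 0 < δ := lt_min (by linarith) one_pos
    have hδ1 : δ ≤ 1 := min_le_right _ _
    have hδ2 : δ ≤ (l - 1) / 4 := min_le_left _ _
    obtain ⟨a, ha, m, hm⟩ := ih (1 + δ) (by linarith)
    set R := ∑ i, a i ^ 2 with hR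
    have hRi : ∀ i, a i ^ 2 ≤ R := fun i =>
      Finset.single_le_sum (f := fun i => a i ^ 2) (fun _ _ => sq_nonneg _) (Finset.mem_univ i)
    obtain ⟨k0, hk0⟩ := pow_unbounded_of_one_lt (2 * R / δ) (one_lt_two (α := ℝ))
    set k := max m k0 with hk
    have hk1 : 2 * R ≤ δ * 2 ^ (k + 1) := by
      rw [div_lt_iff₀ hδ0] at hk0
      have : (2 : ℝ) ^ k0 ≤ 2 ^ (k + 1) :=
        pow_le_pow_right₀ one_le_two ((le_max_right _ _).trans (Nat.le_succ _))
      nlinarith
    have hm' := hm.le (by linarith) ((le_max_left m k0).trans (Nat.le_succ k))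
    set N : ℝ := 2 ^ (k + 1) with hN
    have hN1 : 1 ≤ N := one_le_pow₀ one_le_two
    set M := N / δ with hM
    have hM1 : 1 ≤ M := by rw [hM, le_div_iff₀ hδ0]; linarith
    have hne : ∀ i ∈ s, Function.update a j M i = a i := fun i hi =>
      Function.update_of_ne (by rintro rfl; exact hj hi) _ _
    refine ⟨Function.update a j M, fun i => ?_, k + 1, ?_⟩
    · rcases eq_or_ne i j with rfl | h
      · simpa using hM1
      · simpa [h] using ha i
    set K := box (insert j s) (Function.update a j M)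
    set T := box (insert j s) fun i => (Function.update a j M i)⁻¹
    set K' := box s a
    set T' := box s fun i => (a i)⁻¹
    have hK : K ⊆ K' := fun x hx i hi => hne i hi ▸ hx i (Finset.mem_insert_of_mem hi)
    have hT : T ⊆ T' := fun x hx i hi => by
      have := hx i (Finset.mem_insert_of_mem hi)
      simp only [hne i hi] at this
      exact this
    have hKj : ∀ x ∈ K, |x j| ≤ M := fun x hx => by simpa using hx j (Finset.mem_insert_self _ _)
    have hTj : ∀ x ∈ T, |x j| ≤ M⁻¹ := fun x hx => by simpa using hx j (Finset.mem_insert_self _ _)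
    obtain ⟨α, -, -, hα, hA, -⟩ := slab hM1 hKj hTj (k + 1)
    intro x hx y hy
    have hx' := (iter_mono hK hT (k + 1)).1 hx
    have hMN : M / N = δ⁻¹ := by rw [hM]; field_simp
    have c1 : ∀ z ∈ S K' T' (k + 1), ⟪z, y⟫ ≤ 1 - δ⁻¹ * |y j| := by
      intro z hz
      have hM0 : 0 < M := by linarith
      have b1 := claim1 hK hT (single_mem_polar (t := M) hTj
        (by rw [abs_of_pos hM0, mul_inv_cancel₀ hM0.ne'])) (k + 1) z hz y hy
      have b2 := claim1 hK hT (single_mem_polar (t := -M) hTj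
        (by rw [abs_neg, abs_of_pos hM0, mul_inv_cancel₀ hM0.ne'])) (k + 1) z hz y hy
      rw [real_inner_comm, inner_add_left, inner_smul_left, EuclideanSpace.inner_single_left] at b1 b2
      simp only [conj_trivial] at b1 b2
      have e : ∀ t : ℝ, 1 / N * (M * t) = δ⁻¹ * t := fun t => by rw [← hMN]; ring
      rw [neg_mul, mul_neg, e] at b2
      rw [e] at b1
      rcases abs_cases (y j) with h | h <;> rw [h.1] <;> linarith
    set β := 1 - δ⁻¹ * |y j| with hβ
    have hβ0 : 0 ≤ β := by simpa using c1 0 (zero_mem_S _ _ _)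
    have c2 : ∀ i ∈ s, |y i| ≤ 2 * a i * β := by
      intro i hi
      have h0 : 0 < a i := by linarith [ha i]
      obtain ⟨α, -, hα, -, hA, -⟩ := slab (K := K') (T := T') (ha i) (fun x hx => hx i hi)
        (fun x hx => hx i hi) k
      have hA' : ∀ x ∈ (iter K' T' k).1, |x i| ≤ a i := fun x hx => (hA x hx).trans hα
      have b1 := c1 _ ⟨_, single_mem_polar (t := (a i)⁻¹) hA'
        (by rw [abs_of_pos (inv_pos.2 h0), inv_mul_cancel₀ h0.ne']), 0, zero_mem_S _ _ _, rfl⟩
      have b2 := c1 _ ⟨_, single_mem_polar (t := -(a i)⁻¹) hA'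
        (by rw [abs_neg, abs_of_pos (inv_pos.2 h0), inv_mul_cancel₀ h0.ne']), 0, zero_mem_S _ _ _, rfl⟩
      simp only [add_zero, inner_smul_left, EuclideanSpace.inner_single_left, conj_trivial] at b1 b2
      have : (a i)⁻¹ * |y i| ≤ 2 * β := by
        rcases abs_cases (y i) with h | h <;> rw [h.1] <;> linarith
      rw [inv_mul_le_iff₀ h0] at this
      linarith
    have c3 : ∑ i ∈ s, x i * y i ≤ (1 + δ) * ((1 + δ) * β) := by
      rw [← div_le_iff₀' (by linarith)]
      apply le_of_forall_gt_imp_ge_of_dense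
      intro γ hγ
      have hγ0 : 0 < γ := lt_of_le_of_lt (by positivity) hγ
      have hy' : γ⁻¹ • y ∈ (iter K' T' (k + 1)).2 := by
        refine claimD (U := {q | q = 0 ∨ ∃ i ∈ s, ∃ t, |t| ≤ a i ∧ q = EuclideanSpace.single i t})
          (Or.inl rfl) ?_ (k + 1) _ ?_
        · intro w hw i hi
          have h0 : 0 < a i := by linarith [ha i]
          have b1 := hw _ (Or.inr ⟨i, hi, a i, by rw [abs_of_pos h0], rfl⟩)
          have b2 := hw _ (Or.inr ⟨i, hi, -a i, by rw [abs_neg, abs_of_pos h0], rfl⟩)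
          simp only [EuclideanSpace.inner_single_left, conj_trivial] at b1 b2
          show |w i| ≤ (a i)⁻¹
          rw [inv_eq_one_div, le_div_iff₀ h0]
          rcases abs_cases (w i) with h | h <;> rw [h.1] <;> linarith
        · intro z hz q hq
          have b1 := c1 z hz
          have b2 : 1 / N * ⟪q, y⟫ ≤ δ * β := by
            rcases hq with rfl | ⟨i, hi, t, ht, rfl⟩
            · simp; positivity
            · rw [EuclideanSpace.inner_single_left, conj_trivial, one_div, inv_mul_le_iff₀ (by linarith)]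
              have h0 : 0 < a i := by linarith [ha i]
              calc t * y i ≤ |t| * |y i| := by rw [← abs_mul]; exact le_abs_self _
                _ ≤ a i * (2 * a i * β) := by gcongr; exact c2 i hi
                _ = 2 * a i ^ 2 * β := by ring
                _ ≤ δ * N * β := mul_le_mul_of_nonneg_right (by linarith [hRi i]) hβ0
                _ = N * (δ * β) := by ring
          simp only [inner_smul_right]
          rw [mul_left_comm, ← mul_add, inv_mul_le_iff₀ hγ0]
          linarith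
      have := hm' x hx' _ hy'
      simp only [PiLp.smul_apply, smul_eq_mul, mul_left_comm _ γ⁻¹, ← Finset.mul_sum] at this
      rw [inv_mul_le_iff₀ hγ0] at this
      rw [div_le_iff₀ (by linarith)]
      exact this
    rw [Finset.sum_insert hj]
    have c4 : x j * y j ≤ (δ⁻¹ + 1) * |y j| := by
      refine (le_abs_self _).trans ?_
      rw [abs_mul, ← hMN]
      exact mul_le_mul_of_nonneg_right ((hA x hx).trans hα) (abs_nonneg _)
    have c5 : |y j| ≤ δ := by
      have : δ⁻¹ * |y j| ≤ 1 := by linarith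
      rw [inv_mul_le_iff₀ hδ0] at this; linarith
    have c6 : β ≤ 1 := by
      have : 0 ≤ δ⁻¹ * |y j| := by positivity
      linarith
    nlinarith [mul_nonneg hδ0.le hδ0.le, mul_nonneg hδ0.le (sub_nonneg.2 c6),
      mul_nonneg (mul_nonneg hδ0.le hδ0.le) (sub_nonneg.2 c6)]

theorem geomMean_subset {K T : Set (E n)} {m : ℕ} {l C : ℝ} (hl : 0 < l)
    (h : Pair Finset.univ K T m l) (hC : ∀ x ∈ (iter K T m).1, ∀ y ∈ (iter K T m).1, ⟪x, y⟫ ≤ C)
    (hm : 1 ≤ m) : geomMean K T ⊆ Metric.closedBall 0 √l := by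
  intro x hx
  have hx' : ∀ k, m ≤ k → x ∈ (iter K T k).1 := by
    intro k hk
    obtain ⟨k, rfl⟩ : ∃ j, k = j + 1 := ⟨k - 1, by omega⟩
    exact mem_iInter.1 hx k
  have key : ∀ j, ∀ z ∈ (iter K T (m + j)).1, ⟪x, z⟫ ≤ l + |C| * (1 / 2) ^ j := by
    intro j
    induction j with
    | zero => intro z hz; simpa using (hC x (hx' m le_rfl) z hz).trans (by linarith [le_abs_self C])
    | succ j ih =>
      intro z hz
      obtain ⟨a, ha, b, hb, rfl⟩ := mem_A.1 hz
      have b1 := ih a ha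
      have b2 := h.le hl (Nat.le_add_right m j) x (hx' _ (Nat.le_add_right m j)) b hb
      have b3 : ⟪x, b⟫ = ∑ i, x i * b i := by simp [PiLp.inner_apply, mul_comm]
      rw [inner_smul_right, inner_add_right, pow_succ]
      linarith
  have lim : Filter.Tendsto (fun j : ℕ => l + |C| * (1 / 2 : ℝ) ^ j) Filter.atTop
      (nhds (l + |C| * 0)) := tendsto_const_nhds.add
    (tendsto_const_nhds.mul (tendsto_pow_atTop_nhds_zero_of_lt_one (by norm_num) (by norm_num)))
  have := ge_of_tendsto' lim fun j => key j x (hx' _ (Nat.le_add_right m j))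
  rw [mem_closedBall_zero_iff]
  apply Real.le_sqrt_of_sq_le
  rw [← real_inner_self_eq_norm_sq]; simpa using this

theorem vol_box (a : Fin n → ℝ) (ha : ∀ i, 0 ≤ a i) :
    (volume (box Finset.univ a)).toReal = ∏ i, (2 * a i) := by
  have e : box Finset.univ a = WithLp.ofLp ⁻¹' (Icc (fun i => -a i) a) := by
    ext x; simp [box, abs_le, Pi.le_def, forall_and]
  rw [e, (PiLp.volume_preserving_ofLp (Fin n)).measure_preimage measurableSet_Icc.nullMeasurableSet,
    Real.volume_Icc_pi_toReal (fun i => by simpa using ha i)]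
  exact Finset.prod_congr rfl fun i _ => by ring

theorem box_body (a : Fin n → ℝ) (ha : ∀ i, 0 < a i) : IsSymmBody (box Finset.univ a) := by
  have e : box Finset.univ a = WithLp.toLp 2 '' (Icc (fun i => -a i) a) := by
    ext x
    constructor
    · intro hx
      exact ⟨x.ofLp, ⟨fun i => (abs_le.1 (hx i (Finset.mem_univ _))).1,
        fun i => (abs_le.1 (hx i (Finset.mem_univ _))).2⟩, rfl⟩
    · rintro ⟨y, hy, rfl⟩ i _
      exact abs_le.2 ⟨hy.1 i, hy.2 i⟩
  refine ⟨e ▸ isCompact_Icc.image (by fun_prop), ?_, ⟨0, ?_⟩, ?_⟩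
  · rw [e]; exact (convex_Icc _ _).linear_image (WithLp.linearEquiv 2 ℝ (Fin n → ℝ)).symm.toLinearMap
  · have ho : IsOpen {x : E n | ∀ i, |x i| < a i} := by
      rw [setOf_forall]
      exact isOpen_iInter_of_finite fun i => isOpen_lt (by fun_prop) (by fun_prop)
    exact interior_maximal (fun x hx i _ => (hx i).le) ho (by simpa using ha)
  · ext x; simp [box]

theorem g_le (n : ℕ) (hn : 1 ≤ n) :
    g n ≤ √Real.pi ^ n / Real.Gamma (n / 2 + 1) / 2 ^ n := by
  have : Nonempty (Fin n) := ⟨⟨0, hn⟩⟩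
  have hκ : 0 ≤ √Real.pi ^ n / Real.Gamma (n / 2 + 1) := by
    have := Real.Gamma_pos_of_pos (s := n / 2 + 1) (by positivity)
    positivity
  have key : ∀ l : ℝ, 1 < l → g n ≤ √l ^ n * (√Real.pi ^ n / Real.Gamma (n / 2 + 1)) / 2 ^ n := by
    intro l hl
    obtain ⟨a, ha, m, hm⟩ := exists_scales (Finset.univ : Finset (Fin n)) l hl
    have ha0 : ∀ i, 0 < a i := fun i => by linarith [ha i]
    have hsub := geomMean_subset (by linarith) (hm.succ (by linarith)) (C := ∑ i, a i * a i)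
      (fun x hx y hy => by
        have b3 : ⟪x, y⟫ = ∑ i, x i * y i := by simp [PiLp.inner_apply, mul_comm]
        rw [b3]
        refine Finset.sum_le_sum fun i _ => (le_abs_self _).trans ?_
        obtain ⟨α, -, hα, -, hA, -⟩ := slab (K := box Finset.univ a)
          (T := box Finset.univ fun i => (a i)⁻¹) (ha i) (fun x hx => hx i (Finset.mem_univ _))
          (fun x hx => hx i (Finset.mem_univ _)) (m + 1)
        rw [abs_mul]
        exact mul_le_mul ((hA x hx).trans hα) ((hA y hy).trans hα) (abs_nonneg _) (ha0 i).le)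
      (Nat.le_add_left 1 m)
    refine csInf_le_of_le ⟨0, ?_⟩ ⟨_, _, box_body a ha0, box_body _ (fun i => inv_pos.2 (ha0 i)), rfl⟩ ?_
    · rintro _ ⟨K, T, -, -, rfl⟩; positivity
    · rw [vol_box _ fun i => (ha0 i).le, vol_box _ fun i => (inv_pos.2 (ha0 i)).le,
        ← Finset.prod_mul_distrib]
      have e : ∏ i, 2 * a i * (2 * (a i)⁻¹) = ((2 : ℝ) ^ n) ^ 2 := by
        rw [Finset.prod_congr rfl (g := fun _ => (2 : ℝ) ^ 2) fun i _ => by
          have := (ha0 i).ne'
          field_simp]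
        simp [← pow_mul, mul_comm]
      rw [e, Real.sqrt_sq (by positivity)]
      gcongr
      have h1 := measure_mono (μ := volume) hsub
      rw [EuclideanSpace.volume_closedBall, Fintype.card_fin, ← ENNReal.ofReal_pow (by positivity),
        ← ENNReal.ofReal_mul (by positivity)] at h1
      exact ENNReal.toReal_le_of_le_ofReal (by positivity) h1
  have lim : Filter.Tendsto (fun l : ℝ => √l ^ n * (√Real.pi ^ n / Real.Gamma (n / 2 + 1)) / 2 ^ n)
      (nhdsWithin 1 (Ioi 1)) (nhds (√1 ^ n * (√Real.pi ^ n / Real.Gamma (n / 2 + 1)) / 2 ^ n)) :=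
    tendsto_nhdsWithin_of_tendsto_nhds (Continuous.tendsto (by fun_prop) 1)
  have := ge_of_tendsto lim (Filter.eventually_of_mem self_mem_nhdsWithin key)
  simpa using this

theorem g_small (c : ℝ) (hc : 0 < c) : ∃ n : ℕ, 1 ≤ n ∧ g n < c ^ n := by
  have lim := FloorSemiring.tendsto_pow_div_factorial_atTop (Real.pi / (4 * c ^ 2))
  obtain ⟨m, hm1, hm⟩ := ((Filter.eventually_ge_atTop 1).and
    (lim.eventually (gt_mem_nhds one_pos))).exists
  refine ⟨2 * m, by omega, (g_le _ (by omega)).trans_lt ?_⟩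
  have e : ((2 * m : ℕ) : ℝ) / 2 + 1 = m + 1 := by push_cast; ring
  rw [e, Real.Gamma_nat_eq_factorial, pow_mul, pow_mul, pow_mul, Real.sq_sqrt Real.pi_pos.le]
  rw [div_pow, mul_pow, div_div, div_lt_one (by positivity)] at hm
  rw [div_div, div_lt_iff₀ (by positivity)]
  norm_num
  linarith

end Pool.Agent.H81.GeomMean
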