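import Mathlib
import Pool.Agent.H81.PL

namespace Pool.Agent.H81.SteinerPolar

open Set MeasureTheory Metric
open scoped ENNReal Pointwise RealInnerProductSpace

section abstract

variable {E : Type*} [NormedAddCommGroup E] [InnerProductSpace ℝ E] {J : Type} [Fintype J]

/-- zonotope -/
def zon (v : J → E) : Set E := (fun s : J → ℝ => ∑ j, s j • v j) '' {s | ∀ j, |s j| ≤ 1}

/-- its polar -/
def kb (v : J → E) : Set E := {x | ∑ j, |⟪v j, x⟫| ≤ 1}

theorem cube_eq : {s : J → ℝ | ∀ j, |s j| ≤ 1} = closedBall 0 1 := by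
  ext s
  simp [pi_norm_le_iff_of_nonneg]

theorem zon_compact (v : J → E) : IsCompact (zon v) := by
  rw [zon, cube_eq]
  exact (isCompact_closedBall _ _).image (by fun_prop)

theorem zon_convex (v : J → E) : Convex ℝ (zon v) := by
  rw [zon, cube_eq]
  exact (convex_closedBall _ _).linear_image (Fintype.linearCombination ℝ v)

theorem zon_neg {v : J → E} {z : E} (hz : z ∈ zon v) : -z ∈ zon v := by
  obtain ⟨s, hs, rfl⟩ := hz
  exact ⟨-s, fun j => by simpa using hs j, by simp⟩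

theorem inner_zon_le {v : J → E} {z : E} (hz : z ∈ zon v) (u : E) : ⟪z, u⟫ ≤ ∑ j, |⟪v j, u⟫| := by
  obtain ⟨s, hs, rfl⟩ := hz
  simp only [sum_inner, inner_smul_left, conj_trivial]
  refine Finset.sum_le_sum fun j _ => (le_abs_self _).trans ?_
  rw [abs_mul]
  exact mul_le_of_le_one_left (abs_nonneg _) (hs j)

theorem exists_sign (r : ℝ) : ∃ e : ℝ, |e| = 1 ∧ e * r = |r| := by
  rcases le_total 0 r with h | h
  · exact ⟨1, by simp, by simp [abs_of_nonneg h]⟩
  · exact ⟨-1, by simp, by simp [abs_of_nonpos h]⟩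

theorem polar_kb [CompleteSpace E] (v : J → E) : {y | ∀ x ∈ kb v, ⟪x, y⟫ ≤ (1 : ℝ)} = zon v := by
  ext y
  constructor
  · intro hy
    by_contra hn
    obtain ⟨f, c, h1, h2⟩ := geometric_hahn_banach_closed_point (zon_convex v)
      (zon_compact v).isClosed hn
    set x := (InnerProductSpace.toDual ℝ E).symm f with hx
    have hf : ∀ z, f z = ⟪x, z⟫ := fun z => by simp [hx]
    choose e he1 he2 using fun j => exists_sign ⟪v j, x⟫
    have h3 := h1 _ ⟨e, fun j => (he1 j).le, rfl⟩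
    rw [hf, real_inner_comm] at h3
    simp only [sum_inner, inner_smul_left, conj_trivial, he2] at h3
    have hc : 0 < c := lt_of_le_of_lt (Finset.sum_nonneg fun j _ => abs_nonneg _) h3
    have h4 := hy (c⁻¹ • x) (by
      simp only [kb, mem_setOf_eq, inner_smul_right, abs_mul, abs_of_pos (inv_pos.2 hc),
        ← Finset.mul_sum]
      rw [inv_mul_le_iff₀ hc]; linarith)
    rw [inner_smul_left, conj_trivial, inv_mul_le_iff₀ hc, ← hf] at h4
    linarith
  · intro hy x hx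
    rw [real_inner_comm]
    exact (inner_zon_le hy x).trans hx

theorem kb_convex (v : J → E) : Convex ℝ (kb v) := by
  intro x hx y hy a b ha hb hab
  have hx' : ∑ j, |⟪v j, x⟫| ≤ 1 := hx
  have hy' : ∑ j, |⟪v j, y⟫| ≤ 1 := hy
  have : ∑ j, |⟪v j, a • x + b • y⟫| ≤ ∑ j, (a * |⟪v j, x⟫| + b * |⟪v j, y⟫|) := by
    refine Finset.sum_le_sum fun j _ => ?_
    rw [inner_add_right, inner_smul_right, inner_smul_right]
    refine (abs_add_le _ _).trans ?_
    rw [abs_mul, abs_mul, abs_of_nonneg ha, abs_of_nonneg hb]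
  rw [Finset.sum_add_distrib, ← Finset.mul_sum, ← Finset.mul_sum] at this
  show ∑ j, |⟪v j, a • x + b • y⟫| ≤ 1
  nlinarith

theorem kb_neg {v : J → E} {x : E} (hx : x ∈ kb v) : -x ∈ kb v := by
  simpa [kb] using hx

theorem kb_int (v : J → E) : (interior (kb v)).Nonempty := by
  have h : {x | ∑ j, |⟪v j, x⟫| < 1} ⊆ interior (kb v) :=
    interior_maximal (fun x (hx : ∑ j, |⟪v j, x⟫| < 1) => hx.le) (isOpen_lt (by fun_prop) (by fun_prop))
  exact ⟨0, h (by simp)⟩

theorem kb_compact [FiniteDimensional ℝ E] {v : J → E} {α : ℝ} (hα : 0 < α)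
    (hA : ∀ u : E, ‖u‖ = 1 → α ≤ ∑ j, |⟪v j, u⟫|) : IsCompact (kb v) := by
  refine (isCompact_closedBall (0 : E) α⁻¹).of_isClosed_subset
    (isClosed_le (by fun_prop) (by fun_prop)) fun x hx => ?_
  rw [mem_closedBall_zero_iff]
  rcases eq_or_ne x 0 with rfl | h0
  · simp [hα.le]
  have hn : 0 < ‖x‖ := norm_pos_iff.2 h0
  have h1 := hA (‖x‖⁻¹ • x) (by rw [norm_smul, norm_inv, norm_norm, inv_mul_cancel₀ hn.ne'])
  simp only [inner_smul_right, abs_mul, abs_of_pos (inv_pos.2 hn), ← Finset.mul_sum] at h1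
  have hx' : ∑ j, |⟪v j, x⟫| ≤ 1 := hx
  rw [le_inv_mul_iff₀ hn] at h1
  rw [le_inv_comm₀ hn hα, inv_eq_one_div, le_div_iff₀ hn]
  linarith

theorem chord {K : Set E} (hc : IsCompact K) (hK : Convex ℝ K) {x u : E} (hu : ‖u‖ = 1) {σ : ℝ}
    (h1 : ∃ s : ℝ, x + s • u ∈ K)
    (h2 : ENNReal.ofReal (2 * |σ|) ≤ volume {s : ℝ | x + s • u ∈ K}) :
    ∃ s1 s2 : ℝ, x + s1 • u ∈ K ∧ x + s2 • u ∈ K ∧ s1 - s2 = 2 * σ := by
  have hiso : Isometry (fun s : ℝ => x + s • u) := by
    apply Isometry.of_dist_eq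
    intro a b
    rw [dist_add_left, dist_eq_norm, ← sub_smul, norm_smul, hu, mul_one, dist_eq_norm]
  have hcomp : IsCompact {s : ℝ | x + s • u ∈ K} := hiso.isClosedEmbedding.isCompact_preimage hc
  have hconv : Convex ℝ {s : ℝ | x + s • u ∈ K} := by
    intro p hp q hq a b ha hb hab
    have := hK hp hq ha hb hab
    have e : a • (x + p • u) + b • (x + q • u) = (a + b) • x + (a • p + b • q) • u := by
      simp only [smul_eq_mul]; module
    rw [e, hab, one_smul] at this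
    exact this
  have hI := eq_Icc_of_connected_compact (hconv.isConnected h1) hcomp
  set l := sInf {s : ℝ | x + s • u ∈ K}
  set m := sSup {s : ℝ | x + s • u ∈ K}
  obtain ⟨s, hs⟩ := h1
  have hs' : s ∈ Icc l m := by rw [← hI]; exact hs
  have hlm : l ≤ m := hs'.1.trans hs'.2
  rw [hI, Real.volume_Icc, ENNReal.ofReal_le_ofReal_iff (by linarith)] at h2
  have mem : ∀ s ∈ Icc l m, x + s • u ∈ K := fun s hs => by rw [← hI] at hs; exact hs
  rcases le_total 0 σ with h | h
  · rw [abs_of_nonneg h] at h2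
    exact ⟨l + 2 * σ, l, mem _ ⟨by linarith, by linarith⟩, mem _ ⟨le_rfl, hlm⟩, by ring⟩
  · rw [abs_of_nonpos h] at h2
    exact ⟨l, l - 2 * σ, mem _ ⟨le_rfl, hlm⟩, mem _ ⟨by linarith, by linarith⟩, by ring⟩

/-- points of `L` with a long symmetric chord -/
def LT (L : Set E) (u : E) (T : ℝ) : Set E := {z | ∃ w, z + w ∈ L ∧ z - w ∈ L ∧ T ≤ ⟪w, u⟫}

theorem LT_compact {L : Set E} (hc : IsCompact L) (u : E) (T : ℝ) : IsCompact (LT L u T) := by
  have e : LT L u T = (fun p : E × E => (1 / 2 : ℝ) • (p.1 + p.2)) ''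
      ((L ×ˢ L) ∩ {p | T ≤ ⟪(1 / 2 : ℝ) • (p.1 - p.2), u⟫}) := by
    ext z
    constructor
    · rintro ⟨w, h1, h2, h3⟩
      refine ⟨(z + w, z - w), ⟨⟨h1, h2⟩, ?_⟩, by simp only; module⟩
      have : (1 / 2 : ℝ) • (z + w - (z - w)) = w := by module
      simp only [mem_setOf_eq, this, h3]
    · rintro ⟨⟨p, q⟩, ⟨⟨h1, h2⟩, h3⟩, rfl⟩
      refine ⟨(1 / 2 : ℝ) • (p - q), ?_, ?_, h3⟩
      · convert h1 using 1; simp only; module
      · convert h2 using 1; simp only; module
  rw [e]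
  exact ((hc.prod hc).inter_right (isClosed_le (by fun_prop) (by fun_prop))).image (by fun_prop)

theorem LT_mid {L : Set E} (hL : Convex ℝ L) (hs : ∀ z ∈ L, -z ∈ L) {u : E} {T : ℝ} {y z : E}
    (hy : y ∈ LT L u T) (hz : z ∈ LT L u T) : (1 / 2 : ℝ) • y + (1 / 2 : ℝ) • (-z) ∈ LT L u T := by
  obtain ⟨w, h1, h2, h3⟩ := hy
  obtain ⟨w', h1', h2', h3'⟩ := hz
  refine ⟨(1 / 2 : ℝ) • w + (1 / 2 : ℝ) • w', ?_, ?_, ?_⟩
  · convert hL h1 (hs _ h2') (by norm_num : (0 : ℝ) ≤ 1 / 2) (by norm_num : (0 : ℝ) ≤ 1 / 2)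
      (by norm_num) using 1
    module
  · convert hL h2 (hs _ h1') (by norm_num : (0 : ℝ) ≤ 1 / 2) (by norm_num : (0 : ℝ) ≤ 1 / 2)
      (by norm_num) using 1
    module
  · simp only [inner_add_left, inner_smul_left, conj_trivial]; linarith

theorem polar_mem {K L : Set E} (hL : Convex ℝ L) (hKL : ∀ x ∈ K, ∀ y ∈ L, ⟪x, y⟫ ≤ (1 : ℝ))
    {u z x : E} {T t s1 s2 : ℝ} (hT : 0 < T) (hz : z ∈ LT L u T) (hzu : ⟪u, z⟫ = 0) (ht : |t| ≤ T)
    (h1 : x + s1 • u ∈ K) (h2 : x + s2 • u ∈ K) (h3 : s1 - s2 = 2 * ⟪x, u⟫) :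
    ⟪x, z + t • u⟫ ≤ (1 : ℝ) := by
  obtain ⟨w, hw1, hw2, hw3⟩ := hz
  have hp : 0 < ⟪w, u⟫ := hT.trans_le hw3
  set r := t / ⟪w, u⟫ with hr
  have hr1 : |r| ≤ 1 := by
    rw [hr, abs_div, abs_of_pos hp, div_le_one hp]; linarith
  obtain ⟨hr2, hr3⟩ := abs_le.1 hr1
  have m1 : z + r • w ∈ L := by
    convert hL hw1 hw2 (show 0 ≤ (1 + r) / 2 by linarith) (show 0 ≤ (1 - r) / 2 by linarith)
      (by ring) using 1
    module
  have m2 : z - r • w ∈ L := by
    convert hL hw1 hw2 (show 0 ≤ (1 - r) / 2 by linarith) (show 0 ≤ (1 + r) / 2 by linarith)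
      (by ring) using 1
    module
  have a1 := hKL _ h1 _ m1
  have a2 := hKL _ h2 _ m2
  have e : r * ⟪u, w⟫ = t := by rw [real_inner_comm, hr]; field_simp
  simp only [inner_add_left, inner_add_right, inner_sub_right, inner_smul_left, inner_smul_right,
    conj_trivial, hzu] at a1 a2 ⊢
  have e2 : s1 * (r * ⟪u, w⟫) - s2 * (r * ⟪u, w⟫) = 2 * ⟪x, u⟫ * t := by rw [e, ← h3]; ring
  nlinarith

variable [FiniteDimensional ℝ E] [MeasurableSpace E] [BorelSpace E]

theorem section_bound {C M : Set E} (hC : IsCompact C)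
    (hmid : ∀ y ∈ C, ∀ z ∈ C, (1 / 2 : ℝ) • y + (1 / 2 : ℝ) • (-z) ∈ C) {u : E} (hu : ‖u‖ = 1)
    {S T : ℝ} (hS : 0 < S) (hT : 0 < T)
    (hM : ∀ z ∈ C, ⟪u, z⟫ = 0 → ∀ t : ℝ, |t| ≤ T → z + t • u ∈ M) :
    ENNReal.ofReal (T / S) * volume (C ∩ {y | |⟪y, u⟫| ≤ S}) ≤ volume M := by
  have hu0 : u ≠ 0 := by rintro rfl; simp at hu
  have mp := ((ℝ ∙ u).measurePreserving_measurableEquivProd (0 : E)).symm
  rw [InnerProductSpace.euclideanHausdorffMeasure_eq_volume] at mp
  set e := ((ℝ ∙ u).measurableEquivProd (0 : E)).symm with he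
  have happ : ∀ q, e q = q.1.val + q.2.val := fun q => by simp [he]
  set C0 : Set (ℝ ∙ u)ᗮ := {y | y.val ∈ C} with hC0
  have mC : ∀ s : E, MeasurableSet {y : (ℝ ∙ u)ᗮ | s + y.val ∈ C} := fun s =>
    hC.measurableSet.preimage (by fun_prop)
  have mC0 : MeasurableSet C0 := hC.measurableSet.preimage measurable_subtype_coe
  have hsec : ∀ s : E, volume {y : (ℝ ∙ u)ᗮ | s + y.val ∈ C} ≤ volume C0 := by
    intro s
    have h := (PL.hasPL_volume (a := 1 / 2) (b := 1 / 2) (by norm_num) (by norm_num) (by norm_num)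
      (ℝ ∙ u)ᗮ).bm (by norm_num) (by norm_num) (mC s) (mC s).neg mC0 (by
        intro x hx y hy
        have := hmid _ hx _ hy
        show ((1 / 2 : ℝ) • x + (1 / 2 : ℝ) • y : (ℝ ∙ u)ᗮ).val ∈ C
        convert this using 1
        simp only [Submodule.coe_add, Submodule.coe_smul, Submodule.coe_neg]
        module)
    rw [Measure.measure_neg, ← ENNReal.rpow_add_of_nonneg _ _ (by norm_num) (by norm_num)] at h
    norm_num at h
    exact h
  have hnorm : ∀ s : (ℝ ∙ u), ∃ t : ℝ, s.val = t • u ∧ ‖s‖ = |t| := by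
    rintro ⟨s, hs⟩
    obtain ⟨t, rfl⟩ := Submodule.mem_span_singleton.1 hs
    exact ⟨t, rfl, by simp [norm_smul, hu]⟩
  have up : volume (C ∩ {y | |⟪y, u⟫| ≤ S}) ≤ volume (closedBall (0 : ℝ ∙ u) S) * volume C0 := by
    have hm : MeasurableSet (C ∩ {y | |⟪y, u⟫| ≤ S}) :=
      hC.measurableSet.inter (isClosed_le (by fun_prop) (by fun_prop)).measurableSet
    rw [← mp.measure_preimage_equiv, Measure.volume_eq_prod, Measure.prod_apply (e.measurable hm),
      mul_comm, ← lintegral_indicator_const measurableSet_closedBall]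
    apply lintegral_mono
    intro s
    simp only
    by_cases hs : s ∈ closedBall (0 : ℝ ∙ u) S
    · rw [indicator_of_mem hs]
      refine le_trans (measure_mono ?_) (hsec s.val)
      intro y hy
      have := hy.1
      rwa [happ] at this
    · have : Prod.mk s ⁻¹' (e ⁻¹' (C ∩ {y | |⟪y, u⟫| ≤ S})) = ∅ := by
        rw [eq_empty_iff_forall_notMem]
        intro y hy
        apply hs
        have h2 : |⟪e (s, y), u⟫| ≤ S := hy.2
        obtain ⟨t, h3, h4⟩ := hnorm s
        have h5 : ⟪y.val, u⟫ = 0 := by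
          rw [real_inner_comm]; exact Submodule.mem_orthogonal_singleton_iff_inner_right.1 y.2
        rw [happ, inner_add_left, h5, h3, inner_smul_left, real_inner_self_eq_norm_sq, hu] at h2
        rw [mem_closedBall_zero_iff, h4]
        simpa using h2
      rw [this]; simp
  have low : volume (closedBall (0 : ℝ ∙ u) T) * volume C0 ≤ volume M := by
    rw [← mp.measure_preimage_equiv, ← Measure.prod_prod, Measure.volume_eq_prod]
    apply measure_mono
    rintro ⟨s, y⟩ ⟨hs, hy⟩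
    obtain ⟨t, h3, h4⟩ := hnorm s
    rw [mem_closedBall_zero_iff, h4] at hs
    show e (s, y) ∈ M
    rw [happ, h3, add_comm]
    exact hM _ hy (Submodule.mem_orthogonal_singleton_iff_inner_right.1 y.2) t hs
  refine le_trans ?_ low
  refine (mul_le_mul_right up _).trans ?_
  rw [← mul_assoc]
  apply mul_le_mul_left
  have h := Measure.addHaar_closedBall_mul (volume : Measure (ℝ ∙ u)) 0 (r := T / S) (s := S)
    (by positivity) hS.le
  rw [finrank_span_singleton hu0, pow_one, div_mul_cancel₀ _ hS.ne'] at h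
  rw [h]

theorem average {Γ : Type} [Fintype Γ] (g : Γ → E →ₗᵢ[ℝ] E) {D G : Set E} (hD : MeasurableSet D)
    {θ : ℝ} (h : ∀ z ∈ G, θ ≤ ∑ a, D.indicator (fun _ => (1 : ℝ)) (g a z)) :
    ENNReal.ofReal θ * volume G ≤ Fintype.card Γ * volume D := by
  have mp : ∀ a, MeasurePreserving (g a) volume volume := fun a =>
    ((g a).toLinearIsometryEquiv rfl).measurePreserving
  have hm : ∀ a, Measurable fun z => D.indicator (fun _ => (1 : ℝ≥0∞)) (g a z) := fun a =>
    (measurable_const.indicator hD).comp (mp a).measurable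
  have h1 := mul_meas_ge_le_lintegral (μ := (volume : Measure E))
    (Finset.measurable_sum Finset.univ fun a _ => hm a) (ENNReal.ofReal θ)
  rw [lintegral_finset_sum _ fun a _ => hm a] at h1
  have h2 : ∀ a, ∫⁻ z, D.indicator (fun _ => (1 : ℝ≥0∞)) (g a z) = volume D := fun a => by
    rw [(mp a).lintegral_comp (measurable_const.indicator hD), lintegral_indicator_const hD, one_mul]
  simp only [h2, Finset.sum_const, Finset.card_univ, nsmul_eq_mul] at h1
  refine le_trans (mul_le_mul_right (measure_mono fun z hz => ?_) _) h1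
  refine (ENNReal.ofReal_le_ofReal (h z hz)).trans ?_
  rw [ENNReal.ofReal_sum_of_nonneg fun a _ => indicator_nonneg (fun _ _ => zero_le_one) _]
  apply le_of_eq
  refine Finset.sum_congr rfl fun a _ => ?_
  by_cases hz : g a z ∈ D <;> simp [hz]

theorem count_le (J : Type) [Fintype J] [DecidableEq J] (m : ℕ) :
    (((Fintype.piFinset fun _ : J => Finset.range (m + 1)).filter fun k => ∑ j, k j ≤ m).card : ℝ) ≤
      2 ^ m * 2 ^ Fintype.card J := by
  have h1 : ∑ k ∈ Fintype.piFinset fun _ : J => Finset.range (m + 1), ∏ j, (1 / 2 : ℝ) ^ k j ≤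
      2 ^ Fintype.card J := by
    rw [← Finset.prod_univ_sum (fun _ : J => Finset.range (m + 1)) fun _ i => (1 / 2 : ℝ) ^ i,
      Finset.prod_const, Finset.card_univ]
    exact pow_le_pow_left₀ (by positivity) (sum_geometric_two_le _) _
  have h2 : ∑ k ∈ (Fintype.piFinset fun _ : J => Finset.range (m + 1)).filter
      fun k => ∑ j, k j ≤ m, (1 / 2 : ℝ) ^ m ≤
      ∑ k ∈ Fintype.piFinset fun _ : J => Finset.range (m + 1), ∏ j, (1 / 2 : ℝ) ^ k j := by
    refine le_trans (Finset.sum_le_sum fun k hk => ?_)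
      (Finset.sum_le_sum_of_subset_of_nonneg (Finset.filter_subset _ _) fun _ _ _ => by positivity)
    rw [Finset.prod_pow_eq_pow_sum]
    exact pow_le_pow_of_le_one (by norm_num) (by norm_num) (Finset.mem_filter.1 hk).2
  rw [Finset.sum_const, nsmul_eq_mul] at h2
  have h3 := h2.trans h1
  rw [one_div, inv_pow, mul_inv_le_iff₀ (by positivity)] at h3
  linarith

theorem bad_le (v : J → E) {n : ℕ} (hn : Module.finrank ℝ E = n) (hn1 : 1 ≤ n)
    (hJ : Fintype.card J = 2 * n) :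
    volume ((fun s : J → ℝ => ∑ j, s j • v j) ''
      {s | (∀ j, |s j| ≤ 1) ∧ ∑ j, (1 - |s j|) ≤ n / 64}) ≤ ENNReal.ofReal (1 / 2) * volume (zon v) := by
  classical
  set F := (Fintype.piFinset fun _ : J => Finset.range (n + 1)).filter fun k => ∑ j, k j ≤ n with hF
  let p : (J → Bool) × (J → ℕ) → E := fun q =>
    ∑ j, ((if q.1 j then 1 else -1) * (1 - (q.2 j : ℝ) / 64)) • v j
  have hsub : (fun s : J → ℝ => ∑ j, s j • v j) ''
      {s | (∀ j, |s j| ≤ 1) ∧ ∑ j, (1 - |s j|) ≤ n / 64} ⊆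
      ⋃ q ∈ (Finset.univ ×ˢ F), p q +ᵥ ((1 / 64 : ℝ) • zon v) := by
    rintro _ ⟨s, ⟨hs1, hs2⟩, rfl⟩
    let k : J → ℕ := fun j => ⌊64 * (1 - |s j|)⌋₊
    have hk1 : ∀ j, (k j : ℝ) ≤ 64 * (1 - |s j|) := fun j => Nat.floor_le (by linarith [hs1 j])
    have hk2 : ∀ j, 64 * (1 - |s j|) < k j + 1 := fun j => Nat.lt_floor_add_one _
    have hk3 : ∑ j, k j ≤ n := by
      have : ((∑ j, k j : ℕ) : ℝ) ≤ n := by
        push_cast
        refine (Finset.sum_le_sum fun j _ => hk1 j).trans ?_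
        rw [← Finset.mul_sum]; linarith
      exact_mod_cast this
    simp only [mem_iUnion]
    refine ⟨(fun j => decide (0 ≤ s j), k), ?_, ?_⟩
    · simp only [Finset.mem_product, Finset.mem_univ, true_and, hF, Finset.mem_filter,
        Fintype.mem_piFinset, Finset.mem_range]
      exact ⟨fun j => Nat.lt_succ_of_le ((Finset.single_le_sum (fun _ _ => Nat.zero_le _)
        (Finset.mem_univ j)).trans hk3), hk3⟩
    · refine ⟨_, ⟨_, ⟨fun j => (if 0 ≤ s j then 1 else -1) * (k j - 64 * (1 - |s j|)), fun j => ?_,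
        rfl⟩, rfl⟩, ?_⟩
      · have : |(k j : ℝ) - 64 * (1 - |s j|)| ≤ 1 :=
          abs_le.2 ⟨by linarith [hk2 j], by linarith [hk1 j]⟩
        simp only
        split_ifs <;> simpa [abs_sub_comm] using this
      · simp only [vadd_eq_add, p, Finset.smul_sum, ← Finset.sum_add_distrib, smul_smul, ← add_smul]
        refine Finset.sum_congr rfl fun j _ => ?_
        congr 1
        by_cases h : 0 ≤ s j
        · simp [h, abs_of_nonneg h]; ring
        · simp [h, abs_of_neg (not_le.1 h)]; ring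
  refine (measure_mono hsub).trans ((measure_biUnion_finset_le _ _).trans ?_)
  simp only [measure_vadd, Measure.addHaar_smul, Finset.sum_const, nsmul_eq_mul]
  rw [← mul_assoc]
  apply mul_le_mul_left
  rw [← ENNReal.ofReal_natCast, ← ENNReal.ofReal_mul (by positivity)]
  apply ENNReal.ofReal_le_ofReal
  have h1 := count_le J n
  rw [Finset.card_product, Finset.card_univ, Fintype.card_fun, Fintype.card_bool, hn,
    abs_of_nonneg (by positivity)]
  push_cast
  rw [← hF, hJ] at h1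
  rw [hJ]
  calc (2 : ℝ) ^ (2 * n) * F.card * (1 / 64) ^ n
      ≤ 2 ^ (2 * n) * (2 ^ n * 2 ^ (2 * n)) * (1 / 64) ^ n := by gcongr
    _ = (1 / 2) ^ n := by
      rw [pow_mul, ← mul_pow, ← mul_pow, ← mul_pow]; norm_num
    _ ≤ 1 / 2 := pow_le_of_le_one (by norm_num) (by norm_num) (by omega)

theorem main_abs {Γ : Type} [Fintype Γ] [Nonempty Γ] (v : J → E) (g : Γ → E →ₗᵢ[ℝ] E) {n : ℕ}
    (hn : Module.finrank ℝ E = n) (hn1 : 1 ≤ n) (hJ : Fintype.card J = 2 * n)
    (hP : ∀ a, ∀ z ∈ zon v, g a z ∈ zon v) {u : E} (hu : ‖u‖ = 1)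
    (hT : ∀ j, (∑ a, |⟪g a (v j), u⟫|) * (2 * n) = Fintype.card Γ * ∑ i, |⟪v i, u⟫|)
    (hI : ∀ y ∈ zon v, ∑ a, ⟪g a y, u⟫ ^ 2 ≤ 4 * Fintype.card Γ)
    (hA : 0 < ∑ i, |⟪v i, u⟫|) {M : Set E}
    (hM : ∀ y, (∀ x s1 s2, x + s1 • u ∈ kb v → x + s2 • u ∈ kb v → s1 - s2 = 2 * ⟪x, u⟫ →
      ⟪x, y⟫ ≤ (1 : ℝ)) → y ∈ M) :
    ENNReal.ofReal ((∑ i, |⟪v i, u⟫|) / 2 ^ 24) * volume (zon v) ≤ volume M := by
  set A := ∑ i, |⟪v i, u⟫| with hAdef
  have hc := LT_compact (zon_compact v) u (A / 256)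
  have h1 := section_bound hc (fun y hy z hz => LT_mid (zon_convex v) (fun _ => zon_neg) hy hz) hu
    (S := 64) (T := A / 256) (M := M) (by norm_num) (by positivity) (fun z hz hzu t ht =>
      hM _ fun x s1 s2 a1 a2 a3 => polar_mem (zon_convex v)
        (fun x hx y hy => by rw [real_inner_comm]; exact (inner_zon_le hy x).trans hx)
        (by positivity) hz hzu ht a1 a2 a3)
  set D := LT (zon v) u (A / 256) ∩ {y | |⟪y, u⟫| ≤ 64} with hD
  have mD : MeasurableSet D :=
    hc.measurableSet.inter (isClosed_le (by fun_prop) (by fun_prop)).measurableSet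
  set G := (fun s : J → ℝ => ∑ j, s j • v j) ''
      {s | (∀ j, |s j| ≤ 1) ∧ (n : ℝ) / 64 ≤ ∑ j, (1 - |s j|)} with hG
  have hΓ : (0 : ℝ) < Fintype.card Γ := by exact_mod_cast Fintype.card_pos
  have hn0 : (0 : ℝ) < n := by exact_mod_cast hn1
  have h2 := average g (G := G) mD (θ := Fintype.card Γ / 512) (by
    rintro _ ⟨s, ⟨hs1, hs2⟩, rfl⟩
    have hz : ∑ j, s j • v j ∈ zon v := ⟨s, hs1, rfl⟩
    set z := ∑ j, s j • v j with hzdef
    let H : Γ → ℝ := fun a => ∑ j, (1 - |s j|) * |⟪g a (v j), u⟫|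
    have hpt : ∀ a, (H a - A / 256) / A - ⟪g a z, u⟫ ^ 2 / 64 ^ 2 ≤
        D.indicator (fun _ => (1 : ℝ)) (g a z) := by
      intro a
      choose e he1 he2 using fun j => exists_sign ⟪g a (v j), u⟫
      set w := ∑ j, ((1 - |s j|) * e j) • v j with hw
      have habs : ∀ j, |(1 - |s j|) * e j| = 1 - |s j| := fun j => by
        rw [abs_mul, he1, mul_one, abs_of_nonneg (by linarith [hs1 j])]
      have hwu : ⟪g a w, u⟫ = H a := by
        simp only [hw, map_sum, map_smul, sum_inner, inner_smul_left, conj_trivial, H, mul_assoc, he2]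
      have hw0 : w ∈ zon v := ⟨_, fun j => by rw [habs]; linarith [abs_nonneg (s j)], rfl⟩
      have hw1 : z + w ∈ zon v := ⟨fun j => s j + (1 - |s j|) * e j, fun j =>
        (abs_add_le _ _).trans (by rw [habs]; linarith), by
          simp only [hzdef, hw, add_smul, Finset.sum_add_distrib]⟩
      have hw2 : z - w ∈ zon v := ⟨fun j => s j - (1 - |s j|) * e j, fun j =>
        (abs_sub _ _).trans (by rw [habs]; linarith), by
          simp only [hzdef, hw, sub_smul, Finset.sum_sub_distrib]⟩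
      have hHA : H a ≤ A := by rw [← hwu]; exact inner_zon_le (hP a w hw0) u
      have b1 : (H a - A / 256) / A ≤ 1 := by
        rw [div_le_one hA]
        have : H a ≤ A := hHA
        linarith
      have b2 : 0 ≤ ⟪g a z, u⟫ ^ 2 / 64 ^ 2 := by positivity
      by_cases hin : g a z ∈ D
      · rw [indicator_of_mem hin]; linarith
      · rw [indicator_of_notMem hin]
        by_cases hH : A / 256 ≤ H a
        · have : 64 < |⟪g a z, u⟫| := by
            by_contra hh
            exact hin ⟨⟨g a w, by simpa using hP a _ hw1, by simpa using hP a _ hw2, hwu ▸ hH⟩,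
              not_lt.1 hh⟩
          have : 1 ≤ ⟪g a z, u⟫ ^ 2 / 64 ^ 2 := by
            rw [le_div_iff₀ (by norm_num), ← sq_abs ⟪g a z, u⟫]; nlinarith
          linarith
        · have : (H a - A / 256) / A ≤ 0 := div_nonpos_of_nonpos_of_nonneg (by linarith) hA.le
          linarith
    refine le_trans ?_ (Finset.sum_le_sum fun a _ => hpt a)
    have e1 : ∑ a, H a = (∑ j, (1 - |s j|)) * (Fintype.card Γ * A / (2 * n)) := by
      simp only [H]
      rw [Finset.sum_comm, Finset.sum_mul]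
      refine Finset.sum_congr rfl fun j _ => ?_
      rw [← Finset.mul_sum, ← hT j]
      field_simp
    have e2 : (n : ℝ) / 64 * (Fintype.card Γ * A / (2 * n)) ≤ ∑ a, H a := by
      rw [e1]; gcongr
    have e3 : (n : ℝ) / 64 * (Fintype.card Γ * A / (2 * n)) = Fintype.card Γ * A / 128 := by
      field_simp; norm_num
    rw [Finset.sum_sub_distrib, ← Finset.sum_div, ← Finset.sum_div, Finset.sum_sub_distrib,
      Finset.sum_const, Finset.card_univ, nsmul_eq_mul]
    have e4 : (Fintype.card Γ : ℝ) / 256 ≤ (∑ a, H a - Fintype.card Γ * (A / 256)) / A := by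
      rw [le_div_iff₀ hA]; linarith
    have e5 := hI z hz
    linarith)
  have h3 : ENNReal.ofReal (1 / 512) * volume G ≤ volume D := by
    rw [div_eq_mul_one_div, ENNReal.ofReal_mul hΓ.le, ENNReal.ofReal_natCast, mul_assoc] at h2
    exact (ENNReal.mul_le_mul_iff_right (by exact_mod_cast Fintype.card_pos.ne') (by simp)).1 h2
  have h4 : ENNReal.ofReal (1 / 2) * volume (zon v) ≤ volume G := by
    have b := bad_le v hn hn1 hJ
    have hcov : zon v ⊆ G ∪ (fun s : J → ℝ => ∑ j, s j • v j) ''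
        {s | (∀ j, |s j| ≤ 1) ∧ ∑ j, (1 - |s j|) ≤ n / 64} := by
      rintro _ ⟨s, hs, rfl⟩
      rcases le_total ((n : ℝ) / 64) (∑ j, (1 - |s j|)) with h | h
      · exact Or.inl ⟨s, ⟨hs, h⟩, rfl⟩
      · exact Or.inr ⟨s, ⟨hs, h⟩, rfl⟩
    have c := (measure_mono (μ := volume) hcov).trans ((measure_union_le _ _).trans
      (add_le_add_right b _))
    have e : volume (zon v) = ENNReal.ofReal (1 / 2) * volume (zon v) +
        ENNReal.ofReal (1 / 2) * volume (zon v) := by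
      rw [← add_mul, ← ENNReal.ofReal_add (by norm_num) (by norm_num)]; norm_num
    nth_rewrite 1 [e] at c
    exact (ENNReal.add_le_add_iff_right
      (ENNReal.mul_ne_top (by simp) (zon_compact v).measure_lt_top.ne)).1 c
  refine le_trans ?_ h1
  refine le_trans ?_ (mul_le_mul_right h3 _)
  refine le_trans ?_ (mul_le_mul_right (mul_le_mul_right h4 _) _)
  rw [← mul_assoc, ← mul_assoc, ← ENNReal.ofReal_mul (by positivity),
    ← ENNReal.ofReal_mul (by positivity)]
  apply le_of_eq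
  congr 2
  ring

end abstract

end Pool.Agent.H81.SteinerPolar
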