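import Mathlib
import Pool.Agent.H81.SteinerPolar

namespace Pool.Agent.H81.HadZon

open Set MeasureTheory Metric Pool.Agent.H81.SteinerPolar
open scoped ENNReal Pointwise RealInnerProductSpace

/-- the data needed by the abstract theorem -/
def Good (E : Type) [NormedAddCommGroup E] [InnerProductSpace ℝ E] (n : ℕ) (α : ℝ) : Prop :=
  ∃ (J Γ : Type) (_ : Fintype J) (_ : Fintype Γ) (_ : Nonempty Γ) (v : J → E) (g : Γ → E →ₗᵢ[ℝ] E),
    Fintype.card J = 2 * n ∧ (∀ a, ∀ z ∈ zon v, g a z ∈ zon v) ∧ ∀ u : E, ‖u‖ = 1 →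
      (∀ j, (∑ a, |⟪g a (v j), u⟫|) * (2 * n) = Fintype.card Γ * ∑ i, |⟪v i, u⟫|) ∧
      (∀ y ∈ zon v, ∑ a, ⟪g a y, u⟫ ^ 2 ≤ 4 * Fintype.card Γ) ∧ α ≤ ∑ i, |⟪v i, u⟫|

theorem Good.map {E F : Type} [NormedAddCommGroup E] [InnerProductSpace ℝ E] [NormedAddCommGroup F]
    [InnerProductSpace ℝ F] (φ : E ≃ₗᵢ[ℝ] F) {n : ℕ} {α : ℝ} (h : Good E n α) : Good F n α := by
  obtain ⟨J, Γ, iJ, iΓ, nΓ, v, g, h1, h2, h3⟩ := h
  have hz : ∀ z, z ∈ zon (fun j => φ (v j)) ↔ φ.symm z ∈ zon v := by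
    intro z
    constructor
    · rintro ⟨s, hs, rfl⟩; exact ⟨s, hs, by simp⟩
    · rintro ⟨s, hs, h⟩
      refine ⟨s, hs, ?_⟩
      have := congrArg φ h
      simpa using this
  have hi : ∀ x u, ⟪φ x, u⟫ = ⟪x, φ.symm u⟫ := fun x u => by
    rw [← φ.inner_map_map x (φ.symm u), φ.apply_symm_apply]
  refine ⟨J, Γ, iJ, iΓ, nΓ, fun j => φ (v j),
    fun a => φ.toLinearIsometry.comp ((g a).comp φ.symm.toLinearIsometry), h1, ?_, ?_⟩
  · intro a z hz'
    rw [hz] at hz' ⊢
    simpa using h2 a _ hz'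
  · intro u hu
    obtain ⟨a1, a2, a3⟩ := h3 (φ.symm u) (by simpa using hu)
    refine ⟨fun j => ?_, fun y hy => ?_, ?_⟩
    · simpa [hi] using a1 j
    · simpa [hi] using a2 _ ((hz y).1 hy)
    · simpa [hi] using a3

section had

variable {G : Type} [Fintype G] [DecidableEq G] [AddCommGroup G]

/-- isometry attached to a matrix with orthonormal columns -/
noncomputable def iso (M : G → G → ℝ) (hM : ∀ j l, ∑ i, M i j * M i l = if j = l then 1 else 0) :
    EuclideanSpace ℝ G →ₗᵢ[ℝ] EuclideanSpace ℝ G :=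
  (Matrix.toEuclideanLin (Matrix.of M)).isometryOfInner (by
    intro x y
    simp only [PiLp.inner_apply, Matrix.toEuclideanLin_apply, Matrix.mulVec, dotProduct,
      Matrix.of_apply, RCLike.inner_apply, conj_trivial]
    simp only [Finset.sum_mul, Finset.mul_sum]
    rw [Finset.sum_comm]
    refine Finset.sum_congr rfl fun j _ => ?_
    rw [Finset.sum_comm]
    have : ∀ l, ∑ i, M i l * y l * (M i j * x j) = (if j = l then 1 else 0) * (y l * x j) := by
      intro l
      rw [← hM, Finset.sum_mul]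
      exact Finset.sum_congr rfl fun i _ => by ring
    simp only [this]
    simp)

theorem iso_apply (M : G → G → ℝ) (hM) (x : EuclideanSpace ℝ G) (i : G) :
    iso M hM x i = ∑ j, M i j * x j := by
  simp [iso, Matrix.toEuclideanLin_apply, Matrix.mulVec, dotProduct]

structure Chi (G : Type) [Fintype G] [DecidableEq G] [AddCommGroup G] where
  χ : G → G → ℝ
  symm : ∀ a b, χ a b = χ b a
  add : ∀ a a' b, χ (a + a') b = χ a b * χ a' b
  sq : ∀ a b, χ a b * χ a b = 1
  orth : ∀ a a', ∑ b, χ b a * χ b a' = if a = a' then (Fintype.card G : ℝ) else 0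

variable (c : Chi G)

theorem Chi.abs (a b : G) : |c.χ a b| = 1 := by
  have := c.sq a b
  rw [← sq_eq_sq₀ (abs_nonneg _) zero_le_one, sq_abs]; linarith

theorem card_pos' : (0 : ℝ) < Fintype.card G := by exact_mod_cast Fintype.card_pos

noncomputable def H : EuclideanSpace ℝ G →ₗᵢ[ℝ] EuclideanSpace ℝ G :=
  iso (fun i j => (√(Fintype.card G))⁻¹ * c.χ i j) (by
    intro j l
    have h : ∀ i, (√(Fintype.card G))⁻¹ * c.χ i j * ((√(Fintype.card G))⁻¹ * c.χ i l) =
        (Fintype.card G : ℝ)⁻¹ * (c.χ i j * c.χ i l) := by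
      intro i
      have := Real.mul_self_sqrt (card_pos' (G := G)).le
      rw [mul_mul_mul_comm, ← mul_inv, this]
    simp only [h, ← Finset.mul_sum, c.orth]
    split_ifs
    · exact inv_mul_cancel₀ (card_pos' (G := G)).ne'
    · simp)

theorem H_apply (x : EuclideanSpace ℝ G) (i : G) :
    H c x i = (√(Fintype.card G))⁻¹ * ∑ j, c.χ i j * x j := by
  simp [H, iso_apply, Finset.mul_sum, mul_assoc]

theorem H_symm (x y : EuclideanSpace ℝ G) : ⟪H c x, y⟫ = ⟪x, H c y⟫ := by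
  simp only [PiLp.inner_apply, RCLike.inner_apply, conj_trivial, H_apply, Finset.mul_sum,
    Finset.sum_mul]
  rw [Finset.sum_comm]
  refine Finset.sum_congr rfl fun i _ => Finset.sum_congr rfl fun j _ => ?_
  rw [c.symm j i]; ring

theorem H_H (x : EuclideanSpace ℝ G) : H c (H c x) = x := by
  apply ext_inner_right ℝ
  intro y
  rw [H_symm, (H c).inner_map_map]

noncomputable def P (a b : G) : EuclideanSpace ℝ G →ₗᵢ[ℝ] EuclideanSpace ℝ G :=
  iso (fun i j => if i = j + a then c.χ j b else 0) (by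
    intro j l
    simp only [ite_mul, zero_mul, Finset.sum_ite_eq', Finset.mem_univ, if_true, add_left_inj]
    split_ifs with h
    · subst h; exact c.sq _ _
    · simp)

theorem P_apply (a b : G) (x : EuclideanSpace ℝ G) (i : G) :
    P c a b x (i + a) = c.χ i b * x i := by
  simp [P, iso_apply]

theorem P_apply' (a b : G) (x : EuclideanSpace ℝ G) (i : G) :
    P c a b x i = c.χ (i - a) b * x (i - a) := by
  rw [← P_apply, sub_add_cancel]

theorem P_inner (a b : G) (x y : EuclideanSpace ℝ G) :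
    ⟪P c a b x, y⟫ = ∑ i, c.χ i b * (x i * y (i + a)) := by
  simp only [PiLp.inner_apply, RCLike.inner_apply, conj_trivial]
  rw [← Equiv.sum_comp (Equiv.addRight a)]
  refine Finset.sum_congr rfl fun i _ => ?_
  simp only [Equiv.coe_addRight, P_apply]; ring

theorem P_H (a b : G) (x : EuclideanSpace ℝ G) :
    P c a b (H c x) = c.χ a b • H c (P c b a x) := by
  ext i
  obtain ⟨i, rfl⟩ : ∃ j, i = j + a := ⟨i - a, by simp⟩
  rw [P_apply, PiLp.smul_apply, H_apply, H_apply, ← Equiv.sum_comp (Equiv.addRight b)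
    (fun j => c.χ (i + a) j * P c b a x j)]
  simp only [Equiv.coe_addRight, P_apply, smul_eq_mul, Finset.mul_sum]
  refine Finset.sum_congr rfl fun j _ => ?_
  rw [c.add, c.symm i (j + b), c.symm a (j + b), c.add, c.add, c.symm j i, c.symm b i, c.symm b a]
  have h1 := c.sq a b
  have h2 := c.sq j a
  linear_combination (-((√(Fintype.card G))⁻¹ * c.χ i j * c.χ i b * x j)) * h1 +
    (-((√(Fintype.card G))⁻¹ * c.χ i j * c.χ i b * x j * c.χ a b * c.χ a b)) * h2

theorem sum_P_sq (x y : EuclideanSpace ℝ G) :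
    ∑ a, ∑ b, ⟪P c a b x, y⟫ ^ 2 = Fintype.card G * (‖x‖ ^ 2 * ‖y‖ ^ 2) := by
  have h1 : ∀ a, ∑ b, ⟪P c a b x, y⟫ ^ 2 = Fintype.card G * ∑ i, x i ^ 2 * y (i + a) ^ 2 := by
    intro a
    simp only [P_inner, sq, Finset.sum_mul_sum]
    rw [Finset.sum_comm, Finset.mul_sum]
    refine Finset.sum_congr rfl fun i _ => ?_
    rw [Finset.sum_comm]
    have : ∀ l, ∑ b, c.χ i b * (x i * y (i + a)) * (c.χ l b * (x l * y (l + a))) =
        (if i = l then (Fintype.card G : ℝ) else 0) * (x i * y (i + a) * (x l * y (l + a))) := by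
      intro l
      rw [← c.orth, Finset.sum_mul]
      exact Finset.sum_congr rfl fun b _ => by rw [c.symm b i, c.symm b l]; ring
    simp only [this]
    simp; ring
  simp only [h1, ← Finset.mul_sum]
  congr 1
  rw [Finset.sum_comm, EuclideanSpace.real_norm_sq_eq, EuclideanSpace.real_norm_sq_eq, Finset.sum_mul]
  refine Finset.sum_congr rfl fun i _ => ?_
  rw [← Finset.mul_sum]
  congr 1
  exact Equiv.sum_comp (Equiv.addLeft i) (fun j => y j ^ 2)

noncomputable def vv : G ⊕ G → EuclideanSpace ℝ G :=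
  Sum.elim (fun i => EuclideanSpace.single i 1) (fun i => H c (EuclideanSpace.single i 1))

theorem sum_single (s : G → ℝ) :
    ∑ i, s i • (EuclideanSpace.single i 1 : EuclideanSpace ℝ G) = WithLp.toLp 2 s := by
  ext j
  simp [Pi.single_apply]

theorem mem_zon (z : EuclideanSpace ℝ G) : z ∈ zon (vv c) ↔
    ∃ x y : EuclideanSpace ℝ G, (∀ i, |x i| ≤ 1) ∧ (∀ i, |y i| ≤ 1) ∧ z = x + H c y := by
  have key : ∀ s : G ⊕ G → ℝ, ∑ j, s j • vv c j =
      WithLp.toLp 2 (fun i => s (Sum.inl i)) + H c (WithLp.toLp 2 (fun i => s (Sum.inr i))) := by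
    intro s
    rw [Fintype.sum_sum_type, ← sum_single, ← sum_single, map_sum]
    simp [vv]
  constructor
  · rintro ⟨s, hs, rfl⟩
    exact ⟨_, _, fun i => hs _, fun i => hs _, key s⟩
  · rintro ⟨x, y, hx, hy, rfl⟩
    refine ⟨Sum.elim x y, ?_, key _⟩
    rintro (i | i)
    · exact hx i
    · exact hy i

noncomputable def gg (q : Bool × G × G) : EuclideanSpace ℝ G →ₗᵢ[ℝ] EuclideanSpace ℝ G :=
  if q.1 then (H c).comp (P c q.2.1 q.2.2) else P c q.2.1 q.2.2

theorem norm_cube {x : EuclideanSpace ℝ G} (hx : ∀ i, |x i| ≤ 1) : ‖x‖ ^ 2 ≤ Fintype.card G := by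
  rw [EuclideanSpace.real_norm_sq_eq]
  refine (Finset.sum_le_card_nsmul _ _ 1 fun i _ => ?_).trans (by simp)
  rw [← sq_abs]
  exact pow_le_one₀ (abs_nonneg _) (hx i)

theorem sum_vv (u : EuclideanSpace ℝ G) : ∑ i, |⟪vv c i, u⟫| = ∑ i, |u i| + ∑ i, |H c u i| := by
  rw [Fintype.sum_sum_type]
  simp [vv, H_symm, EuclideanSpace.inner_single_left]

theorem sum_shift (u : EuclideanSpace ℝ G) (i : G) :
    ∑ a, ∑ b, |⟪P c a b (EuclideanSpace.single i 1), u⟫| = Fintype.card G * ∑ i, |u i| := by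
  have : ∀ a b, |⟪P c a b (EuclideanSpace.single i 1), u⟫| = |u (i + a)| := by
    intro a b
    simp [P_inner, Pi.single_apply, abs_mul, c.abs]
  simp only [this, Finset.sum_const, Finset.card_univ, nsmul_eq_mul, ← Finset.mul_sum]
  congr 1
  exact Equiv.sum_comp (Equiv.addLeft i) (fun j => |u j|)

theorem uncertainty {u : EuclideanSpace ℝ G} (hu : ‖u‖ = 1) {α : ℝ} (hα : 0 ≤ α)
    (h : α ^ 4 ≤ Fintype.card G) : α ≤ ∑ i, |u i| + ∑ i, |H c u i| := by
  set a := ∑ i, |u i|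
  set b := ∑ i, |H c u i| with hb
  have ha0 : 0 ≤ a := Finset.sum_nonneg fun _ _ => abs_nonneg _
  have hb0 : 0 ≤ b := Finset.sum_nonneg fun _ _ => abs_nonneg _
  have hs : 0 < √(Fintype.card G : ℝ) := Real.sqrt_pos.2 card_pos'
  have h1 : ∀ i, |u i| ≤ (√(Fintype.card G))⁻¹ * b := by
    intro i
    conv_lhs => rw [← H_H c u, H_apply]
    rw [abs_mul, abs_of_pos (inv_pos.2 hs)]
    gcongr
    refine (Finset.abs_sum_le_sum_abs _ _).trans (le_of_eq ?_)
    simp only [abs_mul, c.abs, one_mul, hb]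
  have h2 : 1 ≤ a * ((√(Fintype.card G))⁻¹ * b) := by
    have : ‖u‖ ^ 2 = ∑ i, |u i| * |u i| := by
      rw [EuclideanSpace.real_norm_sq_eq]; simp [sq]
    rw [hu, one_pow] at this
    rw [this, Finset.sum_mul]
    exact Finset.sum_le_sum fun i _ => mul_le_mul_of_nonneg_left (h1 i) (abs_nonneg _)
  have h3 : √(Fintype.card G : ℝ) ≤ a * b := by
    rw [mul_left_comm, le_inv_mul_iff₀ hs] at h2; linarith
  have h4 : α ^ 2 ≤ √(Fintype.card G : ℝ) := Real.le_sqrt_of_sq_le (by nlinarith)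
  apply (abs_le_of_sq_le_sq' _ (by positivity)).2
  nlinarith [sq_nonneg a, sq_nonneg b, mul_nonneg ha0 hb0]

include c in
theorem good {α : ℝ} (hα : 0 ≤ α) (h : α ^ 4 ≤ Fintype.card G) :
    Good (EuclideanSpace ℝ G) (Fintype.card G) α := by
  have hP : ∀ a b (x : EuclideanSpace ℝ G), (∀ i, |x i| ≤ 1) → ∀ i, |P c a b x i| ≤ 1 := by
    intro a b x hx i
    rw [P_apply', abs_mul, c.abs, one_mul]; exact hx _
  have hP2 : ∀ a b (x : EuclideanSpace ℝ G), (∀ i, |x i| ≤ 1) →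
      ∀ i, |(c.χ a b • P c b a x) i| ≤ 1 := by
    intro a b x hx i
    rw [PiLp.smul_apply, smul_eq_mul, abs_mul, c.abs, one_mul]; exact hP _ _ _ hx _
  refine ⟨G ⊕ G, Bool × G × G, inferInstance, inferInstance, inferInstance, vv c, gg c,
    by simp [two_mul], ?_, fun u hu => ⟨?_, ?_, ?_⟩⟩
  · rintro ⟨β, a, b⟩ z hz
    obtain ⟨x, y, hx, hy, rfl⟩ := (mem_zon c z).1 hz
    rw [mem_zon]
    cases β
    · exact ⟨_, _, hP a b x hx, hP2 a b y hy, by simp [gg, P_H]⟩
    · exact ⟨_, _, hP2 a b y hy, hP a b x hx, by simp [gg, P_H, H_H, add_comm]⟩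
  · intro j
    rw [sum_vv]
    have : ∑ a, |⟪gg c a (vv c j), u⟫| = Fintype.card G * (∑ i, |u i| + ∑ i, |H c u i|) := by
      simp only [Fintype.sum_prod_type, Fintype.sum_bool, gg]
      rcases j with i | i
      · simp [vv, H_symm, sum_shift]; ring
      · simp only [vv, Sum.elim_inr, if_true, LinearIsometry.coe_comp, Function.comp_apply, P_H,
          map_smul, H_H, Bool.false_eq_true, if_false, inner_smul_left, conj_trivial, abs_mul, c.abs,
          one_mul, H_symm]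
        rw [Finset.sum_comm, sum_shift, Finset.sum_comm, sum_shift]; ring
    rw [this]; simp; ring
  · intro y hy
    obtain ⟨x, z, hx, hz, rfl⟩ := (mem_zon c y).1 hy
    have h1 : ‖x + H c z‖ ^ 2 ≤ 4 * Fintype.card G := by
      have a1 := norm_cube hx
      have a2 := norm_cube hz
      have a3 := norm_add_le x (H c z)
      rw [(H c).norm_map] at a3
      nlinarith [norm_nonneg (x + H c z), sq_nonneg (‖x‖ - ‖z‖), norm_nonneg x, norm_nonneg z]
    set y := x + H c z
    simp only [Fintype.sum_prod_type, Fintype.sum_bool, gg, if_true, LinearIsometry.coe_comp,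
      Function.comp_apply, Bool.false_eq_true, if_false, H_symm, sum_P_sq, (H c).norm_map, hu]
    simp only [Fintype.card_prod, Fintype.card_bool]
    push_cast
    have := card_pos' (G := G)
    nlinarith
  · rw [sum_vv]; exact uncertainty c hu hα h

end had

/-- sign character on the field with two elements -/
def psi (x y : ZMod 2) : ℤ := if x = 1 ∧ y = 1 then -1 else 1

noncomputable def chi (k : ℕ) : Chi (Fin k → ZMod 2) where
  χ a b := ∏ i, (psi (a i) (b i) : ℝ)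
  symm a b := by
    have : ∀ x y, psi x y = psi y x := by decide
    simp only [this (a _)]
  add a a' b := by
    have : ∀ x x' y, psi (x + x') y = psi x y * psi x' y := by decide
    simp [this, Finset.prod_mul_distrib]
  sq a b := by
    have : ∀ x y, psi x y * psi x y = 1 := by decide
    rw [← Finset.prod_mul_distrib]
    exact Finset.prod_eq_one fun i _ => by exact_mod_cast this _ _
  orth a a' := by
    have h : ∀ y y' : ZMod 2, ∑ x, psi x y * psi x y' = if y = y' then 2 else 0 := by decide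
    have h' : ∀ y y' : ZMod 2, ∑ x, (psi x y * psi x y' : ℝ) = if y = y' then 2 else 0 := by
      intro y y'; exact_mod_cast h y y'
    simp only [← Finset.prod_mul_distrib]
    rw [← Fintype.piFinset_univ, ← Finset.prod_univ_sum (fun _ : Fin k => Finset.univ)
      fun i x => (psi x (a i) * psi x (a' i) : ℝ)]
    simp only [h']
    split_ifs with hh
    · subst hh; simp
    · obtain ⟨i, hi⟩ := Function.ne_iff.1 hh
      exact Finset.prod_eq_zero (Finset.mem_univ i) (by simp [hi])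

theorem exists_good (α : ℝ) (hα : 0 ≤ α) :
    ∃ n : ℕ, 1 ≤ n ∧ Good (EuclideanSpace ℝ (Fin n)) n α := by
  obtain ⟨k, hk⟩ := pow_unbounded_of_one_lt (α ^ 4) (one_lt_two (α := ℝ))
  refine ⟨Fintype.card (Fin k → ZMod 2), Fintype.card_pos, ?_⟩
  refine (good (chi k) hα ?_).map
    (LinearIsometryEquiv.piLpCongrLeft 2 ℝ ℝ (Fintype.equivFin (Fin k → ZMod 2)))
  simpa using hk.le

theorem main (C : ℝ) : ∃ n : ℕ, 1 ≤ n ∧ ∃ K : Set (EuclideanSpace ℝ (Fin n)), IsCompact K ∧
    Convex ℝ K ∧ (interior K).Nonempty ∧ (∀ x ∈ K, -x ∈ K) ∧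
    volume {y | ∀ x ∈ K, ⟪x, y⟫ ≤ (1 : ℝ)} ≠ 0 ∧ volume {y | ∀ x ∈ K, ⟪x, y⟫ ≤ (1 : ℝ)} ≠ ⊤ ∧
    ∀ u : EuclideanSpace ℝ (Fin n), ‖u‖ = 1 → ∀ M : Set (EuclideanSpace ℝ (Fin n)),
      (∀ y, (∀ x s1 s2, x + s1 • u ∈ K → x + s2 • u ∈ K → s1 - s2 = 2 * ⟪x, u⟫ →
        ⟪x, y⟫ ≤ (1 : ℝ)) → y ∈ M) →
      ENNReal.ofReal C * volume {y | ∀ x ∈ K, ⟪x, y⟫ ≤ (1 : ℝ)} ≤ volume M := by
  obtain ⟨n, hn, J, Γ, iJ, iΓ, nΓ, v, g, h1, h2, h3⟩ :=
    exists_good (2 ^ 24 * (|C| + 1)) (by positivity)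
  have hc : IsCompact (kb v) := kb_compact (by positivity) fun u hu => (h3 u hu).2.2
  refine ⟨n, hn, kb v, hc, kb_convex v, kb_int v, fun x => kb_neg, ?_, ?_, ?_⟩
  · obtain ⟨R, hR0, hR⟩ := hc.isBounded.subset_closedBall_lt 0 0
    refine (lt_of_lt_of_le (measure_closedBall_pos volume 0 (inv_pos.2 hR0)) (measure_mono ?_)).ne'
    intro y hy x hx
    have a1 := mem_closedBall_zero_iff.1 hy
    have a2 := mem_closedBall_zero_iff.1 (hR hx)
    calc ⟪x, y⟫ ≤ ‖x‖ * ‖y‖ := real_inner_le_norm _ _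
      _ ≤ R * R⁻¹ := by gcongr
      _ = 1 := mul_inv_cancel₀ hR0.ne'
  · rw [polar_kb]; exact (zon_compact v).measure_lt_top.ne
  · intro u hu M hM
    obtain ⟨a1, a2, a3⟩ := h3 u hu
    rw [polar_kb]
    refine le_trans ?_ (main_abs v g (by simp) hn h1 h2 hu a1 a2 (lt_of_lt_of_le (by positivity) a3) hM)
    apply mul_le_mul_left
    apply ENNReal.ofReal_le_ofReal
    rw [le_div_iff₀ (by positivity)]
    nlinarith [le_abs_self C]

end Pool.Agent.H81.HadZon
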