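import Mathlib

set_option autoImplicit false

namespace Pool.Agent.H81.Ins
open Finset

variable {ι : Type} [Fintype ι] [DecidableEq ι]

def qf (M : ι → ι → ℝ) (x : ι → ℝ) : ℝ := ∑ i, ∑ j, M i j * x i * x j

lemma steps (U : Finset ℝ) (b : ℝ) : (∀ u ∈ U, u < b) → ∃ δ : ℝ → ℝ, (∀ u ∈ U, 0 < δ u) ∧
    ∀ m ∈ U, ∑ u ∈ U, (if m ≤ u then δ u else 0) = b - m := by
  classical
  induction U using Finset.induction_on_min with
  | empty => exact fun _ => ⟨0, by simp, by simp⟩
  | insert a s ha ih =>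
    intro hb
    obtain ⟨δ, h1, h2⟩ := ih fun u hu => hb u (mem_insert_of_mem hu)
    have has : a ∉ s := fun h => lt_irrefl _ (ha a h)
    have hne : ∀ u ∈ s, u ≠ a := fun u hu => (ha u hu).ne'
    refine ⟨Function.update δ a (b - a - ∑ u ∈ s, δ u), fun u hu => ?_, fun m hm => ?_⟩
    · rcases mem_insert.mp hu with rfl | hu
      · rw [Function.update_self]
        rcases s.eq_empty_or_nonempty with rfl | hs
        · simpa using hb u (mem_insert_self _ _)
        · have := h2 _ (s.min'_mem hs)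
          rw [sum_congr rfl fun v hv => if_pos (s.min'_le v hv)] at this
          linarith [ha _ (s.min'_mem hs)]
      · rw [Function.update_of_ne (hne u hu)]; exact h1 u hu
    · rw [sum_insert has, Function.update_self]
      rcases mem_insert.mp hm with rfl | hm
      · have : ∑ v ∈ s, (if m ≤ v then Function.update δ m (b - m - ∑ u ∈ s, δ u) v else 0) =
            ∑ u ∈ s, δ u := sum_congr rfl fun v hv => by
          rw [if_pos (ha v hv).le, Function.update_of_ne (hne v hv)]
        rw [if_pos le_rfl, this]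
        ring
      · rw [if_neg (not_le.mpr (ha m hm)), zero_add, ← h2 m hm]
        exact sum_congr rfl fun v hv => by rw [Function.update_of_ne (hne v hv)]

omit [DecidableEq ι] in
/-- the kernel `|s - t|` is strictly conditionally negative definite -/
lemma kern (s α : ι → ℝ) (h : ∑ i, α i = 0) :
    qf (fun i j => |s i - s j|) α ≤ 0 ∧ (qf (fun i j => |s i - s j|) α = 0 →
      ∀ i, ∑ j, (if s i = s j then α j else 0) = 0) := by
  classical
  obtain ⟨b, hb⟩ : ∃ b, ∀ u ∈ univ.image s, u < b := by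
    obtain ⟨b, hb⟩ := (univ.image s).bddAbove
    exact ⟨b + 1, fun u hu => lt_of_le_of_lt (hb (mem_coe.mpr hu)) (lt_add_one b)⟩
  obtain ⟨δ, h1, h2⟩ := steps _ b hb
  let F : ℝ → ℝ := fun u => ∑ i, if s i ≤ u then α i else 0
  have key : qf (fun i j => |s i - s j|) α = -2 * ∑ u ∈ univ.image s, δ u * F u ^ 2 := by
    have e1 : ∀ i j, |s i - s j| = (b - s i) + (b - s j) -
        2 * ∑ u ∈ univ.image s, δ u * (if s i ≤ u then 1 else 0) * (if s j ≤ u then 1 else 0) := by
      intro i j
      have hm : max (s i) (s j) ∈ univ.image s := by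
        rcases max_choice (s i) (s j) with h | h <;> rw [h] <;> exact mem_image_of_mem _ (mem_univ _)
      have := h2 _ hm
      rw [sum_congr rfl (g := fun u => if max (s i) (s j) ≤ u then δ u else 0) fun u _ => by
        by_cases a1 : s i ≤ u <;> by_cases a2 : s j ≤ u <;> simp [a1, a2], this]
      rcases le_total (s i) (s j) with h | h
      · rw [max_eq_right h, abs_of_nonpos (by linarith)]; ring
      · rw [max_eq_left h, abs_of_nonneg (by linarith)]; ring
    have e2 : ∑ i, ∑ j, (b - s i) * α i * α j = 0 := by simp [← mul_sum, h]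
    have e3 : ∑ i, ∑ j, (b - s j) * α i * α j = 0 := by
      rw [sum_comm]
      exact sum_eq_zero fun j _ => by rw [← sum_mul, ← mul_sum, h]; simp
    have e4 : ∀ u, δ u * F u ^ 2 = ∑ i, ∑ j,
        δ u * (if s i ≤ u then 1 else 0) * (if s j ≤ u then 1 else 0) * α i * α j := by
      intro u
      rw [sq, sum_mul_sum]
      simp only [mul_sum]
      refine sum_congr rfl fun i _ => sum_congr rfl fun j _ => ?_
      split_ifs <;> ring
    simp only [qf, e1, sub_mul, add_mul, sum_sub_distrib, sum_add_distrib, e4]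
    simp only [sub_mul, sum_sub_distrib] at e2 e3
    rw [e2, e3, sum_comm (s := univ.image s), mul_sum]
    simp only [sum_comm (s := univ.image s), mul_sum, sum_mul, add_zero, zero_sub,
      ← sum_neg_distrib]
    exact sum_congr rfl fun i _ => sum_congr rfl fun j _ => sum_congr rfl fun u _ => by ring
  have hn : ∀ u ∈ univ.image s, 0 ≤ δ u * F u ^ 2 := fun u hu => by
    have := h1 u hu; positivity
  refine ⟨by rw [key]; linarith [sum_nonneg hn], fun h0 i => ?_⟩
  have hF : ∀ j, F (s j) = 0 := fun j => by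
    have hj := mem_image_of_mem s (mem_univ j)
    have := (sum_eq_zero_iff_of_nonneg hn).mp (by linarith) _ hj
    exact pow_eq_zero_iff two_ne_zero |>.mp ((mul_eq_zero.mp this).resolve_left (h1 _ hj).ne')
  have hG : ∑ j, (if s j < s i then α j else 0) = 0 := by
    rcases (univ.filter fun j => s j < s i).eq_empty_or_nonempty with h | h
    · exact sum_eq_zero fun j _ => if_neg fun hj => by
        have : j ∈ univ.filter fun j => s j < s i := by simpa using hj
        simp [h] at this
    · obtain ⟨k, hk, hk'⟩ := exists_max_image _ s h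
      refine Eq.trans ?_ (hF k)
      refine sum_congr rfl fun j _ => if_congr ⟨fun hj => hk' j (by simpa using hj),
        fun hj => hj.trans_lt (by simpa using hk)⟩ rfl rfl
  have h3 : F (s i) - ∑ j, (if s j < s i then α j else 0) = 0 := by rw [hF, hG, sub_zero]
  refine Eq.trans ?_ h3
  rw [← sum_sub_distrib]
  refine sum_congr rfl fun j _ => ?_
  rcases lt_trichotomy (s j) (s i) with h | h | h
  · simp [h, h.le, h.ne']
  · simp [h]
  · simp [h.ne, h.not_ge, h.not_gt]

omit [DecidableEq ι] in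
lemma qf_smul (M : ι → ι → ℝ) (t : ℝ) (x : ι → ℝ) : qf M (t • x) = t ^ 2 * qf M x := by
  simp only [qf, mul_sum, Pi.smul_apply, smul_eq_mul]
  exact sum_congr rfl fun i _ => sum_congr rfl fun j _ => by ring

omit [DecidableEq ι] in
lemma qf_lin (M N : ι → ι → ℝ) (c : ℝ) (x : ι → ℝ) :
    qf (fun i j => M i j + c * N i j) x = qf M x + c * qf N x := by
  simp only [qf, mul_sum, ← sum_add_distrib]
  exact sum_congr rfl fun i _ => sum_congr rfl fun j _ => by ring

omit [DecidableEq ι] in
/-- Finsler's lemma -/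
lemma finsler (V : Submodule ℝ (ι → ℝ)) (M N : ι → ι → ℝ) (hN : ∀ x ∈ V, qf N x ≤ 0)
    (hM : ∀ x ∈ V, x ≠ 0 → qf N x = 0 → qf M x < 0) :
    ∃ c : ℝ, ∀ x ∈ V, x ≠ 0 → qf (fun i j => M i j + c * N i j) x < 0 := by
  have hc : ∀ P : ι → ι → ℝ, Continuous (qf P) := fun P => by unfold qf; fun_prop
  have hK : IsCompact (Metric.sphere (0 : ι → ℝ) 1 ∩ V) :=
    (isCompact_sphere _ _).inter_right V.closed_of_finiteDimensional
  obtain ⟨n, hn⟩ := hK.elim_directed_cover (fun n : ℕ => {x | qf M x + n * min (qf N x) 0 < 0})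
    (fun n => isOpen_lt (by have := hc M; have := hc N; fun_prop) continuous_const)
    (fun x hx => by
      have hx0 : x ≠ 0 := by rintro rfl; simpa using hx.1
      rcases (hN x hx.2).lt_or_eq with h | h
      · obtain ⟨n, hn⟩ := exists_nat_gt (qf M x / -qf N x)
        rw [div_lt_iff₀ (by linarith)] at hn
        exact Set.mem_iUnion.mpr ⟨n, by
          simp only [Set.mem_setOf_eq, min_eq_left h.le]; linarith⟩
      · exact Set.mem_iUnion.mpr ⟨0, by simpa using hM x hx.2 hx0 h⟩)
    (Monotone.directed_le fun a b hab x hx => by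
      simp only [Set.mem_setOf_eq] at hx ⊢
      nlinarith [min_le_right (qf N x) 0, (Nat.cast_le (α := ℝ)).mpr hab])
  refine ⟨n, fun x hx hx0 => ?_⟩
  have hp : 0 < ‖x‖ := norm_pos_iff.mpr hx0
  have hm : ‖x‖⁻¹ • x ∈ V := V.smul_mem _ hx
  have := hn ⟨by simp [norm_smul, hp.ne'], hm⟩
  simp only [Set.mem_setOf_eq, min_eq_left (hN _ hm)] at this
  rw [← qf_lin, qf_smul] at this
  exact neg_of_mul_neg_right this (by positivity)

lemma sum3 (g : ι → ℝ) {i j k : ι} (h1 : i ≠ j) (h2 : i ≠ k) (h3 : j ≠ k)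
    (h : ∀ l, l ≠ i → l ≠ j → l ≠ k → g l = 0) : ∑ l, g l = g i + g j + g k := by
  rw [← sum_subset (subset_univ {i, j, k}) fun l _ hl => by
    simp only [mem_insert, mem_singleton, not_or] at hl
    exact h l hl.1 hl.2.1 hl.2.2, sum_insert (by simp [h1, h2]), sum_pair h3, add_assoc]

lemma tri {a b c s t u : ℝ} (ha : 0 < a) (hb : 0 < b) (hc : 0 < c) (h1 : a + b = c)
    (h2 : a * s + b * t = c * u) :
    2 * |s - t| * a * b = |s - u| * a * c + |t - u| * b * c := by
  have e1 : |s - u| * c = |s - t| * b := by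
    have : (s - u) * c = (s - t) * b := by linear_combination (-s) * h1 + h2
    simpa [abs_mul, abs_of_pos hc, abs_of_pos hb] using congrArg abs this
  have e2 : |t - u| * c = |s - t| * a := by
    have : (t - u) * c = (t - s) * a := by linear_combination (-t) * h1 + h2
    simpa [abs_mul, abs_of_pos hc, abs_of_pos ha, abs_sub_comm s] using congrArg abs this
  linear_combination (-a) * e1 - b * e2

def Mk (ε s : ι → ℝ) (i j : ι) : ℝ := (ε i ^ 2 * ε j ^ 2 + 3 * ε i * ε j) * |s i - s j|

open Classical in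
noncomputable def Md (ε s : ι → ℝ) (i j : ι) : ℝ :=
  (if s i = s j then (ε i ^ 2 * ε j ^ 2 + ε i * ε j) / 2 else 0) - if i = j then ε i ^ 2 else 0

noncomputable def Mz (ε : ι → ℝ) (i j : ι) : ℝ :=
  ((1 - ε i ^ 2) + (1 - ε j ^ 2)) / 2 - if i = j then 1 - ε i ^ 2 else 0

/-- circuits -/
def Circ (ε s x : ι → ℝ) : Prop := (∀ i, 0 ≤ x i) ∧ ∑ i, ε i * x i = 0 ∧ ∑ i, ε i * s i * x i = 0 ∧
  ∀ y : ι → ℝ, (∀ i, x i = 0 → y i = 0) → ∑ i, ε i * y i = 0 → ∑ i, ε i * s i * y i = 0 →
    ∃ t : ℝ, y = t • x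

variable {ε s x : ι → ℝ}

lemma circ_a (h : Circ ε s x) {i j : ι} (hi : x i ≠ 0) (hj : x j ≠ 0) (hij : i ≠ j) : ε i ≠ 0 := by
  intro h0
  obtain ⟨t, ht⟩ := h.2.2.2 (Pi.single i 1) (fun l hl => Pi.single_eq_of_ne (by rintro rfl; exact hi hl) _)
    (by simp [Pi.single_apply, h0]) (by simp [Pi.single_apply, h0])
  have a := congrFun ht i
  have b := congrFun ht j
  simp [hij.symm, hj] at a b
  simp [b] at a

lemma circ_c (h : Circ ε s x) {i j : ι} (hi : x i ≠ 0) (hj : x j ≠ 0) (hij : i ≠ j)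
    (hs : s i = s j) : ε i * ε j < 0 ∧ ∀ l, l ≠ i → l ≠ j → x l = 0 := by
  obtain ⟨t, ht⟩ := h.2.2.2 (Pi.single i (ε j) - Pi.single j (ε i))
    (fun l hl => by
      have a : l ≠ i := by rintro rfl; exact hi hl
      have b : l ≠ j := by rintro rfl; exact hj hl
      simp [a, b])
    (by simp [Pi.single_apply, mul_sub, mul_comm]) (by
      simp [Pi.single_apply, mul_sub, hs]; ring)
  have a := congrFun ht i
  have b := congrFun ht j
  simp [hij.symm, hij] at a b
  have ht0 : t ≠ 0 := by rintro rfl; exact circ_a h hj hi hij.symm (by simpa using a)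
  refine ⟨?_, fun l h1 h2 => ?_⟩
  · have p1 := (h.1 i).lt_of_ne' hi
    have p2 := (h.1 j).lt_of_ne' hj
    rw [a, neg_eq_iff_eq_neg.mp b]
    nlinarith [mul_pos (mul_pos p1 p2) (sq_pos_of_ne_zero ht0)]
  · have := congrFun ht l
    simpa [h1, h2, ht0] using this

omit [DecidableEq ι] in
lemma qf_zero {M : ι → ι → ℝ} (h : ∀ i j, x i ≠ 0 → x j ≠ 0 → M i j = 0) : qf M x = 0 :=
  sum_eq_zero fun i _ => sum_eq_zero fun j _ => by
    by_cases hi : x i = 0
    · simp [hi]
    by_cases hj : x j = 0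
    · simp [hj]
    simp [h i j hi hj]

lemma circ_k (hε : ∀ i, ε i = 0 ∨ ε i = 1 ∨ ε i = -1) (h : Circ ε s x) : qf (Mk ε s) x = 0 := by
  by_contra hq
  obtain ⟨i, j, hi, hj, hM⟩ : ∃ i j, x i ≠ 0 ∧ x j ≠ 0 ∧ Mk ε s i j ≠ 0 := by
    by_contra hc
    push Not at hc
    exact hq (qf_zero hc)
  have hs : s i ≠ s j := fun e => hM (by simp [Mk, e])
  have hij : i ≠ j := fun e => hs (by rw [e])
  have ei := circ_a h hi hj hij
  have ej := circ_a h hj hi hij.symm
  obtain ⟨k, hki, hkj, hk⟩ : ∃ k, k ≠ i ∧ k ≠ j ∧ x k ≠ 0 := by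
    by_contra hc
    push Not at hc
    have a := h.2.1
    have b := h.2.2.1
    rw [Fintype.sum_eq_add i j hij fun l hl => by simp [hc l hl.1 hl.2]] at a b
    have : (s i - s j) * (ε i * x i) = 0 := by linear_combination b - s j * a
    simp [sub_eq_zero, hs, ei, hi] at this
  have ek := circ_a h hk hi hki
  have s1 : s k ≠ s i := fun e => hj ((circ_c h hk hi hki e).2 j hkj.symm hij.symm)
  have s2 : s k ≠ s j := fun e => hi ((circ_c h hk hj hkj e).2 i hki.symm hij)
  have sq : ∀ l, ε l ≠ 0 → ε l * ε l = 1 := fun l hl => by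
    rcases hε l with e | e | e <;> simp_all
  obtain ⟨t, ht⟩ := h.2.2.2 (Pi.single i (ε i * (s j - s k)) + Pi.single j (ε j * (s k - s i)) +
      Pi.single k (ε k * (s i - s j)))
    (fun l hl => by
      have a : l ≠ i := by rintro rfl; exact hi hl
      have b : l ≠ j := by rintro rfl; exact hj hl
      have c : l ≠ k := by rintro rfl; exact hk hl
      simp [a, b, c])
    (by
      simp only [Pi.add_apply, mul_add, sum_add_distrib, Pi.single_apply, mul_ite, mul_zero,
        sum_ite_eq', mem_univ, if_true, ← mul_assoc, sq i ei, sq j ej, sq k ek]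
      ring)
    (by
      simp only [Pi.add_apply, mul_add, sum_add_distrib, Pi.single_apply, mul_ite, mul_zero,
        sum_ite_eq', mem_univ, if_true]
      linear_combination s i * (s j - s k) * sq i ei + s j * (s k - s i) * sq j ej +
        s k * (s i - s j) * sq k ek)
  have ht0 : t ≠ 0 := by
    rintro rfl
    have := congrFun ht k
    simp [hki, hkj, ek, sub_eq_zero, hs] at this
  have hz : ∀ l, l ≠ i → l ≠ j → l ≠ k → x l = 0 := fun l a b c => by
    have := congrFun ht l
    simpa [a, b, c, ht0] using this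
  have a := h.2.1
  have b := h.2.2.1
  rw [sum3 _ hij hki.symm hkj.symm fun l p q r => by simp [hz l p q r]] at a b
  apply hq
  unfold qf
  rw [sum3 _ hij hki.symm hkj.symm fun l p q r => by simp [hz l p q r]]
  have w : ∀ m, ∑ l, Mk ε s m l * x m * x l = Mk ε s m i * x m * x i + Mk ε s m j * x m * x j +
      Mk ε s m k * x m * x k := fun m =>
    sum3 (fun l => Mk ε s m l * x m * x l) hij hki.symm hkj.symm
      fun l p q r => by simp [hz l p q r]
  rw [w, w, w]
  have p1 := (h.1 i).lt_of_ne' hi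
  have p2 := (h.1 j).lt_of_ne' hj
  have p3 := (h.1 k).lt_of_ne' hk
  simp only [Mk, sub_self, abs_zero, mul_zero, zero_mul, abs_sub_comm (s j) (s i),
    abs_sub_comm (s k) (s i), abs_sub_comm (s k) (s j)]
  rcases (hε i).resolve_left ei with e1 | e1 <;> rcases (hε j).resolve_left ej with e2 | e2 <;>
    rcases (hε k).resolve_left ek with e3 | e3 <;> rw [e1, e2, e3] at a b ⊢
  · linarith
  · have := tri (s := s i) (t := s j) (u := s k) p1 p2 p3 (by linarith) (by linarith)
    linarith
  · have := tri (s := s i) (t := s k) (u := s j) p1 p3 p2 (by linarith) (by linarith)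
    rw [abs_sub_comm (s k) (s j)] at this
    linarith
  · have := tri (s := s j) (t := s k) (u := s i) p2 p3 p1 (by linarith) (by linarith)
    rw [abs_sub_comm (s j) (s i), abs_sub_comm (s k) (s i)] at this
    linarith
  · have := tri (s := s j) (t := s k) (u := s i) p2 p3 p1 (by linarith) (by linarith)
    rw [abs_sub_comm (s j) (s i), abs_sub_comm (s k) (s i)] at this
    linarith
  · have := tri (s := s i) (t := s k) (u := s j) p1 p3 p2 (by linarith) (by linarith)
    rw [abs_sub_comm (s k) (s j)] at this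
    linarith
  · have := tri (s := s i) (t := s j) (u := s k) p1 p2 p3 (by linarith) (by linarith)
    linarith
  · linarith

theorem quadric (ε s : ι → ℝ) (hε : ∀ i, ε i = 0 ∨ ε i = 1 ∨ ε i = -1) :
    ∃ M : ι → ι → ℝ, (∀ i j, M i j = M j i) ∧
      (∀ x : ι → ℝ, ∑ i, ε i * x i = 0 → ∑ i, x i = 0 → x ≠ 0 → qf M x < 0) ∧
      ∀ x, Circ ε s x → qf M x = 0 := by
  classical
  let lin : (ι → ℝ) → (ι → ℝ) →ₗ[ℝ] ℝ := fun a => ∑ i, a i • LinearMap.proj i
  have hlin : ∀ a x, lin a x = ∑ i, a i * x i := fun a x => by simp [lin]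
  let V2 : Submodule ℝ (ι → ℝ) := LinearMap.ker (lin ε) ⊓ LinearMap.ker (lin 1)
  have m2 : ∀ x, x ∈ V2 ↔ ∑ i, ε i * x i = 0 ∧ ∑ i, x i = 0 := fun x => by simp [V2, hlin]
  let V1 : Submodule ℝ (ι → ℝ) := V2 ⊓ ⨅ i, LinearMap.ker ((1 - ε i ^ 2) • LinearMap.proj i)
  have m1 : ∀ x, x ∈ V1 ↔ x ∈ V2 ∧ ∀ i, x i = ε i ^ 2 * x i := fun x => by
    simp only [V1, Submodule.mem_inf, Submodule.mem_iInf, LinearMap.mem_ker, LinearMap.smul_apply,
      LinearMap.proj_apply, smul_eq_mul]
    exact and_congr_right fun _ => forall_congr' fun i => ⟨fun h => by linarith, fun h => by linarith⟩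
  have hk : ∀ x, qf (Mk ε s) x = qf (fun i j => |s i - s j|) (fun i => ε i ^ 2 * x i) +
      3 * qf (fun i j => |s i - s j|) (fun i => ε i * x i) := fun x => by
    simp only [qf, Mk, mul_sum, ← sum_add_distrib]
    exact sum_congr rfl fun i _ => sum_congr rfl fun j _ => by ring
  have hA : ∀ x ∈ V1, ∑ i, ε i ^ 2 * x i = 0 := fun x hx => by
    rw [← ((m2 x).mp ((m1 x).mp hx).1).2]
    exact sum_congr rfl fun i _ => (((m1 x).mp hx).2 i).symm
  obtain ⟨c1, h1⟩ := finsler V1 (Md ε s) (Mk ε s)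
    (fun x hx => by
      rw [hk]
      linarith [(kern s _ (hA x hx)).1, (kern s _ ((m2 x).mp ((m1 x).mp hx).1).1).1])
    (fun x hx hx0 h0 => by
      have a := kern s _ (hA x hx)
      have b := kern s _ ((m2 x).mp ((m1 x).mp hx).1).1
      rw [hk] at h0
      have a' := a.2 (by linarith [a.1, b.1])
      have b' := b.2 (by linarith [a.1, b.1])
      have : qf (Md ε s) x = -∑ i, x i ^ 2 := by
        rw [qf, ← sum_neg_distrib]
        refine sum_congr rfl fun i _ => ?_
        have e : ∀ j, Md ε s i j * x i * x j =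
            ε i ^ 2 * x i / 2 * (if s i = s j then ε j ^ 2 * x j else 0) +
            ε i * x i / 2 * (if s i = s j then ε j * x j else 0) -
            if i = j then ε i ^ 2 * x i * x j else 0 := fun j => by
          unfold Md; split_ifs <;> ring
        simp only [e, sum_sub_distrib, sum_add_distrib, ← mul_sum, a' i, b' i, sum_ite_eq,
          mem_univ, if_true, ← ((m1 x).mp hx).2 i]
        ring
      rw [this, neg_lt_zero]
      obtain ⟨i, hi⟩ := Function.ne_iff.mp hx0
      exact sum_pos' (fun i _ => sq_nonneg _) ⟨i, mem_univ _, sq_pos_of_ne_zero hi⟩)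
  have hz : ∀ x ∈ V2, qf (Mz ε) x = -∑ i, (1 - ε i ^ 2) * x i ^ 2 := fun x hx => by
    have h0 := ((m2 x).mp hx).2
    have e : ∀ i j, Mz ε i j * x i * x j = (1 - ε i ^ 2) * x i / 2 * x j +
        x i * ((1 - ε j ^ 2) * x j / 2) - if i = j then (1 - ε i ^ 2) * x i * x j else 0 :=
      fun i j => by unfold Mz; split_ifs <;> ring
    simp only [qf, e, sum_sub_distrib, sum_add_distrib, ← mul_sum, ← sum_mul, h0, sum_ite_eq,
      mem_univ, if_true]
    simp [sq, mul_assoc]
  have hnn : ∀ (x : ι → ℝ) i, 0 ≤ (1 - ε i ^ 2) * x i ^ 2 := fun x i =>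
    mul_nonneg (by rcases hε i with e | e | e <;> simp [e]) (sq_nonneg _)
  obtain ⟨c2, h2⟩ := finsler V2 (fun i j => Md ε s i j + c1 * Mk ε s i j) (Mz ε)
    (fun x hx => by rw [hz x hx, neg_nonpos]; exact sum_nonneg fun i _ => hnn x i)
    (fun x hx hx0 h0 => by
      rw [hz x hx, neg_eq_zero, sum_eq_zero_iff_of_nonneg fun i _ => hnn x i] at h0
      refine h1 x ((m1 x).mpr ⟨hx, fun i => ?_⟩) hx0
      have := h0 i (mem_univ i)
      rcases hε i with e | e | e <;> rw [e] at this ⊢
      · have : x i = 0 := by simpa using this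
        rw [this]; simp
      · simp
      · simp)
  refine ⟨_, fun i j => ?_, fun x a b c => h2 x ((m2 x).mpr ⟨a, b⟩) c, fun x hx => ?_⟩
  · by_cases e : i = j
    · subst e; rfl
    · have e2 : ¬ j = i := fun h => e h.symm
      by_cases e' : s i = s j
      · simp only [Md, Mk, Mz, e, e2, e', if_false, if_true]; ring
      · have e3 : ¬ s j = s i := fun h => e' h.symm
        simp only [Md, Mk, Mz, e, e2, e', e3, if_false, abs_sub_comm (s j) (s i)]; ring
  · rw [qf_lin, qf_lin, circ_k hε hx, qf_zero (M := Md ε s), qf_zero (M := Mz ε)]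
    · simp
    · intro i j hi hj
      by_cases e : i = j
      · subst e; simp [Mz]
      · rcases (hε i).resolve_left (circ_a hx hi hj e) with e1 | e1 <;>
          rcases (hε j).resolve_left (circ_a hx hj hi (Ne.symm e)) with e2 | e2 <;>
          simp [Mz, e, e1, e2]
    · intro i j hi hj
      by_cases e : i = j
      · subst e; rcases hε i with e1 | e1 | e1 <;> simp [Md, e1]
      · by_cases e' : s i = s j
        · have := (circ_c hx hi hj e e').1
          rcases hε i with e1 | e1 | e1 <;> rcases hε j with e2 | e2 | e2 <;>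
            simp [Md, e, e', e1, e2] at this ⊢ <;> norm_num at this
        · simp [Md, e, e']

omit [DecidableEq ι] in
theorem gale (L : Submodule ℝ (ι → ℝ)) (h : Fintype.card ι ≤ Module.finrank ℝ L + 2) :
    ∃ lam ε s : ι → ℝ, (∀ i, 0 < lam i) ∧ (∀ i, ε i = 0 ∨ ε i = 1 ∨ ε i = -1) ∧
      ∀ x, x ∈ L ↔ ∑ i, ε i * (lam i * x i) = 0 ∧ ∑ i, ε i * s i * (lam i * x i) = 0 := by
  classical
  have h1 := L.finrank_quotient_add_finrank
  rw [Module.finrank_fintype_fun_eq_card] at h1
  obtain ⟨f, hf⟩ := (finrank_le_iff_exists_linearMap (R := ℝ) (M := (ι → ℝ) ⧸ L)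
    (M' := ℝ × ℝ)).mp (by simp; omega)
  let G := f ∘ₗ L.mkQ
  let g : ι → ℝ × ℝ := fun i => G (Pi.single i 1)
  have hG : ∀ x, G x = ∑ i, x i • g i := fun x => by
    conv_lhs => rw [pi_eq_sum_univ' x]
    simp [g]
  have hL : ∀ x, x ∈ L ↔ G x = 0 := fun x => by
    simp [G, map_eq_zero_iff f hf]
  obtain ⟨τ, hτ⟩ := Infinite.exists_notMem_finset (univ.image fun i => -(g i).1 / (g i).2)
  let u : ι → ℝ := fun i => (g i).1 + τ * (g i).2
  have hu : ∀ i, u i = 0 → (g i).2 = 0 := fun i hi => by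
    by_contra hb
    refine hτ (mem_image.mpr ⟨i, mem_univ _, ?_⟩)
    rw [div_eq_iff hb]; simp only [u] at hi; linarith
  refine ⟨fun i => if u i = 0 then 1 else |u i|, fun i => SignType.sign (u i),
    fun i => (g i).2 / u i, fun i => ?_, fun i => ?_, fun x => ?_⟩
  · dsimp only; split_ifs with h
    · exact one_pos
    · exact abs_pos.mpr h
  · rcases lt_trichotomy (u i) 0 with h | h | h <;> simp [h]
  · have e1 : ∀ i, (SignType.sign (u i) : ℝ) * ((if u i = 0 then 1 else |u i|) * x i) =
        u i * x i := fun i => by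
      split_ifs with h
      · simp [h]
      · rw [← mul_assoc, sign_mul_abs]
    have e2 : ∀ i, (SignType.sign (u i) : ℝ) * ((g i).2 / u i) *
        ((if u i = 0 then 1 else |u i|) * x i) = (g i).2 * x i := fun i => by
      rw [mul_right_comm, e1]
      by_cases h : u i = 0
      · simp [h, hu i h]
      · field_simp
    simp only [e1, e2, hL, hG, Prod.ext_iff, Prod.fst_sum, Prod.snd_sum, Prod.smul_fst,
      Prod.smul_snd, smul_eq_mul, Prod.fst_zero, Prod.snd_zero, u, add_mul, sum_add_distrib,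
      mul_assoc, ← mul_sum, mul_comm (x _)]
    constructor
    · rintro ⟨a, b⟩; simp [a, b]
    · rintro ⟨a, b⟩; simpa [b] using a

end Pool.Agent.H81.Ins
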