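import Mathlib

set_option autoImplicit false

namespace Pool.Agent.H81.Ins
open Set Module

abbrev E (d : ℕ) := EuclideanSpace ℝ (Fin d)

variable {d : ℕ}

lemma le_hull {S : Set (E d)} (l : E d →L[ℝ] ℝ) {c : ℝ} (h : ∀ x ∈ S, l x ≤ c) :
    ∀ x ∈ convexHull ℝ S, l x ≤ c :=
  convexHull_min h (convex_halfSpace_le l.toLinearMap.isLinear c)

lemma expo {S : Set (E d)} (l : E d →L[ℝ] ℝ) {c : ℝ} (h : ∀ x ∈ S, l x ≤ c) :
    IsExposed ℝ (convexHull ℝ S) {x ∈ convexHull ℝ S | l x = c} := by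
  rintro ⟨z, hz, e⟩
  refine ⟨l, Subset.antisymm (fun x hx => ⟨hx.1, fun y hy => hx.2 ▸ le_hull l h y hy⟩)
    fun x hx => ⟨hx.1, (le_hull l h x hx.1).antisymm (e ▸ hx.2 z hz)⟩⟩

lemma supp {S F : Set (E d)} (h : IsExposed ℝ (convexHull ℝ S) F) :
    F = convexHull ℝ (S ∩ F) := by
  refine Subset.antisymm (fun x hx => ?_)
    (convexHull_min inter_subset_right (h.convex (convex_convexHull ℝ S)))
  obtain ⟨l, rfl⟩ := h ⟨x, hx⟩
  obtain ⟨ι, _, w, z, h0, h1, hz, e⟩ := mem_convexHull_iff_exists_fintype.1 hx.1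
  have hl : ∀ i, l (z i) ≤ l x := fun i => hx.2 _ (subset_convexHull ℝ S (hz i))
  have hs : ∑ i, w i * (l x - l (z i)) = 0 := by
    simp only [mul_sub, Finset.sum_sub_distrib, ← Finset.sum_mul, h1, one_mul]
    conv_lhs => enter [1]; rw [← e]
    simp
  rw [Finset.sum_eq_zero_iff_of_nonneg fun i _ => mul_nonneg (h0 i) (sub_nonneg.2 (hl i))] at hs
  rw [← e, ← Finset.sum_filter_of_ne (p := fun i => w i ≠ 0) fun i _ k => left_ne_zero_of_smul k]
  refine (convex_convexHull ℝ _).sum_mem (fun i _ => h0 i) ?_ fun i hi => subset_convexHull ℝ _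
    ⟨hz i, subset_convexHull ℝ S (hz i), fun y hy => ?_⟩
  · rw [Finset.sum_filter_of_ne fun i _ k => k, h1]
  · have := (mul_eq_zero.1 (hs i (Finset.mem_univ i))).resolve_left (Finset.mem_filter.1 hi).2
    linarith [hx.2 y hy]

def Cr (V A : Set (E d)) : Prop :=
  ∃ f : E d × ℝ →ₗ[ℝ] ℝ, (∀ v ∈ V, 0 ≤ f (v, 1)) ∧ ∀ v ∈ V, (f (v, 1) = 0 ↔ v ∈ A)

lemma crit {V A : Set (E d)} (hA : A ⊆ V) (hV : V ⊆ (convexHull ℝ V).extremePoints ℝ) :
    IsExposed ℝ (convexHull ℝ V) (convexHull ℝ A) ↔ Cr V A := by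
  constructor
  · intro h
    rcases A.eq_empty_or_nonempty with rfl | ⟨a, ha⟩
    · exact ⟨LinearMap.snd ℝ _ _, by simp, by simp⟩
    obtain ⟨l, hl⟩ := h ⟨a, subset_convexHull ℝ A ha⟩
    have m : ∀ x ∈ A, ∀ y ∈ convexHull ℝ V, l y ≤ l x := fun x hx =>
      (hl.subset (subset_convexHull ℝ A hx)).2
    refine ⟨l a • LinearMap.snd ℝ _ _ - l.toLinearMap ∘ₗ LinearMap.fst ℝ _ _, fun v hv => ?_,
      fun v hv => ⟨fun h0 => ?_, fun h0 => ?_⟩⟩
    · simpa using m a ha v (subset_convexHull ℝ V hv)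
    · have e : l a = l v := by simpa [sub_eq_zero] using h0
      have : v ∈ convexHull ℝ A := hl.symm.subset
        ⟨subset_convexHull ℝ V hv, fun y hy => e ▸ m a ha y hy⟩
      exact extremePoints_convexHull_subset
        (inter_extremePoints_subset_extremePoints_of_subset (convexHull_mono hA) ⟨this, hV hv⟩)
    · have := (m a ha v (subset_convexHull ℝ V hv)).antisymm
        (m v h0 a (subset_convexHull ℝ V (hA ha)))
      simp [this]
  · rintro ⟨f, h1, h2⟩
    let l : E d →L[ℝ] ℝ := LinearMap.toContinuousLinearMap (-f ∘ₗ LinearMap.inl ℝ _ _)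
    have e : ∀ v, f (v, 1) = f (0, 1) - l v := fun v => by
      have : ((v, 1) : E d × ℝ) = (0, 1) + (v, 0) := by simp
      rw [this, map_add]; simp [l]
    have hx := expo (S := V) l (c := f (0, 1)) fun x hx => by linarith [h1 x hx, e x]
    have : V ∩ {x ∈ convexHull ℝ V | l x = f (0, 1)} = A := by
      ext v
      refine ⟨fun h => (h2 v h.1).mp (by rw [e, h.2.2, sub_self]), fun h => ⟨hA h,
        subset_convexHull ℝ V (hA h), by linarith [e v, (h2 v (hA h)).mpr h]⟩⟩
    rw [supp hx, this] at hx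
    exact hx

lemma sphere_chart (σ : E d × ℝ →ₗ[ℝ] ℝ) (hσ : σ ≠ 0) (B : LinearMap.BilinForm ℝ (E d × ℝ))
    (hs : ∀ x y, B x y = B y x) (hn : ∀ w, σ w = 0 → w ≠ 0 → B w w < 0) :
    ∃ (Ψ : (E d × ℝ) ≃ₗ[ℝ] (E d × ℝ)) (c : E d) (r : ℝ), (∀ w, (Ψ w).2 = σ w) ∧
      ∀ w, σ w = 1 → B w w = 0 → (Ψ w).1 ∈ Metric.sphere c r := by
  classical
  have hr : finrank ℝ (LinearMap.ker σ) = d := by
    have := Module.Dual.finrank_ker_add_one_of_ne_zero hσ
    simpa using this
  obtain ⟨b0, hb0⟩ := LinearMap.BilinForm.exists_orthogonal_basis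
    (B := B.restrict (LinearMap.ker σ)) ⟨fun x y => hs _ _⟩
  let b := b0.reindex (finCongr hr)
  have o1 : ∀ i j, i ≠ j → B (b i) (b j) = 0 := fun i j h => by
    simpa [b] using hb0 (i := (finCongr hr).symm i) (j := (finCongr hr).symm j) (by simpa using h)
  have o2 : ∀ i, B (b i) (b i) < 0 := fun i =>
    hn _ (b i).2 (by simpa using b.ne_zero i)
  obtain ⟨w1, hw1⟩ : ∃ w, σ w ≠ 0 := by
    by_contra h; push Not at h; exact hσ (LinearMap.ext h)
  let w0 := (σ w1)⁻¹ • w1
  have hw0 : σ w0 = 1 := by simp [w0, hw1]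
  let n : Fin d → E d × ℝ := fun i => (√(-B (b i) (b i)))⁻¹ • (b i : E d × ℝ)
  have n1 : ∀ i j, B (n i) (n j) = if i = j then -1 else 0 := fun i j => by
    split_ifs with h
    · subst h
      have := o2 i
      simp only [n, map_smul, LinearMap.smul_apply, smul_eq_mul]
      rw [← mul_assoc, ← mul_inv, Real.mul_self_sqrt (by linarith)]
      field_simp [this.ne]
    · simp [n, o1 i j h]
  have n2 : ∀ i, σ (n i) = 0 := fun i => by
    have : σ (b i) = 0 := (b i).2
    simp [n, this]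
  let Θ : E d × ℝ →ₗ[ℝ] E d × ℝ :=
    (∑ i, ((EuclideanSpace.proj i : E d →L[ℝ] ℝ).toLinearMap ∘ₗ LinearMap.fst ℝ _ _).smulRight
      (n i)) + (LinearMap.snd ℝ _ _).smulRight w0
  have t0 : ∀ z t, Θ (z, t) = ∑ i, z i • n i + t • w0 := fun z t => by simp [Θ]
  have t1 : ∀ z t, σ (Θ (z, t)) = t := fun z t => by simp [t0, n2, hw0]
  have t2 : ∀ z t, B (Θ (z, t)) (Θ (z, t)) =
      -∑ i, z i ^ 2 + 2 * t * ∑ i, z i * B (n i) w0 + t ^ 2 * B w0 w0 := fun z t => by
    simp only [t0, map_add, map_sum, map_smul, LinearMap.add_apply, LinearMap.sum_apply,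
      LinearMap.smul_apply, smul_eq_mul, n1, hs w0 (n _), mul_ite, mul_zero, Finset.sum_ite_eq',
      Finset.mem_univ, if_true, mul_add, Finset.sum_add_distrib, Finset.mul_sum,
      ← Finset.sum_neg_distrib]
    have : ∑ i, 2 * t * (z i * B (n i) w0) = ∑ i, z i * (t * B (n i) w0) +
        ∑ i, t * (z i * B (n i) w0) := by
      rw [← Finset.sum_add_distrib]; exact Finset.sum_congr rfl fun i _ => by ring
    rw [this, show ∑ i, z i * (z i * -1) = ∑ i, -z i ^ 2 from
      Finset.sum_congr rfl fun i _ => by ring]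
    ring
  have inj : Function.Injective Θ := by
    rw [injective_iff_map_eq_zero]
    rintro ⟨z, t⟩ h
    have a := t1 z t
    have b := t2 z t
    rw [h, map_zero] at a b
    subst a
    have : ∑ i, z i ^ 2 = 0 := by simpa using b
    rw [Finset.sum_eq_zero_iff_of_nonneg fun i _ => sq_nonneg _] at this
    ext i
    · simpa using this i (Finset.mem_univ i)
    · rfl
  let c : E d := WithLp.toLp 2 fun i => B (n i) w0
  refine ⟨(LinearEquiv.ofInjectiveEndo Θ inj).symm, c, √(B w0 w0 + ∑ i, c i ^ 2), fun w => ?_,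
    fun w h1 h2 => ?_⟩
  · obtain ⟨⟨z, t⟩, rfl⟩ := (LinearEquiv.ofInjectiveEndo Θ inj).surjective w
    rw [LinearEquiv.symm_apply_apply]
    exact (t1 z t).symm
  · obtain ⟨⟨z, t⟩, rfl⟩ := (LinearEquiv.ofInjectiveEndo Θ inj).surjective w
    rw [LinearEquiv.symm_apply_apply, Metric.mem_sphere, EuclideanSpace.dist_eq]
    have a : t = 1 := (t1 z t).symm.trans h1
    subst a
    have b := (t2 z 1).symm.trans h2
    congr 1
    simp only [Real.dist_eq, sq_abs, sub_sq, Finset.sum_add_distrib, Finset.sum_sub_distrib,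
      mul_assoc, ← Finset.mul_sum]
    simp only [c]
    linarith

lemma hull_ext (S : Finset (E d)) :
    convexHull ℝ ((convexHull ℝ (S : Set (E d))).extremePoints ℝ) = convexHull ℝ (S : Set (E d)) := by
  have hf : ((convexHull ℝ (S : Set (E d))).extremePoints ℝ).Finite :=
    S.finite_toSet.subset extremePoints_convexHull_subset
  rw [← (hf.isClosed_convexHull ℝ).closure_eq]
  exact closure_convexHull_extremePoints (S.finite_toSet.isCompact_convexHull ℝ)
    (convex_convexHull ℝ _)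

/-- a Lorentzian quadric through all vertices gives an inscribed realization -/
theorem inscribe [Nontrivial (E d)] (S : Finset (E d)) (σ : E d × ℝ →ₗ[ℝ] ℝ) (hσ0 : σ ≠ 0)
    (B : LinearMap.BilinForm ℝ (E d × ℝ))
    (hs : ∀ x y, B x y = B y x) (hn : ∀ w, σ w = 0 → w ≠ 0 → B w w < 0)
    (hv : ∀ v ∈ (convexHull ℝ (S : Set (E d))).extremePoints ℝ,
      0 < σ (v, 1) ∧ B (v, 1) (v, 1) = 0) :
    ∃ T : Finset (E d), ∃ c : E d, ∃ r : ℝ, (T : Set (E d)) ⊆ Metric.sphere c r ∧
      ∃ e : E d → E d, Set.BijOn e ((convexHull ℝ (S : Set (E d))).extremePoints ℝ)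
        ((convexHull ℝ (T : Set (E d))).extremePoints ℝ) ∧
        ∀ A ⊆ (convexHull ℝ (S : Set (E d))).extremePoints ℝ,
          (IsExposed ℝ (convexHull ℝ (S : Set (E d))) (convexHull ℝ A) ↔
            IsExposed ℝ (convexHull ℝ (T : Set (E d))) (convexHull ℝ (e '' A))) := by
  obtain ⟨Ψ, c, r, h1, h2⟩ := sphere_chart σ hσ0 B hs hn
  have hh := hull_ext S
  set V := (convexHull ℝ (S : Set (E d))).extremePoints ℝ with hV
  have hf : V.Finite := S.finite_toSet.subset extremePoints_convexHull_subset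
  let e : E d → E d := fun v => (Ψ ((σ (v, 1))⁻¹ • (v, 1))).1
  have k1 : ∀ v ∈ V, Ψ ((σ (v, 1))⁻¹ • (v, 1)) = (e v, 1) := fun v h =>
    Prod.ext rfl (by rw [h1, map_smul, smul_eq_mul, inv_mul_cancel₀ (hv v h).1.ne'])
  have k2 : InjOn e V := fun v h w h' he => by
    have := Ψ.injective ((k1 v h).trans (by rw [he, ← k1 w h']))
    have a : (σ (v, 1))⁻¹ = (σ (w, 1))⁻¹ := by simpa using congrArg Prod.snd this
    rw [a] at this
    exact (Prod.ext_iff.mp (smul_right_injective _ (inv_ne_zero (hv w h').1.ne') this)).1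
  have k3 : e '' V ⊆ Metric.sphere c r := by
    rintro _ ⟨v, h, rfl⟩
    refine h2 _ (by rw [map_smul, smul_eq_mul, inv_mul_cancel₀ (hv v h).1.ne']) ?_
    rw [LinearMap.map_smul₂, map_smul, (hv v h).2]; simp
  have k4 : e '' V ⊆ (convexHull ℝ (e '' V)).extremePoints ℝ := fun x hx =>
    inter_extremePoints_subset_extremePoints_of_subset
      (convexHull_min (k3.trans Metric.sphere_subset_closedBall) (convex_closedBall c r))
      ⟨subset_convexHull ℝ _ hx, StrictConvexSpace.extremePoints_closedBall_eq_sphere.symm.subset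
        (k3 hx)⟩
  refine ⟨(hf.image e).toFinset, c, r, by simpa using k3, e, ?_, fun A hA => ?_⟩
  · rw [Finite.coe_toFinset, Subset.antisymm extremePoints_convexHull_subset k4]
    exact k2.bijOn_image
  · rw [Finite.coe_toFinset, ← hh, crit hA (by rw [hh]), crit (image_mono hA) k4]
    have mem : ∀ v ∈ V, (e v ∈ e '' A ↔ v ∈ A) := fun v h =>
      ⟨fun ⟨w, hw, he⟩ => k2 (hA hw) h he ▸ hw, mem_image_of_mem e⟩
    constructor
    · rintro ⟨f, f1, f2⟩
      have q : ∀ v ∈ V, (f ∘ₗ Ψ.symm.toLinearMap) (e v, 1) = (σ (v, 1))⁻¹ * f (v, 1) :=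
        fun v h => by
          rw [← k1 v h, LinearMap.comp_apply, LinearEquiv.coe_coe, LinearEquiv.symm_apply_apply,
            map_smul, smul_eq_mul]
      refine ⟨f ∘ₗ Ψ.symm.toLinearMap, ?_, ?_⟩
      · rintro _ ⟨v, h, rfl⟩
        rw [q v h]; exact mul_nonneg (inv_pos.mpr (hv v h).1).le (f1 v h)
      · rintro _ ⟨v, h, rfl⟩
        rw [q v h, mem v h, ← f2 v h, mul_eq_zero, or_iff_right (inv_ne_zero (hv v h).1.ne')]
    · rintro ⟨f, f1, f2⟩
      have q : ∀ v ∈ V, (f ∘ₗ Ψ.toLinearMap) (v, 1) = σ (v, 1) * f (e v, 1) := fun v h => by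
        rw [← k1 v h, map_smul, map_smul, smul_eq_mul, ← mul_assoc,
          mul_inv_cancel₀ (hv v h).1.ne', one_mul]
        rfl
      refine ⟨f ∘ₗ Ψ.toLinearMap, fun v h => ?_, fun v h => ?_⟩
      · rw [q v h]; exact mul_nonneg (hv v h).1.le (f1 _ (mem_image_of_mem e h))
      · rw [q v h, ← mem v h, ← f2 _ (mem_image_of_mem e h), mul_eq_zero,
          or_iff_right (hv v h).1.ne']

/-- the facets through a vertex cut out the vertex -/
theorem facet_at (S : Finset (E d)) (hS : (interior (convexHull ℝ (S : Set (E d)))).Nonempty)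
    {v : E d} (hv : v ∈ (convexHull ℝ (S : Set (E d))).extremePoints ℝ) {y : E d} (hy : y ≠ 0) :
    ∃ F, IsExposed ℝ (convexHull ℝ (S : Set (E d))) F ∧ v ∈ F ∧
      finrank ℝ (vectorSpan ℝ F) + 1 = d ∧ y ∉ vectorSpan ℝ F := by
  classical
  have hvS : v ∈ (S : Set (E d)) := extremePoints_convexHull_subset hv
  have hspan : ∀ m : E d →L[ℝ] ℝ, (∀ s ∈ S, m s = m v) → m = 0 := by
    intro m hm
    have h1 := AffineSubspace.vectorSpan_eq_top_of_affineSpan_eq_top ℝ _ _
      (interior_convexHull_nonempty_iff_affineSpan_eq_top.mp hS)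
    rw [vectorSpan_eq_span_vsub_set_right ℝ hvS] at h1
    have : (⊤ : Submodule ℝ (E d)) ≤ LinearMap.ker m.toLinearMap := by
      rw [← h1, Submodule.span_le]
      rintro _ ⟨s, hs, rfl⟩
      simp [hm s hs]
    ext x
    exact this (Submodule.mem_top (x := x))
  -- a supporting functional not vanishing at `y`
  have h0 : ∃ l : E d →L[ℝ] ℝ, (∀ s ∈ S, l s ≤ l v) ∧ l y ≠ 0 := by
    have hn : v ∉ convexHull ℝ ((S : Set (E d)) \ {v}) := fun h =>
      (((convex_convexHull ℝ _).mem_extremePoints_iff_mem_sdiff_convexHull_sdiff).mp hv).2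
        (convexHull_mono (diff_subset_diff_left (subset_convexHull ℝ _)) h)
    obtain ⟨l, u, l1, l2⟩ := geometric_hahn_banach_closed_point (convex_convexHull ℝ _)
      ((S.finite_toSet.subset diff_subset).isClosed_convexHull ℝ) hn
    have l3 : ∀ s ∈ S, s ≠ v → l s < l v := fun s hs h =>
      (l1 s (subset_convexHull ℝ _ ⟨hs, h⟩)).trans l2
    by_cases hl : l y = 0
    · have ev : ∀ᶠ t in nhds (0 : ℝ), ∀ s ∈ S, l s + t * inner ℝ y s ≤ l v + t * inner ℝ y v := by
        rw [Filter.eventually_all_finset]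
        intro s hs
        by_cases h : s = v
        · simp [h]
        · refine (ContinuousAt.eventually_lt (by fun_prop) (by fun_prop) ?_).mono fun t => le_of_lt
          simpa using l3 s hs h
      obtain ⟨t, ht, ht0⟩ := ((ev.filter_mono (nhdsWithin_le_nhds (s := {0}ᶜ))).and
        self_mem_nhdsWithin).exists
      refine ⟨l + t • innerSL ℝ y, fun s hs => by simpa using ht s hs, ?_⟩
      have : t ≠ 0 := ht0
      simpa [hl, this] using hy
    · exact ⟨l, fun s hs => by
        by_cases h : s = v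
        · rw [h]
        · exact (l3 s hs h).le, hl⟩
  obtain ⟨_, ⟨l, ⟨l1, l2⟩, rfl⟩, hmax⟩ := exists_max_image
    ((fun l : E d →L[ℝ] ℝ => (S.filter fun s => l s = l v).card) ''
      {l | (∀ s ∈ S, l s ≤ l v) ∧ l y ≠ 0}) id
    ((finite_Iic S.card).subset (by rintro _ ⟨l, -, rfl⟩; exact Finset.card_filter_le _ _))
    (Set.Nonempty.image _ h0)
  have hx := expo (S := (S : Set (E d))) l l1
  have hvF : v ∈ {x ∈ convexHull ℝ (S : Set (E d)) | l x = l v} := ⟨hv.1, rfl⟩
  refine ⟨_, hx, hvF, ?_⟩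
  set W := vectorSpan ℝ {x ∈ convexHull ℝ (S : Set (E d)) | l x = l v} with hW
  have hl0 : l.toLinearMap ≠ 0 := fun h => l2 (LinearMap.congr_fun h y)
  have w1 : W ≤ LinearMap.ker l.toLinearMap := by
    rw [hW, vectorSpan_eq_span_vsub_set_right ℝ hvF, Submodule.span_le]
    rintro _ ⟨s, hs, rfl⟩
    simp [hs.2]
  have w2 := Module.Dual.finrank_ker_add_one_of_ne_zero hl0
  have w3 := Submodule.finrank_mono w1
  rw [finrank_euclideanSpace_fin] at w2
  refine ⟨?_, fun h => l2 (w1 h)⟩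
  by_contra hne
  have w4 := Submodule.finrank_add_le_finrank_add_finrank W (ℝ ∙ y)
  have w5 : finrank ℝ (ℝ ∙ y) = 1 := finrank_span_singleton hy
  have w6 : W ⊔ (ℝ ∙ y) < ⊤ := by
    refine lt_top_iff_ne_top.mpr fun h => ?_
    rw [h, finrank_top, finrank_euclideanSpace_fin] at w4
    omega
  obtain ⟨m0, hm0, hm⟩ := Submodule.exists_le_ker_of_lt_top _ w6
  have key : ∀ m : E d →L[ℝ] ℝ, (∀ x ∈ W ⊔ (ℝ ∙ y), m x = 0) → ∀ s ∈ S, m s ≤ m v := by
    intro m hm
    by_contra hc
    push Not at hc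
    obtain ⟨s0, h1, h2⟩ := Finset.exists_min_image (S.filter fun s => m v < m s)
      (fun s => (l v - l s) / (m s - m v)) (by simpa [Finset.Nonempty] using hc)
    rw [Finset.mem_filter] at h1
    have tight : ∀ s ∈ S, l s = l v → m s = m v := fun s hs h => by
      have := hm (s - v) (Submodule.mem_sup_left
        (vsub_mem_vectorSpan ℝ ⟨subset_convexHull ℝ _ hs, h⟩ hvF))
      rwa [map_sub, sub_eq_zero] at this
    set t := (l v - l s0) / (m s0 - m v) with ht
    have hp : 0 < m s0 - m v := sub_pos.mpr h1.2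
    have ht0 : 0 ≤ t := div_nonneg (sub_nonneg.mpr (l1 s0 h1.1)) hp.le
    have ht1 : t * (m s0 - m v) = l v - l s0 := div_mul_cancel₀ _ hp.ne'
    have := hmax _ ⟨l + t • m, ⟨fun s hs => ?_, ?_⟩, rfl⟩
    · refine absurd this (not_le.mpr (Finset.card_lt_card ⟨fun s hs => ?_, fun h => ?_⟩))
      · rw [Finset.mem_filter] at hs ⊢
        exact ⟨hs.1, by simp [hs.2, tight s hs.1 hs.2]⟩
      · have := (Finset.mem_filter.mp (h (Finset.mem_filter.mpr ⟨h1.1, by
          simp only [ContinuousLinearMap.add_apply, ContinuousLinearMap.smul_apply, smul_eq_mul]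
          linarith⟩))).2
        exact h1.2.ne' (tight s0 h1.1 this)
    · simp only [ContinuousLinearMap.add_apply, ContinuousLinearMap.smul_apply, smul_eq_mul]
      by_cases h : m v < m s
      · have := h2 s (Finset.mem_filter.mpr ⟨hs, h⟩)
        rw [le_div_iff₀ (sub_pos.mpr h)] at this
        linarith
      · nlinarith [l1 s hs, not_lt.mp h]
    · simpa [hm y (Submodule.mem_sup_right (Submodule.mem_span_singleton_self y))] using l2
  have a := key (LinearMap.toContinuousLinearMap m0) fun x hx => hm hx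
  have b := key (-LinearMap.toContinuousLinearMap m0) fun x hx => by
    have : m0 x = 0 := hm hx
    simp [this]
  have := hspan (LinearMap.toContinuousLinearMap m0) fun s hs =>
    (a s hs).antisymm (by simpa using b s hs)
  exact hm0 (by simpa using this)

end Pool.Agent.H81.Ins
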