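import Mathlib

open scoped MeasureTheory Pointwise

namespace Pool.Agent.H81.InterBody

/-- Origin-symmetric convex bodies. -/
def IsSymmBody {n : ℕ} (K : Set (EuclideanSpace ℝ (Fin n))) : Prop :=
  IsCompact K ∧ Convex ℝ K ∧ (interior K).Nonempty ∧ K = -K

/-- The intersection body: the star body whose radial function at `u` is the
`(n-1)`-dimensional volume of `K ∩ u^⊥` (`μHE[n-1]` is the Euclidean-normalised Hausdorff
measure). -/
def interBody {n : ℕ} (K : Set (EuclideanSpace ℝ (Fin n))) : Set (EuclideanSpace ℝ (Fin n)) :=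
  {x | x = 0 ∨ ‖x‖ ≤ (μHE[n - 1] (K ∩ {y | inner ℝ x y = 0})).toReal}

/-- The Banach-Mazur distance. -/
noncomputable def bmDist {n : ℕ} (L M : Set (EuclideanSpace ℝ (Fin n))) : ℝ :=
  sInf {l : ℝ | 1 ≤ l ∧ ∃ T : EuclideanSpace ℝ (Fin n) ≃ₗ[ℝ] EuclideanSpace ℝ (Fin n),
    M ⊆ T '' L ∧ T '' L ⊆ l • M}

end Pool.Agent.H81.InterBody
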