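import Mathlib
import Pool.Agent.H81.Plane
import Pool.Agent.H81.InterBodyDefs

open scoped MeasureTheory Pointwise RealInnerProductSpace
open Set Metric MeasureTheory Pool.Agent.H81.Plane

namespace Pool.Agent.H81.InterBody

def K : Set E3 := {x | x 0 ^ 2 + x 2 ^ 2 ≤ 1 ∧ x 1 ^ 2 + x 2 ^ 2 ≤ 1 ∧ ‖x‖ ≤ 5 / 4}

theorem K_sub : K ⊆ closedBall 0 (5 / 4) := fun x hx => by simpa using hx.2.2

theorem ball_sub : closedBall 0 1 ⊆ K := fun x hx => by
  have h : ‖x‖ ≤ 1 := by simpa using hx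
  have h2 := nsq3 x
  have h3 : ‖x‖ ^ 2 ≤ 1 := by nlinarith [norm_nonneg x]
  exact ⟨by nlinarith [sq_nonneg (x 1)], by nlinarith [sq_nonneg (x 0)], by linarith⟩

theorem K_body : IsSymmBody K := by
  have c1 : IsClosed {x : E3 | x 0 ^ 2 + x 2 ^ 2 ≤ 1} := isClosed_le (by fun_prop) (by fun_prop)
  have c2 : IsClosed {x : E3 | x 1 ^ 2 + x 2 ^ 2 ≤ 1} := isClosed_le (by fun_prop) (by fun_prop)
  have c3 : IsClosed {x : E3 | ‖x‖ ≤ 5 / 4} := isClosed_le (by fun_prop) (by fun_prop)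
  refine ⟨(isCompact_closedBall 0 (5 / 4)).of_isClosed_subset (c1.inter (c2.inter c3)) K_sub, ?_,
    ⟨0, interior_mono ball_sub (mem_interior_iff_mem_nhds.2 (closedBall_mem_nhds 0 one_pos))⟩, ?_⟩
  · rintro x ⟨h1, h2, h3⟩ y ⟨h4, h5, h6⟩ a b ha hb hab
    have key : ∀ p q r s : ℝ, p ^ 2 + q ^ 2 ≤ 1 → r ^ 2 + s ^ 2 ≤ 1 →
        (a * p + b * r) ^ 2 + (a * q + b * s) ^ 2 ≤ 1 := by
      intro p q r s h h'
      obtain rfl : b = 1 - a := by linarith
      nlinarith [mul_nonneg ha hb, sq_nonneg (p - r), sq_nonneg (q - s),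
        mul_nonneg (mul_nonneg ha hb) (sq_nonneg (p - r)),
        mul_nonneg (mul_nonneg ha hb) (sq_nonneg (q - s))]
    refine ⟨key _ _ _ _ h1 h4, key _ _ _ _ h2 h5, ?_⟩
    simpa using convex_closedBall (0 : E3) (5 / 4) (by simpa using h3) (by simpa using h6) ha hb hab
  · ext x; simp [K]

theorem area_disc {x : E3} (hx : x ≠ 0) {r : ℝ} (hr : 0 ≤ r) :
    μHE[2] (closedBall (0 : E3) r ∩ {y | ⟪x, y⟫ = 0}) = ENNReal.ofReal (r ^ 2 * Real.pi) := by
  have hf : Module.finrank ℝ (ℝ ∙ x)ᗮ = 2 * 1 := by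
    have h1 := (ℝ ∙ x).finrank_add_finrank_orthogonal
    rw [finrank_span_singleton hx] at h1
    simp at h1; omega
  have e : closedBall (0 : E3) r ∩ {y | ⟪x, y⟫ = 0} = Subtype.val '' closedBall (0 : (ℝ ∙ x)ᗮ) r := by
    ext y
    constructor
    · rintro ⟨h1, h2⟩
      exact ⟨⟨y, Submodule.mem_orthogonal_singleton_iff_inner_right.2 h2⟩, by simpa using h1, rfl⟩
    · rintro ⟨⟨y, hy⟩, h1, rfl⟩
      exact ⟨by simpa using h1, Submodule.mem_orthogonal_singleton_iff_inner_right.1 hy⟩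
  have : Nontrivial (ℝ ∙ x)ᗮ := Module.nontrivial_of_finrank_pos (R := ℝ) (by omega)
  rw [e, isometry_subtype_coe.euclideanHausdorffMeasure_image]
  have h2 := InnerProductSpace.euclideanHausdorffMeasure_eq_volume (V := (ℝ ∙ x)ᗮ)
  rw [hf] at h2
  rw [h2, InnerProductSpace.volume_closedBall_of_dim_even hf, hf, ENNReal.ofReal_mul (by positivity),
    ENNReal.ofReal_pow hr]
  simp

theorem sec_le {x : E3} (hx : x ≠ 0) :
    μHE[2] (K ∩ {y | ⟪x, y⟫ = 0}) ≤ ENNReal.ofReal ((5 / 4) ^ 2 * Real.pi) := by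
  rw [← area_disc hx (by norm_num)]
  exact measure_mono (inter_subset_inter_left _ K_sub)

theorem mem_inter {x : E3} (h : ENNReal.ofReal ‖x‖ ≤ μHE[2] (K ∩ {y | ⟪x, y⟫ = 0})) :
    x ∈ interBody K := by
  rcases eq_or_ne x 0 with rfl | hx
  · exact Or.inl rfl
  · exact Or.inr ((ENNReal.ofReal_le_iff_le_toReal ((sec_le hx).trans_lt ENNReal.ofReal_lt_top).ne).1 h)

theorem nonempty_set : closedBall (0 : E3) 1 ⊆ interBody K ∧
    interBody K ⊆ (7 : ℝ) • closedBall (0 : E3) 1 := by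
  constructor
  · intro x hx
    rcases eq_or_ne x 0 with rfl | h0
    · exact Or.inl rfl
    apply mem_inter
    refine le_trans ?_ (measure_mono (inter_subset_inter_left _ ball_sub))
    rw [area_disc h0 zero_le_one]
    apply ENNReal.ofReal_le_ofReal
    have : ‖x‖ ≤ 1 := by simpa using hx
    linarith [Real.pi_gt_three]
  · intro x hx
    rw [_root_.smul_closedBall _ _ zero_le_one, mem_closedBall_iff_norm]
    rcases eq_or_ne x 0 with rfl | h0
    · simp
    rcases hx with hx | hx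
    · exact absurd hx h0
    have := ENNReal.toReal_le_of_le_ofReal (by positivity) (sec_le h0)
    simp only [smul_zero, sub_zero, Real.norm_ofNat, mul_one]
    have h2 : ‖x‖ ≤ (μHE[2] (K ∩ {y | ⟪x, y⟫ = 0})).toReal := hx
    linarith [Real.pi_lt_four]

theorem axis {i : Fin 3} (hi : i = 0 ∨ i = 1) {t : ℝ} (ht : Real.pi < t) :
    EuclideanSpace.single i t ∉ interBody K := by
  have ht0 : 0 < t := Real.pi_pos.trans ht
  have h0 : (EuclideanSpace.single i t : E3) ≠ 0 := by simpa using ht0.ne'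
  rintro (h | h)
  · exact h0 h
  have h1 : K ∩ {y | ⟪EuclideanSpace.single i t, y⟫ = 0} ⊆
      closedBall 0 1 ∩ {y | ⟪EuclideanSpace.single i t, y⟫ = 0} := by
    rintro y ⟨hy, hy2⟩
    refine ⟨?_, hy2⟩
    have h2 : y i = 0 := by simpa [EuclideanSpace.inner_single_left, ht0.ne'] using hy2
    rw [mem_closedBall_zero_iff]
    apply (abs_le_of_sq_le_sq' _ zero_le_one).2
    rw [nsq3]
    rcases hi with rfl | rfl
    · rw [h2]; linarith [hy.2.1]
    · rw [h2]; linarith [hy.1]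
  have h3 := measure_mono (μ := μHE[2]) h1
  rw [area_disc h0 zero_le_one] at h3
  have h4 := ENNReal.toReal_le_of_le_ofReal (by positivity) h3
  have h5 : ‖(EuclideanSpace.single i t : E3)‖ ≤
    (μHE[2] (K ∩ {y | ⟪EuclideanSpace.single i t, y⟫ = 0})).toReal := h
  rw [PiLp.norm_single, Real.norm_eq_abs, abs_of_pos ht0] at h5
  linarith

theorem diag {σ t : ℝ} (hσ : σ ^ 2 = 1) (ht : 2 * t ^ 2 = (5 / 4 * (Real.pi + 1 / 10000)) ^ 2) :
    (!₂[t, σ * t, 0] : E3) ∈ interBody K := by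
  apply mem_inter
  have hn : ‖(!₂[t, σ * t, 0] : E3)‖ = 5 / 4 * (Real.pi + 1 / 10000) := by
    apply (pow_left_inj₀ (norm_nonneg _) (by positivity) two_ne_zero).1
    rw [nsq3, ← ht]; simp; linear_combination t ^ 2 * hσ
  set c := √(25 / 32 : ℝ) with hc
  have hc2 : c ^ 2 = 25 / 32 := Real.sq_sqrt (by norm_num)
  let S : Set E2 := {x | x 0 ∈ Ioo (80 / 100) (81 / 100) ∧ 65 / 100 < x 1 ∧ x 1 < 66 / 100}
  have n2 : ∀ x : E2, ‖x‖ ^ 2 = x 0 ^ 2 + x 1 ^ 2 := fun x => by
    rw [EuclideanSpace.real_norm_sq_eq, Fin.sum_univ_two]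
  have hsub : cols !₂[σ * c, -c, 0] !₂[0, 0, 1] '' (S ∪ closedBall 0 1) ⊆
      K ∩ {y | ⟪(!₂[t, σ * t, 0] : E3), y⟫ = 0} := by
    rintro _ ⟨x, hx, rfl⟩
    have h1 : 25 / 32 * x 0 ^ 2 + x 1 ^ 2 ≤ 1 ∧ 25 / 16 * x 0 ^ 2 + x 1 ^ 2 ≤ 25 / 16 := by
      rcases hx with ⟨⟨a1, a2⟩, a3, a4⟩ | hx
      · constructor <;> nlinarith
      · have h : ‖x‖ ≤ 1 := by simpa using hx
        have h3 : ‖x‖ ^ 2 ≤ 1 := by nlinarith [norm_nonneg x]
        rw [n2] at h3
        constructor <;> nlinarith [sq_nonneg (x 0), sq_nonneg (x 1)]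
    have e0 : (x 0 * (σ * c)) ^ 2 = 25 / 32 * x 0 ^ 2 := by
      rw [mul_pow, mul_pow, hσ, hc2]; ring
    have e1 : (x 0 * c) ^ 2 = 25 / 32 * x 0 ^ 2 := by rw [mul_pow, hc2]; ring
    refine ⟨⟨?_, ?_, ?_⟩, ?_⟩
    · simp [cols_apply]; linarith [h1.1]
    · simp [cols_apply]; linarith [h1.1]
    · apply (abs_le_of_sq_le_sq' _ (by norm_num)).2
      rw [nsq3]; simp [cols_apply]; linarith [h1.2]
    · show ⟪_, _⟫ = (0 : ℝ)
      rw [inner3]; simp [cols_apply]; ring
  refine le_trans ?_ (measure_mono hsub)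
  have hd : (cols !₂[σ * c, -c, 0] !₂[0, 0, 1]).normDet = 5 / 4 := by
    apply (pow_left_inj₀ (LinearMap.normDet_nonneg _) (by norm_num) two_ne_zero).1
    rw [normDet_cols_sq, inner3, inner3, inner3]; simp
    linear_combination c ^ 2 * hσ + 2 * hc2
  have hS : volume S = ENNReal.ofReal (1 / 10000) := by
    rw [vol_region (f := fun _ => 65 / 100) (g := fun _ => 66 / 100) (by norm_num) (by fun_prop)
      (by fun_prop) (fun _ _ => by norm_num), intervalIntegral.integral_const]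
    congr 1; norm_num
  rw [area_cols, hd, measure_union _ measurableSet_closedBall, hS,
    EuclideanSpace.volume_closedBall_fin_two, hn, ENNReal.ofReal_mul (by norm_num), add_comm,
    ENNReal.ofReal_add (by norm_num) Real.pi_pos.le]
  · simp
  · rw [Set.disjoint_left]
    rintro x ⟨⟨a1, a2⟩, a3, a4⟩ hx
    have h : ‖x‖ ≤ 1 := by simpa using hx
    have h3 : ‖x‖ ^ 2 ≤ 1 := by nlinarith [norm_nonneg x]
    rw [n2] at h3
    nlinarith

theorem main : bmDist K (closedBall 0 1) < bmDist (interBody K) (closedBall 0 1) := by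
  have hpi := Real.pi_pos
  have h1 : bmDist K (closedBall 0 1) ≤ 5 / 4 := by
    refine csInf_le ⟨1, fun l hl => hl.1⟩ ⟨by norm_num, LinearEquiv.refl ℝ _, by simpa using ball_sub, ?_⟩
    rw [_root_.smul_closedBall _ _ zero_le_one]
    simpa [abs_of_pos] using K_sub
  have h2 : 5 / 4 * (Real.pi + 1 / 10000) / Real.pi ≤ bmDist (interBody K) (closedBall 0 1) := by
    refine le_csInf ⟨7, by norm_num, LinearEquiv.refl ℝ _, by simpa using nonempty_set⟩ ?_
    rintro l ⟨hl, T, hT1, hT2⟩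
    set ρ := 5 / 4 * (Real.pi + 1 / 10000) with hρ
    have hρ0 : 0 < ρ := by positivity
    have a1 : ∀ i : Fin 3, i = 0 ∨ i = 1 → 1 ≤ Real.pi * ‖T (EuclideanSpace.single i 1)‖ := by
      intro i hi
      have : ∀ t, Real.pi < t → 1 ≤ t * ‖T (EuclideanSpace.single i 1)‖ := by
        intro t ht
        by_contra hc
        have e : EuclideanSpace.single i t = t • (EuclideanSpace.single i 1 : E3) := by
          ext j; simp [Pi.single_apply]
        obtain ⟨y, hy, hy2⟩ := hT1 (show T (EuclideanSpace.single i t) ∈ closedBall (0 : E3) 1 by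
          rw [e, map_smul, mem_closedBall_zero_iff, norm_smul, Real.norm_eq_abs,
            abs_of_pos (hpi.trans ht)]
          exact (not_le.1 hc).le)
        exact axis hi ht (T.injective hy2 ▸ hy)
      have lim : Filter.Tendsto (fun t : ℝ => t * ‖T (EuclideanSpace.single i 1)‖)
          (nhdsWithin Real.pi (Ioi Real.pi)) (nhds (Real.pi * ‖T (EuclideanSpace.single i 1)‖)) :=
        tendsto_nhdsWithin_of_tendsto_nhds (Continuous.tendsto (by fun_prop) _)
      exact ge_of_tendsto lim (Filter.eventually_of_mem self_mem_nhdsWithin this)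
    set t := ρ / √2 with ht
    have ht2 : 2 * t ^ 2 = ρ ^ 2 := by
      rw [ht, div_pow, Real.sq_sqrt (by norm_num)]; ring
    have a2 : ∀ σ : ℝ, σ ^ 2 = 1 →
        ‖t • (T (EuclideanSpace.single 0 1) + σ • T (EuclideanSpace.single 1 1))‖ ≤ l := by
      intro σ hσ
      have := hT2 ⟨_, diag hσ ht2, rfl⟩
      rw [_root_.smul_closedBall _ _ zero_le_one, mem_closedBall_iff_norm] at this
      have e : (!₂[t, σ * t, 0] : E3) = t • ((EuclideanSpace.single 0 1 : E3) +
          σ • EuclideanSpace.single 1 1) := by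
        ext j; fin_cases j <;> simp [mul_comm]
      rw [e] at this
      simpa [abs_of_pos (show 0 < l by linarith)] using this
    have b1 := a2 1 (by norm_num)
    have b2 := a2 (-1) (by norm_num)
    have c0 := a1 0 (Or.inl rfl)
    have c1 := a1 1 (Or.inr rfl)
    set u := T (EuclideanSpace.single 0 1)
    set v := T (EuclideanSpace.single 1 1)
    have par := parallelogram_law_with_norm ℝ u v
    rw [one_smul, norm_smul] at b1
    rw [neg_smul, one_smul, ← sub_eq_add_neg, norm_smul] at b2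
    have d1 := pow_le_pow_left₀ (by positivity) b1 2
    have d2 := pow_le_pow_left₀ (by positivity) b2 2
    rw [mul_pow, Real.norm_eq_abs, sq_abs] at d1 d2
    have d3 : ρ ^ 2 * (‖u‖ ^ 2 + ‖v‖ ^ 2) ≤ 2 * l ^ 2 := by rw [← ht2]; nlinarith
    have d4 := pow_le_pow_left₀ zero_le_one c0 2
    have d5 := pow_le_pow_left₀ zero_le_one c1 2
    rw [div_le_iff₀ hpi]
    apply (abs_le_of_sq_le_sq' _ (by positivity)).2
    have d6 := mul_le_mul_of_nonneg_left d3 (sq_nonneg Real.pi)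
    have d7 := mul_le_mul_of_nonneg_left (add_le_add d4 d5) (sq_nonneg ρ)
    nlinarith
  refine h1.trans_lt (lt_of_lt_of_le ?_ h2)
  rw [lt_div_iff₀ hpi]; linarith

end Pool.Agent.H81.InterBody
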