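import Mathlib

set_option autoImplicit false

open Set Filter Topology

namespace Pool.Agent.H81.Isoth

lemma lineX {φ : ℝ × ℝ → ℝ} {x y : ℝ} (h : DifferentiableAt ℝ φ (x, y)) :
    HasDerivAt (fun t => φ (t, y)) (fderiv ℝ φ (x, y) (1, 0)) x := by
  have h1 : HasDerivAt (fun t : ℝ => ((t, y) : ℝ × ℝ)) (1, 0) x :=
    (hasDerivAt_id' x).prodMk (hasDerivAt_const x y)
  exact h.hasFDerivAt.comp_hasDerivAt x h1

lemma lineY {φ : ℝ × ℝ → ℝ} {x y : ℝ} (h : DifferentiableAt ℝ φ (x, y)) :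
    HasDerivAt (fun t => φ (x, t)) (fderiv ℝ φ (x, y) (0, 1)) y := by
  have h1 : HasDerivAt (fun t : ℝ => ((x, t) : ℝ × ℝ)) (0, 1) y :=
    (hasDerivAt_const y x).prodMk (hasDerivAt_id' y)
  exact h.hasFDerivAt.comp_hasDerivAt y h1

lemma evX {W : Set (ℝ × ℝ)} (hW : IsOpen W) {x y : ℝ} (h : (x, y) ∈ W) :
    ∀ᶠ t in 𝓝 x, (t, y) ∈ W := by
  have : Continuous (fun t : ℝ => ((t, y) : ℝ × ℝ)) := by fun_prop
  exact this.continuousAt.preimage_mem_nhds (hW.mem_nhds h)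

lemma evY {W : Set (ℝ × ℝ)} (hW : IsOpen W) {x y : ℝ} (h : (x, y) ∈ W) :
    ∀ᶠ t in 𝓝 y, (x, t) ∈ W := by
  have : Continuous (fun t : ℝ => ((x, t) : ℝ × ℝ)) := by fun_prop
  exact this.continuousAt.preimage_mem_nhds (hW.mem_nhds h)

lemma deq {f g : ℝ → ℝ} {f' g' x : ℝ} (hf : HasDerivAt f f' x) (hg : HasDerivAt g g' x)
    (h : ∀ᶠ t in 𝓝 x, f t = g t) : f' = g' :=
  hf.unique (hg.congr_of_eventuallyEq h)

lemma symm2 {φ : ℝ × ℝ → ℝ} {z : ℝ × ℝ} (h : ContDiffAt ℝ 2 φ z) (a b : ℝ × ℝ) :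
    fderiv ℝ (fun w => fderiv ℝ φ w a) z b = fderiv ℝ (fun w => fderiv ℝ φ w b) z a := by
  have hs : IsSymmSndFDerivAt ℝ φ z := h.isSymmSndFDerivAt (by simp)
  have hd : DifferentiableAt ℝ (fderiv ℝ φ) z :=
    (h.fderiv_right (m := 1) (by norm_num)).differentiableAt (by norm_num)
  have key : ∀ a b : ℝ × ℝ,
      fderiv ℝ (fun w => fderiv ℝ φ w a) z b = fderiv ℝ (fderiv ℝ φ) z b a := by
    intro a b
    rw [fderiv_clm_apply hd (differentiableAt_const a)]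
    simp
  rw [key, key, hs.eq]

lemma cdpd {φ : ℝ × ℝ → ℝ} {z : ℝ × ℝ} {n : ℕ} (h : ContDiffAt ℝ ((n + 1 : ℕ) : ℕ∞) φ z)
    (a : ℝ × ℝ) : ContDiffAt ℝ (n : ℕ∞) (fun w => fderiv ℝ φ w a) z := by
  have h1 : ContDiffAt ℝ (n : ℕ∞) (fderiv ℝ φ) z := h.fderiv_right (by norm_cast)
  exact h1.clm_apply contDiffAt_const

def Ef (x : ℝ) : ℝ := 1 + 144 * x ^ 4
def Ex (x : ℝ) : ℝ := 576 * x ^ 3
def Ff (x y : ℝ) : ℝ := 144 * x ^ 2 * y ^ 2
def Fx (x y : ℝ) : ℝ := 288 * x * y ^ 2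
def Lf (x y : ℝ) : ℝ := -288 * x ^ 3 * y ^ 2
def Lx (x y : ℝ) : ℝ := -864 * x ^ 2 * y ^ 2
def Ly (x y : ℝ) : ℝ := -576 * x ^ 3 * y
def Mf (x y : ℝ) : ℝ := (1 + 144 * x ^ 4) * y - (1 + 144 * y ^ 4) * x
def Mx (x y : ℝ) : ℝ := 576 * x ^ 3 * y - (1 + 144 * y ^ 4)
def My (x y : ℝ) : ℝ := (1 + 144 * x ^ 4) - 576 * y ^ 3 * x
def Df (x y : ℝ) : ℝ := 1 + 144 * x ^ 4 + 144 * y ^ 4
def Kf (x y : ℝ) : ℝ := Mf x y ^ 2 + 82944 * x ^ 5 * y ^ 5
def Kx (x y : ℝ) : ℝ := 2 * Mf x y * Mx x y + 414720 * x ^ 4 * y ^ 5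
def Ky (x y : ℝ) : ℝ := 2 * Mf x y * My x y + 414720 * x ^ 5 * y ^ 4
def Sx (x y : ℝ) : ℝ := Ex x * Kf x y - Df x y * Kx x y
def Sy (x y : ℝ) : ℝ := Ex y * Kf x y - Df x y * Ky x y

def A1 (x y : ℝ) : ℝ := -(2 * Kf x y ^ 2 * Ef x * Ff x y) - 2 * Kf x y * Df x y * Lf x y * Mf x y
def B1 (x y : ℝ) : ℝ := 2 * Kf x y ^ 2 * Ef x ^ 2 + 2 * Kf x y * Df x y * Lf x y ^ 2
def C1 (x y : ℝ) : ℝ := 2 * Kf x y ^ 2 * (Ff x y * Ex x - 2 * Ef x * Fx x y)
  + 2 * Kf x y * Df x y * (Lf x y * Ly x y - 2 * Lf x y * Mx x y + Mf x y * Lx x y)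
  + (Lf x y ^ 2 * Sy x y - Lf x y * Mf x y * Sx x y)
def A2 (x y : ℝ) : ℝ := -(2 * Df x y * Kf x y * (Ef x * Mf x y + Lf x y * Ff x y))
def B2 (x y : ℝ) : ℝ := 4 * Df x y * Kf x y * Ef x * Lf x y
def C2 (x y : ℝ) : ℝ := 2 * Df x y * Kf x y * (Ef x * Ly x y - 2 * Ef x * Mx x y
    - 2 * Lf x y * Fx x y + Ff x y * Lx x y + Mf x y * Ex x)
  + (Ef x * Lf x y * Sy x y - 2 * Ef x * Mf x y * Sx x y + Ff x y * Lf x y * Sx x y)

lemma alg (E Ex' F Fx' L Lx' Ly' M Mx' D Dx Dy K Kx' Ky' μ μx μy ν νx νy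
    u1 u2 v1 v2 u11 u12 v11 v12 : ℝ) (hμ : μ ≠ 0) (hK : K ≠ 0) (hD : D ≠ 0)
    (ha : u1 ^ 2 + v1 ^ 2 = μ * E) (hb : u1 * u2 + v1 * v2 = μ * F)
    (ha' : 2 * (u1 * v1) = ν * L) (hb' : u1 * v2 + u2 * v1 = ν * M)
    (hνμ : ν ^ 2 * K = μ ^ 2 * D)
    (hax : 2 * u1 * u11 + 2 * v1 * v11 = μx * E + μ * Ex')
    (hay : 2 * u1 * u12 + 2 * v1 * v12 = μy * E)
    (hbx : u11 * u2 + u1 * u12 + (v11 * v2 + v1 * v12) = μx * F + μ * Fx')
    (hax' : 2 * (u11 * v1 + u1 * v11) = νx * L + ν * Lx')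
    (hay' : 2 * (u12 * v1 + u1 * v12) = νy * L + ν * Ly')
    (hbx' : u11 * v2 + u1 * v12 + (u12 * v1 + u2 * v11) = νx * M + ν * Mx')
    (hx : 2 * ν * νx * K + ν ^ 2 * Kx' = 2 * μ * μx * D + μ ^ 2 * Dx)
    (hy : 2 * ν * νy * K + ν ^ 2 * Ky' = 2 * μ * μy * D + μ ^ 2 * Dy) :
    (-(2 * K ^ 2 * E * F) - 2 * K * D * L * M) * (μx / μ)
      + (2 * K ^ 2 * E ^ 2 + 2 * K * D * L ^ 2) * (μy / μ)
      + (2 * K ^ 2 * (F * Ex' - 2 * E * Fx') + 2 * K * D * (L * Ly' - 2 * L * Mx' + M * Lx')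
        + (L ^ 2 * (Dy * K - D * Ky') - L * M * (Dx * K - D * Kx'))) = 0 ∧
    (-(2 * D * K * (E * M + L * F))) * (μx / μ) + (4 * D * K * E * L) * (μy / μ)
      + (2 * D * K * (E * Ly' - 2 * E * Mx' - 2 * L * Fx' + F * Lx' + M * Ex')
        + (E * L * (Dy * K - D * Ky') - 2 * E * M * (Dx * K - D * Kx')
          + F * L * (Dx * K - D * Kx'))) = 0 := by
  have hν : ν ≠ 0 := by
    rintro rfl
    have : μ ^ 2 * D = 0 := by rw [← hνμ]; ring
    rcases mul_eq_zero.1 this with h | h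
    · exact hμ (pow_eq_zero_iff (by norm_num) |>.1 h)
    · exact hD h
  have hS : (μ * E) * (μy * E) - 2 * (μ * E) * (μx * F + μ * Fx') + (μ * F) * (μx * E + μ * Ex')
      + (ν * L) * (νy * L + ν * Ly') - 2 * (ν * L) * (νx * M + ν * Mx')
      + (ν * M) * (νx * L + ν * Lx') = 0 := by
    rw [← ha, ← hb, ← ha', ← hb', ← hax, ← hay, ← hbx, ← hax', ← hay', ← hbx']; ring
  have hT : (μ * E) * (νy * L + ν * Ly') + (ν * L) * (μy * E) - 2 * (μ * E) * (νx * M + ν * Mx')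
      - 2 * (ν * L) * (μx * F + μ * Fx') + (μ * F) * (νx * L + ν * Lx')
      + (ν * M) * (μx * E + μ * Ex') = 0 := by
    rw [← ha, ← hb, ← ha', ← hb', ← hax, ← hay, ← hbx, ← hax', ← hay', ← hbx']; ring
  obtain ⟨mx, rfl⟩ : ∃ mx, μx = mx * μ := ⟨μx / μ, by field_simp⟩
  obtain ⟨my, rfl⟩ : ∃ my, μy = my * μ := ⟨μy / μ, by field_simp⟩
  obtain ⟨nx, rfl⟩ : ∃ nx, νx = nx * ν := ⟨νx / ν, by field_simp⟩
  obtain ⟨ny, rfl⟩ : ∃ ny, νy = ny * ν := ⟨νy / ν, by field_simp⟩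
  rw [mul_div_cancel_right₀ _ hμ, mul_div_cancel_right₀ _ hμ]
  have hμ2 : μ ^ 2 ≠ 0 := pow_ne_zero 2 hμ
  have h1 : 2 * D * K * nx = 2 * D * K * mx + (Dx * K - D * Kx') := by
    apply mul_left_cancel₀ hμ2
    linear_combination K * hx - (2 * nx * K + Kx') * hνμ
  have h2 : 2 * D * K * ny = 2 * D * K * my + (Dy * K - D * Ky') := by
    apply mul_left_cancel₀ hμ2
    linear_combination K * hy - (2 * ny * K + Ky') * hνμ
  constructor
  · apply mul_left_cancel₀ hμ2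
    linear_combination 2 * K ^ 2 * hS
      - 2 * K * (L ^ 2 * ny + L * Ly' - L * M * nx - 2 * L * Mx' + M * Lx') * hνμ
      - μ ^ 2 * L ^ 2 * h2 + μ ^ 2 * L * M * h1
  · apply mul_left_cancel₀ (mul_ne_zero hμ hν)
    linear_combination 2 * D * K * hT - μ * ν * E * L * h2 + μ * ν * (2 * E * M - F * L) * h1


lemma dE (x : ℝ) : HasDerivAt Ef (Ex x) x := by
  have := ((hasDerivAt_pow 4 x).const_mul (144 : ℝ)).const_add 1
  refine HasDerivAt.congr_deriv this ?_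
  simp only [Ex]; push_cast; ring

lemma dFx (x y : ℝ) : HasDerivAt (fun t => Ff t y) (Fx x y) x := by
  have := ((hasDerivAt_pow 2 x).const_mul (144 : ℝ)).mul_const (y ^ 2)
  refine HasDerivAt.congr_deriv this ?_
  simp only [Fx]; push_cast; ring

lemma dLx (x y : ℝ) : HasDerivAt (fun t => Lf t y) (Lx x y) x := by
  have := ((hasDerivAt_pow 3 x).const_mul (-288 : ℝ)).mul_const (y ^ 2)
  refine HasDerivAt.congr_deriv this ?_
  simp only [Lx]; push_cast; ring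

lemma dLy (x y : ℝ) : HasDerivAt (fun t => Lf x t) (Ly x y) y := by
  have := (hasDerivAt_pow 2 y).const_mul (-288 * x ^ 3 : ℝ)
  refine HasDerivAt.congr_deriv this ?_
  simp only [Ly]; push_cast; ring

lemma dMx (x y : ℝ) : HasDerivAt (fun t => Mf t y) (Mx x y) x := by
  have := ((dE x).mul_const y).fun_sub ((hasDerivAt_id' x).const_mul (1 + 144 * y ^ 4))
  refine HasDerivAt.congr_deriv this ?_
  simp only [Mx, Ex]; ring

lemma dMy (x y : ℝ) : HasDerivAt (fun t => Mf x t) (My x y) y := by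
  have := ((hasDerivAt_id' y).const_mul (1 + 144 * x ^ 4)).fun_sub ((dE y).mul_const x)
  refine HasDerivAt.congr_deriv this ?_
  simp only [My, Ex]; ring

lemma dDx (x y : ℝ) : HasDerivAt (fun t => Df t y) (Ex x) x :=
  (dE x).add_const (144 * y ^ 4)

lemma dDy (x y : ℝ) : HasDerivAt (fun t => Df x t) (Ex y) y := by
  have := ((hasDerivAt_pow 4 y).const_mul (144 : ℝ)).const_add (1 + 144 * x ^ 4)
  refine HasDerivAt.congr_deriv this ?_
  simp only [Ex]; push_cast; ring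

lemma dKx (x y : ℝ) : HasDerivAt (fun t => Kf t y) (Kx x y) x := by
  have := ((dMx x y).fun_pow 2).fun_add
    (((hasDerivAt_pow 5 x).const_mul (82944 : ℝ)).mul_const (y ^ 5))
  refine HasDerivAt.congr_deriv this ?_
  simp only [Kx]; push_cast; ring

lemma dKy (x y : ℝ) : HasDerivAt (fun t => Kf x t) (Ky x y) y := by
  have := ((dMy x y).fun_pow 2).fun_add
    ((hasDerivAt_pow 5 y).const_mul (82944 * x ^ 5 : ℝ))
  refine HasDerivAt.congr_deriv this ?_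
  simp only [Ky]; push_cast; ring

lemma Ef_pos (x : ℝ) : 0 < Ef x := by unfold Ef; positivity
lemma Df_pos (x y : ℝ) : 0 < Df x y := by unfold Df; positivity
lemma Kf_pos {x y : ℝ} (hx : 0 < x) (hy : 0 < y) : 0 < Kf x y := by unfold Kf; positivity
lemma Lf_ne {x y : ℝ} (hx : 0 < x) (hy : 0 < y) : Lf x y ≠ 0 := by
  unfold Lf
  have : 0 < 288 * x ^ 3 * y ^ 2 := by positivity
  intro h; linarith

lemma step1 {W : Set (ℝ × ℝ)} (hW : IsOpen W) (hpos : ∀ z ∈ W, 0 < z.1 ∧ 0 < z.2)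
    {u1 u2 v1 v2 μ : ℝ × ℝ → ℝ}
    (du1 : ∀ z ∈ W, DifferentiableAt ℝ u1 z) (du2 : ∀ z ∈ W, DifferentiableAt ℝ u2 z)
    (dv1 : ∀ z ∈ W, DifferentiableAt ℝ v1 z) (dv2 : ∀ z ∈ W, DifferentiableAt ℝ v2 z)
    (dμ : ∀ z ∈ W, DifferentiableAt ℝ μ z)
    (su : ∀ z ∈ W, fderiv ℝ u1 z (0, 1) = fderiv ℝ u2 z (1, 0))
    (sv : ∀ z ∈ W, fderiv ℝ v1 z (0, 1) = fderiv ℝ v2 z (1, 0))
    (hμ : ∀ z ∈ W, 0 < μ z)
    (ha : ∀ z ∈ W, u1 z ^ 2 + v1 z ^ 2 = μ z * Ef z.1)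
    (hb : ∀ z ∈ W, u1 z * u2 z + v1 z * v2 z = μ z * Ff z.1 z.2)
    (hc : ∀ z ∈ W, u2 z ^ 2 + v2 z ^ 2 = μ z * Ef z.2)
    (hd : ∀ z ∈ W, z.1 * (u2 z * v2 z) + z.2 * (u1 z * v1 z) = 0) {x y : ℝ} (hz : (x, y) ∈ W) :
    A1 x y * (fderiv ℝ μ (x, y) (1, 0) / μ (x, y)) + B1 x y * (fderiv ℝ μ (x, y) (0, 1) / μ (x, y))
      + C1 x y = 0 ∧
    A2 x y * (fderiv ℝ μ (x, y) (1, 0) / μ (x, y)) + B2 x y * (fderiv ℝ μ (x, y) (0, 1) / μ (x, y))
      + C2 x y = 0 := by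
  set ν : ℝ × ℝ → ℝ := fun z => 2 * (u1 z * v1 z) / Lf z.1 z.2 with hν
  have ha' : ∀ z ∈ W, 2 * (u1 z * v1 z) = ν z * Lf z.1 z.2 := by
    intro z hz
    have := Lf_ne (hpos z hz).1 (hpos z hz).2
    simp only [hν]; field_simp
  have hb' : ∀ z ∈ W, u1 z * v2 z + u2 z * v1 z = ν z * Mf z.1 z.2 := by
    intro z hz
    have hL := Lf_ne (hpos z hz).1 (hpos z hz).2
    have h0 := (hμ z hz).ne'
    apply mul_left_cancel₀ (mul_ne_zero hL h0)
    have e1 := ha z hz; have e2 := hb z hz; have e3 := hc z hz; have e4 := hd z hz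
    have e5 := ha' z hz
    simp only [Ef, Ff, Lf, Mf] at *
    linear_combination (μ z * ((1 + 144 * z.1 ^ 4) * z.2 - (1 + 144 * z.2 ^ 4) * z.1)) * e5
      + 2 * z.1 * (u1 z * v2 z + u2 z * v1 z) * e2
      + 2 * (u1 z * v1 z) * z.2 * e1 - 2 * (u1 z * v1 z) * z.1 * e3
      - 2 * (u1 z ^ 2 + v1 z ^ 2) * e4
  have hνμ : ∀ z ∈ W, ν z ^ 2 * Kf z.1 z.2 = μ z ^ 2 * Df z.1 z.2 := by
    intro z hz
    have hx0 := (hpos z hz).1.ne'
    have e1 := ha z hz; have e2 := hb z hz; have e3 := hc z hz; have e4 := hd z hz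
    have e5 := ha' z hz; have e6 := hb' z hz
    have e7 : 2 * (u2 z * v2 z) = ν z * (288 * z.1 ^ 2 * z.2 ^ 3) := by
      apply mul_left_cancel₀ hx0
      simp only [Lf] at e5
      linear_combination 2 * e4 - z.2 * e5
    have e8 : ν z ^ 2 * Kf z.1 z.2
        = (ν z * Mf z.1 z.2) ^ 2 - (ν z * Lf z.1 z.2) * (ν z * (288 * z.1 ^ 2 * z.2 ^ 3)) := by
      simp only [Kf, Lf]; ring
    have e9 : μ z ^ 2 * Df z.1 z.2
        = (μ z * Ef z.1) * (μ z * Ef z.2) - (μ z * Ff z.1 z.2) ^ 2 := by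
      simp only [Df, Ef, Ff]; ring
    rw [e8, e9, ← e1, ← e2, ← e3, ← e5, ← e6, ← e7]; ring
  have dν : DifferentiableAt ℝ ν (x, y) := by
    have h1 := du1 _ hz; have h2 := dv1 _ hz
    have h3 : DifferentiableAt ℝ (fun z : ℝ × ℝ => Lf z.1 z.2) (x, y) := by unfold Lf; fun_prop
    have h4 : DifferentiableAt ℝ (fun z : ℝ × ℝ => 2 * (u1 z * v1 z)) (x, y) := by fun_prop
    have h5 := h4.fun_mul (h3.fun_inv (Lf_ne (hpos _ hz).1 (hpos _ hz).2))
    simpa only [hν, div_eq_mul_inv] using h5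
  have X1 := lineX (du1 _ hz); have X2 := lineX (du2 _ hz)
  have X3 := lineX (dv1 _ hz); have X4 := lineX (dv2 _ hz)
  have X5 := lineX (dμ _ hz); have X6 := lineX dν
  have Y1 := lineY (du1 _ hz); have Y3 := lineY (dv1 _ hz)
  have Y5 := lineY (dμ _ hz); have Y6 := lineY dν
  rw [← su _ hz] at X2
  rw [← sv _ hz] at X4
  have eX := evX hW hz
  have eY := evY hW hz
  have hax := deq ((X1.fun_pow 2).fun_add (X3.fun_pow 2)) (X5.fun_mul (dE x))
    (eX.mono fun t ht => ha _ ht)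
  have hay := deq ((Y1.fun_pow 2).fun_add (Y3.fun_pow 2)) (Y5.mul_const (Ef x))
    (eY.mono fun t ht => ha _ ht)
  have hbx := deq ((X1.fun_mul X2).fun_add (X3.fun_mul X4)) (X5.fun_mul (dFx x y))
    (eX.mono fun t ht => hb _ ht)
  have hax' := deq ((X1.fun_mul X3).const_mul 2) (X6.fun_mul (dLx x y))
    (eX.mono fun t ht => ha' _ ht)
  have hay' := deq ((Y1.fun_mul Y3).const_mul 2) (Y6.fun_mul (dLy x y))
    (eY.mono fun t ht => ha' _ ht)
  have hbx' := deq ((X1.fun_mul X4).fun_add (X2.fun_mul X3)) (X6.fun_mul (dMx x y))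
    (eX.mono fun t ht => hb' _ ht)
  have hx := deq ((X6.fun_pow 2).fun_mul (dKx x y)) ((X5.fun_pow 2).fun_mul (dDx x y))
    (eX.mono fun t ht => hνμ _ ht)
  have hy := deq ((Y6.fun_pow 2).fun_mul (dKy x y)) ((Y5.fun_pow 2).fun_mul (dDy x y))
    (eY.mono fun t ht => hνμ _ ht)
  exact alg (Ef x) (Ex x) (Ff x y) (Fx x y) (Lf x y) (Lx x y) (Ly x y) (Mf x y) (Mx x y) (Df x y)
    (Ex x) (Ex y) (Kf x y) (Kx x y) (Ky x y) (μ (x, y)) _ _ (ν (x, y))
    (fderiv ℝ ν (x, y) (1, 0)) (fderiv ℝ ν (x, y) (0, 1))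
    (u1 (x, y)) (u2 (x, y)) (v1 (x, y)) (v2 (x, y))
    (fderiv ℝ u1 (x, y) (1, 0)) (fderiv ℝ u1 (x, y) (0, 1))
    (fderiv ℝ v1 (x, y) (1, 0)) (fderiv ℝ v1 (x, y) (0, 1))
    (hμ _ hz).ne' (Kf_pos (hpos _ hz).1 (hpos _ hz).2).ne' (Df_pos x y).ne'
    (ha _ hz) (hb _ hz) (ha' _ hz) (hb' _ hz) (hνμ _ hz)
    (by norm_num at hax ⊢; linarith) (by norm_num at hay ⊢; linarith) hbx hax' hay' hbx'
    (by norm_num at hx ⊢; linarith) (by norm_num at hy ⊢; linarith)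


lemma rconst {c x : ℝ} : HasDerivAt (fun _ : ℝ => c) 0 x := hasDerivAt_const x c
lemma rid {x : ℝ} : HasDerivAt (fun t : ℝ => t) 1 x := hasDerivAt_id' x
lemma radd {f g : ℝ → ℝ} {a b x : ℝ} (hf : HasDerivAt f a x) (hg : HasDerivAt g b x) :
    HasDerivAt (fun t => f t + g t) (a + b) x := hf.fun_add hg
lemma rsub {f g : ℝ → ℝ} {a b x : ℝ} (hf : HasDerivAt f a x) (hg : HasDerivAt g b x) :
    HasDerivAt (fun t => f t - g t) (a - b) x := hf.fun_sub hg
lemma rmul {f g : ℝ → ℝ} {a b x : ℝ} (hf : HasDerivAt f a x) (hg : HasDerivAt g b x) :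
    HasDerivAt (fun t => f t * g t) (a * g x + f x * b) x := hf.fun_mul hg
lemma rneg {f : ℝ → ℝ} {a x : ℝ} (hf : HasDerivAt f a x) :
    HasDerivAt (fun t => -f t) (-a) x := hf.fun_neg
lemma rpow {f : ℝ → ℝ} {a x : ℝ} {n : ℕ} (hf : HasDerivAt f a x) :
    HasDerivAt (fun t => f t ^ n) (n * f x ^ (n - 1) * a) x := hf.fun_pow n

lemma vA1 : A1 (3 / 4) (7 / 8) = (-371408630305340629150267545 / 562949953421312 : ℝ) := by
  simp only [A1, B1, C1, A2, B2, C2, Sx, Sy, Kx, Ky, Kf, Df, Mx, My, Mf, Lx, Ly, Lf, Fx, Ff, Ex, Ef]; norm_num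

lemma dA1x : HasDerivAt (fun t => A1 t (7 / 8)) (-896067067025454107691657519 / 70368744177664 : ℝ) (3 / 4) := by
  simp only [A1, B1, C1, A2, B2, C2, Sx, Sy, Kx, Ky, Kf, Df, Mx, My, Mf, Lx, Ly, Lf, Fx, Ff, Ex, Ef]
  apply HasDerivAt.congr_deriv
  · repeat' first
      | with_reducible apply rconst
      | with_reducible apply rid
      | with_reducible apply radd
      | with_reducible apply rsub
      | with_reducible apply rmul
      | with_reducible apply rneg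
      | with_reducible apply rpow
  · norm_num

lemma dA1y : HasDerivAt (fun t => A1 (3 / 4) t) (-355671708824259625471873479 / 35184372088832 : ℝ) (7 / 8) := by
  simp only [A1, B1, C1, A2, B2, C2, Sx, Sy, Kx, Ky, Kf, Df, Mx, My, Mf, Lx, Ly, Lf, Fx, Ff, Ex, Ef]
  apply HasDerivAt.congr_deriv
  · repeat' first
      | with_reducible apply rconst
      | with_reducible apply rid
      | with_reducible apply radd
      | with_reducible apply rsub
      | with_reducible apply rmul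
      | with_reducible apply rneg
      | with_reducible apply rpow
  · norm_num

lemma vB1 : B1 (3 / 4) (7 / 8) = (72470461855698796444911073 / 140737488355328 : ℝ) := by
  simp only [A1, B1, C1, A2, B2, C2, Sx, Sy, Kx, Ky, Kf, Df, Mx, My, Mf, Lx, Ly, Lf, Fx, Ff, Ex, Ef]; norm_num

lemma dB1x : HasDerivAt (fun t => B1 t (7 / 8)) (98184252886582615213225705 / 8796093022208 : ℝ) (3 / 4) := by
  simp only [A1, B1, C1, A2, B2, C2, Sx, Sy, Kx, Ky, Kf, Df, Mx, My, Mf, Lx, Ly, Lf, Fx, Ff, Ex, Ef]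
  apply HasDerivAt.congr_deriv
  · repeat' first
      | with_reducible apply rconst
      | with_reducible apply rid
      | with_reducible apply radd
      | with_reducible apply rsub
      | with_reducible apply rmul
      | with_reducible apply rneg
      | with_reducible apply rpow
  · norm_num

lemma dB1y : HasDerivAt (fun t => B1 (3 / 4) t) (7372537513090748039290597 / 1099511627776 : ℝ) (7 / 8) := by
  simp only [A1, B1, C1, A2, B2, C2, Sx, Sy, Kx, Ky, Kf, Df, Mx, My, Mf, Lx, Ly, Lf, Fx, Ff, Ex, Ef]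
  apply HasDerivAt.congr_deriv
  · repeat' first
      | with_reducible apply rconst
      | with_reducible apply rid
      | with_reducible apply radd
      | with_reducible apply rsub
      | with_reducible apply rmul
      | with_reducible apply rneg
      | with_reducible apply rpow
  · norm_num

lemma vC1 : C1 (3 / 4) (7 / 8) = (21725479438813246424013 / 549755813888 : ℝ) := by
  simp only [A1, B1, C1, A2, B2, C2, Sx, Sy, Kx, Ky, Kf, Df, Mx, My, Mf, Lx, Ly, Lf, Fx, Ff, Ex, Ef]; norm_num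

lemma dC1x : HasDerivAt (fun t => C1 t (7 / 8)) (10775520223218614561355 / 17179869184 : ℝ) (3 / 4) := by
  simp only [A1, B1, C1, A2, B2, C2, Sx, Sy, Kx, Ky, Kf, Df, Mx, My, Mf, Lx, Ly, Lf, Fx, Ff, Ex, Ef]
  apply HasDerivAt.congr_deriv
  · repeat' first
      | with_reducible apply rconst
      | with_reducible apply rid
      | with_reducible apply radd
      | with_reducible apply rsub
      | with_reducible apply rmul
      | with_reducible apply rneg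
      | with_reducible apply rpow
  · norm_num

lemma dC1y : HasDerivAt (fun t => C1 (3 / 4) t) (34419133317291659939205 / 68719476736 : ℝ) (7 / 8) := by
  simp only [A1, B1, C1, A2, B2, C2, Sx, Sy, Kx, Ky, Kf, Df, Mx, My, Mf, Lx, Ly, Lf, Fx, Ff, Ex, Ef]
  apply HasDerivAt.congr_deriv
  · repeat' first
      | with_reducible apply rconst
      | with_reducible apply rid
      | with_reducible apply radd
      | with_reducible apply rsub
      | with_reducible apply rmul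
      | with_reducible apply rneg
      | with_reducible apply rpow
  · norm_num

lemma vA2 : A2 (3 / 4) (7 / 8) = (42007517906550206918113 / 2199023255552 : ℝ) := by
  simp only [A1, B1, C1, A2, B2, C2, Sx, Sy, Kx, Ky, Kf, Df, Mx, My, Mf, Lx, Ly, Lf, Fx, Ff, Ex, Ef]; norm_num

lemma dA2x : HasDerivAt (fun t => A2 t (7 / 8)) (138593261314514985174309 / 549755813888 : ℝ) (3 / 4) := by
  simp only [A1, B1, C1, A2, B2, C2, Sx, Sy, Kx, Ky, Kf, Df, Mx, My, Mf, Lx, Ly, Lf, Fx, Ff, Ex, Ef]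
  apply HasDerivAt.congr_deriv
  · repeat' first
      | with_reducible apply rconst
      | with_reducible apply rid
      | with_reducible apply radd
      | with_reducible apply rsub
      | with_reducible apply rmul
      | with_reducible apply rneg
      | with_reducible apply rpow
  · norm_num

lemma dA2y : HasDerivAt (fun t => A2 (3 / 4) t) (9799524560846144480919 / 34359738368 : ℝ) (7 / 8) := by
  simp only [A1, B1, C1, A2, B2, C2, Sx, Sy, Kx, Ky, Kf, Df, Mx, My, Mf, Lx, Ly, Lf, Fx, Ff, Ex, Ef]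
  apply HasDerivAt.congr_deriv
  · repeat' first
      | with_reducible apply rconst
      | with_reducible apply rid
      | with_reducible apply radd
      | with_reducible apply rsub
      | with_reducible apply rmul
      | with_reducible apply rneg
      | with_reducible apply rpow
  · norm_num

lemma vB2 : B2 (3 / 4) (7 / 8) = (-3318088334447402923995 / 137438953472 : ℝ) := by
  simp only [A1, B1, C1, A2, B2, C2, Sx, Sy, Kx, Ky, Kf, Df, Mx, My, Mf, Lx, Ly, Lf, Fx, Ff, Ex, Ef]; norm_num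

lemma dB2x : HasDerivAt (fun t => B2 t (7 / 8)) (-13971309311196956658177 / 34359738368 : ℝ) (3 / 4) := by
  simp only [A1, B1, C1, A2, B2, C2, Sx, Sy, Kx, Ky, Kf, Df, Mx, My, Mf, Lx, Ly, Lf, Fx, Ff, Ex, Ef]
  apply HasDerivAt.congr_deriv
  · repeat' first
      | with_reducible apply rconst
      | with_reducible apply rid
      | with_reducible apply radd
      | with_reducible apply rsub
      | with_reducible apply rmul
      | with_reducible apply rneg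
      | with_reducible apply rpow
  · norm_num

lemma dB2y : HasDerivAt (fun t => B2 (3 / 4) t) (-2430213898427133253155 / 8589934592 : ℝ) (7 / 8) := by
  simp only [A1, B1, C1, A2, B2, C2, Sx, Sy, Kx, Ky, Kf, Df, Mx, My, Mf, Lx, Ly, Lf, Fx, Ff, Ex, Ef]
  apply HasDerivAt.congr_deriv
  · repeat' first
      | with_reducible apply rconst
      | with_reducible apply rid
      | with_reducible apply radd
      | with_reducible apply rsub
      | with_reducible apply rmul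
      | with_reducible apply rneg
      | with_reducible apply rpow
  · norm_num

lemma vC2 : C2 (3 / 4) (7 / 8) = (-480164397135744473901 / 34359738368 : ℝ) := by
  simp only [A1, B1, C1, A2, B2, C2, Sx, Sy, Kx, Ky, Kf, Df, Mx, My, Mf, Lx, Ly, Lf, Fx, Ff, Ex, Ef]; norm_num

lemma dC2x : HasDerivAt (fun t => C2 t (7 / 8)) (-2010877775806007504151 / 8589934592 : ℝ) (3 / 4) := by
  simp only [A1, B1, C1, A2, B2, C2, Sx, Sy, Kx, Ky, Kf, Df, Mx, My, Mf, Lx, Ly, Lf, Fx, Ff, Ex, Ef]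
  apply HasDerivAt.congr_deriv
  · repeat' first
      | with_reducible apply rconst
      | with_reducible apply rid
      | with_reducible apply radd
      | with_reducible apply rsub
      | with_reducible apply rmul
      | with_reducible apply rneg
      | with_reducible apply rpow
  · norm_num

lemma dC2y : HasDerivAt (fun t => C2 (3 / 4) t) (-636126911910034142751 / 4294967296 : ℝ) (7 / 8) := by
  simp only [A1, B1, C1, A2, B2, C2, Sx, Sy, Kx, Ky, Kf, Df, Mx, My, Mf, Lx, Ly, Lf, Fx, Ff, Ex, Ef]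
  apply HasDerivAt.congr_deriv
  · repeat' first
      | with_reducible apply rconst
      | with_reducible apply rid
      | with_reducible apply radd
      | with_reducible apply rsub
      | with_reducible apply rmul
      | with_reducible apply rneg
      | with_reducible apply rpow
  · norm_num

lemma core {W : Set (ℝ × ℝ)} (hW : IsOpen W) (hpos : ∀ z ∈ W, 0 < z.1 ∧ 0 < z.2)
    (hp : ((3 / 4, 7 / 8) : ℝ × ℝ) ∈ W) {u v lam : ℝ × ℝ → ℝ}
    (hu : ContDiffOn ℝ 3 u W) (hv : ContDiffOn ℝ 3 v W) (hl : ∀ z ∈ W, 0 < lam z)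
    (ha : ∀ z ∈ W, Ef z.1 = lam z * (fderiv ℝ u z (1, 0) ^ 2 + fderiv ℝ v z (1, 0) ^ 2))
    (hb : ∀ z ∈ W, Ff z.1 z.2 = lam z * (fderiv ℝ u z (1, 0) * fderiv ℝ u z (0, 1)
      + fderiv ℝ v z (1, 0) * fderiv ℝ v z (0, 1)))
    (hc : ∀ z ∈ W, Ef z.2 = lam z * (fderiv ℝ u z (0, 1) ^ 2 + fderiv ℝ v z (0, 1) ^ 2))
    (hd : ∀ z ∈ W, z.1 * (fderiv ℝ u z (0, 1) * fderiv ℝ v z (0, 1))
      + z.2 * (fderiv ℝ u z (1, 0) * fderiv ℝ v z (1, 0)) = 0) : False := by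
  set u1 : ℝ × ℝ → ℝ := fun z => fderiv ℝ u z (1, 0) with hu1
  set u2 : ℝ × ℝ → ℝ := fun z => fderiv ℝ u z (0, 1) with hu2
  set v1 : ℝ × ℝ → ℝ := fun z => fderiv ℝ v z (1, 0) with hv1
  set v2 : ℝ × ℝ → ℝ := fun z => fderiv ℝ v z (0, 1) with hv2
  set μ : ℝ × ℝ → ℝ := fun z => (u1 z ^ 2 + v1 z ^ 2) * (Ef z.1)⁻¹ with hμ
  have cu : ∀ z ∈ W, ContDiffAt ℝ ((2 + 1 : ℕ) : ℕ∞) u z := fun z hz =>
    hu.contDiffAt (hW.mem_nhds hz)
  have cv : ∀ z ∈ W, ContDiffAt ℝ ((2 + 1 : ℕ) : ℕ∞) v z := fun z hz =>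
    hv.contDiffAt (hW.mem_nhds hz)
  have c1 : ∀ z ∈ W, ContDiffAt ℝ 2 u1 z := fun z hz => cdpd (cu z hz) _
  have c2 : ∀ z ∈ W, ContDiffAt ℝ 2 u2 z := fun z hz => cdpd (cu z hz) _
  have c3 : ∀ z ∈ W, ContDiffAt ℝ 2 v1 z := fun z hz => cdpd (cv z hz) _
  have c4 : ∀ z ∈ W, ContDiffAt ℝ 2 v2 z := fun z hz => cdpd (cv z hz) _
  have c5 : ∀ z ∈ W, ContDiffAt ℝ 2 μ z := by
    intro z hz
    have h1 : ContDiffAt ℝ 2 (fun z : ℝ × ℝ => Ef z.1) z := by unfold Ef; fun_prop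
    exact (((c1 z hz).pow 2).add ((c3 z hz).pow 2)).mul (h1.inv (Ef_pos _).ne')
  have hml : ∀ z ∈ W, μ z * lam z = 1 := by
    intro z hz
    have := (Ef_pos z.1).ne'
    have e := ha z hz
    simp only [hμ]
    field_simp
    linarith
  have hμpos : ∀ z ∈ W, 0 < μ z := fun z hz => by
    have h1 := hml z hz; have h2 := hl z hz
    by_contra h; push Not at h; nlinarith
  have S := fun x y (hz : (x, y) ∈ W) => step1 (u1 := u1) (u2 := u2) (v1 := v1) (v2 := v2)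
    (μ := μ) hW hpos
    (fun z hz => (c1 z hz).differentiableAt (by norm_num))
    (fun z hz => (c2 z hz).differentiableAt (by norm_num))
    (fun z hz => (c3 z hz).differentiableAt (by norm_num))
    (fun z hz => (c4 z hz).differentiableAt (by norm_num))
    (fun z hz => (c5 z hz).differentiableAt (by norm_num))
    (fun z hz => symm2 ((cu z hz).of_le (by norm_cast)) _ _)
    (fun z hz => symm2 ((cv z hz).of_le (by norm_cast)) _ _)
    hμpos
    (fun z hz => by rw [ha z hz, ← mul_assoc, hml z hz, one_mul])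
    (fun z hz => by rw [hb z hz, ← mul_assoc, hml z hz, one_mul])
    (fun z hz => by rw [hc z hz, ← mul_assoc, hml z hz, one_mul])
    hd hz
  set m : ℝ × ℝ → ℝ := fun z => Real.log (μ z) with hm
  have c6 : ∀ z ∈ W, ContDiffAt ℝ 2 m z := fun z hz => (c5 z hz).log (hμpos z hz).ne'
  have hmd : ∀ z ∈ W, ∀ e, fderiv ℝ μ z e / μ z = fderiv ℝ m z e := by
    intro z hz e
    have h1 := ((c5 z hz).differentiableAt (by norm_num)).hasFDerivAt.log (hμpos z hz).ne'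
    rw [hm, h1.fderiv]
    simp [div_eq_inv_mul]
  set mx : ℝ × ℝ → ℝ := fun z => fderiv ℝ m z (1, 0) with hmx
  set my : ℝ × ℝ → ℝ := fun z => fderiv ℝ m z (0, 1) with hmy
  have S' : ∀ x y, (x, y) ∈ W → A1 x y * mx (x, y) + B1 x y * my (x, y) + C1 x y = 0 ∧
      A2 x y * mx (x, y) + B2 x y * my (x, y) + C2 x y = 0 := by
    intro x y hz
    have := S x y hz
    rwa [hmd _ hz, hmd _ hz] at this
  have c7 : ContDiffAt ℝ ((1 + 1 : ℕ) : ℕ∞) m (3 / 4, 7 / 8) := c6 _ hp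
  have d1 : DifferentiableAt ℝ mx (3 / 4, 7 / 8) := (cdpd c7 _).differentiableAt (by norm_num)
  have d2 : DifferentiableAt ℝ my (3 / 4, 7 / 8) := (cdpd c7 _).differentiableAt (by norm_num)
  have X1 := lineX d1; have X2 := lineX d2; have Y1 := lineY d1; have Y2 := lineY d2
  have hs : fderiv ℝ mx (3 / 4, 7 / 8) (0, 1) = fderiv ℝ my (3 / 4, 7 / 8) (1, 0) :=
    symm2 (c6 _ hp) _ _
  rw [← hs] at X2
  have eX := evX hW hp
  have eY := evY hW hp
  have e1 := deq (((dA1x.fun_mul X1).fun_add (dB1x.fun_mul X2)).fun_add dC1x)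
    (hasDerivAt_const _ (0 : ℝ)) (eX.mono fun t ht => (S' _ _ ht).1)
  have e2 := deq (((dA2x.fun_mul X1).fun_add (dB2x.fun_mul X2)).fun_add dC2x)
    (hasDerivAt_const _ (0 : ℝ)) (eX.mono fun t ht => (S' _ _ ht).2)
  have e3 := deq (((dA1y.fun_mul Y1).fun_add (dB1y.fun_mul Y2)).fun_add dC1y)
    (hasDerivAt_const _ (0 : ℝ)) (eY.mono fun t ht => (S' _ _ ht).1)
  have e4 := deq (((dA2y.fun_mul Y1).fun_add (dB2y.fun_mul Y2)).fun_add dC2y)
    (hasDerivAt_const _ (0 : ℝ)) (eY.mono fun t ht => (S' _ _ ht).2)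
  obtain ⟨e5, e6⟩ := S' _ _ hp
  rw [vA1, vB1] at e1 e3 e5
  rw [vA2, vB2] at e2 e4 e6
  rw [vC1] at e5
  rw [vC2] at e6
  linarith

end Pool.Agent.H81.Isoth
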