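import Mathlib

set_option autoImplicit false

namespace Pool.Agent.H81.SO3

open Matrix Real Set

abbrev M := Matrix (Fin 3) (Fin 3) ℝ
abbrev E := EuclideanSpace ℝ (Fin 3)

def SO : Set M := {A | A ∈ Matrix.specialOrthogonalGroup (Fin 3) ℝ}

noncomputable def Rz (θ : ℝ) : M := !![cos θ, -sin θ, 0; sin θ, cos θ, 0; 0, 0, 1]
noncomputable def Ry (θ : ℝ) : M := !![cos θ, 0, -sin θ; 0, 1, 0; sin θ, 0, cos θ]
noncomputable def Rx (θ : ℝ) : M := !![1, 0, 0; 0, cos θ, -sin θ; 0, sin θ, cos θ]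

lemma mem_SO {A : M} : A ∈ SO ↔ A * Aᵀ = 1 ∧ A.det = 1 := by
  unfold SO
  rw [mem_setOf_eq, Matrix.mem_specialOrthogonalGroup_iff, Matrix.mem_orthogonalGroup_iff]

lemma mem_SO' {A : M} (h : A ∈ SO) : Aᵀ * A = 1 := by
  unfold SO at h
  rw [mem_setOf_eq, Matrix.mem_specialOrthogonalGroup_iff, Matrix.mem_orthogonalGroup_iff'] at h
  exact h.1

lemma mul_SO {A B : M} (hA : A ∈ SO) (hB : B ∈ SO) : A * B ∈ SO :=
  Submonoid.mul_mem (Matrix.specialOrthogonalGroup (Fin 3) ℝ) hA hB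

lemma mul3 (A B : M) (i j : Fin 3) : (A * B) i j = A i 0 * B 0 j + A i 1 * B 1 j + A i 2 * B 2 j := by
  simp [Matrix.mul_apply, Fin.sum_univ_three]

lemma Rz_SO (θ : ℝ) : Rz θ ∈ SO := by
  have h := sin_sq_add_cos_sq θ
  rw [mem_SO]
  constructor
  · ext i j
    fin_cases i <;> fin_cases j <;> simp [Rz, Matrix.mul_apply, Fin.sum_univ_three] <;> nlinarith
  · simp [Rz, Matrix.det_fin_three]; nlinarith

lemma Ry_SO (θ : ℝ) : Ry θ ∈ SO := by
  have h := sin_sq_add_cos_sq θ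
  rw [mem_SO]
  constructor
  · ext i j
    fin_cases i <;> fin_cases j <;> simp [Ry, Matrix.mul_apply, Fin.sum_univ_three] <;> nlinarith
  · simp [Ry, Matrix.det_fin_three]; nlinarith

lemma Rx_SO (θ : ℝ) : Rx θ ∈ SO := by
  have h := sin_sq_add_cos_sq θ
  rw [mem_SO]
  constructor
  · ext i j
    fin_cases i <;> fin_cases j <;> simp [Rx, Matrix.mul_apply, Fin.sum_univ_three] <;> nlinarith
  · simp [Rx, Matrix.det_fin_three]; nlinarith

lemma cont_Rz : Continuous Rz := by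
  refine continuous_matrix fun i j => ?_
  fin_cases i <;> fin_cases j <;> simp [Rz] <;> fun_prop

lemma cont_Ry : Continuous Ry := by
  refine continuous_matrix fun i j => ?_
  fin_cases i <;> fin_cases j <;> simp [Ry] <;> fun_prop

lemma cont_Rx : Continuous Rx := by
  refine continuous_matrix fun i j => ?_
  fin_cases i <;> fin_cases j <;> simp [Rx] <;> fun_prop

lemma Rz_zero : Rz 0 = 1 := by
  ext i j; fin_cases i <;> fin_cases j <;> simp [Rz]
lemma Ry_zero : Ry 0 = 1 := by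
  ext i j; fin_cases i <;> fin_cases j <;> simp [Ry]
lemma Rx_zero : Rx 0 = 1 := by
  ext i j; fin_cases i <;> fin_cases j <;> simp [Rx]

lemma joined_R {R : ℝ → M} (hc : Continuous R) (h0 : R 0 = 1) (hS : ∀ θ, R θ ∈ SO)
    {A : M} (hA : A ∈ SO) (θ : ℝ) : JoinedIn SO A (R θ * A) := by
  refine JoinedIn.ofLine (f := fun t : ℝ => R (t * θ) * A) ?_ ?_ ?_ ?_
  · exact ((hc.comp (by fun_prop)).matrix_mul continuous_const).continuousOn
  · simp [h0]
  · simp
  · rintro _ ⟨t, -, rfl⟩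
    exact mul_SO (hS _) hA

lemma exists_angle (a b : ℝ) : ∃ θ : ℝ, 0 ≤ cos θ * a - sin θ * b ∧ sin θ * a + cos θ * b = 0 := by
  set z : ℂ := ⟨a, b⟩
  have h1 : ‖z‖ * cos z.arg = a := Complex.norm_mul_cos_arg z
  have h2 : ‖z‖ * sin z.arg = b := Complex.norm_mul_sin_arg z
  have h := sin_sq_add_cos_sq z.arg
  refine ⟨-z.arg, ?_, ?_⟩
  · rw [cos_neg, sin_neg, ← h1, ← h2]
    have : cos z.arg * (‖z‖ * cos z.arg) - -sin z.arg * (‖z‖ * sin z.arg) = ‖z‖ := by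
      linear_combination ‖z‖ * h
    rw [this]; exact norm_nonneg _
  · rw [cos_neg, sin_neg, ← h1, ← h2]; ring

lemma joined_one {A : M} (hA : A ∈ SO) : JoinedIn SO A 1 := by
  obtain ⟨θ, -, hθ⟩ := exists_angle (A 0 0) (A 1 0)
  set B := Rz θ * A with hB
  have hBS : B ∈ SO := mul_SO (Rz_SO _) hA
  have hB1 : B 1 0 = 0 := by
    rw [hB, mul3]; simp [Rz, hθ]
  obtain ⟨φ, hφ0, hφ⟩ := exists_angle (B 0 0) (B 2 0)
  set C := Ry φ * B with hC
  have hCS : C ∈ SO := mul_SO (Ry_SO _) hBS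
  have hC1 : C 1 0 = 0 := by
    rw [hC, mul3]; simp [Ry, hB1]
  have hC2 : C 2 0 = 0 := by
    rw [hC, mul3]; simp [Ry, hφ]
  have hC0 : 0 ≤ C 0 0 := by
    have : C 0 0 = cos φ * B 0 0 - sin φ * B 2 0 := by
      rw [hC, mul3]; simp [Ry]; ring
    rw [this]; exact hφ0
  obtain ⟨ψ, hψ0, hψ⟩ := exists_angle (C 1 1) (C 2 1)
  set D := Rx ψ * C with hD
  have hDS : D ∈ SO := mul_SO (Rx_SO _) hCS
  have d00 : 0 ≤ D 0 0 := by
    have : D 0 0 = C 0 0 := by rw [hD, mul3]; simp [Rx]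
    rw [this]; exact hC0
  have d10 : D 1 0 = 0 := by rw [hD, mul3]; simp [Rx, hC1, hC2]
  have d20 : D 2 0 = 0 := by rw [hD, mul3]; simp [Rx, hC1, hC2]
  have d21 : D 2 1 = 0 := by rw [hD, mul3]; simp [Rx, hψ]
  have d11 : 0 ≤ D 1 1 := by
    have : D 1 1 = cos ψ * C 1 1 - sin ψ * C 2 1 := by
      rw [hD, mul3]; simp [Rx]; ring
    rw [this]; exact hψ0
  have hO := mem_SO' hDS
  have hdet := (mem_SO.1 hDS).2
  have e (i j : Fin 3) : D 0 i * D 0 j + D 1 i * D 1 j + D 2 i * D 2 j = (1 : M) i j := by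
    rw [← hO]; simp [Matrix.mul_apply, Fin.sum_univ_three]
  have e00 := e 0 0
  have e01 := e 0 1
  have e02 := e 0 2
  have e11 := e 1 1
  have e12 := e 1 2
  simp [d10, d20, d21] at e00 e01 e02 e11 e12
  have a00 : D 0 0 = 1 := by nlinarith
  have a01 : D 0 1 = 0 := by
    rcases e01 with h | h
    · linarith
    · exact h
  have a02 : D 0 2 = 0 := by
    rcases e02 with h | h
    · linarith
    · exact h
  rw [a01] at e11 e12
  have a11 : D 1 1 = 1 := by nlinarith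
  have a12 : D 1 2 = 0 := by rw [a11] at e12; linarith
  have a22 : D 2 2 = 1 := by
    rw [Matrix.det_fin_three, a00, a01, a02, d10, a11, a12, d20, d21] at hdet; linarith
  have hD1 : D = 1 := by
    ext i j
    fin_cases i <;> fin_cases j <;> simp [a00, a01, a02, d10, a11, a12, d20, d21, a22]
  have j1 := joined_R cont_Rz Rz_zero Rz_SO hA θ
  have j2 := joined_R cont_Ry Ry_zero Ry_SO hBS φ
  have j3 := joined_R cont_Rx Rx_zero Rx_SO hCS ψ
  rw [← hD1]
  exact (j1.trans j2).trans j3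

lemma joined {A B : M} (hA : A ∈ SO) (hB : B ∈ SO) : JoinedIn SO A B :=
  (joined_one hA).trans (joined_one hB).symm

lemma app (A : M) (v : E) (i : Fin 3) :
    (Matrix.toEuclideanLin A v) i = A i 0 * v 0 + A i 1 * v 1 + A i 2 * v 2 := by
  simp [Matrix.toLpLin_apply, Matrix.mulVec, dotProduct, Fin.sum_univ_three]

lemma norm_sq3 (v : E) : ‖v‖ ^ 2 = v 0 ^ 2 + v 1 ^ 2 + v 2 ^ 2 := by
  rw [EuclideanSpace.norm_sq_eq, Fin.sum_univ_three]; simp

lemma norm_app {A : M} (hA : A ∈ SO) (v : E) : ‖Matrix.toEuclideanLin A v‖ = ‖v‖ := by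
  have hO := mem_SO' hA
  have e (i j : Fin 3) : A 0 i * A 0 j + A 1 i * A 1 j + A 2 i * A 2 j = (1 : M) i j := by
    rw [← hO]; simp [Matrix.mul_apply, Fin.sum_univ_three]
  have e00 := e 0 0
  have e01 := e 0 1
  have e02 := e 0 2
  have e11 := e 1 1
  have e12 := e 1 2
  have e22 := e 2 2
  simp at e00 e01 e02 e11 e12 e22
  have : ‖Matrix.toEuclideanLin A v‖ ^ 2 = ‖v‖ ^ 2 := by
    rw [norm_sq3, norm_sq3, app, app, app]
    linear_combination v 0 ^ 2 * e00 + 2 * v 0 * v 1 * e01 + 2 * v 0 * v 2 * e02 + v 1 ^ 2 * e11 +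
      2 * v 1 * v 2 * e12 + v 2 ^ 2 * e22
  exact (sq_eq_sq₀ (norm_nonneg _) (norm_nonneg _)).1 this

end Pool.Agent.H81.SO3
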