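import Mathlib
import Pool.Agent.H81.SO3

set_option autoImplicit false

namespace Pool.Agent.H81.Kakeya

open Matrix Real Set Pool.Agent.H81.SO3

def S : Set E := {x | ‖x‖ ≤ 1 ∧ x 0 ≤ 3 / 4}

def val (k : Fin 6) (b : E) : ℝ := ![b 0, -b 0, b 1, -b 1, b 2, -b 2] k

def P (k : Fin 6) : M :=
  ![!![1, 0, 0; 0, 1, 0; 0, 0, 1], !![-1, 0, 0; 0, -1, 0; 0, 0, 1],
    !![0, -1, 0; 1, 0, 0; 0, 0, 1], !![0, 1, 0; -1, 0, 0; 0, 0, 1],
    !![0, 0, -1; 0, 1, 0; 1, 0, 0], !![0, 0, 1; 0, 1, 0; -1, 0, 0]] k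

lemma P_SO (k : Fin 6) : P k ∈ SO := by
  rw [mem_SO]
  constructor
  · ext i j
    rw [mul3]
    fin_cases k <;> fin_cases i <;> fin_cases j <;> simp [P]
  · fin_cases k <;> simp [P, Matrix.det_fin_three]

lemma tr_SO {A : M} (h : A ∈ SO) : Aᵀ ∈ SO := by
  rw [mem_SO]
  refine ⟨by rw [transpose_transpose]; exact mem_SO' h, ?_⟩
  rw [det_transpose]; exact (mem_SO.1 h).2

lemma val_eq (k : Fin 6) (b : E) : (Matrix.toEuclideanLin (P k)ᵀ b) 0 = val k b := by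
  rw [app]
  fin_cases k <;> simp [P, val]

lemma val_unique {k l : Fin 6} {b : E} (hb : ‖b‖ ≤ 1) (hk : 3 / 4 < val k b)
    (hl : 3 / 4 < val l b) : k = l := by
  have h1 : b 0 ^ 2 + b 1 ^ 2 + b 2 ^ 2 ≤ 1 := by
    rw [← norm_sq3]; nlinarith [norm_nonneg b]
  by_contra hne
  fin_cases k <;> fin_cases l <;> simp [val] at hk hl hne <;>
    nlinarith [sq_nonneg (b 0), sq_nonneg (b 1), sq_nonneg (b 2)]

lemma mem_img {A : M} (hA : A ∈ SO) (b : E) :
    Matrix.toEuclideanLin A (Matrix.toEuclideanLin Aᵀ b) = b := by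
  have h := (mem_SO.1 hA).1
  ext i
  have e (j : Fin 3) : A i 0 * A j 0 + A i 1 * A j 1 + A i 2 * A j 2 = (1 : M) i j := by
    rw [← h, mul3]; simp
  have e0 := e 0
  have e1 := e 1
  have e2 := e 2
  rw [app, app, app, app]
  simp only [transpose_apply]
  fin_cases i <;> simp [Matrix.one_apply] at e0 e1 e2 ⊢ <;> linear_combination b 0 * e0 + b 1 * e1 + b 2 * e2

lemma ball_in {K : Set E} (hc : Convex ℝ K) (hk : IsCompact K)
    (h : ∀ ρ ∈ SO, ∃ x : E, (fun v => Matrix.toEuclideanLin ρ v + x) '' S ⊆ K) :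
    ∃ c : E, ∀ b : E, ‖b‖ ≤ 1 → b + c ∈ K := by
  classical
  let ι := {b : E // ‖b‖ ≤ 1}
  let F : ι → Set E := fun b => (fun c => b.1 + c) ⁻¹' K
  have hF : (⋂ i, F i).Nonempty := by
    refine Convex.helly_theorem_compact' (𝕜 := ℝ) (fun b => ?_) (fun b => ?_) ?_
    · exact hc.translate_preimage_right b.1
    · exact (Homeomorph.addLeft b.1).isCompact_preimage.2 hk
    · intro I hI
      have hI4 : I.card ≤ 4 := by simpa using hI
      let bad : Finset (Fin 6) :=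
        I.biUnion (fun b => Finset.univ.filter (fun k => 3 / 4 < val k b.1))
      have hbad : bad.card ≤ 4 := by
        refine Finset.card_biUnion_le.trans ?_
        calc ∑ b ∈ I, (Finset.univ.filter (fun k => 3 / 4 < val k b.1)).card
            ≤ ∑ _b ∈ I, 1 := by
              refine Finset.sum_le_sum fun b _ => Finset.card_le_one.2 ?_
              intro k hk l hl
              exact val_unique b.2 (Finset.mem_filter.1 hk).2 (Finset.mem_filter.1 hl).2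
          _ ≤ 4 := by simpa using hI4
      obtain ⟨k, hk⟩ : ∃ k, k ∉ bad := by
        by_contra hcon
        push Not at hcon
        have : bad = Finset.univ := Finset.eq_univ_of_forall hcon
        rw [this] at hbad
        simp at hbad
      obtain ⟨x, hx⟩ := h _ (P_SO k)
      refine ⟨x, mem_iInter₂.2 fun b hb => ?_⟩
      refine hx ⟨Matrix.toEuclideanLin (P k)ᵀ b.1, ⟨?_, ?_⟩, ?_⟩
      · rw [norm_app (tr_SO (P_SO k))]; exact b.2
      · rw [val_eq]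
        by_contra hlt
        exact hk (Finset.mem_biUnion.2 ⟨b, hb, Finset.mem_filter.2 ⟨Finset.mem_univ _, not_le.1 hlt⟩⟩)
      · simp only [mem_img (P_SO k)]
  obtain ⟨c, hc⟩ := hF
  exact ⟨c, fun b hb => mem_iInter.1 hc ⟨b, hb⟩⟩

lemma S_convex : Convex ℝ S := by
  have : S = Metric.closedBall 0 1 ∩ {x : E | x 0 ≤ 3 / 4} := by
    ext x; simp [S]
  rw [this]
  refine (convex_closedBall _ _).inter ?_
  intro x hx y hy a b ha hb hab
  simp only [mem_setOf_eq, PiLp.add_apply, PiLp.smul_apply, smul_eq_mul] at *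
  nlinarith

lemma S_compact : IsCompact S := by
  have : S = Metric.closedBall 0 1 ∩ {x : E | x 0 ≤ 3 / 4} := by
    ext x; simp [S]
  rw [this]
  exact (isCompact_closedBall _ _).inter_right (isClosed_le (by fun_prop) continuous_const)

noncomputable def pt (a b c : ℝ) : E := WithLp.toLp 2 ![a, b, c]

lemma pt_mem {a b c : ℝ} : pt a b c ∈ S ↔ a ^ 2 + b ^ 2 + c ^ 2 ≤ 1 ∧ a ≤ 3 / 4 := by
  have h := norm_sq3 (pt a b c)
  have h0 := norm_nonneg (pt a b c)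
  simp only [pt] at h h0
  simp only [S, mem_setOf_eq, pt]
  simp at h ⊢
  intro _
  constructor
  · intro h1; nlinarith
  · intro h1; nlinarith

lemma not_point : ¬ ∃ a : E, S = {a} := by
  rintro ⟨a, ha⟩
  have h1 : pt 0 0 0 ∈ S := pt_mem.2 (by norm_num)
  have h2 : pt 0 1 0 ∈ S := pt_mem.2 (by norm_num)
  rw [ha] at h1 h2
  have : pt 0 0 0 = pt 0 1 0 := h1.trans h2.symm
  have := congrArg (fun v : E => v 1) this
  simp [pt] at this

lemma not_seg : ¬ ∃ a b : E, a ≠ b ∧ S = segment ℝ a b := by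
  rintro ⟨a, b, -, ha⟩
  have h1 : pt 0 0 0 ∈ S := pt_mem.2 (by norm_num)
  have h2 : pt 0 1 0 ∈ S := pt_mem.2 (by norm_num)
  have h3 : pt 0 0 1 ∈ S := pt_mem.2 (by norm_num)
  rw [ha, segment_eq_image'] at h1 h2 h3
  obtain ⟨s, -, hs⟩ := h1
  obtain ⟨t, -, ht⟩ := h2
  obtain ⟨u, -, hu⟩ := h3
  have s1 := congrArg (fun v : E => v 1) hs
  have s2 := congrArg (fun v : E => v 2) hs
  have t1 := congrArg (fun v : E => v 1) ht
  have t2 := congrArg (fun v : E => v 2) ht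
  have u1 := congrArg (fun v : E => v 1) hu
  have u2 := congrArg (fun v : E => v 2) hu
  simp [pt] at s1 s2 t1 t2 u1 u2
  have e1 : (t - s) * (b 1 - a 1) = 1 := by linarith
  have e2 : (t - s) * (b 2 - a 2) = 0 := by linarith
  have e3 : (u - s) * (b 2 - a 2) = 1 := by linarith
  rcases mul_eq_zero.1 e2 with h | h
  · rw [h] at e1; simp at e1
  · rw [h] at e3; simp at e3

lemma not_ball : ¬ ∃ (c : E) (r : ℝ), 0 < r ∧ S = Metric.closedBall c r := by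
  rintro ⟨c, r, hr, h⟩
  have hm : ∀ x : E, x ∈ S ↔ (x 0 - c 0) ^ 2 + (x 1 - c 1) ^ 2 + (x 2 - c 2) ^ 2 ≤ r ^ 2 := by
    intro x
    rw [h, Metric.mem_closedBall, dist_eq_norm]
    have := norm_sq3 (x - c)
    simp only [PiLp.sub_apply] at this
    rw [← this]
    exact (sq_le_sq₀ (norm_nonneg _) hr.le).symm
  have h1 := (hm _).1 (pt_mem.2 (by norm_num) : pt 0 1 0 ∈ S)
  have h2 := (hm _).1 (pt_mem.2 (by norm_num) : pt 0 (-1) 0 ∈ S)
  have h3 := pt_mem.1 ((hm (pt (c 0 + r) (c 1) (c 2))).2 (by simp [pt]))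
  have h4 := pt_mem.1 ((hm (pt (c 0 - r) (c 1) (c 2))).2 (by simp [pt]))
  simp [pt] at h1 h2
  have hr1 : 1 ≤ r := by nlinarith [sq_nonneg (c 0), sq_nonneg (c 1), sq_nonneg (c 2)]
  have : -1 ≤ c 0 - r := by nlinarith [sq_nonneg (c 1), sq_nonneg (c 2), h4.1]
  linarith [h3.2]

lemma main (K : Set E) (hc : Convex ℝ K) (hk : IsCompact K)
    (h : ∀ ρ ∈ SO, ∃ x : E, (fun v => Matrix.toEuclideanLin ρ v + x) '' S ⊆ K)
    (ρ₀ ρ₁ : M) (x₀ x₁ : E) (h0 : ρ₀ ∈ SO) (h1 : ρ₁ ∈ SO)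
    (k0 : (fun v => Matrix.toEuclideanLin ρ₀ v + x₀) '' S ⊆ K)
    (k1 : (fun v => Matrix.toEuclideanLin ρ₁ v + x₁) '' S ⊆ K) :
    ∃ γ : ℝ → M, ∃ δ : ℝ → E, Continuous γ ∧ Continuous δ ∧
      γ 0 = ρ₀ ∧ γ 1 = ρ₁ ∧ δ 0 = x₀ ∧ δ 1 = x₁ ∧
      ∀ t ∈ Set.Icc (0 : ℝ) 1, γ t ∈ SO ∧
        (fun v => Matrix.toEuclideanLin (γ t) v + δ t) '' S ⊆ K := by
  obtain ⟨c, hcb⟩ := ball_in hc hk h
  let C : Set (M × E) :=
    {p | p.1 ∈ SO ∧ (fun v => Matrix.toEuclideanLin p.1 v + p.2) '' S ⊆ K}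
  have hin : ∀ ρ ∈ SO, (fun v => Matrix.toEuclideanLin ρ v + c) '' S ⊆ K := by
    rintro ρ hρ _ ⟨v, hv, rfl⟩
    exact hcb _ (by rw [norm_app hρ]; exact hv.1)
  have tr : ∀ ρ ∈ SO, ∀ x : E, (fun v => Matrix.toEuclideanLin ρ v + x) '' S ⊆ K →
      JoinedIn C (ρ, x) (ρ, c) := by
    intro ρ hρ x hx
    refine JoinedIn.ofLine (f := fun t : ℝ => (ρ, (1 - t) • x + t • c)) ?_ ?_ ?_ ?_
    · fun_prop
    · simp
    · simp
    · rintro _ ⟨t, ht, rfl⟩
      refine ⟨hρ, ?_⟩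
      rintro _ ⟨v, hv, rfl⟩
      have := hc (hx ⟨v, hv, rfl⟩) (hin ρ hρ ⟨v, hv, rfl⟩) (sub_nonneg.2 ht.2) ht.1 (by ring)
      convert this using 1
      simp only
      module
  have rot : JoinedIn C (ρ₀, c) (ρ₁, c) := by
    have := (joined h0 h1).map (f := fun ρ : M => (ρ, c)) (by fun_prop)
    refine this.mono ?_
    rintro _ ⟨ρ, hρ, rfl⟩
    exact ⟨hρ, hin ρ hρ⟩
  obtain ⟨p, hp⟩ := ((tr _ h0 _ k0).trans rot).trans (tr _ h1 _ k1).symm
  refine ⟨fun t => (p.extend t).1, fun t => (p.extend t).2, by fun_prop, by fun_prop,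
    by simp, by simp, by simp, by simp, fun t ht => ?_⟩
  have := hp ⟨t, ht⟩
  rw [← Path.extend_apply p ht] at this
  exact this

end Pool.Agent.H81.Kakeya
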