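import Mathlib

namespace Pool.Agent.H81.Kuper

open Set Filter Topology Complex

def K : Set (ℝ × ℂ) :=
  {p | 0 ≤ p.1 ∧ p.1 ≤ 1 ∧ ‖p.2‖ ≤ 1 ∧ (p.1 = 0 ∨ p.2 = exp (Real.log p.1 * I))}

theorem K_one : (1 : ℝ × ℂ) ∈ K := by simp [K]
theorem K_zero : (0 : ℝ × ℂ) ∈ K := by simp [K]

theorem K_mul {p q : ℝ × ℂ} (hp : p ∈ K) (hq : q ∈ K) : p * q ∈ K := by
  obtain ⟨a1, a2, a3, a4⟩ := hp
  obtain ⟨b1, b2, b3, b4⟩ := hq
  refine ⟨mul_nonneg a1 b1, mul_le_one₀ a2 b1 b2, ?_, ?_⟩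
  · rw [Prod.snd_mul, norm_mul]
    exact mul_le_one₀ a3 (norm_nonneg _) b3
  · by_cases h1 : p.1 = 0
    · exact .inl (by simp [h1])
    by_cases h2 : q.1 = 0
    · exact .inl (by simp [h2])
    refine .inr ?_
    rw [Prod.snd_mul, Prod.fst_mul, Real.log_mul h1 h2, a4.resolve_left h1, b4.resolve_left h2,
      ← exp_add]
    push_cast
    ring_nf

theorem K_unit {p q : ℝ × ℂ} (hp : p ∈ K) (hq : q ∈ K) (h : p * q = 1) : q = 1 := by
  obtain ⟨a1, a2, -, -⟩ := hp
  obtain ⟨b1, b2, -, b4⟩ := hq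
  have h1 : p.1 * q.1 = 1 := congrArg Prod.fst h
  have h2 : q.1 = 1 := by nlinarith
  refine Prod.ext h2 ?_
  rw [b4.resolve_left (by rw [h2]; norm_num), h2]
  simp

theorem K_closed : IsClosed K := by
  have h : IsClosed {p : ℝ × ℂ | p.1 = 0 ∨ p.2 = exp (Real.log p.1 * I)} := by
    rw [← isOpen_compl_iff, isOpen_iff_mem_nhds]
    intro p hp
    simp only [mem_compl_iff, mem_setOf_eq, not_or] at hp
    have c1 : ContinuousAt (fun q : ℝ × ℂ => q.2 - exp (Real.log q.1 * I)) p := by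
      have : ContinuousAt (fun q : ℝ × ℂ => Real.log q.1) p := continuousAt_fst.log hp.1
      fun_prop
    filter_upwards [continuousAt_fst.eventually_ne hp.1, c1.eventually_ne (sub_ne_zero.2 hp.2)]
      with q h1 h2
    simp only [mem_compl_iff, mem_setOf_eq, not_or]
    exact ⟨h1, sub_ne_zero.1 h2⟩
  exact (isClosed_le continuous_const continuous_fst).inter
    ((isClosed_le continuous_fst continuous_const).inter
      ((isClosed_le continuous_snd.norm continuous_const).inter h))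

theorem K_compact : IsCompact K :=
  ((isCompact_Icc (a := (0 : ℝ)) (b := 1)).prod (isCompact_closedBall (0 : ℂ) 1)).of_isClosed_subset
    K_closed fun p hp => ⟨⟨hp.1, hp.2.1⟩, mem_closedBall_zero_iff.2 hp.2.2.1⟩

theorem exp_even (k : ℕ) : exp (((-(2 * Real.pi * k) : ℝ) : ℂ) * I) = 1 := by
  have := exp_int_mul_two_pi_mul_I (-(k : ℤ))
  rw [← this]
  congr 1
  push_cast
  ring

theorem exp_odd (k : ℕ) : exp (((-(2 * Real.pi * k) - Real.pi : ℝ) : ℂ) * I) = -1 := by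
  have := exp_even k
  rw [ofReal_sub, sub_mul, exp_sub, this, exp_pi_mul_I]
  norm_num

theorem tend : Tendsto (fun k : ℕ => Real.exp (-(2 * Real.pi * k))) atTop (𝓝 0) :=
  Real.tendsto_exp_atBot.comp (tendsto_neg_atTop_atBot.comp
    (tendsto_natCast_atTop_atTop.const_mul_atTop (by positivity)))

theorem K_conn : IsPreconnected K := by
  set R : Set (ℝ × ℂ) := range fun s : Ici (0 : ℝ) => (Real.exp (-s), exp ((-s : ℝ) * I)) with hR
  have h1 : IsPreconnected R := by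
    have : PreconnectedSpace (Ici (0 : ℝ)) := Subtype.preconnectedSpace isPreconnected_Ici
    exact isPreconnected_range (by fun_prop)
  have h2 : ((0 : ℝ), (1 : ℂ)) ∈ closure R := by
    refine mem_closure_of_tendsto (tend.prodMk_nhds tendsto_const_nhds)
      (Eventually.of_forall fun k => ⟨⟨2 * Real.pi * k, ?_⟩, ?_⟩)
    · exact mem_Ici.2 (by positivity)
    · simp only [exp_even]
  have h3 : IsPreconnected (insert ((0 : ℝ), (1 : ℂ)) R) :=
    h1.subset_closure (subset_insert _ _) (insert_subset h2 subset_closure)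
  have h4 : IsPreconnected (({0} : Set ℝ) ×ˢ Metric.closedBall (0 : ℂ) 1) :=
    isPreconnected_singleton.prod (convex_closedBall _ _).isPreconnected
  have h5 := IsPreconnected.union ((0 : ℝ), (1 : ℂ)) (mem_insert _ _) 
    (mk_mem_prod (mem_singleton _) (mem_closedBall_zero_iff.2 norm_one.le)) h3 h4
  have e : K = insert ((0 : ℝ), (1 : ℂ)) R ∪ ({0} : Set ℝ) ×ˢ Metric.closedBall (0 : ℂ) 1 := by
    ext p
    constructor
    · rintro ⟨a1, a2, a3, a4⟩
      by_cases h0 : p.1 = 0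
      · exact .inr ⟨h0, mem_closedBall_zero_iff.2 a3⟩
      · have hp : 0 < p.1 := lt_of_le_of_ne a1 (Ne.symm h0)
        refine .inl (.inr ⟨⟨-Real.log p.1, mem_Ici.2 (neg_nonneg.2 (Real.log_nonpos a1 a2))⟩, ?_⟩)
        simp only [neg_neg, Real.exp_log hp]
        exact Prod.ext rfl (a4.resolve_left h0).symm
    · rintro ((rfl | ⟨s, rfl⟩) | ⟨h0, h⟩)
      · simp [K]
      · refine ⟨(Real.exp_pos _).le, Real.exp_le_one_iff.2 (neg_nonpos.2 s.2), ?_, .inr ?_⟩
        · exact (norm_exp_ofReal_mul_I _).le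
        · simp only [Real.log_exp]
      · have h0' : p.1 = 0 := h0
        exact ⟨h0'.ge, by rw [h0']; norm_num, mem_closedBall_zero_iff.1 h, .inl h0'⟩
  rw [e]
  exact h5

theorem no_path (γ : ℝ → ℝ × ℂ) (hγ : Continuous γ) (hK : ∀ t, γ t ∈ K) (t0 t1 : ℝ)
    (h0 : (γ t0).1 ≠ 0) : (γ t1).1 ≠ 0 := by
  intro h1
  have hcl : IsClosed {t | (γ t).1 = 0} := isClosed_eq hγ.fst continuous_const
  have hno : ¬ IsOpen {t | (γ t).1 = 0} := fun ho =>
    h0 ((IsClopen.eq_univ ⟨hcl, ho⟩ ⟨t1, h1⟩).symm ▸ mem_univ t0 : t0 ∈ {t | (γ t).1 = 0})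
  rw [Metric.isOpen_iff] at hno
  push Not at hno
  obtain ⟨s, hs, hs'⟩ := hno
  obtain ⟨η, hη, hη'⟩ := Metric.continuous_iff.1 hγ.snd s 1 one_pos
  obtain ⟨t, ht, ht'⟩ := not_subset.1 (hs' η hη)
  have hρ : 0 < (γ t).1 := lt_of_le_of_ne (hK t).1 (Ne.symm ht')
  have hiv := (convex_ball s η).isPreconnected.intermediate_value (Metric.mem_ball_self hη) ht
    hγ.fst.continuousOn
  have hs0 : (γ s).1 = 0 := hs
  obtain ⟨k, hk⟩ := (tend.eventually (gt_mem_nhds hρ)).exists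
  have key : ∀ a : ℝ, Real.exp a ≤ (γ t).1 → dist (exp ((a : ℂ) * I)) (γ s).2 < 1 := by
    intro a ha
    obtain ⟨u, hu, e⟩ := hiv ⟨hs0.le.trans (Real.exp_pos a).le, ha⟩
    have e' : (γ u).1 = Real.exp a := e
    have := (hK u).2.2.2.resolve_left (by rw [e']; exact (Real.exp_pos a).ne')
    rw [e', Real.log_exp] at this
    rw [← this]
    exact hη' u hu
  have k1 := key _ hk.le
  have k2 := key (-(2 * Real.pi * k) - Real.pi)
    ((Real.exp_le_exp.2 (by linarith [Real.pi_pos])).trans hk.le)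
  rw [exp_even] at k1
  rw [exp_odd] at k2
  have := dist_triangle_right (1 : ℂ) (-1) (γ s).2
  have e : dist (1 : ℂ) (-1) = 2 := by
    rw [dist_eq_norm]; norm_num
  linarith

def W : Set (ℕ → ℝ × ℂ) := {x | (∀ n, x n ∈ K) ∧ ∀ n, x n = 1 ∨ x (n + 1) = 0}

theorem W_one : (1 : ℕ → ℝ × ℂ) ∈ W := ⟨fun _ => K_one, fun _ => .inl rfl⟩
theorem W_zero : (0 : ℕ → ℝ × ℂ) ∈ W := ⟨fun _ => K_zero, fun _ => .inr rfl⟩

theorem W_mul {x y : ℕ → ℝ × ℂ} (hx : x ∈ W) (hy : y ∈ W) : x * y ∈ W := by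
  refine ⟨fun n => K_mul (hx.1 n) (hy.1 n), fun n => ?_⟩
  rcases hx.2 n with h | h
  · rcases hy.2 n with h' | h'
    · exact .inl (by simp [h, h'])
    · exact .inr (by simp [h'])
  · exact .inr (by simp [h])

theorem W_unit {x y : ℕ → ℝ × ℂ} (hx : x ∈ W) (hy : y ∈ W) (h : x * y = 1) : y = 1 :=
  funext fun n => K_unit (hx.1 n) (hy.1 n) (congrFun h n)

theorem W_compact : IsCompact W := by
  refine (isCompact_pi_infinite (s := fun _ : ℕ => K) fun _ => K_compact).inter_right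
    (t := {x | ∀ n, x n = 1 ∨ x (n + 1) = 0}) ?_
  rw [setOf_forall]
  exact isClosed_iInter fun n => (isClosed_eq (continuous_apply n) continuous_const).union
    (isClosed_eq (continuous_apply (n + 1)) continuous_const)

def e (n : ℕ) (k : ℝ × ℂ) : ℕ → ℝ × ℂ := fun i => if i < n then 1 else if i = n then k else 0

theorem e_cont (n : ℕ) : Continuous (e n) := by
  refine continuous_pi fun i => ?_
  unfold e
  split_ifs
  exacts [continuous_const, continuous_id, continuous_const]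

theorem e_mem (n : ℕ) {k : ℝ × ℂ} (hk : k ∈ K) : e n k ∈ W := by
  refine ⟨fun i => ?_, fun i => ?_⟩
  · unfold e
    split_ifs
    exacts [K_one, hk, K_zero]
  · by_cases h : i < n
    · exact .inl (if_pos h)
    · exact .inr (by rw [e, if_neg (by omega), if_neg (by omega)])

theorem W_conn : IsPreconnected W := by
  have h1 : IsPreconnected (⋃ n, e n '' K) := by
    refine IsPreconnected.iUnion_of_chain (fun n => K_conn.image _ (e_cont n).continuousOn)
      fun n => ⟨e n 1, ⟨1, K_one, rfl⟩, 0, K_zero, funext fun i => ?_⟩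
    simp only [e, Order.succ_eq_add_one]
    split_ifs <;> first | rfl | omega
  refine h1.subset_closure (iUnion_subset fun n => ?_) fun x hx => ?_
  · rintro _ ⟨k, hk, rfl⟩
    exact e_mem n hk
  by_cases h : ∃ n, x n ≠ 1
  · classical
    have hn := Nat.find_spec h
    have hz : ∀ j, x (Nat.find h + j + 1) = 0 := by
      intro j
      induction j with
      | zero => exact (hx.2 _).resolve_left hn
      | succ j ih =>
        refine (hx.2 (Nat.find h + j + 1)).resolve_left ?_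
        rw [ih]; exact zero_ne_one
    refine subset_closure (mem_iUnion.2 ⟨Nat.find h, x (Nat.find h), hx.1 _, funext fun i => ?_⟩)
    unfold e
    split_ifs with h1 h2
    · exact (not_not.1 (Nat.find_min h h1)).symm
    · rw [h2]
    · obtain ⟨j, rfl⟩ : ∃ j, i = Nat.find h + j + 1 := ⟨i - Nat.find h - 1, by omega⟩
      exact (hz j).symm
  · push Not at h
    refine mem_closure_of_tendsto (f := fun n => e n 1) (b := atTop) (tendsto_pi_nhds.2 fun i => ?_)
      (Eventually.of_forall fun n => mem_iUnion.2 ⟨n, 1, K_one, rfl⟩)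
    refine tendsto_const_nhds.congr' ?_
    filter_upwards [eventually_gt_atTop i] with n hn
    rw [h, e, if_pos hn]

theorem W_path (γ : ℝ → ℕ → ℝ × ℂ) (hγ : Continuous γ) (hW : ∀ t, γ t ∈ W) (t0 t1 : ℝ)
    (h0 : γ t0 = 1) : γ t1 = 1 := by
  funext n
  by_contra h
  have h1 := ((hW t1).2 n).resolve_left h
  refine no_path (fun t => γ t (n + 1)) ((continuous_apply _).comp hγ) (fun t => (hW t).1 _) t0 t1
    (by simp [h0]) (by simp [h1])

def X : Set (ℝ × (ℕ → ℝ × ℂ)) := Icc (-1) 1 ×ˢ W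
def Y : Set (ℝ × (ℕ → ℝ × ℂ)) := X ∪ Icc 1 2 ×ˢ {1}

theorem X_compact : IsCompact X := isCompact_Icc.prod W_compact
theorem Y_compact : IsCompact Y := X_compact.union (isCompact_Icc.prod isCompact_singleton)
theorem X_conn : IsPreconnected X := isPreconnected_Icc.prod W_conn
theorem Y_conn : IsPreconnected Y :=
  IsPreconnected.union (1, 1) ⟨⟨by norm_num, le_rfl⟩, W_one⟩ ⟨⟨le_rfl, by norm_num⟩, rfl⟩ X_conn
    (isPreconnected_Icc.prod isPreconnected_singleton)

theorem p_mem : ((0 : ℝ), (1 : ℕ → ℝ × ℂ)) ∈ X := ⟨⟨by norm_num, by norm_num⟩, W_one⟩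

theorem arc_mem (t : ℝ) : (max (-1) (min 2 t), (1 : ℕ → ℝ × ℂ)) ∈ Y := by
  by_cases h : max (-1) (min 2 t) ≤ 1
  · exact .inl ⟨⟨le_max_left _ _, h⟩, W_one⟩
  · exact .inr ⟨⟨(not_le.1 h).le, max_le (by norm_num) (min_le_left _ _)⟩, rfl⟩

theorem Y_snd {q : ℝ × (ℕ → ℝ × ℂ)} (hq : q ∈ Y) : q.2 ∈ W := by
  rcases hq with h | h
  · exact h.2
  · rw [show q.2 = 1 from h.2]; exact W_one

theorem Y_stable {C : Type} [TopologicalSpace C] (a : C) [NeBot (𝓝[≠] a)] (F : Y × C → Y)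
    (hF : Continuous F) (h0 : ∀ z, F (z, a) = z) :
    ∃ z c, c ≠ a ∧ F (z, c) = ⟨_, .inl p_mem⟩ := by
  have c1 : ∀ z : Y, Tendsto (fun c => (F (z, c)).1.1) (𝓝 a) (𝓝 z.1.1) := fun z => by
    have : Continuous fun c => (F (z, c)).1.1 := by fun_prop
    simpa [h0] using this.tendsto a
  have e1 := (c1 ⟨_, arc_mem (-1)⟩).eventually (gt_mem_nhds (a := 0) (by norm_num))
  have e2 := (c1 ⟨_, arc_mem 2⟩).eventually (lt_mem_nhds (a := 1) (by norm_num))
  obtain ⟨c, ⟨h1, h2⟩, hc⟩ := (((e1.and e2).filter_mono nhdsWithin_le_nhds).and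
    (self_mem_nhdsWithin (s := {a}ᶜ))).exists
  have hγ : Continuous fun t : ℝ => F (⟨_, arc_mem t⟩, c) := by fun_prop
  have h3 : (F (⟨_, arc_mem 2⟩, c)).1.2 = 1 := by
    rcases (F (⟨_, arc_mem 2⟩, c)).2 with h | h
    · exact absurd h.1.2 (not_le.2 h2)
    · exact h.2
  have h4 := fun t => W_path (fun t => (F (⟨_, arc_mem t⟩, c)).1.2) (by fun_prop)
    (fun t => Y_snd (F (⟨_, arc_mem t⟩, c)).2) 2 t h3
  obtain ⟨t, ht⟩ := intermediate_value_univ (-1) 2
    (f := fun t => (F (⟨_, arc_mem t⟩, c)).1.1) (by fun_prop) ⟨h1.le, (zero_lt_one.trans h2).le⟩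
  exact ⟨_, c, hc, Subtype.ext (Prod.ext ht (h4 t))⟩

end Pool.Agent.H81.Kuper
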