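import Mathlib

set_option autoImplicit false

namespace Pool.Agent.H81.Maclaurin

open Finset

variable {ι : Type} [DecidableEq ι]

/-- elementary symmetric sum -/
noncomputable def es (k : ℕ) (s : Finset ι) (x : ι → ℝ) : ℝ := ∑ I ∈ s.powersetCard k, ∏ i ∈ I, x i

lemma es_insert {s : Finset ι} {a : ι} (ha : a ∉ s) (k : ℕ) (x : ι → ℝ) :
    es (k + 1) (insert a s) x = es (k + 1) s x + x a * es k s x := by
  unfold es
  rw [powersetCard_succ_insert ha, sum_union, sum_image, mul_sum]
  · congr 1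
    refine sum_congr rfl fun I hI => prod_insert fun h => ha ((mem_powersetCard.1 hI).1 h)
  · intro I hI J hJ h
    have h1 : a ∉ I := fun h => ha ((mem_powersetCard.1 hI).1 h)
    have h2 : a ∉ J := fun h => ha ((mem_powersetCard.1 hJ).1 h)
    rw [← erase_insert h1, ← erase_insert h2]
    exact congrArg (fun t => erase t a) h
  · refine disjoint_left.2 fun I hI hJ => ?_
    obtain ⟨J, -, rfl⟩ := mem_image.1 hJ
    exact ha ((mem_powersetCard.1 hI).1 (mem_insert_self _ _))

lemma bern {a c : ℝ} (ha : 0 ≤ a) (hc : 0 < c) (hne : c ≠ a) (j : ℕ) :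
    a ^ (j + 2) + (j + 2 : ℝ) * a ^ (j + 1) * (c - a) < c ^ (j + 2) := by
  rcases ha.eq_or_lt with rfl | ha'
  · simpa using pow_pos hc _
  have h := pow_add_mul_le_add_pow (a := a) (b := c - a) ha (by linarith) (j + 1)
  simp only [add_sub_cancel, Nat.add_sub_cancel] at h
  have h2 := mul_le_mul_of_nonneg_left h hc.le
  have h3 : 0 < (j + 1 : ℝ) * a ^ j * (c - a) ^ 2 := by
    have : 0 < (c - a) ^ 2 := by positivity
    positivity
  push_cast at h2
  have e1 : c ^ (j + 2) = c * c ^ (j + 1) := by ring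
  rw [e1]
  refine lt_of_lt_of_le ?_ h2
  have : c * (a ^ (j + 1) + (j + 1 : ℝ) * a ^ j * (c - a)) =
      a ^ (j + 2) + (j + 2 : ℝ) * a ^ (j + 1) * (c - a) + (j + 1 : ℝ) * a ^ j * (c - a) ^ 2 := by
    ring
  linarith

lemma step_eq (m j : ℕ) (a y : ℝ) :
    (m.choose (j + 1) : ℝ) * a ^ (j + 1) + y * (m.choose j * a ^ j) =
      ((m + 1).choose (j + 1) : ℝ) * (a ^ (j + 1) + (j + 1 : ℝ) * a ^ j *
        ((y + m * a) / (m + 1) - a)) := by
  have h1 : ((m + 1).choose (j + 1) : ℝ) = m.choose j + m.choose (j + 1) := by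
    exact_mod_cast Nat.choose_succ_succ' m j
  have h2 : ((m + 1 : ℝ)) * m.choose j = ((m + 1).choose (j + 1) : ℝ) * (j + 1) := by
    exact_mod_cast Nat.add_one_mul_choose_eq m j
  have h3 : (y + m * a) / (m + 1) - a = (y - a) / (m + 1) := by field_simp; ring
  have h4 : ((m + 1).choose (j + 1) : ℝ) * ((j + 1 : ℝ) * a ^ j * ((y - a) / (m + 1))) =
      m.choose j * (a ^ j * (y - a)) := by
    field_simp
    linear_combination (-(a ^ j * (y - a))) * h2
  rw [h3, mul_add, h4, h1]
  ring

lemma mac (s : Finset ι) (x : ι → ℝ) (hx : ∀ i ∈ s, 0 ≤ x i) (k : ℕ) :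
    es k s x ≤ (s.card.choose k : ℝ) * ((∑ i ∈ s, x i) / s.card) ^ k := by
  induction s using Finset.induction_on generalizing k with
  | empty =>
    cases k with
    | zero => simp [es]
    | succ j => rw [es, powersetCard_eq_empty.2 (by simp)]; simp
  | insert a s ha ih =>
    cases k with
    | zero => simp [es]
    | succ j =>
      have hs : ∀ i ∈ s, 0 ≤ x i := fun i hi => hx i (mem_insert_of_mem hi)
      have hxa := hx a (mem_insert_self _ _)
      set A := (∑ i ∈ s, x i) / s.card with hA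
      have hA0 : 0 ≤ A := div_nonneg (sum_nonneg hs) (by positivity)
      have hS : ∑ i ∈ s, x i = s.card * A := by
        rcases s.eq_empty_or_nonempty with rfl | h
        · simp
        · have : (s.card : ℝ) ≠ 0 := by exact_mod_cast h.card_pos.ne'
          rw [hA]; field_simp
      rw [es_insert ha, card_insert_of_notMem ha, sum_insert ha, hS]
      have h1 := ih hs (j + 1)
      have h2 := mul_le_mul_of_nonneg_left (ih hs j) hxa
      refine (add_le_add h1 h2).trans ?_
      rw [step_eq]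
      refine mul_le_mul_of_nonneg_left ?_ (by positivity)
      have hm : (0 : ℝ) ≤ s.card := Nat.cast_nonneg _
      have hc : 0 ≤ (x a + s.card * A) / (s.card + 1) :=
        div_nonneg (add_nonneg hxa (mul_nonneg hm hA0)) (by linarith)
      have h := pow_add_mul_le_add_pow (a := A) (b := (x a + s.card * A) / (s.card + 1) - A) hA0
        (by linarith) (j + 1)
      rw [add_sub_cancel, Nat.add_sub_cancel] at h
      push_cast at h ⊢
      exact h

lemma mac_eq (s : Finset ι) (x : ι → ℝ) (hx : ∀ i ∈ s, 0 ≤ x i) (k : ℕ) (hk : 2 ≤ k)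
    (hks : k ≤ s.card) (hS : 0 < ∑ i ∈ s, x i)
    (h : (s.card.choose k : ℝ) * ((∑ i ∈ s, x i) / s.card) ^ k ≤ es k s x) :
    ∀ a ∈ s, x a = (∑ i ∈ s, x i) / s.card := by
  intro a ha
  obtain ⟨t, hat, rfl⟩ : ∃ t, a ∉ t ∧ s = insert a t :=
    ⟨s.erase a, notMem_erase _ _, (insert_erase ha).symm⟩
  obtain ⟨j, rfl⟩ : ∃ j, k = j + 2 := ⟨k - 2, by omega⟩
  have ht : ∀ i ∈ t, 0 ≤ x i := fun i hi => hx i (mem_insert_of_mem hi)
  have hxa := hx a ha
  rw [card_insert_of_notMem hat] at hks
  have htc : (0 : ℝ) < t.card := by exact_mod_cast (by omega : 0 < t.card)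
  set A := (∑ i ∈ t, x i) / t.card with hA
  have hA0 : 0 ≤ A := div_nonneg (sum_nonneg ht) (by positivity)
  have hS' : ∑ i ∈ t, x i = t.card * A := by rw [hA]; field_simp
  rw [es_insert hat] at h
  rw [card_insert_of_notMem hat, sum_insert hat, hS'] at h ⊢
  rw [sum_insert hat, hS'] at hS
  have h1 := mac t x ht (j + 2)
  have h2 := mul_le_mul_of_nonneg_left (mac t x ht (j + 1)) hxa
  have h3 := h.trans (add_le_add h1 h2)
  rw [← hA, step_eq] at h3
  have hpos : (0 : ℝ) < (t.card + 1).choose (j + 1 + 1) := by exact_mod_cast Nat.choose_pos hks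
  have h4 := le_of_mul_le_mul_left h3 hpos
  by_contra hne
  have hc : 0 < (x a + t.card * A) / (t.card + 1) := div_pos hS (by linarith)
  have h5 := bern hA0 hc (fun h => hne (by
    push_cast
    rw [h]
    rw [div_eq_iff (by linarith)] at h
    linarith)) j
  push_cast at h4
  have e : ((j : ℝ) + 1 + 1) = j + 2 := by ring
  rw [e] at h4
  linarith

end Pool.Agent.H81.Maclaurin
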