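import Mathlib

set_option autoImplicit false

namespace Pool.Agent.H81.Mink

open Set MeasureTheory Filter Topology Matrix

variable {n : ℕ}

abbrev V (n : ℕ) := Fin n → ℝ

structure Cpt (C : Set (V n)) : Prop where
  cpt : IsCompact C
  cvx : Convex ℝ C
  ne : C.Nonempty

structure Body (C : Set (V n)) : Prop where
  cpt : IsCompact C
  cvx : Convex ℝ C
  int : (0 : V n) ∈ interior C

lemma Body.zero {C : Set (V n)} (h : Body C) : (0 : V n) ∈ C := interior_subset h.int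
lemma Body.toCpt {C : Set (V n)} (h : Body C) : Cpt C := ⟨h.cpt, h.cvx, ⟨0, h.zero⟩⟩

noncomputable def sp (C : Set (V n)) (z : V n) : ℝ := sSup ((fun x => x ⬝ᵥ z) '' C)

def pol (C : Set (V n)) : Set (V n) := {u | ∀ x ∈ C, x ⬝ᵥ u ≤ 1}

lemma cont_dot (z : V n) : Continuous fun x : V n => x ⬝ᵥ z := by fun_prop

lemma exmax {C : Set (V n)} (h : Cpt C) (z : V n) :
    ∃ x ∈ C, x ⬝ᵥ z = sp C z ∧ ∀ y ∈ C, y ⬝ᵥ z ≤ x ⬝ᵥ z := by
  obtain ⟨x, hx, hm⟩ := h.cpt.exists_isMaxOn h.ne (cont_dot z).continuousOn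
  refine ⟨x, hx, ?_, fun y hy => hm hy⟩
  symm
  apply IsGreatest.csSup_eq
  exact ⟨⟨x, hx, rfl⟩, by rintro _ ⟨y, hy, rfl⟩; exact hm hy⟩

lemma le_sp {C : Set (V n)} (h : Cpt C) {x : V n} (hx : x ∈ C) (z : V n) : x ⬝ᵥ z ≤ sp C z := by
  obtain ⟨y, -, e, hm⟩ := exmax h z
  rw [← e]; exact hm x hx

lemma sp_le {C : Set (V n)} (h : Cpt C) {z : V n} {c : ℝ} (hc : ∀ x ∈ C, x ⬝ᵥ z ≤ c) :
    sp C z ≤ c := by
  obtain ⟨y, hy, e, -⟩ := exmax h z
  rw [← e]; exact hc y hy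

lemma sp_eq {C : Set (V n)} (h : Cpt C) {z x : V n} {c : ℝ} (hx : x ∈ C) (e : x ⬝ᵥ z = c)
    (hc : ∀ x ∈ C, x ⬝ᵥ z ≤ c) : sp C z = c :=
  le_antisymm (sp_le h hc) (e ▸ le_sp h hx z)

lemma mem_pol {C : Set (V n)} (h : Cpt C) {z : V n} : z ∈ pol C ↔ sp C z ≤ 1 :=
  ⟨fun hz => sp_le h hz, fun hz x hx => (le_sp h hx z).trans hz⟩

lemma clm_dot (f : V n →L[ℝ] ℝ) (y : V n) : y ⬝ᵥ (fun i => f (Pi.single i 1)) = f y := by
  have : y = ∑ i, y i • (Pi.single i (1 : ℝ) : V n) := by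
    ext j; simp [Finset.sum_apply, Pi.single_apply]
  conv_rhs => rw [this]
  simp [dotProduct, map_sum]

lemma mem_of_sp {C : Set (V n)} (h : Cpt C) {x : V n} (hx : ∀ z, x ⬝ᵥ z ≤ sp C z) : x ∈ C := by
  by_contra hn
  obtain ⟨f, c, h1, h2⟩ := geometric_hahn_banach_closed_point h.cvx h.cpt.isClosed hn
  obtain ⟨y, hy, e, -⟩ := exmax h (fun i => f (Pi.single i 1))
  have := hx (fun i => f (Pi.single i 1))
  rw [← e, clm_dot, clm_dot] at this
  linarith [h1 y hy]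

lemma dot_le (x z : V n) : x ⬝ᵥ z ≤ ‖x‖ * ∑ i, |z i| := by
  rw [Finset.mul_sum]
  apply Finset.sum_le_sum
  intro i _
  calc x i * z i ≤ |x i| * |z i| := by rw [← abs_mul]; exact le_abs_self _
    _ ≤ ‖x‖ * |z i| := by
      gcongr
      exact norm_le_pi_norm x i

lemma l1_le (z : V n) : ∑ i, |z i| ≤ n * ‖z‖ := by
  calc ∑ i, |z i| ≤ ∑ _i : Fin n, ‖z‖ := Finset.sum_le_sum fun i _ => norm_le_pi_norm z i
    _ = _ := by simp

lemma le_l1 (z : V n) : ‖z‖ ≤ ∑ i, |z i| := by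
  refine (pi_norm_le_iff_of_nonneg (Finset.sum_nonneg fun i _ => abs_nonneg _)).2 fun i => ?_
  exact Finset.single_le_sum (f := fun i => |z i|) (fun i _ => abs_nonneg _) (Finset.mem_univ i)

lemma Body.ball {C : Set (V n)} (h : Body C) :
    ∃ r > 0, ∀ z, r * ∑ i, |z i| ≤ sp C z := by
  obtain ⟨r, hr, hb⟩ := Metric.mem_nhds_iff.1 (mem_interior_iff_mem_nhds.1 h.int)
  refine ⟨r / 2, by positivity, fun z => ?_⟩
  have hm : (fun i => if 0 ≤ z i then r / 2 else -(r / 2) : V n) ∈ C := by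
    apply hb
    rw [mem_ball_zero_iff]
    refine lt_of_le_of_lt ((pi_norm_le_iff_of_nonneg (by positivity : 0 ≤ r / 2)).2 fun i => ?_)
      (by linarith)
    by_cases hi : 0 ≤ z i <;> simp [hi, abs_of_pos hr]
  refine le_trans (le_of_eq ?_) (le_sp h.toCpt hm z)
  rw [Finset.mul_sum, dotProduct]
  refine Finset.sum_congr rfl fun i _ => ?_
  by_cases hi : 0 ≤ z i
  · simp [hi, abs_of_nonneg hi]
  · simp [hi, abs_of_neg (not_le.1 hi)]

lemma sp_pos {C : Set (V n)} (h : Body C) {z : V n} (hz : z ≠ 0) : 0 < sp C z := by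
  obtain ⟨r, hr, hb⟩ := h.ball
  have := norm_pos_iff.2 hz
  have h2 := le_l1 z
  have := hb z
  nlinarith

lemma sp_lip {C : Set (V n)} (h : Cpt C) : ∃ c, LipschitzWith c (sp C) := by
  obtain ⟨R, hR⟩ := h.cpt.isBounded.exists_norm_le
  have hR0 : 0 ≤ R := by obtain ⟨x, hx⟩ := h.ne; exact (norm_nonneg x).trans (hR x hx)
  refine ⟨⟨R * n, by positivity⟩, LipschitzWith.of_le_add_mul _ fun z z' => ?_⟩
  apply sp_le h
  intro x hx
  have h1 := le_sp h hx z'
  have h2 := dot_le x (z - z')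
  have h3 := l1_le (z - z')
  have h4 : ‖x‖ * ∑ i, |(z - z') i| ≤ R * (n * ‖z - z'‖) :=
    mul_le_mul (hR x hx) h3 (Finset.sum_nonneg fun i _ => abs_nonneg _) hR0
  rw [dotProduct_sub] at h2
  rw [dist_eq_norm]
  show _ ≤ sp C z' + R * n * _
  linarith

lemma sp_cont {C : Set (V n)} (h : Cpt C) : Continuous (sp C) := by
  obtain ⟨c, hc⟩ := sp_lip h; exact hc.continuous

lemma pol_closed (C : Set (V n)) : IsClosed (pol C) := by
  have : pol C = ⋂ x ∈ C, {u : V n | x ⬝ᵥ u ≤ 1} := by ext; simp [pol]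
  rw [this]
  exact isClosed_biInter fun x _ => isClosed_le (by fun_prop) continuous_const

lemma pol_convex (C : Set (V n)) : Convex ℝ (pol C) := by
  intro u hu v hv a b ha hb hab x hx
  rw [dotProduct_add, dotProduct_smul, dotProduct_smul, smul_eq_mul, smul_eq_mul]
  have := hu x hx; have := hv x hx
  nlinarith

lemma Body.pol {C : Set (V n)} (h : Body C) : Body (pol C) := by
  refine ⟨?_, pol_convex C, ?_⟩
  · obtain ⟨r, hr, hb⟩ := h.ball
    refine Metric.isCompact_of_isClosed_isBounded (pol_closed C)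
      (isBounded_iff_forall_norm_le.2 ⟨1 / r, fun z hz => ?_⟩)
    have h1 := (mem_pol h.toCpt).1 hz
    have h2 := le_l1 z
    have := hb z
    rw [le_div_iff₀ hr]
    nlinarith
  · rw [mem_interior_iff_mem_nhds]
    have h0 : sp C 0 < 1 := lt_of_le_of_lt (sp_le h.toCpt (c := 0) (by simp)) one_pos
    filter_upwards [((sp_cont h.toCpt).tendsto 0).eventually (gt_mem_nhds h0)] with z hz
    exact (mem_pol h.toCpt).2 hz.le

lemma nrm_mem {C : Set (V n)} (h : Body C) {z : V n} (hz : z ≠ 0) : (sp C z)⁻¹ • z ∈ pol C := by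
  intro x hx
  rw [dotProduct_smul, smul_eq_mul, inv_mul_le_iff₀ (sp_pos h hz), mul_one]
  exact le_sp h.toCpt hx z

lemma pol_pol {C : Set (V n)} (h : Body C) : pol (pol C) = C := by
  ext x
  refine ⟨fun hx => mem_of_sp h.toCpt fun z => ?_, fun hx u hu => by
    rw [dotProduct_comm]; exact hu x hx⟩
  by_cases hz : z = 0
  · subst hz; simpa using le_sp h.toCpt h.zero 0
  · have := hx _ (nrm_mem h hz)
    rwa [smul_dotProduct, smul_eq_mul, inv_mul_le_iff₀ (sp_pos h hz), mul_one,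
      dotProduct_comm] at this

noncomputable def gr (C : Set (V n)) (z : V n) : V n := fun i => fderiv ℝ (sp C) z (Pi.single i 1)

lemma gr_uniq {C : Set (V n)} {z x : V n} (hd : DifferentiableAt ℝ (sp C) z)
    (h1 : ∀ y, x ⬝ᵥ y ≤ sp C y) (h2 : x ⬝ᵥ z = sp C z) : x = gr C z := by
  let L : V n →L[ℝ] ℝ := LinearMap.toContinuousLinearMap
    { toFun := fun y => x ⬝ᵥ y
      map_add' := fun a b => dotProduct_add _ _ _
      map_smul' := fun a b => dotProduct_smul _ _ _ }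
  have hL : ∀ y, L y = x ⬝ᵥ y := fun _ => rfl
  have hm : IsLocalMin (fun y => sp C y - L y) z :=
    Eventually.of_forall fun y => by simp only [hL]; linarith [h1 y]
  have := hm.hasFDerivAt_eq_zero (hd.hasFDerivAt.sub L.hasFDerivAt)
  have e : fderiv ℝ (sp C) z = L := sub_eq_zero.1 this
  ext i
  simp [gr, e, hL]

lemma gr_eq {C : Set (V n)} (h : Cpt C) {z x : V n} (hd : DifferentiableAt ℝ (sp C) z)
    (h1 : x ∈ C) (h2 : x ⬝ᵥ z = sp C z) : x = gr C z :=
  gr_uniq hd (le_sp h h1) h2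

lemma gr_spec {C : Set (V n)} (h : Cpt C) {z : V n} (hd : DifferentiableAt ℝ (sp C) z) :
    gr C z ∈ C ∧ gr C z ⬝ᵥ z = sp C z := by
  obtain ⟨x, hx, e, -⟩ := exmax h z
  rw [← gr_eq h hd hx e]; exact ⟨hx, e⟩

def Gd (C : Set (V n)) (z : V n) : Prop := z ≠ 0 ∧ DifferentiableAt ℝ (sp C) z

lemma ae_gd [NeZero n] {C : Set (V n)} (h : Cpt C) : ∀ᵐ z : V n, Gd C z := by
  obtain ⟨c, hc⟩ := sp_lip h
  have h0 : ∀ᵐ z : V n, z ≠ 0 := by simp [ae_iff]
  filter_upwards [hc.ae_differentiableAt (μ := volume), h0] with z h1 h2 using ⟨h2, h1⟩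

noncomputable def F (C : Set (V n)) (z : V n) : V n × V n := (gr C z, (sp C z)⁻¹ • z)

lemma F_meas {C : Set (V n)} (h : Cpt C) : Measurable (F C) := by
  refine Measurable.prodMk ?_ ?_
  · exact measurable_pi_lambda _ fun i => measurable_fderiv_apply_const ℝ _ _
  · exact (sp_cont h).measurable.inv.smul measurable_id

def N (C : Set (V n)) : Set (V n × V n) := {p | p.1 ∈ C ∧ p.2 ∈ pol C ∧ p.1 ⬝ᵥ p.2 = 1}

lemma N_cpt {C : Set (V n)} (h : Body C) : IsCompact (N C) := by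
  have : N C = (C ×ˢ pol C) ∩ {p | p.1 ⬝ᵥ p.2 = 1} := by ext; simp [N, and_assoc]
  rw [this]
  exact (h.cpt.prod h.pol.cpt).inter_right (isClosed_eq (by fun_prop) continuous_const)

lemma N_meas {C : Set (V n)} (h : Body C) : MeasurableSet (N C) := (N_cpt h).isClosed.measurableSet

lemma F_mem {C : Set (V n)} (h : Body C) {z : V n} (hz : Gd C z) : F C z ∈ N C := by
  obtain ⟨h1, h2⟩ := gr_spec h.toCpt hz.2
  refine ⟨h1, nrm_mem h hz.1, ?_⟩
  simp only [F]
  rw [dotProduct_smul, h2, smul_eq_mul, inv_mul_cancel₀ (sp_pos h hz.1).ne']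

lemma F_loc {C D : Set (V n)} (hC : Body C) (hD : Body D) {z : V n} (h1 : Gd C z) (h2 : Gd D z)
    (hm : F C z ∈ N D) : sp D z = sp C z ∧ F D z = F C z := by
  obtain ⟨a1, a2, -⟩ := hm
  obtain ⟨-, b2⟩ := gr_spec hC.toCpt h1.2
  have e : sp D z = sp C z := by
    refine sp_eq hD.toCpt a1 b2 fun x hx => ?_
    have := a2 x hx
    simp only [F] at this
    rwa [dotProduct_smul, smul_eq_mul, inv_mul_le_iff₀ (sp_pos hC h1.1), mul_one] at this
  refine ⟨e, ?_⟩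
  simp only [F, e]
  rw [← gr_eq hD.toCpt h2.2 a1 (b2.trans e.symm)]
  rfl

noncomputable def mm (C : Set (V n)) : Measure (V n × V n) := (volume.restrict (pol C)).map (F C)

lemma mm_apply {C : Set (V n)} (h : Body C) {A : Set (V n × V n)} (hA : MeasurableSet A) :
    mm C A = volume (F C ⁻¹' A ∩ pol C) := by
  rw [mm, Measure.map_apply (F_meas h.toCpt) hA, Measure.restrict_apply (F_meas h.toCpt hA)]

lemma mm_fin {C : Set (V n)} (h : Body C) : IsFiniteMeasure (mm C) := by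
  refine ⟨?_⟩
  rw [mm_apply h MeasurableSet.univ]
  exact lt_of_le_of_lt (measure_mono inter_subset_right) h.pol.cpt.measure_lt_top

lemma mm_N [NeZero n] {C : Set (V n)} (h : Body C) : mm C (N C)ᶜ = 0 := by
  rw [mm_apply h (N_meas h).compl]
  refine measure_mono_null (fun z hz => ?_) (ae_iff.1 (ae_gd h.toCpt))
  exact fun hg => hz.1 (F_mem h hg)

lemma mm_loc [NeZero n] {C D : Set (V n)} (hC : Body C) (hD : Body D) :
    (mm C).restrict (N C ∩ N D) = (mm D).restrict (N C ∩ N D) := by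
  ext A hA
  have hm := hA.inter ((N_meas hC).inter (N_meas hD))
  rw [Measure.restrict_apply hA, Measure.restrict_apply hA, mm_apply hC hm, mm_apply hD hm]
  apply measure_congr
  filter_upwards [ae_gd hC.toCpt, ae_gd hD.toCpt] with z h1 h2
  apply propext
  constructor
  · rintro ⟨a, b⟩
    obtain ⟨e1, e2⟩ := F_loc hC hD h1 h2 a.2.2
    exact ⟨by rw [mem_preimage, e2]; exact a,
      (mem_pol hD.toCpt).2 (e1 ▸ (mem_pol hC.toCpt).1 b)⟩
  · rintro ⟨a, b⟩
    obtain ⟨e1, e2⟩ := F_loc hD hC h2 h1 a.2.1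
    exact ⟨by rw [mem_preimage, e2]; exact a,
      (mem_pol hC.toCpt).2 (e1 ▸ (mem_pol hD.toCpt).1 b)⟩

end Pool.Agent.H81.Mink
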