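import Pool.Agent.H81.Mink1

set_option autoImplicit false

namespace Pool.Agent.H81.Mink

open Set MeasureTheory Filter Topology Matrix

variable {n : ℕ}

lemma adj (A : Matrix (Fin n) (Fin n) ℝ) (x y : V n) : (A *ᵥ x) ⬝ᵥ y = x ⬝ᵥ (Aᵀ *ᵥ y) := by
  rw [dotProduct_comm, dotProduct_mulVec, ← mulVec_transpose, dotProduct_comm]

lemma cont_mv (A : Matrix (Fin n) (Fin n) ℝ) : Continuous A.mulVec :=
  (Matrix.toLin' A).continuous_of_finiteDimensional

lemma Body.img {C : Set (V n)} (h : Body C) {A B : Matrix (Fin n) (Fin n) ℝ} (hAB : Aᵀ * B = 1) :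
    Body (A.mulVec '' C) := by
  have h1 : A * Bᵀ = 1 := by
    have := congrArg transpose (mul_eq_one_comm.1 hAB)
    simpa using this
  refine ⟨h.cpt.image (cont_mv A), h.cvx.linear_image (Matrix.toLin' A), ?_⟩
  have ho : IsOpenMap A.mulVec :=
    (Matrix.toLin' A).isOpenMap_of_finiteDimensional fun y => ⟨Bᵀ *ᵥ y, by
      simp [Matrix.mulVec_mulVec, h1]⟩
  exact ho.image_interior_subset C ⟨0, h.int, by simp⟩

lemma sp_img {C : Set (V n)} (A : Matrix (Fin n) (Fin n) ℝ) (z : V n) :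
    sp (A.mulVec '' C) z = sp C (Aᵀ *ᵥ z) := by
  simp only [sp, image_image, adj]

lemma pol_img {C : Set (V n)} {A B : Matrix (Fin n) (Fin n) ℝ} (hAB : Aᵀ * B = 1) :
    pol (A.mulVec '' C) = B.mulVec '' pol C := by
  ext u
  constructor
  · intro hu
    refine ⟨Aᵀ *ᵥ u, fun x hx => ?_, by simp [Matrix.mulVec_mulVec, mul_eq_one_comm.1 hAB]⟩
    rw [← adj]; exact hu _ ⟨x, hx, rfl⟩
  · rintro ⟨v, hv, rfl⟩ _ ⟨x, hx, rfl⟩
    rw [adj, Matrix.mulVec_mulVec, hAB, one_mulVec]; exact hv x hx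

lemma mp_mv {B : Matrix (Fin n) (Fin n) ℝ} (hB : B.det = 1) :
    MeasurePreserving B.mulVec (volume : Measure (V n)) volume := by
  refine ⟨(cont_mv B).measurable, ?_⟩
  have := Real.map_matrix_volume_pi_eq_smul_volume_pi (M := B) (by rw [hB]; exact one_ne_zero)
  rw [hB] at this
  simp only [inv_one, abs_one, ENNReal.ofReal_one, one_smul] at this
  exact this

lemma mm_img [NeZero n] {C : Set (V n)} (h : Body C) {A B : Matrix (Fin n) (Fin n) ℝ}
    (hAB : Aᵀ * B = 1) (hB : B.det = 1) :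
    mm (A.mulVec '' C) = (mm C).map (Prod.map A.mulVec B.mulVec) := by
  have hi := h.img hAB
  have ht : Measurable (Prod.map A.mulVec B.mulVec) :=
    (cont_mv A).measurable.prodMap (cont_mv B).measurable
  ext S hS
  rw [Measure.map_apply ht hS, mm_apply hi hS, mm_apply h (ht hS),
    ← (mp_mv hB).measure_preimage
      ((F_meas hi.toCpt hS).inter (pol_closed _).measurableSet).nullMeasurableSet]
  apply measure_congr
  filter_upwards [ae_gd h.toCpt, (mp_mv hB).quasiMeasurePreserving.ae (ae_gd hi.toCpt)]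
    with z h1 h2
  have e : sp (A.mulVec '' C) (B *ᵥ z) = sp C z := by
    rw [sp_img, Matrix.mulVec_mulVec, hAB, one_mulVec]
  have e2 : F (A.mulVec '' C) (B *ᵥ z) = Prod.map A.mulVec B.mulVec (F C z) := by
    obtain ⟨a1, a2⟩ := gr_spec h.toCpt h1.2
    simp only [F, e, Prod.map, mulVec_smul]
    rw [← gr_eq hi.toCpt h2.2 (x := A *ᵥ gr C z) ⟨_, a1, rfl⟩
      (by rw [e, adj, Matrix.mulVec_mulVec, hAB, one_mulVec, a2])]
  apply propext
  show (F _ (B *ᵥ z) ∈ S ∧ B *ᵥ z ∈ pol _) ↔ (Prod.map A.mulVec B.mulVec (F C z) ∈ S ∧ z ∈ pol C)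
  rw [e2, mem_pol hi.toCpt, mem_pol h.toCpt, e]

def Sub (l : ℝ) (C D : Set (V n)) : Prop := ∀ x ∈ C, l⁻¹ • x ∈ D

def Conv (Cs : ℕ → Set (V n)) (C : Set (V n)) : Prop :=
  ∀ l > 1, ∀ᶠ j in atTop, Sub l (Cs j) C ∧ Sub l C (Cs j)

lemma Sub.pol {l : ℝ} {C D : Set (V n)} (h : Sub l C D) : Sub l (pol D) (pol C) := by
  intro u hu x hx
  have := hu _ (h x hx)
  rwa [smul_dotProduct, ← dotProduct_smul] at this

lemma Conv.pol {Cs : ℕ → Set (V n)} {C : Set (V n)} (h : Conv Cs C) :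
    Conv (fun j => pol (Cs j)) (pol C) := fun l hl =>
  (h l hl).mono fun _ hj => ⟨hj.2.pol, hj.1.pol⟩

lemma Sub.sp {l : ℝ} (hl : 0 < l) {C D : Set (V n)} (h : Sub l C D) (hC : Cpt C) (hD : Cpt D)
    (z : V n) : sp C z ≤ l * sp D z := by
  refine sp_le hC fun x hx => ?_
  have := le_sp hD (h x hx) z
  rwa [smul_dotProduct, smul_eq_mul, inv_mul_le_iff₀ hl] at this

lemma sp_tend {Cs : ℕ → Set (V n)} {C : Set (V n)} (h : Conv Cs C) (hs : ∀ j, Body (Cs j))
    (hC : Body C) (z : V n) : Tendsto (fun j => sp (Cs j) z) atTop (𝓝 (sp C z)) := by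
  rw [tendsto_order]
  constructor
  · intro a ha
    have : Tendsto (fun l : ℝ => l * a) (𝓝[>] 1) (𝓝 (1 * a)) :=
      ((continuous_id.mul continuous_const).tendsto 1).mono_left nhdsWithin_le_nhds
    rw [one_mul] at this
    obtain ⟨l, h1, h2⟩ := ((this.eventually (gt_mem_nhds ha)).and self_mem_nhdsWithin).exists
    have h2 : 1 < l := h2
    filter_upwards [h l h2] with j hj
    have := hj.2.sp (by linarith) hC.toCpt (hs j).toCpt z
    exact lt_of_mul_lt_mul_left (h1.trans_le this) (by linarith)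
  · intro a ha
    have : Tendsto (fun l : ℝ => l * sp C z) (𝓝[>] 1) (𝓝 (1 * sp C z)) :=
      ((continuous_id.mul continuous_const).tendsto 1).mono_left nhdsWithin_le_nhds
    rw [one_mul] at this
    obtain ⟨l, h1, h2⟩ := ((this.eventually (gt_mem_nhds ha)).and self_mem_nhdsWithin).exists
    have h2 : 1 < l := h2
    filter_upwards [h l h2] with j hj
    exact (hj.1.sp (by linarith) (hs j).toCpt hC.toCpt z).trans_lt h1

def K2 (D : Set (V n)) : Set (V n) := (fun y => (2 : ℝ) • y) '' D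

lemma K2_cpt {D : Set (V n)} (h : IsCompact D) : IsCompact (K2 D) := h.image (by fun_prop)

lemma Sub.K2 {C D : Set (V n)} (h : Sub 2 C D) : C ⊆ K2 D := fun x hx =>
  ⟨_, h x hx, by simp [smul_smul]⟩

lemma Body.sub2 {C : Set (V n)} (h : Body C) : Sub 2 C C := fun x hx =>
  h.cvx.smul_mem_of_zero_mem h.zero hx ⟨by norm_num, by norm_num⟩

lemma gr_tend {Cs : ℕ → Set (V n)} {C : Set (V n)} (h : Conv Cs C) (hs : ∀ j, Body (Cs j))
    (hC : Body C) {z : V n} (h1 : ∀ j, Gd (Cs j) z) (h2 : Gd C z) :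
    Tendsto (fun j => gr (Cs j) z) atTop (𝓝 (gr C z)) := by
  refine (K2_cpt hC.cpt).tendsto_nhds_of_unique_mapClusterPt
    ((h 2 (by norm_num)).mono fun j hj => hj.1.K2 (gr_spec (hs j).toCpt (h1 j).2).1) ?_
  intro x _ hx
  obtain ⟨φ, hφ, hl⟩ := hx.tendsto_subseq
  have t1 : ∀ y, Tendsto (fun j => gr (Cs (φ j)) z ⬝ᵥ y) atTop (𝓝 (x ⬝ᵥ y)) := fun y =>
    ((cont_dot y).tendsto x).comp hl
  have t2 : ∀ y, Tendsto (fun j => sp (Cs (φ j)) y) atTop (𝓝 (sp C y)) := fun y =>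
    (sp_tend h hs hC y).comp hφ.tendsto_atTop
  refine gr_uniq h2.2 (fun y => le_of_tendsto_of_tendsto' (t1 y) (t2 y) fun j =>
    le_sp (hs _).toCpt (gr_spec (hs _).toCpt (h1 _).2).1 y) ?_
  refine tendsto_nhds_unique (t1 z) ?_
  simpa only [(gr_spec (hs _).toCpt (h1 _).2).2] using t2 z

lemma ae_ne_one {C : Set (V n)} (h : Body C) : ∀ᵐ z : V n, sp C z ≠ 1 := by
  rw [ae_iff]
  refine measure_mono_null (fun z hz => ?_) ((pol_convex C).addHaar_frontier volume)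
  have hz : sp C z = 1 := not_not.1 hz
  rw [(pol_closed C).frontier_eq]
  refine ⟨(mem_pol h.toCpt).2 hz.le, fun hi => ?_⟩
  have : Tendsto (fun l : ℝ => l • z) (𝓝[>] 1) (𝓝 ((1 : ℝ) • z)) :=
    ((continuous_id.smul continuous_const).tendsto 1).mono_left nhdsWithin_le_nhds
  rw [one_smul] at this
  obtain ⟨l, h1, h2⟩ :=
    ((this.eventually (mem_interior_iff_mem_nhds.1 hi)).and self_mem_nhdsWithin).exists
  have h2 : 1 < l := h2
  obtain ⟨x, hx, e, -⟩ := exmax h.toCpt z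
  have := h1 x hx
  rw [dotProduct_smul, e, hz, smul_eq_mul] at this
  linarith

variable {W : Type*} [NormedAddCommGroup W] [NormedSpace ℝ W]

noncomputable def aa (C : Set (V n)) (φ : V n × V n → W) : V n → W := (pol C).indicator (φ ∘ F C)

lemma aa_meas {C : Set (V n)} (h : Body C) {φ : V n × V n → W} (hφ : Continuous φ) :
    StronglyMeasurable (aa C φ) :=
  (hφ.comp_stronglyMeasurable (F_meas h.toCpt).stronglyMeasurable).indicator
    (pol_closed C).measurableSet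

lemma aa_bd {C D : Set (V n)} (h : Body D) {φ : V n × V n → W} {M : ℝ}
    (hM : ∀ p ∈ K2 C ×ˢ K2 (pol C), ‖φ p‖ ≤ M) (h0 : 0 ≤ M) (s1 : Sub 2 D C) (s2 : Sub 2 C D)
    {z : V n} (hz : Gd D z) : ‖aa D φ z‖ ≤ (K2 (pol C)).indicator (fun _ => M) z := by
  by_cases hm : z ∈ pol D
  · rw [aa, indicator_of_mem hm, indicator_of_mem (s2.pol.K2 hm)]
    obtain ⟨a, b, -⟩ := F_mem h hz
    exact hM _ ⟨s1.K2 a, s2.pol.K2 b⟩
  · rw [aa, indicator_of_notMem hm, norm_zero]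
    exact indicator_nonneg (fun _ _ => h0) z

lemma ind_int {K : Set (V n)} (hK : IsCompact K) (M : ℝ) :
    Integrable (K.indicator fun _ => M) volume :=
  (integrable_indicator_iff hK.isClosed.measurableSet).2
    (integrableOn_const hK.measure_lt_top.ne)

lemma ex_bd {C : Set (V n)} (h : Body C) {φ : V n × V n → W} (hφ : Continuous φ) :
    ∃ M, 0 ≤ M ∧ ∀ p ∈ K2 C ×ˢ K2 (pol C), ‖φ p‖ ≤ M := by
  obtain ⟨M, hM⟩ := ((K2_cpt h.cpt).prod (K2_cpt h.pol.cpt)).exists_bound_of_continuousOn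
    hφ.continuousOn
  exact ⟨max M 0, le_max_right _ _, fun p hp => (hM p hp).trans (le_max_left _ _)⟩

lemma aa_int [NeZero n] {C : Set (V n)} (h : Body C) {φ : V n × V n → W} (hφ : Continuous φ) :
    Integrable (aa C φ) volume := by
  obtain ⟨M, h0, hM⟩ := ex_bd h hφ
  refine (ind_int (K2_cpt h.pol.cpt) M).mono' (aa_meas h hφ).aestronglyMeasurable ?_
  filter_upwards [ae_gd h.toCpt] with z hz using aa_bd h hM h0 h.sub2 h.sub2 hz

lemma aa_tend [NeZero n] {Cs : ℕ → Set (V n)} {C : Set (V n)} (h : Conv Cs C)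
    (hs : ∀ j, Body (Cs j)) (hC : Body C) {φ : V n × V n → W} (hφ : Continuous φ) :
    Tendsto (fun j => ∫ z, ‖aa (Cs j) φ z - aa C φ z‖) atTop (𝓝 0) := by
  obtain ⟨M, h0, hM⟩ := ex_bd hC hφ
  have := tendsto_integral_filter_of_dominated_convergence (μ := volume) (l := atTop)
    (F := fun j z => ‖aa (Cs j) φ z - aa C φ z‖) (f := fun _ => (0 : ℝ))
    (fun z => (K2 (pol C)).indicator (fun _ => M) z + (K2 (pol C)).indicator (fun _ => M) z)
    (Eventually.of_forall fun j =>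
      ((aa_meas (hs j) hφ).sub (aa_meas hC hφ)).norm.aestronglyMeasurable) ?_
    ((ind_int (K2_cpt hC.pol.cpt) M).add (ind_int (K2_cpt hC.pol.cpt) M)) ?_
  · simpa using this
  · filter_upwards [h 2 (by norm_num)] with j hj
    filter_upwards [ae_gd hC.toCpt, ae_gd (hs j).toCpt] with z h1 h2
    rw [norm_norm]
    exact (norm_sub_le _ _).trans
      (add_le_add (aa_bd (hs j) hM h0 hj.1 hj.2 h2) (aa_bd hC hM h0 hC.sub2 hC.sub2 h1))
  · filter_upwards [ae_gd hC.toCpt, ae_all_iff.2 fun j => ae_gd (hs j).toCpt, ae_ne_one hC]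
      with z h1 h2 h3
    rw [← tendsto_iff_norm_sub_tendsto_zero]
    have t := sp_tend h hs hC z
    rcases lt_or_gt_of_ne h3 with h4 | h4
    · have tF : Tendsto (fun j => F (Cs j) z) atTop (𝓝 (F C z)) :=
        (gr_tend h hs hC h2 h1).prodMk_nhds ((t.inv₀ (sp_pos hC h1.1).ne').smul_const z)
      rw [aa, indicator_of_mem ((mem_pol hC.toCpt).2 h4.le)]
      refine ((hφ.tendsto _).comp tF).congr' ?_
      filter_upwards [t.eventually (gt_mem_nhds h4)] with j hj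
      rw [aa, indicator_of_mem ((mem_pol (hs j).toCpt).2 hj.le)]
      rfl
    · rw [aa, indicator_of_notMem (fun hm => not_le.2 h4 ((mem_pol hC.toCpt).1 hm))]
      refine tendsto_const_nhds.congr' ?_
      filter_upwards [t.eventually (lt_mem_nhds h4)] with j hj
      rw [aa, indicator_of_notMem (fun hm => not_le.2 hj ((mem_pol (hs j).toCpt).1 hm))]

noncomputable def PP {α : Type*} [MeasurableSpace α] (τ : Measure α) (φ : α → W)
    (ξ : W →L[ℝ] ℝ) : ℝ := ∫ p, max (ξ (φ p)) 0 ∂τ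

lemma pp_int {α : Type*} [MeasurableSpace α] {τ : Measure α} {φ : α → W} (h : Integrable φ τ)
    (ξ : W →L[ℝ] ℝ) : Integrable (fun p => max (ξ (φ p)) 0) τ :=
  (ξ.integrable_comp h).pos_part

lemma pp_lip {α : Type*} [MeasurableSpace α] {τ : Measure α} {φ ψ : α → W} (h : Integrable φ τ)
    (h' : Integrable ψ τ) (ξ : W →L[ℝ] ℝ) :
    PP τ φ ξ ≤ PP τ ψ ξ + ‖ξ‖ * ∫ p, ‖φ p - ψ p‖ ∂τ := by
  have hi : Integrable (fun p => ‖ξ‖ * ‖φ p - ψ p‖) τ := (h.sub h').norm.const_mul _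
  rw [PP, PP, ← integral_const_mul, ← integral_add (pp_int h' ξ) hi]
  refine integral_mono (pp_int h ξ) ((pp_int h' ξ).add hi) fun p => ?_
  have h1 := ξ.le_opNorm (φ p - ψ p)
  rw [map_sub, Real.norm_eq_abs] at h1
  have h2 := le_abs_self (ξ (φ p) - ξ (ψ p))
  have h3 := abs_nonneg (ξ (φ p) - ξ (ψ p))
  have h4 := le_max_left (ξ (ψ p)) 0
  have h5 := le_max_right (ξ (ψ p)) 0
  exact max_le (by linarith) (by linarith)

lemma pp_mm {C : Set (V n)} (h : Body C) {φ : V n × V n → W} (hφ : Continuous φ)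
    (ξ : W →L[ℝ] ℝ) : PP (mm C) φ ξ = PP volume (aa C φ) ξ := by
  rw [PP, PP, mm, integral_map (F_meas h.toCpt).aemeasurable
    (Continuous.aestronglyMeasurable (by fun_prop)), ← integral_indicator
    (pol_closed C).measurableSet]
  congr 1
  ext z
  by_cases hz : z ∈ pol C <;> simp [aa, hz]

lemma mm_usc [NeZero n] {Cs : ℕ → Set (V n)} {C : Set (V n)} (h : Conv Cs C)
    (hs : ∀ j, Body (Cs j)) (hC : Body C) {φ : V n × V n → W} (hφ : Continuous φ) {ε : ℝ}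
    (hε : 0 < ε) : ∀ᶠ j in atTop, ∀ ξ, PP (mm (Cs j)) φ ξ ≤ PP (mm C) φ ξ + ‖ξ‖ * ε := by
  filter_upwards [(aa_tend h hs hC hφ).eventually (gt_mem_nhds hε)] with j hj ξ
  rw [pp_mm (hs j) hφ, pp_mm hC hφ]
  refine (pp_lip (aa_int (hs j) hφ) (aa_int hC hφ) ξ).trans ?_
  gcongr

lemma sp_hd {C D : Set (V n)} (hC : Cpt C) (hD : Cpt D) {δ : ℝ}
    (h : Metric.hausdorffDist C D < δ) (z : V n) : sp C z ≤ sp D z + δ * ∑ i, |z i| := by
  refine sp_le hC fun x hx => ?_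
  obtain ⟨y, hy, hxy⟩ := Metric.exists_dist_lt_of_hausdorffDist_lt hx h
    (Metric.hausdorffEDist_ne_top_of_nonempty_of_bounded hC.ne hD.ne hC.cpt.isBounded
      hD.cpt.isBounded)
  have h1 := dot_le (x - y) z
  rw [sub_dotProduct, ← dist_eq_norm] at h1
  have h2 := le_sp hD hy z
  have h3 : 0 ≤ ∑ i, |z i| := Finset.sum_nonneg fun i _ => abs_nonneg _
  nlinarith

lemma sub_of_hd {C : Set (V n)} (hC : Body C) {l : ℝ} (hl : 1 < l) :
    ∃ δ > 0, ∀ D, Cpt D → Metric.hausdorffDist D C < δ → Sub l D C ∧ Sub l C D := by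
  obtain ⟨r, hr, hb⟩ := hC.ball
  have hl0 : 0 < l := by linarith
  have hi : l⁻¹ < 1 := inv_lt_one_of_one_lt₀ hl
  have hi0 : 0 < l⁻¹ := inv_pos.2 hl0
  have hm : l * l⁻¹ = 1 := mul_inv_cancel₀ hl0.ne'
  refine ⟨r * (1 - l⁻¹), mul_pos hr (by linarith), fun D hD hd => ⟨fun x hx => ?_, fun x hx => ?_⟩⟩
  · refine mem_of_sp hC.toCpt fun z => ?_
    rw [smul_dotProduct, smul_eq_mul, inv_mul_le_iff₀ hl0]
    have h1 := le_sp hD hx z
    have h2 := sp_hd hD hC.toCpt hd z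
    have h3 := hb z
    have h4 : 0 ≤ r * ∑ i, |z i| := mul_nonneg hr.le (Finset.sum_nonneg fun i _ => abs_nonneg _)
    have h5 : 1 - l⁻¹ ≤ l - 1 := by nlinarith [sq_nonneg (l - 1)]
    nlinarith
  · refine mem_of_sp hD fun z => ?_
    rw [smul_dotProduct, smul_eq_mul]
    have h1 := le_sp hC.toCpt hx z
    have h2 := sp_hd hC.toCpt hD (by rwa [Metric.hausdorffDist_comm]) z
    have h3 := hb z
    nlinarith

lemma conv_of_hd {Cs : ℕ → Set (V n)} {C : Set (V n)} (hs : ∀ j, Body (Cs j)) (hC : Body C)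
    (h : Tendsto (fun j => Metric.hausdorffDist (Cs j) C) atTop (𝓝 0)) : Conv Cs C := by
  intro l hl
  obtain ⟨δ, h0, hδ⟩ := sub_of_hd hC hl
  filter_upwards [h.eventually (gt_mem_nhds h0)] with j hj using hδ _ (hs j).toCpt hj

end Pool.Agent.H81.Mink
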