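import Pool.Agent.H81.Mink3

set_option autoImplicit false

namespace Pool.Agent.H81.Mink

open Set MeasureTheory Filter Topology Matrix
open scoped Pointwise

variable {n : ℕ} {W : Type*} [NormedAddCommGroup W] [NormedSpace ℝ W] [FiniteDimensional ℝ W]

def ZZ (τ : Measure (V n × V n)) (w : V n × V n → W) : Set W := {A | ∀ ξ, ξ A ≤ PP τ w ξ}

lemma zz_att {τ : Measure (V n × V n)} {w : V n × V n → W} (hw : Continuous w)
    (hi : Integrable w τ) (ξ : W →L[ℝ] ℝ) : ∃ A ∈ ZZ τ w, ξ A = PP τ w ξ := by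
  have := FiniteDimensional.complete ℝ W
  have hS : MeasurableSet {p | 0 < ξ (w p)} :=
    (isOpen_lt continuous_const (by fun_prop)).measurableSet
  have hj := hi.indicator hS
  refine ⟨∫ p, {p | 0 < ξ (w p)}.indicator w p ∂τ, fun η => ?_, ?_⟩
  · rw [← η.integral_comp_comm hj]
    refine integral_mono (η.integrable_comp hj) (pp_int hi η) fun p => ?_
    by_cases hp : p ∈ {p | 0 < ξ (w p)} <;> simp [hp]
  · rw [← ξ.integral_comp_comm hj, PP]
    congr 1
    ext p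
    by_cases hp : p ∈ {p | 0 < ξ (w p)}
    · rw [indicator_of_mem hp, max_eq_left (le_of_lt hp)]
    · rw [indicator_of_notMem hp, map_zero, max_eq_right (not_lt.1 hp)]

lemma zz_cvx (τ : Measure (V n × V n)) (w : V n × V n → W) : Convex ℝ (ZZ τ w) := by
  intro A hA B hB a b ha hb hab ξ
  rw [map_add, map_smul, map_smul, smul_eq_mul, smul_eq_mul]
  have h1 := mul_le_mul_of_nonneg_left (hA ξ) ha
  have h2 := mul_le_mul_of_nonneg_left (hB ξ) hb
  have : a * PP τ w ξ + b * PP τ w ξ = PP τ w ξ := by rw [← add_mul, hab, one_mul]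
  linarith

lemma zz_cpt {τ : Measure (V n × V n)} {w : V n × V n → W} (hi : Integrable w τ) :
    IsCompact (ZZ τ w) := by
  have := FiniteDimensional.proper_real W
  refine Metric.isCompact_of_isClosed_isBounded ?_
    (isBounded_iff_forall_norm_le.2 ⟨∫ p, ‖w p‖ ∂τ, fun A hA => ?_⟩)
  · have : ZZ τ w = ⋂ ξ : W →L[ℝ] ℝ, {A | ξ A ≤ PP τ w ξ} := by ext; simp [ZZ]
    rw [this]
    exact isClosed_iInter fun ξ => isClosed_le ξ.continuous continuous_const
  · obtain ⟨ξ, h1, h2⟩ := exists_dual_vector'' ℝ A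
    have h3 := pp_lip hi (integrable_zero _ _ τ) ξ
    have h4 : PP τ (0 : V n × V n → W) ξ = 0 := by simp [PP]
    have h5 : 0 ≤ ∫ p, ‖w p‖ ∂τ := integral_nonneg fun _ => norm_nonneg _
    have h6 := hA ξ
    simp only [h4, Pi.zero_apply, sub_zero, zero_add] at h3
    have h7 : ξ A = ‖A‖ := h2
    nlinarith

lemma zz_zero (w : V n × V n → W) : ZZ 0 w = {0} := by
  ext A
  simp only [ZZ, PP, integral_zero_measure, mem_setOf_eq, mem_singleton_iff]
  refine ⟨fun h => ?_, fun h ξ => by simp [h]⟩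
  obtain ⟨ξ, -, h2⟩ := exists_dual_vector'' ℝ A
  have h7 : ξ A = ‖A‖ := h2
  exact norm_le_zero_iff.1 (h7 ▸ h ξ)

lemma zz_add {τ τ' : Measure (V n × V n)} {w : V n × V n → W} (hw : Continuous w)
    (hi : Integrable w τ) (hi' : Integrable w τ') : ZZ (τ + τ') w = ZZ τ w + ZZ τ' w := by
  ext B
  constructor
  · intro hB
    by_contra hn
    obtain ⟨ξ, c, h1, h2⟩ := geometric_hahn_banach_closed_point ((zz_cvx τ w).add (zz_cvx τ' w))
      ((zz_cpt hi).add (zz_cpt hi')).isClosed hn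
    obtain ⟨A, hA, e⟩ := zz_att hw hi ξ
    obtain ⟨A', hA', e'⟩ := zz_att hw hi' ξ
    have h3 := h1 _ (add_mem_add hA hA')
    have h4 := hB ξ
    rw [pp_add hi hi'] at h4
    rw [map_add] at h3
    linarith
  · rintro ⟨A, hA, A', hA', rfl⟩ ξ
    rw [pp_add hi hi', map_add]
    exact add_le_add (hA ξ) (hA' ξ)

lemma zz_usc {τ : Measure (V n × V n)} {w : V n × V n → W} (hw : Continuous w)
    (hi : Integrable w τ) {D : Set W} (h1 : IsCompact D) (h2 : Convex ℝ D)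
    (h3 : (0 : W) ∈ interior D) :
    ∃ ε > 0, ∀ τ' : Measure (V n × V n), (∀ ξ, PP τ' w ξ ≤ PP τ w ξ + ‖ξ‖ * ε) →
      ZZ τ' w ⊆ ZZ τ w + D := by
  obtain ⟨r, hr, hb⟩ := Metric.mem_nhds_iff.1 (mem_interior_iff_mem_nhds.1 h3)
  refine ⟨r, hr, fun τ' h B hB => ?_⟩
  by_contra hn
  obtain ⟨ξ, c, h4, h5⟩ := geometric_hahn_banach_closed_point ((zz_cvx τ w).add h2)
    ((zz_cpt hi).add h1).isClosed hn
  obtain ⟨A, hA, e⟩ := zz_att hw hi ξ
  have h6 : ∀ d ∈ D, ξ d < c - PP τ w ξ := fun d hd => by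
    have := h4 _ (add_mem_add hA hd)
    rw [map_add] at this
    linarith
  have h7 : 0 < c - PP τ w ξ := by simpa using h6 0 (interior_subset h3)
  have h8 : ‖ξ‖ ≤ (c - PP τ w ξ) / r := by
    refine ContinuousLinearMap.opNorm_le_of_unit_norm (by positivity) fun x hx => ?_
    refine le_of_forall_lt_imp_le_of_dense fun a ha => ?_
    rcases le_or_gt a 0 with h0 | h0
    · exact h0.trans (by positivity)
    have hp : 0 < ‖ξ x‖ := h0.trans ha
    have k : ∀ t : ℝ, |t| < r → t * ξ x < c - PP τ w ξ := fun t ht => by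
      have := h6 (t • x) (hb (by rw [mem_ball_zero_iff, norm_smul, hx, mul_one]; exact ht))
      rwa [map_smul] at this
    have q : a / ‖ξ x‖ * r < r := by
      have : a / ‖ξ x‖ < 1 := (div_lt_one hp).2 ha
      nlinarith
    have q0 : 0 < a / ‖ξ x‖ * r := by positivity
    rw [le_div_iff₀ hr]
    have q1 : a * r = a / ‖ξ x‖ * r * ‖ξ x‖ := by field_simp
    rw [q1]
    rcases abs_cases (ξ x) with ⟨e1, -⟩ | ⟨e1, -⟩
    · have := k (a / ‖ξ x‖ * r) (by rwa [abs_of_pos q0])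
      rw [Real.norm_eq_abs] at *
      nlinarith
    · have := k (-(a / ‖ξ x‖ * r)) (by rwa [abs_neg, abs_of_pos q0])
      rw [Real.norm_eq_abs] at *
      nlinarith
  rw [le_div_iff₀ hr] at h8
  have := hB ξ
  have := h ξ
  linarith

lemma zz_map {τ : Measure (V n × V n)} {w : V n × V n → W} (hw : Continuous w)
    {e : V n × V n → V n × V n} (he : Measurable e) {σ σ' : W →L[ℝ] W}
    (h1 : ∀ x, σ (σ' x) = x) (h2 : ∀ x, σ' (σ x) = x) (h : ∀ p, w (e p) = σ (w p)) :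
    ZZ (τ.map e) w = σ '' ZZ τ w := by
  have k : ∀ ξ : W →L[ℝ] ℝ, PP (τ.map e) w ξ = PP τ w (ξ.comp σ) := fun ξ => by
    rw [PP, PP, integral_map he.aemeasurable (Continuous.aestronglyMeasurable (by fun_prop))]
    simp [h]
  ext B
  constructor
  · intro hB
    refine ⟨σ' B, fun η => ?_, h1 B⟩
    have := hB (η.comp σ')
    rw [k] at this
    have e : (η.comp σ').comp σ = η := by ext; simp [h2]
    rwa [e] at this
  · rintro ⟨A, hA, rfl⟩ ξ
    rw [k]; exact hA (ξ.comp σ)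

lemma zz_ne {τ : Measure (V n × V n)} {w : V n × V n → W} (hw : Continuous w)
    (hi : Integrable w τ) (h0 : ∀ᵐ p ∂τ, w p ≠ 0) (h : ZZ τ w = {0}) : τ = 0 := by
  have k : ∀ ξ : W →L[ℝ] ℝ, ∀ᵐ p ∂τ, ξ (w p) ≤ 0 := fun ξ => by
    obtain ⟨A, hA, e⟩ := zz_att hw hi ξ
    rw [h, mem_singleton_iff] at hA
    rw [hA, map_zero] at e
    filter_upwards [(integral_eq_zero_iff_of_nonneg (fun _ => le_max_right _ _)
      (pp_int hi ξ)).1 e.symm] with p hp
    exact (le_max_left _ _).trans (le_of_eq hp)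
  let b := Module.finBasis ℝ W
  rw [← ae_eq_bot, ← eventually_false_iff_eq_bot]
  filter_upwards [h0, ae_all_iff.2 fun i => k (LinearMap.toContinuousLinearMap (b.coord i)),
    ae_all_iff.2 fun i => k (-LinearMap.toContinuousLinearMap (b.coord i))] with p a1 a2 a3
  apply a1
  refine b.ext_elem fun i => ?_
  have c2 := a2 i
  have c3 := a3 i
  simp at c2 c3 ⊢
  linarith

lemma rho_poly (hn : 2 ≤ n) {S : Set (V n)} (hS : S.Finite) (h : Body (convexHull ℝ S)) :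
    rho (convexHull ℝ S) = 0 := by
  have : NeZero n := ⟨by omega⟩
  have hm : MeasurableSet {p : V n × V n | p.1 ∈ S} := measurable_fst hS.measurableSet
  have hne : S.Nonempty := convexHull_nonempty_iff.1 h.toCpt.ne
  have k1 : mm (convexHull ℝ S) {p | p.1 ∈ S}ᶜ = 0 := by
    rw [mm_apply h hm.compl]
    refine measure_mono_null (fun z hz => ?_) (ae_iff.1 (ae_gd h.toCpt))
    intro hg
    apply hz.1
    obtain ⟨x, hx, hmx⟩ := Set.exists_max_image S (fun x => x ⬝ᵥ z) hS hne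
    have hc : Convex ℝ {y : V n | y ⬝ᵥ z ≤ x ⬝ᵥ z} := by
      intro u hu v hv a b ha hb hab
      simp only [mem_setOf_eq, add_dotProduct, smul_dotProduct, smul_eq_mul] at *
      have h1 := mul_le_mul_of_nonneg_left hu ha
      have h2 := mul_le_mul_of_nonneg_left hv hb
      have : a * (x ⬝ᵥ z) + b * (x ⬝ᵥ z) = x ⬝ᵥ z := by rw [← add_mul, hab, one_mul]
      linarith
    have hx' := subset_convexHull ℝ S hx
    have := gr_eq h.toCpt hg.2 hx' (sp_eq h.toCpt hx' rfl (convexHull_min hmx hc)).symm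
    show gr _ z ∈ S
    rwa [← this]
  have k2 : mu (convexHull ℝ S) {p | p.1 ∈ S} = 0 := by
    rw [mu, Measure.map_apply measurable_swap hm, mm_apply h.pol (measurable_swap hm)]
    have hz : ∀ᵐ z : V n, ∀ s ∈ S, z ∉ Submodule.span ℝ {s} := by
      rw [ae_ball_iff hS.countable]
      intro s _
      refine (measure_eq_zero_iff_ae_notMem.1 (Measure.addHaar_submodule volume _ fun ht => ?_))
      have h1 := finrank_span_le_card (R := ℝ) ({s} : Set (V n))
      rw [ht] at h1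
      simp at h1
      omega
    refine measure_mono_null (fun z hz => ?_) (ae_iff.1 (hz.and (ae_gd h.pol.toCpt)))
    rintro ⟨a, b⟩
    refine a _ hz.1 (Submodule.mem_span_singleton.2 ⟨sp (pol (convexHull ℝ S)) z, ?_⟩)
    show _ • _ • z = z
    rw [smul_smul, mul_inv_cancel₀ (sp_pos h.pol b.1).ne', one_smul]
  rw [← Measure.measure_univ_eq_zero, ← measure_add_measure_compl hm]
  have a1 := Measure.le_iff'.1 (inf_le_left : rho (convexHull ℝ S) ≤ mm _) {p | p.1 ∈ S}ᶜ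
  have a2 := Measure.le_iff'.1 (inf_le_right : rho (convexHull ℝ S) ≤ mu _) {p | p.1 ∈ S}
  rw [k1, nonpos_iff_eq_zero] at a1
  rw [k2, nonpos_iff_eq_zero] at a2
  exact add_eq_zero.2 ⟨a2, a1⟩

def Bl (n : ℕ) : Set (V n) := {x | x ⬝ᵥ x ≤ 1}

lemma dsq (x u : V n) : 0 ≤ x ⬝ᵥ x - 2 * (x ⬝ᵥ u) + u ⬝ᵥ u ∧
    (x ⬝ᵥ x - 2 * (x ⬝ᵥ u) + u ⬝ᵥ u = 0 → x = u) := by
  have : x ⬝ᵥ x - 2 * (x ⬝ᵥ u) + u ⬝ᵥ u = (x - u) ⬝ᵥ (x - u) := by
    rw [sub_dotProduct, dotProduct_sub, dotProduct_sub, dotProduct_comm u x]; ring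
  rw [this]
  exact ⟨Finset.sum_nonneg fun i _ => mul_self_nonneg _,
    fun h => sub_eq_zero.1 (dotProduct_self_eq_zero.1 h)⟩

lemma pol_Bl : pol (Bl n) = Bl n := by
  ext u
  constructor
  · intro hu
    by_contra hn
    have h1 : 1 < u ⬝ᵥ u := not_le.1 hn
    have h2 : 1 < √(u ⬝ᵥ u) := Real.lt_sqrt_of_sq_lt (by simpa using h1)
    have h3 : √(u ⬝ᵥ u) * √(u ⬝ᵥ u) = u ⬝ᵥ u := Real.mul_self_sqrt (by linarith)
    generalize √(u ⬝ᵥ u) = s at h2 h3
    have h4 := hu (s⁻¹ • u) (by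
      simp only [Bl, mem_setOf_eq, smul_dotProduct, dotProduct_smul, smul_eq_mul, ← h3]
      apply le_of_eq; field_simp)
    rw [smul_dotProduct, smul_eq_mul, ← h3, inv_mul_le_iff₀ (by linarith)] at h4
    nlinarith
  · intro hu x hx
    have := (dsq x u).1
    have h1 : x ⬝ᵥ x ≤ 1 := hx
    have h2 : u ⬝ᵥ u ≤ 1 := hu
    linarith

lemma Bl_body : Body (Bl n) := by
  refine ⟨?_, pol_Bl (n := n) ▸ pol_convex _, ?_⟩
  · refine Metric.isCompact_of_isClosed_isBounded (pol_Bl (n := n) ▸ pol_closed _)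
      (isBounded_iff_forall_norm_le.2 ⟨1, fun x hx => ?_⟩)
    refine (pi_norm_le_iff_of_nonneg zero_le_one).2 fun i => ?_
    have : x i * x i ≤ x ⬝ᵥ x :=
      Finset.single_le_sum (f := fun i => x i * x i) (fun i _ => mul_self_nonneg _)
        (Finset.mem_univ i)
    rw [Real.norm_eq_abs, ← sq_le_one_iff_abs_le_one, sq]
    exact this.trans hx
  · rw [mem_interior_iff_mem_nhds]
    have hc : Continuous fun x : V n => x ⬝ᵥ x := by fun_prop
    filter_upwards [(hc.tendsto 0).eventually (gt_mem_nhds (a := 1) (by simp))] with z hz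
    exact hz.le

lemma rho_Bl [NeZero n] : rho (Bl n) ≠ 0 := by
  have e : mu (Bl n) = mm (Bl n) := by
    rw [mu, pol_Bl, Measure.map_congr (g := id), Measure.map_id]
    filter_upwards [mem_ae_iff.2 (mm_N Bl_body)] with p hp
    obtain ⟨h1, h2, h3⟩ := hp
    rw [pol_Bl] at h2
    have h1 : p.1 ⬝ᵥ p.1 ≤ 1 := h1
    have h2 : p.2 ⬝ᵥ p.2 ≤ 1 := h2
    have := (dsq p.1 p.2).2 (le_antisymm (by linarith) (dsq p.1 p.2).1)
    exact Prod.ext this.symm this
  rw [rho, e, inf_idem, Ne, ← Measure.measure_univ_eq_zero, mm_apply Bl_body MeasurableSet.univ,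
    preimage_univ, univ_inter]
  exact (Measure.measure_pos_of_nonempty_interior volume ⟨0, Bl_body.pol.int⟩).ne'

lemma poly_approx {C : Set (V n)} (h : Body C) :
    ∃ S : ℕ → Set (V n), (∀ j, (S j).Finite ∧ Body (convexHull ℝ (S j))) ∧
      Tendsto (fun j => Metric.hausdorffDist (convexHull ℝ (S j)) C) atTop (𝓝 0) := by
  obtain ⟨δ, h0, hδ⟩ := sub_of_hd h (l := 2) (by norm_num)
  have k : ∀ j : ℕ, ∃ S : Set (V n), (S.Finite ∧ Body (convexHull ℝ S)) ∧
      Metric.hausdorffDist (convexHull ℝ S) C ≤ δ / 2 * (1 / ((j : ℝ) + 1)) := fun j => by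
    have hp : 0 < δ / 2 * (1 / ((j : ℝ) + 1)) := by positivity
    obtain ⟨S, s1, s2, s3⟩ := finite_cover_balls_of_compact h.cpt hp
    have hd : Metric.hausdorffDist (convexHull ℝ S) C ≤ δ / 2 * (1 / ((j : ℝ) + 1)) := by
      refine Metric.hausdorffDist_le_of_mem_dist hp.le (fun x hx => ⟨x,
        convexHull_min s1 h.cvx hx, by simpa using hp.le⟩) fun x hx => ?_
      obtain ⟨y, hy, hxy⟩ := mem_iUnion₂.1 (s3 hx)
      exact ⟨y, subset_convexHull ℝ S hy, (Metric.mem_ball.1 hxy).le⟩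
    have hc : Cpt (convexHull ℝ S) := by
      obtain ⟨y, hy, -⟩ := mem_iUnion₂.1 (s3 h.zero)
      exact ⟨s2.isCompact_convexHull ℝ, convex_convexHull ℝ S, y, subset_convexHull ℝ S hy⟩
    refine ⟨S, ⟨s2, hc.cpt, hc.cvx, ?_⟩, hd⟩
    have h1 : 1 / ((j : ℝ) + 1) ≤ 1 := by
      rw [div_le_one (by positivity)]; linarith [Nat.cast_nonneg (α := ℝ) j]
    have hs := (hδ _ hc (hd.trans_lt (by nlinarith))).2
    rw [mem_interior_iff_mem_nhds]
    have ht : Tendsto (fun x : V n => (2 : ℝ) • x) (𝓝 0) (𝓝 0) := by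
      simpa using (show Continuous fun x : V n => (2 : ℝ) • x by fun_prop).tendsto 0
    filter_upwards [ht.eventually (mem_interior_iff_mem_nhds.1 h.int)] with x hx
    simpa [smul_smul] using hs _ hx
  choose S h1 h2 using k
  refine ⟨S, h1, squeeze_zero (fun _ => Metric.hausdorffDist_nonneg) h2 ?_⟩
  simpa using tendsto_one_div_add_atTop_nhds_zero_nat.const_mul (δ / 2)

theorem main (hn : 2 ≤ n) (σ : Matrix.SpecialLinearGroup (Fin n) ℝ → W →L[ℝ] W)
    (hσ : ∀ T x, σ T (σ T⁻¹ x) = x) (w : V n × V n → W) (hw : Continuous w)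
    (he : ∀ (T : Matrix.SpecialLinearGroup (Fin n) ℝ) (x u : V n),
      w (T.1 *ᵥ x, (T⁻¹).1ᵀ *ᵥ u) = σ T (w (x, u)))
    (h0 : ∀ x u : V n, x ⬝ᵥ u = 1 → w (x, u) ≠ 0) :
    ∃ Φ : Set (V n) → Set W,
      (∀ K, Body K → (Φ K).Nonempty ∧ IsCompact (Φ K) ∧ Convex ℝ (Φ K)) ∧
      (∀ (T : Matrix.SpecialLinearGroup (Fin n) ℝ) K, Body K →
        σ T '' Φ ((T⁻¹).1.mulVec '' K) = Φ K) ∧
      (∀ K L, Body K → Body L → Convex ℝ (K ∪ L) → Φ (K ∪ L) + Φ (K ∩ L) = Φ K + Φ L) ∧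
      (∃ K, Body K ∧ Φ K ≠ {0}) ∧
      (∀ D : Set W, IsCompact D → Convex ℝ D → (0 : W) ∈ interior D →
        ∀ (Ks : ℕ → Set (V n)) K, (∀ j, Body (Ks j)) → Body K →
          Tendsto (fun j => Metric.hausdorffDist (Ks j) K) atTop (𝓝 0) →
          ∃ j0 : ℕ, ∀ j, j0 ≤ j → Φ (Ks j) ⊆ Φ K + D) ∧
      ∃ (Ks : ℕ → Set (V n)) (K : Set (V n)), (∀ j, Body (Ks j)) ∧ Body K ∧
          Tendsto (fun j => Metric.hausdorffDist (Ks j) K) atTop (𝓝 0) ∧
          ¬ Tendsto (fun j => Metric.hausdorffDist (Φ (Ks j)) (Φ K)) atTop (𝓝 0) := by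
  have : NeZero n := ⟨by omega⟩
  have hB : ZZ (rho (Bl n)) w ≠ {0} := fun h => by
    refine rho_Bl (zz_ne hw (rho_int Bl_body hw) ?_ h)
    filter_upwards [mem_ae_iff.2 (rho_N Bl_body)] with p hp using h0 _ _ hp.2.2
  have hne : ∀ K, Body K → (ZZ (rho K) w).Nonempty := fun K hK => by
    obtain ⟨A, hA, -⟩ := zz_att hw (rho_int hK hw) 0
    exact ⟨A, hA⟩
  refine ⟨fun K => ZZ (rho K) w, fun K hK => ⟨hne K hK, zz_cpt (rho_int hK hw), zz_cvx _ _⟩,
    fun T K hK => ?_, fun K L hK hL h => ?_, ⟨_, Bl_body, hB⟩, fun D d1 d2 d3 Ks K hs hK h => ?_,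
    ?_⟩
  · have m1 : ∀ T : Matrix.SpecialLinearGroup (Fin n) ℝ, T.1 * (T⁻¹).1 = 1 := fun T => by
      have := Matrix.SpecialLinearGroup.coe_mul T T⁻¹
      rw [mul_inv_cancel] at this
      exact this.symm
    have m2 : ∀ T : Matrix.SpecialLinearGroup (Fin n) ℝ, T.1ᵀ * (T⁻¹).1ᵀ = 1 := fun T => by
      rw [← transpose_mul, mul_eq_one_comm.1 (m1 T), transpose_one]
    have hK' := hK.img (m2 T⁻¹)
    have := rho_img hK' (m2 T) T.2 (by rw [det_transpose]; exact (T⁻¹).2)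
    rw [image_image] at this
    simp only [Matrix.mulVec_mulVec, m1, one_mulVec, image_id'] at this
    show _ = ZZ (rho K) w
    rw [this, zz_map hw ((cont_mv _).measurable.prodMap (cont_mv _).measurable) (hσ T)
      (by simpa using hσ T⁻¹) fun p => he T p.1 p.2]
  · show ZZ _ w + ZZ _ w = ZZ _ w + ZZ _ w
    rw [← zz_add hw (rho_int (hK.union hL h) hw) (rho_int (hK.inter hL) hw), rho_val hK hL h,
      zz_add hw (rho_int hK hw) (rho_int hL hw)]
  · obtain ⟨ε, e0, hε⟩ := zz_usc hw (rho_int hK hw) d1 d2 d3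
    exact eventually_atTop.1 ((rho_usc (conv_of_hd hs hK h) hs hK hw e0).mono fun j hj => hε _ hj)
  · obtain ⟨S, s1, s2⟩ := poly_approx (Bl_body (n := n))
    refine ⟨_, _, fun j => (s1 j).2, Bl_body, s2, fun h => hB ?_⟩
    simp only [rho_poly hn (s1 _).1 (s1 _).2, zz_zero] at h
    have h1 := tendsto_nhds_unique tendsto_const_nhds h
    have hc := zz_cpt (rho_int (Bl_body (n := n)) hw)
    exact ((isClosed_singleton.hausdorffDist_zero_iff_eq hc.isClosed
      (Metric.hausdorffEDist_ne_top_of_nonempty_of_bounded (singleton_nonempty _)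
        (hne _ Bl_body) Bornology.isBounded_singleton hc.isBounded)).1 h1).symm

end Pool.Agent.H81.Mink
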