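import Pool.Agent.H81.Mink4

set_option autoImplicit false

namespace Pool.Agent.H81.Mink

open Set Matrix

abbrev M3 := Matrix (Fin 3) (Fin 3) ℝ
abbrev SL3 := Matrix.SpecialLinearGroup (Fin 3) ℝ

def dec : (Fin 8 → ℝ) →ₗ[ℝ] M3 where
  toFun v := !![v 0, v 1, v 2; v 3, v 4, v 5; v 6, v 7, -v 0 - v 4]
  map_add' a b := by ext i j; fin_cases i <;> fin_cases j <;> simp; ring
  map_smul' a b := by ext i j; fin_cases i <;> fin_cases j <;> simp; ring

def enc : M3 →ₗ[ℝ] (Fin 8 → ℝ) where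
  toFun A := ![A 0 0, A 0 1, A 0 2, A 1 0, A 1 1, A 1 2, A 2 0, A 2 1]
  map_add' a b := by ext i; fin_cases i <;> simp
  map_smul' a b := by ext i; fin_cases i <;> simp

lemma enc_dec (v : Fin 8 → ℝ) : enc (dec v) = v := by
  ext i; fin_cases i <;> simp [enc, dec]

lemma tr_dec (v : Fin 8 → ℝ) : (dec v).trace = 0 := by
  simp [dec, trace_fin_three]

lemma dec_enc {A : M3} (h : A.trace = 0) : dec (enc A) = A := by
  rw [trace_fin_three] at h
  ext i j; fin_cases i <;> fin_cases j <;> simp [enc, dec]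
  linarith

def cj (T : SL3) (A : M3) : M3 := (T : M3) * A * ((T⁻¹ : SL3) : M3)

lemma m1 (T : SL3) : ((T⁻¹ : SL3) : M3) * (T : M3) = 1 := by
  rw [← Matrix.SpecialLinearGroup.coe_mul, inv_mul_cancel, Matrix.SpecialLinearGroup.coe_one]

lemma m2 (T : SL3) : (T : M3) * ((T⁻¹ : SL3) : M3) = 1 := mul_eq_one_comm.1 (m1 T)

lemma tr_cj (T : SL3) (A : M3) : (cj T A).trace = A.trace := by
  rw [cj, trace_mul_cycle, m1, one_mul]

def sg (T : SL3) : (Fin 8 → ℝ) →ₗ[ℝ] (Fin 8 → ℝ) where
  toFun v := enc (cj T (dec v))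
  map_add' a b := by simp [cj, mul_add, add_mul]
  map_smul' a b := by simp [cj]

lemma sg_enc (T : SL3) {A : M3} (h : A.trace = 0) : sg T (enc A) = enc (cj T A) := by
  show enc (cj T (dec (enc A))) = _
  rw [dec_enc h]

lemma sg_mul (S T : SL3) : sg (S * T) = sg S ∘ₗ sg T := by
  refine LinearMap.ext fun v => ?_
  show _ = sg S (enc (cj T (dec v)))
  rw [sg_enc S (by rw [tr_cj, tr_dec])]
  show enc (cj (S * T) (dec v)) = _
  simp only [cj, _root_.mul_inv_rev, Matrix.SpecialLinearGroup.coe_mul, Matrix.mul_assoc]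

lemma sg_one : sg 1 = LinearMap.id := by
  refine LinearMap.ext fun v => ?_
  show enc (cj 1 (dec v)) = v
  simp [cj, enc_dec]

noncomputable def rm : SL3 →* Matrix (Fin 8) (Fin 8) ℝ where
  toFun T := LinearMap.toMatrix' (sg T)
  map_one' := by rw [sg_one, LinearMap.toMatrix'_id]
  map_mul' S T := by rw [sg_mul, LinearMap.toMatrix'_comp]

noncomputable def rr : SL3 →* Matrix.GeneralLinearGroup (Fin 8) ℝ := rm.toHomUnits

lemma rr_val (T : SL3) : (rr T).val = LinearMap.toMatrix' (sg T) := rfl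

lemma rr_mv (T : SL3) (v : Fin 8 → ℝ) : (rr T).val *ᵥ v = sg T v := by
  rw [rr_val, LinearMap.toMatrix'_mulVec]

lemma rr_cont : Continuous (fun A : {A : M3 // A.det = 1} => (rr (⟨A.1, A.2⟩ : SL3)).val) := by
  refine continuous_matrix fun i j => ?_
  simp only [rr_val, LinearMap.toMatrix'_apply]
  have h1 : Continuous fun A : {A : M3 // A.det = 1} =>
      A.1 * dec (Pi.single j 1) * A.1.adjugate :=
    (continuous_subtype_val.matrix_mul continuous_const).matrix_mul
      continuous_subtype_val.matrix_adjugate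
  exact (continuous_apply i).comp (enc.continuous_of_finiteDimensional.comp h1)

def Ee (i j : Fin 3) : M3 := single i j 1

def tv (i j : Fin 3) (h : i ≠ j) (t : ℝ) : SL3 :=
  ⟨transvection i j t, det_transvection_of_ne i j h t⟩

lemma cj_tv (i j : Fin 3) (h : i ≠ j) (t : ℝ) (A : M3) :
    cj (tv i j h t) A = A + t • (Ee i j * A - A * Ee i j) - (t * t) • (Ee i j * A * Ee i j) := by
  have e : (tv i j h t)⁻¹ = tv i j h (-t) := by
    rw [inv_eq_iff_mul_eq_one]
    apply Subtype.ext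
    show transvection i j t * transvection i j (-t) = 1
    rw [transvection_mul_transvection_same i j h, add_neg_cancel, transvection_zero]
  have e1 : ∀ s : ℝ, ((tv i j h s : SL3) : M3) = 1 + s • Ee i j := fun s => by
    show transvection i j s = _
    simp [transvection, Ee]
  rw [cj, e, e1, e1]
  simp only [add_mul, mul_add, one_mul, mul_one, smul_mul_assoc, mul_smul_comm, smul_smul]
  module

lemma irred (U : Submodule ℝ (Fin 8 → ℝ)) (hU : ∀ T : SL3, ∀ w ∈ U, (rr T).val *ᵥ w ∈ U) :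
    U = ⊥ ∨ U = ⊤ := by
  let U' : Submodule ℝ M3 := U.comap enc ⊓ LinearMap.ker (traceLinearMap (Fin 3) ℝ ℝ)
  have c0 : ∀ T, ∀ A ∈ U', cj T A ∈ U' := fun T A hA => by
    have h2 : A.trace = 0 := hA.2
    refine ⟨?_, (tr_cj T A).trans h2⟩
    have := hU T _ hA.1
    rwa [rr_mv, sg_enc T h2] at this
  have c1 : ∀ i j, i ≠ j → ∀ A ∈ U', Ee i j * A - A * Ee i j ∈ U' := fun i j h A hA => by
    have := U'.smul_mem (1 / 2 : ℝ) (U'.sub_mem (c0 (tv i j h 1) A hA) (c0 (tv i j h (-1)) A hA))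
    rw [cj_tv, cj_tv] at this
    convert this using 1
    module
  have c2 : ∀ i j, i ≠ j → ∀ A ∈ U', Ee i j * A * Ee i j ∈ U' := fun i j h A hA => by
    have := U'.sub_mem (U'.add_mem hA (c1 i j h A hA)) (c0 (tv i j h 1) A hA)
    rw [cj_tv] at this
    convert this using 1
    module
  have sc : ∀ (c : ℝ) (A : M3), c ≠ 0 → c • A ∈ U' → A ∈ U' := fun c A hc h =>
    (U'.smul_mem_iff hc).1 h
  have row : ∀ i j k, i ≠ j → k ≠ i → Ee i j ∈ U' → Ee i k ∈ U' := fun i j k h1 h2 h => by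
    by_cases h3 : j = k
    · rwa [← h3]
    · have := U'.neg_mem (c1 j k h3 _ h)
      simpa [Ee, single_mul_single_of_ne, h2] using this
  have col : ∀ i j k, i ≠ j → k ≠ j → Ee i j ∈ U' → Ee k j ∈ U' := fun i j k h1 h2 h => by
    by_cases h3 : k = i
    · rwa [h3]
    · have := c1 k i h3 _ h
      simpa [Ee, single_mul_single_of_ne, h2.symm] using this
  refine or_iff_not_imp_left.2 fun hb => ?_
  obtain ⟨v, hv, hv0⟩ := (Submodule.ne_bot_iff U).1 hb
  have hA : dec v ∈ U' := ⟨by show enc (dec v) ∈ U; rwa [enc_dec], tr_dec v⟩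
  have hA0 : dec v ≠ 0 := fun h => hv0 (by rw [← enc_dec v, h, map_zero])
  have htr := tr_dec v
  generalize dec v = A at hA hA0 htr
  have s1 : ∃ i j, i ≠ j ∧ Ee i j ∈ U' := by
    by_contra hn
    push Not at hn
    have o : ∀ i j, i ≠ j → A j i = 0 := fun i j h => by
      by_contra h0
      refine hn i j h (sc _ _ h0 ?_)
      have := c2 i j h A hA
      simpa [Ee, single_mul_mul_single] using this
    have d : ∀ i j, i ≠ j → A j j - A i i = 0 := fun i j h => by
      by_contra h0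
      refine hn i j h (sc _ _ h0 ?_)
      convert c1 i j h A hA using 1
      ext a b
      have o1 := o b j
      have o2 := o i a
      simp only [Ee, Matrix.smul_apply, Matrix.sub_apply, Matrix.mul_apply, single_apply,
        smul_eq_mul]
      by_cases ha : i = a <;> by_cases hb : j = b
      · subst ha; subst hb; simp
      · subst ha; simp [hb, o1 (Ne.symm hb)]
      · subst hb; simp [ha, o2 ha]
      · simp [ha, hb]
    apply hA0
    rw [trace_fin_three] at htr
    have d1 := d 0 1 (by decide)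
    have d2 := d 0 2 (by decide)
    ext a b
    by_cases h : b = a
    · subst h; fin_cases b <;> simp <;> linarith
    · exact o b a h
  obtain ⟨i, j, hij, h⟩ := s1
  have s2 : ∀ a b, a ≠ b → Ee a b ∈ U' := fun a b hab => by
    by_cases h1 : b = i
    · subst h1
      by_cases h2 : a = j
      · subst h2
        obtain ⟨k, k1, k2⟩ : ∃ k : Fin 3, k ≠ a ∧ k ≠ b :=
          (by decide : ∀ a b : Fin 3, ∃ k : Fin 3, k ≠ a ∧ k ≠ b) a b
        exact row a k b k1.symm hij (col b k a k2.symm k1.symm (row b a k hij k2 h))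
      · exact row a j b h2 hab.symm (col b j a hij h2 h)
    · exact col i b a (Ne.symm h1) hab (row i j b hij h1 h)
  have s3 : ∀ a b, a ≠ b → Ee a a - Ee b b ∈ U' := fun a b hab => by
    simpa [Ee] using c1 a b hab _ (s2 b a hab.symm)
  rw [eq_top_iff]
  intro w _
  have : dec w = w 0 • (Ee 0 0 - Ee 2 2) + w 4 • (Ee 1 1 - Ee 2 2) + w 1 • Ee 0 1 + w 2 • Ee 0 2 +
      w 3 • Ee 1 0 + w 5 • Ee 1 2 + w 6 • Ee 2 0 + w 7 • Ee 2 1 := by
    ext a b; fin_cases a <;> fin_cases b <;> simp [dec, Ee]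
    ring
  have hw : dec w ∈ U' := by
    rw [this]
    repeat' apply U'.add_mem
    all_goals apply U'.smul_mem
    all_goals first | exact s3 _ _ (by decide) | exact s2 _ _ (by decide)
  rw [← enc_dec w]
  exact hw.1

lemma dim_ne (p : ℕ) : Module.finrank ℝ (MvPolynomial.homogeneousSubmodule (Fin 3) ℝ p) ≠ 8 := by
  have e : MvPolynomial.homogeneousSubmodule (Fin 3) ℝ p =
      MvPolynomial.restrictSupport ℝ ↑((Finset.univ : Finset (Fin 3)).finsuppAntidiag p) := by
    rw [MvPolynomial.homogeneousSubmodule_eq_finsupp_supported, MvPolynomial.restrictSupport]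
    congr 1
    ext d
    simp [Finsupp.degree_eq_sum]
  rw [e, Module.finrank_eq_card_basis (MvPolynomial.basisRestrictSupport ℝ _)]
  simp only [Finset.coe_sort_coe, Fintype.card_coe, Finset.card_finsuppAntidiag_nat_eq_choose,
    Finset.card_univ, Fintype.card_fin]
  rw [show 3 + p - 1 = p + 2 by omega, Nat.choose_symm_add, Nat.choose_two_right]
  intro h
  have h1 : (p + 2) * (p + 2 - 1) = 16 ∨ (p + 2) * (p + 2 - 1) = 17 := by omega
  rw [show p + 2 - 1 = p + 1 by omega] at h1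
  have : p < 3 := by rcases h1 with h1 | h1 <;> nlinarith
  interval_cases p <;> omega

noncomputable def wm {n : ℕ} (p : V n × V n) : Matrix (Fin n) (Fin n) ℝ :=
  vecMulVec p.1 p.2 - ((p.1 ⬝ᵥ p.2) / n) • (1 : Matrix (Fin n) (Fin n) ℝ)

lemma wm_tr {n : ℕ} (hn : 2 ≤ n) (p : V n × V n) : (wm p).trace = 0 := by
  have : (n : ℝ) ≠ 0 := by exact_mod_cast (by omega : n ≠ 0)
  simp [wm, trace_vecMulVec, this]

lemma wm_cont {n : ℕ} : Continuous (wm (n := n)) := by
  refine continuous_matrix fun i j => ?_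
  simp only [wm, Matrix.sub_apply, vecMulVec_apply, Matrix.smul_apply, smul_eq_mul]
  fun_prop

lemma wm_eq {n : ℕ} {A B : Matrix (Fin n) (Fin n) ℝ} (h : A * B = 1) (x u : V n) :
    wm (A *ᵥ x, Bᵀ *ᵥ u) = A * wm (x, u) * B := by
  have e : (A *ᵥ x) ⬝ᵥ (Bᵀ *ᵥ u) = x ⬝ᵥ u := by
    rw [adj, mulVec_mulVec, ← transpose_mul, mul_eq_one_comm.1 h, transpose_one, one_mulVec]
  simp only [wm, e]
  simp only [Matrix.mul_sub, Matrix.sub_mul, Matrix.mul_smul, Matrix.smul_mul, mul_one, h,
    mul_vecMulVec, vecMulVec_mul, mulVec_transpose]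

lemma wm_ne {n : ℕ} (hn : 2 ≤ n) {x u : V n} (h : x ⬝ᵥ u = 1) : wm (x, u) ≠ 0 := by
  intro h0
  have hn0 : (n : ℝ) ≠ 0 := by exact_mod_cast (by omega : n ≠ 0)
  have h1 := congrArg (fun A => u ⬝ᵥ (A *ᵥ x)) h0
  simp only [wm, h, sub_mulVec, vecMulVec_mulVec, smul_mulVec, one_mulVec, zero_mulVec,
    dotProduct_zero, dotProduct_sub, dotProduct_smul, dotProduct_comm u x] at h1
  simp at h1
  field_simp at h1
  have : (2 : ℝ) ≤ n := by exact_mod_cast hn
  linarith

end Pool.Agent.H81.Mink
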