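import Mathlib
import Pool.Agent.H81.Maclaurin

set_option autoImplicit false

namespace Pool.Agent.H81.Minors

open Finset Matrix Polynomial Pool.Agent.H81.Maclaurin

/-- sum of principal minors -/
noncomputable def SM {n : Type} [Fintype n] [DecidableEq n] (k : ℕ) (M : Matrix n n ℝ) : ℝ :=
  ∑ s ∈ univ.powersetCard k, (M.submatrix (Subtype.val : s → n) (Subtype.val : s → n)).det

lemma SM_comm {m n : Type} [Fintype m] [DecidableEq m] [Fintype n] [DecidableEq n] (k : ℕ)
    (A : Matrix m n ℝ) (B : Matrix n m ℝ) : SM k (A * B) = SM k (B * A) := by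
  unfold SM
  rw [← coeff_det_one_add_X_smul_eq_sum_minors, ← coeff_det_one_add_X_smul_eq_sum_minors,
    Matrix.map_mul, Matrix.map_mul, ← Matrix.smul_mul, det_one_add_mul_comm, Matrix.mul_smul]

lemma SM_diag {n : Type} [Fintype n] [DecidableEq n] (k : ℕ) (l : n → ℝ) :
    SM k (diagonal l) = es k univ l := by
  unfold SM es
  refine sum_congr rfl fun s _ => ?_
  rw [submatrix_diagonal _ _ Subtype.val_injective, det_diagonal]
  exact prod_coe_sort s l

lemma spectral {n : Type} [Fintype n] [DecidableEq n] {H : Matrix n n ℝ} (hH : H.PosSemidef) :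
    ∃ l : n → ℝ, (∀ i, 0 ≤ l i) ∧ ∑ i, l i = H.trace ∧ (∀ k, SM k H = es k univ l) ∧
      ∀ c : ℝ, (∀ i, l i = c) → H = c • (1 : Matrix n n ℝ) := by
  have h := hH.1.spectral_theorem
  rw [Unitary.conjStarAlgAut_apply] at h
  have hU : star (hH.1.eigenvectorUnitary : Matrix n n ℝ) * hH.1.eigenvectorUnitary = 1 :=
    Unitary.coe_star_mul_self _
  have hU' : (hH.1.eigenvectorUnitary : Matrix n n ℝ) *
      star (hH.1.eigenvectorUnitary : Matrix n n ℝ) = 1 := Unitary.coe_mul_star_self _
  refine ⟨hH.1.eigenvalues, hH.eigenvalues_nonneg, ?_, fun k => ?_, fun c hc => ?_⟩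
  · simpa using hH.1.trace_eq_sum_eigenvalues.symm
  · conv_lhs => rw [h]
    rw [SM_comm, ← Matrix.mul_assoc, hU, Matrix.one_mul, SM_diag]
    rfl
  · have : diagonal (RCLike.ofReal ∘ hH.1.eigenvalues) = c • (1 : Matrix n n ℝ) := by
      ext i j
      by_cases hij : i = j
      · subst hij; simp [hc]
      · simp [hij]
    rw [h, this, Matrix.mul_smul, Matrix.smul_mul, Matrix.mul_one, hU']

variable {d n : ℕ}

/-- matrix of columns -/
def col (p : Fin n → EuclideanSpace ℝ (Fin d)) : Matrix (Fin d) (Fin n) ℝ :=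
  Matrix.of fun a i => p i a

lemma gram (p : Fin n → EuclideanSpace ℝ (Fin d)) (i j : Fin n) :
    ((col p)ᵀ * col p) i j = inner ℝ (p i) (p j) := by
  simp [col, Matrix.mul_apply, PiLp.inner_apply, mul_comm]

/-- sum of the `k`-volumes -/
noncomputable def Vk (k : ℕ) (p : Fin n → EuclideanSpace ℝ (Fin d)) : ℝ :=
  ∑ I ∈ (univ : Finset (Fin n)).powersetCard k,
    √(Matrix.det (Matrix.of fun i j : I => inner ℝ (p i) (p j)))

noncomputable def bb (p : Fin n → EuclideanSpace ℝ (Fin d)) (i : Fin n) :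
    EuclideanSpace ℝ (Fin d) := (√‖p i‖)⁻¹ • p i

lemma bb_eq (p : Fin n → EuclideanSpace ℝ (Fin d)) (i : Fin n) : p i = √‖p i‖ • bb p i := by
  unfold bb
  by_cases h : p i = 0
  · simp [h]
  · have : √‖p i‖ ≠ 0 := (Real.sqrt_pos.2 (norm_pos_iff.2 h)).ne'
    rw [smul_smul, mul_inv_cancel₀ this, one_smul]

lemma bb_inner (p : Fin n → EuclideanSpace ℝ (Fin d)) (i : Fin n) :
    inner ℝ (bb p i) (bb p i) = ‖p i‖ := by
  by_cases h : p i = 0
  · simp [h, bb]
  · have h1 : 0 < ‖p i‖ := norm_pos_iff.2 h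
    have h2 : √‖p i‖ ≠ 0 := (Real.sqrt_pos.2 h1).ne'
    have h3 := Real.mul_self_sqrt h1.le
    unfold bb
    rw [inner_smul_left, inner_smul_right, real_inner_self_eq_norm_sq]
    simp only [conj_trivial]
    field_simp
    nlinarith

lemma Vk_le (k : ℕ) (p : Fin n → EuclideanSpace ℝ (Fin d)) :
    Vk k p ≤ √(es k univ fun i => ‖p i‖) * √(SM k (col (bb p) * (col (bb p))ᵀ)) := by
  rw [SM_comm]
  unfold Vk SM es
  have hps : ((col (bb p))ᵀ * col (bb p)).PosSemidef := by
    simpa using posSemidef_conjTranspose_mul_self (col (bb p))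
  refine le_trans (le_of_eq ?_) (Real.sum_sqrt_mul_sqrt_le _
    (fun I => prod_nonneg fun i _ => norm_nonneg _)
    (fun I => (hps.submatrix _).det_nonneg))
  refine sum_congr rfl fun I _ => ?_
  rw [← Real.sqrt_mul (prod_nonneg fun i _ => norm_nonneg _)]
  congr 1
  have : (Matrix.of fun i j : I => inner ℝ (p i) (p j)) =
      diagonal (fun i : I => √‖p i‖) * (((col (bb p))ᵀ * col (bb p)).submatrix Subtype.val
        Subtype.val) * diagonal (fun i : I => √‖p i‖) := by
    ext i j
    rw [mul_diagonal, diagonal_mul, submatrix_apply, gram, of_apply]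
    conv_lhs => rw [bb_eq p i, bb_eq p j, inner_smul_left, inner_smul_right]
    simp only [conj_trivial]
    ring
  rw [this, det_mul, det_mul, det_diagonal, mul_comm, ← mul_assoc, ← prod_mul_distrib,
    ← prod_coe_sort I fun i => ‖p i‖]
  congr 1
  exact prod_congr rfl fun i _ => Real.mul_self_sqrt (norm_nonneg _)

/-- the explicit regular simplex -/
noncomputable def reg (d : ℕ) (s : ℝ) : Fin (d + 1) → EuclideanSpace ℝ (Fin d) :=
  Fin.cons (WithLp.toLp 2 fun _ => -s * (√(d + 1))⁻¹)
    fun i => WithLp.toLp 2 fun a => s * ((if a = i then 1 else 0) + ((√(d + 1))⁻¹ - 1) / d)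

lemma reg_inner (hd : 0 < d) (s : ℝ) (i j : Fin (d + 1)) :
    inner ℝ (reg d s i) (reg d s j) = s ^ 2 * ((if i = j then 1 else 0) - 1 / (d + 1)) := by
  have hd' : (0 : ℝ) < d := by exact_mod_cast hd
  have hr : (√((d : ℝ) + 1))⁻¹ ^ 2 = 1 / (d + 1) := by
    rw [inv_pow, Real.sq_sqrt (by positivity), one_div]
  rw [← hr]
  have hr' : ((d : ℝ) + 1) * (√((d : ℝ) + 1))⁻¹ ^ 2 = 1 := by rw [hr]; field_simp
  unfold reg
  generalize (√((d : ℝ) + 1))⁻¹ = r at *
  refine Fin.cases ?_ (fun i => ?_) i <;> refine Fin.cases ?_ (fun j => ?_) j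
  · simp only [Fin.cons_zero, PiLp.inner_apply, RCLike.inner_apply, conj_trivial, sum_const,
      card_univ, Fintype.card_fin, nsmul_eq_mul, if_true]
    linear_combination s ^ 2 * hr'
  · simp [PiLp.inner_apply, mul_add, add_mul, sum_add_distrib, (Fin.succ_ne_zero j).symm]
    field_simp
    ring
  · simp [PiLp.inner_apply, mul_add, add_mul, sum_add_distrib]
    field_simp
    ring
  · simp only [Fin.cons_succ, PiLp.inner_apply, Fin.succ_inj]
    have e : ∀ a : Fin d, inner ℝ (s * ((if a = i then 1 else 0) + (r - 1) / d))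
        (s * ((if a = j then 1 else 0) + (r - 1) / d)) =
        s ^ 2 * ((if a = i then (if i = j then 1 else 0) else 0) +
          (if a = i then (r - 1) / d else 0) + (if a = j then (r - 1) / d else 0) +
            ((r - 1) / d) ^ 2) := by
      intro a
      simp only [RCLike.inner_apply, conj_trivial]
      by_cases h1 : a = i <;> by_cases h2 : a = j <;> by_cases h3 : i = j <;>
        simp_all <;> ring
    simp only [e, ← mul_sum, sum_add_distrib, sum_ite_eq', mem_univ, if_true, sum_const,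
      card_univ, Fintype.card_fin, nsmul_eq_mul]
    congr 1
    field_simp
    linear_combination hr'

lemma reg_norm (hd : 0 < d) {s : ℝ} (hs : 0 < s) (i : Fin (d + 1)) :
    ‖reg d s i‖ = s * √(d / (d + 1)) := by
  have h := reg_inner hd s i i
  rw [real_inner_self_eq_norm_sq, if_pos rfl] at h
  refine (sq_eq_sq₀ (norm_nonneg _) (by positivity)).1 ?_
  rw [h, mul_pow, Real.sq_sqrt (by positivity)]
  field_simp
  ring

lemma reg_span (hd : 0 < d) {s : ℝ} (hs : 0 < s) :
    Submodule.span ℝ (Set.range (reg d s)) = ⊤ := by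
  have hr : (√((d : ℝ) + 1))⁻¹ ≠ 0 := by positivity
  have m : ∀ i, reg d s i ∈ Submodule.span ℝ (Set.range (reg d s)) :=
    fun i => Submodule.subset_span ⟨i, rfl⟩
  refine eq_top_iff.2 fun x _ => ?_
  rw [← (EuclideanSpace.basisFun (Fin d) ℝ).sum_repr x]
  refine Submodule.sum_mem _ fun i _ => Submodule.smul_mem _ _ ?_
  have : EuclideanSpace.basisFun (Fin d) ℝ i = s⁻¹ • reg d s i.succ +
      (s⁻¹ * (((√((d : ℝ) + 1))⁻¹ - 1) / d) / (√((d : ℝ) + 1))⁻¹) • reg d s 0 := by
    ext a
    unfold reg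
    generalize (√((d : ℝ) + 1))⁻¹ = r at *
    simp [Pi.single_apply]
    field_simp
    ring
  rw [this]
  exact add_mem (Submodule.smul_mem _ _ (m _)) (Submodule.smul_mem _ _ (m _))

lemma reg_V (hd : 0 < d) (s : ℝ) {k : ℕ} (hk : k ≤ d) :
    Vk k (reg d s) ^ 2 = ((d + 1).choose k : ℝ) * d.choose k * (s ^ 2) ^ k := by
  have hd' : (0 : ℝ) < d := by exact_mod_cast hd
  have hk' : (k : ℝ) ≤ d := by exact_mod_cast hk
  have h : ∀ I ∈ (univ : Finset (Fin (d + 1))).powersetCard k,
      √(Matrix.det (Matrix.of fun i j : I => inner ℝ (reg d s i) (reg d s j))) =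
        √((s ^ 2) ^ k * (1 - k / (d + 1))) := by
    intro I hI
    have hc : Fintype.card I = k := by simpa using (mem_powersetCard.1 hI).2
    congr 1
    have : (Matrix.of fun i j : I => inner ℝ (reg d s i) (reg d s j)) = (s ^ 2) •
        (1 + replicateCol Unit (fun _ : I => (-1 / (d + 1) : ℝ)) *
          replicateRow Unit (fun _ : I => (1 : ℝ))) := by
      ext i j
      simp only [of_apply, reg_inner hd, Matrix.mul_apply, one_apply, Matrix.smul_apply,
        Matrix.add_apply, smul_eq_mul, replicateCol_apply, replicateRow_apply, Subtype.coe_inj,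
        sum_const, card_univ, Fintype.card_unit]
      ring
    rw [this, det_smul, det_one_add_replicateCol_mul_replicateRow, hc]
    simp only [dotProduct, sum_const, card_univ, hc, nsmul_eq_mul]
    ring
  have h0 : 0 ≤ 1 - (k : ℝ) / (d + 1) := by
    rw [sub_nonneg, div_le_one (by positivity)]; linarith
  unfold Vk
  rw [sum_congr rfl h, sum_const, card_powersetCard, card_univ, Fintype.card_fin, nsmul_eq_mul,
    mul_pow, Real.sq_sqrt (by positivity)]
  have h2 : (d.choose k : ℝ) * (d + 1) = ((d + 1).choose k : ℝ) * (d + 1 - k) := by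
    have := congrArg (Nat.cast : ℕ → ℝ) (Nat.choose_mul_succ_eq d k)
    push_cast [Nat.cast_sub (by omega : k ≤ d + 1)] at this
    exact this
  field_simp
  linear_combination (-((d + 1).choose k : ℝ) * (s ^ 2) ^ k) * h2

/-- the equality case: equal norms and tight frame -/
lemma tight {k : ℕ} (hk : 2 ≤ k) (hkd : k ≤ d) (p : Fin (d + 1) → EuclideanSpace ℝ (Fin d))
    {S : ℝ} (hS : 0 < S) (hp : ∑ i, ‖p i‖ = S)
    (h : ((d + 1).choose k : ℝ) * d.choose k * (S ^ 2 / (d * (d + 1))) ^ k ≤ Vk k p ^ 2) :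
    (∀ i, ‖p i‖ = S / (d + 1)) ∧
      col p * (col p)ᵀ = (S ^ 2 / (d * (d + 1))) • (1 : Matrix (Fin d) (Fin d) ℝ) := by
  have hd' : (0 : ℝ) < d := by exact_mod_cast (by omega : 0 < d)
  have hps : (col (bb p) * (col (bb p))ᵀ).PosSemidef := by
    simpa using posSemidef_self_mul_conjTranspose (col (bb p))
  obtain ⟨l, l0, l1, l2, l3⟩ := spectral hps
  have htr : ∑ i, l i = S := by
    rw [l1, trace_mul_comm, ← hp, trace]
    exact sum_congr rfl fun i _ => by rw [diag_apply, gram, bb_inner]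
  have a1 := mac univ (fun i => ‖p i‖) (fun i _ => norm_nonneg _) k
  have a2 := mac univ l (fun i _ => l0 i) k
  have b1 := mac_eq univ (fun i => ‖p i‖) (fun i _ => norm_nonneg _) k hk (by simp; omega)
    (by rw [hp]; exact hS)
  have b2 := mac_eq univ l (fun i _ => l0 i) k hk (by simpa using hkd) (by rw [htr]; exact hS)
  rw [hp, card_univ, Fintype.card_fin] at a1 b1
  rw [htr, card_univ, Fintype.card_fin] at a2 b2
  push_cast at a1 b1
  have e1 : 0 ≤ es k univ fun i => ‖p i‖ :=
    sum_nonneg fun I _ => prod_nonneg fun i _ => norm_nonneg _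
  have e2 : 0 ≤ es k univ l := sum_nonneg fun I _ => prod_nonneg fun i _ => l0 i
  have hv := Vk_le k p
  rw [l2] at hv
  have hv0 : 0 ≤ Vk k p := sum_nonneg fun I _ => Real.sqrt_nonneg _
  have hv2 := pow_le_pow_left₀ hv0 hv 2
  rw [mul_pow, Real.sq_sqrt e1, Real.sq_sqrt e2] at hv2
  have c1 : (0 : ℝ) < (d + 1).choose k := by exact_mod_cast Nat.choose_pos (by omega)
  have c2 : (0 : ℝ) < d.choose k := by exact_mod_cast Nat.choose_pos hkd
  have p1 : 0 < ((d + 1).choose k : ℝ) * (S / (d + 1)) ^ k := by positivity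
  have p2 : 0 < (d.choose k : ℝ) * (S / d) ^ k := by positivity
  have key : ((d + 1).choose k : ℝ) * (S / (d + 1)) ^ k * ((d.choose k : ℝ) * (S / d) ^ k) ≤
      (es k univ fun i => ‖p i‖) * es k univ l := by
    refine le_trans (le_of_eq ?_) (h.trans hv2)
    rw [show S ^ 2 / (d * (d + 1)) = S / (d + 1) * (S / d) by field_simp, mul_pow]
    ring
  have n1 := b1 (by
    by_contra hlt
    push Not at hlt
    nlinarith)
  have n2 := l3 _ fun i => b2 (by
    by_contra hlt
    push Not at hlt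
    nlinarith) i (mem_univ _)
  refine ⟨fun i => n1 i (mem_univ _), ?_⟩
  have : col p = √(S / (d + 1)) • col (bb p) := by
    ext a i
    have := congrArg (fun x : EuclideanSpace ℝ (Fin d) => x a) (bb_eq p i)
    rw [n1 i (mem_univ _)] at this
    simpa [col] using this
  rw [this, transpose_smul, Matrix.smul_mul, Matrix.mul_smul, n2, smul_smul, smul_smul,
    Real.mul_self_sqrt (by positivity)]
  congr 1
  field_simp

lemma sq_eq_one_iff_of_ne_zero' {x : ℝ} (h : x ^ 2 = 1) : x = 1 ∨ x = -1 := by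
  simpa using h

lemma signs (hd : 0 < d) (p : Fin (d + 1) → EuclideanSpace ℝ (Fin d)) {c : ℝ} (hc : 0 < c)
    (hn : ∀ i, ‖p i‖ ^ 2 = c * (d / (d + 1)))
    (hp : col p * (col p)ᵀ = c • (1 : Matrix (Fin d) (Fin d) ℝ)) :
    ∃ ε : Fin (d + 1) → ℝ, (∀ i, ε i = 1 ∨ ε i = -1) ∧ ∑ i, ε i • p i = 0 ∧
      ∀ i j, i ≠ j → dist (ε i • p i) (ε j • p j) = √(2 * c) := by
  have hd' : (0 : ℝ) < d := by exact_mod_cast hd
  have hdep : ¬ LinearIndependent ℝ p := fun h => by
    have := h.fintype_card_le_finrank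
    simp at this
  obtain ⟨l, hl, i0, hi0⟩ := Fintype.not_linearIndependent_iff.1 hdep
  have hN : 0 < ∑ i, l i ^ 2 :=
    sum_pos' (fun i _ => sq_nonneg _) ⟨i0, mem_univ _, by positivity⟩
  obtain ⟨v, hv1, hv0⟩ : ∃ v : Fin (d + 1) → ℝ, ∑ i, v i * v i = 1 ∧ ∑ i, v i • p i = 0 := by
    refine ⟨fun i => (√(∑ i, l i ^ 2))⁻¹ * l i, ?_, ?_⟩
    · have : ∀ i, (√(∑ i, l i ^ 2))⁻¹ * l i * ((√(∑ i, l i ^ 2))⁻¹ * l i) =
          (∑ i, l i ^ 2)⁻¹ * l i ^ 2 := fun i => by
        conv_rhs => rw [← Real.mul_self_sqrt hN.le]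
        rw [mul_inv]; ring
      simp only [this, ← mul_sum]
      exact inv_mul_cancel₀ hN.ne'
    · simp only [mul_smul, ← smul_sum, hl, smul_zero]
  have hv0' : ∀ a, ∑ i, v i * p i a = 0 := fun a => by
    have := congrArg (fun x : EuclideanSpace ℝ (Fin d) => x a) hv0
    simpa using this
  let A : Matrix (Fin (d + 1)) (Fin (d + 1)) ℝ := Matrix.of (Fin.cons v fun a i => p i a)
  let B : Matrix (Fin (d + 1)) (Fin (d + 1)) ℝ := Matrix.of (Fin.cons v fun a i => c⁻¹ * p i a)
  have hAB : A * Bᵀ = 1 := by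
    ext r t
    refine Fin.cases ?_ (fun a => ?_) r <;> refine Fin.cases ?_ (fun b => ?_) t
    · simpa [A, B, Matrix.mul_apply] using hv1
    · simp only [A, B, Matrix.mul_apply, transpose_apply, of_apply, Fin.cons_zero, Fin.cons_succ,
        one_apply, (Fin.succ_ne_zero b).symm, if_false]
      simp only [mul_left_comm _ c⁻¹, ← mul_sum, hv0' b, mul_zero]
    · simp only [A, B, Matrix.mul_apply, transpose_apply, of_apply, Fin.cons_zero, Fin.cons_succ,
        one_apply, Fin.succ_ne_zero a, if_false]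
      simp only [mul_comm _ (v _), hv0' a]
    · have := congrFun (congrFun hp a) b
      simp only [col, Matrix.mul_apply, transpose_apply, of_apply, Matrix.smul_apply, one_apply,
        smul_eq_mul] at this
      simp only [A, B, Matrix.mul_apply, transpose_apply, of_apply, Fin.cons_succ,
        one_apply, Fin.succ_inj]
      simp only [mul_left_comm _ c⁻¹, ← mul_sum, this]
      field_simp
  have hBA := mul_eq_one_comm.1 hAB
  have e : ∀ i j, c * (v i * v j) + inner ℝ (p i) (p j) = c * (if i = j then 1 else 0) := by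
    intro i j
    have := congrFun (congrFun hBA i) j
    simp only [A, B, Matrix.mul_apply, transpose_apply, of_apply, Fin.sum_univ_succ,
      Fin.cons_zero, Fin.cons_succ, one_apply, mul_assoc, ← mul_sum] at this
    rw [← this, mul_add, ← mul_assoc c c⁻¹, mul_inv_cancel₀ hc.ne', one_mul]
    simp [PiLp.inner_apply, mul_comm]
  have hr : (√((d : ℝ) + 1)) ^ 2 = d + 1 := Real.sq_sqrt (by positivity)
  have hv2 : ∀ i, (√((d : ℝ) + 1) * v i) ^ 2 = 1 := fun i => by
    have := e i i
    rw [real_inner_self_eq_norm_sq, hn, if_pos rfl] at this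
    rw [mul_pow, hr]
    field_simp at this
    linarith
  refine ⟨fun i => √((d : ℝ) + 1) * v i, fun i => sq_eq_one_iff_of_ne_zero' (hv2 i), ?_,
    fun i j hij => ?_⟩
  · simp only [mul_smul, ← smul_sum, hv0, smul_zero]
  · refine (sq_eq_sq₀ dist_nonneg (Real.sqrt_nonneg _)).1 ?_
    have := e i j
    rw [if_neg hij] at this
    have h1 := hv2 i
    have h2 := hv2 j
    rw [dist_eq_norm, norm_sub_sq_real, norm_smul, norm_smul, mul_pow, mul_pow, Real.norm_eq_abs,
      Real.norm_eq_abs, sq_abs, sq_abs, h1, h2, hn, hn, inner_smul_left, inner_smul_right,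
      Real.sq_sqrt (by positivity)]
    simp only [conj_trivial]
    have h3 : inner ℝ (p i) (p j) = -c * (v i * v j) := by linarith
    rw [h3]
    rw [mul_pow, hr] at h1 h2
    have h4 : √((d : ℝ) + 1) * v i * (√((d : ℝ) + 1) * v j * (-c * (v i * v j))) =
        -c * (d + 1) * (v i ^ 2 * v j ^ 2) := by
      linear_combination (-c * (v i ^ 2 * v j ^ 2)) * hr
    have h5 : v i ^ 2 = 1 / (d + 1) := by field_simp; linarith
    have h6 : v j ^ 2 = 1 / (d + 1) := by field_simp; linarith
    rw [h4, h5, h6]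
    field_simp
    ring

end Pool.Agent.H81.Minors
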