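import Mathlib

namespace Pool.Agent.H81.Multifocal

open Metric Set MeasureTheory

abbrev P := EuclideanSpace ℝ (Fin 2)

noncomputable def pa : P := !₂[1, 0]
noncomputable def pb : P := !₂[-1, 0]
noncomputable def pt (R : ℝ) : P := !₂[0, R]

noncomputable def g (x : P) : ℝ := dist x pa + dist x pb - x 1
noncomputable def gR (R : ℝ) (x : P) : ℝ := dist x pa + dist x pb + dist x (pt R) - R

theorem dsq (p q : P) : dist p q ^ 2 = (p 0 - q 0) ^ 2 + (p 1 - q 1) ^ 2 := by
  rw [EuclideanSpace.dist_eq, Real.sq_sqrt (by positivity), Fin.sum_univ_two]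
  simp [Real.dist_eq, sq_abs]

theorem nsq (p : P) : ‖p‖ ^ 2 = p 0 ^ 2 + p 1 ^ 2 := by
  have := dsq p 0
  simpa using this

theorem g_cont : Continuous g := by unfold g; fun_prop

theorem gR_cont (R : ℝ) : Continuous (gR R) := by unfold gR; fun_prop

theorem g_convex : ConvexOn ℝ univ g := by
  have h1 := convexOn_dist pa (convex_univ (E := P))
  have h2 := convexOn_dist pb (convex_univ (E := P))
  have h3 : ConcaveOn ℝ univ (fun x : P => x 1) :=
    (EuclideanSpace.proj (𝕜 := ℝ) (1 : Fin 2)).toLinearMap.concaveOn convex_univ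
  exact (h1.add h2).sub h3

theorem norm_le_g (x : P) : ‖x‖ ≤ g x := by
  have h1 : 2 * ‖x‖ ≤ dist x pa + dist x pb := by
    have e : (2 : ℝ) • x = (x - pa) + (x - pb) := by
      ext i; fin_cases i <;> simp [pa, pb] <;> ring
    have := norm_add_le (x - pa) (x - pb)
    rw [← e, norm_smul] at this
    simpa [dist_eq_norm] using this
  have h2 : x 1 ≤ ‖x‖ := by
    apply abs_le_of_sq_le_sq' _ (norm_nonneg _) |>.2
    rw [nsq]; nlinarith [sq_nonneg (x 0)]
  unfold g; linarith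

theorem g_le_gR (R : ℝ) (x : P) : g x ≤ gR R x := by
  have h : R - x 1 ≤ dist x (pt R) := by
    apply abs_le_of_sq_le_sq' _ dist_nonneg |>.2
    rw [dsq]; simp [pt]; nlinarith [sq_nonneg (x 0)]
  unfold g gR; linarith

theorem gR_le (R : ℝ) (hR : 0 < R) (x : P) : gR R x ≤ g x + ‖x‖ ^ 2 / (2 * R) := by
  have h : dist x (pt R) ≤ R - x 1 + ‖x‖ ^ 2 / (2 * R) := by
    have h1 : 2 * R * dist x (pt R) ≤ R ^ 2 + dist x (pt R) ^ 2 := by
      nlinarith [sq_nonneg (R - dist x (pt R))]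
    have h2 : dist x (pt R) ^ 2 = ‖x‖ ^ 2 - 2 * R * x 1 + R ^ 2 := by
      rw [dsq, nsq]; simp [pt]; ring
    rw [h2] at h1
    have h3 : R - x 1 + ‖x‖ ^ 2 / (2 * R) = (R ^ 2 + (‖x‖ ^ 2 - 2 * R * x 1 + R ^ 2)) / (2 * R) := by
      field_simp; ring
    rw [h3, le_div_iff₀ (by positivity)]
    linarith
  unfold g gR; linarith

theorem g_o : g (pt (1 / 2)) ≤ 7 / 4 := by
  have h1 : dist (pt (1 / 2)) pa ≤ 9 / 8 := by
    apply abs_le_of_sq_le_sq' _ (by norm_num) |>.2
    rw [dsq]; simp [pt, pa]; norm_num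
  have h2 : dist (pt (1 / 2)) pb ≤ 9 / 8 := by
    apply abs_le_of_sq_le_sq' _ (by norm_num) |>.2
    rw [dsq]; simp [pt, pb]; norm_num
  have h3 : pt (1 / 2) 1 = 1 / 2 := by simp [pt]
  unfold g; linarith

theorem norm_o : ‖pt (1 / 2)‖ ≤ 1 / 2 := by
  apply abs_le_of_sq_le_sq' _ (by norm_num) |>.2
  rw [nsq]; simp [pt]

theorem g_ray (x : P) {s t : ℝ} (hs : 0 ≤ s) (hs1 : s ≤ 1) :
    g (pt (1 / 2) + (s * t) • (x - pt (1 / 2))) ≤
      (1 - s) * (7 / 4) + s * g (pt (1 / 2) + t • (x - pt (1 / 2))) := by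
  have h := g_convex.2 (mem_univ (pt (1 / 2))) (mem_univ (pt (1 / 2) + t • (x - pt (1 / 2))))
    (show 0 ≤ 1 - s by linarith) hs (by ring)
  have e : (1 - s) • pt (1 / 2) + s • (pt (1 / 2) + t • (x - pt (1 / 2))) =
      pt (1 / 2) + (s * t) • (x - pt (1 / 2)) := by module
  rw [e, smul_eq_mul, smul_eq_mul] at h
  have := mul_le_mul_of_nonneg_left g_o (show 0 ≤ 1 - s by linarith)
  linarith

theorem dist_ray (x : P) (hx : ‖x‖ ≤ 2) (t : ℝ) :
    dist x (pt (1 / 2) + t • (x - pt (1 / 2))) ≤ |1 - t| * (5 / 2) := by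
  have e : x - (pt (1 / 2) + t • (x - pt (1 / 2))) = (1 - t) • (x - pt (1 / 2)) := by module
  rw [dist_eq_norm, e, norm_smul, Real.norm_eq_abs]
  have := norm_sub_le x (pt (1 / 2))
  have := norm_o
  gcongr
  linarith

theorem frontier_eq : frontier {x | g x ≤ 2} = {x | g x = 2} := by
  apply Subset.antisymm
  · exact frontier_le_subset_eq g_cont continuous_const
  · intro x hx
    have hx' : g x = 2 := hx
    refine ⟨subset_closure hx'.le, fun hi => ?_⟩
    have hc : Continuous fun t : ℝ => pt (1 / 2) + t • (x - pt (1 / 2)) := by fun_prop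
    have h1 : ∀ᶠ t in nhds (1 : ℝ), pt (1 / 2) + t • (x - pt (1 / 2)) ∈ {x | g x ≤ 2} := by
      apply hc.continuousAt.preimage_mem_nhds
      simpa using mem_interior_iff_mem_nhds.1 hi
    obtain ⟨t, ht1, ht⟩ := ((h1.filter_mono (nhdsWithin_le_nhds (s := Ioi 1))).and
      self_mem_nhdsWithin).exists
    have ht' : 1 < t := ht
    have h2 := g_ray x (s := 1 / t) (t := t) (by positivity) (by rw [div_le_one (by linarith)]; linarith)
    rw [one_div_mul_cancel (by linarith), one_smul, add_sub_cancel, hx'] at h2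
    have h3 : g (pt (1 / 2) + t • (x - pt (1 / 2))) ≤ 2 := ht1
    have h4 : 1 / t < 1 := by rw [div_lt_one (by linarith)]; linarith
    have h5 : 0 < 1 / t := by positivity
    nlinarith

theorem K_compact : IsCompact {x | g x ≤ 2} := by
  refine (isCompact_closedBall (0 : P) 2).of_isClosed_subset (isClosed_le g_cont continuous_const) ?_
  intro x hx
  simpa using (norm_le_g x).trans hx

theorem K_convex : Convex ℝ {x | g x ≤ 2} := by
  simpa using g_convex.convex_le 2

theorem K_int : (interior {x | g x ≤ 2}).Nonempty := by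
  refine ⟨pt (1 / 2), ?_⟩
  have h : {x | g x < 2} ⊆ interior {x | g x ≤ 2} :=
    interior_maximal (fun x (hx : g x < 2) => hx.le) (isOpen_lt g_cont continuous_const)
  apply h
  have := g_o
  show g _ < 2
  linarith

theorem near1 {R : ℝ} (hR : 16 ≤ R) {x : P} (hx : gR R x = 2) :
    ∃ y, g y = 2 ∧ dist x y ≤ 40 / R := by
  have hR0 : 0 < R := by linarith
  have h1 : g x ≤ 2 := hx ▸ g_le_gR R x
  have h2 : ‖x‖ ≤ 2 := (norm_le_g x).trans h1
  have h3 : 2 - 2 / R ≤ g x := by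
    have h4 := gR_le R hR0 x
    have h5 : ‖x‖ ^ 2 / (2 * R) ≤ 2 / R := by
      rw [div_le_div_iff₀ (by positivity) hR0]
      have : ‖x‖ ^ 2 ≤ 4 := by nlinarith [norm_nonneg x]
      nlinarith
    linarith
  set η := 2 / R with hη
  have hη0 : 0 < η := by positivity
  have hη1 : η ≤ 1 / 8 := by rw [hη, div_le_iff₀ hR0]; linarith
  have hc : Continuous fun t : ℝ => g (pt (1 / 2) + t • (x - pt (1 / 2))) :=
    g_cont.comp (by fun_prop)
  have hle : (1 : ℝ) ≤ 1 + 8 * η := by linarith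
  have h6 : 2 ≤ g (pt (1 / 2) + (1 + 8 * η) • (x - pt (1 / 2))) := by
    have h7 := g_ray x (s := 1 / (1 + 8 * η)) (t := 1 + 8 * η) (by positivity)
      (by rw [div_le_one (by linarith)]; linarith)
    rw [one_div_mul_cancel (by linarith), one_smul, add_sub_cancel] at h7
    set G := g (pt (1 / 2) + (1 + 8 * η) • (x - pt (1 / 2)))
    have h8 : (1 + 8 * η) * g x ≤ 8 * η * (7 / 4) + G := by
      have := mul_le_mul_of_nonneg_left h7 (show 0 ≤ 1 + 8 * η by linarith)
      have e : (1 + 8 * η) * ((1 - 1 / (1 + 8 * η)) * (7 / 4) + 1 / (1 + 8 * η) * G) =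
          8 * η * (7 / 4) + G := by field_simp; ring
      linarith
    nlinarith
  obtain ⟨t, ht, hgt⟩ := intermediate_value_Icc hle hc.continuousOn
    (show (2 : ℝ) ∈ Icc _ _ from ⟨by simpa using h1, h6⟩)
  refine ⟨_, hgt, (dist_ray x h2 t).trans ?_⟩
  have : |1 - t| ≤ 8 * η := abs_le.2 ⟨by linarith [ht.2], by linarith [ht.1]⟩
  have e : 40 / R = 8 * η * (5 / 2) := by rw [hη]; ring
  rw [e]; gcongr

theorem near2 {R : ℝ} (hR : 16 ≤ R) {x : P} (hx : g x = 2) :
    ∃ y, gR R y = 2 ∧ dist x y ≤ 40 / R := by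
  have hR0 : 0 < R := by linarith
  have h2 : ‖x‖ ≤ 2 := (norm_le_g x).trans hx.le
  set η := 2 / R with hη
  have hη0 : 0 < η := by positivity
  have hη1 : η ≤ 1 / 8 := by rw [hη, div_le_iff₀ hR0]; linarith
  have hc : Continuous fun t : ℝ => gR R (pt (1 / 2) + t • (x - pt (1 / 2))) :=
    (gR_cont R).comp (by fun_prop)
  have hle : 1 - 4 * η ≤ (1 : ℝ) := by linarith
  have h6 : gR R (pt (1 / 2) + (1 - 4 * η) • (x - pt (1 / 2))) ≤ 2 := by
    have h7 := g_ray x (s := 1 - 4 * η) (t := 1) (by linarith) hle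
    rw [mul_one, one_smul, add_sub_cancel, hx] at h7
    set y := pt (1 / 2) + (1 - 4 * η) • (x - pt (1 / 2))
    have h8 := gR_le R hR0 y
    have h9 : ‖y‖ ≤ 2 := (norm_le_g y).trans (by linarith)
    have h5 : ‖y‖ ^ 2 / (2 * R) ≤ η := by
      rw [hη, div_le_div_iff₀ (by positivity) hR0]
      have : ‖y‖ ^ 2 ≤ 4 := by nlinarith [norm_nonneg y]
      nlinarith
    linarith
  obtain ⟨t, ht, hgt⟩ := intermediate_value_Icc hle hc.continuousOn
    (show (2 : ℝ) ∈ Icc _ _ from ⟨h6, by simpa [hx] using g_le_gR R x⟩)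
  refine ⟨_, hgt, (dist_ray x h2 t).trans ?_⟩
  have : |1 - t| ≤ 8 * η := abs_le.2 ⟨by linarith [ht.2], by linarith [ht.1]⟩
  have e : 40 / R = 8 * η * (5 / 2) := by rw [hη]; ring
  rw [e]; gcongr

theorem approx (ε : ℝ) (hε : 0 < ε) : ∃ (n : ℕ) (x : Fin n → P) (c : ℝ),
    (∃ z, ∑ i, dist z (x i) < c) ∧
      hausdorffEDist {z | ∑ i, dist z (x i) = c} {x | g x = 2} ≤ ENNReal.ofReal ε := by
  set R := max 16 (40 / ε) with hRdef
  have hR : 16 ≤ R := le_max_left _ _
  have hR0 : 0 < R := by linarith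
  have hR2 : 40 / R ≤ ε := by
    rw [div_le_iff₀ hR0]
    have : 40 / ε ≤ R := le_max_right _ _
    rw [div_le_iff₀ hε] at this
    linarith
  have e : ∀ z : P, ∑ i, dist z (![pa, pb, pt R] i) = gR R z + R := by
    intro z; simp [Fin.sum_univ_three, gR]
  refine ⟨3, ![pa, pb, pt R], 2 + R, ⟨pt (1 / 2), ?_⟩, ?_⟩
  · rw [e]
    have h1 := gR_le R hR0 (pt (1 / 2))
    have h2 := g_o
    have h3 : ‖pt (1 / 2)‖ ^ 2 / (2 * R) ≤ 1 / 8 := by
      rw [div_le_iff₀ (by positivity)]
      nlinarith [norm_o, norm_nonneg (pt (1 / 2))]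
    linarith
  · apply hausdorffEDist_le_of_mem_edist
    · intro x hx
      have hx' : gR R x = 2 := by
        have := e x
        rw [show ∑ i, dist x (![pa, pb, pt R] i) = 2 + R from hx] at this
        linarith
      obtain ⟨y, hy, hd⟩ := near1 hR hx'
      exact ⟨y, hy, by rw [edist_dist]; exact ENNReal.ofReal_le_ofReal (hd.trans hR2)⟩
    · intro x hx
      obtain ⟨y, hy, hd⟩ := near2 hR hx
      refine ⟨y, ?_, by rw [edist_dist]; exact ENNReal.ofReal_le_ofReal (hd.trans hR2)⟩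
      show ∑ i, dist y (![pa, pb, pt R] i) = 2 + R
      rw [e, hy]

theorem tri_nonneg (y : P) : 0 ≤ dist pa y + dist pb y - 2 * dist 0 y := by
  have e : (2 : ℝ) • ((0 : P) - y) = (pa - y) + (pb - y) := by
    ext i; fin_cases i <;> simp [pa, pb] <;> ring
  have := norm_add_le (pa - y) (pb - y)
  rw [← e, norm_smul] at this
  simp only [dist_eq_norm]
  simp only [Real.norm_ofNat] at this
  linarith

theorem tri_eq {y : P} (h : dist pa y + dist pb y - 2 * dist 0 y = 0) :
    dist (pt (4 / 3)) y = dist (pt (-4 / 3)) y := by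
  have h1 := dsq pa y
  have h2 := dsq pb y
  have h3 := dsq 0 y
  simp [pa] at h1
  simp [pb] at h2
  simp only [PiLp.zero_apply] at h3
  set A := dist pa y
  set B := dist pb y
  set C := dist 0 y
  have hA : 0 ≤ A := dist_nonneg
  have hB : 0 ≤ B := dist_nonneg
  have hC : C = (A + B) / 2 := by linarith
  have hy : y 1 = 0 := by
    have hA' : A ^ 2 = (1 - y 0) ^ 2 + y 1 ^ 2 := by simpa [A, pa] using h1
    have hB' : B ^ 2 = (-1 - y 0) ^ 2 + y 1 ^ 2 := by simpa [B, pb] using h2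
    have h4 : (A - B) ^ 2 = 4 := by rw [hC] at h3; nlinarith
    have h5 : (A + B) ^ 2 = 4 * (y 0 ^ 2 + y 1 ^ 2) := by rw [hC] at h3; nlinarith
    have h6 : (A ^ 2 - B ^ 2) ^ 2 = 16 * y 0 ^ 2 := by rw [hA', hB']; ring
    have h7 : (A ^ 2 - B ^ 2) ^ 2 = (A - B) ^ 2 * (A + B) ^ 2 := by ring
    rw [h4, h5, h6] at h7
    nlinarith
  have : dist (pt (4 / 3)) y ^ 2 = dist (pt (-4 / 3)) y ^ 2 := by
    rw [dsq, dsq, hy]; simp [pt]; ring
  exact (pow_left_inj₀ dist_nonneg dist_nonneg two_ne_zero).1 this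

theorem part_int {X : Type*} [MeasurableSpace X] (ν : Measure X) (f : X → P)
    (hf : ∀ x, Integrable (fun s => dist x (f s)) ν) :
    ∫ s, dist pa (f s) ∂ν + ∫ s, dist pb (f s) ∂ν - 2 * ∫ s, dist 0 (f s) ∂ν =
      ∫ s, (dist pa (f s) + dist pb (f s) - 2 * dist 0 (f s)) ∂ν := by
  have h1 : Integrable (fun s => dist pa (f s) + dist pb (f s)) ν := (hf _).add (hf _)
  rw [integral_sub h1 ((hf _).const_mul _), integral_add (hf _) (hf _), integral_const_mul]

theorem part_nonneg {X : Type*} [MeasurableSpace X] (ν : Measure X) (f : X → P)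
    (hf : ∀ x, Integrable (fun s => dist x (f s)) ν) :
    0 ≤ ∫ s, dist pa (f s) ∂ν + ∫ s, dist pb (f s) ∂ν - 2 * ∫ s, dist 0 (f s) ∂ν := by
  rw [part_int ν f hf]
  exact integral_nonneg fun s => tri_nonneg _

theorem part_eq {X : Type*} [MeasurableSpace X] (ν : Measure X) (f : X → P)
    (hf : ∀ x, Integrable (fun s => dist x (f s)) ν)
    (h : ∫ s, dist pa (f s) ∂ν + ∫ s, dist pb (f s) ∂ν - 2 * ∫ s, dist 0 (f s) ∂ν = 0) :
    ∫ s, dist (pt (4 / 3)) (f s) ∂ν = ∫ s, dist (pt (-4 / 3)) (f s) ∂ν := by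
  rw [part_int ν f hf,
    integral_eq_zero_iff_of_nonneg (fun s => tri_nonneg _)
      (((hf _).add (hf _)).sub ((hf _).const_mul _))] at h
  apply integral_congr_ae
  filter_upwards [h] with s hs
  exact tri_eq hs

theorem g_pa : g pa = 2 := by
  have : dist pa pb = 2 := by
    apply (pow_left_inj₀ dist_nonneg (by norm_num) two_ne_zero).1
    rw [dsq]; simp [pa, pb]; norm_num
  simp [g, this]; simp [pa]

theorem g_pb : g pb = 2 := by
  have : dist pb pa = 2 := by
    apply (pow_left_inj₀ dist_nonneg (by norm_num) two_ne_zero).1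
    rw [dsq]; simp [pa, pb]; norm_num
  simp [g, this]; simp [pb]

theorem g_zero : g 0 = 2 := by
  have h1 : dist 0 pa = 1 := by
    apply (pow_left_inj₀ dist_nonneg (by norm_num) two_ne_zero).1
    rw [dsq]; simp [pa]
  have h2 : dist 0 pb = 1 := by
    apply (pow_left_inj₀ dist_nonneg (by norm_num) two_ne_zero).1
    rw [dsq]; simp [pb]
  rw [g, h1, h2]; simp; norm_num

theorem g_pt (s : ℝ) (hs : s ^ 2 = 16 / 9) : g (pt s) = 10 / 3 - s := by
  have h1 : dist (pt s) pa = 5 / 3 := by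
    apply (pow_left_inj₀ dist_nonneg (by norm_num) two_ne_zero).1
    rw [dsq]; simp [pa, pt]; linarith
  have h2 : dist (pt s) pb = 5 / 3 := by
    apply (pow_left_inj₀ dist_nonneg (by norm_num) two_ne_zero).1
    rw [dsq]; simp [pb, pt]; linarith
  rw [g, h1, h2]; simp [pt]; norm_num

theorem not_form (E : Set P) (hE : Bornology.IsBounded E) (L : ℝ) (hL : 0 ≤ L) (γ : ℝ → P)
    (hγ : ContinuousOn γ (Icc 0 L)) (m : ℕ) (p : Fin m → P) (c : ℝ) :
    {x | g x = 2} ≠ {x | (∫ y in E, dist x y) + (∫ s in (0 : ℝ)..L, dist x (γ s)) +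
      ∑ j, dist x (p j) = c} := by
  intro h
  have i1 : ∀ x : P, Integrable (fun s : P => dist x (id s)) (volume.restrict E) := by
    intro x
    have hc : ContinuousOn (fun s : P => dist x s) (closure E) := by fun_prop
    exact (hc.integrableOn_compact hE.isCompact_closure).mono_set subset_closure
  have i2 : ∀ x : P, Integrable (fun s : ℝ => dist x (γ s)) (volume.restrict (Ioc 0 L)) := by
    intro x
    have hc : ContinuousOn (fun s : ℝ => dist x (γ s)) (Icc 0 L) :=
      continuous_dist.comp_continuousOn (continuousOn_const.prodMk hγ)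
    exact (hc.integrableOn_compact isCompact_Icc).mono_set Ioc_subset_Icc_self
  have i3 : ∀ x : P, Integrable (fun j : Fin m => dist x (p j)) Measure.count :=
    fun x => Integrable.of_finite
  have hF : ∀ x : P, g x = 2 ↔ (∫ y in E, dist x (id y)) + (∫ s in Ioc 0 L, dist x (γ s)) +
      ∫ j, dist x (p j) ∂Measure.count = c := by
    intro x
    rw [integral_count, ← intervalIntegral.integral_of_le hL]
    exact Set.ext_iff.1 h x
  have a1 := (hF _).1 g_pa
  have a2 := (hF _).1 g_pb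
  have a3 := (hF _).1 g_zero
  have a4 := (hF _).1 (show g (pt (4 / 3)) = 2 by rw [g_pt _ (by norm_num)]; norm_num)
  have n1 := part_nonneg _ _ i1
  have n2 := part_nonneg _ _ i2
  have n3 := part_nonneg _ _ i3
  have e1 := part_eq _ _ i1 (by linarith)
  have e2 := part_eq _ _ i2 (by linarith)
  have e3 := part_eq _ _ i3 (by linarith)
  have a5 := (hF (pt (-4 / 3))).2 (by linarith)
  rw [g_pt _ (by norm_num)] at a5
  norm_num at a5

end Pool.Agent.H81.Multifocal
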