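import Mathlib

set_option autoImplicit false

open scoped Classical

namespace Pool.Agent.H81.Net

lemma parent {V : Type} [Fintype V] [DecidableEq V] {G : SimpleGraph V} (hG : G.Connected) (w : V → V → ℝ)
    (h0 : ∀ x y, 0 ≤ w x y) (hs : ∀ x y, w x y = w y x) (r : V) :
    ∃ (par : V → V) (dep : V → ℕ), (∀ x, x ≠ r → G.Adj x (par x) ∧ dep (par x) < dep x) ∧
      ∑ x ∈ Finset.univ.erase r, w x (par x) ≤ (∑ x, ∑ y, if G.Adj x y then w x y else 0) / 2 := by
  have key : ∀ x, ∃ y, x ≠ r → G.Adj x y ∧ G.dist y r < G.dist x r := by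
    intro x
    by_cases hx : x = r
    · exact ⟨x, fun h => absurd hx h⟩
    · obtain ⟨p, hp⟩ := hG.exists_walk_length_eq_dist x r
      cases p with
      | nil => exact absurd rfl hx
      | cons h q =>
        refine ⟨_, fun _ => ⟨h, ?_⟩⟩
        have := SimpleGraph.dist_le q
        simp at hp; omega
  choose par hp using key
  refine ⟨par, fun x => G.dist x r, hp, ?_⟩
  have e1 : ∑ x, ∑ y, (if x ≠ r ∧ y = par x then w x y else 0) =
      ∑ x ∈ Finset.univ.erase r, w x (par x) := by
    rw [← Finset.filter_ne' Finset.univ r, Finset.sum_filter]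
    refine Finset.sum_congr rfl fun x _ => ?_
    by_cases hx : x = r <;> simp [hx]
  have e2 : ∑ x, ∑ y, (if y ≠ r ∧ x = par y then w x y else 0) =
      ∑ x ∈ Finset.univ.erase r, w x (par x) := by
    rw [Finset.sum_comm, ← e1]
    exact Finset.sum_congr rfl fun x _ => Finset.sum_congr rfl fun y _ => by rw [hs]
  have : ∑ x, ∑ y, (if x ≠ r ∧ y = par x then w x y else 0) +
      ∑ x, ∑ y, (if y ≠ r ∧ x = par y then w x y else 0) ≤
      ∑ x, ∑ y, if G.Adj x y then w x y else 0 := by
    rw [← Finset.sum_add_distrib]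
    refine Finset.sum_le_sum fun x _ => ?_
    rw [← Finset.sum_add_distrib]
    refine Finset.sum_le_sum fun y _ => ?_
    by_cases a : x ≠ r ∧ y = par x
    · have a1 := hp x a.1
      rw [← a.2] at a1
      rw [if_pos a, if_pos a1.1, if_neg, add_zero]
      rintro ⟨b1, b2⟩
      have := (hp y b1).2
      rw [← b2] at this
      omega
    · rw [if_neg a, zero_add]
      by_cases b : y ≠ r ∧ x = par y
      · have b1 := hp y b.1
        rw [← b.2] at b1
        rw [if_pos b, if_pos b1.1.symm]
      · rw [if_neg b]; split_ifs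
        · exact h0 _ _
        · exact le_rfl
  linarith

lemma collapse {V ι : Type} [Fintype ι] [DecidableEq V] [DecidableEq ι] (Q : Finset ι → V → ℝ → Prop) (w : V → V → ℝ)
    (hmove : ∀ S x y c, Q S x c → Q S y (c + w x y))
    (hmerge : ∀ S S' x c c', Disjoint S S' → Q S x c → Q S' x c' → Q (S ∪ S') x (c + c'))
    (r : V) (par : V → V) (dep : V → ℕ) (hp : ∀ x, x ≠ r → dep (par x) < dep x) (n : ℕ) :
    ∀ (J : Finset V), J.card = n → r ∈ J → (∀ x ∈ J, x ≠ r → par x ∈ J) →
    ∀ (loc : ι → V) (cst : V → ℝ), (∀ i, loc i ∈ J) →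
      (∀ v ∈ J, Q (Finset.univ.filter fun i => loc i = v) v (cst v)) →
      Q Finset.univ r (∑ v ∈ J, cst v + ∑ x ∈ J.erase r, w x (par x)) := by
  induction n with
  | zero => intro J h hr; simp [Finset.card_eq_zero.1 h] at hr
  | succ n ih =>
    intro J hn hr hJ loc cst hl hQ
    rcases (J.erase r).eq_empty_or_nonempty with he | he
    · have hJr : J = {r} := by
        rcases (Finset.erase_eq_empty_iff J r).1 he with h | h
        · simp [h] at hr
        · exact h
      subst hJr
      have := hQ r hr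
      rw [Finset.filter_true_of_mem fun i _ => by simpa using hl i] at this
      simpa using this
    · obtain ⟨x, hx, hmax⟩ := Finset.exists_max_image _ dep he
      obtain ⟨x1, x2⟩ := Finset.mem_erase.1 hx
      have px : par x ≠ x := fun h => by have := hp x x1; rw [h] at this; omega
      have pJ : par x ∈ J.erase x := Finset.mem_erase.2 ⟨px, hJ x x2 x1⟩
      have := ih (J.erase x) (by rw [Finset.card_erase_of_mem x2, hn]; rfl)
        (Finset.mem_erase.2 ⟨x1.symm, hr⟩) (fun y hy y1 => by
          obtain ⟨y2, y3⟩ := Finset.mem_erase.1 hy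
          refine Finset.mem_erase.2 ⟨fun h => ?_, hJ y y3 y1⟩
          have := hp y y1
          have := hmax y (Finset.mem_erase.2 ⟨y1, y3⟩)
          rw [h] at *; omega)
        (fun i => if loc i = x then par x else loc i)
        (fun v => cst v + if v = par x then cst x + w x (par x) else 0) (fun i => by
          split_ifs with h
          · exact pJ
          · exact Finset.mem_erase.2 ⟨h, hl i⟩) (fun v hv => by
          obtain ⟨v1, v2⟩ := Finset.mem_erase.1 hv
          by_cases h : v = par x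
          · subst h
            have := hmerge _ _ _ _ _ (Finset.disjoint_filter.2 fun i _ h1 h2 => px (h1.symm.trans h2))
              (hQ _ v2) (hmove _ _ (par x) _ (hQ x x2))
            convert this using 1
            · ext i; by_cases h : loc i = x <;> simp [h, px.symm]
            · simp
          · convert hQ v v2 using 1
            · ext i; by_cases h' : loc i = x <;> simp [h', v1.symm, Ne.symm h]
            · simp [h])
      convert this using 1
      rw [Finset.sum_add_distrib, Finset.sum_ite_eq' , if_pos pJ, Finset.erase_right_comm,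
        ← Finset.add_sum_erase J cst x2, ← Finset.add_sum_erase (J.erase r) _ hx]
      ring

variable {E : Type} [PseudoMetricSpace E]

def R (x : E) (S : Set E) (c : ℝ) : Prop :=
  ∃ ed : Finset (E × E), (∀ y ∈ S, Relation.EqvGen (fun a b => (a, b) ∈ ed) x y) ∧
    (∀ e ∈ ed, Relation.EqvGen (fun a b => (a, b) ∈ ed) x e.1) ∧ ∑ e ∈ ed, dist e.1 e.2 ≤ c

lemma emono {ed ed' : Finset (E × E)} (h : ed ⊆ ed') {u v : E}
    (H : Relation.EqvGen (fun a b => (a, b) ∈ ed) u v) :
    Relation.EqvGen (fun a b => (a, b) ∈ ed') u v :=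
  Relation.EqvGen.mono (r := fun a b => (a, b) ∈ ed) (p := fun a b => (a, b) ∈ ed')
    (fun _ _ k => h k) _ _ H

lemma R.base (x : E) : R x {x} 0 :=
  ⟨∅, fun y hy => hy ▸ Relation.EqvGen.refl _, by simp, by simp⟩

lemma R.mono {x : E} {S S' : Set E} {c c' : ℝ} (h : R x S c) (hS : S' ⊆ S) (hc : c ≤ c') :
    R x S' c' := by
  obtain ⟨ed, a, b, d⟩ := h
  exact ⟨ed, fun y hy => a y (hS hy), b, d.trans hc⟩

lemma R.merge {x : E} {S S' : Set E} {c c' : ℝ} (h : R x S c) (h' : R x S' c') :
    R x (S ∪ S') (c + c') := by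
  obtain ⟨ed, a, b, d⟩ := h
  obtain ⟨ed', a', b', d'⟩ := h'
  have m1 : ∀ {u v}, Relation.EqvGen (fun a b => (a, b) ∈ ed) u v →
      Relation.EqvGen (fun a b => (a, b) ∈ ed ∪ ed') u v :=
    emono Finset.subset_union_left
  have m2 : ∀ {u v}, Relation.EqvGen (fun a b => (a, b) ∈ ed') u v →
      Relation.EqvGen (fun a b => (a, b) ∈ ed ∪ ed') u v :=
    emono Finset.subset_union_right
  refine ⟨ed ∪ ed', fun y hy => hy.elim (fun h => m1 (a y h)) fun h => m2 (a' y h),
    fun e he => (Finset.mem_union.1 he).elim (fun h => m1 (b e h)) fun h => m2 (b' e h), ?_⟩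
  have := Finset.sum_union_inter (s₁ := ed) (s₂ := ed') (f := fun e => dist e.1 e.2)
  have : 0 ≤ ∑ e ∈ ed ∩ ed', dist e.1 e.2 := Finset.sum_nonneg fun _ _ => dist_nonneg
  linarith

lemma R.move {x : E} {S : Set E} {c : ℝ} (h : R x S c) (y : E) : R y S (c + dist y x) := by
  obtain ⟨ed, a, b, d⟩ := h
  have m1 : ∀ {v}, Relation.EqvGen (fun a b => (a, b) ∈ ed) x v →
      Relation.EqvGen (fun a b => (a, b) ∈ insert (y, x) ed) y v := fun h =>
    Relation.EqvGen.trans _ _ _ (Relation.EqvGen.rel _ _ (Finset.mem_insert_self _ _))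
      (emono (Finset.subset_insert _ _) h)
  refine ⟨insert (y, x) ed, fun z hz => m1 (a z hz), fun e he => ?_, ?_⟩
  · rcases Finset.mem_insert.1 he with rfl | he
    · exact Relation.EqvGen.refl _
    · exact m1 (b e he)
  · by_cases k : (y, x) ∈ ed
    · rw [Finset.insert_eq_of_mem k]; linarith [dist_nonneg (x := y) (y := x)]
    · rw [Finset.sum_insert k]; linarith

lemma toGraph (T : Finset E) (ed : Finset (E × E)) {x : E} (hx : x ∈ T)
    (h1 : ∀ y ∈ T, Relation.EqvGen (fun a b => (a, b) ∈ ed) x y)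
    (h2 : ∀ e ∈ ed, e.1 ∈ T ∧ e.2 ∈ T) : ∃ G : SimpleGraph T, G.Connected ∧
      (∑ a : T, ∑ b : T, if G.Adj a b then dist (a : E) (b : E) else 0) / 2 ≤
        ∑ e ∈ ed, dist e.1 e.2 := by
  refine ⟨SimpleGraph.fromRel fun a b => ((a : E), (b : E)) ∈ ed, ?_, ?_⟩
  · have key : ∀ a b, Relation.EqvGen (fun a b => (a, b) ∈ ed) a b → a = b ∨ ∃ ha hb,
        (SimpleGraph.fromRel fun a b : T => ((a : E), (b : E)) ∈ ed).Reachable ⟨a, ha⟩ ⟨b, hb⟩ := by
      intro a b h
      induction h with
      | rel a b h =>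
        by_cases e : a = b
        · exact Or.inl e
        · exact Or.inr ⟨(h2 _ h).1, (h2 _ h).2, SimpleGraph.Adj.reachable
            ⟨fun h' => e (congrArg Subtype.val h'), Or.inl h⟩⟩
      | refl a => exact Or.inl rfl
      | symm a b _ ih => exact ih.imp Eq.symm fun ⟨ha, hb, h⟩ => ⟨hb, ha, h.symm⟩
      | trans a b c _ _ i1 i2 =>
        rcases i1 with rfl | ⟨ha, hb, h⟩
        · exact i2
        · rcases i2 with rfl | ⟨_, hc, h'⟩
          · exact Or.inr ⟨ha, hb, h⟩
          · exact Or.inr ⟨ha, hc, h.trans h'⟩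
    refine (SimpleGraph.connected_iff_exists_forall_reachable _).2 ⟨⟨x, hx⟩, fun y => ?_⟩
    rcases key _ _ (h1 y y.2) with e | ⟨_, _, h⟩
    · have : (⟨x, hx⟩ : T) = y := Subtype.ext e
      rw [this]
    · exact h
  · have e1 : ∑ a : T, ∑ b : T, (if ((a : E), (b : E)) ∈ ed then dist (a : E) (b : E) else 0) =
        ∑ e ∈ ed, dist e.1 e.2 := by
      rw [Finset.sum_coe_sort T fun a => ∑ b : T, if (a, (b : E)) ∈ ed then dist a (b : E) else 0]
      simp_rw [fun a => Finset.sum_coe_sort T fun b => if (a, b) ∈ ed then dist a b else 0]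
      rw [← Finset.sum_product' (f := fun a b => if (a, b) ∈ ed then dist a b else 0),
        ← Finset.sum_filter]
      congr 1; ext e
      simp only [Finset.mem_filter, Finset.mem_product]
      exact ⟨fun h => h.2, fun h => ⟨h2 e h, h⟩⟩
    have e2 : ∑ a : T, ∑ b : T, (if ((b : E), (a : E)) ∈ ed then dist (a : E) (b : E) else 0) =
        ∑ e ∈ ed, dist e.1 e.2 := by
      rw [Finset.sum_comm, ← e1]
      simp only [dist_comm]
    rw [div_le_iff₀ two_pos, mul_two]
    nth_rewrite 1 [← e1]
    rw [← e2, ← Finset.sum_add_distrib]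
    refine Finset.sum_le_sum fun a _ => ?_
    rw [← Finset.sum_add_distrib]
    refine Finset.sum_le_sum fun b _ => ?_
    have := dist_nonneg (x := (a : E)) (y := (b : E))
    simp only [SimpleGraph.fromRel_adj]
    split_ifs <;> first | linarith | tauto

lemma R.graph {x : E} {S : Finset E} {c : ℝ} (h : R x S c) : ∃ T : Finset E, S ⊆ T ∧
    ∃ G : SimpleGraph T, G.Connected ∧
      (∑ a : T, ∑ b : T, if G.Adj a b then dist (a : E) (b : E) else 0) / 2 ≤ c := by
  obtain ⟨ed, a, b, d⟩ := h
  obtain ⟨G, g1, g2⟩ := toGraph (insert x (S ∪ ed.image Prod.fst ∪ ed.image Prod.snd)) ed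
    (Finset.mem_insert_self _ _) (fun y hy => by
      simp only [Finset.mem_insert, Finset.mem_union, Finset.mem_image] at hy
      rcases hy with rfl | (hy | ⟨e, he, rfl⟩) | ⟨e, he, rfl⟩
      · exact Relation.EqvGen.refl _
      · exact a y hy
      · exact b e he
      · exact Relation.EqvGen.trans _ _ _ (b e he) (Relation.EqvGen.rel _ _ he))
    (fun e he => by
      simp only [Finset.mem_insert, Finset.mem_union, Finset.mem_image]
      exact ⟨Or.inr (Or.inl (Or.inr ⟨e, he, rfl⟩)), Or.inr (Or.inr ⟨e, he, rfl⟩)⟩)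
  exact ⟨_, fun y hy => by simp [hy], G, g1, g2.trans d⟩

end Pool.Agent.H81.Net
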