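import Mathlib

namespace Pool.Agent.H81.PerimIter

open Set Metric
open scoped RealInnerProductSpace Pointwise

abbrev P := EuclideanSpace ℝ (Fin 2)

theorem tangent {X Y p w e : P} {a b μ : ℝ} (ha : dist X p = a) (hb : dist Y p = b) (ha0 : 0 < a)
    (hb0 : 0 < b) (h : a⁻¹ • (p - X) + b⁻¹ • (p - Y) = μ • w) (hμ : a⁻¹ + b⁻¹ ≤ μ)
    (he : ‖e‖ ≤ ‖w‖) : dist X (p - w + e) + dist Y (p - w + e) ≤ a + b := by
  set d := e - w with hd
  have key : ∀ (X : P) (a : ℝ), dist X p = a → 0 < a →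
      dist X (p - w + e) ≤ a + ⟪a⁻¹ • (p - X), d⟫ + a⁻¹ * ‖d‖ ^ 2 / 2 := by
    intro X a ha ha0
    have e1 : dist X (p - w + e) ^ 2 = a ^ 2 + 2 * ⟪p - X, d⟫ + ‖d‖ ^ 2 := by
      rw [dist_comm, dist_eq_norm, ← ha, dist_comm, dist_eq_norm, ← norm_add_sq_real]
      congr 2; rw [hd]; abel
    have e2 : a + ⟪a⁻¹ • (p - X), d⟫ + a⁻¹ * ‖d‖ ^ 2 / 2 =
        (a ^ 2 + dist X (p - w + e) ^ 2) / (2 * a) := by
      rw [e1, inner_smul_left]; simp only [conj_trivial]; field_simp; ring
    rw [e2, le_div_iff₀ (by positivity)]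
    nlinarith [sq_nonneg (a - dist X (p - w + e))]
  have h1 := key X a ha ha0
  have h2 := key Y b hb hb0
  have h3 : ⟪a⁻¹ • (p - X), d⟫ + ⟪b⁻¹ • (p - Y), d⟫ = μ * ⟪w, d⟫ := by
    rw [← inner_add_left, h, inner_smul_left]; simp
  have h4 : ‖d‖ ^ 2 ≤ -2 * ⟪w, d⟫ := by
    rw [hd, norm_sub_sq_real, inner_sub_right, real_inner_self_eq_norm_sq, real_inner_comm]
    nlinarith [norm_nonneg e]
  have h5 : ⟪w, d⟫ ≤ 0 := by nlinarith [sq_nonneg ‖d‖]
  have h6 := mul_le_mul_of_nonneg_left h4 (show 0 ≤ a⁻¹ + b⁻¹ by positivity)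
  nlinarith

theorem far {X Y p w e : P} {a b c : ℝ} (ha : dist X p = a) (hb : dist Y p = b)
    (hw : ‖w‖ ≤ 3) (he : ‖e‖ ≤ ‖w‖) (h : a + b + 12 ≤ c) :
    dist X (p - w + e) + dist Y (p - w + e) ≤ c := by
  have h1 : dist p (p - w + e) ≤ 6 := by
    rw [dist_eq_norm]
    have : p - (p - w + e) = w - e := by abel
    rw [this]
    linarith [norm_sub_le w e]
  linarith [dist_triangle X p (p - w + e), dist_triangle Y p (p - w + e)]

noncomputable def pt (a b : ℝ) : P := !₂[a * √3, b]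

theorem dist_pt {a b c d r : ℝ} (hr : 0 ≤ r) (h : 3 * (a - c) ^ 2 + (b - d) ^ 2 = r ^ 2) :
    dist (pt a b) (pt c d) = r := by
  apply (pow_left_inj₀ dist_nonneg hr two_ne_zero).1
  rw [EuclideanSpace.dist_eq, Real.sq_sqrt (by positivity), Fin.sum_univ_two, ← h]
  simp only [pt, Real.dist_eq, sq_abs, PiLp.toLp_apply, Matrix.cons_val_zero, Matrix.cons_val_one]
  have := Real.sq_sqrt (show (0 : ℝ) ≤ 3 by norm_num)
  linear_combination (a - c) ^ 2 * this

theorem norm_pt {a b : ℝ} (h : 3 * a ^ 2 + b ^ 2 = 7) : ‖pt a b‖ = √7 := by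
  have := dist_pt (a := a) (b := b) (c := 0) (d := 0) (Real.sqrt_nonneg 7)
    (by rw [Real.sq_sqrt (by norm_num)]; simpa using h)
  have e : pt 0 0 = 0 := by ext i; fin_cases i <;> simp [pt]
  rwa [e, dist_zero_right] at this

noncomputable def px : Fin 6 → ℝ := ![13, -11, -11, 13, -2, -2]
noncomputable def py : Fin 6 → ℝ := ![-9, 15, -15, 9, 24, -24]
noncomputable def wx : Fin 6 → ℝ := ![3 / 2, -1, -1, 3 / 2, -1 / 2, -1 / 2]
noncomputable def wy : Fin 6 → ℝ := ![-1 / 2, 2, -2, 1 / 2, 5 / 2, -5 / 2]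
noncomputable def D : Fin 6 → Fin 6 → ℝ :=
  ![![0, 48, 42, 18, 42, 30], ![48, 0, 30, 42, 18, 42], ![42, 30, 0, 48, 42, 18],
    ![18, 42, 48, 0, 30, 42], ![42, 18, 42, 30, 0, 48], ![30, 42, 18, 42, 48, 0]]
noncomputable def p (i : Fin 6) : P := pt (px i) (py i)
noncomputable def w (i : Fin 6) : P := pt (wx i) (wy i)

theorem dist_p (i j : Fin 6) : dist (p i) (p j) = D i j := by
  apply dist_pt <;> fin_cases i <;> fin_cases j <;> simp [px, py, D] <;> norm_num

theorem norm_w (i : Fin 6) : ‖w i‖ = √7 := by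
  apply norm_pt; fin_cases i <;> simp [wx, wy] <;> norm_num

theorem comb {a b c d e f g h s t μ : ℝ} (h1 : s * (a - c) + t * (a - e) = μ * g)
    (h2 : s * (b - d) + t * (b - f) = μ * h) :
    s • (pt a b - pt c d) + t • (pt a b - pt e f) = μ • pt g h := by
  ext i; fin_cases i
  · simp [pt]; linear_combination √3 * h1
  · simp [pt]; linear_combination h2

theorem disc (k j : Fin 6) {e : P} (he : ‖e‖ ≤ √7) :
    dist (p (k + 1)) (p j - w j + e) + dist (p (k + 2)) (p j - w j + e) ≤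
      D (k + 1) (k + 3) + D (k + 2) (k + 3) := by
  have h7 : √7 ≤ 3 := Real.sqrt_le_iff.2 (by norm_num)
  rw [← norm_w j] at he
  by_cases hj : j = k ∨ j = k + 3
  · have e : D (k + 1) (k + 3) + D (k + 2) (k + 3) = D (k + 1) j + D (k + 2) j := by
      rcases hj with rfl | rfl
      · fin_cases j <;> simp [D] <;> norm_num
      · rfl
    rw [e]
    refine tangent (μ := if k.val % 2 = 0 then 5 / 7 else 4 / 7) (dist_p _ _) (dist_p _ _) ?_ ?_
      (comb ?_ ?_) ?_ he <;> rcases hj with rfl | rfl <;>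
      first
      | (fin_cases j <;> simp [D, px, py, wx, wy] <;> norm_num)
      | (fin_cases k <;> simp [D, px, py, wx, wy] <;> norm_num)
  · refine far (dist_p _ _) (dist_p _ _) (by rw [norm_w]; exact h7) he ?_
    fin_cases k <;> fin_cases j <;> simp at hj <;> simp [D] <;> norm_num

def K : Set P := convexHull ℝ (range fun j => p j - w j) + closedBall 0 √7

theorem K_compact : IsCompact K :=
  ((finite_range _).isCompact_convexHull ℝ).add (isCompact_closedBall _ _)

theorem K_convex : Convex ℝ K := (convex_convexHull ℝ _).add (convex_closedBall _ _)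

theorem K_int : (interior K).Nonempty := by
  refine ⟨p 0 - w 0, mem_interior_iff_mem_nhds.2 (Filter.mem_of_superset
    (closedBall_mem_nhds _ (show (0 : ℝ) < √7 by positivity)) fun x hx => ?_)⟩
  exact ⟨p 0 - w 0, subset_convexHull ℝ _ ⟨0, rfl⟩, x - (p 0 - w 0),
    by simpa [dist_eq_norm] using hx, by simp⟩

theorem p_mem (j : Fin 6) : p j ∈ K :=
  ⟨p j - w j, subset_convexHull ℝ _ ⟨j, rfl⟩, w j, by simp [norm_w], by simp⟩

theorem p_max (k : Fin 6) {z : P} (hz : z ∈ K) : dist (p (k + 1)) z + dist (p (k + 2)) z ≤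
    dist (p (k + 1)) (p (k + 3)) + dist (p (k + 2)) (p (k + 3)) := by
  obtain ⟨c, hc, e, he, rfl⟩ := hz
  rw [dist_p, dist_p]
  have hconv : Convex ℝ {c : P | dist (p (k + 1)) (c + e) + dist (p (k + 2)) (c + e) ≤
      D (k + 1) (k + 3) + D (k + 2) (k + 3)} := by
    have h1 := ((convexOn_dist (p (k + 1)) (convex_univ (E := P))).add
      (convexOn_dist (p (k + 2)) (convex_univ (E := P)))).convex_le
      (D (k + 1) (k + 3) + D (k + 2) (k + 3))
    have h2 := h1.translate_preimage_left e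
    intro x hx y hy a b ha hb hab
    have := h2 (x := x) (by simpa [dist_comm] using hx) (y := y) (by simpa [dist_comm] using hy)
      ha hb hab
    simpa [dist_comm] using this
  refine convexHull_min ?_ hconv hc
  rintro _ ⟨j, rfl⟩
  exact disc k j (by simpa using he)

theorem frontier_of_max {K : Set P} {X Y q : P} (hq : q ∈ K)
    (hmax : ∀ z ∈ K, dist X z + dist Y z ≤ dist X q + dist Y q)
    (hlt : dist X Y < dist X q + dist Y q) : q ∈ frontier K := by
  refine ⟨subset_closure hq, fun hi => ?_⟩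
  have hc : Continuous fun t : ℝ => X + t • (q - X) := by fun_prop
  have h1 : ∀ᶠ t in nhds (1 : ℝ), X + t • (q - X) ∈ K := by
    apply hc.continuousAt.preimage_mem_nhds
    simpa using mem_interior_iff_mem_nhds.1 hi
  obtain ⟨t, ht1, ht⟩ := ((h1.filter_mono (nhdsWithin_le_nhds (s := Ioi 1))).and
    self_mem_nhdsWithin).exists
  have ht' : 1 < t := ht
  have hf := (convexOn_dist X (convex_univ (E := P))).add (convexOn_dist Y (convex_univ (E := P)))
  have h2 := hf.2 (mem_univ X) (mem_univ (X + t • (q - X)))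
    (show 0 ≤ 1 - 1 / t by rw [sub_nonneg, div_le_one (by linarith)]; linarith)
    (show 0 ≤ 1 / t by positivity) (by ring)
  have e : (1 - 1 / t) • X + (1 / t) • (X + t • (q - X)) = q := by
    rw [smul_add, smul_smul, one_div_mul_cancel (by linarith), one_smul]; module
  rw [e] at h2
  have h3 := hmax _ ht1
  simp only [Pi.add_apply, smul_eq_mul, dist_self, zero_add] at h2
  rw [dist_comm q X, dist_comm q Y, dist_comm (X + _) X, dist_comm (X + _) Y] at h2
  have h4 : 1 / t < 1 := by rw [div_lt_one (by linarith)]; linarith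
  have h5 : 0 < 1 / t := by positivity
  nlinarith

theorem p_frontier (j : Fin 6) : p j ∈ frontier K := by
  obtain ⟨k, rfl⟩ : ∃ k, j = k + 3 := ⟨j - 3, by simp⟩
  refine frontier_of_max (p_mem _) (fun z hz => p_max k hz) ?_
  rw [dist_p, dist_p, dist_p]
  fin_cases k <;> simp [D] <;> norm_num

theorem smooth {x : P} (hx : x ∈ frontier K) :
    ∃! u : P, ‖u‖ = 1 ∧ ∀ y ∈ K, ⟪u, y⟫ ≤ ⟪u, x⟫ := by
  have hxK : x ∈ K := K_compact.isClosed.frontier_subset hx
  have h7 : (0 : ℝ) < √7 := by positivity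
  obtain ⟨c, hc, e, he, rfl⟩ := hxK
  have he' : ‖e‖ ≤ √7 := by simpa using he
  have uniq : ∀ u : P, (‖u‖ = 1 ∧ ∀ y ∈ K, ⟪u, y⟫ ≤ ⟪u, c + e⟫) → u = (√7)⁻¹ • e := by
    rintro u ⟨hu, h⟩
    have h1 := h (c + √7 • u) ⟨c, hc, √7 • u, by simp [norm_smul, hu, abs_of_pos h7], rfl⟩
    rw [inner_add_right, inner_add_right, inner_smul_right, real_inner_self_eq_norm_sq, hu] at h1
    have h2 : ‖√7 • u - e‖ ^ 2 ≤ 0 := by
      rw [norm_sub_sq_real, norm_smul, hu, inner_smul_left]
      simp only [Real.norm_eq_abs, abs_of_pos h7, conj_trivial]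
      nlinarith [norm_nonneg e]
    have h3 : √7 • u - e = 0 := norm_eq_zero.1 (by nlinarith [norm_nonneg (√7 • u - e)])
    rw [← sub_eq_zero.1 h3, smul_smul, inv_mul_cancel₀ h7.ne', one_smul]
  obtain ⟨f, hf⟩ := geometric_hahn_banach_open_point K_convex.interior isOpen_interior hx.2
  obtain ⟨z, hz⟩ := K_int
  set v := (InnerProductSpace.toDual ℝ P).symm f with hv
  have hfv : ∀ y, f y = ⟪v, y⟫ := fun y => by simp [hv]
  have hv0 : v ≠ 0 := by
    intro h
    have := hf z hz
    rw [hfv, hfv, h] at this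
    simp at this
  have hn : 0 < ‖v‖ := norm_pos_iff.2 hv0
  refine ⟨‖v‖⁻¹ • v, ⟨by rw [norm_smul, norm_inv, norm_norm, inv_mul_cancel₀ hn.ne'], ?_⟩,
    fun u hu => ?_⟩
  · intro y hy
    rw [inner_smul_left, inner_smul_left, ← hfv, ← hfv]
    simp only [conj_trivial]
    gcongr
    have hcl : y ∈ closure (interior K) := by
      rw [K_convex.closure_interior_eq_closure_of_nonempty_interior ⟨z, hz⟩]
      exact subset_closure hy
    exact closure_minimal (fun a ha => (hf a ha).le) (isClosed_le f.continuous continuous_const) hcl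
  · rw [uniq u hu]
    symm
    refine uniq _ ⟨by rw [norm_smul, norm_inv, norm_norm, inv_mul_cancel₀ hn.ne'], ?_⟩
    intro y hy
    rw [inner_smul_left, inner_smul_left, ← hfv, ← hfv]
    simp only [conj_trivial]
    gcongr
    have hcl : y ∈ closure (interior K) := by
      rw [K_convex.closure_interior_eq_closure_of_nonempty_interior ⟨z, hz⟩]
      exact subset_closure hy
    exact closure_minimal (fun a ha => (hf a ha).le) (isClosed_le f.continuous continuous_const) hcl

/-- index of the vertex at step `n` -/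
def ix (n : ℕ) (i : Fin 6) : Fin 6 := if n % 2 = 0 then i else i + 3

theorem ix_succ (n : ℕ) (i : Fin 6) : ix (n + 1) i = ix n i + 3 := by
  unfold ix
  rcases Nat.mod_two_eq_zero_or_one n with h | h
  · simp [h, Nat.add_mod]
  · simp [h, Nat.add_mod, add_assoc]

theorem ix_add (n : ℕ) (i j : Fin 6) : ix n (i + j) = ix n i + j := by
  unfold ix; split_ifs
  · rfl
  · rw [add_right_comm]

theorem not_conv : ¬ ∃ a, Filter.Tendsto (fun n => p (ix n 0)) Filter.atTop (nhds a) := by
  rintro ⟨a, h⟩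
  have h1 := h.comp (Filter.tendsto_add_atTop_nat 1)
  have h2 := h.dist h1
  have e : (fun n => dist (p (ix n 0)) (((fun n => p (ix n 0)) ∘ fun a => a + 1) n)) =
      fun _ => (18 : ℝ) := by
    ext n
    simp only [Function.comp, ix_succ, dist_p]
    unfold ix; split_ifs <;> simp [D]
  rw [e, dist_self] at h2
  have := tendsto_nhds_unique h2 tendsto_const_nhds
  norm_num at this

theorem indep : AffineIndependent ℝ ![p 2, p 1, p 0] := by
  rw [affineIndependent_iff_not_collinear_set]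
  intro h
  have h1 := h.wbtw_or_wbtw_or_wbtw
  rcases h1 with h | h | h <;> have := h.dist_add_dist <;> simp [dist_p, D] at this <;>
    norm_num at this

end Pool.Agent.H81.PerimIter
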