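import Mathlib

set_option autoImplicit false

namespace Pool.Agent.H81.Pruf
open Set Topology

/-- chart centres: points of `A` and rationals -/
def J (A : Set ℝ) : Type := {b : ℝ // b ∈ A ∨ ¬ Irrational b}

def Sp (A : Set ℝ) (b y : ℝ) : Prop := (b ∈ A ∧ y = 0) ∨ (¬ Irrational b ∧ y ≤ 0)

def M (A : Set ℝ) : Type :=
  {p : Option ℝ × ℝ × ℝ // (p.1 = none ∧ p.2.2 ≠ 0) ∨ ∃ b, p.1 = some b ∧ Sp A b p.2.2}

variable {A : Set ℝ}

theorem ne_of_not_sp (b : J A) {y : ℝ} (h : ¬ Sp A b.1 y) : y ≠ 0 := by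
  rintro rfl
  rcases b.2 with h1 | h1
  · exact h (Or.inl ⟨h1, rfl⟩)
  · exact h (Or.inr ⟨h1, le_rfl⟩)

open Classical in
noncomputable def psi (b : J A) (v : ℝ × ℝ) : M A :=
  if h : Sp A b.1 v.2 then ⟨(some b.1, v), Or.inr ⟨b.1, rfl, h⟩⟩
  else ⟨(none, b.1 + v.1 * v.2, v.2), Or.inl ⟨rfl, ne_of_not_sp b h⟩⟩

theorem psi_sp (b : J A) {v : ℝ × ℝ} (h : Sp A b.1 v.2) : (psi b v).1 = (some b.1, v) := by
  simp [psi, h]

theorem psi_ns (b : J A) {v : ℝ × ℝ} (h : ¬ Sp A b.1 v.2) :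
    (psi b v).1 = (none, b.1 + v.1 * v.2, v.2) := by
  simp [psi, h]

noncomputable instance : TopologicalSpace (M A) :=
  ⨆ b : J A, TopologicalSpace.coinduced (psi b) inferInstance

theorem isOpen_iff {W : Set (M A)} : IsOpen W ↔ ∀ b, IsOpen (psi b ⁻¹' W) := by
  change IsOpen[⨆ b : J A, TopologicalSpace.coinduced (psi b) inferInstance] W ↔ _
  rw [isOpen_iSup_iff]
  rfl

theorem cont_psi (b : J A) : Continuous (psi b) :=
  continuous_def.mpr fun _ h => isOpen_iff.mp h b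

theorem cont_iff {Y : Type} [TopologicalSpace Y] {g : M A → Y} (h : ∀ b, Continuous (g ∘ psi b)) :
    Continuous g :=
  continuous_def.mpr fun W hW => isOpen_iff.mpr fun b => (h b).isOpen_preimage W hW

theorem psi_inj (b : J A) : Function.Injective (psi b) := by
  intro v w h
  have h' := congrArg Subtype.val h
  by_cases hv : Sp A b.1 v.2 <;> by_cases hw : Sp A b.1 w.2
  · rw [psi_sp b hv, psi_sp b hw] at h'; exact (Prod.ext_iff.mp h').2
  · rw [psi_sp b hv, psi_ns b hw] at h'; simp at h'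
  · rw [psi_ns b hv, psi_sp b hw] at h'; simp at h'
  · rw [psi_ns b hv, psi_ns b hw] at h'
    simp only [Prod.mk.injEq, true_and, add_right_inj] at h'
    obtain ⟨h1, h2⟩ := h'
    rw [h2] at h1
    exact Prod.ext (mul_right_cancel₀ (ne_of_not_sp b hw) h1) h2

theorem psi_trans (b c : J A) {v : ℝ × ℝ} (hb : ¬ Sp A b.1 v.2) (hc : ¬ Sp A c.1 v.2) :
    psi c v = psi b (v.1 + (c.1 - b.1) / v.2, v.2) := by
  apply Subtype.ext
  rw [psi_ns c hc, psi_ns b (by simpa using hb)]
  have := ne_of_not_sp b hb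
  simp only [Prod.mk.injEq, true_and, and_true]
  field_simp
  ring

theorem open_ns (b : ℝ) : IsOpen {y : ℝ | ¬ Sp A b y} := by
  rw [← compl_setOf, isOpen_compl_iff]
  unfold Sp
  rw [setOf_or]
  refine IsClosed.union ?_ ?_
  · by_cases h : b ∈ A
    · simp [h]
    · simp [h]
  · by_cases h : Irrational b
    · simp [h]
    · simp only [h, not_false_eq_true, true_and]
      exact isClosed_Iic

theorem psi_open (b : J A) : IsOpenMap (psi b) := by
  intro W hW
  refine isOpen_iff.mpr fun c => ?_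
  by_cases hcb : c = b
  · subst hcb
    rwa [preimage_image_eq _ (psi_inj c)]
  have : psi c ⁻¹' (psi b '' W) = {v : ℝ × ℝ | ¬ Sp A b.1 v.2 ∧ ¬ Sp A c.1 v.2} ∩
      (fun v : ℝ × ℝ => (v.1 + (c.1 - b.1) / v.2, v.2)) ⁻¹' W := by
    ext v
    constructor
    · rintro ⟨w, hw, h⟩
      have h' := congrArg Subtype.val h
      have hne : b.1 ≠ c.1 := fun h => hcb (Subtype.ext h.symm)
      by_cases hv : Sp A c.1 v.2 <;> by_cases hw' : Sp A b.1 w.2
      · rw [psi_sp c hv, psi_sp b hw'] at h'; simp [hne] at h'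
      · rw [psi_sp c hv, psi_ns b hw'] at h'; simp at h'
      · rw [psi_ns c hv, psi_sp b hw'] at h'; simp at h'
      · rw [psi_ns c hv, psi_ns b hw'] at h'
        simp only [Prod.mk.injEq, true_and] at h'
        have hb : ¬ Sp A b.1 v.2 := h'.2 ▸ hw'
        refine ⟨⟨hb, hv⟩, ?_⟩
        rw [psi_trans b c hb hv] at h
        simpa [← psi_inj b h] using hw
    · rintro ⟨⟨hb, hc⟩, hw⟩
      exact ⟨_, hw, (psi_trans b c hb hc).symm⟩
  rw [this]
  refine ContinuousOn.isOpen_inter_preimage ?_ ?_ hW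
  · refine ContinuousOn.prodMk (continuousOn_fst.add (continuousOn_const.div continuousOn_snd
      fun v hv => ne_of_not_sp b hv.1)) continuousOn_snd
  · exact ((open_ns b.1).preimage continuous_snd).inter ((open_ns c.1).preimage continuous_snd)

theorem psi_emb (b : J A) : IsOpenEmbedding (psi b) :=
  IsOpenEmbedding.of_continuous_injective_isOpenMap (cont_psi b) (psi_inj b) (psi_open b)

/-- the projection to the plane -/
def pr (p : M A) : ℝ × ℝ := match p.1.1 with
  | none => p.1.2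
  | some b => (b, 0)

theorem pr_sp (b : J A) {v : ℝ × ℝ} (h : Sp A b.1 v.2) : pr (psi b v) = (b.1, 0) := by
  simp [pr, psi_sp b h]

theorem pr_ns (b : J A) {v : ℝ × ℝ} (h : ¬ Sp A b.1 v.2) :
    pr (psi b v) = (b.1 + v.1 * v.2, v.2) := by
  simp [pr, psi_ns b h]

theorem pr_irr (b : J A) (hb : Irrational b.1) (v : ℝ × ℝ) :
    pr (psi b v) = (b.1 + v.1 * v.2, v.2) := by
  by_cases h : Sp A b.1 v.2
  · rw [pr_sp b h]
    rcases h with h | h
    · simp [h.2]
    · exact absurd hb h.1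
  · exact pr_ns b h

theorem pr_rat (b : J A) (hb : ¬ Irrational b.1) (v : ℝ × ℝ) :
    pr (psi b v) = (b.1 + v.1 * max v.2 0, max v.2 0) := by
  by_cases h : v.2 ≤ 0
  · rw [pr_sp b (Or.inr ⟨hb, h⟩)]; simp [h]
  · have h' : ¬ Sp A b.1 v.2 := by
      rintro (h1 | h1)
      · exact h h1.2.le
      · exact h h1.2
    rw [pr_ns b h', max_eq_left (not_le.mp h).le]

theorem cont_pr : Continuous (pr : M A → ℝ × ℝ) := by
  refine cont_iff fun b => ?_
  by_cases hb : Irrational b.1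
  · have : pr ∘ psi b = fun v : ℝ × ℝ => (b.1 + v.1 * v.2, v.2) := funext (pr_irr b hb)
    rw [this]; fun_prop
  · have : pr ∘ psi b = fun v : ℝ × ℝ => (b.1 + v.1 * max v.2 0, max v.2 0) :=
      funext (pr_rat b hb)
    rw [this]; fun_prop

/-- points over the axis -/
theorem axis (p : M A) (h : (pr p).2 = 0) :
    ∃ (b : J A) (v : ℝ × ℝ), b.1 = (pr p).1 ∧ Sp A b.1 v.2 ∧ p = psi b v := by
  obtain ⟨⟨o, v⟩, ⟨h1, h2⟩ | ⟨b, h1, h2⟩⟩ := p
  · dsimp only at h1 h2
    subst h1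
    exact absurd h h2
  · dsimp only at h1 h2
    subst h1
    have hb : b ∈ A ∨ ¬ Irrational b := h2.imp And.left And.left
    refine ⟨⟨b, hb⟩, v, rfl, h2, Subtype.ext ?_⟩
    rw [psi_sp ⟨b, hb⟩ h2]

theorem off_axis (p : M A) (h : (pr p).2 ≠ 0) (a : J A) (ha : Irrational a.1) :
    p = psi a (((pr p).1 - a.1) / (pr p).2, (pr p).2) := by
  obtain ⟨⟨o, v⟩, ⟨h1, h2⟩ | ⟨b, h1, h2⟩⟩ := p
  · dsimp only at h1 h2
    subst h1
    apply Subtype.ext
    have hs : ¬ Sp A a.1 v.2 := by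
      rintro (h3 | h3)
      · exact h2 h3.2
      · exact h3.1 ha
    rw [psi_ns a (by simpa [pr] using hs)]
    simp only [pr, Prod.mk.injEq, true_and]
    refine Prod.ext ?_ rfl
    dsimp only
    field_simp
    ring
  · dsimp only at h1 h2
    subst h1
    exact absurd rfl h

theorem cover (a : J A) (ha : Irrational a.1) (p : M A) : ∃ b v, p = psi b v := by
  by_cases h : (pr p).2 = 0
  · obtain ⟨b, v, -, -, h⟩ := axis p h
    exact ⟨b, v, h⟩
  · exact ⟨a, _, off_axis p h a ha⟩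

theorem t2 (a : J A) (ha : Irrational a.1) : T2Space (M A) := by
  refine ⟨fun p q hpq => ?_⟩
  by_cases h : pr p = pr q
  · have : ∃ b v w, p = psi b v ∧ q = psi b w := by
      by_cases h0 : (pr p).2 = 0
      · obtain ⟨b, v, hb, -, rfl⟩ := axis p h0
        obtain ⟨c, w, hc, -, rfl⟩ := axis q (h ▸ h0)
        have : b = c := Subtype.ext (by rw [hb, hc, h])
        exact ⟨b, v, w, rfl, by rw [this]⟩
      · exact ⟨a, _, _, off_axis p h0 a ha, off_axis q (h ▸ h0) a ha⟩
    obtain ⟨b, v, w, rfl, rfl⟩ := this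
    exact separated_by_isOpenEmbedding (psi_emb b) (ne_of_apply_ne _ hpq)
  · exact separated_by_continuous cont_pr h

theorem ns_pos (b : J A) {y : ℝ} (hy : 0 < y) : ¬ Sp A b.1 y := by
  rintro (h | h)
  · exact hy.ne' h.2
  · exact absurd h.2 (not_le.mpr hy)

theorem conn (a : J A) (ha : Irrational a.1) : ConnectedSpace (M A) := by
  have hu : (⋃ b : J A, range (psi b)) = univ := by
    refine eq_univ_of_forall fun p => ?_
    obtain ⟨b, v, rfl⟩ := cover a ha p
    exact mem_iUnion.mpr ⟨b, v, rfl⟩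
  have : IsPreconnected (⋃ b : J A, range (psi b)) := by
    refine isPreconnected_iUnion ⟨psi a (0, 1), mem_iInter.mpr fun b => ⟨_,
      (psi_trans b a (ns_pos b one_pos) (ns_pos a one_pos)).symm⟩⟩ fun b => ?_
    exact isPreconnected_range (cont_psi b)
  rw [hu] at this
  exact { isPreconnected_univ := this, toNonempty := ⟨psi a 0⟩ }

theorem near_off (b : J A) (hb : Irrational b.1) {W : Set (M A)} (hW : IsOpen W) {v : ℝ × ℝ}
    (hv : psi b v ∈ W) : ∃ w : ℝ × ℝ, psi b w ∈ W ∧ w.2 ≠ 0 := by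
  have hd : Dense {w : ℝ × ℝ | w.2 ≠ 0} :=
    (dense_compl_singleton (0 : ℝ)).preimage isOpenMap_snd
  obtain ⟨w, h1, h2⟩ := hd.inter_open_nonempty _ (hW.preimage (cont_psi b)) ⟨v, hv⟩
  exact ⟨w, h1, h2⟩

theorem sep (a : J A) (ha : Irrational a.1) : TopologicalSpace.SeparableSpace (M A) := by
  rw [← TopologicalSpace.isSeparable_univ_iff]
  have h1 : ∀ b : J A, TopologicalSpace.IsSeparable (range (psi b)) := fun b =>
    TopologicalSpace.isSeparable_range (cont_psi b)
  have h2 := ((h1 a).closure).union (TopologicalSpace.IsSeparable.iUnion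
    fun q : ℚ => h1 ⟨q, Or.inr (Rat.not_irrational q)⟩)
  refine h2.mono fun p _ => ?_
  obtain ⟨b, v, rfl⟩ := cover a ha p
  by_cases hb : Irrational b.1
  · left
    rw [mem_closure_iff]
    intro W hW hv
    obtain ⟨w, h3, h4⟩ := near_off b hb hW hv
    exact ⟨_, h3, _, (off_axis _ (by rwa [pr_irr b hb]) a ha).symm⟩
  · right
    obtain ⟨q, hq⟩ := not_not.mp hb
    obtain ⟨b, hb'⟩ := b
    dsimp only at hq
    subst hq
    exact mem_iUnion.mpr ⟨q, v, rfl⟩

noncomputable def eh : EuclideanSpace ℝ (Fin 2) ≃ₜ ℝ × ℝ :=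
  (EuclideanSpace.equiv (Fin 2) ℝ).toHomeomorph.trans (Homeomorph.finTwoArrow (X := ℝ))

noncomputable def ch (b : J A) : OpenPartialHomeomorph (M A) (EuclideanSpace ℝ (Fin 2)) :=
  (((psi_emb b).comp eh.isOpenEmbedding).toOpenPartialHomeomorph _).symm

@[instance_reducible] noncomputable def charted (a : J A) (ha : Irrational a.1) :
    ChartedSpace (EuclideanSpace ℝ (Fin 2)) (M A) where
  atlas := range ch
  chartAt p := ch (cover a ha p).choose
  mem_chart_source p := by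
    obtain ⟨v, hv⟩ := (cover a ha p).choose_spec
    simp only [ch, OpenPartialHomeomorph.symm_source,
      IsOpenEmbedding.toOpenPartialHomeomorph_target]
    exact ⟨eh.symm v, by simpa using hv.symm⟩
  chart_mem_atlas p := ⟨_, rfl⟩

end Pool.Agent.H81.Pruf
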