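import Pool.Agent.H81.Pruf1
import Pool.Agent.H81.Bern

set_option autoImplicit false

namespace Pool.Agent.H81.Pruf
open Set Topology

def U (A : Set ℝ) : Set (M A) := {p | ∃ a : J A, Irrational a.1 ∧ p ∈ range (psi a)}

variable {A : Set ℝ}

theorem U_open : IsOpen (U A) := by
  have : U A = ⋃ a : {a : J A // Irrational a.1}, range (psi a.1) := by
    ext p; simp [U]
  rw [this]
  exact isOpen_iUnion fun a => (psi_emb a.1).isOpen_range

noncomputable def io (a : J A) (ha : Irrational a.1) (v : ℝ × ℝ) : U A :=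
  ⟨psi a v, a, ha, v, rfl⟩

theorem cont_io (a : J A) (ha : Irrational a.1) : Continuous (io a ha) :=
  (cont_psi a).subtype_mk _

theorem same_chart {b c : J A} {v : ℝ × ℝ} (h : Sp A c.1 v.2) (hr : psi c v ∈ range (psi b)) :
    b = c := by
  obtain ⟨w, hw⟩ := hr
  have h' := congrArg Subtype.val hw
  rw [psi_sp c h] at h'
  by_cases hs : Sp A b.1 w.2
  · rw [psi_sp b hs] at h'
    exact Subtype.ext (by simpa using (Prod.ext_iff.mp h').1)
  · rw [psi_ns b hs] at h'; simp at h'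

theorem sp_zero (b : J A) : Sp A b.1 0 := b.2.imp (fun h => ⟨h, rfl⟩) fun h => ⟨h, le_rfl⟩

def jq (A : Set ℝ) (q : ℚ) : J A := ⟨q, Or.inr (Rat.not_irrational q)⟩

theorem count {e : U A → M A} (he : IsOpenEmbedding e) (b : J A) :
    {a : {a : J A // Irrational a.1} | e (io a.1 a.2 0) ∈ range (psi b)}.Countable := by
  have h : ∀ a : {a : J A // Irrational a.1}, ∃ s : Set (ℝ × ℝ),
      e (io a.1 a.2 0) ∈ range (psi b) → s ∈ TopologicalSpace.countableBasis (ℝ × ℝ) ∧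
        (∃ v ∈ s, psi b v = e (io a.1 a.2 0)) ∧
        s ⊆ psi b ⁻¹' (e '' (Subtype.val ⁻¹' range (psi a.1))) := by
    intro a
    by_cases h : e (io a.1 a.2 0) ∈ range (psi b)
    · obtain ⟨v, hv⟩ := h
      have ho : IsOpen (psi b ⁻¹' (e '' (Subtype.val ⁻¹' range (psi a.1)))) :=
        (he.isOpenMap _ ((psi_emb a.1).isOpen_range.preimage continuous_subtype_val)).preimage
          (cont_psi b)
      obtain ⟨s, hs, hvs, hsub⟩ :=
        (TopologicalSpace.isBasis_countableBasis (ℝ × ℝ)).exists_subset_of_mem_open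
          (a := v) (by exact ⟨io a.1 a.2 0, ⟨0, rfl⟩, hv.symm⟩) ho
      exact ⟨s, fun _ => ⟨hs, ⟨v, hvs, hv⟩, hsub⟩⟩
    · exact ⟨∅, fun h' => absurd h' h⟩
  choose s hs using h
  refine MapsTo.countable_of_injOn (f := s) (fun a ha => (hs a ha).1) (fun a ha a' ha' h => ?_)
    (TopologicalSpace.countable_countableBasis _)
  obtain ⟨v, hv, hv'⟩ := (hs a' ha').2.1
  obtain ⟨u, hu, hu'⟩ := (hs a ha).2.2 (h ▸ hv)
  rw [hv'] at hu'
  have := he.injective hu'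
  subst this
  exact Subtype.ext (same_chart (sp_zero a'.1) hu)

theorem cross {e : U A → M A} (he : Continuous e) (a : J A) (ha : Irrational a.1) (q : ℚ)
    {S : Set (ℝ × ℝ)} (hS : IsPreconnected S) {w w0 : ℝ × ℝ} (hw : w ∈ S) (hw0 : w0 ∈ S)
    (h1 : e (io a ha w) ∈ psi (jq A q) '' {v | v.2 < 0})
    (h0 : (q : ℝ) ≠ (pr (e (io a ha w0))).1) :
    ∃ v ∈ S, ∃ s : ℝ, e (io a ha v) = psi (jq A q) (s, 0) := by
  by_contra hc
  push Not at hc
  have hP : ∀ p ∈ psi (jq A q) '' {v | v.2 < 0}, pr p = ((q : ℝ), 0) := by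
    rintro _ ⟨v, hv, rfl⟩
    exact pr_sp _ (Or.inr ⟨Rat.not_irrational q, le_of_lt hv⟩)
  have key := (hS.image _ (he.comp (cont_io a ha)).continuousOn).subset_left_of_subset_union
    (u := psi (jq A q) '' {v | v.2 < 0}) (v := (pr ⁻¹' {((q : ℝ), 0)})ᶜ)
    (psi_open _ _ (isOpen_lt continuous_snd continuous_const))
    (isClosed_singleton.preimage cont_pr).isOpen_compl
    (disjoint_left.mpr fun p hp hp' => hp' (hP p hp)) ?_
    ⟨e (io a ha w), mem_image_of_mem (e ∘ io a ha) hw, h1⟩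
  · exact h0 (by rw [show pr (e (io a ha w0)) = _ from hP _ (key ⟨w0, hw0, rfl⟩)])
  · rintro _ ⟨v, hv, rfl⟩
    by_cases hp : pr (e (io a ha v)) = ((q : ℝ), 0)
    · left
      obtain ⟨b, u, hb, hs, hu⟩ := axis (e (io a ha v)) (by rw [hp])
      have hbq : b = jq A q := Subtype.ext (by rw [hb, hp]; rfl)
      subst hbq
      have hle : u.2 ≤ 0 := hs.elim (fun h => h.2.le) And.right
      rcases hle.lt_or_eq with h | h
      · exact ⟨u, h, hu.symm⟩
      · exact absurd (by rw [hu, ← h]) (hc v hv u.1)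
    · exact Or.inr hp

theorem good {e : U A → M A} (he : Continuous e) (hd : DenseRange e) (a : J A)
    (ha : Irrational a.1) : ∃ c1 c2 : ℝ, ∀ q : ℚ, (q : ℝ) ≠ c1 → (q : ℝ) ≠ c2 →
      ∃ (u : U A) (s : ℝ), (pr u.1).2 ≠ 0 ∧ e u = psi (jq A q) (s, 0) := by
  refine ⟨(pr (e (io a ha (0, 1)))).1, (pr (e (io a ha (0, -1)))).1, fun q h1 h2 => ?_⟩
  have hP : IsOpen (psi (jq A q) '' {v | v.2 < 0}) :=
    psi_open _ _ (isOpen_lt continuous_snd continuous_const)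
  obtain ⟨⟨_, b, hb, v, rfl⟩, hu⟩ := hd.exists_mem_open hP ⟨_, (0, -1), by simp, rfl⟩
  have hD : Dense {w : ℝ × ℝ | w.2 ≠ 0} :=
    (dense_compl_singleton (0 : ℝ)).preimage isOpenMap_snd
  obtain ⟨w, hw1, hw2⟩ := hD.inter_open_nonempty _ (hP.preimage (he.comp (cont_io b hb))) ⟨v, hu⟩
  have hw3 : (pr (psi b w)).2 ≠ 0 := by rwa [pr_irr b hb]
  have hw4 : io b hb w = io a ha (((pr (psi b w)).1 - a.1) / (pr (psi b w)).2, (pr (psi b w)).2) :=
    Subtype.ext (off_axis _ hw3 a ha)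
  have hw5 : e (io b hb w) ∈ psi (jq A q) '' {v | v.2 < 0} := hw1
  rw [hw4] at hw5
  rcases lt_or_gt_of_ne hw3 with h | h
  · obtain ⟨v, hv, s, hs⟩ := cross he a ha q (S := univ ×ˢ Iio 0)
      (isPreconnected_univ.prod isPreconnected_Iio) (w0 := (0, -1))
      (w := (((pr (psi b w)).1 - a.1) / (pr (psi b w)).2, (pr (psi b w)).2))
      (h1 := hw5) (hw := ⟨trivial, h⟩) (hw0 := ⟨trivial, by simp⟩) h2
    exact ⟨_, s, by rw [io, pr_irr a ha]; exact ne_of_lt hv.2, hs⟩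
  · obtain ⟨v, hv, s, hs⟩ := cross he a ha q (S := univ ×ˢ Ioi 0)
      (isPreconnected_univ.prod isPreconnected_Ioi) (w0 := (0, 1))
      (w := (((pr (psi b w)).1 - a.1) / (pr (psi b w)).2, (pr (psi b w)).2))
      (h1 := hw5) (hw := ⟨trivial, h⟩) (hw0 := ⟨trivial, by simp⟩) h1
    exact ⟨_, s, by rw [io, pr_irr a ha]; exact ne_of_gt hv.2, hs⟩

/-- the window data of an embedding -/
def Win (e : U A → M A) (γ : ℚ → ℝ × ℝ) : Prop :=
  ∀ q : ℚ, ∀ y, 0 < y → y < (γ q).2 → ∃ u0 u : U A, (pr u0.1).2 ≠ 0 ∧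
    e u0 = psi (jq A q) ((γ q).1, 0) ∧ e u = psi (jq A q) ((γ q).1, y) ∧
    |(pr u.1).1 - (pr u0.1).1| < 1 / ((Encodable.encode q : ℝ) + 2) * |(pr u0.1).2| ∧
    |(pr u.1).2 - (pr u0.1).2| < 1 / ((Encodable.encode q : ℝ) + 2) * |(pr u0.1).2|

theorem win {e : U A → M A} (he : IsOpenEmbedding e) (hd : DenseRange e) (a : J A)
    (ha : Irrational a.1) : ∃ γ, Win e γ ∧ ∃ c1 c2 : ℝ, ∀ q : ℚ, (q : ℝ) ≠ c1 → (q : ℝ) ≠ c2 →
      0 < (γ q).2 := by
  obtain ⟨c1, c2, hc⟩ := good he.continuous hd a ha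
  have h : ∀ q : ℚ, ∃ g : ℝ × ℝ, ((q : ℝ) ≠ c1 → (q : ℝ) ≠ c2 → 0 < g.2) ∧
      ∀ y, 0 < y → y < g.2 → ∃ u0 u : U A, (pr u0.1).2 ≠ 0 ∧
      e u0 = psi (jq A q) (g.1, 0) ∧ e u = psi (jq A q) (g.1, y) ∧
      |(pr u.1).1 - (pr u0.1).1| < 1 / ((Encodable.encode q : ℝ) + 2) * |(pr u0.1).2| ∧
      |(pr u.1).2 - (pr u0.1).2| < 1 / ((Encodable.encode q : ℝ) + 2) * |(pr u0.1).2| := by
    intro q
    by_cases hq : (q : ℝ) ≠ c1 ∧ (q : ℝ) ≠ c2
    · obtain ⟨u0, s, h0, hs⟩ := hc q hq.1 hq.2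
      have hr : 0 < 1 / ((Encodable.encode q : ℝ) + 2) * |(pr u0.1).2| :=
        mul_pos (by positivity) (abs_pos.mpr h0)
      have ho : IsOpen ((fun y : ℝ => psi (jq A q) (s, y)) ⁻¹'
          (e '' ((fun u : U A => pr u.1) ⁻¹' Metric.ball (pr u0.1)
            (1 / ((Encodable.encode q : ℝ) + 2) * |(pr u0.1).2|)))) :=
        (he.isOpenMap _ (Metric.isOpen_ball.preimage (cont_pr.comp continuous_subtype_val))).preimage
          ((cont_psi _).comp (by fun_prop))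
      obtain ⟨δ, hδ, hb⟩ := Metric.isOpen_iff.mp ho 0 ⟨u0, Metric.mem_ball_self hr, hs⟩
      refine ⟨(s, δ), fun _ _ => hδ, fun y hy hy' => ?_⟩
      obtain ⟨u, hu, hu'⟩ := hb (show y ∈ Metric.ball 0 δ by
        rw [mem_ball_zero_iff, Real.norm_eq_abs, abs_of_pos hy]; exact hy')
      rw [mem_preimage, Metric.mem_ball, Prod.dist_eq, max_lt_iff, Real.dist_eq,
        Real.dist_eq] at hu
      exact ⟨u0, u, h0, hs, hu', hu.1, hu.2⟩
    · exact ⟨(0, 0), fun h1 h2 => absurd ⟨h1, h2⟩ hq, fun y h1 h2 => absurd h2 (not_lt.mpr h1.le)⟩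
  choose γ h1 h2 using h
  exact ⟨γ, h2, c1, c2, h1⟩

def O (γ : ℚ → ℝ × ℝ) (σ : ℚ) (n : ℕ) : Set ℝ :=
  {a | ∃ (q : ℚ) (y : ℝ), n ≤ Encodable.encode q ∧ 0 < y ∧ y < (γ q).2 ∧ y < 1 / ((n : ℝ) + 1) ∧
    |(γ q).1 + (q - a) / y - σ| < 1 / ((n : ℝ) + 1)}

def G (γ : ℚ → ℝ × ℝ) : Set ℝ := {a | Irrational a} ∩ ⋂ σ : ℚ, ⋂ n : ℕ, O γ σ n

theorem O_open (γ : ℚ → ℝ × ℝ) (σ : ℚ) (n : ℕ) : IsOpen (O γ σ n) := by
  unfold O
  simp only [setOf_exists]
  refine isOpen_iUnion fun q => isOpen_iUnion fun y => ?_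
  simp only [setOf_and]
  refine isOpen_const.inter (isOpen_const.inter (isOpen_const.inter (isOpen_const.inter ?_)))
  exact isOpen_lt (by fun_prop) continuous_const

theorem O_dense {γ : ℚ → ℝ × ℝ} {c1 c2 : ℝ}
    (h : ∀ q : ℚ, (q : ℝ) ≠ c1 → (q : ℝ) ≠ c2 → 0 < (γ q).2) (σ : ℚ) (n : ℕ) :
    Dense (O γ σ n) := by
  refine dense_of_exists_between fun s t hst => ?_
  obtain ⟨r1, h1, h1'⟩ := exists_rat_btwn hst
  obtain ⟨r2, h2, h2'⟩ := exists_rat_btwn h1'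
  have hf : ({q : ℚ | Encodable.encode q < n} ∪ ({q : ℚ | (q : ℝ) = c1} ∪
      {q : ℚ | (q : ℝ) = c2})).Finite := by
    refine Finite.union ?_ (Finite.union ?_ ?_)
    · exact (finite_Iio n).preimage Encodable.encode_injective.injOn
    · exact (finite_singleton c1).preimage Rat.cast_injective.injOn
    · exact (finite_singleton c2).preimage Rat.cast_injective.injOn
  obtain ⟨q, hq, hq'⟩ := (Ioo_infinite (show r1 < r2 by exact_mod_cast h2)).exists_notMem_finite hf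
  simp only [mem_union, mem_setOf_eq, not_or, not_lt] at hq'
  have hq1 : s < q := h1.trans (by exact_mod_cast hq.1)
  have hq2 : (q : ℝ) < t := lt_trans (by exact_mod_cast hq.2) h2'
  have hc : Continuous fun y : ℝ => (q : ℝ) + ((γ q).1 - σ) * y := by fun_prop
  have e1 : ∀ᶠ y in 𝓝 (0 : ℝ), (q : ℝ) + ((γ q).1 - σ) * y ∈ Ioo s t :=
    hc.continuousAt.preimage_mem_nhds (by simpa using Ioo_mem_nhds hq1 hq2)
  have e2 : ∀ᶠ y in 𝓝 (0 : ℝ), y < (γ q).2 := Iio_mem_nhds (h q hq'.2.1 hq'.2.2)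
  have e3 : ∀ᶠ y in 𝓝 (0 : ℝ), y < 1 / ((n : ℝ) + 1) := Iio_mem_nhds (by positivity)
  obtain ⟨y, ⟨hy1, hy2, hy3⟩, hy⟩ :=
    (((e1.and (e2.and e3)).filter_mono (nhdsWithin_le_nhds (s := Ioi 0))).and
      self_mem_nhdsWithin).exists
  have hy' : 0 < y := hy
  refine ⟨_, ⟨q, y, hq'.1, hy', hy2, hy3, ?_⟩, hy1.1, hy1.2⟩
  have : (γ q).1 + (q - (q + ((γ q).1 - σ) * y)) / y - σ = 0 := by field_simp; ring
  rw [this, abs_zero]; positivity

theorem G_card {γ : ℚ → ℝ × ℝ} {c1 c2 : ℝ}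
    (h : ∀ q : ℚ, (q : ℝ) ≠ c1 → (q : ℝ) ≠ c2 → 0 < (γ q).2) :
    Cardinal.mk (G γ) = Cardinal.continuum := by
  refine Bern.mk_residual ?_ ?_
  · refine MeasurableSet.inter IsGδ.setOf_irrational.measurableSet ?_
    exact MeasurableSet.iInter fun σ => MeasurableSet.iInter fun n => (O_open γ σ n).measurableSet
  · refine Filter.inter_mem eventually_residual_irrational ?_
    exact countable_iInter_mem.mpr fun σ => countable_iInter_mem.mpr fun n =>
      residual_of_dense_open (O_open γ σ n) (O_dense h σ n)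

theorem nofix {e : U A → M A} (he : IsOpenEmbedding e) {γ : ℚ → ℝ × ℝ} (hγ : Win e γ)
    (a : J A) (ha : Irrational a.1) (hG : a.1 ∈ G γ) : pr (e (io a ha 0)) ≠ (a.1, 0) := by
  intro hp
  obtain ⟨b, v, hb, hs, hv⟩ := axis (e (io a ha 0)) (by rw [hp])
  have hba : b = a := Subtype.ext (by rw [hb, hp])
  subst hba
  have hv2 : v.2 = 0 := hs.elim And.right fun h => absurd ha h.1
  obtain ⟨ε, hε, h1⟩ := Metric.isOpen_iff.mp
    ((psi_emb b).isOpen_range.preimage (he.continuous.comp (cont_io b ha))) 0 ⟨v, hv.symm⟩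
  have ho : IsOpen (psi b ⁻¹' (e '' (Subtype.val ⁻¹' (psi b '' Metric.ball 0 (ε / 4))))) :=
    (he.isOpenMap _ ((psi_open b _ Metric.isOpen_ball).preimage continuous_subtype_val)).preimage
      (cont_psi b)
  obtain ⟨ε', hε', h2⟩ := Metric.isOpen_iff.mp ho v
    ⟨io b ha 0, ⟨0, Metric.mem_ball_self (by positivity), rfl⟩, hv⟩
  obtain ⟨σ, hσ⟩ := exists_rat_near v.1 (half_pos hε')
  obtain ⟨n, hn⟩ := exists_nat_one_div_lt (lt_min (half_pos hε') (show 0 < ε / 4 by positivity))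
  rw [lt_min_iff] at hn
  obtain ⟨q, y, hq, hy, hy1, hy2, hy3⟩ := mem_iInter.mp (mem_iInter.mp hG.2 σ) n
  obtain ⟨u0, u, h0, e0, e1, c1, c2⟩ := hγ q y hy hy1
  rw [psi_trans b (jq A q) (ns_pos b hy) (ns_pos _ hy)] at e1
  obtain ⟨u', ⟨w, hw, hw'⟩, e2⟩ := h2 (show ((γ q).1 + ((jq A q).1 - b.1) / y, y) ∈
      Metric.ball v ε' by
    rw [Metric.mem_ball, Prod.dist_eq, max_lt_iff, Real.dist_eq, Real.dist_eq, hv2, sub_zero,
      abs_of_pos hy]
    refine ⟨?_, by linarith [hn.1]⟩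
    have := abs_sub_le ((γ q).1 + ((q : ℝ) - b.1) / y) σ v.1
    rw [abs_sub_comm (σ : ℝ)] at this
    change |(γ q).1 + ((q : ℝ) - b.1) / y - v.1| < ε'
    linarith [hn.1])
  have huu : u' = u := he.injective (e2.trans e1.symm)
  subst huu
  rw [← hw', pr_irr b ha] at c1 c2
  dsimp only at c1 c2
  rw [mem_ball_zero_iff, Prod.norm_def, max_lt_iff, Real.norm_eq_abs, Real.norm_eq_abs] at hw
  have hη1 : 1 / ((Encodable.encode q : ℝ) + 2) ≤ 1 / 2 :=
    one_div_le_one_div_of_le two_pos (by linarith [Nat.cast_nonneg (α := ℝ) (Encodable.encode q)])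
  have hη2 : 1 / ((Encodable.encode q : ℝ) + 2) ≤ 1 / ((n : ℝ) + 1) :=
    one_div_le_one_div_of_le (by positivity)
      (by linarith [(Nat.cast_le (α := ℝ)).mpr hq])
  generalize 1 / ((Encodable.encode q : ℝ) + 2) = η at *
  have hu0 : u0 = io b ha (((pr u0.1).1 - b.1) / (pr u0.1).2, (pr u0.1).2) :=
    Subtype.ext (off_axis _ h0 b ha)
  have hY := abs_pos.mpr h0
  generalize (pr u0.1).1 = X at *
  generalize (pr u0.1).2 = Y at *
  have t1 : |Y| ≤ |w.2| + |w.2 - Y| := by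
    have := abs_sub w.2 (w.2 - Y); simpa using this
  have t2 : |w.2| ≤ |Y| + |w.2 - Y| := by
    have := abs_add_le Y (w.2 - Y); simpa using this
  have t3 : |X - b.1| ≤ |w.1| * |w.2| + |b.1 + w.1 * w.2 - X| := by
    have := abs_sub (w.1 * w.2) (b.1 + w.1 * w.2 - X)
    rwa [abs_mul, show w.1 * w.2 - (b.1 + w.1 * w.2 - X) = X - b.1 by ring] at this
  have t4 : η * |Y| ≤ 1 / 2 * |Y| := by gcongr
  have t5 : η * |Y| ≤ ε / 4 * |Y| := by gcongr; linarith [hn.2]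
  have t6 : |w.1| * |w.2| ≤ ε / 4 * (3 / 2 * |Y|) :=
    mul_le_mul hw.1.le (by linarith) (abs_nonneg _) (by positivity)
  have hm := h1 (show ((X - b.1) / Y, Y) ∈ Metric.ball (0 : ℝ × ℝ) ε by
    rw [mem_ball_zero_iff, Prod.norm_def, max_lt_iff, Real.norm_eq_abs, Real.norm_eq_abs]
    refine ⟨?_, by dsimp only; linarith [hw.2]⟩
    dsimp only
    rw [abs_div, div_lt_iff₀ hY]
    nlinarith [mul_pos hε hY])
  have hm' : e u0 ∈ range (psi b) := by rw [hu0]; exact hm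
  rw [e0] at hm'
  have := same_chart (sp_zero _) hm'
  subst this
  exact Rat.not_irrational q ha

end Pool.Agent.H81.Pruf
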