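import Mathlib

namespace H81Quadri
open Set MeasureTheory
open scoped ENNReal

/-- A convex `m`-gon in the plane `ℝ × ℝ`: the convex hull of `m` points, each of which is an
extreme point (vertex) of the hull, with nonempty interior. -/
def IsConvexGon (m : ℕ) (R : Set (ℝ × ℝ)) : Prop :=
  (interior R).Nonempty ∧ ∃ V : Finset (ℝ × ℝ), V.card = m ∧
    R = convexHull ℝ (V : Set (ℝ × ℝ)) ∧ ∀ v ∈ V, v ∈ extremePoints ℝ R

/-- Euclidean dot product. -/
def dot (a b : ℝ × ℝ) : ℝ := a.1 * b.1 + a.2 * b.2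

/-- Rotation by a right angle. -/
def perp (u : ℝ × ℝ) : ℝ × ℝ := (-u.2, u.1)

/-- The line through `p` orthogonal to `w`. -/
def line (p w : ℝ × ℝ) : Set (ℝ × ℝ) := {z | dot (z - p) w = 0}

/-- The closed quadrant with signs `e₁, e₂` bounded by `line p u` and `line p (perp u)`. -/
def quad (p u : ℝ × ℝ) (e₁ e₂ : ℝ) : Set (ℝ × ℝ) :=
  {z | 0 ≤ e₁ * dot (z - p) u ∧ 0 ≤ e₂ * dot (z - p) (perp u)}

/-- The quadrisections of `R`: unordered pairs of perpendicular lines meeting at an interior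
point of `R` whose four closed quadrants each meet `R` in a quarter of its area. -/
def quadrisections (R : Set (ℝ × ℝ)) : Set (Set (Set (ℝ × ℝ))) :=
  {L | ∃ p u : ℝ × ℝ, u ≠ 0 ∧ p ∈ interior R ∧ L = {line p u, line p (perp u)} ∧
    ∀ e₁ ∈ ({1, -1} : Set ℝ), ∀ e₂ ∈ ({1, -1} : Set ℝ),
      volume (R ∩ quad p u e₁ e₂) = volume R / 4}

lemma line_null (α β : ℝ) (h : α ≠ 0 ∨ β ≠ 0) :
    volume {z : ℝ × ℝ | α * z.1 + β * z.2 = 0} = 0 := by
  let f : (ℝ × ℝ) →ₗ[ℝ] ℝ := α • LinearMap.fst ℝ ℝ ℝ + β • LinearMap.snd ℝ ℝ ℝ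
  have h1 : {z : ℝ × ℝ | α * z.1 + β * z.2 = 0} = (LinearMap.ker f : Set (ℝ × ℝ)) := by
    ext z; simp [f]
  rw [h1]
  apply Measure.addHaar_submodule
  intro ht
  have a1 : ((1 : ℝ), (0 : ℝ)) ∈ LinearMap.ker f := by rw [ht]; trivial
  have a2 : ((0 : ℝ), (1 : ℝ)) ∈ LinearMap.ker f := by rw [ht]; trivial
  simp [f] at a1 a2
  tauto

lemma split (A : Set (ℝ × ℝ)) (hA : MeasurableSet A) (α β : ℝ) (h : α ≠ 0 ∨ β ≠ 0) :
    volume A = volume (A ∩ {z | 0 ≤ α * z.1 + β * z.2}) +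
      volume (A ∩ {z | α * z.1 + β * z.2 ≤ 0}) := by
  have hm : MeasurableSet {z : ℝ × ℝ | α * z.1 + β * z.2 ≤ 0} :=
    measurableSet_le (by fun_prop) measurable_const
  have h1 := measure_union_add_inter (μ := (volume : Measure (ℝ × ℝ)))
    (A ∩ {z | 0 ≤ α * z.1 + β * z.2}) (hA.inter hm)
  have h2 : volume ((A ∩ {z | 0 ≤ α * z.1 + β * z.2}) ∩
      (A ∩ {z : ℝ × ℝ | α * z.1 + β * z.2 ≤ 0})) = 0 := by
    apply measure_mono_null _ (line_null α β h)
    rintro z ⟨⟨-, h1⟩, -, h2⟩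
    exact le_antisymm h2 h1
  have h3 : (A ∩ {z | 0 ≤ α * z.1 + β * z.2}) ∪
      (A ∩ {z : ℝ × ℝ | α * z.1 + β * z.2 ≤ 0}) = A := by
    ext z
    simp only [mem_union, mem_inter_iff, mem_setOf_eq]
    constructor
    · rintro (h | h) <;> exact h.1
    · intro hz
      rcases le_total 0 (α * z.1 + β * z.2) with h | h
      · exact Or.inl ⟨hz, h⟩
      · exact Or.inr ⟨hz, h⟩
  rw [h2, h3, add_zero] at h1
  exact h1

lemma four_eq (R : Set (ℝ × ℝ)) (hR : MeasurableSet R) (t : ℝ) (v : ℝ≥0∞)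
    (h : ∀ e₁ ∈ ({1, -1} : Set ℝ), ∀ e₂ ∈ ({1, -1} : Set ℝ),
      volume (R ∩ quad 0 (1, t) e₁ e₂) = v) : volume R / 4 = v := by
  have m1 : MeasurableSet {z : ℝ × ℝ | 0 ≤ 1 * z.1 + t * z.2} :=
    measurableSet_le measurable_const (by fun_prop)
  have m2 : MeasurableSet {z : ℝ × ℝ | 1 * z.1 + t * z.2 ≤ 0} :=
    measurableSet_le (by fun_prop) measurable_const
  have e1 := split R hR 1 t (Or.inl one_ne_zero)
  have e2 := split _ (hR.inter m1) (-t) 1 (Or.inr one_ne_zero)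
  have e3 := split _ (hR.inter m2) (-t) 1 (Or.inr one_ne_zero)
  have q1 := h 1 (by simp) 1 (by simp)
  have q2 := h 1 (by simp) (-1) (by simp)
  have q3 := h (-1) (by simp) 1 (by simp)
  have q4 := h (-1) (by simp) (-1) (by simp)
  have key : ∀ (A B : Set (ℝ × ℝ)) (e₁ e₂ : ℝ), (∀ z, z ∈ A ∧ z ∈ B ↔ z ∈ quad 0 (1, t) e₁ e₂) →
      R ∩ A ∩ B = R ∩ quad 0 (1, t) e₁ e₂ := by
    intro A B e₁ e₂ hz
    ext z
    rw [inter_assoc, mem_inter_iff, mem_inter_iff, hz z, mem_inter_iff]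
  rw [key _ _ 1 1, key _ _ 1 (-1), q1, q2] at e2
  rw [key _ _ (-1) 1, key _ _ (-1) (-1), q3, q4] at e3
  · rw [e1, e2, e3]
    have : v + v + (v + v) = v * 4 := by ring
    rw [this]
    exact ENNReal.mul_div_cancel_right (by norm_num) (by norm_num)
  all_goals
    intro z
    simp only [quad, dot, perp, mem_setOf_eq, sub_zero]
    constructor <;> rintro ⟨a, b⟩ <;> constructor <;> linarith

lemma extreme_of (V : Set (ℝ × ℝ)) (v : ℝ × ℝ) (hv : v ∈ V) (α β : ℝ)
    (h : ∀ w ∈ V, w ≠ v → α * v.1 + β * v.2 < α * w.1 + β * w.2) :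
    v ∈ extremePoints ℝ (convexHull ℝ V) := by
  have hs : convexHull ℝ V ⊆ {z | z = v ∨ α * v.1 + β * v.2 < α * z.1 + β * z.2} := by
    apply convexHull_min
    · intro w hw
      by_cases e : w = v
      · exact Or.inl e
      · exact Or.inr (h w hw e)
    · intro x hx y hy a b ha hb hab
      have hb' : b = 1 - a := by linarith
      subst hb'
      simp only [mem_setOf_eq, Prod.fst_add, Prod.snd_add, Prod.smul_fst, Prod.smul_snd,
        smul_eq_mul] at hx hy ⊢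
      rcases hx with hx | hx <;> rcases hy with hy | hy
      · left; rw [hx, hy, ← add_smul]; simp
      · rcases eq_or_lt_of_le hb with e | e
        · left; rw [← e, hx]
          have : a = 1 := by linarith
          simp [this]
        · right; rw [hx]; nlinarith
      · rcases eq_or_lt_of_le ha with e | e
        · left; rw [← e, hy]; simp
        · right; rw [hy]; nlinarith
      · right
        rcases eq_or_lt_of_le ha with e | e
        · rw [← e]; simpa using hy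
        · nlinarith
  rw [mem_extremePoints]
  refine ⟨subset_convexHull ℝ V hv, ?_⟩
  intro x hx y hy hxy
  obtain ⟨a, b, ha, hb, hab, e⟩ := hxy
  have e1 := congrArg Prod.fst e
  have e2 := congrArg Prod.snd e
  simp only [Prod.fst_add, Prod.snd_add, Prod.smul_fst, Prod.smul_snd, smul_eq_mul] at e1 e2
  have hb' : b = 1 - a := by linarith
  subst hb'
  have E : α * v.1 + β * v.2 = a * (α * x.1 + β * x.2) + (1 - a) * (α * y.1 + β * y.2) := by
    rw [← e1, ← e2]; ring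
  rcases hs hx with h1 | h1 <;> rcases hs hy with h2 | h2
  · exact ⟨h1, h2⟩
  · exfalso; rw [h1] at E; nlinarith
  · exfalso; rw [h2] at E; nlinarith
  · exfalso; nlinarith

lemma mem_vert {R : Set (ℝ × ℝ)} (hR : Convex ℝ R) {a b c d x y : ℝ} (hp : (a, b) ∈ R)
    (hq : (c, d) ∈ R) (hbd : b < d) (h1 : b ≤ y) (h2 : y ≤ d)
    (h3 : (x - a) * (d - b) = (y - b) * (c - a)) : (x, y) ∈ R := by
  have hpos : 0 < d - b := by linarith
  have := hR.add_smul_sub_mem hp hq (t := (y - b) / (d - b))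
    ⟨div_nonneg (by linarith) hpos.le, (div_le_one hpos).2 (by linarith)⟩
  convert this using 1
  ext
  · simp only [Prod.fst_add, Prod.smul_fst, Prod.fst_sub, smul_eq_mul]
    field_simp
    linarith
  · simp only [Prod.snd_add, Prod.smul_snd, Prod.snd_sub, smul_eq_mul]
    field_simp
    ring

lemma mem_hor {R : Set (ℝ × ℝ)} (hR : Convex ℝ R) {l r x y : ℝ} (hp : (l, y) ∈ R)
    (hq : (r, y) ∈ R) (h1 : l ≤ x) (h2 : x ≤ r) : (x, y) ∈ R := by
  rcases eq_or_lt_of_le (h1.trans h2) with e | e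
  · have : x = l := by linarith
    rw [this]; exact hp
  have hpos : 0 < r - l := by linarith
  have := hR.add_smul_sub_mem hp hq (t := (x - l) / (r - l))
    ⟨div_nonneg (by linarith) hpos.le, (div_le_one hpos).2 (by linarith)⟩
  convert this using 1
  ext
  · simp only [Prod.fst_add, Prod.smul_fst, Prod.fst_sub, smul_eq_mul]
    field_simp
    ring
  · simp

/-- the parabola arc at the first corner -/
noncomputable def w (u : ℝ) : ℝ × ℝ := (u - 5, (1 - u) * (2 - u) / 2 - 5)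

noncomputable def W (k : ℕ) : Finset (ℝ × ℝ) :=
  (Finset.range (k + 2)).image (fun j : ℕ => w ((j : ℝ) / (k + 1)))

noncomputable def V0 (s : ℝ) : Finset (ℝ × ℝ) :=
  {(5 - s, -5), (5, -5 + s), (5, 5 - s), (5 - s, 5), (-5 + s, 5), (-5, 5 - s)}

lemma mem_W {k : ℕ} {z : ℝ × ℝ} (hz : z ∈ W k) : ∃ u, 0 ≤ u ∧ u ≤ 1 ∧ z = w u := by
  simp only [W, Finset.mem_image, Finset.mem_range] at hz
  obtain ⟨j, hj, rfl⟩ := hz
  refine ⟨_, by positivity, ?_, rfl⟩
  rw [div_le_one (by positivity)]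
  have : j ≤ k + 1 := by omega
  exact_mod_cast this

lemma A1_mem (k : ℕ) : ((-5 : ℝ), (-4 : ℝ)) ∈ W k := by
  simp only [W, Finset.mem_image, Finset.mem_range]
  refine ⟨0, by omega, ?_⟩
  simp [w]; norm_num

lemma A2_mem (k : ℕ) : ((-4 : ℝ), (-5 : ℝ)) ∈ W k := by
  simp only [W, Finset.mem_image, Finset.mem_range]
  refine ⟨k + 1, by omega, ?_⟩
  have : ((k + 1 : ℕ) : ℝ) / (k + 1) = 1 := by
    push_cast; exact div_self (by positivity)
  rw [this]; simp [w]; norm_num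

lemma card_W (k : ℕ) : (W k).card = k + 2 := by
  rw [W, Finset.card_image_of_injective, Finset.card_range]
  intro i j h
  have := congrArg Prod.fst h
  simp only [w] at this
  have h2 : (i : ℝ) / (k + 1) = (j : ℝ) / (k + 1) := by linarith
  rw [div_left_inj' (by positivity)] at h2
  exact_mod_cast h2

lemma card_V0 {s : ℝ} (h0 : 0 < s) (h1 : s ≤ 1) : (V0 s).card = 6 := by
  unfold V0
  rw [Finset.card_insert_of_notMem, Finset.card_insert_of_notMem, Finset.card_insert_of_notMem,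
    Finset.card_insert_of_notMem, Finset.card_insert_of_notMem, Finset.card_singleton]
  all_goals simp only [Finset.mem_insert, Finset.mem_singleton, Prod.mk.injEq]
  · rintro ⟨h, h'⟩; linarith
  · rintro (⟨h, h'⟩ | ⟨h, h'⟩) <;> linarith
  · rintro (⟨h, h'⟩ | ⟨h, h'⟩ | ⟨h, h'⟩) <;> linarith
  · rintro (⟨h, h'⟩ | ⟨h, h'⟩ | ⟨h, h'⟩ | ⟨h, h'⟩) <;> linarith
  · rintro (⟨h, h'⟩ | ⟨h, h'⟩ | ⟨h, h'⟩ | ⟨h, h'⟩ | ⟨h, h'⟩) <;> linarith

noncomputable def V (k : ℕ) (s : ℝ) : Finset (ℝ × ℝ) := W k ∪ V0 s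

lemma mem_V {k : ℕ} {s : ℝ} {z : ℝ × ℝ} (hz : z ∈ V k s) :
    (∃ u, 0 ≤ u ∧ u ≤ 1 ∧ z = w u) ∨ z = (5 - s, -5) ∨ z = (5, -5 + s) ∨ z = (5, 5 - s) ∨
      z = (5 - s, 5) ∨ z = (-5 + s, 5) ∨ z = (-5, 5 - s) := by
  rcases Finset.mem_union.1 hz with h | h
  · exact Or.inl (mem_W h)
  · right; simpa [V0] using h

lemma card_V (k : ℕ) {s : ℝ} (h0 : 0 < s) (h1 : s ≤ 1) : (V k s).card = k + 8 := by
  rw [V, Finset.card_union_of_disjoint, card_W, card_V0 h0 h1]
  rw [Finset.disjoint_left]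
  intro z hz hz'
  obtain ⟨u, u0, u1, rfl⟩ := mem_W hz
  have hφ : (1 - u) * (2 - u) ≤ 2 := by nlinarith
  simp only [V0, w, Finset.mem_insert, Finset.mem_singleton, Prod.mk.injEq] at hz'
  rcases hz' with ⟨h, h'⟩ | ⟨h, h'⟩ | ⟨h, h'⟩ | ⟨h, h'⟩ | ⟨h, h'⟩ | ⟨h, h'⟩ <;> linarith

lemma extreme_V (k : ℕ) {s : ℝ} (h0 : 0 < s) (h1 : s ≤ 1) :
    ∀ v ∈ V k s, v ∈ extremePoints ℝ (convexHull ℝ (V k s : Set (ℝ × ℝ))) := by
  intro v hv
  have gen : ∀ α β : ℝ, (∀ z ∈ V k s, z ≠ v → α * v.1 + β * v.2 < α * z.1 + β * z.2) →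
      v ∈ extremePoints ℝ (convexHull ℝ (V k s : Set (ℝ × ℝ))) :=
    fun α β h => extreme_of _ v hv α β h
  rcases mem_V hv with ⟨u, u0, u1, rfl⟩ | rfl | rfl | rfl | rfl | rfl | rfl
  · apply gen (3 / 2 - u) 1
    intro z hz hne
    have hφ : (1 - u) * (2 - u) ≤ 2 := by nlinarith
    rcases mem_V hz with ⟨u', u0', u1', rfl⟩ | rfl | rfl | rfl | rfl | rfl | rfl
    · have : u' ≠ u := fun e => hne (by rw [e])
      have h2 : 0 < (u' - u) ^ 2 := by positivity
      simp only [w]; nlinarith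
    all_goals simp only [w]; nlinarith
  · apply gen (-1) 2
    intro z hz hne
    rcases mem_V hz with ⟨u', u0', u1', rfl⟩ | rfl | rfl | rfl | rfl | rfl | rfl
    · simp only [w]; nlinarith
    all_goals first | exact absurd rfl hne | (simp only; linarith)
  · apply gen (-2) 1
    intro z hz hne
    rcases mem_V hz with ⟨u', u0', u1', rfl⟩ | rfl | rfl | rfl | rfl | rfl | rfl
    · simp only [w]; nlinarith
    all_goals first | exact absurd rfl hne | (simp only; linarith)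
  · apply gen (-2) (-1)
    intro z hz hne
    rcases mem_V hz with ⟨u', u0', u1', rfl⟩ | rfl | rfl | rfl | rfl | rfl | rfl
    · simp only [w]; nlinarith
    all_goals first | exact absurd rfl hne | (simp only; linarith)
  · apply gen (-1) (-2)
    intro z hz hne
    rcases mem_V hz with ⟨u', u0', u1', rfl⟩ | rfl | rfl | rfl | rfl | rfl | rfl
    · simp only [w]; nlinarith
    all_goals first | exact absurd rfl hne | (simp only; linarith)
  · apply gen 1 (-2)
    intro z hz hne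
    rcases mem_V hz with ⟨u', u0', u1', rfl⟩ | rfl | rfl | rfl | rfl | rfl | rfl
    · simp only [w]; nlinarith
    all_goals first | exact absurd rfl hne | (simp only; linarith)
  · apply gen 2 (-1)
    intro z hz hne
    rcases mem_V hz with ⟨u', u0', u1', rfl⟩ | rfl | rfl | rfl | rfl | rfl | rfl
    · simp only [w]; nlinarith
    all_goals first | exact absurd rfl hne | (simp only; linarith)

end H81Quadri
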