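import Pool.Agent.H81.Quadri

namespace H81Quadri
open Set MeasureTheory
open scoped ENNReal

def P (s : ℝ) : Set (ℝ × ℝ) :=
  {z | -5 ≤ z.1 ∧ z.1 ≤ 5 ∧ -5 ≤ z.2 ∧ z.2 ≤ 5 ∧ z.1 - z.2 ≤ 10 - s ∧ z.1 + z.2 ≤ 10 - s ∧
    z.2 - z.1 ≤ 10 - s}

noncomputable def H (k : ℕ) : Set (ℝ × ℝ) := convexHull ℝ (W k : Set (ℝ × ℝ))

noncomputable def RR (k : ℕ) (s : ℝ) : Set (ℝ × ℝ) := convexHull ℝ (V k s : Set (ℝ × ℝ))

lemma convex_P (s : ℝ) : Convex ℝ (P s) := by
  intro x hx y hy a b ha hb hab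
  have hb' : b = 1 - a := by linarith
  subst hb'
  simp only [P, mem_setOf_eq, Prod.fst_add, Prod.snd_add, Prod.smul_fst, Prod.smul_snd,
    smul_eq_mul] at hx hy ⊢
  obtain ⟨h1, h2, h3, h4, h5, h6, h7⟩ := hx
  obtain ⟨g1, g2, g3, g4, g5, g6, g7⟩ := hy
  refine ⟨?_, ?_, ?_, ?_, ?_, ?_, ?_⟩ <;> nlinarith

lemma V_sub_P (k : ℕ) {s : ℝ} (h0 : 0 < s) (h1 : s ≤ 1) : (V k s : Set (ℝ × ℝ)) ⊆ P s := by
  intro z hz
  rcases mem_V hz with ⟨u, u0, u1, rfl⟩ | rfl | rfl | rfl | rfl | rfl | rfl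
  · have hφ : (1 - u) * (2 - u) ≤ 2 := by nlinarith
    have hφ' : 0 ≤ (1 - u) * (2 - u) := by nlinarith
    simp only [P, w, mem_setOf_eq]
    refine ⟨?_, ?_, ?_, ?_, ?_, ?_, ?_⟩ <;> linarith
  all_goals
    simp only [P, mem_setOf_eq]
    refine ⟨?_, ?_, ?_, ?_, ?_, ?_, ?_⟩ <;> linarith

lemma H_sub_RR (k : ℕ) (s : ℝ) : H k ⊆ RR k s := by
  apply convexHull_mono
  intro z hz
  exact Finset.mem_coe.2 (Finset.mem_union_left _ (Finset.mem_coe.1 hz))

lemma seg_H (k : ℕ) {x y : ℝ} (hx : -5 ≤ x) (hy : -5 ≤ y) (h : x + y = -9) : (x, y) ∈ H k := by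
  refine mem_vert (convex_convexHull ℝ _) (subset_convexHull ℝ _ (Finset.mem_coe.2 (A2_mem k)))
    (subset_convexHull ℝ _ (Finset.mem_coe.2 (A1_mem k))) (by norm_num) hy (by linarith) ?_
  linarith

lemma oct_sub (k : ℕ) {s : ℝ} (h0 : 0 < s) (h1 : s ≤ 1) {x y : ℝ} (hz : (x, y) ∈ P s)
    (h : -9 ≤ x + y) : (x, y) ∈ RR k s := by
  have hc : Convex ℝ (RR k s) := convex_convexHull ℝ _
  have m : ∀ z ∈ V0 s, z ∈ RR k s := fun z hz =>
    subset_convexHull ℝ _ (Finset.mem_coe.2 (Finset.mem_union_right _ hz))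
  have B1 : ((5 - s : ℝ), (-5 : ℝ)) ∈ RR k s := m _ (by simp [V0])
  have B2 : ((5 : ℝ), (-5 + s : ℝ)) ∈ RR k s := m _ (by simp [V0])
  have B3 : ((5 : ℝ), (5 - s : ℝ)) ∈ RR k s := m _ (by simp [V0])
  have B4 : ((5 - s : ℝ), (5 : ℝ)) ∈ RR k s := m _ (by simp [V0])
  have B5 : ((-5 + s : ℝ), (5 : ℝ)) ∈ RR k s := m _ (by simp [V0])
  have B6 : ((-5 : ℝ), (5 - s : ℝ)) ∈ RR k s := m _ (by simp [V0])
  have A1 : ((-5 : ℝ), (-4 : ℝ)) ∈ RR k s :=
    H_sub_RR k s (seg_H k (by norm_num) (by norm_num) (by norm_num))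
  simp only [P, mem_setOf_eq] at hz
  obtain ⟨g1, g2, g3, g4, g5, g6, g7⟩ := hz
  have hl : ∃ l, l ≤ x ∧ (l, y) ∈ RR k s := by
    rcases le_total y (-4) with a | a
    · exact ⟨-9 - y, by linarith, H_sub_RR k s (seg_H k (by linarith) g3 (by ring))⟩
    rcases le_total y (5 - s) with b | b
    · exact ⟨-5, g1, mem_vert hc A1 B6 (by linarith) a b (by ring)⟩
    · exact ⟨y - 10 + s, by linarith, mem_vert hc B6 B5 (by linarith) b g4 (by ring)⟩
  have hr : ∃ r, x ≤ r ∧ (r, y) ∈ RR k s := by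
    rcases le_total y (-5 + s) with a | a
    · exact ⟨10 - s + y, by linarith, mem_vert hc B1 B2 (by linarith) g3 a (by ring)⟩
    rcases le_total y (5 - s) with b | b
    · exact ⟨5, g2, mem_vert hc B2 B3 (by linarith) a b (by ring)⟩
    · exact ⟨10 - s - y, by linarith, mem_vert hc B3 B4 (by linarith) b g4 (by ring)⟩
  obtain ⟨l, l1, l2⟩ := hl
  obtain ⟨r, r1, r2⟩ := hr
  exact mem_hor hc l2 r2 l1 r1

lemma cross (k : ℕ) {s : ℝ} {x y : ℝ × ℝ} (hx : x ∈ P s) (hy : y ∈ P s) (hxH : x ∈ H k)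
    (h1 : x.1 + x.2 < -9) (h2 : -9 ≤ y.1 + y.2) {a b : ℝ} (ha : 0 ≤ a) (hb : 0 ≤ b)
    (hab : a + b = 1) (h3 : (a • x + b • y).1 + (a • x + b • y).2 < -9) :
    a • x + b • y ∈ H k := by
  have hc : Convex ℝ (H k) := convex_convexHull ℝ _
  have ha' : a = 1 - b := by linarith
  subst ha'
  simp only [Prod.fst_add, Prod.snd_add, Prod.smul_fst, Prod.smul_snd, smul_eq_mul] at h3
  simp only [P, mem_setOf_eq] at hx hy
  have hd : 0 < (y.1 + y.2) - (x.1 + x.2) := by linarith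
  set τ := (-9 - (x.1 + x.2)) / ((y.1 + y.2) - (x.1 + x.2)) with hτ
  have τ0 : 0 < τ := div_pos (by linarith) hd
  have τ1 : τ ≤ 1 := (div_le_one hd).2 (by linarith)
  have τe : τ * ((y.1 + y.2) - (x.1 + x.2)) = -9 - (x.1 + x.2) := div_mul_cancel₀ _ hd.ne'
  have bτ : b ≤ τ := by
    rw [hτ, le_div_iff₀ hd]; nlinarith
  have hz : (x.1 + τ * (y.1 - x.1), x.2 + τ * (y.2 - x.2)) ∈ H k := by
    apply seg_H k
    · nlinarith [hx.1, hy.1]
    · nlinarith [hx.2.2.1, hy.2.2.1]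
    · linarith
  have := hc.add_smul_sub_mem hxH hz (t := b / τ)
    ⟨div_nonneg hb τ0.le, (div_le_one τ0).2 bτ⟩
  convert this using 1
  ext
  · simp only [Prod.fst_add, Prod.smul_fst, Prod.fst_sub, smul_eq_mul]
    field_simp
    ring
  · simp only [Prod.snd_add, Prod.smul_snd, Prod.snd_sub, smul_eq_mul]
    field_simp
    ring

lemma mem_RR (k : ℕ) {s : ℝ} (h0 : 0 < s) (h1 : s ≤ 1) (z : ℝ × ℝ) :
    z ∈ RR k s ↔ z ∈ P s ∧ (z.1 + z.2 < -9 → z ∈ H k) := by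
  constructor
  · intro hz
    have : RR k s ⊆ {z | z ∈ P s ∧ (z.1 + z.2 < -9 → z ∈ H k)} := by
      apply convexHull_min
      · intro v hv
        refine ⟨V_sub_P k h0 h1 hv, fun h => ?_⟩
        rcases Finset.mem_union.1 (Finset.mem_coe.1 hv) with h' | h'
        · exact subset_convexHull ℝ _ (Finset.mem_coe.2 h')
        · exfalso
          simp only [V0, Finset.mem_insert, Finset.mem_singleton] at h'
          rcases h' with rfl | rfl | rfl | rfl | rfl | rfl <;> simp only at h <;> linarith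
      · intro x hx y hy a b ha hb hab
        refine ⟨convex_P s hx.1 hy.1 ha hb hab, fun h3 => ?_⟩
        rcases lt_or_ge (x.1 + x.2) (-9) with c1 | c1 <;>
          rcases lt_or_ge (y.1 + y.2) (-9) with c2 | c2
        · exact (convex_convexHull ℝ _) (hx.2 c1) (hy.2 c2) ha hb hab
        · exact cross k hx.1 hy.1 (hx.2 c1) c1 c2 ha hb hab h3
        · rw [add_comm] at h3 ⊢
          rw [add_comm (a • x)] at h3
          exact cross k hy.1 hx.1 (hy.2 c2) c2 c1 hb ha (by linarith) (by linarith)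
        · exfalso
          have hb' : b = 1 - a := by linarith
          subst hb'
          simp only [Prod.fst_add, Prod.snd_add, Prod.smul_fst, Prod.smul_snd,
            smul_eq_mul] at h3
          nlinarith
    exact this hz
  · rintro ⟨hP, hH⟩
    rcases lt_or_ge (z.1 + z.2) (-9) with c | c
    · exact H_sub_RR k s (hH c)
    · exact oct_sub k h0 h1 hP c

def D (s : ℝ) : Set (ℝ × ℝ) := {z | -5 ≤ z.1 ∧ -5 ≤ z.2 ∧ z.1 + z.2 < s - 10}

lemma meas_D (s : ℝ) : MeasurableSet (D s) := by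
  unfold D
  refine (measurableSet_le measurable_const measurable_fst).inter
    ((measurableSet_le measurable_const measurable_snd).inter
      (measurableSet_lt (measurable_fst.add measurable_snd) measurable_const))

lemma vol_D {s : ℝ} (h0 : 0 < s) : volume (D s) = ENNReal.ofReal (s ^ 2) * volume (D 1) := by
  have h : D s = AffineMap.homothety ((-5 : ℝ), (-5 : ℝ)) s '' D 1 := by
    ext z
    simp only [D, mem_image, mem_setOf_eq, AffineMap.homothety_apply, vsub_eq_sub, vadd_eq_add]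
    constructor
    · rintro ⟨a, b, c⟩
      refine ⟨((z.1 + 5) / s - 5, (z.2 + 5) / s - 5), ⟨?_, ?_, ?_⟩, ?_⟩
      · have : 0 ≤ (z.1 + 5) / s := div_nonneg (by linarith) h0.le
        simp only; linarith
      · have : 0 ≤ (z.2 + 5) / s := div_nonneg (by linarith) h0.le
        simp only; linarith
      · have : (z.1 + 5) / s + (z.2 + 5) / s < 1 := by
          rw [← add_div, div_lt_one h0]; linarith
        simp only; linarith
      · ext
        · simp only [Prod.fst_add, Prod.smul_fst, Prod.fst_sub, smul_eq_mul]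
          field_simp
          ring
        · simp only [Prod.snd_add, Prod.smul_snd, Prod.snd_sub, smul_eq_mul]
          field_simp
          ring
    · rintro ⟨y, ⟨a, b, c⟩, rfl⟩
      simp only [Prod.fst_add, Prod.smul_fst, Prod.fst_sub, Prod.snd_add, Prod.smul_snd,
        Prod.snd_sub, smul_eq_mul]
      refine ⟨?_, ?_, ?_⟩ <;> nlinarith
  rw [h, Measure.addHaar_image_homothety]
  congr 2
  simp

lemma closed_H (k : ℕ) : IsClosed (H k) :=
  ((W k).finite_toSet.isCompact_convexHull ℝ).isClosed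

lemma H_ge (k : ℕ) {z : ℝ × ℝ} (hz : z ∈ H k) : -19 / 2 ≤ z.1 + z.2 := by
  have : H k ⊆ {z | -19 / 2 ≤ z.1 + z.2} := by
    apply convexHull_min
    · intro v hv
      obtain ⟨u, u0, u1, rfl⟩ := mem_W (Finset.mem_coe.1 hv)
      simp only [w, mem_setOf_eq]; nlinarith
    · intro x hx y hy a b ha hb hab
      have hb' : b = 1 - a := by linarith
      subst hb'
      simp only [mem_setOf_eq, Prod.fst_add, Prod.snd_add, Prod.smul_fst, Prod.smul_snd,
        smul_eq_mul] at hx hy ⊢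
      nlinarith
  exact this hz

def S : Set (ℝ × ℝ) := {z | -5 ≤ z.1 ∧ z.1 ≤ 5 ∧ -5 ≤ z.2 ∧ z.2 ≤ 5}

lemma vol_S : volume S ≠ ∞ := by
  have : S ⊆ Icc ((-5 : ℝ), (-5 : ℝ)) (5, 5) := by
    rintro z ⟨a, b, c, d⟩
    exact ⟨⟨a, c⟩, ⟨b, d⟩⟩
  exact ((measure_mono this).trans_lt isCompact_Icc.measure_lt_top).ne

lemma D_sub_S {s : ℝ} (h1 : s ≤ 1) : D s ⊆ S := by
  rintro z ⟨a, b, c⟩
  exact ⟨a, by linarith, b, by linarith⟩

lemma exists_s (k : ℕ) : ∃ s : ℝ, 0 < s ∧ s ≤ 1 ∧ volume (D s) = volume (D 1 \ H k) := by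
  have hτ : volume (D 1) ≠ ∞ := ne_top_of_le_ne_top vol_S (measure_mono (D_sub_S le_rfl))
  have hle : volume (D 1 \ H k) ≤ volume (D 1) := measure_mono diff_subset
  have hc : volume (D 1 \ H k) ≠ ∞ := ne_top_of_le_ne_top hτ hle
  have hpos : 0 < volume (D 1 \ H k) := by
    have ho : IsOpen {z : ℝ × ℝ | -5 < z.1 ∧ -5 < z.2 ∧ z.1 + z.2 < -19 / 2} :=
      (isOpen_lt continuous_const continuous_fst).inter
        ((isOpen_lt continuous_const continuous_snd).inter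
          (isOpen_lt (continuous_fst.add continuous_snd) continuous_const))
    have hne : ({z : ℝ × ℝ | -5 < z.1 ∧ -5 < z.2 ∧ z.1 + z.2 < -19 / 2}).Nonempty :=
      ⟨(-49 / 10, -49 / 10), by norm_num⟩
    refine (ho.measure_pos volume hne).trans_le (measure_mono ?_)
    rintro z ⟨a, b, c⟩
    exact ⟨⟨a.le, b.le, by linarith⟩, fun h => by linarith [H_ge k h]⟩
  have hτ0 : volume (D 1) ≠ 0 := (hpos.trans_le hle).ne'
  have r1 : 0 < (volume (D 1 \ H k)).toReal := ENNReal.toReal_pos hpos.ne' hc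
  have r2 : 0 < (volume (D 1)).toReal := ENNReal.toReal_pos hτ0 hτ
  have r3 : (volume (D 1 \ H k)).toReal ≤ (volume (D 1)).toReal := ENNReal.toReal_mono hτ hle
  have q0 : 0 < (volume (D 1 \ H k)).toReal / (volume (D 1)).toReal := div_pos r1 r2
  have s0 : 0 < √((volume (D 1 \ H k)).toReal / (volume (D 1)).toReal) := Real.sqrt_pos.2 q0
  refine ⟨_, s0, ?_, ?_⟩
  · exact Real.sqrt_le_one.2 ((div_le_one r2).2 r3)
  · rw [vol_D s0, Real.sq_sqrt q0.le, ENNReal.ofReal_div_of_pos r2, ENNReal.ofReal_toReal hc,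
      ENNReal.ofReal_toReal hτ, ENNReal.div_mul_cancel hτ0 hτ]

/-- rotation by a right angle -/
def rot (z : ℝ × ℝ) : ℝ × ℝ := (z.2, -z.1)

lemma rot_mp : MeasurePreserving rot (volume : Measure (ℝ × ℝ)) volume := by
  have h1 : MeasurePreserving (Prod.map (id : ℝ → ℝ) (fun x : ℝ => -x))
      ((volume : Measure ℝ).prod volume) ((volume : Measure ℝ).prod volume) :=
    (MeasurePreserving.id volume).prod (Measure.measurePreserving_neg volume)
  have h2 : MeasurePreserving (Prod.swap : ℝ × ℝ → ℝ × ℝ)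
      ((volume : Measure ℝ).prod volume) ((volume : Measure ℝ).prod volume) :=
    Measure.measurePreserving_swap
  exact h1.comp h2

lemma meas_quad (t e₁ e₂ : ℝ) : MeasurableSet (quad 0 (1, t) e₁ e₂) := by
  have a : Measurable fun z : ℝ × ℝ => e₁ * dot (z - 0) (1, t) := by
    unfold dot; fun_prop
  have b : Measurable fun z : ℝ × ℝ => e₂ * dot (z - 0) (perp (1, t)) := by
    unfold dot perp; fun_prop
  exact (measurableSet_le measurable_const a).inter (measurableSet_le measurable_const b)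

lemma meas_S : MeasurableSet S := by
  unfold S
  exact (measurableSet_le measurable_const measurable_fst).inter
    ((measurableSet_le measurable_fst measurable_const).inter
      ((measurableSet_le measurable_const measurable_snd).inter
        (measurableSet_le measurable_snd measurable_const)))

lemma quads (k : ℕ) {s : ℝ} (h0 : 0 < s) (h1 : s ≤ 1)
    (hv : volume (D s) = volume (D 1 \ H k)) {t : ℝ} (t0 : 0 < t) (t1 : t < 1 / 2) :
    ∀ e₁ ∈ ({1, -1} : Set ℝ), ∀ e₂ ∈ ({1, -1} : Set ℝ),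
      volume (RR k s ∩ quad 0 (1, t) e₁ e₂) =
        volume ((S ∩ quad 0 (1, t) (-1) (-1)) \ D s) := by
  set E := (S ∩ quad 0 (1, t) (-1) (-1)) \ D s with hE
  have mE : MeasurableSet E := (meas_S.inter (meas_quad t _ _)).diff (meas_D s)
  have m1 : MeasurableSet (rot ⁻¹' E) := rot_mp.measurable mE
  have m2 : MeasurableSet (rot ⁻¹' (rot ⁻¹' E)) := rot_mp.measurable m1
  have v1 : volume (rot ⁻¹' E) = volume E := rot_mp.measure_preimage mE.nullMeasurableSet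
  have v2 : volume (rot ⁻¹' (rot ⁻¹' E)) = volume E :=
    (rot_mp.measure_preimage m1.nullMeasurableSet).trans v1
  have v3 : volume (rot ⁻¹' (rot ⁻¹' (rot ⁻¹' E))) = volume E :=
    (rot_mp.measure_preimage m2.nullMeasurableSet).trans v2
  have Dsub : ∀ s' ≤ (1 : ℝ), D s' ⊆ S ∩ quad 0 (1, t) (-1) (-1) := by
    intro s' hs' z hz
    refine ⟨D_sub_S hs' hz, ?_⟩
    obtain ⟨a, b, c⟩ := hz
    simp only [quad, dot, perp, mem_setOf_eq, sub_zero]
    constructor <;> nlinarith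
  intro e₁ he₁ e₂ he₂
  simp only [mem_insert_iff, mem_singleton_iff] at he₁ he₂
  rcases he₁ with rfl | rfl <;> rcases he₂ with rfl | rfl
  · rw [← v2]
    congr 1
    ext ⟨x, y⟩
    simp only [hE, mem_inter_iff, mem_RR k h0 h1, mem_preimage, mem_diff, rot, P, S, D, quad, dot,
      perp, mem_setOf_eq, sub_zero, not_and, not_lt]
    constructor
    · rintro ⟨⟨⟨g1, g2, g3, g4, g5, g6, g7⟩, -⟩, q1, q2⟩
      refine ⟨⟨⟨?_, ?_, ?_, ?_⟩, ?_, ?_⟩, fun _ _ => ?_⟩ <;> linarith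
    · rintro ⟨⟨⟨g1, g2, g3, g4⟩, q1, q2⟩, g5⟩
      have g6 := g5 g1 g3
      refine ⟨⟨⟨?_, ?_, ?_, ?_, ?_, ?_, ?_⟩, fun h => ?_⟩, ?_, ?_⟩
      any_goals linarith
      · nlinarith
      · nlinarith
      · exfalso; nlinarith
  · rw [← v1]
    congr 1
    ext ⟨x, y⟩
    simp only [hE, mem_inter_iff, mem_RR k h0 h1, mem_preimage, mem_diff, rot, P, S, D, quad, dot,
      perp, mem_setOf_eq, sub_zero, not_and, not_lt]
    constructor
    · rintro ⟨⟨⟨g1, g2, g3, g4, g5, g6, g7⟩, -⟩, q1, q2⟩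
      refine ⟨⟨⟨?_, ?_, ?_, ?_⟩, ?_, ?_⟩, fun _ _ => ?_⟩ <;> linarith
    · rintro ⟨⟨⟨g1, g2, g3, g4⟩, q1, q2⟩, g5⟩
      have g6 := g5 g1 g3
      refine ⟨⟨⟨?_, ?_, ?_, ?_, ?_, ?_, ?_⟩, fun h => ?_⟩, ?_, ?_⟩
      any_goals linarith
      · nlinarith
      · nlinarith
      · exfalso; nlinarith
  · rw [← v3]
    congr 1
    ext ⟨x, y⟩
    simp only [hE, mem_inter_iff, mem_RR k h0 h1, mem_preimage, mem_diff, rot, P, S, D, quad, dot,
      perp, mem_setOf_eq, sub_zero, not_and, not_lt]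
    constructor
    · rintro ⟨⟨⟨g1, g2, g3, g4, g5, g6, g7⟩, -⟩, q1, q2⟩
      refine ⟨⟨⟨?_, ?_, ?_, ?_⟩, ?_, ?_⟩, fun _ _ => ?_⟩ <;> linarith
    · rintro ⟨⟨⟨g1, g2, g3, g4⟩, q1, q2⟩, g5⟩
      have g6 := g5 g1 g3
      refine ⟨⟨⟨?_, ?_, ?_, ?_, ?_, ?_, ?_⟩, fun h => ?_⟩, ?_, ?_⟩
      any_goals linarith
      · nlinarith
      · nlinarith
      · exfalso; nlinarith
  · have hfin : volume (D 1 \ H k) ≠ ∞ :=
      ne_top_of_le_ne_top vol_S (measure_mono (diff_subset.trans (D_sub_S le_rfl)))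
    have hset : RR k s ∩ quad 0 (1, t) (-1) (-1) =
        (S ∩ quad 0 (1, t) (-1) (-1)) \ (D 1 \ H k) := by
      ext ⟨x, y⟩
      simp only [mem_inter_iff, mem_RR k h0 h1, mem_diff, P, S, D, quad, dot,
        perp, mem_setOf_eq, sub_zero, not_and, not_not]
      constructor
      · rintro ⟨⟨⟨g1, g2, g3, g4, g5, g6, g7⟩, g8⟩, q1, q2⟩
        exact ⟨⟨⟨g1, g2, g3, g4⟩, q1, q2⟩, fun h => g8 (by linarith [h.2.2])⟩
      · rintro ⟨⟨⟨g1, g2, g3, g4⟩, q1, q2⟩, g5⟩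
        refine ⟨⟨⟨g1, g2, g3, g4, ?_, ?_, ?_⟩, fun h => g5 ⟨g1, g3, by linarith⟩⟩, q1, q2⟩
        all_goals nlinarith
    rw [hset, hE, measure_diff (diff_subset.trans (Dsub 1 le_rfl))
      ((meas_D 1).diff (closed_H k).measurableSet).nullMeasurableSet hfin,
      measure_diff (Dsub s h1) (meas_D s).nullMeasurableSet (hv ▸ hfin), hv]

lemma zero_int (k : ℕ) {s : ℝ} (h0 : 0 < s) (h1 : s ≤ 1) : (0 : ℝ × ℝ) ∈ interior (RR k s) := by
  rw [mem_interior_iff_mem_nhds]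
  have : Ioo (-1 : ℝ) 1 ×ˢ Ioo (-1 : ℝ) 1 ∈ nhds (0 : ℝ × ℝ) :=
    (isOpen_Ioo.prod isOpen_Ioo).mem_nhds (by simp)
  refine Filter.mem_of_superset this ?_
  rintro ⟨x, y⟩ ⟨⟨a, b⟩, c, d⟩
  simp only at a b c d
  refine oct_sub k h0 h1 ?_ (by linarith)
  simp only [P, mem_setOf_eq]
  refine ⟨?_, ?_, ?_, ?_, ?_, ?_, ?_⟩ <;> linarith

theorem main (k : ℕ) : ∃ R : Set (ℝ × ℝ), IsConvexGon (k + 8) R ∧ (quadrisections R).Infinite := by
  obtain ⟨s, h0, h1, hv⟩ := exists_s k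
  refine ⟨RR k s, ⟨⟨0, zero_int k h0 h1⟩, V k s, card_V k h0 h1, rfl, extreme_V k h0 h1⟩, ?_⟩
  have mR : MeasurableSet (RR k s) :=
    ((V k s).finite_toSet.isCompact_convexHull ℝ).isClosed.measurableSet
  let F : ℝ → Set (Set (ℝ × ℝ)) := fun t => {line 0 (1, t), line 0 (perp (1, t))}
  have hinj : InjOn F (Ioo 0 (1 / 2)) := by
    intro t ht t' ht' e
    have m : line 0 (perp (1, t)) ∈ F t' := by rw [← e]; simp [F]
    have p : ((1 : ℝ), t) ∈ line 0 (perp (1, t)) := by simp [line, dot, perp]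
    simp only [F, mem_insert_iff, mem_singleton_iff] at m
    rcases m with m | m
    · rw [m] at p
      simp only [line, dot, mem_setOf_eq, sub_zero] at p
      nlinarith [mul_pos ht.1 ht'.1]
    · rw [m] at p
      simp only [line, dot, perp, mem_setOf_eq, sub_zero] at p
      linarith
  have hI : (F '' Ioo 0 (1 / 2)).Infinite := (Ioo_infinite (by norm_num)).image hinj
  refine hI.mono ?_
  rintro _ ⟨t, ht, rfl⟩
  refine ⟨0, (1, t), by simp, zero_int k h0 h1, rfl, ?_⟩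
  have q := quads k h0 h1 hv ht.1 ht.2
  intro e₁ he₁ e₂ he₂
  rw [four_eq _ mR t _ q, q e₁ he₁ e₂ he₂]

end H81Quadri
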