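import Mathlib

set_option autoImplicit false

namespace Pool.Agent.H81.Refine

open Set

/-- The convex-form space: affine functions `C → [0,1]`. -/
def Forms {n : ℕ} (C : Set (Fin n → ℝ)) : Set (C → ℝ) :=
  {ω | (∀ x, ω x ∈ Icc (0 : ℝ) 1) ∧ ∃ A : (Fin n → ℝ) →ᵃ[ℝ] ℝ, ∀ x : C, ω x = A x}

/-- `h` with domain `D ⊆ X` is an affine map on `D` that is onto `Y`. -/
def AffOnto {E F : Type} [AddCommGroup E] [Module ℝ E] [AddCommGroup F] [Module ℝ F]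
    (X : Set E) (Y : Set F) (D : Set E) (h : E → F) : Prop :=
  D ⊆ X ∧ (∀ x ∈ D, ∀ y ∈ D, ∀ l ∈ Icc (0 : ℝ) 1, l • x + (1 - l) • y ∈ D ∧
    h (l • x + (1 - l) • y) = l • h x + (1 - l) • h y) ∧ h '' D = Y

/-- `(T, Ω T, f, g)` refines `(C, Ω C)`; `D` and `G` are the domains of `f` and `g`. -/
def Refines {n k : ℕ} (C : Set (Fin n → ℝ)) (T : Set (Fin k → ℝ)) (D : Set (Fin k → ℝ))
    (f : (Fin k → ℝ) → (Fin n → ℝ)) (G : Set (T → ℝ)) (g : (T → ℝ) → (C → ℝ)) : Prop :=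
  AffOnto T C D f ∧ AffOnto (Forms T) (Forms C) G g ∧
    ∀ x : T, (x : Fin k → ℝ) ∈ D → ∀ ω ∈ G, ∀ y : C, (y : Fin n → ℝ) = f x → g ω y = ω x

/-- `C` is a simplex. -/
def IsSimplex {n : ℕ} (C : Set (Fin n → ℝ)) : Prop :=
  ∃ s : Finset (Fin n → ℝ), AffineIndependent ℝ ((↑) : s → (Fin n → ℝ)) ∧
    C = convexHull ℝ (s : Set (Fin n → ℝ))

end Pool.Agent.H81.Refine
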