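import Mathlib
import Pool.Agent.H81.RefineDefs

set_option autoImplicit false

namespace Pool.Agent.H81.Refine

open Set

lemma aff_form {n : ℕ} (A : (Fin n → ℝ) →ᵃ[ℝ] ℝ) :
    ∃ (c : ℝ) (l : Fin n → ℝ), ∀ x, A x = c + ∑ i, x i * l i := by
  refine ⟨A 0, fun i => A.linear (Pi.single i 1), fun x => ?_⟩
  have h1 : A x = A.linear x + A 0 := by
    simpa using A.map_vadd 0 x
  rw [h1, add_comm, LinearMap.pi_apply_eq_sum_univ]
  congr 1
  refine Finset.sum_congr rfl fun i _ => ?_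
  rw [smul_eq_mul]
  congr 2
  ext j
  simp [Pi.single_apply, eq_comm]

lemma form_aff {n : ℕ} (c : ℝ) (l : Fin n → ℝ) :
    ∃ A : (Fin n → ℝ) →ᵃ[ℝ] ℝ, ∀ x, A x = c + ∑ i, x i * l i := by
  refine ⟨(∑ i, l i • LinearMap.proj (R := ℝ) (φ := fun _ : Fin n => ℝ) i).toAffineMap +
    AffineMap.const ℝ _ c, fun x => ?_⟩
  simp [add_comm, mul_comm]

lemma mem_forms {n : ℕ} {C : Set (Fin n → ℝ)} {ω : C → ℝ} :
    ω ∈ Forms C ↔ (∀ x, ω x ∈ Icc (0 : ℝ) 1) ∧
      ∃ (c : ℝ) (l : Fin n → ℝ), ∀ x : C, ω x = c + ∑ i, x.1 i * l i := by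
  refine and_congr_right fun _ => ⟨?_, ?_⟩
  · rintro ⟨A, hA⟩
    obtain ⟨c, l, h⟩ := aff_form A
    exact ⟨c, l, fun x => by rw [hA, h]⟩
  · rintro ⟨c, l, h⟩
    obtain ⟨A, hA⟩ := form_aff c l
    exact ⟨A, fun x => by rw [hA, h]⟩

/-- the four vertices -/
def V : Fin 4 → (Fin 2 → ℝ) := ![![0, 1], ![1, 1], ![0, 0], ![2, 0]]

/-- the trapezoid -/
def C : Set (Fin 2 → ℝ) := {y | 0 ≤ y 0 ∧ 0 ≤ y 1 ∧ y 1 ≤ 1 ∧ y 0 + y 1 ≤ 2}

lemma V_mem (i : Fin 4) : V i ∈ C := by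
  fin_cases i <;> simp [V, C] <;> norm_num

lemma V_inj : Function.Injective V := by
  intro i j h
  have h0 := congrFun h 0
  have h1 := congrFun h 1
  fin_cases i <;> fin_cases j <;> simp [V] at h0 h1 ⊢

lemma C_convex : Convex ℝ C := by
  intro x hx y hy a b ha hb hab
  obtain ⟨h1, h2, h3, h4⟩ := hx
  obtain ⟨k1, k2, k3, k4⟩ := hy
  simp only [C, mem_setOf_eq, Pi.add_apply, Pi.smul_apply, smul_eq_mul]
  refine ⟨by positivity, by positivity, by nlinarith, by nlinarith⟩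

lemma weights {y : Fin 2 → ℝ} (hy : y ∈ C) : ∃ a b c d : ℝ, 0 ≤ a ∧ 0 ≤ b ∧ 0 ≤ c ∧ 0 ≤ d ∧
    a + b + c + d = 1 ∧ y 0 = b + 2 * d ∧ y 1 = a + b := by
  obtain ⟨h1, h2, h3, h4⟩ := hy
  rcases le_total (y 0) (y 1) with h | h
  · exact ⟨y 1 - y 0, y 0, 1 - y 1, 0, by linarith, h1, by linarith, le_rfl, by ring, by ring,
      by ring⟩
  · exact ⟨0, y 1, 1 - (y 0 + y 1) / 2, (y 0 - y 1) / 2, le_rfl, h2, by linarith, by linarith,
      by ring, by ring, by ring⟩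

lemma C_eq : C = convexHull ℝ (range V) := by
  refine Subset.antisymm (fun y hy => ?_) (convexHull_min (range_subset_iff.2 V_mem) C_convex)
  obtain ⟨a, b, c, d, ha, hb, hc, hd, hs, h0, h1⟩ := weights hy
  have : y = ∑ i, (![a, b, c, d] : Fin 4 → ℝ) i • V i := by
    ext j
    fin_cases j <;> simp [Fin.sum_univ_four, V] <;> linarith
  rw [this]
  refine (convex_convexHull ℝ _).sum_mem (fun i _ => ?_) ?_
    (fun i _ => subset_convexHull ℝ _ ⟨i, rfl⟩)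
  · fin_cases i <;> simpa
  · simpa [Fin.sum_univ_four] using hs

lemma V_ext (i : Fin 4) : V i ∈ C.extremePoints ℝ := by
  refine ⟨V_mem i, fun x hx y hy h => ?_⟩
  obtain ⟨a, b, ha, hb, hab, h⟩ := h
  obtain ⟨h1, h2, h3, h4⟩ := hx
  obtain ⟨k1, k2, k3, k4⟩ := hy
  have e0 := congrFun h 0
  have e1 := congrFun h 1
  have z : ∀ u v : ℝ, 0 ≤ u → 0 ≤ v → a * u + b * v = 0 → u = 0 := fun u v hu hv e => by
    have : a * u = 0 := by nlinarith [mul_nonneg ha.le hu, mul_nonneg hb.le hv]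
    simpa [ha.ne'] using this
  ext j
  fin_cases i <;> simp [V] at e0 e1 ⊢
  · have := z _ _ h1 k1 e0
    have := z (1 - x 1) (1 - y 1) (by linarith) (by linarith) (by linarith)
    fin_cases j <;> simp <;> linarith
  · have := z (1 - x 1) (1 - y 1) (by linarith) (by linarith) (by linarith)
    have := z (2 - x 0 - x 1) (2 - y 0 - y 1) (by linarith) (by linarith) (by linarith)
    fin_cases j <;> simp <;> linarith
  · have := z _ _ h1 k1 e0
    have := z _ _ h2 k2 e1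
    fin_cases j <;> simp <;> linarith
  · have := z _ _ h2 k2 e1
    have := z (2 - x 0 - x 1) (2 - y 0 - y 1) (by linarith) (by linarith) (by linarith)
    fin_cases j <;> simp <;> linarith

lemma ext_eq : range V = C.extremePoints ℝ := by
  refine Subset.antisymm (range_subset_iff.2 V_ext) ?_
  conv_lhs => rw [C_eq]
  exact extremePoints_convexHull_subset

lemma not_simplex : ¬ IsSimplex C := by
  classical
  rintro ⟨s, hs, h⟩
  have h1 : range V ⊆ (s : Set (Fin 2 → ℝ)) := by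
    rw [ext_eq, h]; exact extremePoints_convexHull_subset
  have h2 : (Finset.univ.image V).card ≤ s.card :=
    Finset.card_le_card fun x hx => by
      obtain ⟨i, -, rfl⟩ := Finset.mem_image.1 hx
      exact h1 ⟨i, rfl⟩
  rw [Finset.card_image_of_injective _ V_inj] at h2
  have h3 := hs.card_le_finrank_succ
  have h4 := Submodule.finrank_le (vectorSpan ℝ (range ((↑) : s → (Fin 2 → ℝ))))
  simp at h2 h3 h4
  omega

abbrev T : Set (Fin 5 → ℝ) := stdSimplex ℝ (Fin 5)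

def D : Set (Fin 5 → ℝ) := {x | x ∈ T ∧ x 0 = x 1 + x 2}

def f (x : Fin 5 → ℝ) : Fin 2 → ℝ := ![2 * x 2 + 2 * x 4, 2 * x 1 + 2 * x 2]

def e (i : Fin 5) : T := ⟨Pi.single i 1, single_mem_stdSimplex ℝ i⟩

def G : Set (T → ℝ) := {ω | ω ∈ Forms T ∧ ω (e 2) - ω (e 1) = ω (e 4) - ω (e 3)}

noncomputable def g (ω : T → ℝ) (y : C) : ℝ :=
  ω (e 3) + y.1 0 * ((ω (e 4) - ω (e 3)) / 2) + y.1 1 * ((ω (e 0) + ω (e 1)) / 2 - ω (e 3))

lemma mem_T {x : Fin 5 → ℝ} : x ∈ T ↔ (0 ≤ x 0 ∧ 0 ≤ x 1 ∧ 0 ≤ x 2 ∧ 0 ≤ x 3 ∧ 0 ≤ x 4) ∧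
    x 0 + x 1 + x 2 + x 3 + x 4 = 1 := by
  simp [stdSimplex, Fin.forall_fin_succ, Fin.sum_univ_five]

lemma form_T {ω : T → ℝ} (h : ω ∈ Forms T) (x : T) :
    ω x = x.1 0 * ω (e 0) + x.1 1 * ω (e 1) + x.1 2 * ω (e 2) + x.1 3 * ω (e 3) +
      x.1 4 * ω (e 4) := by
  obtain ⟨-, c, l, hl⟩ := mem_forms.1 h
  have := (mem_T.1 x.2).2
  simp only [hl, e, Fin.sum_univ_five]
  simp
  linear_combination (-c) * this

lemma forms_conv {n : ℕ} {S : Set (Fin n → ℝ)} {ω η : S → ℝ} (h : ω ∈ Forms S) (k : η ∈ Forms S)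
    {l : ℝ} (hl : l ∈ Icc (0 : ℝ) 1) : l • ω + (1 - l) • η ∈ Forms S := by
  obtain ⟨h1, A, hA⟩ := h
  obtain ⟨k1, B, hB⟩ := k
  refine ⟨fun x => ?_, l • A + (1 - l) • B, fun x => by simp [hA, hB]⟩
  simp only [Pi.add_apply, Pi.smul_apply, smul_eq_mul]
  have := h1 x
  have := k1 x
  constructor <;> nlinarith [(h1 x).1, (h1 x).2, (k1 x).1, (k1 x).2, hl.1, hl.2]

lemma refines : Refines C T D f G g := by
  refine ⟨⟨fun x hx => hx.1, ?_, ?_⟩, ⟨fun x hx => hx.1, ?_, ?_⟩, ?_⟩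
  · intro x hx y hy l hl
    refine ⟨⟨convex_stdSimplex ℝ _ hx.1 hy.1 hl.1 (sub_nonneg.2 hl.2) (by ring), ?_⟩, ?_⟩
    · simp only [Pi.add_apply, Pi.smul_apply, smul_eq_mul, hx.2, hy.2]; ring
    · ext j; fin_cases j <;> simp [f] <;> ring
  · ext y
    constructor
    · rintro ⟨x, ⟨hx, h0⟩, rfl⟩
      obtain ⟨⟨h1, h2, h3, h4, h5⟩, h6⟩ := mem_T.1 hx
      simp only [C, f, mem_setOf_eq, Matrix.cons_val_zero, Matrix.cons_val_one]
      refine ⟨by linarith, by linarith, by linarith, by linarith⟩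
    · intro hy
      obtain ⟨a, b, c, d, ha, hb, hc, hd, hs, h0, h1⟩ := weights hy
      refine ⟨![(a + b) / 2, a / 2, b / 2, c, d], ⟨mem_T.2 ?_, ?_⟩, ?_⟩
      · simp
        refine ⟨⟨by linarith, by linarith, by linarith, hc, hd⟩, by linarith⟩
      · simp; ring
      · ext j; fin_cases j <;> simp [f] <;> linarith
  · intro ω hω η hη l hl
    refine ⟨⟨forms_conv hω.1 hη.1 hl, ?_⟩, ?_⟩
    · simp only [Pi.add_apply, Pi.smul_apply, smul_eq_mul]
      linear_combination l * hω.2 + (1 - l) * hη.2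
    · ext y; simp only [g, Pi.add_apply, Pi.smul_apply, smul_eq_mul]; ring
  · ext η
    constructor
    · rintro ⟨ω, ⟨hω, h0⟩, rfl⟩
      refine mem_forms.2 ⟨fun y => ?_, ω (e 3), ![(ω (e 4) - ω (e 3)) / 2,
        (ω (e 0) + ω (e 1)) / 2 - ω (e 3)], fun y => by simp [g, add_assoc]⟩
      obtain ⟨a, b, c, d, ha, hb, hc, hd, hs, k0, k1⟩ := weights y.2
      have e1 : g ω y = a * ((ω (e 0) + ω (e 1)) / 2) + b * ((ω (e 0) + ω (e 2)) / 2) +
          c * ω (e 3) + d * ω (e 4) := by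
        simp only [g, k0, k1]
        linear_combination (-ω (e 3)) * hs - (b / 2) * h0
      have b0 := hω.1 (e 0)
      have b1 := hω.1 (e 1)
      have b2 := hω.1 (e 2)
      have b3 := hω.1 (e 3)
      have b4 := hω.1 (e 4)
      rw [e1]
      constructor
      · have := b0.1; have := b1.1; have := b2.1; have := b3.1; have := b4.1; positivity
      · nlinarith [mul_le_mul_of_nonneg_left b0.2 ha, mul_le_mul_of_nonneg_left b1.2 ha,
          mul_le_mul_of_nonneg_left b0.2 hb, mul_le_mul_of_nonneg_left b2.2 hb,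
          mul_le_mul_of_nonneg_left b3.2 hc, mul_le_mul_of_nonneg_left b4.2 hd]
    · intro hη
      obtain ⟨hb, c, l, hl⟩ := mem_forms.1 hη
      have v0 := hb ⟨V 0, V_mem 0⟩
      have v1 := hb ⟨V 1, V_mem 1⟩
      have v2 := hb ⟨V 2, V_mem 2⟩
      have v3 := hb ⟨V 3, V_mem 3⟩
      simp [hl, V] at v0 v1 v2 v3
      set u := max 0 (max (2 * (c + l 1) - 1) (2 * (c + l 0 + l 1) - 1)) with hu
      have u0 : 0 ≤ u := le_max_left _ _
      have u1 : 2 * (c + l 1) - 1 ≤ u := (le_max_left _ _).trans (le_max_right _ _)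
      have u2 : 2 * (c + l 0 + l 1) - 1 ≤ u := (le_max_right _ _).trans (le_max_right _ _)
      have u3 : u ≤ 1 := max_le (by norm_num) (max_le (by linarith) (by linarith))
      have u4 : u ≤ 2 * (c + l 1) := max_le (by linarith) (max_le (by linarith) (by linarith))
      have u5 : u ≤ 2 * (c + l 0 + l 1) :=
        max_le (by linarith) (max_le (by linarith) (by linarith))
      let w : Fin 5 → ℝ := ![u, 2 * (c + l 1) - u, 2 * (c + l 0 + l 1) - u, c, c + 2 * l 0]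
      have hw : ∀ i, w i ∈ Icc (0 : ℝ) 1 := by
        intro i; fin_cases i <;> simp [w] <;> constructor <;> linarith
      refine ⟨fun x => ∑ i, x.1 i * w i, ⟨mem_forms.2 ⟨fun x => ⟨?_, ?_⟩, 0, w, by simp⟩, ?_⟩, ?_⟩
      · exact Finset.sum_nonneg fun i _ => mul_nonneg (x.2.1 i) (hw i).1
      · rw [← x.2.2]
        exact Finset.sum_le_sum fun i _ => mul_le_of_le_one_right (x.2.1 i) (hw i).2
      · simp [e, Fin.sum_univ_five, w]; ring
      · ext y
        simp [g, e, Fin.sum_univ_five, w, hl]; ring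
  · intro x hx ω hω y hy
    have h0 := congrFun hy 0
    have h1 := congrFun hy 1
    simp [f] at h0 h1
    rw [form_T hω.1 x]
    simp only [g, h0, h1, hx.2]
    have := (mem_T.1 x.2).2
    rw [hx.2] at this
    linear_combination (-ω (e 3)) * this - x.1 2 * hω.2

lemma pre0 {x : Fin 5 → ℝ} (hx : x ∈ D) (h : f x = V 0) :
    x 0 = 1 / 2 ∧ x 1 = 1 / 2 ∧ x 2 = 0 ∧ x 3 = 0 ∧ x 4 = 0 := by
  obtain ⟨⟨h1, h2, h3, h4, h5⟩, h6⟩ := mem_T.1 hx.1
  have h0 := hx.2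
  have e0 := congrFun h 0
  have e1 := congrFun h 1
  simp [f, V] at e0 e1
  refine ⟨by linarith, by linarith, by linarith, by linarith, by linarith⟩

lemma pre1 {x : Fin 5 → ℝ} (hx : x ∈ D) (h : f x = V 1) :
    x 0 = 1 / 2 ∧ x 1 = 0 ∧ x 2 = 1 / 2 ∧ x 3 = 0 ∧ x 4 = 0 := by
  obtain ⟨⟨h1, h2, h3, h4, h5⟩, h6⟩ := mem_T.1 hx.1
  have h0 := hx.2
  have e0 := congrFun h 0
  have e1 := congrFun h 1
  simp [f, V] at e0 e1
  refine ⟨by linarith, by linarith, by linarith, by linarith, by linarith⟩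

end Pool.Agent.H81.Refine
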