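import Mathlib
import Pool.Agent.H81.Refine

set_option autoImplicit false

namespace Pool.Agent.H81.Refine2

open Set Pool.Agent.H81.Refine

def VZ : Fin 12 → Fin 4 → ℤ :=
  ![![0, 0, 0, 1], ![0, 0, 1, 1], ![0, 1, 0, 1], ![0, 1, 1, 1], ![1, 0, 0, 1], ![1, 0, 1, 1],
    ![1, 1, 0, 1], ![1, 1, 1, 1], ![0, 0, 0, 0], ![3, 0, 0, 0], ![0, 3, 0, 0], ![0, 0, 3, 0]]

def LZ : Fin 12 → Fin 4 → ℤ :=
  ![![-1, -1, -1, 9], ![-1, -1, 1, 9], ![-1, 1, -1, 9], ![-1, 1, 1, 9], ![1, -1, -1, 9],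
    ![1, -1, 1, 9], ![1, 1, -1, 9], ![1, 1, 1, 9], ![-1, -1, -1, -1], ![1, 0, 0, 0], ![0, 1, 0, 0],
    ![0, 0, 1, 0]]

lemma LZ_lt : ∀ i j : Fin 12, j ≠ i → ∑ k, LZ i k * VZ j k < ∑ k, LZ i k * VZ i k := by decide

def W (i : Fin 12) : Fin 4 → ℝ := fun k => (VZ i k : ℝ)

lemma L_lt (i j : Fin 12) (h : j ≠ i) :
    ∑ k, (LZ i k : ℝ) * W j k < ∑ k, (LZ i k : ℝ) * W i k := by
  unfold W; exact_mod_cast LZ_lt i j h

lemma W_inj : Function.Injective W := by
  intro i j h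
  by_contra hne
  have := L_lt j i hne
  rw [h] at this
  exact lt_irrefl _ this

def C : Set (Fin 4 → ℝ) := convexHull ℝ (range W)

lemma W_mem (i : Fin 12) : W i ∈ C := subset_convexHull ℝ _ ⟨i, rfl⟩

lemma W_ext (i : Fin 12) : W i ∈ C.extremePoints ℝ := by
  let l : (Fin 4 → ℝ) → ℝ := fun y => ∑ k, (LZ i k : ℝ) * y k
  have hl : ∀ (a b : ℝ) (y z : Fin 4 → ℝ), l (a • y + b • z) = a * l y + b * l z := by
    intro a b y z
    simp only [l, Fin.sum_univ_four, Pi.add_apply, Pi.smul_apply, smul_eq_mul]; ring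
  have hS : C ⊆ {y | l y < l (W i) ∨ y = W i} := by
    refine convexHull_min ?_ ?_
    · rintro _ ⟨j, rfl⟩
      by_cases h : j = i
      · exact Or.inr (by rw [h])
      · exact Or.inl (L_lt i j h)
    · intro y hy z hz a b ha hb hab
      rcases ha.eq_or_lt with rfl | ha'
      · have : b = 1 := by linarith
        simpa [this] using hz
      rcases hb.eq_or_lt with rfl | hb'
      · have : a = 1 := by linarith
        simpa [this] using hy
      have e : l (W i) = a * l (W i) + b * l (W i) := by rw [← add_mul, hab, one_mul]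
      rcases hy with hy | hy <;> rcases hz with hz | hz
      · left; rw [hl]; nlinarith
      · left; rw [hl, hz]; nlinarith
      · left; rw [hl, hy]; nlinarith
      · right; rw [hy, hz, ← add_smul, hab, one_smul]
  refine ⟨W_mem i, fun y hy z hz h => ?_⟩
  obtain ⟨a, b, ha, hb, hab, h⟩ := h
  have e : l (W i) = a * l (W i) + b * l (W i) := by rw [← add_mul, hab, one_mul]
  have e2 := hl a b y z
  rw [h] at e2
  rcases hS hy with h1 | h1
  · have : l z ≤ l (W i) := by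
      rcases hS hz with h2 | h2
      · exact h2.le
      · rw [h2]
    nlinarith
  · exact h1

lemma ext_eq : range W = C.extremePoints ℝ :=
  Subset.antisymm (range_subset_iff.2 W_ext) extremePoints_convexHull_subset

lemma not_simplex : ¬ IsSimplex C := by
  classical
  rintro ⟨s, hs, h⟩
  have h1 : range W ⊆ (s : Set (Fin 4 → ℝ)) := by
    rw [ext_eq, h]; exact extremePoints_convexHull_subset
  have h2 : (Finset.univ.image W).card ≤ s.card :=
    Finset.card_le_card fun x hx => by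
      obtain ⟨i, -, rfl⟩ := Finset.mem_image.1 hx
      exact h1 ⟨i, rfl⟩
  rw [Finset.card_image_of_injective _ W_inj] at h2
  have h3 := hs.card_le_finrank_succ
  have h4 := Submodule.finrank_le (vectorSpan ℝ (range ((↑) : s → (Fin 4 → ℝ))))
  simp at h2 h3 h4
  omega

abbrev T : Set (Fin 10 → ℝ) := stdSimplex ℝ (Fin 10)

def D : Set (Fin 10 → ℝ) := {x | x ∈ T ∧ x 0 + x 1 = x 2 + x 3 ∧ x 0 + x 1 = x 4 + x 5}

def f (x : Fin 10 → ℝ) : Fin 4 → ℝ :=
  ![3 * x 1 + 3 * x 7, 3 * x 3 + 3 * x 8, 3 * x 5 + 3 * x 9, 3 * x 0 + 3 * x 1]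

def e (i : Fin 10) : T := ⟨Pi.single i 1, single_mem_stdSimplex ℝ i⟩

def G : Set (T → ℝ) := {ω | ω ∈ Forms T ∧ ω (e 1) - ω (e 0) = ω (e 7) - ω (e 6) ∧
  ω (e 3) - ω (e 2) = ω (e 8) - ω (e 6) ∧ ω (e 5) - ω (e 4) = ω (e 9) - ω (e 6)}

noncomputable def g (ω : T → ℝ) (y : C) : ℝ :=
  ω (e 6) + y.1 0 * ((ω (e 7) - ω (e 6)) / 3) + y.1 1 * ((ω (e 8) - ω (e 6)) / 3) +
    y.1 2 * ((ω (e 9) - ω (e 6)) / 3) + y.1 3 * ((ω (e 0) + ω (e 2) + ω (e 4)) / 3 - ω (e 6))

lemma sum10 (x : Fin 10 → ℝ) :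
    ∑ i, x i = x 0 + x 1 + x 2 + x 3 + x 4 + x 5 + x 6 + x 7 + x 8 + x 9 := by
  simp [Fin.sum_univ_succ]; ring

lemma form_T {ω : T → ℝ} (h : ω ∈ Forms T) (x : T) : ω x = ∑ i, x.1 i * ω (e i) := by
  obtain ⟨-, c, l, hl⟩ := mem_forms.1 h
  have h1 : ∀ i, ω (e i) = c + l i := fun i => by simp [hl, e, Pi.single_apply]
  simp only [h1, mul_add, Finset.sum_add_distrib, ← Finset.sum_mul, x.2.2, one_mul, hl]

lemma D_step : ∀ x ∈ D, ∀ y ∈ D, ∀ l ∈ Icc (0 : ℝ) 1, l • x + (1 - l) • y ∈ D ∧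
    f (l • x + (1 - l) • y) = l • f x + (1 - l) • f y := by
  intro x hx y hy l hl
  refine ⟨⟨convex_stdSimplex ℝ _ hx.1 hy.1 hl.1 (sub_nonneg.2 hl.2) (by ring), ?_, ?_⟩, ?_⟩
  · simp only [Pi.add_apply, Pi.smul_apply, smul_eq_mul]
    linear_combination l * hx.2.1 + (1 - l) * hy.2.1
  · simp only [Pi.add_apply, Pi.smul_apply, smul_eq_mul]
    linear_combination l * hx.2.2 + (1 - l) * hy.2.2
  · ext j; fin_cases j <;> simp [f] <;> ring

lemma frac {a b : ℝ} (ha : 0 ≤ a) (hb : 0 ≤ b) : ∃ y : ℝ, 0 ≤ y ∧ y ≤ 1 ∧ b = (a + b) * y := by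
  rcases (add_nonneg ha hb).eq_or_lt with h | h
  · exact ⟨0, le_rfl, zero_le_one, by linarith⟩
  · exact ⟨b / (a + b), by positivity, by rw [div_le_one h]; linarith, by field_simp⟩

lemma cube (a b c : ℝ) (ha : a = 0 ∨ a = 1) (hb : b = 0 ∨ b = 1) (hc : c = 0 ∨ c = 1) :
    (![a, b, c, 1] : Fin 4 → ℝ) ∈ f '' D := by
  refine ⟨![(1 - a) / 3, a / 3, (1 - b) / 3, b / 3, (1 - c) / 3, c / 3, 0, 0, 0, 0],
    ⟨⟨fun i => ?_, ?_⟩, ?_, ?_⟩, ?_⟩
  · rcases ha with rfl | rfl <;> rcases hb with rfl | rfl <;> rcases hc with rfl | rfl <;>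
      fin_cases i <;> simp
  · rw [sum10]; simp; ring
  · simp; ring
  · simp; ring
  · ext j; fin_cases j <;> simp [f] <;> ring

lemma img : f '' D = C := by
  refine Subset.antisymm ?_ (convexHull_min ?_ ?_)
  · rintro _ ⟨x, ⟨⟨h0, h1⟩, h2, h3⟩, rfl⟩
    rw [sum10] at h1
    obtain ⟨a, a0, a1, ha⟩ := frac (h0 0) (h0 1)
    obtain ⟨b, b0, b1, hb⟩ := frac (h0 2) (h0 3)
    obtain ⟨c, c0, c1, hc⟩ := frac (h0 4) (h0 5)
    rw [← h2] at hb
    rw [← h3] at hc
    obtain ⟨h, hh⟩ : ∃ h, h = 3 * (x 0 + x 1) := ⟨_, rfl⟩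
    have hp : 0 ≤ h := by linarith [h0 0, h0 1]
    have a2 := sub_nonneg.2 a1
    have b2 := sub_nonneg.2 b1
    have c2 := sub_nonneg.2 c1
    let w : Fin 12 → ℝ := ![h * (1 - a) * (1 - b) * (1 - c), h * (1 - a) * (1 - b) * c,
      h * (1 - a) * b * (1 - c), h * (1 - a) * b * c, h * a * (1 - b) * (1 - c),
      h * a * (1 - b) * c, h * a * b * (1 - c), h * a * b * c, x 6, x 7, x 8, x 9]
    have : f x = ∑ i, w i • W i := by
      ext j
      fin_cases j <;> simp [f, w, W, VZ, Fin.sum_univ_succ]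
      · linear_combination 3 * ha - a * hh
      · linear_combination 3 * hb - b * hh
      · linear_combination 3 * hc - c * hh
      · linear_combination -hh
    rw [this]
    refine (convex_convexHull ℝ _).sum_mem (fun i _ => ?_) ?_ fun i _ => W_mem i
    · have := h0 6; have := h0 7; have := h0 8; have := h0 9
      fin_cases i <;> simp only [w] <;> simp only [Matrix.cons_val_succ', Matrix.cons_val_zero',
        Fin.zero_eta, Matrix.cons_val_zero] <;> positivity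
    · simp [w, Fin.sum_univ_succ]
      linear_combination hh + h1 + h2 + h3
  · rintro _ ⟨i, rfl⟩
    have b : ∀ k : Fin 10, 6 ≤ k → (e k).1 ∈ D := fun k hk =>
      ⟨(e k).2, by fin_cases k <;> simp [e] at hk ⊢, by fin_cases k <;> simp [e] at hk ⊢⟩
    fin_cases i
    · convert cube 0 0 0 (by simp) (by simp) (by simp); ext j; fin_cases j <;> simp [W, VZ]
    · convert cube 0 0 1 (by simp) (by simp) (by simp); ext j; fin_cases j <;> simp [W, VZ]
    · convert cube 0 1 0 (by simp) (by simp) (by simp); ext j; fin_cases j <;> simp [W, VZ]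
    · convert cube 0 1 1 (by simp) (by simp) (by simp); ext j; fin_cases j <;> simp [W, VZ]
    · convert cube 1 0 0 (by simp) (by simp) (by simp); ext j; fin_cases j <;> simp [W, VZ]
    · convert cube 1 0 1 (by simp) (by simp) (by simp); ext j; fin_cases j <;> simp [W, VZ]
    · convert cube 1 1 0 (by simp) (by simp) (by simp); ext j; fin_cases j <;> simp [W, VZ]
    · convert cube 1 1 1 (by simp) (by simp) (by simp); ext j; fin_cases j <;> simp [W, VZ]
    · exact ⟨_, b 6 (by decide), by ext j; fin_cases j <;> simp [W, VZ, f, e]⟩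
    · exact ⟨_, b 7 (by decide), by ext j; fin_cases j <;> simp [W, VZ, f, e]⟩
    · exact ⟨_, b 8 (by decide), by ext j; fin_cases j <;> simp [W, VZ, f, e]⟩
    · exact ⟨_, b 9 (by decide), by ext j; fin_cases j <;> simp [W, VZ, f, e]⟩
  · rintro _ ⟨x, hx, rfl⟩ _ ⟨y, hy, rfl⟩ a b ha hb hab
    obtain ⟨h1, h2⟩ := D_step x hx y hy a ⟨ha, by linarith⟩
    exact ⟨_, h1, by rw [h2, show 1 - a = b by linarith]⟩

lemma compat (x : T) (hx : x.1 ∈ D) (ω : T → ℝ) (hω : ω ∈ G) (y : C) (hy : y.1 = f x) :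
    g ω y = ω x := by
  have h0 := congrFun hy 0
  have h1 := congrFun hy 1
  have h2 := congrFun hy 2
  have h3 := congrFun hy 3
  simp [f] at h0 h1 h2 h3
  have s := x.2.2
  rw [sum10] at s
  rw [form_T hω.1 x, sum10]
  simp only [g, h0, h1, h2, h3]
  obtain ⟨-, k1, k2⟩ := hx
  obtain ⟨-, m1, m2, m3⟩ := hω
  linear_combination (-ω (e 6)) * s - x.1 1 * m1 - x.1 3 * m2 - x.1 5 * m3 +
    (ω (e 2) - ω (e 6)) * k1 + (ω (e 4) - ω (e 6)) * k2

lemma pick {l0 l1 l2 u0 u1 u2 S : ℝ} (h0 : l0 ≤ u0) (h1 : l1 ≤ u1) (h2 : l2 ≤ u2)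
    (hl : l0 + l1 + l2 ≤ S) (hu : S ≤ u0 + u1 + u2) : ∃ b0 b1 b2 : ℝ, l0 ≤ b0 ∧ b0 ≤ u0 ∧
      l1 ≤ b1 ∧ b1 ≤ u1 ∧ l2 ≤ b2 ∧ b2 ≤ u2 ∧ b0 + b1 + b2 = S := by
  rcases le_total S (u0 + l1 + l2) with h | h
  · exact ⟨S - l1 - l2, l1, l2, by linarith, by linarith, le_rfl, h1, le_rfl, h2, by ring⟩
  rcases le_total S (u0 + u1 + l2) with k | k
  · exact ⟨u0, S - u0 - l2, l2, h0, le_rfl, by linarith, by linarith, le_rfl, h2, by ring⟩
  · exact ⟨u0, u1, S - u0 - u1, h0, le_rfl, h1, le_rfl, by linarith, by linarith, by ring⟩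

lemma refines : Refines C T D f G g := by
  refine ⟨⟨fun x hx => hx.1, D_step, img⟩, ⟨fun x hx => hx.1, ?_, ?_⟩, compat⟩
  · intro ω hω η hη l hl
    refine ⟨⟨forms_conv hω.1 hη.1 hl, ?_, ?_, ?_⟩, ?_⟩
    · simp only [Pi.add_apply, Pi.smul_apply, smul_eq_mul]
      linear_combination l * hω.2.1 + (1 - l) * hη.2.1
    · simp only [Pi.add_apply, Pi.smul_apply, smul_eq_mul]
      linear_combination l * hω.2.2.1 + (1 - l) * hη.2.2.1
    · simp only [Pi.add_apply, Pi.smul_apply, smul_eq_mul]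
      linear_combination l * hω.2.2.2 + (1 - l) * hη.2.2.2
    · ext y; simp only [g, Pi.add_apply, Pi.smul_apply, smul_eq_mul]; ring
  · ext η
    constructor
    · rintro ⟨ω, hω, rfl⟩
      refine mem_forms.2 ⟨fun y => ?_, ω (e 6), ![(ω (e 7) - ω (e 6)) / 3,
        (ω (e 8) - ω (e 6)) / 3, (ω (e 9) - ω (e 6)) / 3,
        (ω (e 0) + ω (e 2) + ω (e 4)) / 3 - ω (e 6)], fun y => by
          simp [g, add_assoc, Fin.sum_univ_four]⟩
      obtain ⟨x, hx, h⟩ : y.1 ∈ f '' D := by rw [img]; exact y.2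
      rw [compat ⟨x, hx.1⟩ hx ω hω y h.symm]
      exact hω.1.1 _
    · intro hη
      obtain ⟨hb, c, l, hl⟩ := mem_forms.1 hη
      have v : ∀ i, 0 ≤ c + ∑ k, W i k * l k ∧ c + ∑ k, W i k * l k ≤ 1 := fun i => by
        have := hb ⟨W i, W_mem i⟩
        rw [hl] at this
        exact this
      have v0 := v 0
      have v1 := v 1
      have v2 := v 2
      have v3 := v 3
      have v4 := v 4
      have v5 := v 5
      have v6 := v 6
      have v7 := v 7
      have v8 := v 8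
      have v9 := v 9
      have v10 := v 10
      have v11 := v 11
      simp [W, VZ, Fin.sum_univ_four] at v0 v1 v2 v3 v4 v5 v6 v7 v8 v9 v10 v11
      obtain ⟨b0, b1, b2, p0, q0, p1, q1, p2, q2, hs⟩ := pick (l0 := max 0 (-3 * l 0))
        (l1 := max 0 (-3 * l 1)) (l2 := max 0 (-3 * l 2)) (u0 := min 1 (1 - 3 * l 0))
        (u1 := min 1 (1 - 3 * l 1)) (u2 := min 1 (1 - 3 * l 2)) (S := 3 * (c + l 3))
        (by simp only [max_def, min_def]; split_ifs <;> linarith)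
        (by simp only [max_def, min_def]; split_ifs <;> linarith)
        (by simp only [max_def, min_def]; split_ifs <;> linarith)
        (by simp only [max_def]; split_ifs <;> linarith)
        (by simp only [min_def]; split_ifs <;> linarith)
      rw [max_le_iff] at p0 p1 p2
      rw [le_min_iff] at q0 q1 q2
      let w : Fin 10 → ℝ := ![b0, b0 + 3 * l 0, b1, b1 + 3 * l 1, b2, b2 + 3 * l 2, c,
        c + 3 * l 0, c + 3 * l 1, c + 3 * l 2]
      have hw : ∀ i, w i ∈ Icc (0 : ℝ) 1 := by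
        intro i; fin_cases i <;> simp [w] <;> constructor <;> linarith
      have we : ∀ i, ∑ j, (e i).1 j * w j = w i := fun i => by simp [e, Pi.single_apply]
      refine ⟨fun x => ∑ i, x.1 i * w i,
        ⟨mem_forms.2 ⟨fun x => ⟨?_, ?_⟩, 0, w, by simp⟩, ?_, ?_, ?_⟩, ?_⟩
      · exact Finset.sum_nonneg fun i _ => mul_nonneg (x.2.1 i) (hw i).1
      · rw [← x.2.2]
        exact Finset.sum_le_sum fun i _ => mul_le_of_le_one_right (x.2.1 i) (hw i).2
      · simp only [we]; simp [w]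
      · simp only [we]; simp [w]
      · simp only [we]; simp [w]
      · ext y
        simp only [g, we, hl, Fin.sum_univ_four]
        simp [w]
        linear_combination (y.1 3 / 3) * hs

end Pool.Agent.H81.Refine2
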