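import Mathlib

set_option autoImplicit false

namespace Pool.Agent.H81.Rhombic

open Set MeasureTheory Pointwise

abbrev E := EuclideanSpace ℝ (Fin 3)

def det3 (u v w : E) : ℝ :=
  u 0 * (v 1 * w 2 - v 2 * w 1) - u 1 * (v 0 * w 2 - v 2 * w 0) + u 2 * (v 0 * w 1 - v 1 * w 0)

lemma norm_sq3 (v : E) : ‖v‖ ^ 2 = v 0 ^ 2 + v 1 ^ 2 + v 2 ^ 2 := by
  rw [EuclideanSpace.norm_sq_eq, Fin.sum_univ_three]; simp

lemma vol_par (v : Fin 3 → E) :
    volume (parallelepiped v) = ENNReal.ofReal |det3 (v 0) (v 1) (v 2)| := by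
  rw [← (EuclideanSpace.basisFun (Fin 3) ℝ).addHaar_eq_volume, Measure.addHaar_parallelepiped,
    Module.Basis.det_apply, Matrix.det_fin_three]
  congr 2
  simp [Module.Basis.toMatrix_apply, det3]
  ring

/-- the sub-parallelepiped omitting generator `i` -/
def P (q : Fin 4 → E) (i : Fin 4) : Set E := parallelepiped (fun k => q (i.succAbove k))

noncomputable def dt (q : Fin 4 → E) (i : Fin 4) : ℝ :=
  det3 (q (i.succAbove 0)) (q (i.succAbove 1)) (q (i.succAbove 2))

lemma vol_P (q : Fin 4 → E) (i : Fin 4) : volume (P q i) = ENNReal.ofReal |dt q i| := vol_par _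

lemma mem_P {q : Fin 4 → E} {i : Fin 4} {x : E} :
    x ∈ P q i ↔ ∃ s ∈ Icc (0 : Fin 4 → ℝ) 1, s i = 0 ∧ x = ∑ j, s j • q j := by
  rw [P, mem_parallelepiped_iff]
  constructor
  · rintro ⟨t, ht, rfl⟩
    refine ⟨i.insertNth 0 t, ⟨fun j => ?_, fun j => ?_⟩, by simp, ?_⟩
    · refine i.succAboveCases ?_ (fun k => ?_) j
      · simp
      · simpa using ht.1 k
    · refine i.succAboveCases ?_ (fun k => ?_) j
      · simp
      · simpa using ht.2 k
    · rw [Fin.sum_univ_succAbove _ i]; simp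
  · rintro ⟨s, hs, h0, rfl⟩
    refine ⟨fun k => s (i.succAbove k), ⟨fun k => hs.1 _, fun k => hs.2 _⟩, ?_⟩
    rw [Fin.sum_univ_succAbove _ i, h0]; simp

lemma cover (q : Fin 4 → E) (l : Fin 4 → ℝ) (hl : l ≠ 0) (hr : ∑ j, l j • q j = 0) :
    parallelepiped q ⊆ ⋃ i, ((if l i < 0 then q i else 0) +ᵥ P q i) := by
  classical
  intro x hx
  obtain ⟨s, hs, rfl⟩ := (mem_parallelepiped_iff _ _).1 hx
  let r : Fin 4 → ℝ := fun j => if l j < 0 then (1 - s j) / (-l j) else s j / l j
  have hne : (Finset.univ.filter fun j => l j ≠ 0).Nonempty := by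
    by_contra h
    apply hl
    ext j
    by_contra hj
    exact h ⟨j, by simpa using hj⟩
  obtain ⟨i, hi, hmin⟩ := Finset.exists_min_image _ r hne
  have hi0 : l i ≠ 0 := by simpa using hi
  have hr0 : 0 ≤ r i := by
    simp only [r]
    split_ifs with h
    · exact div_nonneg (sub_nonneg.2 (hs.2 i)) (by linarith)
    · exact div_nonneg (hs.1 i) (not_lt.1 h)
  have hb : ∀ j, 0 ≤ s j - r i * l j ∧ s j - r i * l j ≤ 1 := by
    intro j
    have h0 : 0 ≤ s j := hs.1 j
    have h1 : s j ≤ 1 := hs.2 j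
    rcases lt_trichotomy (l j) 0 with h | h | h
    · have := hmin j (by simpa using h.ne)
      simp only [r, if_pos h] at this
      rw [le_div_iff₀ (by linarith)] at this
      constructor
      · nlinarith
      · simp only [r]; linarith
    · rw [h]; constructor <;> linarith
    · have := hmin j (by simpa using h.ne')
      simp only [r, if_neg h.le.not_gt] at this
      rw [le_div_iff₀ h] at this
      constructor
      · simp only [r]; linarith
      · nlinarith
  have hx : ∑ j, s j • q j = ∑ j, (s j - r i * l j) • q j := by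
    simp only [sub_smul, mul_smul, Finset.sum_sub_distrib, ← Finset.smul_sum, hr, smul_zero,
      sub_zero]
  refine mem_iUnion.2 ⟨i, ∑ j, (Function.update (fun j => s j - r i * l j) i 0) j • q j,
    mem_P.2 ⟨_, ⟨fun j => ?_, fun j => ?_⟩, by simp, rfl⟩, ?_⟩
  · by_cases h : j = i
    · subst h; simp
    · simpa [h] using (hb j).1
  · by_cases h : j = i
    · subst h; simp
    · simpa [h] using (hb j).2
  · rw [hx, Fin.sum_univ_succAbove _ i, Fin.sum_univ_succAbove _ i]
    simp only [vadd_eq_add, Function.update_self, zero_smul, zero_add]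
    congr 1
    · by_cases h : l i < 0
      · have : s i - r i * l i = 1 := by simp only [r, if_pos h]; field_simp; ring
        rw [this, if_pos h, one_smul]
      · have : s i - r i * l i = 0 := by simp only [r, if_neg h]; field_simp; ring
        rw [this, if_neg h, zero_smul]
    · refine Finset.sum_congr rfl fun k _ => ?_
      rw [Function.update_of_ne (Fin.succAbove_ne i k)]

lemma vol_le (q : Fin 4 → E) :
    volume (parallelepiped q) ≤ ENNReal.ofReal (∑ i, |dt q i|) := by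
  have hdep : ¬ LinearIndependent ℝ q := fun h => by
    have := h.fintype_card_le_finrank
    simp at this
  obtain ⟨l, hl, i, hi⟩ := Fintype.not_linearIndependent_iff.1 hdep
  refine (measure_mono (cover q l (fun h => hi (by simp [h])) hl)).trans
    ((measure_iUnion_fintype_le _ _).trans (le_of_eq ?_))
  rw [ENNReal.ofReal_sum_of_nonneg fun i _ => abs_nonneg _]
  refine Finset.sum_congr rfl fun i _ => ?_
  rw [measure_vadd, vol_P]

lemma P_compact (q : Fin 4 → E) (i : Fin 4) : IsCompact (P q i) :=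
  isCompact_Icc.image (by fun_prop)

lemma vol_eq (q : Fin 4 → E) (l : Fin 4 → ℝ) (hl : ∀ i, 0 < l i)
    (hind : ∀ s : Fin 4 → ℝ, ∑ j, s j • q j = 0 → ∃ m : ℝ, ∀ j, s j = m * l j) :
    volume (parallelepiped q) = ENNReal.ofReal (∑ i, |dt q i|) := by
  classical
  refine le_antisymm (vol_le q) ?_
  have hsub : (⋃ i, P q i) ⊆ parallelepiped q := by
    refine iUnion_subset fun i x hx => ?_
    obtain ⟨s, hs, -, rfl⟩ := mem_P.1 hx
    exact (mem_parallelepiped_iff _ _).2 ⟨s, hs, rfl⟩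
  refine le_trans (le_of_eq ?_) (measure_mono hsub)
  rw [measure_iUnion₀ ?_ fun i => (P_compact q i).measurableSet.nullMeasurableSet, tsum_fintype,
    ENNReal.ofReal_sum_of_nonneg fun i _ => abs_nonneg _]
  · exact Finset.sum_congr rfl fun i _ => (vol_P q i).symm
  · intro i j hij
    let S : Finset E := ((Finset.univ.erase i).erase j).image q
    have hS : Submodule.span ℝ (S : Set E) < ⊤ := by
      refine span_lt_top_of_card_lt_finrank ?_
      have h1 : S.card ≤ 2 := by
        refine Finset.card_image_le.trans ?_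
        rw [Finset.card_erase_of_mem (by simpa using hij.symm), Finset.card_erase_of_mem (by simp)]
        simp
      simpa using Nat.lt_succ_of_le h1
    refine measure_mono_null ?_ (Measure.addHaar_submodule volume _ hS.ne)
    rintro x ⟨hi, hj⟩
    obtain ⟨s, hs, si, rfl⟩ := mem_P.1 hi
    obtain ⟨t, ht, tj, h⟩ := mem_P.1 hj
    obtain ⟨m, hm⟩ := hind (s - t) (by
      simp only [Pi.sub_apply, sub_smul, Finset.sum_sub_distrib, h, sub_self])
    have h1 := hm i
    have h2 := hm j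
    simp only [Pi.sub_apply, si, tj] at h1 h2
    have h3 : 0 ≤ t i := ht.1 i
    have h4 : 0 ≤ s j := hs.1 j
    have h5 : m ≤ 0 := by nlinarith [hl i]
    have h6 : s j = 0 := by nlinarith [hl j]
    refine Submodule.sum_mem _ fun k _ => ?_
    by_cases hk : k = i
    · subst hk; simp [si]
    by_cases hk' : k = j
    · subst hk'; simp [h6]
    exact Submodule.smul_mem _ _ (Submodule.subset_span
      (Finset.mem_coe.2 (Finset.mem_image_of_mem q (by simp [hk, hk']))))

/-- Hadamard's inequality in dimension three. -/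
lemma hadamard (a b c : E) : |det3 a b c| ≤ ‖a‖ * ‖b‖ * ‖c‖ := by
  refine abs_le_of_sq_le_sq ?_ (by positivity)
  rw [mul_pow, mul_pow, norm_sq3, norm_sq3, norm_sq3, det3]
  set x := b 1 * c 2 - b 2 * c 1
  set y := b 0 * c 2 - b 2 * c 0
  set z := b 0 * c 1 - b 1 * c 0
  have h1 : (a 0 * x - a 1 * y + a 2 * z) ^ 2 ≤
      (a 0 ^ 2 + a 1 ^ 2 + a 2 ^ 2) * (x ^ 2 + y ^ 2 + z ^ 2) := by
    nlinarith [sq_nonneg (a 0 * y + a 1 * x), sq_nonneg (a 0 * z - a 2 * x),
      sq_nonneg (a 1 * z + a 2 * y)]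
  have h2 : x ^ 2 + y ^ 2 + z ^ 2 ≤
      (b 0 ^ 2 + b 1 ^ 2 + b 2 ^ 2) * (c 0 ^ 2 + c 1 ^ 2 + c 2 ^ 2) := by
    simp only [x, y, z]
    nlinarith [sq_nonneg (b 0 * c 0 + b 1 * c 1 + b 2 * c 2)]
  calc _ ≤ _ := h1
    _ ≤ _ := by
      rw [mul_assoc]
      exact mul_le_mul_of_nonneg_left h2 (by positivity)

/-- signed sums of generators are differences of points of the zonotope -/
lemma signed_le {q : Fin 4 → E} {c : E} {r : ℝ} (h : parallelepiped q ⊆ Metric.closedBall c r)
    (ε : Fin 4 → ℝ) (hε : ∀ i, ε i = 1 ∨ ε i = -1) : ‖∑ i, ε i • q i‖ ≤ 2 * r := by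
  have m : ∀ η : Fin 4 → ℝ, (∀ i, η i = 1 ∨ η i = -1) →
      ∑ i, ((1 + η i) / 2) • q i ∈ Metric.closedBall c r := fun η hη =>
    h ((mem_parallelepiped_iff _ _).2 ⟨fun i => (1 + η i) / 2,
      ⟨fun i => by rcases hη i with h | h <;> simp [h], fun i => by
        rcases hη i with h | h <;> simp [h]⟩, rfl⟩)
  have h1 := m ε hε
  have h2 := m (-ε) fun i => by rcases hε i with h | h <;> simp [h]
  have e : ∑ i, ε i • q i = ∑ i, ((1 + ε i) / 2) • q i - ∑ i, ((1 + (-ε) i) / 2) • q i := by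
    rw [← Finset.sum_sub_distrib]
    refine Finset.sum_congr rfl fun i _ => ?_
    rw [← sub_smul]; congr 1; simp; ring
  rw [e, ← dist_eq_norm]
  have := dist_triangle_right (∑ i, ((1 + ε i) / 2) • q i) (∑ i, ((1 + (-ε) i) / 2) • q i) c
  rw [Metric.mem_closedBall] at h1 h2
  linarith

lemma vol_le_cr {q : Fin 4 → E} {c : E} {r : ℝ} (h : parallelepiped q ⊆ Metric.closedBall c r) :
    ∑ i, |dt q i| ≤ 2 * r ^ 3 := by
  have sg : ∀ x : ℝ, ∃ e : ℝ, (e = 1 ∨ e = -1) ∧ |x| = e * x := fun x => by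
    rcases le_total 0 x with h | h
    · exact ⟨1, Or.inl rfl, by rw [abs_of_nonneg h, one_mul]⟩
    · exact ⟨-1, Or.inr rfl, by rw [abs_of_nonpos h]; ring⟩
  obtain ⟨e0, h0, k0⟩ := sg (dt q 0)
  obtain ⟨e1, h1, k1⟩ := sg (-dt q 1)
  obtain ⟨e2, h2, k2⟩ := sg (dt q 2)
  obtain ⟨e3, h3, k3⟩ := sg (-dt q 3)
  rw [abs_neg] at k1 k3
  have n : ∀ {e : ℝ}, (e = 1 ∨ e = -1) → (-e = 1 ∨ -e = -1) := fun h => by
    rcases h with h | h <;> simp [h]
  have a := signed_le h ![e0, e1, -e2, -e3] fun i => by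
    fin_cases i <;> simp only [] <;> first | assumption | exact n ‹_›
  have b := signed_le h ![e0, -e1, e2, -e3] fun i => by
    fin_cases i <;> simp only [] <;> first | assumption | exact n ‹_›
  have d := signed_le h ![e0, -e1, -e2, e3] fun i => by
    fin_cases i <;> simp only [] <;> first | assumption | exact n ‹_›
  have H := hadamard (∑ i, ![e0, e1, -e2, -e3] i • q i) (∑ i, ![e0, -e1, e2, -e3] i • q i)
    (∑ i, ![e0, -e1, -e2, e3] i • q i)
  have hr : 0 ≤ 2 * r := (norm_nonneg _).trans a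
  have H2 : _ ≤ (2 * r) * (2 * r) * (2 * r) := H.trans
    (mul_le_mul (mul_le_mul a b (norm_nonneg _) hr) d (norm_nonneg _) (by positivity))
  have key : |det3 (∑ i, ![e0, e1, -e2, -e3] i • q i) (∑ i, ![e0, -e1, e2, -e3] i • q i)
      (∑ i, ![e0, -e1, -e2, e3] i • q i)| = 4 * |e0 * dt q 0 + e1 * -dt q 1 + e2 * dt q 2 +
        e3 * -dt q 3| := by
    rw [← abs_of_pos (by norm_num : (0 : ℝ) < 4), ← abs_mul, abs_eq_abs]
    simp only [det3, dt, Fin.sum_univ_four, PiLp.add_apply, PiLp.smul_apply, smul_eq_mul]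
    rcases h0 with h0 | h0 <;> rcases h1 with h1 | h1 <;> rcases h2 with h2 | h2 <;>
      rcases h3 with h3 | h3 <;> simp [h0, h1, h2, h3, Fin.succAbove] <;>
      first | (left; ring1) | (right; ring1)
  rw [Fin.sum_univ_four, k0, k1, k2, k3]
  have := le_abs_self (e0 * dt q 0 + e1 * -dt q 1 + e2 * dt q 2 + e3 * -dt q 3)
  nlinarith

end Pool.Agent.H81.Rhombic
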