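import Pool.Agent.H81.Net1

set_option autoImplicit false

open scoped Classical RealInnerProductSpace

namespace Pool.Agent.H81.Net

noncomputable def c0 : ℝ := Real.sqrt 3 / (2 * Real.sqrt 2 - 1)

lemma s2 : Real.sqrt 2 * Real.sqrt 2 = 2 := Real.mul_self_sqrt (by norm_num)
lemma s3 : Real.sqrt 3 * Real.sqrt 3 = 3 := Real.mul_self_sqrt (by norm_num)
lemma s2b : 1.41 < Real.sqrt 2 ∧ Real.sqrt 2 < 1.42 := by
  constructor <;> nlinarith [s2, Real.sqrt_nonneg 2]
lemma s3b : 1.73 < Real.sqrt 3 ∧ Real.sqrt 3 < 1.74 := by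
  constructor <;> nlinarith [s3, Real.sqrt_nonneg 3]
lemma c0e : c0 * (2 * Real.sqrt 2 - 1) = Real.sqrt 3 := by
  unfold c0; exact div_mul_cancel₀ _ (by linarith [s2b.1])
lemma c0b : 0.9 < c0 ∧ c0 < 1 := by
  constructor <;> nlinarith [c0e, s2b.1, s2b.2, s3b.1, s3b.2]

variable {n : ℕ}

abbrev En (n : ℕ) := EuclideanSpace ℝ (Fin n)

lemma orth {S : Finset (Fin n)} {v o : En n} (hv : ∀ i ∉ S, v i = 0) (ho : ∀ i ∈ S, o i = 0) :
    ⟪v, o⟫ = 0 := by
  rw [PiLp.inner_apply]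
  refine Finset.sum_eq_zero fun i _ => ?_
  by_cases h : i ∈ S <;> simp [hv, ho, h]

lemma nsq (a b : ℝ) {v o : En n} (h : ⟪v, o⟫ = 0) :
    ‖a • v + b • o‖ ^ 2 = a ^ 2 * ‖v‖ ^ 2 + b ^ 2 * ‖o‖ ^ 2 := by
  rw [norm_add_sq_real, inner_smul_left, inner_smul_right, h, norm_smul, norm_smul]
  simp [mul_pow]

def Q (S : Finset (Fin n)) (x : En n) (c : ℝ) : Prop :=
  (S = ∅ ∧ 0 ≤ c) ∨ ∃ (v : En n) (p : ℝ), (∀ i ∉ S, v i = 0) ∧ ‖v‖ ^ 2 ≤ 1 ∧ p ≤ 1 ∧
    ∀ (β : ℝ) (o : En n), (∀ i ∈ S, o i = 0) → β ^ 2 + ‖o‖ ^ 2 ≤ 1 →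
      c0 * (S.card - p) + β * p - (β * ⟪v, x⟫ + ⟪o, x⟫) ≤ c

lemma Q.move (S : Finset (Fin n)) (x y : En n) (c : ℝ) (h : Q S x c) : Q S y (c + dist x y) := by
  rcases h with ⟨a, b⟩ | ⟨v, p, a1, a2, a3, a4⟩
  · exact Or.inl ⟨a, add_nonneg b dist_nonneg⟩
  · refine Or.inr ⟨v, p, a1, a2, a3, fun β o h1 h2 => ?_⟩
    have b1 := a4 β o h1 h2
    have b2 := real_inner_le_norm (β • v + (1 : ℝ) • o) (x - y)
    have b3 : ‖β • v + (1 : ℝ) • o‖ ≤ 1 := by
      refine (abs_le_of_sq_le_sq' ?_ zero_le_one).2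
      rw [nsq _ _ (orth a1 h1)]; nlinarith [sq_nonneg β]
    simp only [inner_add_left, inner_smul_left, inner_sub_right, conj_trivial] at b2
    rw [dist_eq_norm]
    nlinarith [norm_nonneg (x - y)]

lemma Q.merge (S S' : Finset (Fin n)) (x : En n) (c c' : ℝ) (hd : Disjoint S S') (h : Q S x c)
    (h' : Q S' x c') : Q (S ∪ S') x (c + c') := by
  have mono : ∀ {S : Finset (Fin n)} {c d : ℝ}, Q S x c → 0 ≤ d → Q S x (c + d) := by
    rintro S c d (⟨a, b⟩ | ⟨v, p, a1, a2, a3, a4⟩) h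
    · exact Or.inl ⟨a, add_nonneg b h⟩
    · exact Or.inr ⟨v, p, a1, a2, a3, fun β o h1 h2 => (a4 β o h1 h2).trans (by linarith)⟩
  rcases h' with ⟨rfl, b⟩ | ⟨w, q, b1, b2, b3, b4⟩
  · simpa using mono h b
  rcases h with ⟨rfl, b⟩ | ⟨v, p, a1, a2, a3, a4⟩
  · rw [Finset.empty_union, add_comm]; exact mono (Or.inr ⟨w, q, b1, b2, b3, b4⟩) b
  have d1 : ∀ i ∈ S, w i = 0 := fun i hi => b1 i (Finset.disjoint_left.1 hd hi)
  have d2 : ∀ i ∈ S', v i = 0 := fun i hi => a1 i (Finset.disjoint_right.1 hd hi)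
  set t := Real.sqrt 2 / 4 with ht
  have tt : t * t = 1 / 8 := by rw [ht]; linarith [s2]
  refine Or.inr ⟨(2 * t) • v + (2 * t) • w, (p + q) * t, fun i hi => ?_, ?_, ?_,
    fun β o h1 h2 => ?_⟩
  · simp only [Finset.mem_union, not_or] at hi
    simp [a1 i hi.1, b1 i hi.2]
  · rw [nsq _ _ (orth a1 d1)]; nlinarith
  · nlinarith [s2b.1, s2b.2]
  · have o1 : ∀ i ∈ S, o i = 0 := fun i hi => h1 i (Finset.mem_union_left _ hi)
    have o2 : ∀ i ∈ S', o i = 0 := fun i hi => h1 i (Finset.mem_union_right _ hi)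
    have k : ∀ u : En n, ‖u‖ ^ 2 ≤ 1 → ((β + Real.sqrt 3) * t) ^ 2 +
        (((β - Real.sqrt 3) * t) ^ 2 * ‖u‖ ^ 2 + (1 / 2) ^ 2 * ‖o‖ ^ 2) ≤ 1 := by
      intro u hu
      have := mul_le_mul_of_nonneg_left hu (sq_nonneg ((β - Real.sqrt 3) * t))
      have e : ((β + Real.sqrt 3) * t) ^ 2 + ((β - Real.sqrt 3) * t) ^ 2 = β ^ 2 / 4 + 3 / 4 := by
        linear_combination (2 * β ^ 2 + 2 * Real.sqrt 3 ^ 2) * tt + s3 / 4
      linarith
    have e1 := a4 ((β + Real.sqrt 3) * t) (((β - Real.sqrt 3) * t) • w + (1 / 2 : ℝ) • o)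
      (fun i hi => by simp [d1 i hi, o1 i hi]) (by rw [nsq _ _ (orth b1 o2)]; exact k w b2)
    have e2 := b4 ((β + Real.sqrt 3) * t) (((β - Real.sqrt 3) * t) • v + (1 / 2 : ℝ) • o)
      (fun i hi => by simp [d2 i hi, o2 i hi]) (by rw [nsq _ _ (orth a1 o1)]; exact k v a2)
    simp only [inner_add_left, inner_smul_left, conj_trivial] at e1 e2 ⊢
    rw [Finset.card_union_of_disjoint hd]
    push_cast
    have e3 : c0 * (1 - t) = Real.sqrt 3 * t := by
      rw [ht]; linear_combination Real.sqrt 2 / 4 * c0e - c0 / 2 * s2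
    have e4 : (p + q) * (c0 * (1 - t)) = (p + q) * (Real.sqrt 3 * t) := by rw [e3]
    linarith

lemma Q.leaf (i : Fin n) : Q {i} (EuclideanSpace.single i (1 : ℝ)) 0 := by
  refine Or.inr ⟨EuclideanSpace.single i 1, 1, fun j hj => ?_, by simp, le_rfl, fun β o h _ => ?_⟩
  · simp at hj; simp [hj]
  · simp [EuclideanSpace.inner_single_right, h i]

lemma sing_inj : Function.Injective fun i : Fin n => (EuclideanSpace.single i (1 : ℝ) : En n) := by
  intro i j h
  by_contra k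
  have := congrArg (· i) h
  simp [k] at this

theorem lowerS (hn : 0 < n) (T : Finset (En n))
    (hT : Finset.univ.image (fun i : Fin n => EuclideanSpace.single i (1 : ℝ)) ⊆ T)
    (G : SimpleGraph T) (hG : G.Connected) :
    c0 * (n - 1) ≤ (∑ x : T, ∑ y : T, if G.Adj x y then dist (x : En n) (y : En n) else 0) / 2 := by
  obtain ⟨r⟩ := hG.nonempty
  obtain ⟨par, dep, h1, h2⟩ := parent hG (fun x y => dist (x : En n) (y : En n))
    (fun _ _ => dist_nonneg) (fun _ _ => dist_comm _ _) r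
  have := collapse (V := T) (fun S x c => Q S (x : En n) c) (fun x y => dist (x : En n) (y : En n))
    (fun S x y c => Q.move S x y c) (fun S S' x => Q.merge S S' x) r par dep
    (fun x hx => (h1 x hx).2) _ Finset.univ rfl (Finset.mem_univ _) (fun _ _ _ => Finset.mem_univ _)
    (fun i => ⟨_, hT (Finset.mem_image_of_mem _ (Finset.mem_univ i))⟩) (fun _ => 0)
    (fun _ => Finset.mem_univ _) (fun v _ => by
      by_cases h : ∃ i : Fin n, EuclideanSpace.single i (1 : ℝ) = (v : En n)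
      · obtain ⟨i, hi⟩ := h
        have := Q.leaf i
        rw [hi] at this
        convert this
        ext j
        simp only [Finset.mem_filter, Finset.mem_univ, true_and, Finset.mem_singleton,
          Subtype.ext_iff, ← hi]
        exact sing_inj.eq_iff
      · exact Or.inl ⟨Finset.filter_eq_empty_iff.2 fun i _ k => h ⟨i, congrArg Subtype.val k⟩,
          le_rfl⟩)
  rcases this with ⟨a, -⟩ | ⟨v, p, -, -, a3, a4⟩
  · exact absurd a (Finset.univ_nonempty_iff.2 ⟨⟨0, hn⟩⟩).ne_empty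
  · have := a4 0 0 (by simp) (by simp)
    simp only [Finset.card_univ, Fintype.card_fin, inner_zero_left, Finset.sum_const_zero] at this
    nlinarith [c0b.1]

lemma block (j : ℕ) : ∀ A : Finset (Fin n), A.card = 2 ^ j → ∃ v : En n, (∀ i ∉ A, v i = 0) ∧
    ‖v‖ ^ 2 ≤ 1 ∧ ∀ (o : En n) (τ : ℝ), (∀ i ∈ A, o i = 0) → c0 ^ 2 + ‖o‖ ^ 2 ≤ 1 →
      (Real.sqrt 2 / 2) ^ j * (Real.sqrt 3 / 3) ≤ τ →
      R ((Real.sqrt 2 / 2) ^ j • v - τ • (c0 • v + o))
        ((fun i => (EuclideanSpace.single i (1 : ℝ) : En n)) '' A)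
        (c0 * (2 ^ j - (Real.sqrt 2 / 2) ^ j) + τ) := by
  have nb : ∀ {A : Finset (Fin n)} {v o : En n}, (∀ i ∉ A, v i = 0) → ‖v‖ ^ 2 ≤ 1 →
      (∀ i ∈ A, o i = 0) → c0 ^ 2 + ‖o‖ ^ 2 ≤ 1 → ‖c0 • v + o‖ ≤ 1 := by
    intro A v o a1 a2 a3 a4
    refine (abs_le_of_sq_le_sq' ?_ zero_le_one).2
    have := nsq c0 1 (orth a1 a3)
    rw [one_smul] at this
    nlinarith [sq_nonneg c0]
  induction j with
  | zero =>
    intro A hA
    obtain ⟨i, rfl⟩ := Finset.card_eq_one.1 hA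
    have a1 : ∀ k ∉ ({i} : Finset (Fin n)), (EuclideanSpace.single i (1 : ℝ) : En n) k = 0 :=
      fun k hk => by simp at hk; simp [hk]
    refine ⟨EuclideanSpace.single i 1, a1, by simp, fun o τ h1 h2 h3 => ?_⟩
    refine ((R.base (EuclideanSpace.single i (1 : ℝ) : En n)).move _).mono (by simp) ?_
    have t0 : 0 ≤ τ := le_trans (by positivity) h3
    have := nb a1 (by simp) h1 h2
    simp only [pow_zero, one_smul, dist_eq_norm, sub_sub_cancel_left, norm_neg, norm_smul,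
      Real.norm_eq_abs, abs_of_nonneg t0]
    nlinarith
  | succ j ih =>
    intro A hA
    obtain ⟨B, hB, cB⟩ := Finset.exists_subset_card_eq (s := A) (n := 2 ^ j) (by rw [hA]; omega)
    obtain ⟨v, a1, a2, a3⟩ := ih B cB
    obtain ⟨w, b1, b2, b3⟩ := ih (A \ B) (by rw [Finset.card_sdiff_of_subset hB, hA, cB]; omega)
    have d1 : ∀ i ∈ B, w i = 0 := fun i hi => b1 i (by simp [hi])
    have d2 : ∀ i ∈ A \ B, v i = 0 := fun i hi => a1 i (Finset.mem_sdiff.1 hi).2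
    set t := Real.sqrt 2 / 4 with ht
    have tt : t * t = 1 / 8 := by rw [ht]; linarith [s2]
    have e3 : c0 = (c0 + Real.sqrt 3) * t := by
      rw [ht]; linear_combination Real.sqrt 2 / 4 * c0e - c0 / 2 * s2
    have u1 : ∀ i ∉ A, ((2 * t) • v + (2 * t) • w) i = 0 := fun i hi => by
      simp [a1 i fun h => hi (hB h), b1 i fun h => hi (Finset.mem_sdiff.1 h).1]
    have u2 : ‖(2 * t) • v + (2 * t) • w‖ ^ 2 ≤ 1 := by rw [nsq _ _ (orth a1 d1)]; nlinarith
    refine ⟨(2 * t) • v + (2 * t) • w, u1, u2, fun o τ h1 h2 h3 => ?_⟩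
    have o1 : ∀ i ∈ B, o i = 0 := fun i hi => h1 i (hB hi)
    have o2 : ∀ i ∈ A \ B, o i = 0 := fun i hi => h1 i (Finset.mem_sdiff.1 hi).1
    have k : ∀ u : En n, ‖u‖ ^ 2 ≤ 1 → c0 ^ 2 +
        (((c0 - Real.sqrt 3) * t) ^ 2 * ‖u‖ ^ 2 + (1 / 2) ^ 2 * ‖o‖ ^ 2) ≤ 1 := by
      intro u hu
      have := mul_le_mul_of_nonneg_left hu (sq_nonneg ((c0 - Real.sqrt 3) * t))
      have e : ((c0 + Real.sqrt 3) * t) ^ 2 + ((c0 - Real.sqrt 3) * t) ^ 2 =
          c0 ^ 2 / 4 + 3 / 4 := by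
        linear_combination (2 * c0 ^ 2 + 2 * Real.sqrt 3 ^ 2) * tt + s3 / 4
      rw [← e3] at e
      linarith
    set q := (Real.sqrt 2 / 2) ^ j with hq
    have q0 : 0 < q := by positivity
    set σ := q * (Real.sqrt 2 * Real.sqrt 3 / 3) with hσ
    have σ1 : q * (Real.sqrt 3 / 3) ≤ σ := by
      apply mul_le_mul_of_nonneg_left _ q0.le; nlinarith [s2b.1, s3b.1]
    have r1 := a3 (((c0 - Real.sqrt 3) * t) • w + (1 / 2 : ℝ) • o) σ
      (fun i hi => by simp [d1 i hi, o1 i hi]) (by rw [nsq _ _ (orth b1 o2)]; exact k w b2) σ1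
    have r2 := b3 (((c0 - Real.sqrt 3) * t) • v + (1 / 2 : ℝ) • o) σ
      (fun i hi => by simp [d2 i hi, o2 i hi]) (by rw [nsq _ _ (orth a1 o1)]; exact k v a2) σ1
    have z1 : q - σ * c0 = -(σ * ((c0 - Real.sqrt 3) * t)) := by
      rw [hσ]
      linear_combination (-(q * (Real.sqrt 2 * Real.sqrt 3 / 3))) * e3 -
        q * Real.sqrt 2 * 2 * t / 3 * s3 - q * 2 * Real.sqrt 2 * ht - q / 2 * s2
    have p1 : q • w - σ • (c0 • w + (((c0 - Real.sqrt 3) * t) • v + (1 / 2 : ℝ) • o)) =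
        q • v - σ • (c0 • v + (((c0 - Real.sqrt 3) * t) • w + (1 / 2 : ℝ) • o)) := by
      ext i; simp; linear_combination (w i - v i) * z1
    rw [p1] at r2
    refine ((r1.merge r2).move _).mono ?_ ?_
    · rintro _ ⟨i, hi, rfl⟩
      by_cases h : i ∈ B
      · exact Or.inl ⟨i, h, rfl⟩
      · exact Or.inr ⟨i, by simpa using ⟨hi, h⟩, rfl⟩
    · have h4 : σ / 2 ≤ τ := by
        rw [pow_succ] at h3; rw [hσ]; linarith
      have z2 : q * (Real.sqrt 2 / 2) * (2 * t) = q / 2 := by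
        rw [ht]; linear_combination q / 4 * s2
      have p2 : (Real.sqrt 2 / 2) ^ (j + 1) • ((2 * t) • v + (2 * t) • w) -
          τ • (c0 • ((2 * t) • v + (2 * t) • w) + o) -
          (q • v - σ • (c0 • v + (((c0 - Real.sqrt 3) * t) • w + (1 / 2 : ℝ) • o))) =
          -((τ - σ / 2) • (c0 • ((2 * t) • v + (2 * t) • w) + o)) := by
        have z4 : σ * Real.sqrt 3 * t = q / 2 := by
          rw [hσ, ht]; linear_combination q * Real.sqrt 2 ^ 2 / 12 * s3 + q / 4 * s2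
        ext i; simp [pow_succ, ← hq]
        linear_combination (v i + w i) * z2 - v i * z1 - (v i + w i) * z4
      have := nb u1 u2 h1 h2
      rw [dist_eq_norm, p2, norm_neg, norm_smul, Real.norm_eq_abs, abs_of_nonneg (by linarith),
        pow_succ, pow_succ, ← hq]
      have z3 : 3 / 2 * σ = c0 * (2 - Real.sqrt 2 / 2) * q := by
        rw [hσ]; linear_combination (-(q * Real.sqrt 2 / 2)) * c0e + c0 * q * s2
      nlinarith

lemma upperR (m : ℕ) : ∀ A : Finset (Fin n), A.card = m →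
    R (0 : En n) ((fun i => (EuclideanSpace.single i (1 : ℝ) : En n)) '' A)
      (c0 * m + 7 * Real.sqrt m) := by
  induction m using Nat.strong_induction_on with
  | _ m ih =>
    intro A hA
    rcases Nat.eq_zero_or_pos m with rfl | hm
    · rw [Finset.card_eq_zero.1 hA]
      exact (R.base 0).mono (by simp) (by simp)
    set j := Nat.log 2 m
    have j1 : 2 ^ j ≤ m := Nat.pow_log_le_self 2 hm.ne'
    have j2 : m < 2 ^ (j + 1) := Nat.lt_pow_succ_log_self one_lt_two m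
    obtain ⟨B, hB, cB⟩ := Finset.exists_subset_card_eq (s := A) (n := 2 ^ j) (by omega)
    obtain ⟨v, a1, a2, a3⟩ := block j B cB
    have q0 : 0 < (Real.sqrt 2 / 2) ^ j := by positivity
    have q1 : (Real.sqrt 2 / 2) ^ j ≤ 1 := pow_le_one₀ (by positivity) (by linarith [s2b.2])
    generalize (Real.sqrt 2 / 2) ^ j = q at a3 q0 q1
    have c1 := c0b.1
    have r1 := a3 0 (q / c0) (by simp) (by rw [norm_zero]; nlinarith [c0b.2])
      (by rw [le_div_iff₀ (by linarith)]; nlinarith [c0b.2, s3b.2, mul_pos q0 (by linarith : 0 < c0)])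
    rw [add_zero, smul_smul, div_mul_cancel₀ _ (by linarith), sub_self] at r1
    have r2 := ih (m - 2 ^ j) (Nat.sub_lt hm (by positivity)) (A \ B)
      (by rw [Finset.card_sdiff_of_subset hB, hA, cB])
    refine (r1.merge r2).mono ?_ ?_
    · rintro _ ⟨i, hi, rfl⟩
      by_cases h : i ∈ B
      · exact Or.inl ⟨i, h, rfl⟩
      · exact Or.inr ⟨i, by simpa using ⟨hi, h⟩, rfl⟩
    · have k1 : q / c0 ≤ 2 := by rw [div_le_iff₀ (by linarith)]; linarith
      have k2 : ((m - 2 ^ j : ℕ) : ℝ) = m - 2 ^ j := by push_cast [j1]; rfl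
      have k3 : (m : ℝ) < 2 ^ j * 2 := by exact_mod_cast j2
      have k4 : (1 : ℝ) ≤ Real.sqrt m := Real.one_le_sqrt.2 (by exact_mod_cast hm)
      have k5 : Real.sqrt (m - 2 ^ j) ≤ 5 / 7 * Real.sqrt m := by
        refine Real.sqrt_le_iff.2 ⟨by positivity, ?_⟩
        rw [mul_pow, Real.sq_sqrt (by positivity)]
        have : (0 : ℝ) ≤ m := by positivity
        linarith
      rw [k2]
      nlinarith [mul_pos q0 (by linarith : 0 < c0)]

lemma sdist {i j : Fin n} (h : i ≠ j) : dist (EuclideanSpace.single i (1 : ℝ) : En n)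
    (EuclideanSpace.single j (1 : ℝ)) = Real.sqrt 2 := by
  rw [dist_eq_norm, ← Real.sqrt_sq (norm_nonneg _), norm_sub_sq_real]
  simp [EuclideanSpace.inner_single_left, h]; norm_num

theorem mstS (d : ℕ) : IsLeast {L : ℝ | ∃ T : Finset (En (d + 1)),
    T = Finset.univ.image (fun i : Fin (d + 1) => EuclideanSpace.single i (1 : ℝ)) ∧
    ∃ G : SimpleGraph T, G.Connected ∧
      L = (∑ x : T, ∑ y : T, if G.Adj x y then dist (x : En (d + 1)) (y : En (d + 1)) else 0) / 2}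
    (Real.sqrt 2 * d) := by
  have low : ∀ L ∈ {L : ℝ | ∃ T : Finset (En (d + 1)),
      T = Finset.univ.image (fun i : Fin (d + 1) => EuclideanSpace.single i (1 : ℝ)) ∧
      ∃ G : SimpleGraph T, G.Connected ∧ L = (∑ x : T, ∑ y : T,
        if G.Adj x y then dist (x : En (d + 1)) (y : En (d + 1)) else 0) / 2},
      Real.sqrt 2 * d ≤ L := by
    rintro _ ⟨T, hT, G, hG, rfl⟩
    obtain ⟨r⟩ := hG.nonempty
    obtain ⟨par, dep, h1, h2⟩ := parent hG (fun x y => dist (x : En (d + 1)) (y : En (d + 1)))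
      (fun _ _ => dist_nonneg) (fun _ _ => dist_comm _ _) r
    refine le_trans (le_of_eq ?_) h2
    rw [Finset.sum_congr rfl (g := fun _ => Real.sqrt 2), Finset.sum_const,
      Finset.card_erase_of_mem (Finset.mem_univ _), Finset.card_univ, Fintype.card_coe, hT,
      Finset.card_image_of_injective _ sing_inj]
    · simp [mul_comm]
    · intro x hx
      have hne := (h1 x (Finset.mem_erase.1 hx).1).1.ne
      obtain ⟨i, -, hi⟩ := Finset.mem_image.1 (hT.subset x.2)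
      obtain ⟨j, -, hj⟩ := Finset.mem_image.1 (hT.subset (par x).2)
      rw [← hi, ← hj]
      exact sdist fun h => hne (Subtype.ext (by rw [← hi, ← hj, h]))
  obtain ⟨G, g1, g2⟩ := toGraph
    (Finset.univ.image fun i : Fin (d + 1) => (EuclideanSpace.single i (1 : ℝ) : En (d + 1)))
    (Finset.univ.image fun i : Fin d => (EuclideanSpace.single 0 (1 : ℝ),
      EuclideanSpace.single i.succ (1 : ℝ))) (x := EuclideanSpace.single 0 (1 : ℝ)) (by simp)
    (fun y hy => by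
      obtain ⟨i, -, rfl⟩ := Finset.mem_image.1 hy
      refine Fin.cases (Relation.EqvGen.refl _) (fun k => Relation.EqvGen.rel _ _ ?_) i
      exact Finset.mem_image_of_mem _ (Finset.mem_univ k))
    (fun e he => by
      obtain ⟨i, -, rfl⟩ := Finset.mem_image.1 he
      simp)
  refine ⟨⟨_, rfl, G, g1, le_antisymm (low _ ⟨_, rfl, G, g1, rfl⟩) (g2.trans ?_)⟩, low⟩
  refine (Finset.sum_image_le_of_nonneg fun _ _ => dist_nonneg).trans (le_of_eq ?_)
  simp [sdist (Fin.succ_ne_zero _).symm, mul_comm]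

end Pool.Agent.H81.Net
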