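import Mathlib
import Pool.Agent.H81.Plane

namespace Pool.Agent.H81.Slab

open Set MeasureTheory Pool.Agent.H81.Plane Filter Topology
open scoped RealInnerProductSpace Pointwise

theorem mp3 : MeasurePreserving (fun x : E3 => (x 2, (x 0, x 1))) volume volume := by
  have h1 := volume_preserving_piFinSuccAbove (fun _ : Fin 3 => ℝ) 2
  have h2 := (MeasurePreserving.id (volume : Measure ℝ)).prod (volume_preserving_finTwoArrow ℝ)
  exact (h2.comp h1).comp (PiLp.volume_preserving_ofLp (Fin 3))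

/-- cylinder over a planar set -/
def cyl (I : Set ℝ) (Q : Set (ℝ × ℝ)) : Set E3 := {x | x 2 ∈ I ∧ (x 0, x 1) ∈ Q}

theorem cyl_meas {I : Set ℝ} {Q : Set (ℝ × ℝ)} (hI : MeasurableSet I) (hQ : MeasurableSet Q) :
    MeasurableSet (cyl I Q) := mp3.measurable (hI.prod hQ)

theorem vol_cyl {I : Set ℝ} {Q : Set (ℝ × ℝ)} (hI : MeasurableSet I) (hQ : MeasurableSet Q) :
    volume (cyl I Q) = volume I * volume Q := by
  have := mp3.measure_preimage (s := I ×ˢ Q) (hI.prod hQ).nullMeasurableSet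
  rw [Measure.volume_eq_prod, Measure.prod_prod] at this
  exact this

def fat (t : ℝ) (Q : Set (ℝ × ℝ)) : Set (ℝ × ℝ) :=
  (fun z : (ℝ × ℝ) × ℝ => (z.1.1, z.1.2 + z.2)) '' (Q ×ˢ Icc (-t) t)

theorem fat_compact {Q : Set (ℝ × ℝ)} (hQ : IsCompact Q) (t : ℝ) : IsCompact (fat t Q) :=
  (hQ.prod isCompact_Icc).image (by fun_prop)

theorem fat_convex {Q : Set (ℝ × ℝ)} (hQ : Convex ℝ Q) (t : ℝ) : Convex ℝ (fat t Q) := by
  rintro _ ⟨⟨p, s⟩, ⟨hp, hs⟩, rfl⟩ _ ⟨⟨q, r⟩, ⟨hq, hr⟩, rfl⟩ a b ha hb hab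
  refine ⟨(a • p + b • q, a • s + b • r), ⟨hQ hp hq ha hb hab, convex_Icc _ _ hs hr ha hb hab⟩, ?_⟩
  ext <;> simp; ring

theorem vol_fat {Q : Set (ℝ × ℝ)} (hc : IsCompact Q) (hQ : Convex ℝ Q) {R t : ℝ} (ht : 0 ≤ t)
    (hR : ∀ p ∈ Q, |p.1| ≤ R) :
    volume (fat t Q) ≤ volume Q + ENNReal.ofReal (2 * t) * ENNReal.ofReal (2 * R) := by
  rw [Measure.volume_eq_prod, Measure.prod_apply (fat_compact hc t).measurableSet,
    Measure.prod_apply hc.measurableSet]
  have e : ENNReal.ofReal (2 * t) * ENNReal.ofReal (2 * R) =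
      ∫⁻ x, (Icc (-R) R).indicator (fun _ => ENNReal.ofReal (2 * t)) x := by
    rw [lintegral_indicator_const measurableSet_Icc, Real.volume_Icc]
    congr 2; ring
  rw [e, ← lintegral_add_right _ (measurable_const.indicator measurableSet_Icc)]
  apply lintegral_mono
  intro x
  simp only
  rcases (Prod.mk x ⁻¹' Q).eq_empty_or_nonempty with h | h
  · have : Prod.mk x ⁻¹' fat t Q = ∅ := by
      rw [eq_empty_iff_forall_notMem]
      rintro y ⟨⟨⟨p1, p2⟩, s⟩, ⟨hp, hs⟩, hh⟩
      have h1 : p1 = x := congrArg Prod.fst hh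
      have : p2 ∈ Prod.mk x ⁻¹' Q := by rw [← h1]; exact hp
      rw [h] at this; exact this
    simp [this]
  · have hcomp : IsCompact (Prod.mk x ⁻¹' Q) :=
      (Topology.IsClosedEmbedding.of_continuous_injective_isClosedMap (by fun_prop)
        (Prod.mk_right_injective x) (isClosedMap_prodMk_left x)).isCompact_preimage hc
    have hconv : Convex ℝ (Prod.mk x ⁻¹' Q) := by
      intro p hp q hq a b ha hb hab
      have := hQ hp hq ha hb hab
      have e : a • (x, p) + b • (x, q) = (x, a • p + b • q) := by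
        ext <;> simp
        rw [← add_mul, hab, one_mul]
      rw [e] at this; exact this
    have hI := eq_Icc_of_connected_compact (hconv.isConnected h) hcomp
    obtain ⟨y, hy⟩ := h
    have hx : x ∈ Icc (-R) R := abs_le.1 (hR _ hy)
    set l := sInf (Prod.mk x ⁻¹' Q)
    set m := sSup (Prod.mk x ⁻¹' Q)
    have hlm : l ≤ m := by rw [hI] at hy; exact hy.1.trans hy.2
    have hsub : Prod.mk x ⁻¹' fat t Q ⊆ Icc (l - t) (m + t) := by
      rintro y ⟨⟨⟨p1, p2⟩, s⟩, ⟨hp, hs⟩, hh⟩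
      have h1 : p1 = x := congrArg Prod.fst hh
      have h2 : p2 + s = y := congrArg Prod.snd hh
      have : p2 ∈ Prod.mk x ⁻¹' Q := by rw [← h1]; exact hp
      rw [hI] at this
      exact ⟨by linarith [this.1, hs.1], by linarith [this.2, hs.2]⟩
    refine (measure_mono hsub).trans ?_
    rw [indicator_of_mem hx, hI, Real.volume_Icc, Real.volume_Icc,
      ← ENNReal.ofReal_add (by linarith) (by linarith)]
    apply le_of_eq; congr 1; ring

theorem vol_swap (Q : Set (ℝ × ℝ)) (hQ : MeasurableSet Q) : volume (Prod.swap '' Q) = volume Q := by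
  rw [image_swap_eq_preimage_swap]
  exact (Measure.measurePreserving_swap (μ := (volume : Measure ℝ)) (ν := volume)).measure_preimage
    hQ.nullMeasurableSet

/-- the shadow of `K` on the first two coordinates -/
def sh (K : Set E3) : Set (ℝ × ℝ) := (fun x : E3 => (x 0, x 1)) '' K

theorem sh_compact {K : Set E3} (hK : IsCompact K) : IsCompact (sh K) := hK.image (by fun_prop)

theorem sh_convex {K : Set E3} (hK : Convex ℝ K) : Convex ℝ (sh K) := by
  rintro _ ⟨p, hp, rfl⟩ _ ⟨q, hq, rfl⟩ a b ha hb hab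
  exact ⟨a • p + b • q, hK hp hq ha hb hab, by ext <;> simp⟩

theorem abs_le_norm (x : E3) (i : Fin 3) : |x i| ≤ ‖x‖ := by
  simpa using PiLp.norm_apply_le x i

noncomputable def e2 : E3 := !₂[0, 0, 1]

theorem pr_e2 (x : E3) : x - ⟪e2, x⟫ • e2 = !₂[x 0, x 1, 0] := by
  rw [inner3]
  ext i; fin_cases i <;> simp [e2]

theorem W_upper {K : Set E3} (hc : IsCompact K) (hK : Convex ℝ K) {R t : ℝ} (ht : 0 ≤ t)
    (hR0 : 0 ≤ R) (hR : ∀ x ∈ K, ‖x‖ ≤ R) :
    volume ((fun x : E3 => x - ⟪e2, x⟫ • e2) '' K + Metric.closedBall (0 : E3) t) ≤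
      ENNReal.ofReal (2 * t * (volume (sh K)).toReal + 8 * t ^ 2 * (2 * R + t)) := by
  have c1 := sh_compact hc
  have v1 := sh_convex hK
  have c2 := fat_compact c1 t
  have v2 := fat_convex v1 t
  have c3 : IsCompact (Prod.swap '' fat t (sh K)) := c2.image continuous_swap
  have v3 : Convex ℝ (Prod.swap '' fat t (sh K)) := v2.linear_image (LinearEquiv.prodComm ℝ ℝ ℝ).toLinearMap
  have c4 := fat_compact c3 t
  have c5 : IsCompact (Prod.swap '' fat t (Prod.swap '' fat t (sh K))) := c4.image continuous_swap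
  have hsub : (fun x : E3 => x - ⟪e2, x⟫ • e2) '' K + Metric.closedBall (0 : E3) t ⊆
      cyl (Icc (-t) t) (Prod.swap '' fat t (Prod.swap '' fat t (sh K))) := by
    rintro _ ⟨_, ⟨x, hx, rfl⟩, y, hy, rfl⟩
    rw [mem_closedBall_zero_iff] at hy
    have h0 := abs_le.1 ((abs_le_norm y 0).trans hy)
    have h1 := abs_le.1 ((abs_le_norm y 1).trans hy)
    have h2 := abs_le.1 ((abs_le_norm y 2).trans hy)
    simp only [pr_e2]
    refine ⟨by simpa using h2, (x 1 + y 1, x 0 + y 0), ⟨((x 1 + y 1, x 0), y 0),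
      ⟨⟨(x 0, x 1 + y 1), ⟨((x 0, x 1), y 1), ⟨⟨x, hx, rfl⟩, h1⟩, rfl⟩, rfl⟩, h0⟩, rfl⟩, by simp⟩
  refine (measure_mono hsub).trans ?_
  rw [vol_cyl measurableSet_Icc c5.measurableSet, vol_swap _ c4.measurableSet, Real.volume_Icc]
  have b1 := vol_fat c1 v1 ht (R := R) (by
    rintro _ ⟨x, hx, rfl⟩; exact (abs_le_norm x 0).trans (hR x hx))
  have b2 := vol_fat c3 v3 ht (R := R + t) (by
    rintro _ ⟨_, ⟨⟨_, s⟩, ⟨⟨x, hx, rfl⟩, hs⟩, rfl⟩, rfl⟩
    have := (abs_le_norm x 1).trans (hR x hx)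
    have h2 : |s| ≤ t := abs_le.2 hs
    exact (abs_add_le _ _).trans (add_le_add this h2))
  rw [vol_swap _ c2.measurableSet] at b2
  have b3 := b2.trans (add_le_add_left b1 _)
  have hfin : volume (sh K) ≠ ⊤ := c1.measure_lt_top.ne
  rw [← ENNReal.ofReal_toReal hfin, ← ENNReal.ofReal_mul (by positivity),
    ← ENNReal.ofReal_mul (by positivity), ← ENNReal.ofReal_add (by positivity) (by positivity),
    ← ENNReal.ofReal_add (by positivity) (by positivity)] at b3
  refine (mul_le_mul_right b3 _).trans ?_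
  rw [← ENNReal.ofReal_mul (by linarith)]
  apply le_of_eq; congr 1; ring

theorem W_lower {K : Set E3} (hc : IsCompact K) (hK : Convex ℝ K) {R t : ℝ} (ht : 0 ≤ t)
    (hR0 : 0 < R) (hR : ∀ x ∈ K, ‖x‖ ≤ R) :
    ENNReal.ofReal (2 * t * (volume (sh K)).toReal + t ^ 2 * (volume (sh K)).toReal / R) ≤
    volume ((fun x : E3 => x - ⟪e2, x⟫ • e2) '' K + Metric.closedBall (0 : E3) t) := by
  have c1 := sh_compact hc
  set ε := t / (2 * R) with hε
  have hε0 : 0 ≤ ε := by positivity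
  have c2 : IsCompact ((1 + ε) • sh K) := c1.smul _
  have hI : MeasurableSet (Icc (-t) t \ Icc (-(t / 2)) (t / 2)) :=
    measurableSet_Icc.diff measurableSet_Icc
  have hsub : cyl (Icc (-t) t \ Icc (-(t / 2)) (t / 2)) (sh K) ∪
      cyl (Icc (-(t / 2)) (t / 2)) ((1 + ε) • sh K) ⊆
      (fun x : E3 => x - ⟪e2, x⟫ • e2) '' K + Metric.closedBall (0 : E3) t := by
    rintro z (⟨h1, x, hx, h2⟩ | ⟨h1, _, ⟨x, hx, rfl⟩, h2⟩)
    · have a0 : x 0 = z 0 := congrArg Prod.fst h2
      have a1 : x 1 = z 1 := congrArg Prod.snd h2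
      refine ⟨_, ⟨x, hx, rfl⟩, !₂[0, 0, z 2], ?_, ?_⟩
      · rw [mem_closedBall_zero_iff]
        apply (abs_le_of_sq_le_sq' _ ht).2
        rw [nsq3]; simp
        exact sq_le_sq' h1.1.1 h1.1.2
      · simp only [pr_e2]
        ext i; fin_cases i <;> simp [a0, a1]
    · have a0 : (1 + ε) * x 0 = z 0 := congrArg Prod.fst h2
      have a1 : (1 + ε) * x 1 = z 1 := congrArg Prod.snd h2
      refine ⟨_, ⟨x, hx, rfl⟩, !₂[ε * x 0, ε * x 1, z 2], ?_, ?_⟩
      · rw [mem_closedBall_zero_iff]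
        apply (abs_le_of_sq_le_sq' _ ht).2
        rw [nsq3]
        simp only [PiLp.toLp_apply, Matrix.cons_val_zero, Matrix.cons_val_one, Matrix.cons_val]
        have b1 : z 2 ^ 2 ≤ (t / 2) ^ 2 := sq_le_sq' h1.1 h1.2
        have b2 : x 0 ^ 2 + x 1 ^ 2 ≤ R ^ 2 := by
          have := nsq3 x
          have := pow_le_pow_left₀ (norm_nonneg x) (hR x hx) 2
          nlinarith [sq_nonneg (x 2)]
        have b3 : ε ^ 2 * R ^ 2 = (t / 2) ^ 2 := by rw [hε]; field_simp
        have b4 := mul_le_mul_of_nonneg_left b2 (sq_nonneg ε)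
        nlinarith [sq_nonneg t]
      · simp only [pr_e2]
        ext i; fin_cases i <;> simp [← a0, ← a1] <;> ring
  refine le_trans ?_ (measure_mono hsub)
  rw [measure_union _ (cyl_meas measurableSet_Icc c2.measurableSet), vol_cyl hI c1.measurableSet,
    vol_cyl measurableSet_Icc c2.measurableSet, Measure.addHaar_smul,
    measure_diff (Icc_subset_Icc (by linarith) (by linarith)) measurableSet_Icc.nullMeasurableSet
      (by simp), Real.volume_Icc, Real.volume_Icc, ← ENNReal.ofReal_sub _ (by linarith)]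
  · have hfin : volume (sh K) ≠ ⊤ := c1.measure_lt_top.ne
    rw [← ENNReal.ofReal_toReal hfin, ENNReal.toReal_ofReal ENNReal.toReal_nonneg]
    set a := (volume (sh K)).toReal
    have ha : 0 ≤ a := ENNReal.toReal_nonneg
    rw [← ENNReal.ofReal_mul (by linarith), ← ENNReal.ofReal_mul (by positivity),
      ← ENNReal.ofReal_mul (by linarith), ← ENNReal.ofReal_add (mul_nonneg (by linarith) ha)
        (mul_nonneg (by linarith) (by positivity))]
    apply ENNReal.ofReal_le_ofReal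
    rw [abs_of_nonneg (by positivity)]
    simp only [Module.finrank_prod, Module.finrank_self]
    have e : t ^ 2 * a / R = 2 * t * ε * a := by rw [hε]; field_simp
    rw [e]
    have : 0 ≤ t * ε ^ 2 * a := by positivity
    nlinarith
  · rw [Set.disjoint_left]
    rintro z ⟨h1, -⟩ ⟨h2, -⟩
    exact h1.2 h2

theorem vol_le_sh {K : Set E3} (hc : IsCompact K) {R : ℝ} (hR0 : 0 ≤ R) (hR : ∀ x ∈ K, ‖x‖ ≤ R) :
    (volume K).toReal ≤ 2 * R * (volume (sh K)).toReal := by
  have c1 := sh_compact hc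
  have hsub : K ⊆ cyl (Icc (-R) R) (sh K) := fun x hx =>
    ⟨abs_le.1 ((abs_le_norm x 2).trans (hR x hx)), x, hx, rfl⟩
  have h := measure_mono (μ := volume) hsub
  rw [vol_cyl measurableSet_Icc c1.measurableSet, Real.volume_Icc] at h
  have h2 := ENNReal.toReal_mono (ENNReal.mul_ne_top (by simp) c1.measure_lt_top.ne) h
  rw [ENNReal.toReal_mul, ENNReal.toReal_ofReal (by linarith)] at h2
  linarith

theorem limit_bounds {W : ℝ → ℝ} {a A L R : ℝ}
    (h1 : ∀ t, 0 < t → 2 * t * a + t ^ 2 * a / R ≤ W t)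
    (h2 : ∀ t, 0 < t → W t ≤ 2 * t * a + 8 * t ^ 2 * (2 * R + t))
    (hL : Tendsto (fun t => (W t - 2 * t * A) / (Real.pi * t ^ 2)) (𝓝[>] 0) (𝓝 L)) :
    A = a ∧ a / R ≤ Real.pi * L ∧ Real.pi * L ≤ 16 * R := by
  have hpi := Real.pi_pos
  have hid : Tendsto (fun t : ℝ => t) (𝓝[>] 0) (𝓝 0) := tendsto_nhdsWithin_of_tendsto_nhds tendsto_id
  have hF := (tendsto_const_nhds (x := Real.pi)).mul hL
  have hG := hid.mul hF
  have e : ∀ t : ℝ, 0 < t → Real.pi * ((W t - 2 * t * A) / (Real.pi * t ^ 2)) =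
      (W t - 2 * t * A) / t ^ 2 := fun t ht => by field_simp
  have k1 : 2 * (a - A) + 0 * (a / R) ≤ 0 * (Real.pi * L) := by
    refine le_of_tendsto_of_tendsto (tendsto_const_nhds.add (hid.mul tendsto_const_nhds)) hG ?_
    filter_upwards [self_mem_nhdsWithin] with t ht
    have ht : 0 < t := ht
    rw [e t ht, ← mul_div_assoc t (W t - 2 * t * A), le_div_iff₀ (by positivity)]
    have := mul_le_mul_of_nonneg_left (h1 t ht) ht.le
    have e2 : t * (2 * t * a + t ^ 2 * a / R) = 2 * a * t ^ 2 + t * (a / R) * t ^ 2 := by ring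
    nlinarith
  have k2 : 0 * (Real.pi * L) ≤ 2 * (a - A) + 8 * 0 * (2 * R + 0) := by
    refine le_of_tendsto_of_tendsto hG (tendsto_const_nhds.add
      ((tendsto_const_nhds.mul hid).mul (tendsto_const_nhds.add hid))) ?_
    filter_upwards [self_mem_nhdsWithin] with t ht
    have ht : 0 < t := ht
    rw [e t ht, ← mul_div_assoc, div_le_iff₀ (by positivity)]
    have := mul_le_mul_of_nonneg_left (h2 t ht) ht.le
    nlinarith
  have hA : A = a := by linarith
  subst hA
  refine ⟨rfl, ?_, ?_⟩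
  · refine ge_of_tendsto hF ?_
    filter_upwards [self_mem_nhdsWithin] with t ht
    have ht : 0 < t := ht
    rw [e t ht, le_div_iff₀ (by positivity)]
    have := h1 t ht
    have e2 : A / R * t ^ 2 = t ^ 2 * A / R := by ring
    linarith
  · have : Real.pi * L ≤ 8 * (2 * R + 0) := by
      refine le_of_tendsto_of_tendsto hF (tendsto_const_nhds.mul (tendsto_const_nhds.add hid)) ?_
      filter_upwards [self_mem_nhdsWithin] with t ht
      have ht : 0 < t := ht
      rw [e t ht, div_le_iff₀ (by positivity)]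
      have := h2 t ht
      nlinarith
    linarith

theorem exists_rot {u : E3} (hu : ‖u‖ = 1) : ∃ φ : E3 ≃ₗᵢ[ℝ] E3, φ u = e2 := by
  have he : ‖e2‖ = 1 := by
    apply (pow_left_inj₀ (norm_nonneg _) zero_le_one two_ne_zero).1
    rw [nsq3]; simp [e2]
  exact ⟨_, Submodule.reflection_sub (hu.trans he.symm)⟩

theorem W_rot (K : Set E3) {u : E3} (φ : E3 ≃ₗᵢ[ℝ] E3) (hφ : φ u = e2) (t : ℝ) :
    volume ((fun x : E3 => x - ⟪u, x⟫ • u) '' K + Metric.closedBall (0 : E3) t) =
    volume ((fun x : E3 => x - ⟪e2, x⟫ • e2) '' (φ '' K) + Metric.closedBall (0 : E3) t) := by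
  have h : (fun x : E3 => x - ⟪u, x⟫ • u) '' K + Metric.closedBall (0 : E3) t =
      φ ⁻¹' ((fun x : E3 => x - ⟪e2, x⟫ • e2) '' (φ '' K) + Metric.closedBall (0 : E3) t) := by
    ext z
    constructor
    · rintro ⟨_, ⟨x, hx, rfl⟩, y, hy, rfl⟩
      refine ⟨_, ⟨_, ⟨x, hx, rfl⟩, rfl⟩, φ y, by simpa using hy, ?_⟩
      simp [← hφ]
    · rintro ⟨_, ⟨_, ⟨x, hx, rfl⟩, rfl⟩, y, hy, h⟩
      refine ⟨_, ⟨x, hx, rfl⟩, φ.symm y, by simpa using hy, ?_⟩
      apply φ.injective
      rw [← h]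
      simp [← hφ]
  rw [h]
  exact MeasurePreserving.measure_preimage_equiv (f := φ.toHomeomorph.toMeasurableEquiv)
    φ.measurePreserving _

theorem shadow_ratio {K : Set E3} (hc : IsCompact K) (hK : Convex ℝ K) {R : ℝ} (hR0 : 0 < R)
    (hR : ∀ x ∈ K, ‖x‖ ≤ R) {u : E3} (hu : ‖u‖ = 1) {A L : ℝ}
    (hL : Tendsto (fun t => ((volume ((fun x : E3 => x - ⟪u, x⟫ • u) '' K +
      Metric.closedBall (0 : E3) t)).toReal - 2 * t * A) / (Real.pi * t ^ 2)) (𝓝[>] 0) (𝓝 L)) :
    (volume K).toReal ≤ 2 * R * A ∧ A / R ≤ Real.pi * L ∧ Real.pi * L ≤ 16 * R := by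
  obtain ⟨φ, hφ⟩ := exists_rot hu
  simp_rw [W_rot K φ hφ] at hL
  have hc' : IsCompact (φ '' K) := hc.image φ.continuous
  have hK' : Convex ℝ (φ '' K) := hK.linear_image φ.toLinearEquiv.toLinearMap
  have hR' : ∀ x ∈ φ '' K, ‖x‖ ≤ R := by
    rintro _ ⟨x, hx, rfl⟩; simpa using hR x hx
  obtain ⟨h1, h2, h3⟩ := limit_bounds (a := (volume (sh (φ '' K))).toReal) (R := R)
    (fun t ht => by
      have := W_lower hc' hK' ht.le hR0 hR'
      exact (ENNReal.ofReal_le_iff_le_toReal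
        ((W_upper hc' hK' ht.le hR0.le hR').trans_lt ENNReal.ofReal_lt_top).ne).1 this)
    (fun t ht => ENNReal.toReal_le_of_le_ofReal (by positivity) (W_upper hc' hK' ht.le hR0.le hR')) hL
  refine ⟨?_, h1 ▸ h2, h3⟩
  have h4 := vol_le_sh hc' hR0.le hR'
  have h5 : volume (φ '' K) = volume K := by
    have := MeasurePreserving.measure_preimage_equiv (f := φ.toHomeomorph.toMeasurableEquiv)
      φ.measurePreserving (φ '' K)
    rw [← this]
    congr 1
    exact preimage_image_eq _ φ.injective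
  rw [h5, ← h1] at h4
  exact h4

/-- box with half-sides `a, b, c` -/
def box (a b c : ℝ) : Set E3 := cyl (Icc (-c) c) (Icc (-a) a ×ˢ Icc (-b) b)

theorem mem_box {a b c : ℝ} {x : E3} : x ∈ box a b c ↔ |x 0| ≤ a ∧ |x 1| ≤ b ∧ |x 2| ≤ c := by
  simp [box, cyl, abs_le]; tauto

theorem box_meas (a b c : ℝ) : MeasurableSet (box a b c) :=
  cyl_meas measurableSet_Icc (measurableSet_Icc.prod measurableSet_Icc)

theorem vol_box {a b c : ℝ} (ha : 0 ≤ a) (hb : 0 ≤ b) (hc : 0 ≤ c) :
    volume (box a b c) = ENNReal.ofReal (8 * a * b * c) := by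
  rw [box, vol_cyl measurableSet_Icc (measurableSet_Icc.prod measurableSet_Icc),
    Measure.volume_eq_prod, Measure.prod_prod, Real.volume_Icc, Real.volume_Icc, Real.volume_Icc,
    ← ENNReal.ofReal_mul (by linarith), ← ENNReal.ofReal_mul (by linarith)]
  congr 1; ring

theorem box_norm {a b c : ℝ} {x : E3} (hx : x ∈ box a b c) : ‖x‖ ^ 2 ≤ a ^ 2 + b ^ 2 + c ^ 2 := by
  obtain ⟨h0, h1, h2⟩ := mem_box.1 hx
  rw [nsq3, ← sq_abs (x 0), ← sq_abs (x 1), ← sq_abs (x 2)]
  gcongr

theorem box_compact (a b c : ℝ) : IsCompact (box a b c) := by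
  have e : box a b c = {x : E3 | |x 0| ≤ a} ∩ ({x : E3 | |x 1| ≤ b} ∩ {x : E3 | |x 2| ≤ c}) := by
    ext x; exact mem_box
  refine (isCompact_closedBall (0 : E3) (√(a ^ 2 + b ^ 2 + c ^ 2))).of_isClosed_subset ?_ ?_
  · rw [e]
    exact (isClosed_le (by fun_prop) (by fun_prop)).inter
      ((isClosed_le (by fun_prop) (by fun_prop)).inter (isClosed_le (by fun_prop) (by fun_prop)))
  · intro x hx
    rw [mem_closedBall_zero_iff]
    exact Real.le_sqrt_of_sq_le (box_norm hx)

theorem abs_comb {x y a b r : ℝ} (ha : 0 ≤ a) (hb : 0 ≤ b) (hab : a + b = 1) (hx : |x| ≤ r)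
    (hy : |y| ≤ r) : |a * x + b * y| ≤ r := by
  refine (abs_add_le _ _).trans ?_
  rw [abs_mul, abs_mul, abs_of_nonneg ha, abs_of_nonneg hb]
  have h1 := mul_le_mul_of_nonneg_left hx ha
  have h2 := mul_le_mul_of_nonneg_left hy hb
  have h3 : a * r + b * r = r := by rw [← add_mul, hab, one_mul]
  linarith

theorem box_convex (a b c : ℝ) : Convex ℝ (box a b c) := by
  intro x hx y hy s t hs ht hst
  rw [mem_box] at hx hy ⊢
  exact ⟨abs_comb hs ht hst hx.1 hy.1, abs_comb hs ht hst hx.2.1 hy.2.1,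
    abs_comb hs ht hst hx.2.2 hy.2.2⟩

theorem box_int {a b c : ℝ} (ha : 0 < a) (hb : 0 < b) (hc : 0 < c) :
    (0 : E3) ∈ interior (box a b c) := by
  refine mem_interior_iff_mem_nhds.2 (Filter.mem_of_superset
    (Metric.closedBall_mem_nhds 0 (lt_min ha (lt_min hb hc))) ?_)
  intro x hx
  rw [mem_closedBall_zero_iff, le_min_iff, le_min_iff] at hx
  exact mem_box.2 ⟨(abs_le_norm x 0).trans hx.1, (abs_le_norm x 1).trans hx.2.1,
    (abs_le_norm x 2).trans hx.2.2⟩

theorem split_abs {x a t : ℝ} (ha : 0 ≤ a) (ht : 0 ≤ t) (h : |x| ≤ a + t) :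
    ∃ y, |y| ≤ t ∧ |x - y| ≤ a := by
  obtain ⟨h1, h2⟩ := abs_le.1 h
  rcases le_total x (-a) with h3 | h3
  · exact ⟨x + a, abs_le.2 ⟨by linarith, by linarith⟩, abs_le.2 ⟨by linarith, by linarith⟩⟩
  rcases le_total x a with h4 | h4
  · exact ⟨0, by simpa, abs_le.2 ⟨by linarith, by linarith⟩⟩
  · exact ⟨x - a, abs_le.2 ⟨by linarith, by linarith⟩, abs_le.2 ⟨by linarith, by linarith⟩⟩

theorem box_upper {a b c t : ℝ} : box a b c + Metric.closedBall (0 : E3) t ⊆
    box (a + t) (b + t) (c + t) := by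
  rintro _ ⟨x, hx, y, hy, rfl⟩
  rw [mem_closedBall_zero_iff] at hy
  rw [mem_box] at hx ⊢
  exact ⟨(abs_add_le _ _).trans (add_le_add hx.1 ((abs_le_norm y 0).trans hy)),
    (abs_add_le _ _).trans (add_le_add hx.2.1 ((abs_le_norm y 1).trans hy)),
    (abs_add_le _ _).trans (add_le_add hx.2.2 ((abs_le_norm y 2).trans hy))⟩

theorem box_lower {a b c t : ℝ} (ha : 0 ≤ a) (hb : 0 ≤ b) (hc : 0 ≤ c) (ht : 0 ≤ t) :
    ENNReal.ofReal (8 * a * b * c + 8 * t * (a * b + b * c + c * a)) ≤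
      volume (box a b c + Metric.closedBall (0 : E3) t) := by
  have hsub : (box (a + t) b c ∪ box a (b + t) c) ∪ box a b (c + t) ⊆
      box a b c + Metric.closedBall (0 : E3) t := by
    rintro z ((hz | hz) | hz) <;> rw [mem_box] at hz
    · obtain ⟨y, h1, h2⟩ := split_abs ha ht hz.1
      refine ⟨z - EuclideanSpace.single 0 y, mem_box.2 ⟨by simpa using h2, by simpa using hz.2.1,
        by simpa using hz.2.2⟩, EuclideanSpace.single 0 y, by simpa using h1, by simp⟩
    · obtain ⟨y, h1, h2⟩ := split_abs hb ht hz.2.1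
      refine ⟨z - EuclideanSpace.single 1 y, mem_box.2 ⟨by simpa using hz.1, by simpa using h2,
        by simpa using hz.2.2⟩, EuclideanSpace.single 1 y, by simpa using h1, by simp⟩
    · obtain ⟨y, h1, h2⟩ := split_abs hc ht hz.2.2
      refine ⟨z - EuclideanSpace.single 2 y, mem_box.2 ⟨by simpa using hz.1, by simpa using hz.2.1,
        by simpa using h2⟩, EuclideanSpace.single 2 y, by simpa using h1, by simp⟩
  refine le_trans ?_ (measure_mono hsub)
  have i1 : box (a + t) b c ∩ box a (b + t) c = box a b c := by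
    ext z; simp only [mem_inter_iff, mem_box]
    constructor
    · tauto
    · rintro ⟨h1, h2, h3⟩; exact ⟨⟨by linarith, h2, h3⟩, h1, by linarith, h3⟩
  have i2 : (box (a + t) b c ∪ box a (b + t) c) ∩ box a b (c + t) = box a b c := by
    ext z; simp only [mem_inter_iff, mem_union, mem_box]
    constructor
    · tauto
    · rintro ⟨h1, h2, h3⟩; exact ⟨Or.inl ⟨by linarith, h2, h3⟩, h1, h2, by linarith⟩
  have u1 := measure_union_add_inter (μ := volume) (box (a + t) b c) (box_meas a (b + t) c)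
  have u2 := measure_union_add_inter (μ := volume) (box (a + t) b c ∪ box a (b + t) c)
    (box_meas a b (c + t))
  rw [i1] at u1
  rw [i2] at u2
  have u3 : volume (box (a + t) b c ∪ box a (b + t) c ∪ box a b (c + t)) + volume (box a b c) +
      volume (box a b c) = volume (box (a + t) b c) + volume (box a (b + t) c) +
      volume (box a b (c + t)) := by
    rw [u2, add_right_comm, u1]
  rw [vol_box ha hb hc, vol_box (by positivity) hb hc, vol_box ha (by positivity) hc,
    vol_box ha hb (by positivity), add_assoc, ← ENNReal.ofReal_add (by positivity) (by positivity),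
    ← ENNReal.ofReal_add (by positivity) (by positivity),
    ← ENNReal.ofReal_add (by positivity) (by positivity)] at u3
  rw [← ENNReal.add_le_add_iff_right (ENNReal.ofReal_ne_top (r := 8 * a * b * c + 8 * a * b * c)), u3,
    ← ENNReal.ofReal_add (by positivity) (by positivity)]
  apply le_of_eq; congr 1; ring

theorem box_limit {a b c : ℝ} (ha : 0 ≤ a) (hb : 0 ≤ b) (hc : 0 ≤ c) :
    Tendsto (fun t : ℝ => ((volume (box a b c + Metric.closedBall (0 : E3) t)).toReal -
      (volume (box a b c)).toReal) / (2 * t)) (𝓝[>] 0) (𝓝 (4 * (a * b + b * c + c * a))) := by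
  have hid : Tendsto (fun t : ℝ => t) (𝓝[>] 0) (𝓝 0) := tendsto_nhdsWithin_of_tendsto_nhds tendsto_id
  have hup : Tendsto (fun t : ℝ => 4 * (a * b + b * c + c * a) + 4 * t * (a + b + c + t)) (𝓝[>] 0)
      (𝓝 (4 * (a * b + b * c + c * a) + 4 * 0 * (a + b + c + 0))) :=
    tendsto_const_nhds.add ((tendsto_const_nhds.mul hid).mul (tendsto_const_nhds.add hid))
  rw [mul_zero, zero_mul, add_zero] at hup
  have hU : ∀ t, 0 < t → volume (box a b c + Metric.closedBall (0 : E3) t) ≤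
      ENNReal.ofReal (8 * (a + t) * (b + t) * (c + t)) := fun t ht => by
    rw [← vol_box (by positivity) (by positivity) (by positivity)]
    exact measure_mono box_upper
  refine tendsto_of_tendsto_of_tendsto_of_le_of_le' tendsto_const_nhds hup ?_ ?_
  · filter_upwards [self_mem_nhdsWithin] with t ht
    have ht : 0 < t := ht
    have := (ENNReal.ofReal_le_iff_le_toReal ((hU t ht).trans_lt ENNReal.ofReal_lt_top).ne).1
      (box_lower ha hb hc ht.le)
    rw [vol_box ha hb hc, ENNReal.toReal_ofReal (by positivity), le_div_iff₀ (by positivity)]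
    linarith
  · filter_upwards [self_mem_nhdsWithin] with t ht
    have ht : 0 < t := ht
    have := ENNReal.toReal_le_of_le_ofReal (by positivity) (hU t ht)
    rw [vol_box ha hb hc, ENNReal.toReal_ofReal (by positivity), div_le_iff₀ (by positivity)]
    linarith

end Pool.Agent.H81.Slab
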