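import Mathlib

set_option autoImplicit false

open Set Filter Topology Real

namespace Pool.Agent.H81.Spiral

noncomputable def g (t : ℝ) : ℝ × ℂ := (arctan t, Complex.exp (t * Complex.I))

def XS : Set (ℝ × ℂ) := range g ∪ {(-(π / 2), 1), (π / 2, 1)}

lemma gc : Continuous g := by unfold g; fun_prop

lemma conn : IsConnected XS := by
  refine (isConnected_range gc).subset_closure subset_union_left ?_
  have e : ∀ n : ℤ, g (n * (2 * π)) = (arctan (n * (2 * π)), 1) := fun n => by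
    simp [g, mul_assoc, ← Complex.exp_int_mul_two_pi_mul_I n]
  have t : Tendsto (fun n : ℕ => (n : ℝ) * (2 * π)) atTop atTop :=
    tendsto_natCast_atTop_atTop.atTop_mul_const two_pi_pos
  rintro x (hx | rfl | rfl)
  · exact subset_closure hx
  · refine mem_closure_of_tendsto (b := atTop) (f := fun n : ℕ => (arctan (-((n : ℝ) * (2 * π))), (1 : ℂ)))
      (((tendsto_arctan_atBot.mono_right nhdsWithin_le_nhds).comp
        (tendsto_neg_atTop_atBot.comp t)).prodMk_nhds tendsto_const_nhds)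
      (Eventually.of_forall fun n => ⟨_, (e (-n)).trans (by simp)⟩)
  · refine mem_closure_of_tendsto (b := atTop) (f := fun n : ℕ => (arctan ((n : ℝ) * (2 * π)), (1 : ℂ)))
      (((tendsto_arctan_atTop.mono_right nhdsWithin_le_nhds).comp t).prodMk_nhds tendsto_const_nhds)
      (Eventually.of_forall fun n => ⟨_, (e n).trans (by simp)⟩)

instance : ConnectedSpace XS := isConnected_iff_connectedSpace.1 conn

lemma inj {x y : XS} (h : x.1.1 = y.1.1) : x = y := by
  obtain ⟨x, ⟨s, rfl⟩ | rfl | rfl⟩ := x <;> obtain ⟨y, ⟨t, rfl⟩ | rfl | rfl⟩ := y <;>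
    simp only [g] at h <;>
    first
    | rfl
    | (obtain rfl := arctan_injective h; rfl)
    | exact absurd h (neg_pi_div_two_lt_arctan _).ne'
    | exact absurd h (arctan_lt_pi_div_two _).ne
    | exact absurd h (neg_pi_div_two_lt_arctan _).ne
    | exact absurd h (arctan_lt_pi_div_two _).ne'
    | (exfalso; linarith [pi_pos])

lemma bd (x : XS) : -(π / 2) ≤ x.1.1 ∧ x.1.1 ≤ π / 2 := by
  obtain ⟨x, ⟨s, rfl⟩ | rfl | rfl⟩ := x
  · exact ⟨(neg_pi_div_two_lt_arctan _).le, (arctan_lt_pi_div_two _).le⟩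
  all_goals constructor <;> simp <;> linarith [pi_pos]

lemma diag (Z : Set (XS × XS)) (hZ : IsConnected Z) (h : Prod.fst '' Z = univ) :
    ⨅ p ∈ Z, edist p.1 p.2 = 0 := by
  obtain ⟨a, a1, a2⟩ := h.ge (mem_univ ⟨(-(π / 2), 1), by simp [XS]⟩)
  obtain ⟨b, b1, b2⟩ := h.ge (mem_univ ⟨(π / 2, 1), by simp [XS]⟩)
  obtain ⟨c, c1, c2⟩ := hZ.isPreconnected.intermediate_value₂ a1 b1 (f := fun p => p.1.1.1)
    (g := fun p => p.2.1.1) (by fun_prop) (by fun_prop) (by simp only [a2]; exact (bd _).1)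
    (by simp only [b2]; exact (bd _).2)
  exact le_antisymm (iInf₂_le_of_le c c1 (by rw [inj c2]; simp)) zero_le

lemma big : ∃ Z : Set (XS × XS), IsConnected Z ∧ Prod.fst '' Z = Prod.snd '' Z ∧
    (2 : ENNReal) ≤ ⨅ p ∈ Z, edist p.1 p.2 := by
  refine ⟨range fun t => (⟨g t, Or.inl ⟨t, rfl⟩⟩, ⟨g (t + π), Or.inl ⟨_, rfl⟩⟩),
    isConnected_range ((gc.subtype_mk _).prodMk ((gc.comp (by fun_prop)).subtype_mk _)), ?_, ?_⟩
  · ext x
    simp only [← range_comp, mem_range, Function.comp]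
    exact ⟨fun ⟨t, h⟩ => ⟨t - π, by simpa using h⟩, fun ⟨t, h⟩ => ⟨_, h⟩⟩
  · refine le_iInf₂ ?_
    rintro _ ⟨t, rfl⟩
    rw [edist_dist, ← ENNReal.ofReal_ofNat]
    refine ENNReal.ofReal_le_ofReal (le_trans ?_ (le_max_right _ _))
    simp [g, add_mul, Complex.exp_add, dist_eq_norm, ← two_mul]

end Pool.Agent.H81.Spiral
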