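import Mathlib

set_option autoImplicit false

open MeasureTheory Set
open scoped RealInnerProductSpace Classical ENNReal

namespace Pool.Agent.H81.Steiner

variable {E : Type} [NormedAddCommGroup E] [InnerProductSpace ℝ E] {ι : Type} [Fintype ι]

def Lam (F G : Finset ι) : Prop := F ⊆ G ∨ G ⊆ F ∨ Disjoint F G

def St (p x : ι → E) (c : ℝ) : Prop :=
  ∃ A : Set (Finset ι), (∀ F ∈ A, ∀ G ∈ A, Lam F G) ∧ (∀ F ∈ A, ∀ i ∈ F, ∀ j ∈ F, x i = x j) ∧
    ∀ u : ι → E, (∀ F ∈ A, ‖∑ i ∈ F, u i‖ ≤ 1) → ∑ i, ⟪u i, p i - x i⟫ ≤ c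

lemma St.move {p x : ι → E} {c : ℝ} (h : St p x c) (a y : E) :
    St p (fun i => if x i = a then y else x i) (c + dist a y) := by
  obtain ⟨A, h1, h2, h3⟩ := h
  set F0 := Finset.univ.filter fun i => x i = a with hF0
  have key : ∀ G ∈ A, G ⊆ F0 ∨ Disjoint G F0 := by
    intro G hG
    by_cases hx : ∃ i ∈ G, x i = a
    · obtain ⟨i, hi, e⟩ := hx
      exact Or.inl fun j hj => by simp [hF0, h2 G hG j hj i hi, e]
    · exact Or.inr (Finset.disjoint_left.2 fun i hi hi' => hx ⟨i, hi, by simpa [hF0] using hi'⟩)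
  refine ⟨insert F0 A, ?_, ?_, fun u hu => ?_⟩
  · rintro F (rfl | hF) G (rfl | hG)
    · exact Or.inl subset_rfl
    · exact (key G hG).elim (fun h => Or.inr (Or.inl h)) fun h => Or.inr (Or.inr h.symm)
    · exact (key F hF).elim Or.inl fun h => Or.inr (Or.inr h)
    · exact h1 F hF G hG
  · rintro F (rfl | hF) i hi j hj
    · simp only [hF0, Finset.mem_filter] at hi hj
      simp [hi.2, hj.2]
    · simp only [h2 F hF i hi j hj]
  · have e : ∑ i, ⟪u i, p i - if x i = a then y else x i⟫ =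
        ∑ i, ⟪u i, p i - x i⟫ + ⟪∑ i ∈ F0, u i, a - y⟫ := by
      rw [sum_inner, hF0, Finset.sum_filter, ← Finset.sum_add_distrib]
      refine Finset.sum_congr rfl fun i _ => ?_
      split_ifs with h
      · rw [← inner_add_right, h]; congr 1; abel
      · simp
    have b1 := h3 u fun F hF => hu F (Or.inr hF)
    have b2 := real_inner_le_norm (∑ i ∈ F0, u i) (a - y)
    have b3 := hu F0 (Or.inl rfl)
    rw [e, dist_eq_norm]
    nlinarith [norm_nonneg (a - y)]

lemma gather {p : ι → E} {U : Set E} {η : ℝ} (hη : 0 ≤ η) (hU : ∀ a ∈ U, ∀ b ∈ U, dist a b ≤ η)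
    {y : E} (hy : y ∈ U) (n : ℕ) : ∀ (x : ι → E) (c : ℝ), (Finset.univ.image x).card = n →
    (∃ i, x i = y) → St p x c → ∃ x' c', St p x' c' ∧
      c' + η * (Finset.univ.image x').card ≤ c + η * n ∧
      ∀ i, x' i = y ∨ (x' i = x i ∧ x i ∉ U) := by
  induction n using Nat.strong_induction_on with
  | _ n ih =>
    intro x c hn ⟨i0, hi0⟩ h
    by_cases hx : ∃ i, x i ∈ U ∧ x i ≠ y
    · obtain ⟨k, k1, k2⟩ := hx
      have hlt : (Finset.univ.image fun i => if x i = x k then y else x i).card < n := by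
        rw [← hn]
        refine lt_of_le_of_lt (Finset.card_le_card (t := (Finset.univ.image x).erase (x k)) ?_)
          (Finset.card_erase_lt_of_mem (Finset.mem_image_of_mem _ (Finset.mem_univ k)))
        intro z hz
        obtain ⟨i, -, rfl⟩ := Finset.mem_image.1 hz
        split_ifs with e
        · exact Finset.mem_erase.2 ⟨k2.symm, Finset.mem_image.2 ⟨i0, Finset.mem_univ _, hi0⟩⟩
        · exact Finset.mem_erase.2 ⟨e, Finset.mem_image_of_mem _ (Finset.mem_univ i)⟩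
      obtain ⟨x', c', a1, a2, a3⟩ := ih _ hlt _ _ rfl ⟨k, by simp⟩ (h.move (x k) y)
      refine ⟨x', c', a1, ?_, fun i => ?_⟩
      · have : (((Finset.univ.image fun i => if x i = x k then y else x i).card : ℕ) : ℝ) + 1 ≤ n := by
          exact_mod_cast hlt
        have := hU _ k1 _ hy
        nlinarith
      · rcases a3 i with e | ⟨e1, e2⟩
        · exact Or.inl e
        · by_cases e : x i = x k
          · simp [e, hy] at e2
          · simp only [e, if_false] at e1 e2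
            exact Or.inr ⟨e1, e2⟩
    · refine ⟨x, c, h, by rw [hn], fun i => ?_⟩
      by_cases e : x i = y
      · exact Or.inl e
      · exact Or.inr ⟨rfl, fun h => hx ⟨i, h, e⟩⟩

lemma gather2 {p : ι → E} {U : Set E} {η w : ℝ} (hη : 0 ≤ η) (hwη : w ≤ η)
    (hU : ∀ a ∈ U, ∀ b ∈ U, dist a b ≤ w) {y : E} (hy : y ∈ U) (x : ι → E) (c : ℝ)
    (h : St p x c) : ∃ x' c', St p x' c' ∧
      c' + η * (Finset.univ.image x').card ≤ c + w + η * (Finset.univ.image x).card ∧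
      ∀ i, x' i = y ∨ (x' i = x i ∧ x i ∉ U) := by
  by_cases hx : ∃ i, x i ∈ U
  · obtain ⟨k, hk⟩ := hx
    obtain ⟨x', c', a1, a2, a3⟩ := gather hη (fun a ha b hb => (hU a ha b hb).trans hwη) hy _ _ _ rfl
      ⟨k, by simp⟩ (h.move (x k) y)
    refine ⟨x', c', a1, ?_, fun i => ?_⟩
    · have : (Finset.univ.image fun i => if x i = x k then y else x i).card ≤
          (Finset.univ.image x).card := by
        have := Finset.card_image_le (s := Finset.univ.image x)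
          (f := fun z => if z = x k then y else z)
        rwa [Finset.image_image] at this
      have h2 : (((Finset.univ.image fun i => if x i = x k then y else x i).card : ℕ) : ℝ) ≤
          (Finset.univ.image x).card := by exact_mod_cast this
      have := hU _ hk _ hy
      nlinarith
    · rcases a3 i with e | ⟨e1, e2⟩
      · exact Or.inl e
      · by_cases e : x i = x k
        · simp [e, hy] at e2
        · simp only [e, if_false] at e1 e2
          exact Or.inr ⟨e1, e2⟩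
  · have := dist_nonneg.trans (hU y hy y hy)
    exact ⟨x, c, h, by linarith, fun i => Or.inr ⟨rfl, fun h => hx ⟨i, h⟩⟩⟩

inductive TC (U : ℕ → Set E) : Finset ℕ → Prop
  | one (i : ℕ) : (U i).Nonempty → TC U {i}
  | add (J : Finset ℕ) (i j : ℕ) : TC U J → j ∉ J → i ∈ J → (U i ∩ U j).Nonempty →
      TC U (insert j J)

lemma collapse {p : ι → E} {U : ℕ → Set E} {η : ℝ} {w : ℕ → ℝ} (hη : 0 ≤ η) (hw : ∀ j, w j ≤ η)
    (hU : ∀ j, ∀ a ∈ U j, ∀ b ∈ U j, dist a b ≤ w j) {J : Finset ℕ} (hJ : TC U J) :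
    ∀ (x : ι → E) (c : ℝ), (∀ i, ∃ j ∈ J, x i ∈ U j) → St p x c → ∃ y c', St p (fun _ => y) c' ∧
      c' ≤ c + η * (Finset.univ.image x).card + ∑ j ∈ J, w j := by
  induction hJ with
  | one j hj =>
    intro x c hx h
    obtain ⟨y, hy⟩ := hj
    obtain ⟨x', c', a1, a2, a3⟩ := gather2 hη (hw j) (hU j) hy x c h
    have : x' = fun _ => y := funext fun i => (a3 i).resolve_right fun h => h.2 (by simpa using hx i)
    refine ⟨y, c', this ▸ a1, ?_⟩
    have : 0 ≤ η * (Finset.univ.image x').card := by positivity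
    simp only [Finset.sum_singleton]; linarith
  | add J i j _ hj hi hij ih =>
    intro x c hx h
    obtain ⟨y, hy1, hy2⟩ := hij
    obtain ⟨x', c', a1, a2, a3⟩ := gather2 hη (hw j) (hU j) hy2 x c h
    obtain ⟨z, c'', b1, b2⟩ := ih x' c' (fun k => by
      rcases a3 k with e | ⟨e1, e2⟩
      · exact ⟨i, hi, e ▸ hy1⟩
      · obtain ⟨l, l1, l2⟩ := hx k
        rcases Finset.mem_insert.1 l1 with rfl | l1
        · exact absurd l2 e2
        · exact ⟨l, l1, e1 ▸ l2⟩) a1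
    refine ⟨z, c'', b1, ?_⟩
    rw [Finset.sum_insert hj]; linarith

lemma exTC {W : Set E} (hW : IsConnected W) {U : ℕ → Set E} (hU : ∀ j, IsOpen (U j))
    {I : Finset ℕ} (hI : W ⊆ ⋃ j ∈ I, U j) : ∃ J, TC U J ∧ W ⊆ ⋃ j ∈ J, U j := by
  obtain ⟨z, hz⟩ := hW.1
  obtain ⟨j0, a1, a2⟩ : ∃ j ∈ I, z ∈ U j := by simpa using hI hz
  obtain ⟨J, hJ, hmax⟩ := Finset.exists_max_image
    (I.powerset.filter fun J => TC U J ∧ ∃ j ∈ J, z ∈ U j) Finset.card
    ⟨{j0}, by simpa using ⟨a1, TC.one j0 ⟨z, a2⟩, a2⟩⟩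
  simp only [Finset.mem_filter, Finset.mem_powerset] at hJ hmax
  obtain ⟨b1, b2, j1, b3, b4⟩ := hJ
  refine ⟨J, b2, fun q hq => ?_⟩
  by_contra hn
  have hcov : W ⊆ (⋃ j ∈ J, U j) ∪ ⋃ j ∈ I \ J, U j := by
    intro s hs
    obtain ⟨j, c1, c2⟩ : ∃ j ∈ I, s ∈ U j := by simpa using hI hs
    by_cases c3 : j ∈ J
    · exact Or.inl (mem_biUnion c3 c2)
    · exact Or.inr (mem_biUnion (Finset.mem_sdiff.2 ⟨c1, c3⟩) c2)
  obtain ⟨s, -, s1, s2⟩ := hW.2 _ _ (isOpen_biUnion fun j _ => hU j) (isOpen_biUnion fun j _ => hU j)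
    hcov ⟨z, hz, mem_biUnion b3 b4⟩ ⟨q, hq, (hcov hq).resolve_left hn⟩
  obtain ⟨i, i1, i2⟩ : ∃ j ∈ J, s ∈ U j := by simpa using s1
  obtain ⟨j, ⟨j1', j2⟩, j3⟩ : ∃ j, (j ∈ I ∧ j ∉ J) ∧ s ∈ U j := by simpa using s2
  have := hmax (insert j J) ⟨Finset.insert_subset j1' b1, TC.add J i j b2 j2 i1 ⟨s, i2, j3⟩,
    j1, Finset.mem_insert_of_mem b3, b4⟩
  rw [Finset.card_insert_of_notMem j2] at this
  omega

theorem lower [MeasurableSpace E] [BorelSpace E] {W : Set E} (hc : IsCompact W)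
    (hW : IsConnected W) {p : ι → E} (hp : ∀ i, p i ∈ W) {L : ℝ}
    (hcert : ∀ A : Set (Finset ι), (∀ F ∈ A, ∀ G ∈ A, Lam F G) → ∃ u : ι → E,
      (∀ F ∈ A, ‖∑ i ∈ F, u i‖ ≤ 1) ∧ ∑ i, u i = 0 ∧ L ≤ ∑ i, ⟪u i, p i⟫) :
    ENNReal.ofReal L ≤ Measure.hausdorffMeasure 1 W := by
  by_contra hlt
  push Not at hlt
  obtain ⟨h, h0, h1, h2⟩ := ENNReal.lt_iff_exists_real_btwn.1 hlt
  have hL : h < L := (ENNReal.ofReal_lt_ofReal_iff_of_nonneg h0).1 h2
  set δ := (L - h) / (3 * Fintype.card ι + 5) with hδ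
  have δ0 : 0 < δ := div_pos (by linarith) (by positivity)
  rw [Measure.hausdorffMeasure_apply] at h1
  have h3 := lt_of_le_of_lt (le_iSup₂ (f := fun (r : ℝ≥0∞) (_ : 0 < r) =>
    ⨅ (t : ℕ → Set E) (_ : W ⊆ ⋃ n, t n) (_ : ∀ n, Metric.ediam (t n) ≤ r),
      ∑' n, ⨆ _ : (t n).Nonempty, Metric.ediam (t n) ^ (1 : ℝ)) (ENNReal.ofReal δ)
      (ENNReal.ofReal_pos.2 δ0)) h1
  simp only [iInf_lt_iff] at h3
  obtain ⟨t, t1, t2, t3⟩ := h3
  have t4 : ∑' n, Metric.ediam (t n) < ENNReal.ofReal h := by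
    refine lt_of_le_of_lt (le_of_eq (tsum_congr fun n => ?_)) t3
    rcases (t n).eq_empty_or_nonempty with e | e <;> simp [e]
  have tf : ∀ n, Metric.ediam (t n) ≠ ⊤ := fun n => ne_top_of_le_ne_top ENNReal.ofReal_ne_top (t2 n)
  set U : ℕ → Set E := fun n => Metric.thickening (δ / 2 ^ n) (t n) with hU
  have hUo : ∀ j, IsOpen (U j) := fun j => Metric.isOpen_thickening
  obtain ⟨I, hI⟩ := hc.elim_finite_subcover U hUo
    (t1.trans (iUnion_mono fun n => Metric.self_subset_thickening (by positivity) _))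
  obtain ⟨J, hJ, hJW⟩ := exTC hW hUo hI
  have hd : ∀ j, ∀ a ∈ U j, ∀ b ∈ U j, dist a b ≤ (Metric.ediam (t j)).toReal + 2 * (δ / 2 ^ j) := by
    intro j a ha b hb
    obtain ⟨a', a1, a2⟩ := Metric.mem_thickening_iff.1 ha
    obtain ⟨b', b1, b2⟩ := Metric.mem_thickening_iff.1 hb
    have := Metric.dist_le_diam_of_mem' (tf j) a1 b1
    have := dist_triangle4 a a' b' b
    rw [dist_comm b' b] at this
    unfold Metric.diam at *
    linarith
  have hw : ∀ j, (Metric.ediam (t j)).toReal + 2 * (δ / 2 ^ j) ≤ 3 * δ := by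
    intro j
    have := ENNReal.toReal_le_of_le_ofReal δ0.le (t2 j)
    have : δ / 2 ^ j ≤ δ := div_le_self δ0.le (one_le_pow₀ one_le_two)
    linarith
  obtain ⟨y, c, ⟨A, b1, -, b2⟩, b3⟩ := collapse (p := p) (by positivity) hw hd hJ p 0
    (fun i => by simpa using hJW (hp i)) ⟨∅, by simp, by simp, by simp⟩
  obtain ⟨u, u1, u2, u3⟩ := hcert A b1
  have b4 := b2 u u1
  simp only [inner_sub_right, Finset.sum_sub_distrib, ← sum_inner, u2, inner_zero_left] at b4
  have s1 : ∑ j ∈ J, (Metric.ediam (t j)).toReal ≤ h := by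
    rw [← ENNReal.toReal_sum fun j _ => tf j]
    exact ENNReal.toReal_le_of_le_ofReal h0 ((ENNReal.sum_le_tsum J).trans t4.le)
  have s2 : ∑ j ∈ J, 2 * (δ / 2 ^ j) ≤ 4 * δ := by
    have := (summable_geometric_two.sum_le_tsum J fun i _ => by positivity)
    rw [tsum_geometric_two] at this
    calc ∑ j ∈ J, 2 * (δ / 2 ^ j) = 2 * δ * ∑ j ∈ J, (1 / 2 : ℝ) ^ j := by
          rw [Finset.mul_sum]; exact Finset.sum_congr rfl fun j _ => by rw [one_div_pow]; ring
      _ ≤ 4 * δ := by nlinarith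
  have s3 : ((Finset.univ.image p).card : ℝ) ≤ Fintype.card ι := by
    exact_mod_cast Finset.card_image_le
  rw [Finset.sum_add_distrib] at b3
  have s4 : δ * (3 * Fintype.card ι + 5) = L - h := by rw [hδ]; field_simp
  nlinarith

end Pool.Agent.H81.Steiner
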