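import Pool.Agent.H81.Steiner1

set_option autoImplicit false

open MeasureTheory Set
open scoped RealInnerProductSpace ENNReal

namespace Pool.Agent.H81.Steiner

instance (F G : Finset (Fin 5)) : Decidable (Lam F G) := by unfold Lam; infer_instance

def tp : Fin 15 → Finset (Fin 5) × Finset (Fin 5) :=
  ![({1, 2}, {3, 4}), ({1, 3}, {2, 4}), ({1, 4}, {2, 3}), ({0, 2}, {3, 4}), ({0, 3}, {2, 4}),
    ({0, 4}, {2, 3}), ({0, 1}, {3, 4}), ({0, 3}, {1, 4}), ({0, 4}, {1, 3}), ({0, 1}, {2, 4}),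
    ({0, 2}, {1, 4}), ({0, 4}, {1, 2}), ({0, 1}, {2, 3}), ({0, 2}, {1, 3}), ({0, 3}, {1, 2})]

def big (H : Finset (Fin 5)) : Prop := H.card = 2 ∨ H.card = 3

instance (H : Finset (Fin 5)) : Decidable (big H) := by unfold big; infer_instance

def fit (τ : Fin 15) (H : Finset (Fin 5)) : Prop :=
  big H → H = (tp τ).1 ∨ H = (tp τ).2 ∨ H = (tp τ).1ᶜ ∨ H = (tp τ).2ᶜ

instance (τ : Fin 15) (H : Finset (Fin 5)) : Decidable (fit τ H) := by unfold fit; infer_instance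

lemma ca : ∀ F G : Finset (Fin 5), big F → big G → Lam F G → G ≠ F → G ≠ Fᶜ →
    ∃ τ, ∀ H, Lam F H → Lam G H → fit τ H := by decide +kernel

lemma cb : ∀ F : Finset (Fin 5), big F → ∃ τ, fit τ F ∧ fit τ Fᶜ := by decide +kernel

lemma comb (A : Set (Finset (Fin 5))) (h : ∀ F ∈ A, ∀ G ∈ A, Lam F G) : ∃ τ, ∀ H ∈ A, fit τ H := by
  by_cases h1 : ∃ F ∈ A, big F
  · obtain ⟨F, hF, bF⟩ := h1
    by_cases h2 : ∃ G ∈ A, big G ∧ G ≠ F ∧ G ≠ Fᶜ
    · obtain ⟨G, hG, bG, n1, n2⟩ := h2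
      obtain ⟨τ, hτ⟩ := ca F G bF bG (h F hF G hG) n1 n2
      exact ⟨τ, fun H hH => hτ H (h F hF H hH) (h G hG H hH)⟩
    · obtain ⟨τ, a1, a2⟩ := cb F bF
      refine ⟨τ, fun H hH bH => ?_⟩
      by_cases e1 : H = F
      · exact e1 ▸ a1 bF
      · by_cases e2 : H = Fᶜ
        · subst e2; exact a2 bH
        · exact absurd ⟨H, hH, bH, e1, e2⟩ h2
  · exact ⟨0, fun H hH bH => absurd ⟨H, hH, bH⟩ h1⟩

abbrev E2 := EuclideanSpace ℝ (Fin 2)

noncomputable def P (x y : ℝ) : E2 := !₂[x, Real.sqrt 3 * y]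

lemma s3 : Real.sqrt 3 * Real.sqrt 3 = 3 := Real.mul_self_sqrt (by norm_num)

lemma P_inner (a b c d : ℝ) : ⟪P a b, P c d⟫ = a * c + 3 * (b * d) := by
  simp [P, PiLp.inner_apply, Fin.sum_univ_two]
  linear_combination b * d * s3

lemma P_sum (H : Finset (Fin 5)) (a b : Fin 5 → ℝ) :
    ∑ i ∈ H, P (a i) (b i) = P (∑ i ∈ H, a i) (∑ i ∈ H, b i) := by
  ext k; fin_cases k <;> simp [P, Finset.mul_sum]

lemma P_norm {a b r : ℝ} (hr : 0 ≤ r) (h : a ^ 2 + 3 * b ^ 2 ≤ r ^ 2) : ‖P a b‖ ≤ r := by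
  refine abs_le_of_sq_le_sq' ?_ hr |>.2
  rw [← real_inner_self_eq_norm_sq, P_inner]; linarith

lemma P_dist {a b c d r : ℝ} (hr : 0 ≤ r) (h : (a - c) ^ 2 + 3 * (b - d) ^ 2 ≤ r ^ 2) :
    dist (P a b) (P c d) ≤ r := by
  have : P a b - P c d = P (a - c) (b - d) := by ext k; fin_cases k <;> simp [P, mul_sub]
  rw [dist_eq_norm, this]; exact P_norm hr h

lemma cert (c : Fin 15 → Fin 5 → ℤ × ℤ) (m : Fin 5 → ℤ × ℤ) (L r : ℕ)
    (h1 : ∀ τ H, fit τ H → (∑ i ∈ H, (c τ i).1) ^ 2 + 3 * (∑ i ∈ H, (c τ i).2) ^ 2 ≤ 3800 ^ 2)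
    (h2 : ∀ τ, ∑ i, (c τ i).1 = 0 ∧ ∑ i, (c τ i).2 = 0)
    (h3 : ∀ τ, 3800 * ((L : ℤ) + ∑ i, if c τ i = 0 then 0 else (r : ℤ)) ≤
      ∑ i, ((c τ i).1 * (m i).1 + 3 * ((c τ i).2 * (m i).2)))
    {W : Set E2} (hc : IsCompact W) (hW : IsConnected W)
    (hp : ∀ i, ∃ p ∈ W, dist (P (m i).1 (m i).2) p ≤ r) :
    (L : ℝ≥0∞) ≤ Measure.hausdorffMeasure 1 W := by
  choose p p1 p2 using hp
  rw [← ENNReal.ofReal_natCast]
  refine lower hc hW p1 fun A hA => ?_
  obtain ⟨τ, hτ⟩ := comb A hA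
  have hn : ∀ H, fit τ H → ‖∑ i ∈ H, P ((c τ i).1 / 3800) ((c τ i).2 / 3800)‖ ≤ 1 := by
    intro H hH
    rw [P_sum, ← Finset.sum_div, ← Finset.sum_div]
    refine P_norm zero_le_one ?_
    have : (∑ i ∈ H, ((c τ i).1 : ℝ)) ^ 2 + 3 * (∑ i ∈ H, ((c τ i).2 : ℝ)) ^ 2 ≤ 3800 ^ 2 := by
      exact_mod_cast h1 τ H hH
    nlinarith
  refine ⟨fun i => P ((c τ i).1 / 3800) ((c τ i).2 / 3800), fun F hF => hn F (hτ F hF), ?_, ?_⟩
  · rw [P_sum, ← Finset.sum_div, ← Finset.sum_div]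
    have a1 : ∑ i, ((c τ i).1 : ℝ) = 0 := by exact_mod_cast (h2 τ).1
    have a2 : ∑ i, ((c τ i).2 : ℝ) = 0 := by exact_mod_cast (h2 τ).2
    rw [a1, a2]; ext k; fin_cases k <;> simp [P]
  · have a3 : 3800 * ((L : ℝ) + ∑ i, if c τ i = 0 then 0 else (r : ℝ)) ≤
        ∑ i, (((c τ i).1 : ℝ) * (m i).1 + 3 * ((c τ i).2 * (m i).2)) := by exact_mod_cast h3 τ
    have a4 : ∀ i, (((c τ i).1 : ℝ) * (m i).1 + 3 * ((c τ i).2 * (m i).2)) / 3800 -
        (if c τ i = 0 then 0 else (r : ℝ)) ≤ ⟪P ((c τ i).1 / 3800) ((c τ i).2 / 3800), p i⟫ := by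
      intro i
      split_ifs with e
      · have : P 0 0 = 0 := by ext k; fin_cases k <;> simp [P]
        simp [e, this]
      · have b1 := hn {i} (by simp [fit, big])
        rw [Finset.sum_singleton] at b1
        have b2 := real_inner_le_norm (P ((c τ i).1 / 3800) ((c τ i).2 / 3800))
          (P (m i).1 (m i).2 - p i)
        have b3 := p2 i
        rw [dist_eq_norm] at b3
        rw [inner_sub_right, P_inner] at b2
        nlinarith [norm_nonneg (P (m i).1 (m i).2 - p i)]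
    have := Finset.sum_le_sum fun i (_ : i ∈ Finset.univ) => a4 i
    rw [Finset.sum_sub_distrib, ← Finset.sum_div] at this
    linarith

def cA : Fin 15 → Fin 5 → ℤ × ℤ :=
  ![![(2568, 743), (1, 2190), (-3285, -1094), (-2982, -1353), (3698, -486)],
    ![(3790, 87), (-1853, 1910), (-3792, 32), (-1929, -1885), (3784, -144)],
    ![(2572, 240), (-2979, 1355), (-3285, 1095), (0, -2190), (3692, -500)],
    ![(3792, 0), (-1800, 1927), (-3792, 0), (-1991, -1864), (3791, -63)],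
    ![(3789, 89), (-1850, 1911), (-3792, 30), (-1931, -1885), (3784, -145)],
    ![(0, 0), (-1100, 2100), (-3700, 500), (1100, -2100), (3700, -500)],
    ![(3792, -37), (-1841, 1914), (-3792, 37), (-1951, -1878), (3792, -36)],
    ![(3789, 92), (-1853, 1910), (-3792, 33), (-1928, -1886), (3784, -149)],
    ![(99, 497), (0, 2190), (-3792, 1), (0, -2190), (3693, -498)],
    ![(3792, 0), (-1896, 1896), (-3790, 74), (-1896, -1897), (3790, -73)],
    ![(3789, 88), (-1855, 1910), (-3792, 33), (-1926, -1886), (3784, -145)],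
    ![(0, 1000), (1100, 2100), (-3700, -500), (-1100, -2100), (3700, -500)],
    ![(2568, 230), (-2979, 1355), (-3284, 1095), (-1, -2190), (3696, -490)],
    ![(3789, 87), (-1853, 1910), (-3792, 32), (-1929, -1885), (3785, -144)],
    ![(2570, 756), (1, 2190), (-3285, -1094), (-2979, -1355), (3693, -497)]]

def cM : Fin 15 → Fin 5 → ℤ × ℤ :=
  ![![(1859, 867), (179, 2187), (-3370, -1004), (-2409, -1691), (3741, -359)],
    ![(3731, 394), (-1927, 1886), (-3791, -55), (-1772, -1936), (3759, -289)],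
    ![(1957, 184), (-2582, 1603), (-3465, 890), (398, -2177), (3692, -500)],
    ![(3788, 100), (-1804, 1926), (-3788, -100), (-1987, -1865), (3791, -61)],
    ![(3730, 394), (-1925, 1886), (-3791, -56), (-1773, -1935), (3759, -289)],
    ![(0, 0), (-1100, 2100), (-3700, 500), (1100, -2100), (3700, -500)],
    ![(3792, 0), (-1896, 1896), (-3792, 0), (-1896, -1896), (3792, 0)],
    ![(3729, 397), (-1926, 1886), (-3791, -56), (-1771, -1936), (3759, -291)],
    ![(96, 598), (-13, 2190), (-3789, -100), (13, -2190), (3693, -498)],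
    ![(3789, 89), (-2028, 1850), (-3790, 77), (-1761, -1939), (3790, -77)],
    ![(3731, 394), (-1928, 1886), (-3791, -54), (-1771, -1937), (3759, -289)],
    ![(-48, 1102), (915, 2125), (-3645, -605), (-915, -2125), (3693, -497)],
    ![(1954, 177), (-2581, 1604), (-3464, 891), (396, -2178), (3695, -494)],
    ![(3730, 394), (-1926, 1886), (-3791, -55), (-1772, -1936), (3759, -289)],
    ![(1786, 1061), (179, 2187), (-3370, -1004), (-2287, -1746), (3692, -498)]]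

def zA : Fin 5 → ℤ × ℤ := ![(3971, 0), (0, 1805), (-3971, 0), (0, -1805), (5303, -180)]

def zM : Fin 5 → ℤ × ℤ := ![(2639, 180), (-11, 1826), (-4008, 5), (11, -1826), (5340, -185)]

lemma lowA {W : Set E2} (hc : IsCompact W) (hW : IsConnected W)
    (hp : ∀ i, P (zA i).1 (zA i).2 ∈ W) : ((15086 : ℕ) : ℝ≥0∞) ≤ Measure.hausdorffMeasure 1 W :=
  cert cA zA 15086 0 (by decide +kernel) (by decide +kernel) (by decide +kernel) hc hW
    fun i => ⟨_, hp i, by simp⟩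

lemma lowM {W : Set E2} (hc : IsCompact W) (hW : IsConnected W)
    (hp : ∀ i, Metric.infDist (P (zM i).1 (zM i).2) W ≤ 38) :
    ((15086 : ℕ) : ℝ≥0∞) ≤ Measure.hausdorffMeasure 1 W :=
  cert cM zM 15086 38 (by decide +kernel) (by decide +kernel) (by decide +kernel) hc hW fun i => by
    obtain ⟨y, y1, y2⟩ := hc.exists_infDist_eq_dist hW.1 (P (zM i).1 (zM i).2)
    exact ⟨y, y1, by rw [← y2]; exact_mod_cast hp i⟩

lemma seg_le {a b c d : ℝ} (r : ℕ) (h : (a - c) ^ 2 + 3 * (b - d) ^ 2 ≤ (r : ℝ) ^ 2) :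
    Measure.hausdorffMeasure 1 (segment ℝ (P a b) (P c d)) ≤ (r : ℝ≥0∞) := by
  rw [hausdorffMeasure_segment, edist_dist, ← ENNReal.ofReal_natCast]
  exact ENNReal.ofReal_le_ofReal (P_dist (by positivity) h)

lemma mem_seg {a b c d : ℝ} {z : E2} (h : z ∈ segment ℝ (P a b) (P c d)) :
    ∃ t : ℝ, 0 ≤ t ∧ t ≤ 1 ∧ z = P (a + t * (c - a)) (b + t * (d - b)) := by
  obtain ⟨s, t, s0, t0, st, rfl⟩ := h
  obtain rfl : s = 1 - t := by linarith
  refine ⟨t, t0, by linarith, ?_⟩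
  ext k; fin_cases k <;> simp [P] <;> ring

lemma seg_compact (x y : E2) : IsCompact (segment ℝ x y) := by
  rw [segment_eq_image]; exact isCompact_Icc.image (by fun_prop)

lemma seg_conn (x y : E2) : IsConnected (segment ℝ x y) :=
  (convex_segment x y).isConnected ⟨x, left_mem_segment ℝ x y⟩

lemma noSeg {T : Set E2} (a b α β : ℝ) (h : ∀ z ∈ T, ∃ x y, z = P x y ∧
    (α * x + β * y < α * a + β * b ∨ (x = a ∧ y = b) ∨ x ≤ a - 1)) :
    ¬ ∃ x y : E2, x ≠ y ∧ segment ℝ x y ⊆ T ∧ P a b ∈ openSegment ℝ x y := by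
  rintro ⟨x, y, hxy, hT, s, t, s0, t0, st, e⟩
  set ε := min (min s t) (1 / (|y 0 - x 0| + 1)) with hε
  have ε0 : 0 < ε := by positivity
  have ε1 : ε ≤ s := (min_le_left _ _).trans (min_le_left _ _)
  have ε2 : ε ≤ t := (min_le_left _ _).trans (min_le_right _ _)
  have ε3 : ε * (|y 0 - x 0| + 1) ≤ 1 := (le_div_iff₀ (by positivity)).1 (min_le_right _ _)
  obtain ⟨x1, y1, e1, h1⟩ := h _ (hT ⟨s - ε, t + ε, by linarith, by linarith, by linarith, rfl⟩)
  obtain ⟨x2, y2, e2, h2⟩ := h _ (hT ⟨s + ε, t - ε, by linarith, by linarith, by linarith, rfl⟩)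
  have c0 := congrArg (· 0) e
  have c1 := congrArg (· 1) e
  have c2 := congrArg (· 0) e1
  have c3 := congrArg (· 1) e1
  have c4 := congrArg (· 0) e2
  have c5 := congrArg (· 1) e2
  simp [P] at c0 c1 c2 c3 c4 c5
  have q : 0 < Real.sqrt 3 := by positivity
  have d1 : x1 = a + ε * (y 0 - x 0) := by linarith
  have d2 : x2 = a - ε * (y 0 - x 0) := by linarith
  have d3 : y1 + y2 = 2 * b := mul_left_cancel₀ q.ne' (by linarith)
  have n : ¬ (x1 = a ∧ y1 = b) := by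
    rintro ⟨k1, k2⟩
    apply hxy
    rw [k2] at c3
    have z0 : y 0 - x 0 = 0 := (mul_eq_zero.1 (by linarith : ε * (y 0 - x 0) = 0)).resolve_left ε0.ne'
    have z1 : y 1 - x 1 = 0 := (mul_eq_zero.1 (by linarith : ε * (y 1 - x 1) = 0)).resolve_left ε0.ne'
    ext k; fin_cases k <;> simp <;> linarith
  have l1 := mul_le_mul_of_nonneg_left (le_abs_self (y 0 - x 0)) ε0.le
  have l2 := mul_le_mul_of_nonneg_left (neg_abs_le (y 0 - x 0)) ε0.le
  rcases h1 with h1 | h1 | h1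
  · rcases h2 with h2 | h2 | h2
    · have : α * x1 + α * x2 = 2 * (α * a) := by rw [d1, d2]; ring
      have : β * y1 + β * y2 = 2 * (β * b) := by rw [← mul_add, d3]; ring
      linarith
    · exact n ⟨by linarith [h2.1], by linarith [h2.2]⟩
    · linarith
  · exact n h1
  · linarith

end Pool.Agent.H81.Steiner
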