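import Pool.Agent.H81.Steiner2

set_option autoImplicit false

open MeasureTheory Set
open scoped RealInnerProductSpace ENNReal

namespace Pool.Agent.H81.Steiner

lemma P_sum' {ι : Type} (H : Finset ι) (a b : ι → ℝ) :
    ∑ i ∈ H, P (a i) (b i) = P (∑ i ∈ H, a i) (∑ i ∈ H, b i) := by
  ext k; fin_cases k <;> simp [P, Finset.mul_sum]

def ok {n : ℕ} (D : ℤ) (c : Fin n → ℤ × ℤ) (H : Finset (Fin n)) : Prop :=
  (∑ i ∈ H, (c i).1) ^ 2 + 3 * (∑ i ∈ H, (c i).2) ^ 2 ≤ D ^ 2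

instance {n : ℕ} (D : ℤ) (c : Fin n → ℤ × ℤ) (H : Finset (Fin n)) : Decidable (ok D c H) := by
  unfold ok; infer_instance

instance lamDec {n : ℕ} (F G : Finset (Fin n)) : Decidable (Lam F G) := by
  unfold Lam; infer_instance

lemma certN {n : ℕ} {κ : Type} (D : ℕ) (hD : 0 < D) (c : κ → Fin n → ℤ × ℤ) (m : Fin n → ℤ × ℤ)
    (L r : ℕ)
    (h0 : ∀ A : Set (Finset (Fin n)), (∀ F ∈ A, ∀ G ∈ A, Lam F G) → ∃ τ, ∀ H ∈ A, ok D (c τ) H)
    (h1 : ∀ τ i, ok D (c τ) {i})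
    (h2 : ∀ τ, ∑ i, (c τ i).1 = 0 ∧ ∑ i, (c τ i).2 = 0)
    (h3 : ∀ τ, D * ((L : ℤ) + ∑ i, if c τ i = 0 then 0 else (r : ℤ)) ≤
      ∑ i, ((c τ i).1 * (m i).1 + 3 * ((c τ i).2 * (m i).2)))
    {W : Set E2} (hc : IsCompact W) (hW : IsConnected W)
    (hp : ∀ i, ∃ p ∈ W, dist (P (m i).1 (m i).2) p ≤ r) :
    (L : ℝ≥0∞) ≤ Measure.hausdorffMeasure 1 W := by
  choose p p1 p2 using hp
  rw [← ENNReal.ofReal_natCast]
  refine lower hc hW p1 fun A hA => ?_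
  obtain ⟨τ, hτ⟩ := h0 A hA
  have D0 : (0 : ℝ) < D := by exact_mod_cast hD
  have hn : ∀ H, ok D (c τ) H → ‖∑ i ∈ H, P ((c τ i).1 / D) ((c τ i).2 / D)‖ ≤ 1 := by
    intro H hH
    rw [P_sum', ← Finset.sum_div, ← Finset.sum_div]
    refine P_norm zero_le_one ?_
    have : (∑ i ∈ H, ((c τ i).1 : ℝ)) ^ 2 + 3 * (∑ i ∈ H, ((c τ i).2 : ℝ)) ^ 2 ≤ (D : ℝ) ^ 2 := by
      unfold ok at hH; exact_mod_cast hH
    rw [div_pow, div_pow, ← mul_div_assoc, ← add_div, div_le_iff₀ (by positivity)]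
    linarith
  refine ⟨fun i => P ((c τ i).1 / D) ((c τ i).2 / D), fun F hF => hn F (hτ F hF), ?_, ?_⟩
  · rw [P_sum', ← Finset.sum_div, ← Finset.sum_div]
    have a1 : ∑ i, ((c τ i).1 : ℝ) = 0 := by exact_mod_cast (h2 τ).1
    have a2 : ∑ i, ((c τ i).2 : ℝ) = 0 := by exact_mod_cast (h2 τ).2
    rw [a1, a2]; ext k; fin_cases k <;> simp [P]
  · have a3 : D * ((L : ℝ) + ∑ i, if c τ i = 0 then 0 else (r : ℝ)) ≤
        ∑ i, (((c τ i).1 : ℝ) * (m i).1 + 3 * ((c τ i).2 * (m i).2)) := by exact_mod_cast h3 τ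
    have a4 : ∀ i, (((c τ i).1 : ℝ) * (m i).1 + 3 * ((c τ i).2 * (m i).2)) / D -
        (if c τ i = 0 then 0 else (r : ℝ)) ≤ ⟪P ((c τ i).1 / D) ((c τ i).2 / D), p i⟫ := by
      intro i
      split_ifs with e
      · have : P 0 0 = 0 := by ext k; fin_cases k <;> simp [P]
        simp [e, this]
      · have b1 := hn {i} (h1 τ i)
        rw [Finset.sum_singleton] at b1
        have b2 := real_inner_le_norm (P ((c τ i).1 / D) ((c τ i).2 / D))
          (P (m i).1 (m i).2 - p i)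
        have b3 := p2 i
        rw [dist_eq_norm] at b3
        rw [inner_sub_right, P_inner] at b2
        have b4 : (((c τ i).1 : ℝ) * (m i).1 + 3 * ((c τ i).2 * (m i).2)) / D =
          (c τ i).1 / D * (m i).1 + 3 * ((c τ i).2 / D * (m i).2) := by ring
        nlinarith [norm_nonneg (P (m i).1 (m i).2 - p i)]
    have := Finset.sum_le_sum fun i (_ : i ∈ Finset.univ) => a4 i
    rw [Finset.sum_sub_distrib, ← Finset.sum_div] at this
    rw [mul_comm, ← le_div_iff₀ D0] at a3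
    linarith

def c8 : Fin 14 → Fin 8 → ℤ × ℤ :=
  ![![(3700, -500), (-1100, 2100), (-3700, 500), (1100, -2100), (0, 0), (0, 0), (0, 0), (0, 0)],
    ![(0, 0), (0, 0), (0, 0), (0, 0), (3700, 500), (1100, 2100), (-3700, -500), (-1100, -2100)],
    ![(3792, 17), (0, 0), (-3792, 2), (-1896, -1896), (3792, -19), (-1896, 1896), (0, 0), (0, 0)],
    ![(3792, 19), (0, 0), (0, 0), (-1896, -1896), (3792, -17), (-1896, 1896), (-3792, -2), (0, 0)],
    ![(3282, 1097), (0, 0), (-3286, -1093), (4, -2190), (3282, -1097), (4, 2190), (-3286, 1093), (0, 0)],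
    ![(3284, 1095), (-5, 2188), (0, 0), (-43, -2189), (0, 0), (0, 0), (-3285, 1095), (49, -2189)],
    ![(3285, 1095), (0, 0), (0, 0), (-49, -2189), (0, 0), (5, 2188), (-3284, 1095), (43, -2189)],
    ![(3792, -2), (1893, 1897), (0, 0), (-1899, -1895), (0, 0), (-1893, 1897), (-3792, -2), (1899, -1895)],
    ![(0, 0), (43, 2189), (-3284, -1095), (5, -2188), (3285, -1095), (-49, 2189), (0, 0), (0, 0)],
    ![(0, 0), (49, 2189), (-3285, -1095), (0, 0), (3284, -1095), (-43, 2189), (0, 0), (-5, -2188)],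
    ![(0, 0), (1899, 1895), (-3792, 2), (-1893, -1897), (3792, 2), (-1899, 1895), (0, 0), (1893, -1897)],
    ![(3792, -2), (1896, 1896), (-3792, -17), (0, 0), (0, 0), (0, 0), (-3792, 19), (1896, -1896)],
    ![(0, 0), (1896, 1896), (-3792, -19), (0, 0), (3792, 2), (0, 0), (-3792, 17), (1896, -1896)],
    ![(3286, 1093), (-4, 2190), (-3282, -1097), (0, 0), (3286, -1093), (0, 0), (-3282, 1097), (-4, -2190)]]

def m8 : Fin 8 → ℤ × ℤ := ![(4008, -5), (-11, 1826), (-4008, 5), (11, -1826), (4008, 5), (11, 1826),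
  (-4008, -5), (-11, -1826)]

lemma c8a : ∀ F : Finset (Fin 8), ¬ ok 3800 (c8 0) F → ∀ G, ¬ ok 3800 (c8 1) G → Lam F G →
    ∃ τ, ∀ H, Lam F H → Lam G H → ok 3800 (c8 τ) H := by decide +kernel

lemma low8 {W : Set E2} (hc : IsCompact W) (hW : IsConnected W)
    (hp : ∀ i, ∃ p ∈ W, dist (P (m8 i).1 (m8 i).2) p ≤ 38) :
    ((13718 : ℕ) : ℝ≥0∞) ≤ Measure.hausdorffMeasure 1 W := by
  refine certN 3800 (by norm_num) c8 m8 13718 38 (fun A hA => ?_) (by decide +kernel)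
    (by decide +kernel) (by decide +kernel) hc hW (by exact_mod_cast hp)
  by_cases h1 : ∀ F ∈ A, ok 3800 (c8 0) F
  · exact ⟨0, h1⟩
  by_cases h2 : ∀ F ∈ A, ok 3800 (c8 1) F
  · exact ⟨1, h2⟩
  push Not at h1 h2
  obtain ⟨F, f1, f2⟩ := h1
  obtain ⟨G, g1, g2⟩ := h2
  obtain ⟨τ, hτ⟩ := c8a F f2 G g2 (hA F f1 G g1)
  exact ⟨τ, fun H hH => hτ H (hA F f1 H hH) (hA G g1 H hH)⟩

end Pool.Agent.H81.Steiner
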