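import Pool.Agent.H81.Steiner3

set_option autoImplicit false

open MeasureTheory Set
open scoped RealInnerProductSpace ENNReal

namespace Pool.Agent.H81.Steiner

lemma certR {n : ℕ} {κ : Type} (D : ℕ) (hD : 0 < D) (c : κ → Fin n → ℤ × ℤ) (ρ : κ → Fin n → ℕ)
    (m : Fin n → ℤ × ℤ) (L r : ℕ)
    (h0 : ∀ A : Set (Finset (Fin n)), (∀ F ∈ A, ∀ G ∈ A, Lam F G) → ∃ τ, ∀ H ∈ A, ok D (c τ) H)
    (h1 : ∀ τ i, (c τ i).1 ^ 2 + 3 * (c τ i).2 ^ 2 ≤ (ρ τ i : ℤ) ^ 2)
    (h2 : ∀ τ, ∑ i, (c τ i).1 = 0 ∧ ∑ i, (c τ i).2 = 0)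
    (h3 : ∀ τ, D * (L : ℤ) + ∑ i, (ρ τ i : ℤ) * r ≤
      ∑ i, ((c τ i).1 * (m i).1 + 3 * ((c τ i).2 * (m i).2)))
    {W : Set E2} (hc : IsCompact W) (hW : IsConnected W)
    (hp : ∀ i, ∃ p ∈ W, dist (P (m i).1 (m i).2) p ≤ r) :
    (L : ℝ≥0∞) ≤ Measure.hausdorffMeasure 1 W := by
  choose p p1 p2 using hp
  rw [← ENNReal.ofReal_natCast]
  refine lower hc hW p1 fun A hA => ?_
  obtain ⟨τ, hτ⟩ := h0 A hA
  have D0 : (0 : ℝ) < D := by exact_mod_cast hD
  have hn : ∀ H, ok D (c τ) H → ‖∑ i ∈ H, P ((c τ i).1 / D) ((c τ i).2 / D)‖ ≤ 1 := by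
    intro H hH
    rw [P_sum', ← Finset.sum_div, ← Finset.sum_div]
    refine P_norm zero_le_one ?_
    have : (∑ i ∈ H, ((c τ i).1 : ℝ)) ^ 2 + 3 * (∑ i ∈ H, ((c τ i).2 : ℝ)) ^ 2 ≤ (D : ℝ) ^ 2 := by
      unfold ok at hH; exact_mod_cast hH
    rw [div_pow, div_pow, ← mul_div_assoc, ← add_div, div_le_iff₀ (by positivity)]
    linarith
  refine ⟨fun i => P ((c τ i).1 / D) ((c τ i).2 / D), fun F hF => hn F (hτ F hF), ?_, ?_⟩
  · rw [P_sum', ← Finset.sum_div, ← Finset.sum_div]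
    have a1 : ∑ i, ((c τ i).1 : ℝ) = 0 := by exact_mod_cast (h2 τ).1
    have a2 : ∑ i, ((c τ i).2 : ℝ) = 0 := by exact_mod_cast (h2 τ).2
    rw [a1, a2]; ext k; fin_cases k <;> simp [P]
  · have a3 : D * (L : ℝ) + ∑ i, (ρ τ i : ℝ) * r ≤
        ∑ i, (((c τ i).1 : ℝ) * (m i).1 + 3 * ((c τ i).2 * (m i).2)) := by exact_mod_cast h3 τ
    have a4 : ∀ i, (((c τ i).1 : ℝ) * (m i).1 + 3 * ((c τ i).2 * (m i).2)) / D -
        (ρ τ i : ℝ) * r / D ≤ ⟪P ((c τ i).1 / D) ((c τ i).2 / D), p i⟫ := by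
      intro i
      have b1 : ‖P ((c τ i).1 / D) ((c τ i).2 / D)‖ ≤ (ρ τ i : ℝ) / D := by
        refine P_norm (by positivity) ?_
        have : ((c τ i).1 : ℝ) ^ 2 + 3 * ((c τ i).2 : ℝ) ^ 2 ≤ (ρ τ i : ℝ) ^ 2 := by
          exact_mod_cast h1 τ i
        rw [div_pow, div_pow, div_pow, ← mul_div_assoc, ← add_div]
        gcongr
      have b2 := real_inner_le_norm (P ((c τ i).1 / D) ((c τ i).2 / D))
        (P (m i).1 (m i).2 - p i)
      have b3 := p2 i
      rw [dist_eq_norm] at b3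
      rw [inner_sub_right, P_inner] at b2
      have b4 : (((c τ i).1 : ℝ) * (m i).1 + 3 * ((c τ i).2 * (m i).2)) / D =
        (c τ i).1 / D * (m i).1 + 3 * ((c τ i).2 / D * (m i).2) := by ring
      have b5 := mul_le_mul b1 b3 (norm_nonneg _) (by positivity)
      rw [div_mul_eq_mul_div] at b5
      linarith
    have := Finset.sum_le_sum fun i (_ : i ∈ Finset.univ) => a4 i
    rw [Finset.sum_sub_distrib, ← Finset.sum_div, ← Finset.sum_div, ← sub_div] at this
    refine le_trans ?_ this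
    rw [le_div_iff₀ D0]; linarith

def c9 : Fin 36 → Fin 8 → ℤ × ℤ :=
  ![![(8300, -1300), (-2200, 4800), (-8300, 1300), (2200, -4800), (0, 0), (0, 0), (0, 0), (0, 0)],
    ![(0, 0), (0, 0), (0, 0), (0, 0), (8300, 1300), (2200, 4800), (-8300, -1300), (-2200, -4800)],
    ![(7555, 368), (-621, 1354), (-7555, -368), (621, -1354), (7555, -368), (621, 1354), (-7555, 368), (-621, -1354)],
    ![(2264, -355), (629, 4409), (-2264, 355), (-629, -4409), (2264, 355), (-629, 4409), (-2264, -355), (629, -4409)],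
    ![(2277, -178), (2581, 4401), (-7899, -1927), (979, -2297), (7899, -1925), (-2581, 4401), (-2277, -178), (-979, -2297)],
    ![(7567, -2327), (1851, 4048), (-8014, -1759), (1280, -2792), (0, 0), (-292, 4947), (-1404, 39), (-988, -2156)],
    ![(4940, -766), (2999, 4637), (-6907, -1108), (3975, -4386), (3627, 560), (-67, 857), (-8567, 206), (0, 0)],
    ![(8482, 725), (2700, 4698), (-7880, -854), (-1715, -4850), (3950, 71), (-2235, 4779), (-582, -179), (-2720, -4390)],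
    ![(8386, 1031), (1450, 4554), (-8111, -1606), (-1219, -4900), (7495, 1527), (385, 424), (-8256, 1336), (-130, -2366)],
    ![(3955, -558), (3290, 4571), (-7577, -1543), (332, -1364), (3955, 558), (332, 1364), (-7577, 1543), (3290, -4571)],
    ![(7577, 1543), (-332, 1364), (-3955, 558), (-3290, -4571), (7577, -1543), (-3290, 4571), (-3955, -558), (-332, -1364)],
    ![(6907, 1108), (-3975, 4386), (-4940, 766), (-2999, -4637), (8567, -206), (0, 0), (-3627, -560), (67, -857)],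
    ![(8111, 1606), (1219, 4900), (-8386, -1031), (-1450, -4554), (8256, -1336), (130, 2366), (-7495, -1527), (-385, -424)],
    ![(8014, 1759), (-1280, 2792), (-7567, 2327), (-1851, -4048), (1404, -39), (988, 2156), (0, 0), (292, -4947)],
    ![(7880, 854), (1715, 4850), (-8482, -725), (-2700, -4698), (582, 179), (2720, 4390), (-3950, -71), (2235, -4779)],
    ![(7899, 1927), (-979, 2297), (-2277, 178), (-2581, -4401), (2277, 178), (979, 2297), (-7899, 1925), (2581, -4401)],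
    ![(8140, -1281), (-130, 2366), (-8256, -1334), (2260, -4775), (8386, -1031), (-2107, 4798), (-8293, 1257), (0, 0)],
    ![(7495, -1527), (-130, 2366), (-8256, -1336), (385, -424), (8386, -1031), (-1219, 4900), (-8111, 1606), (1450, -4554)],
    ![(0, 0), (-1134, 2475), (-7425, 2475), (0, -4950), (7425, 2475), (1134, 2475), (0, 0), (0, -4950)],
    ![(0, 0), (1715, 4850), (-8293, -1258), (-2107, -4798), (8140, 1281), (2260, 4775), (-3950, -71), (2235, -4779)],
    ![(0, 0), (-988, 2156), (-1404, -39), (-292, -4947), (7567, 2327), (1280, 2792), (-8014, 1759), (1851, -4048)],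
    ![(4287, -663), (0, 0), (-8574, 0), (4287, -4287), (4287, 663), (4287, 4287), (-8574, 0), (0, 0)],
    ![(8386, 1029), (0, 0), (-8293, -1257), (-2107, -4798), (8140, 1281), (2260, 4775), (-8256, 1336), (-130, -2366)],
    ![(3627, -560), (0, 0), (-8567, -205), (-67, -857), (4940, 766), (3975, 4386), (-6907, 1108), (2999, -4638)],
    ![(3950, -71), (-2260, 4775), (-8140, 1281), (-2235, -4779), (8293, -1258), (-1715, 4850), (0, 0), (2107, -4798)],
    ![(3950, -71), (-2720, 4390), (-582, 179), (-2235, -4779), (8482, -725), (-1715, 4850), (-7880, 854), (2700, -4698)],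
    ![(1404, 39), (292, 4947), (0, 0), (988, -2156), (8014, -1759), (-1851, 4048), (-7567, -2327), (-1280, -2792)],
    ![(7425, -2475), (0, 4950), (0, 0), (1134, -2475), (0, 0), (0, 4950), (-7425, -2475), (-1134, -2475)],
    ![(8293, 1258), (2107, 4798), (0, 0), (-1715, -4850), (3950, 71), (-2235, 4779), (-8140, -1281), (-2260, -4775)],
    ![(8256, 1336), (-385, 424), (-7495, 1527), (130, -2366), (8111, -1606), (-1450, 4554), (-8386, 1031), (1219, -4900)],
    ![(8256, 1334), (-2260, 4775), (-8140, 1281), (130, -2366), (8293, -1257), (0, 0), (-8386, 1031), (2107, -4798)],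
    ![(8567, 205), (67, 857), (-3627, 560), (0, 0), (6907, -1108), (-2999, 4638), (-4940, -766), (-3975, -4386)],
    ![(8574, 0), (-4287, 4287), (-4287, 663), (0, 0), (8574, 0), (0, 0), (-4287, -663), (-4287, -4287)],
    ![(8293, 1259), (2107, 4798), (-8386, -1031), (0, 0), (8256, -1336), (130, 2366), (-8140, -1281), (-2260, -4775)],
    ![(582, -179), (2235, 4779), (-3950, 71), (2720, -4390), (7880, -854), (-2700, 4698), (-8482, 725), (1715, -4850)],
    ![(8140, -1281), (2235, 4779), (-3950, 71), (2260, -4775), (0, 0), (-2107, 4798), (-8293, 1258), (1715, -4850)]]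

def r9 : Fin 36 → Fin 8 → ℕ :=
  ![![8600, 8600, 8600, 8600, 0, 0, 0, 0],
    ![0, 0, 0, 0, 8600, 8600, 8600, 8600],
    ![7582, 2427, 7582, 2427, 7582, 2427, 7582, 2427],
    ![2347, 7663, 2347, 7663, 2347, 7663, 2347, 7663],
    ![2298, 8048, 8576, 4098, 8574, 8048, 2298, 4098],
    ![8574, 7252, 8574, 5003, 0, 8574, 1406, 3863],
    ![5116, 8574, 7169, 8574, 3755, 1486, 8575, 0],
    ![8575, 8574, 8018, 8574, 3952, 8574, 660, 8076],
    ![8575, 8020, 8575, 8575, 7948, 830, 8575, 4101],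
    ![4072, 8574, 8035, 2386, 4072, 2386, 8035, 8574],
    ![8035, 2386, 4072, 8574, 8035, 8574, 4072, 2386],
    ![7169, 8574, 5116, 8574, 8575, 0, 3755, 1486],
    ![8575, 8575, 8575, 8020, 8575, 4101, 7948, 830],
    ![8574, 5003, 8574, 7252, 1406, 3863, 0, 8574],
    ![8018, 8574, 8575, 8574, 660, 8076, 3952, 8574],
    ![8576, 4098, 2298, 8048, 2298, 4098, 8574, 8048],
    ![8437, 4101, 8574, 8574, 8575, 8574, 8575, 0],
    ![7948, 4101, 8575, 830, 8575, 8575, 8575, 8020],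
    ![0, 4435, 8574, 8574, 8574, 4435, 0, 8574],
    ![0, 8574, 8575, 8574, 8437, 8574, 3952, 8574],
    ![0, 3863, 1406, 8574, 8574, 5003, 8574, 7252],
    ![4439, 0, 8574, 8574, 4439, 8574, 8574, 0],
    ![8574, 0, 8575, 8574, 8437, 8574, 8575, 4101],
    ![3755, 0, 8575, 1486, 5116, 8574, 7169, 8575],
    ![3952, 8574, 8437, 8574, 8575, 8574, 0, 8574],
    ![3952, 8076, 660, 8574, 8575, 8574, 8018, 8574],
    ![1406, 8574, 0, 3863, 8574, 7252, 8574, 5003],
    ![8574, 8574, 0, 4435, 0, 8574, 8574, 4435],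
    ![8575, 8574, 0, 8574, 3952, 8574, 8437, 8574],
    ![8575, 830, 7948, 4101, 8575, 8020, 8575, 8575],
    ![8574, 8574, 8437, 4101, 8575, 0, 8575, 8574],
    ![8575, 1486, 3755, 0, 7169, 8575, 5116, 8574],
    ![8574, 8574, 4439, 0, 8574, 0, 4439, 8574],
    ![8575, 8574, 8575, 0, 8575, 4101, 8437, 8574],
    ![660, 8574, 3952, 8076, 8018, 8574, 8575, 8574],
    ![8437, 8574, 3952, 8574, 0, 8574, 8575, 8574]]

def m9 : Fin 8 → ℤ × ℤ := ![(98778, -9100), (-15400, 57637), (-98778, 9100), (15400, -57637),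
  (98778, 9100), (15400, 57637), (-98778, -9100), (-15400, -57637)]

lemma c9a : ∀ F : Finset (Fin 8), ¬ ok 8600 (c9 0) F → ∀ G, ¬ ok 8600 (c9 1) G → Lam F G →
    ∃ τ, ∀ H, Lam F H → Lam G H → ok 8600 (c9 τ) H := by decide +kernel

lemma low9 {W : Set E2} (hc : IsCompact W) (hW : IsConnected W)
    (hp : ∀ i, ∃ p ∈ W, dist (P (m9 i).1 (m9 i).2) p ≤ 60200) :
    ((159014 : ℕ) : ℝ≥0∞) ≤ Measure.hausdorffMeasure 1 W := by
  refine certR 8600 (by norm_num) c9 r9 m9 159014 60200 (fun A hA => ?_) (by decide +kernel)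
    (by decide +kernel) (by decide +kernel) hc hW (by exact_mod_cast hp)
  by_cases h1 : ∀ F ∈ A, ok 8600 (c9 0) F
  · exact ⟨0, h1⟩
  by_cases h2 : ∀ F ∈ A, ok 8600 (c9 1) F
  · exact ⟨1, h2⟩
  push Not at h1 h2
  obtain ⟨F, f1, f2⟩ := h1
  obtain ⟨G, g1, g2⟩ := h2
  obtain ⟨τ, hτ⟩ := c9a F f2 G g2 (hA F f1 G g1)
  exact ⟨τ, fun H hH => hτ H (hA F f1 H hH) (hA G g1 H hH)⟩

end Pool.Agent.H81.Steiner
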