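import Pool.Agent.H81.TorDefs

set_option autoImplicit false

open Finset

noncomputable section

namespace Pool.Agent.H81.Tor

variable {k : Type} [Field k] {m : ℕ} {K : Set (Finset (Fin m))}

lemma mon_add (a b : Fin m →₀ ℕ) : mon k K (a + b) = mon k K a * mon k K b := by
  refine Eq.trans ?_ (map_mul (Ideal.Quotient.mk (IK k K)) _ _)
  rw [MvPolynomial.monomial_mul, one_mul]; rfl

lemma mon_zero : mon k K 0 = 1 := rfl

lemma d_smul (r : SR k K) (x : Kos k K) : dK k K (r • x) = r • dK k K x :=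
  (CliffordAlgebra.contractLeft (form k K)).map_smul r x

lemma d_one : dK k K 1 = 0 := CliffordAlgebra.contractLeft_one _ _

lemma d_u (a : Fin m) (x : Kos k K) :
    dK k K (u k K a * x) = mon k K (Finsupp.single a 1) • x - u k K a * dK k K x := by
  have : (∑ i, mon k K (Finsupp.single i 1) • LinearMap.proj i : Module.Dual (SR k K)
    (Fin m → SR k K)) (Pi.single a 1) = mon k K (Finsupp.single a 1) := by simp [Pi.single_apply]
  rw [← this]
  exact CliffordAlgebra.contractLeft_ι_mul _ _ _

open CliffordAlgebra in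
lemma cl_mul {R M : Type} [CommRing R] [AddCommGroup M] [Module R M] {Q : QuadraticForm R M}
    (d : Module.Dual R M) (x y : CliffordAlgebra Q) :
    contractLeft d (x * y) = contractLeft d x * y + involute x * contractLeft d y := by
  induction x using left_induction with
  | algebraMap r => simp [contractLeft_algebraMap_mul]
  | add a b ha hb => simp only [add_mul, map_add, ha, hb]; abel
  | ι_mul x a hx =>
    rw [mul_assoc, contractLeft_ι_mul, contractLeft_ι_mul, hx]
    simp only [map_mul, involute_ι, sub_mul, mul_add, smul_mul_assoc, mul_assoc, neg_mul]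
    abel

open CliffordAlgebra in
lemma cl_inv {R M : Type} [CommRing R] [AddCommGroup M] [Module R M] {Q : QuadraticForm R M}
    (d : Module.Dual R M) (x : CliffordAlgebra Q) :
    contractLeft d (involute x) = -involute (contractLeft d x) := by
  induction x using left_induction with
  | algebraMap r => simp
  | add a b ha hb => simp only [map_add, ha, hb]; abel
  | ι_mul x a hx =>
    simp only [map_mul, involute_ι, neg_mul, map_neg, contractLeft_ι_mul, hx, map_sub, map_smul,
      mul_neg]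

def inv : Kos k K →+* Kos k K := (CliffordAlgebra.involute (Q := 0)).toRingHom

lemma inv_inv (x : Kos k K) : inv (inv x) = x := CliffordAlgebra.involute_involute x

lemma d_mul (x y : Kos k K) : dK k K (x * y) = dK k K x * y + inv x * dK k K y := cl_mul _ x y

lemma d_inv (x : Kos k K) : dK k K (inv x) = -inv (dK k K x) := cl_inv _ x

lemma mul_sm (r : SR k K) (x y : Kos k K) : x * (r • y) = r • (x * y) := Algebra.mul_smul_comm r x y

lemma sm_mul (r : SR k K) (x y : Kos k K) : (r • x) * y = r • (x * y) := Algebra.smul_mul_assoc r x y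

lemma u_sq (a : Fin m) : u k K a * u k K a = 0 := ExteriorAlgebra.ι_sq_zero _

lemma u_swap (a b : Fin m) : u k K a * u k K b = -(u k K b * u k K a) :=
  eq_neg_of_add_eq_zero_left (ExteriorAlgebra.ι_add_mul_swap _ _)

variable (k K) in
def Bs (ω : Finset (Fin m)) : Kos k K := ((ω.sort).map (u k K)).prod

lemma Bs_ins {a : Fin m} {ω : Finset (Fin m)} (h : ∀ x ∈ ω, a < x) :
    Bs k K (insert a ω) = u k K a * Bs k K ω := by
  rw [Bs, sort_insert _ (fun b hb => (h b hb).le) fun e => lt_irrefl _ (h a e)]; rfl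

def sg (a : Fin m) (ω : Finset (Fin m)) : ℤ := (-1) ^ (ω.filter (· < a)).card

def sz (a : Fin m) (ω : Finset (Fin m)) : ℤ := if a ∈ ω then 0 else sg a ω

lemma sg_ins {a c : Fin m} {ω : Finset (Fin m)} (h : c ∉ ω) (hc : c < a) :
    sg a (insert c ω) = -sg a ω := by
  rw [sg, filter_insert, if_pos hc, card_insert_of_notMem (by simp [h]), pow_succ, sg]; ring

lemma sg_min {a : Fin m} {ω : Finset (Fin m)} (h : ∀ x ∈ ω, ¬ x < a) : sg a ω = 1 := by
  rw [sg, filter_eq_empty_iff.2 h]; rfl

lemma u_Bs (a : Fin m) (ω : Finset (Fin m)) :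
    u k K a * Bs k K ω = sz a ω • Bs k K (insert a ω) := by
  induction ω using Finset.induction_on_min with
  | empty => rw [Bs_ins (by simp)]; simp [sz, sg]
  | insert c ω h ih =>
    have hc : c ∉ ω := fun e => lt_irrefl _ (h c e)
    rcases lt_trichotomy a c with e | rfl | e
    · have : ∀ x ∈ insert c ω, a < x := by
        simp only [mem_insert]; rintro x (rfl | hx); exacts [e, e.trans (h x hx)]
      rw [Bs_ins this, sz, if_neg fun k => lt_irrefl _ (this a k),
        sg_min fun x hx => (this x hx).not_gt, one_smul]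
    · rw [Bs_ins h, ← mul_assoc, u_sq]; simp [sz]
    · rw [Bs_ins h, ← mul_assoc, u_swap, neg_mul, mul_assoc, ih, insert_comm, Bs_ins (a := c) (by
        simp only [mem_insert]; rintro x (rfl | hx); exacts [e, h x hx])]
      simp only [sz, mem_insert, e.ne', false_or, sg_ins hc e]
      split_ifs <;> simp [-zsmul_eq_mul, mul_smul_comm]

lemma d_Bs (ω : Finset (Fin m)) : dK k K (Bs k K ω) =
    ∑ a ∈ ω, sg a ω • mon k K (Finsupp.single a 1) • Bs k K (ω.erase a) := by
  induction ω using Finset.induction_on_min with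
  | empty => simp [Bs, d_one]
  | insert c ω h ih =>
    have hc : c ∉ ω := fun e => lt_irrefl _ (h c e)
    rw [Bs_ins h, d_u, ih, sum_insert hc, erase_insert hc, sg_min (by
      simp only [mem_insert]; rintro x (rfl | hx); exacts [lt_irrefl _, (h x hx).not_gt]),
      one_smul, mul_sum, sub_eq_add_neg, ← sum_neg_distrib]
    refine congrArg _ (sum_congr rfl fun a ha => ?_)
    rw [sg_ins hc (h a ha), erase_insert_of_ne (h a ha).ne, Bs_ins fun x hx => h x (mem_of_mem_erase hx),
      mul_smul_comm, mul_sm, neg_smul]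

lemma Bs_mul (ω τ : Finset (Fin m)) :
    Bs k K ω * Bs k K τ = (∏ a ∈ ω, sz a τ) • Bs k K (ω ∪ τ) := by
  induction ω using Finset.induction_on_min with
  | empty => simp [Bs]
  | insert c ω h ih =>
    have hc : c ∉ ω := fun e => lt_irrefl _ (h c e)
    rw [Bs_ins h, mul_assoc, ih, mul_smul_comm, u_Bs, prod_insert hc, insert_union, smul_smul, mul_comm]
    congr 2
    simp only [sz, mem_union, hc, false_or, sg, filter_union]
    rw [filter_eq_empty_iff.2 fun x hx => (h x hx).not_gt, empty_union]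

lemma list_Bs (l : List (Fin m)) : ∃ (c : ℤ) (ω : Finset (Fin m)),
    (l.map (u k K)).prod = c • Bs k K ω ∧ (c = 0 ∨ ω.card = l.length) := by
  induction l with
  | nil => exact ⟨1, ∅, by simp [Bs], by simp⟩
  | cons a l ih =>
    obtain ⟨c, ω, h1, h2⟩ := ih
    refine ⟨c * sz a ω, insert a ω, by
      rw [List.map_cons, List.prod_cons, h1, mul_smul_comm, u_Bs, smul_smul], ?_⟩
    by_cases h : a ∈ ω
    · simp [sz, h]
    · rcases h2 with h2 | h2 <;> simp [h2, h]

variable (k K) in
def bas : Module.Basis (Finset (Fin m)) (SR k K) (Kos k K) :=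
  (Pi.basisFun (SR k K) (Fin m)).ExteriorAlgebra

lemma bas_eq (ω : Finset (Fin m)) : bas k K ω = Bs k K ω := by
  refine (ExteriorAlgebra.basis_apply _ ω).trans ?_
  rw [ExteriorAlgebra.ιMulti_family, ExteriorAlgebra.ιMulti_apply,
    Bs, ← listMap_orderEmbOfFin_finRange ω rfl, List.ofFn_eq_map, List.map_map]
  congr 2
  ext i
  simp [u, iota, Set.powersetCard.ofFinEmbEquiv_symm_apply]
  rfl

def chi (σ : Finset (Fin m)) : Fin m →₀ ℕ := ∑ i ∈ σ, Finsupp.single i 1

lemma chi_apply (σ : Finset (Fin m)) (i : Fin m) : chi σ i = if i ∈ σ then 1 else 0 := by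
  simp [chi, Finsupp.finset_sum_apply, Finsupp.single_apply]

lemma mem_id (f : MvPolynomial (Fin m) k) :
    f ∈ IK k K ↔ ∀ b ∈ f.support, ∃ σ ∉ K, σ ⊆ b.support := by
  have : {f : MvPolynomial (Fin m) k | ∃ σ ∉ K, f = ∏ i ∈ σ, MvPolynomial.X i} =
      (fun s => MvPolynomial.monomial s (1 : k)) '' (chi '' Kᶜ) := by
    ext f
    simp [chi, MvPolynomial.monomial_sum_one, MvPolynomial.X, eq_comm]
  rw [IK, this, MvPolynomial.mem_ideal_span_monomial_image]
  refine forall₂_congr fun b _ => ?_
  simp only [Set.mem_image, Set.mem_compl_iff, exists_exists_and_eq_and]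
  refine exists_congr fun σ => and_congr_right fun _ => ⟨fun h i hi => ?_, fun h i => ?_⟩
  · have := h i
    rw [chi_apply, if_pos hi] at this
    exact Finsupp.mem_support_iff.2 (by omega)
  · rw [chi_apply]
    split_ifs with e
    · exact Nat.one_le_iff_ne_zero.2 (Finsupp.mem_support_iff.1 (h e))
    · exact Nat.zero_le _

lemma mon_eq_zero {b : Fin m →₀ ℕ} (h : b.support ∉ K) : mon k K b = 0 :=
  Ideal.Quotient.eq_zero_iff_mem.2 ((mem_id _).2 fun c hc => by
    rw [mem_singleton.1 (MvPolynomial.support_monomial_subset hc)]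
    exact ⟨_, h, Subset.rfl⟩)

lemma lift {N : Type} [AddCommGroup N] [Module k N] (hK : ∀ σ ∈ K, ∀ τ ⊆ σ, τ ∈ K)
    (F : Finset (Fin m) → (Fin m →₀ ℕ) → N) (hF : ∀ ω b, b.support ∉ K → F ω b = 0) :
    ∃ Φ : Kos k K →ₗ[k] N, ∀ ω b, Φ (mon k K b • Bs k K ω) = F ω b := by
  have : ∀ ω, ∃ ψ : SR k K →ₗ[k] N, ∀ b, ψ (mon k K b) = F ω b := fun ω => by
    refine ⟨(Submodule.liftQ _ ((MvPolynomial.basisMonomials (Fin m) k).constr k (F ω)) ?_).comp
      (Submodule.Quotient.restrictScalarsEquiv k (IK k K)).symm.toLinearMap, fun b => ?_⟩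
    · intro f hf
      rw [LinearMap.mem_ker, Module.Basis.constr_apply]
      refine sum_eq_zero fun b hb => ?_
      obtain ⟨σ, s1, s2⟩ := (mem_id f).1 hf b hb
      simp only [hF ω b fun e => s1 (hK _ e _ s2), smul_zero]
    · exact ((MvPolynomial.basisMonomials (Fin m) k).constr_basis k (F ω) b)
  choose ψ hψ using this
  refine ⟨∑ ω, (ψ ω).comp (((bas k K).coord ω).restrictScalars k), fun ω b => ?_⟩
  rw [← bas_eq, LinearMap.sum_apply, sum_eq_single ω]
  · simp [hψ]
  · intro τ _ h; simp [Finsupp.single_apply, h.symm]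
  · simp

lemma ext_K {N : Type} [AddCommGroup N] [Module k N] {Φ Ψ : Kos k K →ₗ[k] N}
    (h : ∀ ω b, Φ (mon k K b • Bs k K ω) = Ψ (mon k K b • Bs k K ω)) : Φ = Ψ := by
  ext x
  rw [← (bas k K).sum_repr x, map_sum, map_sum]
  refine sum_congr rfl fun ω _ => ?_
  obtain ⟨q, q1, q2⟩ : ∃ q : MvPolynomial (Fin m) k →ₐ[k] SR k K, Function.Surjective q ∧
      ∀ b, q (MvPolynomial.monomial b 1) = mon k K b :=
    ⟨Ideal.Quotient.mkₐ k (IK k K), Ideal.Quotient.mk_surjective, fun _ => rfl⟩
  obtain ⟨f, hf⟩ := q1 ((bas k K).repr x ω)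
  rw [← hf, f.as_sum, map_sum, sum_smul, map_sum, map_sum, bas_eq]
  refine sum_congr rfl fun b _ => ?_
  have : q (MvPolynomial.monomial b (f.coeff b)) = f.coeff b • mon k K b := by
    rw [← q2, ← map_smul, MvPolynomial.smul_monomial, smul_eq_mul, mul_one]
  rw [this, smul_assoc, Φ.map_smul, Ψ.map_smul, h]

end Pool.Agent.H81.Tor
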