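import Pool.Agent.H81.Tor1

set_option autoImplicit false

open Finset

noncomputable section

namespace Pool.Agent.H81.Tor

variable {k : Type} [Field k] {m n : ℕ} {K L : Set (Finset (Fin m))}

variable (k K) in
def SD (dg : Fin n → ℕ × ℕ) (mt : Fin n → Fin n → Fin n → k) (one : Fin n → k) : Prop :=
  ∃ (p : Kos k K →ₗ[k] (Fin n → k)) (i : (Fin n → k) →ₗ[k] Kos k K),
    (∀ β, dK k K (i β) = 0) ∧ (∀ x, p (dK k K x) = 0) ∧ (∀ β, p (i β) = β) ∧
    (∀ z, dK k K z = 0 → ∃ y, z = dK k K y + i (p z)) ∧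
    (∀ a b, ∀ x ∈ deg k K a b, ∀ t, dg t ≠ (a, b) → p x t = 0) ∧
    (∀ t, i (Pi.single t 1) ∈ deg k K (dg t).1 (dg t).2) ∧
    (∀ s t, p (i (Pi.single s 1) * i (Pi.single t 1)) = mt s t) ∧ p 1 = one

lemma SD.eqv {dg : Fin n → ℕ × ℕ} {mt : Fin n → Fin n → Fin n → k} {one : Fin n → k}
    (h : SD k K dg mt one) : ∃ e : TorH k K ≃ₗ[k] (Fin n → k),
      (∀ a b, (torDeg k K a b).map e.toLinearMap = Submodule.pi {t | dg t ≠ (a, b)} fun _ => ⊥) ∧
      (∀ x : Cyc k K, x.1 = 1 → e (cls k K x) = one) ∧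
      ∀ x y z : Cyc k K, z.1 = x.1 * y.1 → e (cls k K z) =
        ∑ s, ∑ t, (e (cls k K x) s * e (cls k K y) t) • mt s t := by
  obtain ⟨p, i, h1, h2, h3, h4, h5, h6, h7, h8⟩ := h
  have ex : ∀ β : Fin n → k, i β = ∑ s, β s • i (Pi.single s 1) := fun β => by
    conv_lhs => rw [pi_eq_sum_univ' β, map_sum]
    simp only [map_smul]
  set f : TorH k K →ₗ[k] (Fin n → k) := (Bdy k K).liftQ (p.comp (Cyc k K).subtype) (by
    rintro ⟨x, hx⟩ ⟨y, hy⟩
    exact (congrArg p hy).symm.trans (h2 y))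
  have f1 : ∀ x : Cyc k K, f (cls k K x) = p x := fun x => rfl
  set g : (Fin n → k) →ₗ[k] TorH k K := (cls k K).comp (i.codRestrict (Cyc k K) h1)
  refine ⟨LinearEquiv.ofLinear f g (LinearMap.ext h3) (LinearMap.ext fun q => ?_), fun a b => ?_,
    fun x hx => (f1 x).trans (hx ▸ h8), fun x y z hz => ?_⟩
  · obtain ⟨x, rfl⟩ := (Bdy k K).mkQ_surjective q
    obtain ⟨y, hy⟩ := h4 x x.2
    refine ((Submodule.Quotient.eq (Bdy k K)).2 ?_).symm
    exact ⟨y, eq_sub_of_add_eq hy.symm⟩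
  · refine le_antisymm ?_ fun β hβ => ⟨g β, ⟨⟨i β, h1 β⟩, ?_, rfl⟩, h3 β⟩
    · rintro _ ⟨_, ⟨x, hx, rfl⟩, rfl⟩ t ht
      exact h5 a b x hx t ht
    · show i β ∈ deg k K a b
      rw [ex]
      refine Submodule.sum_mem _ fun t _ => ?_
      by_cases e : dg t = (a, b)
      · have := h6 t
        rw [e] at this
        exact Submodule.smul_mem _ _ this
      · rw [show β t = 0 from hβ t e, zero_smul]; exact Submodule.zero_mem _
  · show p z = ∑ s, ∑ t, (p x s * p y t) • mt s t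
    obtain ⟨a, ha⟩ := h4 x x.2
    obtain ⟨b, hb⟩ := h4 y y.2
    have e1 : dK k K a * y.1 = dK k K (a * y.1) := by
      rw [d_mul, show dK k K y.1 = 0 from y.2, mul_zero, add_zero]
    have e2 : i (p x) * dK k K b = dK k K (inv (i (p x)) * b) := by
      rw [d_mul, d_inv, h1, inv_inv]; simp
    have e3 : z.1 = dK k K a * y.1 + (i (p x) * dK k K b + i (p x) * i (p y)) := by
      rw [← mul_add, ← hb, ← add_mul, ← ha, hz]
    rw [e3, e1, e2, map_add, map_add, h2, h2, zero_add, zero_add, ex (p x), ex (p y), sum_mul_sum]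
    simp only [map_sum, smul_mul_smul_comm, map_smul, h7]

theorem SD.iso {dg : Fin n → ℕ × ℕ} {mt : Fin n → Fin n → Fin n → k} {one : Fin n → k}
    (h : SD k K dg mt one) (h' : SD k L dg mt one) :
    TorIso k K L ∧ ∀ i j, betti k K i j = betti k L i j := by
  obtain ⟨e, e1, e2, e3⟩ := h.eqv
  obtain ⟨f, f1, f2, f3⟩ := h'.eqv
  have hd : ∀ i j, (torDeg k K i j).map (e.trans f.symm).toLinearMap = torDeg k L i j := fun a b => by
    rw [LinearEquiv.coe_trans, Submodule.map_comp, e1, ← f1, ← Submodule.map_comp]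
    simp
  refine ⟨⟨e.trans f.symm, (e.trans f.symm).toLinearMap.isLinear, (e.trans f.symm).bijective,
    fun a b c => ?_, ?_, ?_⟩, fun a b => ?_⟩
  · rw [← hd]
    exact ⟨fun h => ⟨c, h, rfl⟩, fun ⟨c', h, q⟩ => (e.trans f.symm).injective q ▸ h⟩
  · rintro _ ⟨h, rfl⟩
    refine ⟨d_one, ((LinearEquiv.symm_apply_eq f).2 ?_).symm⟩
    exact (e2 ⟨1, h⟩ rfl).trans (f2 ⟨1, d_one⟩ rfl).symm
  · rintro x y _ _ _ x' y' ⟨hx, rfl⟩ ⟨hy, rfl⟩ ⟨hz, rfl⟩ ⟨hx', ex⟩ ⟨hy', ey⟩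
    have hz' : x' * y' ∈ Cyc k L := by
      show dK k L _ = 0
      rw [d_mul, show dK k L x' = 0 from hx', show dK k L y' = 0 from hy']; simp
    refine ⟨hz', ((LinearEquiv.symm_apply_eq f).2 ?_).symm⟩
    have ex : e (cls k K ⟨x, hx⟩) = f (cls k L ⟨x', hx'⟩) := (LinearEquiv.symm_apply_eq f).1 ex.symm
    have ey : e (cls k K ⟨y, hy⟩) = f (cls k L ⟨y', hy'⟩) := (LinearEquiv.symm_apply_eq f).1 ey.symm
    have := e3 ⟨x, hx⟩ ⟨y, hy⟩ ⟨_, hz⟩ rfl
    rw [ex, ey] at this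
    exact this.trans (f3 ⟨x', hx'⟩ ⟨y', hy'⟩ ⟨_, hz'⟩ rfl).symm
  · rw [betti, betti, ← hd, LinearEquiv.rank_map_eq]

def al (ω : Finset (Fin m)) (b : Fin m →₀ ℕ) : Fin m → ℕ := fun i => chi ω i + b i

lemma zero_sm (x : Kos k K) : (0 : SR k K) • x = 0 := zero_smul (SR k K) x

lemma sm_sm (r s : SR k K) (x : Kos k K) : r • s • x = (r * s) • x := smul_smul r s x

lemma sm_z (r : SR k K) (c : ℤ) (x : Kos k K) : r • c • x = c • r • x := smul_comm r c x

lemma sm_sum {ι : Type} (r : SR k K) (s : Finset ι) (f : ι → Kos k K) :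
    r • ∑ i ∈ s, f i = ∑ i ∈ s, r • f i := Finset.smul_sum (r := r) (f := f) (s := s)

lemma d_E (ω : Finset (Fin m)) (b : Fin m →₀ ℕ) : dK k K (mon k K b • Bs k K ω) =
    ∑ a ∈ ω, sg a ω • mon k K (b + Finsupp.single a 1) • Bs k K (ω.erase a) := by
  rw [d_smul, d_Bs, sm_sum]
  refine sum_congr rfl fun a _ => ?_
  rw [mon_add, sm_z, sm_sm]

lemma al_d {ω : Finset (Fin m)} (b : Fin m →₀ ℕ) {a : Fin m} (ha : a ∈ ω) :
    al (ω.erase a) (b + Finsupp.single a 1) = al ω b := by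
  ext i
  by_cases e : i = a
  · simp [al, chi_apply, e, ha, add_comm]
  · simp [al, chi_apply, e, Finsupp.single_apply, Ne.symm e]

/-- Reduction to squarefree multidegrees. -/
theorem sqf [Nonempty (Fin m)] (hK : ∀ σ ∈ K, ∀ τ ⊆ σ, τ ∈ K) {N : Type} [AddCommGroup N] [Module k N]
    (P : Finset (Fin m) → Finset (Fin m) → N) (H : Finset (Fin m) → Finset (Fin m) → Kos k K)
    (hP : ∀ ω σ, σ ∉ K → P ω σ = 0) (hH : ∀ ω σ, σ ∉ K → H ω σ = 0) :
    ∃ (p : Kos k K →ₗ[k] N) (h : Kos k K →ₗ[k] Kos k K),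
      (∀ ω σ, Disjoint ω σ → p (mon k K (chi σ) • Bs k K ω) = P ω σ ∧
        h (mon k K (chi σ) • Bs k K ω) = H ω σ) ∧
      ∀ ω b, (∃ i, 2 ≤ al ω b i) → p (mon k K b • Bs k K ω) = 0 ∧
        p (dK k K (mon k K b • Bs k K ω)) = 0 ∧ mon k K b • Bs k K ω =
          dK k K (h (mon k K b • Bs k K ω)) + h (dK k K (mon k K b • Bs k K ω)) := by
  classical
  have : ∀ α : Fin m → ℕ, (∃ i, 2 ≤ α i) → ∃ i, 2 ≤ α i := fun _ h => h
  choose! pk hpk using this
  obtain ⟨p, hp⟩ := lift (k := k) hK (fun ω b => if ∃ i, 2 ≤ al ω b i then 0 else P ω b.support)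
    fun ω b hb => by simp [hP ω _ hb]
  obtain ⟨h, hh⟩ := lift (k := k) hK (fun ω b => if ∃ i, 2 ≤ al ω b i then
    u k K (pk (al ω b)) * (mon k K (b - Finsupp.single (pk (al ω b)) 1) • Bs k K ω)
      else H ω b.support) fun ω b hb => by
    split_ifs with e
    · have := hpk _ e
      generalize pk (al ω b) = i at this
      by_cases hi : i ∈ ω
      · simp [mul_sm, u_Bs, sz, hi]
      · rw [mon_eq_zero, zero_sm, mul_zero]
        convert hb using 2
        ext j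
        by_cases e : i = j
        · subst e
          simp only [al, chi_apply, hi, if_false] at this
          simp; omega
        · simp [e]
    · exact hH ω _ hb
  refine ⟨p, h, fun ω σ hd => ?_, fun ω b e => ?_⟩
  · have e1 : ¬ ∃ i, 2 ≤ al ω (chi σ) i := by
      rintro ⟨i, hi⟩
      have : i ∈ ω → i ∉ σ := fun h => disjoint_left.1 hd h
      simp only [al, chi_apply] at hi
      split_ifs at hi <;> simp_all
    have e2 : (chi σ).support = σ := by ext i; simp [chi_apply]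
    rw [hp, hh, if_neg e1, if_neg e1, e2]
    exact ⟨rfl, rfl⟩
  refine ⟨by rw [hp, if_pos e], ?_, ?_⟩
  · rw [d_E, map_sum]
    exact sum_eq_zero fun a ha => by rw [map_zsmul, hp, al_d b ha, if_pos e, smul_zero]
  · have h2 := hpk _ e
    have h1 : Finsupp.single (pk (al ω b)) 1 ≤ b := by
      rw [Finsupp.single_le_iff]
      simp only [al, chi_apply] at h2
      split_ifs at h2 <;> omega
    rw [hh, if_pos e, d_u, sm_sm, ← mon_add, add_tsub_cancel_of_le h1, d_E, d_E, map_sum, mul_sum,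
      sub_add, ← sum_sub_distrib, sum_eq_zero fun a ha => by
        rw [map_zsmul h, hh, al_d b ha, if_pos e, ← tsub_add_eq_add_tsub h1, ← mul_smul_comm, sub_self],
      sub_zero]

lemma sqf_cases (ω : Finset (Fin m)) (b : Fin m →₀ ℕ) :
    (∃ i, 2 ≤ al ω b i) ∨ ∃ σ, Disjoint ω σ ∧ b = chi σ := by
  by_cases h : ∃ i, 2 ≤ al ω b i
  · exact Or.inl h
  push Not at h
  simp only [al, chi_apply] at h
  refine Or.inr ⟨b.support, disjoint_left.2 fun i h1 h2 => ?_, ?_⟩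
  · have := h i
    rw [Finsupp.mem_support_iff] at h2
    rw [if_pos h1] at this
    omega
  · ext i
    have := h i
    simp only [chi_apply, Finsupp.mem_support_iff]
    split_ifs <;> omega

end Pool.Agent.H81.Tor
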