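import Pool.Agent.H81.Tor2

set_option autoImplicit false

open Finset

namespace Pool.Agent.H81.Tor

def toF (n : ℕ) : Finset (Fin 8) := univ.filter fun i => n.testBit i
def msk (σ : Finset (Fin 8)) : ℕ := ∑ i ∈ σ, 2 ^ i.1

lemma toF_msk : ∀ σ, toF (msk σ) = σ ∧ msk σ < 256 := by decide +kernel
lemma msk_toF : ∀ n < 256, msk (toF n) = n := by decide +kernel
@[simp] lemma mem_toF (n : ℕ) (i : Fin 8) : i ∈ toF n ↔ n.testBit i := by simp [toF]

abbrev Ls := List (ℤ × ℕ)

def ev {M : Type} [AddCommGroup M] (g : ℕ → M) (l : Ls) : M := (l.map fun x => x.1 • g x.2).sum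
def sc (c : ℤ) (l : Ls) : Ls := l.map fun x => (c * x.1, x.2)
def bnd (f : ℕ → Ls) (l : Ls) : Ls := l.flatMap fun x => sc x.1 (f x.2)
def ins (x : ℤ × ℕ) : Ls → Ls
  | [] => [x]
  | y :: t => if x.2 = y.2 then (if x.1 + y.1 = 0 then t else (x.1 + y.1, y.2) :: t) else y :: ins x t
def zr (l : Ls) : Bool := (l.foldr ins []).isEmpty

section
variable {M N : Type} [AddCommGroup M] [AddCommGroup N] (g : ℕ → M)

@[simp] lemma ev_nil : ev g [] = 0 := rfl
@[simp] lemma ev_cons (x : ℤ × ℕ) (l : Ls) : ev g (x :: l) = x.1 • g x.2 + ev g l := by simp [ev]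
@[simp] lemma ev_app (l l' : Ls) : ev g (l ++ l') = ev g l + ev g l' := by simp [ev]
@[simp] lemma ev_sc (c : ℤ) (l : Ls) : ev g (sc c l) = c • ev g l := by
  induction l with
  | nil => simp [sc]
  | cons x l ih => rw [sc, List.map_cons, ← sc, ev_cons, ih, ev_cons, smul_add, mul_smul]

lemma ev_ins (x : ℤ × ℕ) (l : Ls) : ev g (ins x l) = x.1 • g x.2 + ev g l := by
  induction l with
  | nil => simp [ins]
  | cons y t ih =>
    rw [ins]
    split_ifs with h h'
    · rw [ev_cons, h, ← add_assoc, ← add_smul, h', zero_smul, zero_add]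
    · rw [ev_cons, ev_cons, h, add_smul, add_assoc]
    · rw [ev_cons, ih, ev_cons]; abel

lemma ev_zr {l : Ls} (h : zr l = true) : ev g l = 0 := by
  have : ev g (l.foldr ins []) = ev g l := by
    clear h
    induction l with
    | nil => rfl
    | cons x l ih => rw [List.foldr_cons, ev_ins, ih, ev_cons]
  rw [← this, List.isEmpty_iff.1 h, ev_nil]

lemma ev_bnd {k : Type} [Field k] [Module k M] [Module k N] (φ : M →ₗ[k] N) (g' : ℕ → N) (f : ℕ → Ls)
    (l : Ls) (h : ∀ x ∈ l, φ (g x.2) = ev g' (f x.2)) : φ (ev g l) = ev g' (bnd f l) := by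
  induction l with
  | nil => simp [bnd]
  | cons x l ih =>
    rw [bnd, List.flatMap_cons, ← bnd, ev_cons, ev_app, map_add, ih fun y hy => h y (by simp [hy]),
      ev_sc, map_zsmul, h x (by simp)]

lemma ev_filter (q : ℤ × ℕ → Bool) (l : Ls) (h : ∀ x ∈ l, q x = false → g x.2 = 0) :
    ev g (l.filter q) = ev g l := by
  induction l with
  | nil => rfl
  | cons x l ih =>
    have := ih fun y hy => h y (by simp [hy])
    cases e : q x
    · rw [List.filter_cons_of_neg (by simp [e]), ev_cons, h x (by simp) e, this]; simp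
    · rw [List.filter_cons_of_pos e, ev_cons, ev_cons, this]

lemma ev_mem {k : Type} [Field k] [Module k M] (S : Submodule k M) (l : Ls) (h : ∀ x ∈ l, g x.2 ∈ S) :
    ev g l ∈ S := by
  induction l with
  | nil => exact S.zero_mem
  | cons x l ih =>
    rw [ev_cons]
    exact S.add_mem (zsmul_mem (h x (by simp)) _) (ih fun y hy => h y (by simp [hy]))
end

def dgo (w : ℕ) : ℕ → ℕ → ℤ → Ls
  | 0, _, _ => []
  | n + 1, a, c => if w.testBit a then (c, a) :: dgo w n (a + 1) (-c) else dgo w n (a + 1) c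
def dI (w : ℕ) : Ls := dgo w 8 0 1
def pop (w : ℕ) : ℕ := (dI w).length
def szB (a w : ℕ) : ℤ := if w.testBit a then 0 else if pop (w % 2 ^ a) % 2 = 0 then 1 else -1
def eps (w w' : ℕ) : ℤ := ((dI w).map fun x => szB x.2 w').prod
def dL (kb J s : ℕ) : Ls := ((dI (J ^^^ s)).map fun x => (x.1, s ||| 2 ^ x.2)).filter
  fun x => kb.testBit x.2
def sub (s J : ℕ) : Bool := s &&& J == s

lemma dI_eq : ∀ w < 256, dI w = ((List.finRange 8).filter (· ∈ toF w)).map
    fun a => (sg a (toF w), a.1) := by decide +kernel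
lemma pop_eq : ∀ w < 256, pop w = (toF w).card := by decide +kernel
lemma szB_eq : ∀ w < 256, ∀ a : Fin 8, szB a w = sz a (toF w) := by decide +kernel

lemma fin_list (ω : Finset (Fin 8)) : ((List.finRange 8).filter (· ∈ ω)).toFinset = ω ∧
    ((List.finRange 8).filter (· ∈ ω)).Nodup :=
  ⟨by ext; simp, (List.nodup_finRange 8).filter _⟩

lemma eps_eq {w w' : ℕ} (h : w < 256) (h' : w' < 256) : eps w w' = ∏ a ∈ toF w, sz a (toF w') := by
  rw [eps, dI_eq w h, List.map_map, ← (fin_list (toF w)).1, List.prod_toFinset _ (fin_list _).2,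
    (fin_list (toF w)).1]
  exact congrArg _ (List.map_congr_left fun a _ => szB_eq w' h' a)

lemma sub_iff {s J : ℕ} (h : sub s J = true) (i : ℕ) : s.testBit i → J.testBit i := by
  rw [← beq_iff_eq.1 h]; simp

lemma sub_le {s J : ℕ} (h : sub s J = true) : s ≤ J := beq_iff_eq.1 h ▸ Nat.and_le_right

lemma xor_lt {s J : ℕ} (hJ : J < 256) (hs : s < 256) : J ^^^ s < 256 :=
  Nat.xor_lt_two_pow (n := 8) hJ hs

lemma sub_disj {s J : ℕ} (h : sub s J = true) :
    Disjoint (toF (J ^^^ s)) (toF s) ∧ toF (J ^^^ s) ∪ toF s = toF J := by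
  refine ⟨disjoint_left.2 fun i h1 h2 => ?_, ?_⟩
  · have := sub_iff h i
    simp_all
  · ext i
    have := sub_iff h i
    cases e : s.testBit i <;> simp_all

variable {k : Type} [Field k] {K : Set (Finset (Fin 8))} {kb : ℕ}

variable (k K) in
noncomputable def ee (J s : ℕ) : Kos k K := mon k K (chi (toF s)) • Bs k K (toF (J ^^^ s))

lemma chi_supp {m : ℕ} (σ : Finset (Fin m)) : (chi σ).support = σ := by ext i; simp [chi_apply]

lemma ee_zero (hK : ∀ n < 256, toF n ∈ K ↔ kb.testBit n) {s : ℕ} (J : ℕ) (hs : s < 256)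
    (h : kb.testBit s = false) : ee k K J s = 0 := by
  rw [ee, mon_eq_zero (by rw [chi_supp, hK s hs]; simp [h]), zero_sm]

lemma dL_sub {J s : ℕ} (hJ : J < 256) (h : sub s J = true) : ∀ x ∈ dL kb J s, sub x.2 J = true := by
  intro x hx
  have hs := (sub_le h).trans_lt hJ
  rw [dL, dI_eq _ (xor_lt hJ hs)] at hx
  simp only [List.mem_filter, List.mem_map, exists_exists_and_eq_and, decide_eq_true_eq] at hx
  obtain ⟨⟨a, ⟨-, ha⟩, rfl⟩, -⟩ := hx
  refine beq_iff_eq.2 (Nat.eq_of_testBit_eq fun i => ?_)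
  have h1 := sub_iff h i
  have h2 := sub_iff h a
  by_cases e : a.1 = i
  · subst e; cases e : s.testBit a <;> simp_all
  · cases e : s.testBit i <;> simp_all [Nat.testBit_two_pow]

lemma d_ee (hK : ∀ n < 256, toF n ∈ K ↔ kb.testBit n) {J s : ℕ} (hJ : J < 256) (h : sub s J = true) :
    dK k K (ee k K J s) = ev (ee k K J) (dL kb J s) := by
  have hs := (sub_le h).trans_lt hJ
  rw [dL, ev_filter, dI_eq _ (xor_lt hJ hs), ee, d_E, ← (fin_list (toF (J ^^^ s))).1,
    List.sum_toFinset _ (fin_list _).2, (fin_list _).1, ev, List.map_map, List.map_map]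
  · refine congrArg _ (List.map_congr_left fun a ha => ?_)
    have ha : a ∈ toF (J ^^^ s) := by simpa using ha
    have hn := disjoint_left.1 (sub_disj h).1 ha
    have e1 : toF (s ||| 2 ^ a.1) = insert a (toF s) := by
      ext i
      simp only [mem_toF, Nat.testBit_or, Nat.testBit_two_pow, mem_insert, Fin.ext_iff, Bool.or_eq_true,
        decide_eq_true_eq]
      exact ⟨fun h => h.symm.imp_left Eq.symm, fun h => (h.imp_left Eq.symm).symm⟩
    have e2 : toF (J ^^^ (s ||| 2 ^ a.1)) = (toF (J ^^^ s)).erase a := by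
      ext i
      have h2 := sub_iff h a
      by_cases e : a = i
      · subst e; cases e : s.testBit a <;> simp_all
      · simp [Nat.testBit_two_pow, Fin.val_ne_of_ne e, Ne.symm e]
    simp only [Function.comp, ee, e1, e2, chi, sum_insert hn, add_comm]
  · intro x hx e
    refine ee_zero hK J ?_ e
    rw [dI_eq _ (xor_lt hJ hs)] at hx
    simp only [List.mem_map, exists_exists_and_eq_and] at hx
    obtain ⟨a, -, rfl⟩ := hx
    exact Nat.or_lt_two_pow (n := 8) hs (Nat.pow_lt_pow_right one_lt_two a.2)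

lemma chi_deg {m : ℕ} (σ : Finset (Fin m)) : (chi σ).degree = σ.card := by simp [chi, map_sum]

lemma ee_deg {J s : ℕ} (hJ : J < 256) (h : sub s J = true) :
    ee k K J s ∈ deg k K (pop (J ^^^ s)) (pop J) := by
  have hs := (sub_le h).trans_lt hJ
  refine Submodule.subset_span ⟨_, _, ?_, ?_, rfl⟩
  · rw [length_sort, pop_eq _ (xor_lt hJ hs)]
  · rw [chi_deg, pop_eq _ (xor_lt hJ hs), pop_eq J hJ, ← (sub_disj h).2,
      card_union_of_disjoint (sub_disj h).1]

lemma ee_mul {J s J' s' : ℕ} : ee k K J s * ee k K J' s' =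
    (∏ a ∈ toF (J ^^^ s), sz a (toF (J' ^^^ s'))) • mon k K (chi (toF s) + chi (toF s')) •
      Bs k K (toF (J ^^^ s) ∪ toF (J' ^^^ s')) := by
  rw [ee, ee, sm_mul, mul_sm, Bs_mul, sm_sm, sm_z, mon_add]

lemma ee_mul1 {J s J' s' : ℕ} (hJ : J < 256) (h : sub s J = true) (hJ' : J' < 256)
    (h' : sub s' J' = true) (hd : J &&& J' = 0) : sub (s ||| s') (J ||| J') = true ∧
      ee k K J s * ee k K J' s' = eps (J ^^^ s) (J' ^^^ s') • ee k K (J ||| J') (s ||| s') := by
  have hb : ∀ i, (s.testBit i → J.testBit i) ∧ (s'.testBit i → J'.testBit i) ∧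
      ¬ (J.testBit i ∧ J'.testBit i) := fun i =>
    ⟨sub_iff h i, sub_iff h' i, by simpa using congrArg (·.testBit i) hd⟩
  refine ⟨beq_iff_eq.2 (Nat.eq_of_testBit_eq fun i => ?_), ?_⟩
  · have := hb i
    simp only [Nat.testBit_and, Nat.testBit_or]
    revert this
    generalize s.testBit i = a, s'.testBit i = b, J.testBit i = c, J'.testBit i = d
    revert a b c d
    decide
  rw [ee_mul, eps_eq (xor_lt hJ ((sub_le h).trans_lt hJ)) (xor_lt hJ' ((sub_le h').trans_lt hJ')), ee]
  congr 3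
  · ext i
    have := hb i
    simp only [Finsupp.add_apply, chi_apply, mem_toF, Nat.testBit_or]
    revert this
    generalize s.testBit i = a, s'.testBit i = b, J.testBit i = c, J'.testBit i = d
    revert a b c d
    decide
  · ext i
    have := hb i
    simp only [mem_union, mem_toF, Nat.testBit_or, Nat.testBit_xor]
    revert this
    generalize s.testBit i = a, s'.testBit i = b, J.testBit i = c, J'.testBit i = d
    revert a b c d
    decide

lemma ee_mul2 {J s J' s' : ℕ} (hJ : J < 256) (h : sub s J = true) (h' : sub s' J' = true)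
    (hd : J &&& J' ≠ 0) : ∃ (c : ℤ) (ω : Finset (Fin 8)) (b : Fin 8 →₀ ℕ),
      ee k K J s * ee k K J' s' = c • mon k K b • Bs k K ω ∧ (c = 0 ∨ ∃ i, 2 ≤ al ω b i) := by
  refine ⟨_, _, _, ee_mul, ?_⟩
  obtain ⟨i, hi⟩ := Nat.exists_testBit_of_ne_zero hd
  rw [Nat.testBit_and, Bool.and_eq_true] at hi
  have i8 : i < 8 := by
    by_contra n
    rw [Nat.testBit_lt_two_pow (hJ.trans_le (Nat.pow_le_pow_right two_pos (not_lt.1 n)))] at hi
    simp at hi
  by_cases e : s.testBit i = false ∧ s'.testBit i = false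
  · exact Or.inl (prod_eq_zero (i := ⟨i, i8⟩) (by simp [e, hi]) (by simp [sz, e, hi]))
  · refine Or.inr ⟨⟨i, i8⟩, ?_⟩
    simp only [al, Finsupp.add_apply, chi_apply, mem_union, mem_toF, Nat.testBit_xor, hi]
    revert e
    generalize s.testBit i = a, s'.testBit i = b
    revert a b
    decide

end Pool.Agent.H81.Tor
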