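import Pool.Agent.H81.Tor3

set_option autoImplicit false

open Finset

namespace Pool.Agent.H81.Tor

abbrev Tab := List (ℕ × Ls × Ls)

def look (kb : ℕ) (tab : Tab) (s : ℕ) : Ls × Ls :=
  if kb.testBit s then (tab.lookup s).getD ([], []) else ([], [])

def dgN (t : ℕ) : ℕ × ℕ := if t = 0 then (0, 0) else if t ≤ 16 then (1, 3) else if t ≤ 46 then (2, 4)
  else if t ≤ 62 then (3, 5) else (4, 8)

def mtN (s t : ℕ) : Ls := if s = 0 then [(1, t)] else if t = 0 then [(1, s)] else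
  if s + t = 63 then [(if s ≤ 46 then 1 else -1, 63)] else []

def chkS (kb : ℕ) (rp : ℕ → ℕ × Ls) (tab : Tab) (J s : ℕ) : Bool :=
  (look kb tab s).1.all (fun x => sub x.2 J) &&
  (look kb tab s).2.all (fun x => decide (x.2 < 64) && (rp x.2).1 == J &&
    dgN x.2 == (pop (J ^^^ s), pop J)) &&
  zr (bnd (dL kb J) (look kb tab s).1 ++ (bnd (fun s => (look kb tab s).1) (dL kb J s) ++
    (bnd (fun t => (rp t).2) (look kb tab s).2 ++ [(-1, s)]))) &&
  zr (bnd (fun s => (look kb tab s).2) (dL kb J s))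

def chkJ (kb : ℕ) (rp : ℕ → ℕ × Ls) (tab : Tab) (J : ℕ) : Bool :=
  (List.range 256).all fun s => !(sub s J && kb.testBit s) || chkS kb rp tab J s

def chkR (kb : ℕ) (rp : ℕ → ℕ × Ls) (tabs : ℕ → Tab) (t : ℕ) : Bool :=
  decide ((rp t).1 < 256) &&
  (rp t).2.all (fun x => sub x.2 (rp t).1 && dgN t == (pop ((rp t).1 ^^^ x.2), pop (rp t).1)) &&
  zr (bnd (dL kb (rp t).1) (rp t).2) &&
  zr (bnd (fun s => (look kb (tabs (rp t).1) s).2) (rp t).2 ++ [(-1, t)])

def chkM (kb : ℕ) (rp : ℕ → ℕ × Ls) (tabs : ℕ → Tab) (s t : ℕ) : Bool :=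
  if (rp s).1 &&& (rp t).1 = 0 then
    zr (bnd (fun x => bnd (fun y => sc (eps ((rp s).1 ^^^ x) ((rp t).1 ^^^ y))
      (look kb (tabs ((rp s).1 ||| (rp t).1)) (x ||| y)).2) (rp t).2) (rp s).2 ++ sc (-1) (mtN s t))
  else (mtN s t).isEmpty

variable (k : Type) [Field k] in
def gg (t : ℕ) : Fin 64 → k := fun t' => if t'.1 = t then 1 else 0

lemma gg_eq {k : Type} [Field k] (t : Fin 64) : gg k t = Pi.single t 1 := by
  ext t'; simp [gg, Pi.single_apply, Fin.ext_iff]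

lemma ev_mul {k A N : Type} [Field k] [Ring A] [Algebra k A] [AddCommGroup N] [Module k N]
    (φ : A →ₗ[k] N) (g g' : ℕ → A) (q : ℕ → N) (f : ℕ → ℕ → Ls) (l l' : Ls)
    (h : ∀ x ∈ l, ∀ y ∈ l', φ (g x.2 * g' y.2) = ev q (f x.2 y.2)) :
    φ (ev g l * ev g' l') = ev q (bnd (fun x => bnd (f x) l') l) :=
  ev_bnd g (φ.comp (LinearMap.mulRight k (ev g' l'))) q _ l fun x hx =>
    ev_bnd g' (φ.comp (LinearMap.mulLeft k (g x.2))) q _ l' fun y hy => h x hx y hy

lemma ev_mul0 {k A N : Type} [Field k] [Ring A] [Algebra k A] [AddCommGroup N] [Module k N]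
    (φ : A →ₗ[k] N) (g g' : ℕ → A) (l l' : Ls) (h : ∀ x ∈ l, ∀ y ∈ l', φ (g x.2 * g' y.2) = 0) :
    φ (ev g l * ev g' l') = 0 :=
  ev_mem g (LinearMap.ker (φ.comp (LinearMap.mulRight k (ev g' l')))) l fun x hx =>
    ev_mem g' (LinearMap.ker (φ.comp (LinearMap.mulLeft k (g x.2)))) l' fun y hy => h x hx y hy

theorem sd_chk (k : Type) [Field k] {K : Set (Finset (Fin 8))} {kb : ℕ} (hK : ∀ σ ∈ K, ∀ τ ⊆ σ, τ ∈ K)
    (hb : ∀ n < 256, toF n ∈ K ↔ kb.testBit n) (rp : ℕ → ℕ × Ls) (tabs : ℕ → Tab)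
    (c0 : rp 0 = (0, [(1, 0)])) (c1 : ∀ J < 256, chkJ kb rp (tabs J) J = true)
    (c2 : ∀ t < 64, chkR kb rp tabs t = true) (c3 : ∀ s < 64, ∀ t < 64, chkM kb rp tabs s t = true) :
    SD k K (fun t : Fin 64 => dgN t) (fun s t => ev (gg k) (mtN s t)) (gg k 0) := by
  have nf : ∀ (tab : Tab) σ, σ ∉ K → look kb tab (msk σ) = ([], []) := fun tab σ h => by
    rw [look, if_neg fun e => h ((toF_msk σ).1 ▸ (hb _ (toF_msk σ).2).2 e)]
  obtain ⟨p, h, h1, h2⟩ := sqf (k := k) hK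
    (fun ω σ => ev (gg k) (look kb (tabs (msk (ω ∪ σ))) (msk σ)).2)
    (fun ω σ => ev (ee k K (msk (ω ∪ σ))) (look kb (tabs (msk (ω ∪ σ))) (msk σ)).1)
    (fun ω σ h => by rw [nf _ σ h]; rfl) (fun ω σ h => by rw [nf _ σ h]; rfl)
  have h3 : ∀ J < 256, ∀ s, sub s J = true → p (ee k K J s) = ev (gg k) (look kb (tabs J) s).2 ∧
      h (ee k K J s) = ev (ee k K J) (look kb (tabs J) s).1 := fun J hJ s hs => by
    have := h1 _ _ (sub_disj hs).1
    rwa [(sub_disj hs).2, msk_toF J hJ, msk_toF s ((sub_le hs).trans_lt hJ)] at this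
  have h4 : ∀ ω σ, Disjoint ω σ → ∃ J < 256, ∃ s, sub s J = true ∧
      mon k K (chi σ) • Bs k K ω = ee k K J s ∧ pop (J ^^^ s) = ω.card ∧ pop J = ω.card + σ.card := by
    intro ω σ hd
    have e1 : ∀ i : Fin 8, (msk (ω ∪ σ)).testBit i ↔ i ∈ ω ∪ σ := fun i => by
      rw [← mem_toF, (toF_msk _).1]
    have e2 : ∀ i : Fin 8, (msk σ).testBit i ↔ i ∈ σ := fun i => by rw [← mem_toF, (toF_msk _).1]
    have e3 : toF (msk (ω ∪ σ) ^^^ msk σ) = ω := by
      ext i
      have a1 := e1 i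
      have a2 := e2 i
      have a3 : i ∈ ω → i ∉ σ := fun h => disjoint_left.1 hd h
      rw [mem_union] at a1
      rw [mem_toF, Nat.testBit_xor]
      revert a1 a2
      cases (msk (ω ∪ σ)).testBit i <;> cases (msk σ).testBit i <;> simp <;> tauto
    refine ⟨_, (toF_msk (ω ∪ σ)).2, msk σ, ?_, by rw [ee, e3, (toF_msk _).1], ?_, ?_⟩
    · refine beq_iff_eq.2 ?_
      rw [← msk_toF (msk σ &&& _) (Nat.and_le_left.trans_lt (toF_msk _).2)]
      congr 1
      ext i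
      simp only [mem_toF, Nat.testBit_and, Bool.and_eq_true, e1, e2, mem_union]
      tauto
    · rw [pop_eq _ (xor_lt (toF_msk _).2 (toF_msk _).2), e3]
    · rw [pop_eq _ (toF_msk _).2, (toF_msk _).1, card_union_of_disjoint hd]
  set i : (Fin 64 → k) →ₗ[k] Kos k K :=
    Fintype.linearCombination k fun t : Fin 64 => ev (ee k K (rp t).1) (rp t).2
  have i1 : ∀ t < 64, i (gg k t) = ev (ee k K (rp t).1) (rp t).2 := fun t ht => by
    rw [gg_eq ⟨t, ht⟩]; simp [i]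
  have cS : ∀ J < 256, ∀ s, sub s J = true → ee k K J s = 0 ∧ look kb (tabs J) s = ([], []) ∨
      chkS kb rp (tabs J) J s = true := fun J hJ s hs => by
    have hs' := (sub_le hs).trans_lt hJ
    have := List.all_eq_true.1 (c1 J hJ) s (List.mem_range.2 hs')
    cases e : kb.testBit s
    · exact Or.inl ⟨ee_zero hb J hs' e, by simp [look, e]⟩
    · exact Or.inr (by simpa [hs, e] using this)
  simp only [chkS, chkR, Bool.and_eq_true, List.all_eq_true, decide_eq_true_eq, beq_iff_eq] at cS c2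
  have ex : ∀ {N : Type} [AddCommGroup N] [Module k N] (φ ψ : (Fin 64 → k) →ₗ[k] N),
      (∀ t < 64, φ (gg k t) = ψ (gg k t)) → ∀ β, φ β = ψ β := fun φ ψ h =>
    LinearMap.congr_fun (LinearMap.pi_ext' fun t => LinearMap.ext_ring (by simpa [gg_eq] using h t t.2))
  have pd : p.comp (dK k K) = 0 := ext_K fun ω b => by
    rcases sqf_cases ω b with e | ⟨σ, e, rfl⟩
    · exact (h2 ω b e).2.1
    obtain ⟨J, hJ, s, hs, e, -⟩ := h4 ω σ e
    rw [e]
    rcases cS J hJ s hs with c | c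
    · simp [c.1]
    · rw [LinearMap.comp_apply, d_ee hb hJ hs, ev_bnd _ p (gg k) (fun s => (look kb (tabs J) s).2) _
        fun x hx => (h3 J hJ _ (dL_sub hJ hs x hx)).1, ev_zr _ c.2]
      rfl
  have ht : LinearMap.id = (dK k K).comp h + h.comp (dK k K) + i.comp p := ext_K fun ω b => by
    simp only [LinearMap.id_apply, LinearMap.add_apply, LinearMap.comp_apply]
    rcases sqf_cases ω b with e | ⟨σ, e, rfl⟩
    · rw [(h2 ω b e).1, map_zero, add_zero]; exact (h2 ω b e).2.2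
    obtain ⟨J, hJ, s, hs, e, -⟩ := h4 ω σ e
    rw [e]
    rcases cS J hJ s hs with c | c
    · simp [c.1]
    · have := ev_zr (ee k K J) c.1.2
      rw [(h3 J hJ s hs).1, (h3 J hJ s hs).2, d_ee hb hJ hs,
        ev_bnd _ (dK k K) _ _ _ fun x hx => d_ee hb hJ (c.1.1.1 x hx),
        ev_bnd _ h (ee k K J) (fun s => (look kb (tabs J) s).1) _ fun x hx => (h3 J hJ _ (dL_sub hJ hs x hx)).2,
        ev_bnd _ i (ee k K J) (fun t => (rp t).2) _ fun x hx => by
          rw [i1 _ (c.1.1.2 x hx).1.1, (c.1.1.2 x hx).1.2]]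
      simp only [ev_app, ev_cons, ev_nil, neg_smul, one_smul, add_zero] at this
      rw [← sub_eq_zero, ← neg_eq_zero, ← this]
      abel
  have pi : ∀ β, p (i β) = β := ex (p.comp i) LinearMap.id fun t ht => by
    have c := c2 t ht
    have := ev_zr (gg k) c.2
    rw [LinearMap.comp_apply, i1 t ht, ev_bnd _ p (gg k) (fun s => (look kb (tabs (rp t).1) s).2) _
      fun x hx => (h3 _ c.1.1.1 _ (c.1.1.2 x hx).1).1]
    simp only [ev_app, ev_cons, ev_nil, neg_smul, one_smul, add_zero] at this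
    exact add_neg_eq_zero.1 this
  refine ⟨p, i, ex ((dK k K).comp i) 0 fun t ht => ?_, LinearMap.congr_fun pd, pi, fun z hz => ⟨h z, ?_⟩,
    fun a b x hx t ht => ?_, fun t => ?_, fun s t => ?_, ?_⟩
  · have c := c2 t ht
    rw [LinearMap.comp_apply, i1 t ht, ev_bnd _ (dK k K) _ _ _ fun x hx =>
      d_ee hb c.1.1.1 (c.1.1.2 x hx).1, ev_zr _ c.1.2]
    rfl
  · simpa [hz] using LinearMap.congr_fun ht z
  · refine Submodule.span_le.2 (?_ : _ ⊆ ((LinearMap.ker ((LinearMap.proj t).comp p) :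
      Submodule k (Kos k K)) : Set (Kos k K))) hx
    rintro _ ⟨β, l, rfl, rfl, rfl⟩
    obtain ⟨c, ω, e1, e2⟩ := list_Bs (k := k) (K := K) l
    show p _ t = 0
    rw [e1, sm_z, map_zsmul]
    rcases e2 with rfl | e2
    · simp
    rcases sqf_cases ω β with e | ⟨σ, e, rfl⟩
    · simp [(h2 ω β e).1]
    obtain ⟨J, hJ, s, hs, e, e3, e4⟩ := h4 ω σ e
    rw [e, (h3 J hJ s hs).1]
    rcases cS J hJ s hs with c' | c'
    · simp [c'.2]
    · have := ev_mem (gg k) (LinearMap.ker (LinearMap.proj t : (Fin 64 → k) →ₗ[k] k)) _ fun x hx => by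
        have := (c'.1.1.2 x hx).2
        rw [e3, e4, e2, ← chi_deg] at this
        exact if_neg fun e => ht (by rw [← this, ← e])
      rw [Pi.smul_apply, show ev (gg k) _ t = 0 from this, smul_zero]
  · have c := c2 t t.2
    rw [← gg_eq, i1 t t.2]
    exact ev_mem _ _ _ fun x hx => by
      simp only [(c.1.1.2 x hx).2]; exact ee_deg c.1.1.1 (c.1.1.2 x hx).1
  · have cs := (c2 s s.2).1.1
    have ct := (c2 t t.2).1.1
    have c := c3 s s.2 t t.2
    rw [← gg_eq, ← gg_eq, i1 s s.2, i1 t t.2]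
    unfold chkM at c
    beta_reduce
    split_ifs at c with e
    · have := ev_zr (gg k) c
      rw [ev_app, ev_sc, neg_smul, one_smul, add_neg_eq_zero] at this
      rw [← this]
      refine ev_mul p _ _ _ (fun x y => sc (eps ((rp s).1 ^^^ x) ((rp t).1 ^^^ y))
        (look kb (tabs ((rp s).1 ||| (rp t).1)) (x ||| y)).2) _ _ fun x hx y hy => ?_
      obtain ⟨m1, m2⟩ := ee_mul1 (k := k) (K := K) cs.1 (cs.2 x hx).1 ct.1 (ct.2 y hy).1 e
      rw [m2, map_zsmul, ev_sc,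
        (h3 _ (Nat.or_lt_two_pow (n := 8) cs.1 ct.1) _ m1).1]
    · rw [List.isEmpty_iff.1 c]
      refine ev_mul0 p _ _ _ _ fun x hx y hy => ?_
      obtain ⟨c, ω, b, m1, m2⟩ := ee_mul2 (k := k) (K := K) cs.1 (cs.2 x hx).1 (ct.2 y hy).1 e
      rw [m1, map_zsmul]
      rcases m2 with rfl | m2
      · simp
      · rw [(h2 ω b m2).1, smul_zero]
  · rw [← pi (gg k 0), i1 0 (by norm_num), c0]
    congr 1
    have : toF 0 = ∅ := by decide
    simp [ee, this, chi, Bs, mon_zero]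

end Pool.Agent.H81.Tor
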