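import Pool.Agent.H81.Tor3

set_option autoImplicit false

open Finset Matrix
open scoped symmDiff

namespace Pool.Agent.H81.Tor

def cx (X : Fin 8 → Fin 4 → ℤ) : Fin 8 → Fin 4 → ℝ := fun i j => X i j

def chkG (X : Fin 8 → Fin 4 → ℤ) (kb : ℕ) (fd : List (ℕ × (Fin 4 → ℤ) × ℤ)) (ml : List (Fin 8 → ℤ)) :
    Prop :=
  (∀ e ∈ fd, e.1 ≠ 255 ∧ ∀ i : Fin 8, (e.1.testBit i → e.2.1 ⬝ᵥ X i = e.2.2) ∧
    (¬ e.1.testBit i → e.2.1 ⬝ᵥ X i < e.2.2)) ∧
  (∀ ν ∈ ml, ∑ i, ν i = 0 ∧ ∀ j, ∑ i, ν i * X i j = 0) ∧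
  (∀ n < 256, (kb.testBit n → ∃ e ∈ fd, e.1 = n) ∧
    (¬ kb.testBit n → n = 255 ∨ ∃ ν ∈ ml, ∀ i : Fin 8, ¬ n.testBit i → ν i < 0)) ∧
  (∀ n < 256, kb.testBit n → ∀ i < 8, kb.testBit (n &&& (255 ^^^ 2 ^ i))) ∧
  kb.testBit 15 ∧ ∀ i < 8, kb.testBit (2 ^ i)

lemma toF_255 : toF 255 = univ := by decide

lemma ai {x : Fin 8 → Fin 4 → ℝ} (hK : ∀ σ ∈ bd x, ∀ τ ⊆ σ, τ ∈ bd x) {σ : Finset (Fin 8)}
    (hσ : σ ∈ bd x) (j : Fin 8) {T : Finset (Fin 8)} (hT : T ⊆ insert j σ) :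
    AffineIndependent ℝ fun i : T => x i := by
  refine (affineIndependent_iff_of_fintype _ _).2 fun w w1 w2 => ?_
  rw [weightedVSub_eq_linear_combination _ w1] at w2
  have key : ∀ τ ⊆ σ, ∀ i : T, i.1 ∉ τ → (∀ l : T, l ≠ i → l.1 ∈ τ ∨ w l = 0) → w i = 0 := by
    intro τ hτ i hi hl
    obtain ⟨-, a, c, t1, t2⟩ := hK σ hσ τ hτ
    have e := congrArg (a ⬝ᵥ ·) w2
    simp only [dotProduct_sum, dotProduct_smul, smul_eq_mul, dotProduct_zero] at e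
    have : ∑ l : T, w l * (c - a ⬝ᵥ x l) = 0 := by
      simp only [mul_sub, sum_sub_distrib, ← sum_mul, w1, e]; simp
    rw [sum_eq_single i (fun l _ n => by rcases hl l n with h | h <;> simp [h, t1]) (by simp)] at this
    exact (mul_eq_zero.1 this).resolve_right (sub_pos.2 (t2 i hi)).ne'
  have k1 : ∀ i : T, i.1 ∉ σ → w i = 0 := fun i hi => key σ Subset.rfl i hi fun l n => Or.inl <|
    (mem_insert.1 (hT l.2)).resolve_left fun e =>
      n (Subtype.ext (e.trans ((mem_insert.1 (hT i.2)).resolve_right hi).symm))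
  intro i
  refine key (σ.erase i) (erase_subset _ _) i (by simp) fun l n => ?_
  by_cases h : l.1 ∈ σ
  · exact Or.inl (mem_erase.2 ⟨fun e => n (Subtype.ext e), h⟩)
  · exact Or.inr (k1 l h)

theorem geo {X : Fin 8 → Fin 4 → ℤ} {kb : ℕ} {fd : List (ℕ × (Fin 4 → ℤ) × ℤ)} {ml : List (Fin 8 → ℤ)}
    (h : chkG X kb fd ml) : (∀ n < 256, toF n ∈ bd (cx X) ↔ kb.testBit n) ∧
      (∀ σ ∈ bd (cx X), ∀ τ ⊆ σ, τ ∈ bd (cx X)) ∧ Simplicial (cx X) := by
  obtain ⟨h1, h2, h3, h4, h5, h6⟩ := h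
  have hb : ∀ n < 256, toF n ∈ bd (cx X) ↔ kb.testBit n := fun n hn => by
    constructor
    · rintro ⟨s0, a, c, t1, t2⟩
      by_contra k
      rcases (h3 n hn).2 k with rfl | ⟨ν, n1, n2⟩
      · exact s0 toF_255
      have e1 : ∑ i, (ν i : ℝ) = 0 := by exact_mod_cast (h2 ν n1).1
      have e2 : ∑ i, (ν i : ℝ) • cx X i = 0 := by
        ext j
        simp only [Finset.sum_apply, Pi.smul_apply, cx, smul_eq_mul, Pi.zero_apply]
        exact_mod_cast (h2 ν n1).2 j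
      have e := congrArg (a ⬝ᵥ ·) e2
      simp only [dotProduct_sum, dotProduct_smul, smul_eq_mul, dotProduct_zero] at e
      have : ∑ l, (ν l : ℝ) * (c - a ⬝ᵥ cx X l) = 0 := by
        simp only [mul_sub, sum_sub_distrib, ← sum_mul, e1, e]; simp
      obtain ⟨i, -, hi⟩ := exists_of_ssubset (ssubset_univ_iff.2 s0)
      have neg : ∀ i ∉ toF n, (ν i : ℝ) * (c - a ⬝ᵥ cx X i) < 0 := fun i hi =>
        mul_neg_of_neg_of_pos (by exact_mod_cast n2 i (by simpa using hi)) (sub_pos.2 (t2 i hi))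
      refine (sum_neg' (fun l _ => ?_) ⟨i, mem_univ _, neg i hi⟩).ne this
      by_cases hl : l ∈ toF n
      · simp [t1 l hl]
      · exact (neg l hl).le
    · intro k
      obtain ⟨e, e1, rfl⟩ := (h3 n hn).1 k
      have cs : ∀ i, (fun j => (e.2.1 j : ℝ)) ⬝ᵥ cx X i = ((e.2.1 ⬝ᵥ X i : ℤ) : ℝ) := fun i => by
        simp [dotProduct, cx]
      refine ⟨fun q => (h1 e e1).1 (by rw [← msk_toF _ hn, q, ← toF_255, msk_toF _ (by norm_num)]),
        fun j => e.2.1 j, e.2.2, fun i hi => ?_, fun i hi => ?_⟩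
      · rw [cs, ((h1 e e1).2 i).1 (by simpa using hi)]
      · rw [cs]; exact_mod_cast ((h1 e e1).2 i).2 (by simpa using hi)
  have hE : ∀ σ ∈ bd (cx X), ∀ i, σ.erase i ∈ bd (cx X) := fun σ hσ i => by
    rw [← (toF_msk σ).1, hb _ (toF_msk _).2] at hσ
    have e : ∀ i j : Fin 8, (255 ^^^ 2 ^ i.1).testBit j = decide (j ≠ i) := by decide
    convert (hb _ (Nat.and_le_left.trans_lt (toF_msk σ).2)).2 (h4 _ (toF_msk _).2 hσ i i.2) using 1
    ext j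
    rw [mem_toF, Nat.testBit_and, e, Bool.and_eq_true, ← mem_toF, (toF_msk _).1, mem_erase]
    simp [and_comm]
  have hK : ∀ σ ∈ bd (cx X), ∀ τ ⊆ σ, τ ∈ bd (cx X) := fun σ hσ τ hτ => by
    have : ∀ D : Finset (Fin 8), σ \ D ∈ bd (cx X) := fun D => by
      induction D using Finset.induction_on with
      | empty => simpa using hσ
      | insert a D _ ih => rw [sdiff_insert]; exact hE _ ih a
    exact Finset.sdiff_sdiff_eq_self hτ ▸ this (σ \ τ)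
  refine ⟨hb, hK, ?_, fun i => ?_, fun σ hσ => ai hK hσ 0 (subset_insert _ _)⟩
  · have := ai hK ((hb 15 (by norm_num)).2 h5) 4 Subset.rfl
    refine top_le_iff.1 ((this.affineSpan_eq_top_iff_card_eq_finrank_add_one.2 (by
      simp only [Fintype.card_coe, Module.finrank_fintype_fun_eq_card, Fintype.card_fin]
      decide)).ge.trans (affineSpan_mono _ ?_))
    rintro _ ⟨i, rfl⟩
    exact ⟨_, rfl⟩
  · have : ∀ i : Fin 8, toF (2 ^ i.1) = {i} := by decide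
    exact this i ▸ (hb _ (Nat.pow_lt_pow_right one_lt_two i.2)).2 (h6 i i.2)

def Code (K : Set (Finset (Fin 8))) (r : ℕ) : Prop := ∃ S : (Fin r → Bool) → Finset (Fin 8),
  (∀ x y, S (fun j => xor (x j) (y j)) = S x ∆ S y) ∧ ∀ x, S x ∈ K → ∀ j, x j = false

lemma code {Γ : Type} [CommGroup Γ] (n : Γ) (n1 : n ≠ 1) (n2 : n * n = 1)
    (n3 : ∀ x : Γ, x * x = 1 → x = 1 ∨ x = n) {K : Set (Finset (Fin 8))} {r : ℕ}
    (φ : (Fin r → Γ) →* (Fin 8 → Γ)) (h : ∀ t, ∀ σ ∈ K, (∀ i ∉ σ, φ t i = 1) → t = 1) : Code K r := by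
  classical
  set τ : (Fin r → Bool) → Fin r → Γ := fun x j => if x j then n else 1
  have t1 : ∀ x y, τ (fun j => xor (x j) (y j)) = τ x * τ y := fun x y => by
    ext j; cases e : x j <;> cases e' : y j <;> simp [τ, e, e', n2]
  have t2 : ∀ x i, φ (τ x) i = 1 ∨ φ (τ x) i = n := fun x i => n3 _ (by
    rw [← Pi.mul_apply, ← map_mul, ← t1, show (τ fun j => xor (x j) (x j)) = 1 by ext; simp [τ], map_one]
    rfl)
  refine ⟨fun x => univ.filter fun i => φ (τ x) i ≠ 1, fun x y => ?_, fun x hx j => ?_⟩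
  · ext i
    simp only [t1, map_mul]
    rcases t2 x i with e | e <;> rcases t2 y i with e' | e' <;> simp [mem_symmDiff, e, e', n1, n2]
  · have := congrFun (h (τ x) _ hx (by simp)) j
    cases e : x j <;> simp_all [τ]

lemma Code.le {K : Set (Finset (Fin 8))} (h0 : ∅ ∈ K) {r : ℕ} (h : Code K r) : r ≤ 8 := by
  obtain ⟨S, s1, s2⟩ := h
  have : Function.Injective S := fun x y e => by
    ext j
    have := s2 _ (by rw [s1 x y, e, symmDiff_self]; exact h0) j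
    revert this
    cases x j <;> cases y j <;> simp
  have := Fintype.card_le_of_injective S this
  simp only [Fintype.card_fun, Fintype.card_bool, Fintype.card_fin, Fintype.card_finset] at this
  exact (Nat.pow_le_pow_iff_right one_lt_two).1 this

lemma msk_sd (σ τ : Finset (Fin 8)) : msk (σ ∆ τ) = msk σ ^^^ msk τ := by
  rw [← msk_toF _ (xor_lt (toF_msk σ).2 (toF_msk τ).2)]
  congr 1
  ext i
  have e : ∀ σ, i ∈ σ ↔ (msk σ).testBit i := fun σ => by rw [← mem_toF, (toF_msk _).1]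
  rw [mem_toF, Nat.testBit_xor, mem_symmDiff, e σ, e τ]
  cases (msk σ).testBit i <;> cases (msk τ).testBit i <;> simp

def gd (kb n : ℕ) : Prop := kb.testBit n → n = 0

instance (kb n : ℕ) : Decidable (gd kb n) := by unfold gd; infer_instance

def N4 (kb a b c : ℕ) : Prop := ∀ d < 144, ¬ (128 ≤ d ∧ gd kb d ∧ gd kb (a ^^^ d) ∧ gd kb (b ^^^ d) ∧
  gd kb (c ^^^ d) ∧ gd kb (a ^^^ b ^^^ d) ∧ gd kb (a ^^^ c ^^^ d) ∧ gd kb (b ^^^ c ^^^ d) ∧
  gd kb (a ^^^ b ^^^ c ^^^ d))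

instance (kb a b c : ℕ) : Decidable (N4 kb a b c) := by unfold N4; infer_instance

def NoCode (kb : ℕ) : Prop := ∀ a < 32, (16 ≤ a ∧ gd kb a) → ∀ b < 48, (32 ≤ b ∧ gd kb b ∧
  gd kb (a ^^^ b)) → ∀ c < 80, (64 ≤ c ∧ gd kb c ∧ gd kb (a ^^^ c) ∧ gd kb (b ^^^ c) ∧
  gd kb (a ^^^ b ^^^ c)) → N4 kb a b c

set_option synthInstance.maxSize 1000 in
instance (kb : ℕ) : Decidable (NoCode kb) := by unfold NoCode; infer_instance

lemma Code.lt {K : Set (Finset (Fin 8))} {kb : ℕ} (hK : ∀ σ ∈ K, ∀ τ ⊆ σ, τ ∈ K)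
    (hb : ∀ n < 256, toF n ∈ K ↔ kb.testBit n) (h15 : kb.testBit 15) (hn : NoCode kb) {r : ℕ}
    (h : Code K r) : r ≤ 3 := by
  by_contra hr
  obtain ⟨S0, s1, s2⟩ := h
  obtain ⟨S, s1, s2⟩ : Code K 4 := by
    refine ⟨fun x => S0 fun j => if h : j.1 < 4 then x ⟨j, h⟩ else false, fun x y => ?_, fun x hx j => ?_⟩
    · rw [← s1]; refine congrArg S0 (funext fun j => ?_); split_ifs <;> simp
    · simpa using s2 _ hx ⟨j, by omega⟩
  have inj : Function.Injective fun (x : Fin 4 → Bool) (j : Fin 4) =>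
      decide (Fin.natAdd 4 j ∈ S x) := fun x y e => by
    ext j
    have : S x ∆ S y ⊆ toF 15 := fun i hi => by
      have := fun j => decide_eq_decide.1 (congrFun e j)
      simp only [Fin.forall_fin_succ] at this
      rw [mem_symmDiff] at hi
      fin_cases i <;> first | decide | (exfalso; simp at this hi; tauto)
    have := s2 _ (by rw [s1]; exact hK _ ((hb 15 (by norm_num)).2 h15) _ this) j
    revert this
    cases x j <;> cases y j <;> simp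
  have g1 : ∀ x, gd kb (msk (S x)) := fun x e => by
    have := s2 x ((toF_msk (S x)).1 ▸ (hb _ (toF_msk _).2).2 e)
    have e2 := s1 x x
    rw [show (fun j => xor (x j) (x j)) = x by ext j; simp [this j], symmDiff_self] at e2
    rw [e2]; rfl
  have g2 : ∀ j : Fin 4, ∃ x, msk (S x) < 16 * 2 ^ j.1 + 16 ∧ 16 * 2 ^ j.1 ≤ msk (S x) := fun j => by
    obtain ⟨x, hx⟩ := Finite.injective_iff_surjective.1 inj fun i => decide (i = j)
    have : ∀ n < 256, ∀ j : Fin 4, (∀ i : Fin 4, Fin.natAdd 4 i ∈ toF n ↔ i = j) →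
      n < 16 * 2 ^ j.1 + 16 ∧ 16 * 2 ^ j.1 ≤ n := by decide +kernel
    exact ⟨x, this _ (toF_msk _).2 j fun i => by
      rw [(toF_msk _).1]; exact decide_eq_decide.1 (congrFun hx i)⟩
  obtain ⟨a, a1, a2⟩ := g2 0
  obtain ⟨b, b1, b2⟩ := g2 1
  obtain ⟨c, c1, c2⟩ := g2 2
  obtain ⟨d, d1, d2⟩ := g2 3
  refine hn _ a1 ⟨a2, ?_⟩ _ b1 ⟨b2, ?_, ?_⟩ _ c1 ⟨c2, ?_, ?_, ?_, ?_⟩ _ d1
    ⟨d2, ?_, ?_, ?_, ?_, ?_, ?_, ?_, ?_⟩ <;>
    simp only [← msk_sd, ← s1, g1]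

lemma free4 {Γ : Type} [CommGroup Γ] (c : Fin 8 → Fin 4 → ℤ) (g : Fin 4 → Fin 8 → ℤ)
    (h : ∀ j l, ∑ i, c i l * g j i = if j = l then 1 else 0) (t : Fin 4 → Γ)
    (ht : ∀ i, (∀ j, g j i = 0) ∨ ∏ l, t l ^ c i l = 1) : t = 1 := by
  ext j
  have : ∏ i, (∏ l, t l ^ c i l) ^ g j i = 1 := prod_eq_one fun i _ => by
    rcases ht i with e | e <;> simp [e]
  simp only [← prod_zpow, ← _root_.zpow_mul] at this
  rw [prod_comm] at this
  have zs : ∀ (x : Γ) (f : Fin 8 → ℤ), ∏ i, x ^ f i = x ^ ∑ i, f i := fun x f => by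
    simp [Fin.prod_univ_eight, Fin.sum_univ_eight, _root_.zpow_add]
  simp only [zs, h] at this
  simpa using this

def hom4 (Γ : Type) [CommGroup Γ] (c : Fin 8 → Fin 4 → ℤ) : (Fin 4 → Γ) →* (Fin 8 → Γ) where
  toFun t i := ∏ l, t l ^ c i l
  map_one' := by ext; simp
  map_mul' s t := by ext; simp [mul_zpow, prod_mul_distrib]

lemma code_C {K : Set (Finset (Fin 8))} {r : ℕ} (φ : (Fin r → Circle) →* (Fin 8 → Circle))
    (h : ∀ t, ∀ z ∈ ZK K, (∀ i, (φ t i : ℂ) * z i = z i) → t = 1) : Code K r :=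
  code (-1) (Circle.neg_ne_self 1) (by simp) (fun x hx => by
    have := congrArg (fun z : Circle => (z : ℂ)) hx
    simpa [mul_self_eq_one_iff, Circle.ext_iff] using this) φ fun t σ hσ e =>
      h t (fun i => if i ∈ σ then 0 else 1) ⟨σ, hσ, fun i => by by_cases k : i ∈ σ <;> simp [k]⟩ fun i => by
        split_ifs with k <;> simp [e i, k]

lemma code_R {K : Set (Finset (Fin 8))} {r : ℕ} (φ : (Fin r → ℤˣ) →* (Fin 8 → ℤˣ))
    (h : ∀ t, ∀ x ∈ RZK K, (∀ i, ((φ t i : ℤ) : ℝ) * x i = x i) → t = 1) : Code K r :=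
  code (-1) (by decide) (by simp) (fun x _ => Int.units_eq_one_or x) φ fun t σ hσ e =>
    h t (fun i => if i ∈ σ then 0 else 1) ⟨σ, hσ, fun i => by by_cases k : i ∈ σ <;> simp [k]⟩ fun i => by
      split_ifs with k <;> simp [e i, k]

theorem buch_le {K : Set (Finset (Fin 8))} (h : ∀ r, Code K r → r ≤ 3) : buch K ≤ 3 ∧ buchR K ≤ 3 :=
  ⟨csSup_le' fun r ⟨φ, _, k⟩ => h r (code_C φ k), csSup_le' fun r ⟨φ, k⟩ => h r (code_R φ k)⟩

theorem buch_ge {K : Set (Finset (Fin 8))} (h0 : ∅ ∈ K) (c : Fin 8 → Fin 4 → ℤ)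
    (h : ∀ σ ∈ K, ∃ g : Fin 4 → Fin 8 → ℤ, (∀ j l, ∑ i, c i l * g j i = if j = l then 1 else 0) ∧
      ∀ i ∈ σ, ∀ j, g j i = 0) : 4 ≤ buch K ∧ 4 ≤ buchR K := by
  refine ⟨le_csSup ⟨8, fun r ⟨φ, _, k⟩ => (code_C φ k).le h0⟩ ⟨hom4 _ c, ?_, ?_⟩,
    le_csSup ⟨8, fun r ⟨φ, k⟩ => (code_R φ k).le h0⟩ ⟨hom4 _ c, ?_⟩⟩
  · exact continuous_pi fun i => continuous_finset_prod univ (f := fun l (t : Fin 4 → Circle) =>
      t l ^ c i l) fun l _ => (continuous_apply l).zpow _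
  · rintro t z ⟨σ, hσ, hz⟩ e
    obtain ⟨g, g1, g2⟩ := h σ hσ
    refine free4 c g g1 t fun i => (em (i ∈ σ)).imp (g2 i) fun k => Circle.ext ?_
    exact (mul_eq_right₀ fun q => by simpa [q] using (hz i).2 k).1 (e i)
  · rintro t z ⟨σ, hσ, hz⟩ e
    obtain ⟨g, g1, g2⟩ := h σ hσ
    refine free4 c g g1 t fun i => (em (i ∈ σ)).imp (g2 i) fun k => Units.ext ?_
    exact Int.cast_injective (α := ℝ) (((mul_eq_right₀ fun q => by
      simpa [q] using (hz i).2 k).1 (e i)).trans (by simp))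

end Pool.Agent.H81.Tor
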