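import Pool.Agent.H81.TorD1

set_option autoImplicit false
set_option maxRecDepth 100000

open Finset

namespace Pool.Agent.H81.Tor

lemma c1_1_0 : ∀ r < 8, chkJ kb1 rp1 (tabs1 (r + 8 * 0)) (r + 8 * 0) = true := by
  decide +kernel
lemma c1_1_1 : ∀ r < 8, chkJ kb1 rp1 (tabs1 (r + 8 * 1)) (r + 8 * 1) = true := by
  decide +kernel
lemma c1_1_2 : ∀ r < 8, chkJ kb1 rp1 (tabs1 (r + 8 * 2)) (r + 8 * 2) = true := by
  decide +kernel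
lemma c1_1_3 : ∀ r < 8, chkJ kb1 rp1 (tabs1 (r + 8 * 3)) (r + 8 * 3) = true := by
  decide +kernel
lemma c1_1_4 : ∀ r < 8, chkJ kb1 rp1 (tabs1 (r + 8 * 4)) (r + 8 * 4) = true := by
  decide +kernel
lemma c1_1_5 : ∀ r < 8, chkJ kb1 rp1 (tabs1 (r + 8 * 5)) (r + 8 * 5) = true := by
  decide +kernel
lemma c1_1_6 : ∀ r < 8, chkJ kb1 rp1 (tabs1 (r + 8 * 6)) (r + 8 * 6) = true := by
  decide +kernel
lemma c1_1_7 : ∀ r < 8, chkJ kb1 rp1 (tabs1 (r + 8 * 7)) (r + 8 * 7) = true := by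
  decide +kernel
lemma c1_1_8 : ∀ r < 8, chkJ kb1 rp1 (tabs1 (r + 8 * 8)) (r + 8 * 8) = true := by
  decide +kernel
lemma c1_1_9 : ∀ r < 8, chkJ kb1 rp1 (tabs1 (r + 8 * 9)) (r + 8 * 9) = true := by
  decide +kernel
lemma c1_1_10 : ∀ r < 8, chkJ kb1 rp1 (tabs1 (r + 8 * 10)) (r + 8 * 10) = true := by
  decide +kernel
lemma c1_1_11 : ∀ r < 8, chkJ kb1 rp1 (tabs1 (r + 8 * 11)) (r + 8 * 11) = true := by
  decide +kernel
lemma c1_1_12 : ∀ r < 8, chkJ kb1 rp1 (tabs1 (r + 8 * 12)) (r + 8 * 12) = true := by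
  decide +kernel
lemma c1_1_13 : ∀ r < 8, chkJ kb1 rp1 (tabs1 (r + 8 * 13)) (r + 8 * 13) = true := by
  decide +kernel

end Pool.Agent.H81.Tor
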