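import Pool.Agent.H81.TorD1

set_option autoImplicit false
set_option maxRecDepth 100000

open Finset

namespace Pool.Agent.H81.Tor

lemma c1_1_28 : ∀ r < 8, chkJ kb1 rp1 (tabs1 (r + 8 * 28)) (r + 8 * 28) = true := by
  decide +kernel
lemma c1_1_29 : ∀ r < 8, chkJ kb1 rp1 (tabs1 (r + 8 * 29)) (r + 8 * 29) = true := by
  decide +kernel
lemma c1_1_30 : ∀ r < 8, chkJ kb1 rp1 (tabs1 (r + 8 * 30)) (r + 8 * 30) = true := by
  decide +kernel
lemma c1_1_31 : ∀ r < 8, chkJ kb1 rp1 (tabs1 (r + 8 * 31)) (r + 8 * 31) = true := by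
  decide +kernel

end Pool.Agent.H81.Tor
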