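import Pool.Agent.H81.TorD2

set_option autoImplicit false
set_option maxRecDepth 100000

open Finset

namespace Pool.Agent.H81.Tor

lemma c1_2_14 : ∀ r < 8, chkJ kb2 rp2 (tabs2 (r + 8 * 14)) (r + 8 * 14) = true := by
  decide +kernel
lemma c1_2_15 : ∀ r < 8, chkJ kb2 rp2 (tabs2 (r + 8 * 15)) (r + 8 * 15) = true := by
  decide +kernel
lemma c1_2_16 : ∀ r < 8, chkJ kb2 rp2 (tabs2 (r + 8 * 16)) (r + 8 * 16) = true := by
  decide +kernel
lemma c1_2_17 : ∀ r < 8, chkJ kb2 rp2 (tabs2 (r + 8 * 17)) (r + 8 * 17) = true := by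
  decide +kernel
lemma c1_2_18 : ∀ r < 8, chkJ kb2 rp2 (tabs2 (r + 8 * 18)) (r + 8 * 18) = true := by
  decide +kernel
lemma c1_2_19 : ∀ r < 8, chkJ kb2 rp2 (tabs2 (r + 8 * 19)) (r + 8 * 19) = true := by
  decide +kernel
lemma c1_2_20 : ∀ r < 8, chkJ kb2 rp2 (tabs2 (r + 8 * 20)) (r + 8 * 20) = true := by
  decide +kernel
lemma c1_2_21 : ∀ r < 8, chkJ kb2 rp2 (tabs2 (r + 8 * 21)) (r + 8 * 21) = true := by
  decide +kernel

end Pool.Agent.H81.Tor
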