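import Pool.Agent.H81.TorD2

set_option autoImplicit false
set_option maxRecDepth 100000

open Finset

namespace Pool.Agent.H81.Tor

lemma c1_2_22 : ∀ r < 8, chkJ kb2 rp2 (tabs2 (r + 8 * 22)) (r + 8 * 22) = true := by
  decide +kernel
lemma c1_2_23 : ∀ r < 8, chkJ kb2 rp2 (tabs2 (r + 8 * 23)) (r + 8 * 23) = true := by
  decide +kernel
lemma c1_2_24 : ∀ r < 8, chkJ kb2 rp2 (tabs2 (r + 8 * 24)) (r + 8 * 24) = true := by
  decide +kernel
lemma c1_2_25 : ∀ r < 8, chkJ kb2 rp2 (tabs2 (r + 8 * 25)) (r + 8 * 25) = true := by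
  decide +kernel
lemma c1_2_26 : ∀ r < 8, chkJ kb2 rp2 (tabs2 (r + 8 * 26)) (r + 8 * 26) = true := by
  decide +kernel
lemma c1_2_27 : ∀ r < 8, chkJ kb2 rp2 (tabs2 (r + 8 * 27)) (r + 8 * 27) = true := by
  decide +kernel

end Pool.Agent.H81.Tor
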