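import Pool.Agent.H81.TorD2

set_option autoImplicit false
set_option maxRecDepth 100000

open Finset

namespace Pool.Agent.H81.Tor

lemma c2_2 : ∀ t < 64, chkR kb2 rp2 tabs2 t = true := by decide +kernel
lemma c3_2_0 : ∀ r < 8, ∀ t < 64, chkM kb2 rp2 tabs2 (r + 8 * 0) t = true := by
  decide +kernel
lemma c3_2_1 : ∀ r < 8, ∀ t < 64, chkM kb2 rp2 tabs2 (r + 8 * 1) t = true := by
  decide +kernel
lemma c3_2_2 : ∀ r < 8, ∀ t < 64, chkM kb2 rp2 tabs2 (r + 8 * 2) t = true := by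
  decide +kernel
lemma c3_2_3 : ∀ r < 8, ∀ t < 64, chkM kb2 rp2 tabs2 (r + 8 * 3) t = true := by
  decide +kernel
lemma c3_2_4 : ∀ r < 8, ∀ t < 64, chkM kb2 rp2 tabs2 (r + 8 * 4) t = true := by
  decide +kernel
lemma c3_2_5 : ∀ r < 8, ∀ t < 64, chkM kb2 rp2 tabs2 (r + 8 * 5) t = true := by
  decide +kernel
lemma c3_2_6 : ∀ r < 8, ∀ t < 64, chkM kb2 rp2 tabs2 (r + 8 * 6) t = true := by
  decide +kernel
lemma c3_2_7 : ∀ r < 8, ∀ t < 64, chkM kb2 rp2 tabs2 (r + 8 * 7) t = true := by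
  decide +kernel

end Pool.Agent.H81.Tor
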