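import Pool.Agent.H81.TorG
import Pool.Agent.H81.TorD1m
import Pool.Agent.H81.TorD1a
import Pool.Agent.H81.TorD1b
import Pool.Agent.H81.TorD1c
import Pool.Agent.H81.TorD1d
import Pool.Agent.H81.TorD2m
import Pool.Agent.H81.TorD2a
import Pool.Agent.H81.TorD2b
import Pool.Agent.H81.TorD2c
import Pool.Agent.H81.TorD2d

set_option autoImplicit false
set_option maxRecDepth 100000

open Finset

namespace Pool.Agent.H81.Tor

lemma dv (J : ℕ) : ∃ b r, r < 8 ∧ J = r + 8 * b := ⟨J / 8, J % 8, by omega, by omega⟩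

lemma c1_1 (J : ℕ) (h : J < 256) : chkJ kb1 rp1 (tabs1 J) J = true := by
  obtain ⟨b, r, hr, rfl⟩ := dv J
  have : b < 32 := by omega
  interval_cases b
  exacts [c1_1_0 r hr, c1_1_1 r hr, c1_1_2 r hr, c1_1_3 r hr, c1_1_4 r hr, c1_1_5 r hr, c1_1_6 r hr, c1_1_7 r hr, c1_1_8 r hr, c1_1_9 r hr, c1_1_10 r hr, c1_1_11 r hr, c1_1_12 r hr, c1_1_13 r hr, c1_1_14 r hr, c1_1_15 r hr, c1_1_16 r hr, c1_1_17 r hr, c1_1_18 r hr, c1_1_19 r hr, c1_1_20 r hr, c1_1_21 r hr, c1_1_22 r hr, c1_1_23 r hr, c1_1_24 r hr, c1_1_25 r hr, c1_1_26 r hr, c1_1_27 r hr, c1_1_28 r hr, c1_1_29 r hr, c1_1_30 r hr, c1_1_31 r hr]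

lemma c3_1 (s : ℕ) (h : s < 64) : ∀ t < 64, chkM kb1 rp1 tabs1 s t = true := by
  obtain ⟨b, r, hr, rfl⟩ := dv s
  have : b < 8 := by omega
  interval_cases b
  exacts [c3_1_0 r hr, c3_1_1 r hr, c3_1_2 r hr, c3_1_3 r hr, c3_1_4 r hr, c3_1_5 r hr, c3_1_6 r hr, c3_1_7 r hr]

lemma c1_2 (J : ℕ) (h : J < 256) : chkJ kb2 rp2 (tabs2 J) J = true := by
  obtain ⟨b, r, hr, rfl⟩ := dv J
  have : b < 32 := by omega
  interval_cases b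
  exacts [c1_2_0 r hr, c1_2_1 r hr, c1_2_2 r hr, c1_2_3 r hr, c1_2_4 r hr, c1_2_5 r hr, c1_2_6 r hr, c1_2_7 r hr, c1_2_8 r hr, c1_2_9 r hr, c1_2_10 r hr, c1_2_11 r hr, c1_2_12 r hr, c1_2_13 r hr, c1_2_14 r hr, c1_2_15 r hr, c1_2_16 r hr, c1_2_17 r hr, c1_2_18 r hr, c1_2_19 r hr, c1_2_20 r hr, c1_2_21 r hr, c1_2_22 r hr, c1_2_23 r hr, c1_2_24 r hr, c1_2_25 r hr, c1_2_26 r hr, c1_2_27 r hr, c1_2_28 r hr, c1_2_29 r hr, c1_2_30 r hr, c1_2_31 r hr]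

lemma c3_2 (s : ℕ) (h : s < 64) : ∀ t < 64, chkM kb2 rp2 tabs2 s t = true := by
  obtain ⟨b, r, hr, rfl⟩ := dv s
  have : b < 8 := by omega
  interval_cases b
  exacts [c3_2_0 r hr, c3_2_1 r hr, c3_2_2 r hr, c3_2_3 r hr, c3_2_4 r hr, c3_2_5 r hr, c3_2_6 r hr, c3_2_7 r hr]

theorem main : Simplicial (cx X1) ∧ Simplicial (cx X2) ∧
    (∀ (k : Type) [Field k], TorIso k (bd (cx X1)) (bd (cx X2)) ∧
      ∀ i j, betti k (bd (cx X1)) i j = betti k (bd (cx X2)) i j) ∧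
    buch (bd (cx X1)) < buch (bd (cx X2)) ∧ buchR (bd (cx X1)) < buchR (bd (cx X2)) := by
  obtain ⟨a1, a2, a3⟩ := geo g1
  obtain ⟨b1, b2, b3⟩ := geo g2
  have l := buch_le fun r h => Code.lt a2 a1 g1.2.2.2.2.1 nc1 (r := r) h
  have u := buch_ge (b2 _ (b3.2.1 0) _ (empty_subset _)) cm fun σ hσ => by
    rw [← (toF_msk σ).1, b1 _ (toF_msk _).2] at hσ
    obtain ⟨g, e1, e2⟩ := gl2 _ (toF_msk _).2 hσ
    exact ⟨g, gl1 g e1, fun i hi => e2 i (by rwa [← mem_toF, (toF_msk _).1])⟩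
  exact ⟨a3, b3, fun k _ => (sd_chk k a2 a1 rp1 tabs1 rfl c1_1 c2_1 c3_1).iso
    (sd_chk k b2 b1 rp2 tabs2 rfl c1_2 c2_2 c3_2), by omega, by omega⟩

end Pool.Agent.H81.Tor
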