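import Mathlib

set_option autoImplicit false
set_option maxRecDepth 100000

open Finset

namespace Pool.Agent.H81.Tor

def kb1 : ℕ := 112333110695327312855684534674741956379942632131832852741445124095
def kb2 : ℕ := 7816466805618823916876554874687763994190434723060847853084606463

end Pool.Agent.H81.Tor
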