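import Pool.Agent.H81.Tor4
import Pool.Agent.H81.TorK

set_option autoImplicit false
set_option maxRecDepth 100000

namespace Pool.Agent.H81.Tor

noncomputable def rl1 : List (ℕ × Ls) := [(0,[(1,0)]),
  (19,[(1,18)]),
  (22,[(1,20)]),
  (25,[(1,24)]),
  (28,[(1,24)]),
  (44,[(1,40)]),
  (52,[(1,48)]),
  (56,[(1,48)]),
  (67,[(1,66)]),
  (73,[(1,72)]),
  (104,[(1,96)]),
  (131,[(1,130)]),
  (134,[(1,132)]),
  (164,[(1,160)]),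
  (193,[(1,192)]),
  (194,[(1,192)]),
  (224,[(1,192)]),
  (23,[(1,18)]),
  (27,[(-1,18),(1,24)]),
  (29,[(1,24)]),
  (57,[(1,24)]),
  (75,[(-1,66),(1,72)]),
  (83,[(-1,18),(1,66)]),
  (89,[(-1,24),(1,72)]),
  (105,[(1,72)]),
  (135,[(1,130)]),
  (147,[(-1,18),(1,130)]),
  (195,[(1,66)]),
  (195,[(1,130)]),
  (195,[(1,192)]),
  (201,[(-1,72),(1,192)]),
  (225,[(1,192)]),
  (30,[(1,20)]),
  (54,[(-1,20)]),
  (60,[(1,24),(-1,48)]),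
  (60,[(1,40)]),
  (60,[(-1,40),(1,48)]),
  (108,[(-1,40)]),
  (120,[(1,48),(-1,96)]),
  (150,[(-1,20),(1,132)]),
  (166,[(-1,132)]),
  (172,[(1,40),(-1,160)]),
  (180,[(1,48),(-1,160)]),
  (198,[(-1,132),(1,192)]),
  (226,[(-1,192)]),
  (228,[(1,160)]),
  (232,[(1,96)]),
  (31,[(-1,18),(-1,24)]),
  (61,[(-1,24)]),
  (62,[(1,20)]),
  (91,[(-1,18),(1,24),(1,66),(-1,72)]),
  (121,[(-1,24),(-1,72)]),
  (124,[(1,40)]),
  (151,[(1,18),(-1,130)]),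
  (182,[(1,20),(1,132)]),
  (188,[(-1,40),(1,48),(-1,160)]),
  (199,[(1,130)]),
  (203,[(-1,66),(1,72),(-1,192)]),
  (211,[(-1,18),(1,66),(-1,130)]),
  (227,[(1,192)]),
  (230,[(1,132),(1,192)]),
  (233,[(-1,72),(-1,192)]),
  (236,[(1,40),(1,160)]),
  (255,[(1,216)])]
noncomputable def rp1 (t : ℕ) : ℕ × Ls := rl1.getD t (0, [])
noncomputable def t1_0 : Tab := [(0,[],[(1,0)])]
noncomputable def t1_1 : Tab := [(1,[(1,0)],[])]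
noncomputable def t1_2 : Tab := [(2,[(1,0)],[])]
noncomputable def t1_3 : Tab := [(1,[(1,0)],[]),
  (3,[(1,2)],[])]
noncomputable def t1_4 : Tab := [(4,[(1,0)],[])]
noncomputable def t1_5 : Tab := [(1,[(1,0)],[]),
  (5,[(1,4)],[])]
noncomputable def t1_6 : Tab := [(2,[(1,0)],[]),
  (6,[(1,4)],[])]
noncomputable def t1_7 : Tab := [(1,[(1,0)],[]),
  (3,[(1,2)],[]),
  (5,[(1,4)],[]),
  (7,[(1,6)],[])]
noncomputable def t1_8 : Tab := [(8,[(1,0)],[])]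
noncomputable def t1_9 : Tab := [(1,[(1,0)],[]),
  (9,[(1,8)],[])]
noncomputable def t1_10 : Tab := [(2,[(1,0)],[]),
  (10,[(1,8)],[])]
noncomputable def t1_11 : Tab := [(1,[(1,0)],[]),
  (3,[(1,2)],[]),
  (9,[(1,8)],[]),
  (11,[(1,10)],[])]
noncomputable def t1_12 : Tab := [(4,[(1,0)],[]),
  (12,[(1,8)],[])]
noncomputable def t1_13 : Tab := [(1,[(1,0)],[]),
  (5,[(1,4)],[]),
  (9,[(1,8)],[]),
  (13,[(1,12)],[])]
noncomputable def t1_14 : Tab := [(2,[(1,0)],[]),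
  (6,[(1,4)],[]),
  (10,[(1,8)],[]),
  (14,[(1,12)],[])]
noncomputable def t1_15 : Tab := [(1,[(1,0)],[]),
  (3,[(1,2)],[]),
  (5,[(1,4)],[]),
  (7,[(1,6)],[]),
  (9,[(1,8)],[]),
  (11,[(1,10)],[]),
  (13,[(1,12)],[]),
  (15,[(1,14)],[])]
noncomputable def t1_16 : Tab := [(16,[(1,0)],[])]
noncomputable def t1_17 : Tab := [(1,[(1,0)],[]),
  (17,[(1,16)],[])]
noncomputable def t1_18 : Tab := [(2,[(1,0)],[]),
  (18,[(1,16)],[])]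
noncomputable def t1_19 : Tab := [(1,[(1,0)],[]),
  (3,[(1,2)],[(1,1)]),
  (17,[(1,16)],[(1,1)]),
  (18,[],[(1,1)])]
noncomputable def t1_20 : Tab := [(4,[(1,0)],[]),
  (20,[(1,16)],[])]
noncomputable def t1_21 : Tab := [(1,[(1,0)],[]),
  (5,[(1,4)],[]),
  (17,[(1,16)],[]),
  (21,[(1,20)],[])]
noncomputable def t1_22 : Tab := [(2,[(1,0)],[]),
  (6,[(1,4)],[(1,2)]),
  (18,[(1,16)],[(1,2)]),
  (20,[],[(1,2)])]
noncomputable def t1_23 : Tab := [(1,[(1,0)],[]),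
  (3,[(1,2)],[(-1,17)]),
  (5,[(1,4)],[]),
  (7,[(1,6)],[]),
  (17,[(1,16)],[(1,17)]),
  (18,[],[(1,17)]),
  (21,[(1,20)],[])]
noncomputable def t1_24 : Tab := [(8,[(1,0)],[]),
  (24,[(1,16)],[])]
noncomputable def t1_25 : Tab := [(1,[(1,0)],[]),
  (9,[(1,8)],[(1,3)]),
  (17,[(1,16)],[(1,3)]),
  (24,[],[(1,3)])]
noncomputable def t1_26 : Tab := [(2,[(1,0)],[]),
  (10,[(1,8)],[]),
  (18,[(1,16)],[]),
  (26,[(1,24)],[])]
noncomputable def t1_27 : Tab := [(1,[(1,0)],[]),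
  (3,[(1,2)],[]),
  (9,[(1,8)],[(-1,18)]),
  (11,[(1,10),(-1,18)],[]),
  (17,[(1,16)],[(-1,18)]),
  (24,[],[(1,18)]),
  (26,[(-1,18)],[])]
noncomputable def t1_28 : Tab := [(4,[(1,0)],[]),
  (12,[(1,8)],[(1,4)]),
  (20,[(1,16)],[(1,4)]),
  (24,[],[(1,4)])]
noncomputable def t1_29 : Tab := [(1,[(1,0)],[]),
  (5,[(1,4)],[]),
  (9,[(1,8)],[(-1,19)]),
  (13,[(1,12)],[]),
  (17,[(1,16)],[(-1,19)]),
  (21,[(1,20)],[]),
  (24,[],[(1,19)])]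
noncomputable def t1_30 : Tab := [(2,[(1,0)],[]),
  (6,[(1,4)],[(-1,32)]),
  (10,[(1,8)],[]),
  (14,[(1,12)],[]),
  (18,[(1,16)],[(1,32)]),
  (20,[],[(1,32)]),
  (26,[(1,24)],[])]
noncomputable def t1_31 : Tab := [(1,[(1,0)],[]),
  (3,[(1,2)],[]),
  (5,[(1,4)],[]),
  (7,[(1,6)],[]),
  (9,[(1,8)],[(-1,47)]),
  (11,[(1,10),(-1,18)],[]),
  (13,[(1,12)],[]),
  (15,[(1,14)],[]),
  (17,[(1,16)],[(-1,47)]),
  (21,[(1,20)],[]),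
  (24,[],[(-1,47)]),
  (26,[(1,18)],[])]
noncomputable def t1_32 : Tab := [(32,[(1,0)],[])]
noncomputable def t1_33 : Tab := [(1,[(1,0)],[]),
  (33,[(1,32)],[])]
noncomputable def t1_34 : Tab := [(2,[(1,0)],[]),
  (34,[(1,32)],[])]
noncomputable def t1_35 : Tab := [(1,[(1,0)],[]),
  (3,[(1,2)],[]),
  (33,[(1,32)],[]),
  (35,[(1,34)],[])]
noncomputable def t1_36 : Tab := [(4,[(1,0)],[]),
  (36,[(1,32)],[])]
noncomputable def t1_37 : Tab := [(1,[(1,0)],[]),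
  (5,[(1,4)],[]),
  (33,[(1,32)],[]),
  (37,[(1,36)],[])]
noncomputable def t1_38 : Tab := [(2,[(1,0)],[]),
  (6,[(1,4)],[]),
  (34,[(1,32)],[]),
  (38,[(1,36)],[])]
noncomputable def t1_39 : Tab := [(1,[(1,0)],[]),
  (3,[(1,2)],[]),
  (5,[(1,4)],[]),
  (7,[(1,6)],[]),
  (33,[(1,32)],[]),
  (35,[(1,34)],[]),
  (37,[(1,36)],[]),
  (39,[(1,38)],[])]
noncomputable def t1_40 : Tab := [(8,[(1,0)],[]),
  (40,[(1,32)],[])]
noncomputable def t1_41 : Tab := [(1,[(1,0)],[]),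
  (9,[(1,8)],[]),
  (33,[(1,32)],[]),
  (41,[(1,40)],[])]
noncomputable def t1_42 : Tab := [(2,[(1,0)],[]),
  (10,[(1,8)],[]),
  (34,[(1,32)],[]),
  (42,[(1,40)],[])]
noncomputable def t1_43 : Tab := [(1,[(1,0)],[]),
  (3,[(1,2)],[]),
  (9,[(1,8)],[]),
  (11,[(1,10)],[]),
  (33,[(1,32)],[]),
  (35,[(1,34)],[]),
  (41,[(1,40)],[]),
  (43,[(1,42)],[])]
noncomputable def t1_44 : Tab := [(4,[(1,0)],[]),
  (12,[(1,8)],[(1,5)]),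
  (36,[(1,32)],[(1,5)]),
  (40,[],[(1,5)])]
noncomputable def t1_45 : Tab := [(1,[(1,0)],[]),
  (5,[(1,4)],[]),
  (9,[(1,8)],[]),
  (13,[(1,12)],[]),
  (33,[(1,32)],[]),
  (37,[(1,36)],[]),
  (41,[(1,40)],[])]
noncomputable def t1_46 : Tab := [(2,[(1,0)],[]),
  (6,[(1,4)],[]),
  (10,[(1,8)],[]),
  (14,[(1,12)],[]),
  (34,[(1,32)],[]),
  (38,[(1,36)],[]),
  (42,[(1,40)],[])]
noncomputable def t1_47 : Tab := [(1,[(1,0)],[]),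
  (3,[(1,2)],[]),
  (5,[(1,4)],[]),
  (7,[(1,6)],[]),
  (9,[(1,8)],[]),
  (11,[(1,10)],[]),
  (13,[(1,12)],[]),
  (15,[(1,14)],[]),
  (33,[(1,32)],[]),
  (35,[(1,34)],[]),
  (37,[(1,36)],[]),
  (39,[(1,38)],[]),
  (41,[(1,40)],[]),
  (43,[(1,42)],[])]
noncomputable def t1_48 : Tab := [(16,[(1,0)],[]),
  (48,[(1,32)],[])]
noncomputable def t1_49 : Tab := [(1,[(1,0)],[]),
  (17,[(1,16)],[]),
  (33,[(1,32)],[]),
  (49,[(1,48)],[])]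
noncomputable def t1_50 : Tab := [(2,[(1,0)],[]),
  (18,[(1,16)],[]),
  (34,[(1,32)],[]),
  (50,[(1,48)],[])]
noncomputable def t1_51 : Tab := [(1,[(1,0)],[]),
  (3,[(1,2)],[]),
  (17,[(1,16)],[]),
  (33,[(1,32)],[]),
  (35,[(-1,18),(1,34)],[]),
  (49,[(-1,18),(1,48)],[]),
  (50,[(-1,18)],[])]
noncomputable def t1_52 : Tab := [(4,[(1,0)],[]),
  (20,[(1,16)],[(1,6)]),
  (36,[(1,32)],[(1,6)]),
  (48,[],[(1,6)])]
noncomputable def t1_53 : Tab := [(1,[(1,0)],[]),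
  (5,[(1,4)],[]),
  (17,[(1,16)],[]),
  (21,[(1,20)],[]),
  (33,[(1,32)],[]),
  (37,[(1,36)],[]),
  (49,[(1,48)],[])]
noncomputable def t1_54 : Tab := [(2,[(1,0)],[]),
  (6,[(1,4)],[(-1,33)]),
  (18,[(1,16)],[(-1,33)]),
  (20,[],[(-1,33)]),
  (34,[(1,32)],[]),
  (38,[(1,36)],[]),
  (50,[(1,48)],[])]
noncomputable def t1_55 : Tab := [(1,[(1,0)],[]),
  (3,[(1,2)],[]),
  (5,[(1,4)],[]),
  (7,[(1,6),(-1,18),(1,34)],[]),
  (17,[(1,16)],[]),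
  (21,[(1,20)],[]),
  (33,[(1,32)],[]),
  (37,[(1,18),(-1,34),(1,36)],[]),
  (38,[(1,18),(-1,34)],[]),
  (39,[(1,35)],[]),
  (49,[(1,18),(1,48)],[]),
  (50,[(1,18)],[])]
noncomputable def t1_56 : Tab := [(8,[(1,0)],[]),
  (24,[(1,16)],[(1,7)]),
  (40,[(1,32)],[(1,7)]),
  (48,[],[(1,7)])]
noncomputable def t1_57 : Tab := [(1,[(1,0)],[]),
  (9,[(1,8)],[(1,20)]),
  (17,[(1,16)],[(1,20)]),
  (24,[],[(1,20)]),
  (33,[(1,32)],[]),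
  (41,[(1,40)],[]),
  (49,[(1,48)],[])]
noncomputable def t1_58 : Tab := [(2,[(1,0)],[]),
  (10,[(1,8)],[]),
  (18,[(1,16)],[]),
  (26,[(1,24)],[]),
  (34,[(1,32)],[]),
  (42,[(1,40)],[]),
  (50,[(1,48)],[])]
noncomputable def t1_59 : Tab := [(1,[(1,0)],[]),
  (3,[(1,2)],[]),
  (9,[(1,8)],[]),
  (11,[(1,10),(-1,24)],[]),
  (17,[(1,16)],[]),
  (26,[(-1,24)],[]),
  (33,[(1,32)],[]),
  (35,[(-1,18),(1,24),(1,34)],[]),
  (41,[(1,40)],[]),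
  (43,[(1,42)],[]),
  (49,[(1,18),(-1,24),(1,48)],[]),
  (50,[(1,18),(-1,24)],[])]
noncomputable def t1_60 : Tab := [(4,[(1,0)],[]),
  (12,[(1,8)],[(1,34),(1,36)]),
  (20,[(1,16)],[(1,34)]),
  (24,[],[(1,34),(1,35),(1,36)]),
  (36,[(1,32)],[(-1,36)]),
  (40,[],[(1,35)]),
  (48,[],[(1,35),(1,36)])]
noncomputable def t1_61 : Tab := [(1,[(1,0)],[]),
  (5,[(1,4)],[]),
  (9,[(1,8)],[(1,48)]),
  (13,[(1,12)],[]),
  (17,[(1,16)],[(1,48)]),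
  (21,[(1,20)],[]),
  (24,[],[(-1,48)]),
  (33,[(1,32)],[]),
  (37,[(1,36)],[]),
  (41,[(1,40)],[]),
  (49,[(1,48)],[])]
noncomputable def t1_62 : Tab := [(2,[(1,0)],[]),
  (6,[(1,4)],[(-1,49)]),
  (10,[(1,8)],[]),
  (14,[(1,12)],[]),
  (18,[(1,16)],[(1,49)]),
  (20,[],[(1,49)]),
  (26,[(1,24)],[]),
  (34,[(1,32)],[]),
  (38,[(1,36)],[]),
  (42,[(1,40)],[]),
  (50,[(1,48)],[])]
noncomputable def t1_63 : Tab := [(1,[(1,0)],[]),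
  (3,[(1,2)],[]),
  (5,[(1,4)],[]),
  (7,[(1,6)],[]),
  (9,[(1,8)],[]),
  (11,[(1,10),(1,24)],[]),
  (13,[(1,12)],[]),
  (15,[(1,14)],[]),
  (17,[(1,16)],[]),
  (21,[(1,20)],[]),
  (26,[(-1,24)],[]),
  (33,[(1,32)],[]),
  (35,[(-1,18),(-1,24),(1,34)],[]),
  (37,[(1,36)],[]),
  (39,[(1,38)],[]),
  (41,[(1,40)],[]),
  (43,[(1,42)],[]),
  (49,[(-1,18),(-1,24),(1,48)],[]),
  (50,[(-1,18),(-1,24)],[])]
noncomputable def t1_64 : Tab := [(64,[(1,0)],[])]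
noncomputable def t1_65 : Tab := [(1,[(1,0)],[]),
  (65,[(1,64)],[])]
noncomputable def t1_66 : Tab := [(2,[(1,0)],[]),
  (66,[(1,64)],[])]
noncomputable def t1_67 : Tab := [(1,[(1,0)],[]),
  (3,[(1,2)],[(1,8)]),
  (65,[(1,64)],[(1,8)]),
  (66,[],[(1,8)])]
noncomputable def t1_68 : Tab := [(4,[(1,0)],[]),
  (68,[(1,64)],[])]
noncomputable def t1_69 : Tab := [(1,[(1,0)],[]),
  (5,[(1,4)],[]),
  (65,[(1,64)],[]),
  (69,[(1,68)],[])]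
noncomputable def t1_70 : Tab := [(2,[(1,0)],[]),
  (6,[(1,4)],[]),
  (66,[(1,64)],[]),
  (70,[(1,68)],[])]
noncomputable def t1_71 : Tab := [(1,[(1,0)],[]),
  (3,[(1,2)],[]),
  (5,[(1,4)],[]),
  (7,[(1,6),(-1,66)],[]),
  (65,[(1,64)],[]),
  (69,[(-1,66),(1,68)],[]),
  (70,[(-1,66)],[])]
noncomputable def t1_72 : Tab := [(8,[(1,0)],[]),
  (72,[(1,64)],[])]
noncomputable def t1_73 : Tab := [(1,[(1,0)],[]),
  (9,[(1,8)],[(1,9)]),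
  (65,[(1,64)],[(1,9)]),
  (72,[],[(1,9)])]
noncomputable def t1_74 : Tab := [(2,[(1,0)],[]),
  (10,[(1,8)],[]),
  (66,[(1,64)],[]),
  (74,[(1,72)],[])]
noncomputable def t1_75 : Tab := [(1,[(1,0)],[]),
  (3,[(1,2)],[]),
  (9,[(1,8)],[(-1,21)]),
  (11,[(1,10),(-1,66)],[]),
  (65,[(1,64)],[(-1,21)]),
  (72,[],[(1,21)]),
  (74,[(-1,66)],[])]
noncomputable def t1_76 : Tab := [(4,[(1,0)],[]),
  (12,[(1,8)],[]),
  (68,[(1,64)],[]),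
  (76,[(1,72)],[])]
noncomputable def t1_77 : Tab := [(1,[(1,0)],[]),
  (5,[(1,4)],[]),
  (9,[(1,8)],[]),
  (13,[(1,12),(-1,72)],[]),
  (65,[(1,64)],[]),
  (69,[(1,68),(-1,72)],[]),
  (76,[(-1,72)],[])]
noncomputable def t1_78 : Tab := [(2,[(1,0)],[]),
  (6,[(1,4)],[]),
  (10,[(1,8)],[]),
  (14,[(1,12)],[]),
  (66,[(1,64)],[]),
  (70,[(1,68)],[]),
  (74,[(1,72)],[]),
  (78,[(1,76)],[])]
noncomputable def t1_79 : Tab := [(1,[(1,0)],[]),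
  (3,[(1,2)],[]),
  (5,[(1,4)],[]),
  (7,[(1,6),(1,66),(1,72)],[]),
  (9,[(1,8)],[]),
  (11,[(1,10),(1,72)],[]),
  (13,[(1,12)],[]),
  (15,[(1,14),(-1,76)],[]),
  (65,[(1,64)],[]),
  (69,[(-1,66),(1,68),(-1,72)],[]),
  (70,[(-1,66),(-1,72)],[]),
  (74,[(-1,72)],[]),
  (78,[(-1,76)],[])]
noncomputable def t1_80 : Tab := [(16,[(1,0)],[]),
  (80,[(1,64)],[])]
noncomputable def t1_81 : Tab := [(1,[(1,0)],[]),
  (17,[(1,16)],[]),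
  (65,[(1,64)],[]),
  (81,[(1,80)],[])]
noncomputable def t1_82 : Tab := [(2,[(1,0)],[]),
  (18,[(1,16)],[]),
  (66,[(1,64)],[]),
  (82,[(1,80)],[])]
noncomputable def t1_83 : Tab := [(1,[(1,0)],[]),
  (3,[(1,2)],[(-1,22)]),
  (17,[(1,16)],[]),
  (65,[(1,64)],[(1,22)]),
  (66,[],[(1,22)]),
  (81,[(-1,18),(1,80)],[]),
  (82,[(-1,18)],[])]
noncomputable def t1_84 : Tab := [(4,[(1,0)],[]),
  (20,[(1,16)],[]),
  (68,[(1,64)],[]),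
  (84,[(1,80)],[])]
noncomputable def t1_85 : Tab := [(1,[(1,0)],[]),
  (5,[(1,4)],[]),
  (17,[(1,16)],[]),
  (21,[(1,20)],[]),
  (65,[(1,64)],[]),
  (69,[(1,68)],[]),
  (81,[(1,80)],[]),
  (85,[(1,84)],[])]
noncomputable def t1_86 : Tab := [(2,[(1,0)],[]),
  (6,[(1,4)],[]),
  (18,[(1,16)],[]),
  (66,[(1,64)],[]),
  (70,[(-1,20),(1,68)],[]),
  (82,[(-1,20),(1,80)],[]),
  (84,[(-1,20)],[])]
noncomputable def t1_87 : Tab := [(1,[(1,0)],[]),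
  (3,[(1,2)],[]),
  (5,[(1,4)],[]),
  (7,[(1,6),(-1,18),(1,66)],[]),
  (17,[(1,16)],[]),
  (21,[(-1,18),(1,20),(-1,80)],[]),
  (65,[(1,64)],[]),
  (69,[(-1,66),(1,68),(-1,80)],[]),
  (70,[(1,18),(-1,66)],[]),
  (82,[(1,18)],[]),
  (84,[(1,18),(1,80)],[]),
  (85,[(-1,81)],[])]
noncomputable def t1_88 : Tab := [(8,[(1,0)],[]),
  (24,[(1,16)],[]),
  (72,[(1,64)],[]),
  (88,[(1,80)],[])]
noncomputable def t1_89 : Tab := [(1,[(1,0)],[]),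
  (9,[(1,8)],[(-1,23)]),
  (17,[(1,16)],[]),
  (65,[(1,64)],[(1,23)]),
  (72,[],[(1,23)]),
  (81,[(-1,24),(1,80)],[]),
  (88,[(-1,24)],[])]
noncomputable def t1_90 : Tab := [(2,[(1,0)],[]),
  (10,[(1,8)],[]),
  (18,[(1,16)],[]),
  (26,[(1,24)],[]),
  (66,[(1,64)],[]),
  (74,[(1,72)],[]),
  (82,[(1,80)],[]),
  (90,[(1,88)],[])]
noncomputable def t1_91 : Tab := [(1,[(1,0)],[]),
  (3,[(1,2)],[]),
  (9,[(1,8)],[(-1,50)]),
  (11,[(1,10),(-1,18),(1,66)],[]),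
  (17,[(1,16)],[]),
  (65,[(1,64)],[(1,50)]),
  (72,[],[(-1,50)]),
  (74,[(1,18),(-1,66)],[]),
  (81,[(1,18),(-1,24),(1,80)],[]),
  (82,[(1,18)],[]),
  (88,[(1,24)],[]),
  (90,[(-1,26)],[])]
noncomputable def t1_92 : Tab := [(4,[(1,0)],[]),
  (12,[(1,8)],[]),
  (20,[(1,16)],[]),
  (68,[(1,64)],[]),
  (76,[(-1,24),(1,72)],[]),
  (84,[(-1,24),(1,80)],[]),
  (88,[(-1,24)],[])]
noncomputable def t1_93 : Tab := [(1,[(1,0)],[]),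
  (5,[(1,4)],[]),
  (9,[(1,8)],[]),
  (13,[(1,12),(-1,24),(1,72)],[]),
  (17,[(1,16)],[]),
  (21,[(1,20),(-1,24),(1,80)],[]),
  (65,[(1,64)],[]),
  (69,[(1,68),(-1,72),(1,80)],[]),
  (76,[(1,24),(-1,72)],[]),
  (84,[(1,24),(-1,80)],[]),
  (85,[(1,81)],[]),
  (88,[(1,24)],[])]
noncomputable def t1_94 : Tab := [(2,[(1,0)],[]),
  (6,[(1,4)],[]),
  (10,[(1,8)],[]),
  (14,[(1,12),(-1,20),(1,68)],[]),
  (18,[(1,16)],[]),
  (26,[(-1,20),(1,24),(-1,80)],[]),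
  (66,[(1,64)],[]),
  (74,[(-1,68),(1,72),(-1,80)],[]),
  (76,[(1,20),(-1,68)],[]),
  (78,[(1,70)],[]),
  (84,[(1,20)],[]),
  (88,[(1,20),(1,80)],[]),
  (90,[(-1,82)],[])]
noncomputable def t1_95 : Tab := [(1,[(1,0)],[]),
  (3,[(1,2)],[]),
  (5,[(1,4)],[]),
  (7,[(1,6)],[]),
  (9,[(1,8)],[]),
  (11,[(1,10),(-1,18),(1,66)],[]),
  (13,[(1,12),(-1,18),(-1,24),(1,66),(1,72)],[]),
  (15,[(1,14),(1,70)],[]),
  (17,[(1,16)],[]),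
  (21,[(-1,18),(1,20),(-1,24),(1,80)],[]),
  (65,[(1,64)],[]),
  (69,[(-1,66),(1,68),(-1,72),(1,80)],[]),
  (74,[(-1,18),(1,66)],[]),
  (76,[(-1,18),(-1,24),(1,66),(1,72)],[]),
  (78,[(-1,70)],[]),
  (82,[(-1,18)],[]),
  (84,[(-1,18),(-1,24),(1,80)],[]),
  (85,[(-1,81)],[]),
  (88,[(-1,24)],[]),
  (90,[(1,26)],[])]
noncomputable def t1_96 : Tab := [(32,[(1,0)],[]),
  (96,[(1,64)],[])]
noncomputable def t1_97 : Tab := [(1,[(1,0)],[]),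
  (33,[(1,32)],[]),
  (65,[(1,64)],[]),
  (97,[(1,96)],[])]
noncomputable def t1_98 : Tab := [(2,[(1,0)],[]),
  (34,[(1,32)],[]),
  (66,[(1,64)],[]),
  (98,[(1,96)],[])]
noncomputable def t1_99 : Tab := [(1,[(1,0)],[]),
  (3,[(1,2)],[]),
  (33,[(1,32)],[]),
  (35,[(1,34),(-1,66)],[]),
  (65,[(1,64)],[]),
  (97,[(-1,66),(1,96)],[]),
  (98,[(-1,66)],[])]
noncomputable def t1_100 : Tab := [(4,[(1,0)],[]),
  (36,[(1,32)],[]),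
  (68,[(1,64)],[]),
  (100,[(1,96)],[])]
noncomputable def t1_101 : Tab := [(1,[(1,0)],[]),
  (5,[(1,4)],[]),
  (33,[(1,32)],[]),
  (37,[(1,36)],[]),
  (65,[(1,64)],[]),
  (69,[(1,68)],[]),
  (97,[(1,96)],[]),
  (101,[(1,100)],[])]
noncomputable def t1_102 : Tab := [(2,[(1,0)],[]),
  (6,[(1,4)],[]),
  (34,[(1,32)],[]),
  (38,[(1,36)],[]),
  (66,[(1,64)],[]),
  (70,[(1,68)],[]),
  (98,[(1,96)],[]),
  (102,[(1,100)],[])]
noncomputable def t1_103 : Tab := [(1,[(1,0)],[]),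
  (3,[(1,2)],[]),
  (5,[(1,4)],[]),
  (7,[(1,6),(1,66)],[]),
  (33,[(1,32)],[]),
  (35,[(1,34)],[]),
  (37,[(1,36)],[]),
  (39,[(1,38),(-1,98)],[]),
  (65,[(1,64)],[]),
  (69,[(-1,66),(1,68)],[]),
  (70,[(-1,66)],[]),
  (97,[(1,96)],[]),
  (101,[(-1,98),(1,100)],[]),
  (102,[(-1,98)],[])]
noncomputable def t1_104 : Tab := [(8,[(1,0)],[]),
  (40,[(1,32)],[(1,10)]),
  (72,[(1,64)],[(1,10)]),
  (96,[],[(1,10)])]
noncomputable def t1_105 : Tab := [(1,[(1,0)],[]),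
  (9,[(1,8)],[(-1,24)]),
  (33,[(1,32)],[]),
  (41,[(1,40)],[]),
  (65,[(1,64)],[(1,24)]),
  (72,[],[(1,24)]),
  (97,[(1,96)],[])]
noncomputable def t1_106 : Tab := [(2,[(1,0)],[]),
  (10,[(1,8)],[]),
  (34,[(1,32)],[]),
  (42,[(1,40)],[]),
  (66,[(1,64)],[]),
  (74,[(1,72)],[]),
  (98,[(1,96)],[])]
noncomputable def t1_107 : Tab := [(1,[(1,0)],[]),
  (3,[(1,2)],[]),
  (9,[(1,8)],[]),
  (11,[(1,10),(1,72)],[]),
  (33,[(1,32)],[]),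
  (35,[(1,34),(-1,66),(1,72)],[]),
  (41,[(1,40)],[]),
  (43,[(1,42)],[]),
  (65,[(1,64)],[]),
  (74,[(-1,72)],[]),
  (97,[(1,66),(-1,72),(1,96)],[]),
  (98,[(1,66),(-1,72)],[])]
noncomputable def t1_108 : Tab := [(4,[(1,0)],[]),
  (12,[(1,8)],[(-1,37)]),
  (36,[(1,32)],[(-1,37)]),
  (40,[],[(-1,37)]),
  (68,[(1,64)],[]),
  (76,[(1,72)],[]),
  (100,[(1,96)],[])]
noncomputable def t1_109 : Tab := [(1,[(1,0)],[]),
  (5,[(1,4)],[]),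
  (9,[(1,8)],[]),
  (13,[(1,12),(1,72)],[]),
  (33,[(1,32)],[]),
  (37,[(1,36)],[]),
  (41,[(1,40)],[]),
  (65,[(1,64)],[]),
  (69,[(1,68),(-1,72)],[]),
  (76,[(-1,72)],[]),
  (97,[(1,96)],[]),
  (101,[(1,100)],[])]
noncomputable def t1_110 : Tab := [(2,[(1,0)],[]),
  (6,[(1,4)],[]),
  (10,[(1,8)],[]),
  (14,[(1,12)],[]),
  (34,[(1,32)],[]),
  (38,[(1,36)],[]),
  (42,[(1,40)],[]),
  (66,[(1,64)],[]),
  (70,[(1,68)],[]),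
  (74,[(1,72)],[]),
  (78,[(1,76)],[]),
  (98,[(1,96)],[]),
  (102,[(1,100)],[])]
noncomputable def t1_111 : Tab := [(1,[(1,0)],[]),
  (3,[(1,2)],[]),
  (5,[(1,4)],[]),
  (7,[(1,6),(-1,66),(-1,72)],[]),
  (9,[(1,8)],[]),
  (11,[(1,10),(-1,72)],[]),
  (13,[(1,12)],[]),
  (15,[(1,14),(1,76)],[]),
  (33,[(1,32)],[]),
  (35,[(1,34)],[]),
  (37,[(1,36)],[]),
  (39,[(1,38),(1,98)],[]),
  (41,[(1,40)],[]),
  (43,[(1,42)],[]),
  (65,[(1,64)],[]),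
  (69,[(-1,66),(1,68),(-1,72)],[]),
  (70,[(-1,66),(-1,72)],[]),
  (74,[(-1,72)],[]),
  (78,[(-1,76)],[]),
  (97,[(1,96)],[]),
  (101,[(-1,98),(1,100)],[]),
  (102,[(-1,98)],[])]
noncomputable def t1_112 : Tab := [(16,[(1,0)],[]),
  (48,[(1,32)],[]),
  (80,[(1,64)],[]),
  (112,[(1,96)],[])]
noncomputable def t1_113 : Tab := [(1,[(1,0)],[]),
  (17,[(1,16)],[]),
  (33,[(1,32)],[]),
  (49,[(1,48)],[]),
  (65,[(1,64)],[]),
  (81,[(1,80)],[]),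
  (97,[(1,96)],[]),
  (113,[(1,112)],[])]
noncomputable def t1_114 : Tab := [(2,[(1,0)],[]),
  (18,[(1,16)],[]),
  (34,[(1,32)],[]),
  (50,[(1,48)],[]),
  (66,[(1,64)],[]),
  (82,[(1,80)],[]),
  (98,[(1,96)],[]),
  (114,[(1,112)],[])]
noncomputable def t1_115 : Tab := [(1,[(1,0)],[]),
  (3,[(1,2)],[]),
  (17,[(1,16)],[]),
  (33,[(1,32)],[]),
  (35,[(-1,18),(1,34),(-1,66)],[]),
  (49,[(-1,18),(1,48),(-1,66)],[]),
  (50,[(-1,18),(-1,66)],[]),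
  (65,[(1,64)],[]),
  (81,[(-1,66),(1,80)],[]),
  (82,[(-1,66)],[]),
  (97,[(1,96)],[]),
  (113,[(-1,98),(1,112)],[]),
  (114,[(-1,98)],[])]
noncomputable def t1_116 : Tab := [(4,[(1,0)],[]),
  (20,[(1,16)],[]),
  (36,[(1,32)],[]),
  (68,[(1,64)],[]),
  (84,[(-1,48),(1,80)],[]),
  (100,[(-1,48),(1,96)],[]),
  (112,[(-1,48)],[])]
noncomputable def t1_117 : Tab := [(1,[(1,0)],[]),
  (5,[(1,4)],[]),
  (17,[(1,16)],[]),
  (21,[(1,20)],[]),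
  (33,[(1,32)],[]),
  (37,[(1,36)],[]),
  (49,[(1,48)],[]),
  (65,[(1,64)],[]),
  (69,[(1,68)],[]),
  (81,[(1,80)],[]),
  (85,[(1,84)],[]),
  (97,[(1,96)],[]),
  (101,[(1,100)],[]),
  (113,[(1,112)],[])]
noncomputable def t1_118 : Tab := [(2,[(1,0)],[]),
  (6,[(1,4)],[]),
  (18,[(1,16)],[]),
  (34,[(1,32)],[]),
  (38,[(-1,20),(1,36),(-1,68)],[]),
  (50,[(-1,20),(1,48),(-1,80)],[]),
  (66,[(1,64)],[]),
  (84,[(1,20)],[]),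
  (98,[(1,68),(-1,80),(1,96)],[]),
  (100,[(1,20),(1,68)],[]),
  (102,[(-1,70)],[]),
  (112,[(1,20),(1,80)],[]),
  (114,[(-1,82)],[])]
noncomputable def t1_119 : Tab := [(1,[(1,0)],[]),
  (3,[(1,2)],[]),
  (5,[(1,4)],[]),
  (7,[(1,6),(-1,66)],[]),
  (17,[(1,16)],[]),
  (21,[(1,20)],[]),
  (33,[(1,32)],[]),
  (35,[(-1,18),(1,34)],[]),
  (37,[(1,36)],[]),
  (39,[(1,38),(-1,82),(1,98)],[]),
  (49,[(1,18),(1,48)],[]),
  (50,[(1,18)],[]),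
  (65,[(1,64)],[]),
  (69,[(-1,66),(1,68)],[]),
  (70,[(-1,66)],[]),
  (81,[(1,80)],[]),
  (85,[(1,84)],[]),
  (97,[(1,96)],[]),
  (101,[(1,82),(-1,98),(1,100)],[]),
  (102,[(1,82),(-1,98)],[]),
  (113,[(1,82),(1,112)],[]),
  (114,[(1,82)],[])]
noncomputable def t1_120 : Tab := [(8,[(1,0)],[]),
  (24,[(1,16)],[]),
  (40,[(1,32)],[(1,38)]),
  (72,[(1,64)],[(1,38)]),
  (88,[(-1,48),(1,80)],[]),
  (96,[],[(-1,38)]),
  (112,[(-1,48)],[])]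
noncomputable def t1_121 : Tab := [(1,[(1,0)],[]),
  (9,[(1,8)],[(-1,51)]),
  (17,[(1,16)],[]),
  (33,[(1,32)],[]),
  (41,[(1,40)],[]),
  (49,[(-1,24),(1,48),(-1,80)],[]),
  (65,[(1,64)],[(-1,51)]),
  (72,[],[(-1,51)]),
  (88,[(1,24)],[]),
  (97,[(-1,24),(-1,80),(1,96)],[]),
  (112,[(1,24),(1,80)],[]),
  (113,[(-1,81)],[])]
noncomputable def t1_122 : Tab := [(2,[(1,0)],[]),
  (10,[(1,8)],[]),
  (18,[(1,16)],[]),
  (26,[(1,24)],[]),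
  (34,[(1,32)],[]),
  (42,[(1,40)],[]),
  (50,[(1,48)],[]),
  (66,[(1,64)],[]),
  (74,[(1,72)],[]),
  (82,[(1,80)],[]),
  (90,[(1,88)],[]),
  (98,[(1,96)],[]),
  (114,[(1,112)],[])]
noncomputable def t1_123 : Tab := [(1,[(1,0)],[]),
  (3,[(1,2)],[]),
  (9,[(1,8)],[]),
  (11,[(1,10),(-1,24),(-1,72)],[]),
  (17,[(1,16)],[]),
  (33,[(1,32)],[]),
  (35,[(-1,18),(1,24),(1,34),(-1,66),(1,72)],[]),
  (41,[(1,40)],[]),
  (43,[(1,42)],[]),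
  (49,[(1,18),(-1,24),(1,48),(-1,80)],[]),
  (50,[(1,18),(-1,24),(-1,80)],[]),
  (65,[(1,64)],[]),
  (74,[(-1,24),(-1,72)],[]),
  (82,[(-1,24),(-1,80)],[]),
  (88,[(-1,24)],[]),
  (90,[(1,26)],[]),
  (97,[(-1,66),(1,72),(-1,80),(1,96)],[]),
  (98,[(-1,66),(1,72),(-1,80)],[]),
  (113,[(1,81)],[]),
  (114,[(1,81),(-1,112)],[])]
noncomputable def t1_124 : Tab := [(4,[(1,0)],[]),
  (12,[(1,8)],[(-1,52)]),
  (20,[(1,16)],[]),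
  (36,[(1,32)],[(1,52)]),
  (40,[],[(1,52)]),
  (68,[(1,64)],[]),
  (76,[(1,24),(1,72)],[]),
  (84,[(1,24),(-1,48),(1,80)],[]),
  (88,[(1,24)],[]),
  (100,[(-1,48),(1,96)],[]),
  (112,[(1,48)],[])]
noncomputable def t1_125 : Tab := [(1,[(1,0)],[]),
  (5,[(1,4)],[]),
  (9,[(1,8)],[]),
  (13,[(1,12),(-1,24),(-1,72)],[]),
  (17,[(1,16)],[]),
  (21,[(1,20)],[]),
  (33,[(1,32)],[]),
  (37,[(1,36)],[]),
  (41,[(1,40)],[]),
  (49,[(1,48)],[]),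
  (65,[(1,64)],[]),
  (69,[(-1,24),(1,68),(-1,72)],[]),
  (76,[(-1,24),(-1,72)],[]),
  (81,[(1,24),(1,80)],[]),
  (85,[(1,84)],[]),
  (88,[(-1,24)],[]),
  (97,[(1,96)],[]),
  (101,[(1,100)],[]),
  (113,[(1,112)],[])]
noncomputable def t1_126 : Tab := [(2,[(1,0)],[]),
  (6,[(1,4)],[]),
  (10,[(1,8)],[]),
  (14,[(1,12)],[]),
  (18,[(1,16)],[]),
  (26,[(1,24)],[]),
  (34,[(1,32)],[]),
  (38,[(1,36)],[]),
  (42,[(1,40)],[]),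
  (50,[(1,48)],[]),
  (66,[(1,64)],[]),
  (70,[(1,20),(1,68)],[]),
  (74,[(1,72)],[]),
  (78,[(1,76)],[]),
  (82,[(-1,20),(1,80)],[]),
  (84,[(-1,20)],[]),
  (90,[(1,88)],[]),
  (98,[(1,96)],[]),
  (102,[(1,100)],[]),
  (114,[(1,112)],[])]
noncomputable def t1_127 : Tab := [(1,[(1,0)],[]),
  (3,[(1,2)],[]),
  (5,[(1,4)],[]),
  (7,[(1,6),(1,24),(1,66),(1,72)],[]),
  (9,[(1,8)],[]),
  (11,[(1,10),(1,24),(1,72)],[]),
  (13,[(1,12)],[]),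
  (15,[(1,14),(-1,76)],[]),
  (17,[(1,16)],[]),
  (21,[(1,20)],[]),
  (33,[(1,32)],[]),
  (35,[(-1,18),(1,34)],[]),
  (37,[(1,36)],[]),
  (39,[(1,26),(1,38),(1,82),(-1,98)],[]),
  (41,[(1,40)],[]),
  (43,[(1,42)],[]),
  (49,[(-1,18),(1,48)],[]),
  (50,[(-1,18)],[]),
  (65,[(1,64)],[]),
  (69,[(-1,24),(-1,66),(1,68),(-1,72)],[]),
  (70,[(-1,24),(-1,66),(-1,72)],[]),
  (74,[(-1,24),(-1,72)],[]),
  (78,[(-1,76)],[]),
  (81,[(1,24),(1,80)],[]),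
  (85,[(1,84)],[]),
  (88,[(1,24)],[]),
  (90,[(-1,26)],[]),
  (97,[(1,96)],[]),
  (101,[(1,26),(1,82),(-1,98),(1,100)],[]),
  (102,[(1,26),(1,82),(-1,98)],[]),
  (113,[(-1,26),(-1,82),(1,112)],[]),
  (114,[(-1,26),(-1,82)],[])]
noncomputable def t1_128 : Tab := [(128,[(1,0)],[])]
noncomputable def t1_129 : Tab := [(1,[(1,0)],[]),
  (129,[(1,128)],[])]
noncomputable def t1_130 : Tab := [(2,[(1,0)],[]),
  (130,[(1,128)],[])]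
noncomputable def t1_131 : Tab := [(1,[(1,0)],[]),
  (3,[(1,2)],[(1,11)]),
  (129,[(1,128)],[(1,11)]),
  (130,[],[(1,11)])]
noncomputable def t1_132 : Tab := [(4,[(1,0)],[]),
  (132,[(1,128)],[])]
noncomputable def t1_133 : Tab := [(1,[(1,0)],[]),
  (5,[(1,4)],[]),
  (129,[(1,128)],[]),
  (133,[(1,132)],[])]
noncomputable def t1_134 : Tab := [(2,[(1,0)],[]),
  (6,[(1,4)],[(1,12)]),
  (130,[(1,128)],[(1,12)]),
  (132,[],[(1,12)])]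
noncomputable def t1_135 : Tab := [(1,[(1,0)],[]),
  (3,[(1,2)],[(-1,25)]),
  (5,[(1,4)],[]),
  (7,[(1,6)],[]),
  (129,[(1,128)],[(1,25)]),
  (130,[],[(1,25)]),
  (133,[(1,132)],[])]
noncomputable def t1_136 : Tab := [(8,[(1,0)],[]),
  (136,[(1,128)],[])]
noncomputable def t1_137 : Tab := [(1,[(1,0)],[]),
  (9,[(1,8)],[]),
  (129,[(1,128)],[]),
  (137,[(1,136)],[])]
noncomputable def t1_138 : Tab := [(2,[(1,0)],[]),
  (10,[(1,8)],[]),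
  (130,[(1,128)],[]),
  (138,[(1,136)],[])]
noncomputable def t1_139 : Tab := [(1,[(1,0)],[]),
  (3,[(1,2)],[]),
  (9,[(1,8)],[]),
  (11,[(1,10),(-1,130)],[]),
  (129,[(1,128)],[]),
  (137,[(-1,130),(1,136)],[]),
  (138,[(-1,130)],[])]
noncomputable def t1_140 : Tab := [(4,[(1,0)],[]),
  (12,[(1,8)],[]),
  (132,[(1,128)],[]),
  (140,[(1,136)],[])]
noncomputable def t1_141 : Tab := [(1,[(1,0)],[]),
  (5,[(1,4)],[]),
  (9,[(1,8)],[]),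
  (13,[(1,12)],[]),
  (129,[(1,128)],[]),
  (133,[(1,132)],[]),
  (137,[(1,136)],[]),
  (141,[(1,140)],[])]
noncomputable def t1_142 : Tab := [(2,[(1,0)],[]),
  (6,[(1,4)],[]),
  (10,[(1,8)],[]),
  (14,[(1,12),(-1,132)],[]),
  (130,[(1,128)],[]),
  (138,[(-1,132),(1,136)],[]),
  (140,[(-1,132)],[])]
noncomputable def t1_143 : Tab := [(1,[(1,0)],[]),
  (3,[(1,2)],[]),
  (5,[(1,4)],[]),
  (7,[(1,6)],[]),
  (9,[(1,8)],[]),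
  (11,[(1,10),(-1,130)],[]),
  (13,[(1,12),(-1,130),(-1,136)],[]),
  (15,[(1,14)],[]),
  (129,[(1,128)],[]),
  (133,[(-1,130),(1,132),(-1,136)],[]),
  (138,[(1,130)],[]),
  (140,[(1,130),(1,136)],[]),
  (141,[(-1,137)],[])]
noncomputable def t1_144 : Tab := [(16,[(1,0)],[]),
  (144,[(1,128)],[])]
noncomputable def t1_145 : Tab := [(1,[(1,0)],[]),
  (17,[(1,16)],[]),
  (129,[(1,128)],[]),
  (145,[(1,144)],[])]
noncomputable def t1_146 : Tab := [(2,[(1,0)],[]),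
  (18,[(1,16)],[]),
  (130,[(1,128)],[]),
  (146,[(1,144)],[])]
noncomputable def t1_147 : Tab := [(1,[(1,0)],[]),
  (3,[(1,2)],[(-1,26)]),
  (17,[(1,16)],[]),
  (129,[(1,128)],[(1,26)]),
  (130,[],[(1,26)]),
  (145,[(-1,18),(1,144)],[]),
  (146,[(-1,18)],[])]
noncomputable def t1_148 : Tab := [(4,[(1,0)],[]),
  (20,[(1,16)],[]),
  (132,[(1,128)],[]),
  (148,[(1,144)],[])]
noncomputable def t1_149 : Tab := [(1,[(1,0)],[]),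
  (5,[(1,4)],[]),
  (17,[(1,16)],[]),
  (21,[(1,20)],[]),
  (129,[(1,128)],[]),
  (133,[(1,132)],[]),
  (145,[(1,144)],[]),
  (149,[(1,148)],[])]
noncomputable def t1_150 : Tab := [(2,[(1,0)],[]),
  (6,[(1,4)],[(-1,39)]),
  (18,[(1,16)],[]),
  (130,[(1,128)],[(1,39)]),
  (132,[],[(1,39)]),
  (146,[(-1,20),(1,144)],[]),
  (148,[(-1,20)],[])]
noncomputable def t1_151 : Tab := [(1,[(1,0)],[]),
  (3,[(1,2)],[(-1,53)]),
  (5,[(1,4)],[]),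
  (7,[(1,6)],[]),
  (17,[(1,16)],[]),
  (21,[(-1,18),(1,20),(-1,144)],[]),
  (129,[(1,128)],[(-1,53)]),
  (130,[],[(-1,53)]),
  (133,[(-1,18),(1,132),(-1,144)],[]),
  (146,[(1,18)],[]),
  (148,[(1,18),(1,144)],[]),
  (149,[(-1,145)],[])]
noncomputable def t1_152 : Tab := [(8,[(1,0)],[]),
  (24,[(1,16)],[]),
  (136,[(1,128)],[]),
  (152,[(1,144)],[])]
noncomputable def t1_153 : Tab := [(1,[(1,0)],[]),
  (9,[(1,8)],[]),
  (17,[(1,16)],[]),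
  (129,[(1,128)],[]),
  (137,[(-1,24),(1,136)],[]),
  (145,[(-1,24),(1,144)],[]),
  (152,[(-1,24)],[])]
noncomputable def t1_154 : Tab := [(2,[(1,0)],[]),
  (10,[(1,8)],[]),
  (18,[(1,16)],[]),
  (26,[(1,24)],[]),
  (130,[(1,128)],[]),
  (138,[(1,136)],[]),
  (146,[(1,144)],[]),
  (154,[(1,152)],[])]
noncomputable def t1_155 : Tab := [(1,[(1,0)],[]),
  (3,[(1,2)],[]),
  (9,[(1,8)],[]),
  (11,[(1,10),(-1,18),(1,130)],[]),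
  (17,[(1,16)],[]),
  (129,[(1,128)],[]),
  (137,[(1,18),(-1,24),(-1,130),(1,136)],[]),
  (138,[(1,18),(-1,130)],[]),
  (145,[(1,18),(-1,24),(1,144)],[]),
  (146,[(1,18)],[]),
  (152,[(1,24)],[]),
  (154,[(-1,26)],[])]
noncomputable def t1_156 : Tab := [(4,[(1,0)],[]),
  (12,[(1,8)],[]),
  (20,[(1,16)],[]),
  (132,[(1,128)],[]),
  (140,[(-1,24),(1,136)],[]),
  (148,[(-1,24),(1,144)],[]),
  (152,[(-1,24)],[])]
noncomputable def t1_157 : Tab := [(1,[(1,0)],[]),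
  (5,[(1,4)],[]),
  (9,[(1,8)],[]),
  (13,[(1,12),(-1,24),(1,136)],[]),
  (17,[(1,16)],[]),
  (21,[(1,20),(-1,24),(1,144)],[]),
  (129,[(1,128)],[]),
  (133,[(1,132),(-1,136),(1,144)],[]),
  (140,[(1,24),(-1,136)],[]),
  (141,[(1,137)],[]),
  (148,[(1,24),(-1,144)],[]),
  (149,[(1,145)],[]),
  (152,[(1,24)],[])]
noncomputable def t1_158 : Tab := [(2,[(1,0)],[]),
  (6,[(1,4)],[]),
  (10,[(1,8)],[]),
  (14,[(1,12),(-1,20),(1,132)],[]),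
  (18,[(1,16)],[]),
  (26,[(-1,20),(1,24),(-1,144)],[]),
  (130,[(1,128)],[]),
  (138,[(-1,132),(1,136),(-1,144)],[]),
  (140,[(1,20),(-1,132)],[]),
  (148,[(1,20)],[]),
  (152,[(1,20),(1,144)],[]),
  (154,[(-1,146)],[])]
noncomputable def t1_159 : Tab := [(1,[(1,0)],[]),
  (3,[(1,2)],[]),
  (5,[(1,4)],[]),
  (7,[(1,6)],[]),
  (9,[(1,8)],[]),
  (11,[(1,10),(-1,18),(1,130)],[]),
  (13,[(1,12),(-1,18),(-1,24),(1,130),(1,136)],[]),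
  (15,[(1,14)],[]),
  (17,[(1,16)],[]),
  (21,[(-1,18),(1,20),(-1,24),(1,144)],[]),
  (129,[(1,128)],[]),
  (133,[(-1,130),(1,132),(-1,136),(1,144)],[]),
  (138,[(-1,18),(1,130)],[]),
  (140,[(-1,18),(-1,24),(1,130),(1,136)],[]),
  (141,[(-1,137)],[]),
  (146,[(-1,18)],[]),
  (148,[(-1,18),(-1,24),(1,144)],[]),
  (149,[(-1,145)],[]),
  (152,[(-1,24)],[]),
  (154,[(1,26)],[])]
noncomputable def t1_160 : Tab := [(32,[(1,0)],[]),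
  (160,[(1,128)],[])]
noncomputable def t1_161 : Tab := [(1,[(1,0)],[]),
  (33,[(1,32)],[]),
  (129,[(1,128)],[]),
  (161,[(1,160)],[])]
noncomputable def t1_162 : Tab := [(2,[(1,0)],[]),
  (34,[(1,32)],[]),
  (130,[(1,128)],[]),
  (162,[(1,160)],[])]
noncomputable def t1_163 : Tab := [(1,[(1,0)],[]),
  (3,[(1,2)],[]),
  (33,[(1,32)],[]),
  (35,[(1,34),(-1,130)],[]),
  (129,[(1,128)],[]),
  (161,[(-1,130),(1,160)],[]),
  (162,[(-1,130)],[])]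
noncomputable def t1_164 : Tab := [(4,[(1,0)],[]),
  (36,[(1,32)],[(1,13)]),
  (132,[(1,128)],[(1,13)]),
  (160,[],[(1,13)])]
noncomputable def t1_165 : Tab := [(1,[(1,0)],[]),
  (5,[(1,4)],[]),
  (33,[(1,32)],[]),
  (37,[(1,36)],[]),
  (129,[(1,128)],[]),
  (133,[(1,132)],[]),
  (161,[(1,160)],[])]
noncomputable def t1_166 : Tab := [(2,[(1,0)],[]),
  (6,[(1,4)],[(1,40)]),
  (34,[(1,32)],[]),
  (38,[(1,36)],[]),
  (130,[(1,128)],[(-1,40)]),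
  (132,[],[(-1,40)]),
  (162,[(1,160)],[])]
noncomputable def t1_167 : Tab := [(1,[(1,0)],[]),
  (3,[(1,2)],[]),
  (5,[(1,4)],[]),
  (7,[(1,6)],[]),
  (33,[(1,32)],[]),
  (35,[(1,34),(-1,130)],[]),
  (37,[(1,36)],[]),
  (39,[(1,38)],[]),
  (129,[(1,128)],[]),
  (133,[(1,132)],[]),
  (161,[(1,130),(1,160)],[]),
  (162,[(1,130)],[])]
noncomputable def t1_168 : Tab := [(8,[(1,0)],[]),
  (40,[(1,32)],[]),
  (136,[(1,128)],[]),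
  (168,[(1,160)],[])]
noncomputable def t1_169 : Tab := [(1,[(1,0)],[]),
  (9,[(1,8)],[]),
  (33,[(1,32)],[]),
  (41,[(1,40)],[]),
  (129,[(1,128)],[]),
  (137,[(1,136)],[]),
  (161,[(1,160)],[]),
  (169,[(1,168)],[])]
noncomputable def t1_170 : Tab := [(2,[(1,0)],[]),
  (10,[(1,8)],[]),
  (34,[(1,32)],[]),
  (42,[(1,40)],[]),
  (130,[(1,128)],[]),
  (138,[(1,136)],[]),
  (162,[(1,160)],[]),
  (170,[(1,168)],[])]
noncomputable def t1_171 : Tab := [(1,[(1,0)],[]),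
  (3,[(1,2)],[]),
  (9,[(1,8)],[]),
  (11,[(1,10),(1,130)],[]),
  (33,[(1,32)],[]),
  (35,[(1,34)],[]),
  (41,[(1,40)],[]),
  (43,[(1,42),(-1,162)],[]),
  (129,[(1,128)],[]),
  (137,[(-1,130),(1,136)],[]),
  (138,[(-1,130)],[]),
  (161,[(1,160)],[]),
  (169,[(-1,162),(1,168)],[]),
  (170,[(-1,162)],[])]
noncomputable def t1_172 : Tab := [(4,[(1,0)],[]),
  (12,[(1,8)],[]),
  (36,[(1,32)],[(1,41)]),
  (132,[(1,128)],[(1,41)]),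
  (140,[(-1,40),(1,136)],[]),
  (160,[],[(-1,41)]),
  (168,[(-1,40)],[])]
noncomputable def t1_173 : Tab := [(1,[(1,0)],[]),
  (5,[(1,4)],[]),
  (9,[(1,8)],[]),
  (13,[(1,12)],[]),
  (33,[(1,32)],[]),
  (37,[(1,36)],[]),
  (41,[(1,40)],[]),
  (129,[(1,128)],[]),
  (133,[(1,132)],[]),
  (137,[(1,136)],[]),
  (141,[(1,140)],[]),
  (161,[(1,160)],[]),
  (169,[(1,168)],[])]
noncomputable def t1_174 : Tab := [(2,[(1,0)],[]),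
  (6,[(1,4)],[]),
  (10,[(1,8)],[]),
  (14,[(1,12),(1,132)],[]),
  (34,[(1,32)],[]),
  (38,[(1,36)],[]),
  (42,[(1,40),(1,132),(-1,136)],[]),
  (130,[(1,128)],[]),
  (140,[(-1,132)],[]),
  (162,[(1,132),(-1,136),(1,160)],[]),
  (168,[(-1,132),(1,136)],[]),
  (170,[(-1,138)],[])]
noncomputable def t1_175 : Tab := [(1,[(1,0)],[]),
  (3,[(1,2)],[]),
  (5,[(1,4)],[]),
  (7,[(1,6)],[]),
  (9,[(1,8)],[]),
  (11,[(1,10),(1,130)],[]),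
  (13,[(1,12)],[]),
  (15,[(1,14)],[]),
  (33,[(1,32)],[]),
  (35,[(1,34)],[]),
  (37,[(1,36)],[]),
  (39,[(1,38)],[]),
  (41,[(1,40)],[]),
  (43,[(1,42),(-1,162)],[]),
  (129,[(1,128)],[]),
  (133,[(1,132)],[]),
  (137,[(1,130),(1,136)],[]),
  (138,[(1,130)],[]),
  (141,[(1,140)],[]),
  (161,[(1,160)],[]),
  (169,[(1,162),(1,168)],[]),
  (170,[(1,162)],[])]
noncomputable def t1_176 : Tab := [(16,[(1,0)],[]),
  (48,[(1,32)],[]),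
  (144,[(1,128)],[]),
  (176,[(1,160)],[])]
noncomputable def t1_177 : Tab := [(1,[(1,0)],[]),
  (17,[(1,16)],[]),
  (33,[(1,32)],[]),
  (49,[(1,48)],[]),
  (129,[(1,128)],[]),
  (145,[(1,144)],[]),
  (161,[(1,160)],[]),
  (177,[(1,176)],[])]
noncomputable def t1_178 : Tab := [(2,[(1,0)],[]),
  (18,[(1,16)],[]),
  (34,[(1,32)],[]),
  (50,[(1,48)],[]),
  (130,[(1,128)],[]),
  (146,[(1,144)],[]),
  (162,[(1,160)],[]),
  (178,[(1,176)],[])]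
noncomputable def t1_179 : Tab := [(1,[(1,0)],[]),
  (3,[(1,2)],[]),
  (17,[(1,16)],[]),
  (33,[(1,32)],[]),
  (35,[(-1,18),(1,34),(-1,130)],[]),
  (49,[(-1,18),(1,48),(-1,130)],[]),
  (50,[(-1,18),(-1,130)],[]),
  (129,[(1,128)],[]),
  (145,[(-1,130),(1,144)],[]),
  (146,[(-1,130)],[]),
  (161,[(1,160)],[]),
  (177,[(-1,162),(1,176)],[]),
  (178,[(-1,162)],[])]
noncomputable def t1_180 : Tab := [(4,[(1,0)],[]),
  (20,[(1,16)],[]),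
  (36,[(1,32)],[(1,42)]),
  (132,[(1,128)],[(1,42)]),
  (148,[(-1,48),(1,144)],[]),
  (160,[],[(-1,42)]),
  (176,[(-1,48)],[])]
noncomputable def t1_181 : Tab := [(1,[(1,0)],[]),
  (5,[(1,4)],[]),
  (17,[(1,16)],[]),
  (21,[(1,20)],[]),
  (33,[(1,32)],[]),
  (37,[(1,36)],[]),
  (49,[(1,48)],[]),
  (129,[(1,128)],[]),
  (133,[(1,132)],[]),
  (145,[(1,144)],[]),
  (149,[(1,148)],[]),
  (161,[(1,160)],[]),
  (177,[(1,176)],[])]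
noncomputable def t1_182 : Tab := [(2,[(1,0)],[]),
  (6,[(1,4)],[(1,54)]),
  (18,[(1,16)],[]),
  (34,[(1,32)],[]),
  (38,[(1,36)],[]),
  (50,[(-1,20),(1,48),(-1,144)],[]),
  (130,[(1,128)],[(1,54)]),
  (132,[],[(1,54)]),
  (148,[(1,20)],[]),
  (162,[(-1,20),(-1,144),(1,160)],[]),
  (176,[(1,20),(1,144)],[]),
  (178,[(-1,146)],[])]
noncomputable def t1_183 : Tab := [(1,[(1,0)],[]),
  (3,[(1,2)],[]),
  (5,[(1,4)],[]),
  (7,[(1,6)],[]),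
  (17,[(1,16)],[]),
  (21,[(1,20)],[]),
  (33,[(1,32)],[]),
  (35,[(-1,18),(1,34),(-1,130)],[]),
  (37,[(1,36)],[]),
  (39,[(1,38)],[]),
  (49,[(1,18),(1,48),(1,130)],[]),
  (50,[(1,18),(1,130)],[]),
  (129,[(1,128)],[]),
  (133,[(1,132)],[]),
  (145,[(1,130),(1,144)],[]),
  (146,[(1,130)],[]),
  (149,[(1,148)],[]),
  (161,[(1,160)],[]),
  (177,[(1,162),(1,176)],[]),
  (178,[(1,162)],[])]
noncomputable def t1_184 : Tab := [(8,[(1,0)],[]),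
  (24,[(1,16)],[]),
  (40,[(1,32)],[]),
  (136,[(1,128)],[]),
  (152,[(-1,48),(1,144)],[]),
  (168,[(-1,48),(1,160)],[]),
  (176,[(-1,48)],[])]
noncomputable def t1_185 : Tab := [(1,[(1,0)],[]),
  (9,[(1,8)],[]),
  (17,[(1,16)],[]),
  (33,[(1,32)],[]),
  (41,[(-1,24),(1,40),(-1,136)],[]),
  (49,[(-1,24),(1,48),(-1,144)],[]),
  (129,[(1,128)],[]),
  (152,[(1,24)],[]),
  (161,[(1,136),(-1,144),(1,160)],[]),
  (168,[(1,24),(1,136)],[]),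
  (169,[(-1,137)],[]),
  (176,[(1,24),(1,144)],[]),
  (177,[(-1,145)],[])]
noncomputable def t1_186 : Tab := [(2,[(1,0)],[]),
  (10,[(1,8)],[]),
  (18,[(1,16)],[]),
  (26,[(1,24)],[]),
  (34,[(1,32)],[]),
  (42,[(1,40)],[]),
  (50,[(1,48)],[]),
  (130,[(1,128)],[]),
  (138,[(1,136)],[]),
  (146,[(1,144)],[]),
  (154,[(1,152)],[]),
  (162,[(1,160)],[]),
  (170,[(1,168)],[]),
  (178,[(1,176)],[])]
noncomputable def t1_187 : Tab := [(1,[(1,0)],[]),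
  (3,[(1,2)],[]),
  (9,[(1,8)],[]),
  (11,[(1,10),(-1,24),(-1,136)],[]),
  (17,[(1,16)],[]),
  (33,[(1,32)],[]),
  (35,[(-1,18),(1,24),(1,34),(-1,130),(1,136)],[]),
  (41,[(1,40)],[]),
  (43,[(1,42),(-1,137),(1,168)],[]),
  (49,[(1,18),(-1,24),(1,48),(-1,144)],[]),
  (50,[(1,18),(-1,24),(-1,144)],[]),
  (129,[(1,128)],[]),
  (138,[(-1,24),(-1,136)],[]),
  (146,[(-1,24),(-1,144)],[]),
  (152,[(-1,24)],[]),
  (154,[(1,26)],[]),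
  (161,[(-1,130),(1,136),(-1,144),(1,160)],[]),
  (162,[(-1,130),(1,136),(-1,144)],[]),
  (169,[(1,137)],[]),
  (170,[(1,137),(-1,168)],[]),
  (177,[(1,145)],[]),
  (178,[(1,145),(-1,176)],[])]
noncomputable def t1_188 : Tab := [(4,[(1,0)],[]),
  (12,[(1,8)],[]),
  (20,[(1,16)],[]),
  (36,[(1,32)],[(-1,55)]),
  (132,[(1,128)],[(-1,55)]),
  (140,[(1,24),(-1,40),(1,136)],[]),
  (148,[(1,24),(-1,48),(1,144)],[]),
  (152,[(1,24)],[]),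
  (160,[],[(-1,55)]),
  (168,[(1,40)],[]),
  (176,[(1,48)],[])]
noncomputable def t1_189 : Tab := [(1,[(1,0)],[]),
  (5,[(1,4)],[]),
  (9,[(1,8)],[]),
  (13,[(1,12)],[]),
  (17,[(1,16)],[]),
  (21,[(1,20)],[]),
  (33,[(1,32)],[]),
  (37,[(1,36)],[]),
  (41,[(1,40)],[]),
  (49,[(1,48)],[]),
  (129,[(1,128)],[]),
  (133,[(1,132)],[]),
  (137,[(1,24),(1,136)],[]),
  (141,[(1,140)],[]),
  (145,[(1,24),(1,144)],[]),
  (149,[(1,148)],[]),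
  (152,[(-1,24)],[]),
  (161,[(1,160)],[]),
  (169,[(1,168)],[]),
  (177,[(1,176)],[])]
noncomputable def t1_190 : Tab := [(2,[(1,0)],[]),
  (6,[(1,4)],[]),
  (10,[(1,8)],[]),
  (14,[(1,12),(-1,20),(-1,132)],[]),
  (18,[(1,16)],[]),
  (26,[(1,24)],[]),
  (34,[(1,32)],[]),
  (38,[(1,36)],[]),
  (42,[(1,40)],[]),
  (50,[(1,48)],[]),
  (130,[(1,128)],[]),
  (138,[(-1,20),(-1,132),(1,136)],[]),
  (140,[(-1,20),(-1,132)],[]),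
  (146,[(-1,20),(1,144)],[]),
  (148,[(-1,20)],[]),
  (154,[(1,152)],[]),
  (162,[(1,160)],[]),
  (170,[(1,168)],[]),
  (178,[(1,176)],[])]
noncomputable def t1_191 : Tab := [(1,[(1,0)],[]),
  (3,[(1,2)],[]),
  (5,[(1,4)],[]),
  (7,[(1,6)],[]),
  (9,[(1,8)],[]),
  (11,[(1,10)],[]),
  (13,[(1,12)],[]),
  (15,[(1,14)],[]),
  (17,[(1,16)],[]),
  (21,[(1,20)],[]),
  (33,[(1,32)],[]),
  (35,[(-1,18),(1,34),(-1,130)],[]),
  (37,[(1,36)],[]),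
  (39,[(1,38)],[]),
  (41,[(1,40)],[]),
  (43,[(-1,26),(1,42),(-1,138)],[]),
  (49,[(-1,18),(1,48)],[]),
  (50,[(-1,18)],[]),
  (129,[(1,128)],[]),
  (133,[(1,132)],[]),
  (137,[(1,24),(1,136)],[]),
  (141,[(1,140)],[]),
  (145,[(1,24),(1,144)],[]),
  (149,[(1,148)],[]),
  (152,[(1,24)],[]),
  (154,[(-1,26)],[]),
  (161,[(1,130),(1,160)],[]),
  (162,[(1,130)],[]),
  (169,[(-1,26),(-1,138),(1,168)],[]),
  (170,[(-1,26),(-1,138)],[]),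
  (177,[(-1,26),(-1,146),(1,176)],[]),
  (178,[(-1,26),(-1,146)],[])]
noncomputable def t1_192 : Tab := [(64,[(1,0)],[]),
  (192,[(1,128)],[])]
noncomputable def t1_193 : Tab := [(1,[(1,0)],[]),
  (65,[(1,64)],[(1,14)]),
  (129,[(1,128)],[(1,14)]),
  (192,[],[(1,14)])]
noncomputable def t1_194 : Tab := [(2,[(1,0)],[]),
  (66,[(1,64)],[(1,15)]),
  (130,[(1,128)],[(1,15)]),
  (192,[],[(1,15)])]
noncomputable def t1_195 : Tab := [(1,[(1,0)],[]),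
  (3,[(1,2)],[(1,27),(-1,28)]),
  (65,[(1,64)],[(1,27),(-1,29)]),
  (66,[],[(1,27)]),
  (129,[(1,128)],[(1,28),(-1,29)]),
  (130,[],[(1,28)]),
  (192,[],[(1,29)])]
noncomputable def t1_196 : Tab := [(4,[(1,0)],[]),
  (68,[(1,64)],[]),
  (132,[(1,128)],[]),
  (196,[(1,192)],[])]
noncomputable def t1_197 : Tab := [(1,[(1,0)],[]),
  (5,[(1,4)],[]),
  (65,[(1,64)],[]),
  (69,[(1,68),(-1,192)],[]),
  (129,[(1,128)],[]),
  (133,[(1,132),(-1,192)],[]),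
  (196,[(-1,192)],[])]
noncomputable def t1_198 : Tab := [(2,[(1,0)],[]),
  (6,[(1,4)],[]),
  (66,[(1,64)],[(-1,43)]),
  (70,[(1,68),(-1,132)],[]),
  (130,[(1,128)],[(-1,43)]),
  (192,[],[(1,43)]),
  (196,[(-1,132)],[])]
noncomputable def t1_199 : Tab := [(1,[(1,0)],[]),
  (3,[(1,2)],[(1,56)]),
  (5,[(1,4)],[]),
  (7,[(1,6),(-1,66)],[]),
  (65,[(1,64)],[]),
  (69,[(-1,66),(1,68),(-1,192)],[]),
  (70,[(-1,66)],[]),
  (129,[(1,128)],[(1,56)]),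
  (130,[],[(1,56)]),
  (133,[(1,132),(-1,192)],[]),
  (196,[(1,192)],[])]
noncomputable def t1_200 : Tab := [(8,[(1,0)],[]),
  (72,[(1,64)],[]),
  (136,[(1,128)],[]),
  (200,[(1,192)],[])]
noncomputable def t1_201 : Tab := [(1,[(1,0)],[]),
  (9,[(1,8)],[]),
  (65,[(1,64)],[(-1,30)]),
  (129,[(1,128)],[(-1,30)]),
  (137,[(-1,72),(1,136)],[]),
  (192,[],[(1,30)]),
  (200,[(-1,72)],[])]
noncomputable def t1_202 : Tab := [(2,[(1,0)],[]),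
  (10,[(1,8)],[]),
  (66,[(1,64)],[]),
  (74,[(1,72),(-1,192)],[]),
  (130,[(1,128)],[]),
  (138,[(1,136),(-1,192)],[]),
  (200,[(-1,192)],[])]
noncomputable def t1_203 : Tab := [(1,[(1,0)],[]),
  (3,[(1,2)],[]),
  (9,[(1,8)],[(-1,57)]),
  (11,[(1,10),(-1,66),(1,130)],[]),
  (65,[(1,64)],[(-1,57)]),
  (72,[],[(1,57)]),
  (74,[(-1,66)],[]),
  (129,[(1,128)],[]),
  (137,[(-1,130),(1,136),(-1,192)],[]),
  (138,[(-1,130)],[]),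
  (200,[(1,192)],[])]
noncomputable def t1_204 : Tab := [(4,[(1,0)],[]),
  (12,[(1,8)],[]),
  (68,[(1,64)],[]),
  (76,[(1,72)],[]),
  (132,[(1,128)],[]),
  (140,[(1,136)],[]),
  (196,[(1,192)],[]),
  (204,[(1,200)],[])]
noncomputable def t1_205 : Tab := [(1,[(1,0)],[]),
  (5,[(1,4)],[]),
  (9,[(1,8)],[]),
  (13,[(1,12),(-1,72)],[]),
  (65,[(1,64)],[]),
  (69,[(1,68),(-1,72),(1,192)],[]),
  (76,[(-1,72)],[]),
  (129,[(1,128)],[]),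
  (133,[(1,132),(1,192)],[]),
  (137,[(1,136)],[]),
  (141,[(1,140),(-1,200)],[]),
  (196,[(-1,192)],[]),
  (204,[(-1,200)],[])]
noncomputable def t1_206 : Tab := [(2,[(1,0)],[]),
  (6,[(1,4)],[]),
  (10,[(1,8)],[]),
  (14,[(1,12),(1,132),(1,192)],[]),
  (66,[(1,64)],[]),
  (70,[(1,68),(1,192)],[]),
  (74,[(1,72)],[]),
  (78,[(1,76),(-1,200)],[]),
  (130,[(1,128)],[]),
  (138,[(-1,132),(1,136),(-1,192)],[]),
  (140,[(-1,132),(-1,192)],[]),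
  (196,[(-1,192)],[]),
  (204,[(-1,200)],[])]
noncomputable def t1_207 : Tab := [(1,[(1,0)],[]),
  (3,[(1,2)],[]),
  (5,[(1,4)],[]),
  (7,[(1,6),(1,66),(1,72)],[]),
  (9,[(1,8)],[]),
  (11,[(1,10),(1,72),(1,130)],[]),
  (13,[(1,12),(1,130),(1,136)],[]),
  (15,[(1,14),(-1,76),(1,200)],[]),
  (65,[(1,64)],[]),
  (69,[(-1,66),(1,68),(-1,72),(1,192)],[]),
  (70,[(-1,66),(-1,72)],[]),
  (74,[(-1,72)],[]),
  (78,[(-1,76),(1,200)],[]),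
  (129,[(1,128)],[]),
  (133,[(-1,130),(1,132),(-1,136),(1,192)],[]),
  (138,[(1,130)],[]),
  (140,[(1,130),(1,136)],[]),
  (141,[(-1,137)],[]),
  (196,[(1,192)],[]),
  (204,[(1,200)],[])]
noncomputable def t1_208 : Tab := [(16,[(1,0)],[]),
  (80,[(1,64)],[]),
  (144,[(1,128)],[]),
  (208,[(1,192)],[])]
noncomputable def t1_209 : Tab := [(1,[(1,0)],[]),
  (17,[(1,16)],[]),
  (65,[(1,64)],[]),
  (81,[(1,80),(-1,192)],[]),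
  (129,[(1,128)],[]),
  (145,[(1,144),(-1,192)],[]),
  (208,[(-1,192)],[])]
noncomputable def t1_210 : Tab := [(2,[(1,0)],[]),
  (18,[(1,16)],[]),
  (66,[(1,64)],[]),
  (82,[(1,80),(-1,192)],[]),
  (130,[(1,128)],[]),
  (146,[(1,144),(-1,192)],[]),
  (208,[(-1,192)],[])]
noncomputable def t1_211 : Tab := [(1,[(1,0)],[]),
  (3,[(1,2)],[(-1,58)]),
  (17,[(1,16)],[(-1,58)]),
  (18,[],[(-1,58)]),
  (65,[(1,64)],[]),
  (81,[(-1,66),(1,80),(-1,192)],[]),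
  (82,[(-1,66)],[]),
  (129,[(1,128)],[]),
  (145,[(-1,130),(1,144),(-1,192)],[]),
  (146,[(-1,130)],[]),
  (208,[(1,192)],[])]
noncomputable def t1_212 : Tab := [(4,[(1,0)],[]),
  (20,[(1,16)],[]),
  (68,[(1,64)],[]),
  (84,[(1,80)],[]),
  (132,[(1,128)],[]),
  (148,[(1,144)],[]),
  (196,[(1,192)],[]),
  (212,[(1,208)],[])]
noncomputable def t1_213 : Tab := [(1,[(1,0)],[]),
  (5,[(1,4)],[]),
  (17,[(1,16)],[]),
  (21,[(1,20)],[]),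
  (65,[(1,64)],[]),
  (69,[(1,68),(1,192)],[]),
  (81,[(1,80)],[]),
  (85,[(1,84),(-1,208)],[]),
  (129,[(1,128)],[]),
  (133,[(1,132),(1,192)],[]),
  (145,[(1,144)],[]),
  (149,[(1,148),(-1,208)],[]),
  (196,[(-1,192)],[]),
  (212,[(-1,208)],[])]
noncomputable def t1_214 : Tab := [(2,[(1,0)],[]),
  (6,[(1,4)],[]),
  (18,[(1,16)],[]),
  (66,[(1,64)],[]),
  (70,[(-1,20),(1,68),(-1,132)],[]),
  (82,[(-1,20),(1,80),(-1,132),(-1,192)],[]),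
  (84,[(-1,20),(-1,132),(-1,192)],[]),
  (130,[(1,128)],[]),
  (146,[(-1,132),(1,144),(-1,192)],[]),
  (148,[(-1,132),(-1,192)],[]),
  (196,[(-1,192)],[]),
  (212,[(-1,208)],[])]
noncomputable def t1_215 : Tab := [(1,[(1,0)],[]),
  (3,[(1,2)],[]),
  (5,[(1,4)],[]),
  (7,[(1,6),(-1,18),(1,66),(-1,130)],[]),
  (17,[(1,16)],[]),
  (21,[(1,20),(1,130),(1,144)],[]),
  (65,[(1,64)],[]),
  (69,[(1,18),(-1,66),(1,68),(1,130),(1,192)],[]),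
  (70,[(1,18),(-1,66),(1,130)],[]),
  (81,[(1,18),(1,80),(1,130)],[]),
  (82,[(1,18),(1,130)],[]),
  (85,[(1,84),(-1,208)],[]),
  (129,[(1,128)],[]),
  (133,[(-1,130),(1,132),(-1,144),(1,192)],[]),
  (146,[(1,130)],[]),
  (148,[(1,130),(1,144)],[]),
  (149,[(-1,145)],[]),
  (196,[(1,192)],[]),
  (212,[(1,208)],[])]
noncomputable def t1_216 : Tab := [(8,[(1,0)],[]),
  (24,[(1,16)],[]),
  (72,[(1,64)],[]),
  (88,[(1,80)],[]),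
  (136,[(1,128)],[]),
  (152,[(1,144)],[]),
  (200,[(1,192)],[]),
  (216,[(1,208)],[])]
noncomputable def t1_217 : Tab := [(1,[(1,0)],[]),
  (9,[(1,8)],[]),
  (17,[(1,16)],[]),
  (65,[(1,64)],[]),
  (81,[(-1,72),(1,80),(-1,192)],[]),
  (129,[(1,128)],[]),
  (137,[(1,24),(-1,72),(1,136)],[]),
  (145,[(1,24),(-1,72),(1,144),(-1,192)],[]),
  (152,[(1,24)],[]),
  (200,[(1,72)],[]),
  (208,[(1,72),(1,192)],[]),
  (216,[(-1,88)],[])]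
noncomputable def t1_218 : Tab := [(2,[(1,0)],[]),
  (10,[(1,8)],[]),
  (18,[(1,16)],[]),
  (26,[(1,24)],[]),
  (66,[(1,64)],[]),
  (74,[(1,72),(1,192)],[]),
  (82,[(1,80)],[]),
  (90,[(1,88),(-1,208)],[]),
  (130,[(1,128)],[]),
  (138,[(1,136),(1,192)],[]),
  (146,[(1,144)],[]),
  (154,[(1,152),(-1,208)],[]),
  (200,[(-1,192)],[]),
  (216,[(-1,208)],[])]
noncomputable def t1_219 : Tab := [(1,[(1,0)],[]),
  (3,[(1,2)],[]),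
  (9,[(1,8)],[]),
  (11,[(1,10),(-1,18),(1,66),(-1,130)],[]),
  (17,[(1,16)],[]),
  (26,[(-1,18),(1,66)],[]),
  (65,[(1,64)],[]),
  (81,[(1,66),(-1,72),(1,80),(-1,192)],[]),
  (82,[(1,66)],[]),
  (88,[(1,72)],[]),
  (90,[(-1,74)],[]),
  (129,[(1,128)],[]),
  (137,[(-1,18),(1,24),(1,66),(-1,72),(-1,130),(1,136)],[]),
  (138,[(-1,130)],[]),
  (145,[(-1,18),(1,24),(1,66),(-1,72),(1,144),(-1,192)],[]),
  (152,[(1,18),(-1,24),(-1,66),(1,72)],[]),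
  (154,[(-1,146)],[]),
  (208,[(-1,192)],[]),
  (216,[(1,200)],[])]
noncomputable def t1_220 : Tab := [(4,[(1,0)],[]),
  (12,[(1,8)],[]),
  (20,[(1,16)],[]),
  (68,[(1,64)],[]),
  (76,[(-1,24),(1,72)],[]),
  (84,[(-1,24),(1,80)],[]),
  (88,[(-1,24)],[]),
  (132,[(1,128)],[]),
  (140,[(1,136)],[]),
  (148,[(1,144)],[]),
  (196,[(1,192)],[]),
  (204,[(-1,152),(1,200)],[]),
  (212,[(-1,152),(1,208)],[]),
  (216,[(-1,152)],[])]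
noncomputable def t1_221 : Tab := [(1,[(1,0)],[]),
  (5,[(1,4)],[]),
  (9,[(1,8)],[]),
  (13,[(1,12),(-1,24),(1,72)],[]),
  (17,[(1,16)],[]),
  (21,[(1,20)],[]),
  (65,[(1,64)],[]),
  (69,[(1,24),(1,68),(-1,72),(-1,192)],[]),
  (76,[(1,24),(-1,72)],[]),
  (81,[(-1,24),(1,80)],[]),
  (85,[(1,84),(-1,152),(1,208)],[]),
  (88,[(1,24)],[]),
  (129,[(1,128)],[]),
  (133,[(1,132),(-1,192)],[]),
  (137,[(1,136)],[]),
  (141,[(1,140),(-1,152),(1,200)],[]),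
  (145,[(1,144)],[]),
  (149,[(1,148),(-1,152),(1,208)],[]),
  (196,[(-1,192)],[]),
  (204,[(1,152),(-1,200)],[]),
  (212,[(1,152),(-1,208)],[]),
  (216,[(1,152)],[])]
noncomputable def t1_222 : Tab := [(2,[(1,0)],[]),
  (6,[(1,4)],[]),
  (10,[(1,8)],[]),
  (14,[(1,12),(-1,132),(1,192)],[]),
  (18,[(1,16)],[]),
  (26,[(1,24)],[]),
  (66,[(1,64)],[]),
  (70,[(-1,20),(1,68),(-1,192)],[]),
  (74,[(1,72)],[]),
  (78,[(1,76),(-1,148),(1,200),(-1,208)],[]),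
  (82,[(1,20),(1,80)],[]),
  (84,[(1,20)],[]),
  (90,[(1,88),(-1,148),(-1,208)],[]),
  (130,[(1,128)],[]),
  (138,[(-1,132),(1,136),(1,192)],[]),
  (140,[(-1,132),(1,192)],[]),
  (146,[(1,144)],[]),
  (154,[(-1,148),(1,152),(-1,208)],[]),
  (196,[(-1,192)],[]),
  (204,[(1,148),(-1,200),(1,208)],[]),
  (212,[(1,148)],[]),
  (216,[(1,148),(1,208)],[])]
noncomputable def t1_223 : Tab := [(1,[(1,0)],[]),
  (3,[(1,2)],[]),
  (5,[(1,4)],[]),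
  (7,[(1,6),(1,18),(1,24),(-1,66),(-1,72)],[]),
  (9,[(1,8)],[]),
  (11,[(1,10),(1,24),(-1,72),(-1,130)],[]),
  (13,[(1,12)],[]),
  (15,[(1,14),(1,76),(-1,146),(-1,152),(1,200)],[]),
  (17,[(1,16)],[]),
  (21,[(1,20)],[]),
  (26,[(-1,24)],[]),
  (65,[(1,64)],[]),
  (69,[(1,18),(1,24),(-1,66),(1,68),(-1,72),(-1,192)],[]),
  (70,[(1,18),(1,24),(-1,66),(-1,72)],[]),
  (74,[(-1,72)],[]),
  (78,[(-1,76),(1,146),(1,152),(-1,200)],[]),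
  (81,[(-1,18),(-1,24),(1,80)],[]),
  (82,[(-1,18),(-1,24)],[]),
  (85,[(1,84),(-1,146),(-1,152),(1,208)],[]),
  (90,[(-1,88),(1,146),(1,152)],[]),
  (129,[(1,128)],[]),
  (133,[(1,132),(-1,192)],[]),
  (137,[(1,130),(1,136)],[]),
  (138,[(1,130)],[]),
  (141,[(1,140),(-1,146),(-1,152),(1,200)],[]),
  (145,[(1,144)],[]),
  (149,[(-1,146),(1,148),(-1,152),(1,208)],[]),
  (154,[(1,146)],[]),
  (196,[(1,192)],[]),
  (204,[(-1,146),(-1,152),(1,200)],[]),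
  (212,[(-1,146),(-1,152),(1,208)],[]),
  (216,[(-1,146),(-1,152)],[])]
noncomputable def t1_224 : Tab := [(32,[(1,0)],[]),
  (96,[(1,64)],[(1,16)]),
  (160,[(1,128)],[(1,16)]),
  (192,[],[(1,16)])]
noncomputable def t1_225 : Tab := [(1,[(1,0)],[]),
  (33,[(1,32)],[]),
  (65,[(1,64)],[(-1,31)]),
  (97,[(1,96)],[]),
  (129,[(1,128)],[(-1,31)]),
  (161,[(1,160)],[]),
  (192,[],[(1,31)])]
noncomputable def t1_226 : Tab := [(2,[(1,0)],[]),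
  (34,[(1,32)],[]),
  (66,[(1,64)],[(1,44)]),
  (98,[(1,96)],[]),
  (130,[(1,128)],[(1,44)]),
  (162,[(1,160)],[]),
  (192,[],[(-1,44)])]
noncomputable def t1_227 : Tab := [(1,[(1,0)],[]),
  (3,[(1,2)],[]),
  (33,[(1,32)],[]),
  (35,[(1,34),(-1,66),(1,130)],[]),
  (65,[(1,64)],[(1,59)]),
  (97,[(-1,66),(1,96)],[]),
  (98,[(-1,66)],[]),
  (129,[(1,128)],[(1,59)]),
  (161,[(-1,130),(1,160)],[]),
  (162,[(-1,130)],[]),
  (192,[],[(1,59)])]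
noncomputable def t1_228 : Tab := [(4,[(1,0)],[]),
  (36,[(1,32)],[(-1,45)]),
  (68,[(1,64)],[]),
  (100,[(1,96)],[]),
  (132,[(1,128)],[(1,45)]),
  (160,[],[(1,45)]),
  (196,[(1,192)],[])]
noncomputable def t1_229 : Tab := [(1,[(1,0)],[]),
  (5,[(1,4)],[]),
  (33,[(1,32)],[]),
  (37,[(1,36)],[]),
  (65,[(1,64)],[]),
  (69,[(1,68),(1,192)],[]),
  (97,[(1,96)],[]),
  (101,[(1,100)],[]),
  (129,[(1,128)],[]),
  (133,[(1,132),(1,192)],[]),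
  (161,[(1,160)],[]),
  (196,[(-1,192)],[])]
noncomputable def t1_230 : Tab := [(2,[(1,0)],[]),
  (6,[(1,4)],[]),
  (34,[(1,32)],[]),
  (38,[(1,36)],[]),
  (66,[(1,64)],[(1,60)]),
  (70,[(1,68),(-1,132)],[]),
  (98,[(1,96)],[]),
  (102,[(1,100)],[]),
  (130,[(1,128)],[(1,60)]),
  (162,[(1,160)],[]),
  (192,[],[(1,60)]),
  (196,[(1,132)],[])]
noncomputable def t1_231 : Tab := [(1,[(1,0)],[]),
  (3,[(1,2)],[]),
  (5,[(1,4)],[]),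
  (7,[(1,6),(1,66)],[]),
  (33,[(1,32)],[]),
  (35,[(1,34),(1,130)],[]),
  (37,[(1,36)],[]),
  (39,[(1,38),(-1,98)],[]),
  (65,[(1,64)],[]),
  (69,[(-1,66),(1,68),(1,192)],[]),
  (70,[(-1,66)],[]),
  (97,[(1,96)],[]),
  (101,[(-1,98),(1,100)],[]),
  (102,[(-1,98)],[]),
  (129,[(1,128)],[]),
  (133,[(1,132),(1,192)],[]),
  (161,[(1,130),(1,160)],[]),
  (162,[(1,130)],[]),
  (196,[(1,192)],[])]
noncomputable def t1_232 : Tab := [(8,[(1,0)],[]),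
  (40,[(1,32)],[(1,46)]),
  (72,[(1,64)],[(1,46)]),
  (96,[],[(1,46)]),
  (136,[(1,128)],[]),
  (168,[(1,160)],[]),
  (200,[(1,192)],[])]
noncomputable def t1_233 : Tab := [(1,[(1,0)],[]),
  (9,[(1,8)],[]),
  (33,[(1,32)],[]),
  (41,[(1,40),(-1,72),(1,136)],[]),
  (65,[(1,64)],[(-1,61)]),
  (97,[(1,96)],[]),
  (129,[(1,128)],[(-1,61)]),
  (161,[(1,72),(-1,136),(1,160)],[]),
  (168,[(1,72),(-1,136)],[]),
  (169,[(1,137)],[]),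
  (192,[],[(-1,61)]),
  (200,[(1,72)],[])]
noncomputable def t1_234 : Tab := [(2,[(1,0)],[]),
  (10,[(1,8)],[]),
  (34,[(1,32)],[]),
  (42,[(1,40)],[]),
  (66,[(1,64)],[]),
  (74,[(1,72),(1,192)],[]),
  (98,[(1,96)],[]),
  (130,[(1,128)],[]),
  (138,[(1,136),(1,192)],[]),
  (162,[(1,160)],[]),
  (170,[(1,168)],[]),
  (200,[(-1,192)],[])]
noncomputable def t1_235 : Tab := [(1,[(1,0)],[]),
  (3,[(1,2)],[]),
  (9,[(1,8)],[]),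
  (11,[(1,10),(1,72),(-1,130),(1,192)],[]),
  (33,[(1,32)],[]),
  (35,[(1,34),(-1,66),(1,72),(1,192)],[]),
  (41,[(1,40)],[]),
  (43,[(1,42),(1,162)],[]),
  (65,[(1,64)],[]),
  (74,[(-1,72),(-1,192)],[]),
  (97,[(1,66),(-1,72),(1,96),(-1,192)],[]),
  (98,[(1,66),(-1,72),(-1,192)],[]),
  (129,[(1,128)],[]),
  (137,[(-1,130),(1,136),(1,192)],[]),
  (138,[(-1,130)],[]),
  (161,[(1,160)],[]),
  (169,[(-1,162),(1,168)],[]),
  (170,[(-1,162)],[]),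
  (200,[(1,192)],[])]
noncomputable def t1_236 : Tab := [(4,[(1,0)],[]),
  (12,[(1,8)],[]),
  (36,[(1,32)],[(1,62)]),
  (68,[(1,64)],[]),
  (76,[(-1,40),(1,72),(-1,136)],[]),
  (100,[(1,96)],[]),
  (132,[(1,128)],[(-1,62)]),
  (160,[],[(1,62)]),
  (168,[(1,40)],[]),
  (196,[(1,40),(1,136),(1,192)],[]),
  (200,[(1,40),(1,136)],[]),
  (204,[(-1,140)],[])]
noncomputable def t1_237 : Tab := [(1,[(1,0)],[]),
  (5,[(1,4)],[]),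
  (9,[(1,8)],[]),
  (13,[(1,12),(1,72)],[]),
  (33,[(1,32)],[]),
  (37,[(1,36)],[]),
  (41,[(1,40)],[]),
  (65,[(1,64)],[]),
  (69,[(1,68),(-1,72),(-1,192)],[]),
  (76,[(-1,72)],[]),
  (97,[(1,96)],[]),
  (101,[(1,100)],[]),
  (129,[(1,128)],[]),
  (133,[(1,132),(-1,192)],[]),
  (137,[(1,136)],[]),
  (141,[(1,140),(1,200)],[]),
  (161,[(1,160)],[]),
  (169,[(1,168)],[]),
  (196,[(-1,192)],[]),
  (204,[(-1,200)],[])]
noncomputable def t1_238 : Tab := [(2,[(1,0)],[]),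
  (6,[(1,4)],[]),
  (10,[(1,8)],[]),
  (14,[(1,12),(-1,132),(1,192)],[]),
  (34,[(1,32)],[]),
  (38,[(1,36)],[]),
  (42,[(1,40)],[]),
  (66,[(1,64)],[]),
  (70,[(1,68),(-1,192)],[]),
  (74,[(1,72)],[]),
  (78,[(1,76),(1,200)],[]),
  (98,[(1,96)],[]),
  (102,[(1,100)],[]),
  (130,[(1,128)],[]),
  (138,[(-1,132),(1,136),(1,192)],[]),
  (140,[(-1,132),(1,192)],[]),
  (162,[(1,160)],[]),
  (170,[(1,168)],[]),
  (196,[(-1,192)],[]),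
  (204,[(-1,200)],[])]
noncomputable def t1_239 : Tab := [(1,[(1,0)],[]),
  (3,[(1,2)],[]),
  (5,[(1,4)],[]),
  (7,[(1,6),(-1,66),(-1,72)],[]),
  (9,[(1,8)],[]),
  (11,[(1,10),(-1,72),(-1,130)],[]),
  (13,[(1,12)],[]),
  (15,[(1,14),(1,76),(1,200)],[]),
  (33,[(1,32)],[]),
  (35,[(1,34)],[]),
  (37,[(1,36)],[]),
  (39,[(1,38),(1,98)],[]),
  (41,[(1,40)],[]),
  (43,[(1,42),(1,162)],[]),
  (65,[(1,64)],[]),
  (69,[(-1,66),(1,68),(-1,72),(-1,192)],[]),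
  (70,[(-1,66),(-1,72)],[]),
  (74,[(-1,72)],[]),
  (78,[(-1,76),(-1,200)],[]),
  (97,[(1,96)],[]),
  (101,[(-1,98),(1,100)],[]),
  (102,[(-1,98)],[]),
  (129,[(1,128)],[]),
  (133,[(1,132),(-1,192)],[]),
  (137,[(1,130),(1,136)],[]),
  (138,[(1,130)],[]),
  (141,[(1,140),(1,200)],[]),
  (161,[(1,160)],[]),
  (169,[(1,162),(1,168)],[]),
  (170,[(1,162)],[]),
  (196,[(1,192)],[]),
  (204,[(1,200)],[])]
noncomputable def t1_240 : Tab := [(16,[(1,0)],[]),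
  (48,[(1,32)],[]),
  (80,[(1,64)],[]),
  (112,[(1,96)],[]),
  (144,[(1,128)],[]),
  (176,[(1,160)],[]),
  (208,[(1,192)],[])]
noncomputable def t1_241 : Tab := [(1,[(1,0)],[]),
  (17,[(1,16)],[]),
  (33,[(1,32)],[]),
  (49,[(1,48)],[]),
  (65,[(1,64)],[]),
  (81,[(1,80),(1,192)],[]),
  (97,[(1,96)],[]),
  (113,[(1,112)],[]),
  (129,[(1,128)],[]),
  (145,[(1,144),(1,192)],[]),
  (161,[(1,160)],[]),
  (177,[(1,176)],[]),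
  (208,[(-1,192)],[])]
noncomputable def t1_242 : Tab := [(2,[(1,0)],[]),
  (18,[(1,16)],[]),
  (34,[(1,32)],[]),
  (50,[(1,48)],[]),
  (66,[(1,64)],[]),
  (82,[(1,80),(1,192)],[]),
  (98,[(1,96)],[]),
  (114,[(1,112)],[]),
  (130,[(1,128)],[]),
  (146,[(1,144),(1,192)],[]),
  (162,[(1,160)],[]),
  (178,[(1,176)],[]),
  (208,[(-1,192)],[])]
noncomputable def t1_243 : Tab := [(1,[(1,0)],[]),
  (3,[(1,2)],[]),
  (17,[(1,16)],[]),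
  (33,[(1,32)],[]),
  (35,[(-1,18),(1,34),(-1,66),(1,130)],[]),
  (49,[(-1,18),(1,48),(-1,66),(1,130)],[]),
  (50,[(-1,18),(-1,66),(1,130)],[]),
  (65,[(1,64)],[]),
  (81,[(-1,66),(1,80),(1,192)],[]),
  (82,[(-1,66)],[]),
  (97,[(1,96)],[]),
  (113,[(-1,98),(1,112)],[]),
  (114,[(-1,98)],[]),
  (129,[(1,128)],[]),
  (145,[(-1,130),(1,144),(1,192)],[]),
  (146,[(-1,130)],[]),
  (161,[(1,160)],[]),
  (177,[(-1,162),(1,176)],[]),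
  (178,[(-1,162)],[]),
  (208,[(1,192)],[])]
noncomputable def t1_244 : Tab := [(4,[(1,0)],[]),
  (20,[(1,16)],[]),
  (36,[(1,32)],[]),
  (68,[(1,64)],[]),
  (84,[(-1,48),(1,80),(-1,160)],[]),
  (100,[(-1,48),(1,96),(-1,160)],[]),
  (112,[(-1,48),(-1,160)],[]),
  (132,[(1,128)],[]),
  (148,[(1,144),(-1,160)],[]),
  (176,[(-1,160)],[]),
  (196,[(1,192)],[]),
  (212,[(1,208)],[])]
noncomputable def t1_245 : Tab := [(1,[(1,0)],[]),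
  (5,[(1,4)],[]),
  (17,[(1,16)],[]),
  (21,[(1,20)],[]),
  (33,[(1,32)],[]),
  (37,[(1,36)],[]),
  (49,[(1,48)],[]),
  (65,[(1,64)],[]),
  (69,[(1,68),(-1,192)],[]),
  (81,[(1,80)],[]),
  (85,[(1,84),(1,208)],[]),
  (97,[(1,96)],[]),
  (101,[(1,100)],[]),
  (113,[(1,112)],[]),
  (129,[(1,128)],[]),
  (133,[(1,132),(-1,192)],[]),
  (145,[(1,144)],[]),
  (149,[(1,148),(1,208)],[]),
  (161,[(1,160)],[]),
  (177,[(1,176)],[]),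
  (196,[(-1,192)],[]),
  (212,[(-1,208)],[])]
noncomputable def t1_246 : Tab := [(2,[(1,0)],[]),
  (6,[(1,4)],[]),
  (18,[(1,16)],[]),
  (34,[(1,32)],[]),
  (38,[(1,36)],[]),
  (50,[(1,48)],[]),
  (66,[(1,64)],[]),
  (70,[(1,20),(1,68),(-1,132)],[]),
  (82,[(1,20),(1,80),(-1,132),(1,192)],[]),
  (84,[(1,20),(-1,132),(1,192)],[]),
  (98,[(1,96)],[]),
  (102,[(1,100)],[]),
  (114,[(1,112)],[]),
  (130,[(1,128)],[]),
  (146,[(-1,132),(1,144),(1,192)],[]),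
  (148,[(-1,132),(1,192)],[]),
  (162,[(1,160)],[]),
  (178,[(1,176)],[]),
  (196,[(-1,192)],[]),
  (212,[(-1,208)],[])]
noncomputable def t1_247 : Tab := [(1,[(1,0)],[]),
  (3,[(1,2)],[]),
  (5,[(1,4)],[]),
  (7,[(1,6),(-1,66)],[]),
  (17,[(1,16)],[]),
  (21,[(1,20)],[]),
  (33,[(1,32)],[]),
  (35,[(-1,18),(1,34),(1,130)],[]),
  (37,[(1,36)],[]),
  (39,[(1,38),(-1,82),(1,98)],[]),
  (49,[(1,18),(1,48),(-1,130)],[]),
  (50,[(1,18),(-1,130)],[]),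
  (65,[(1,64)],[]),
  (69,[(-1,66),(1,68),(-1,192)],[]),
  (70,[(-1,66)],[]),
  (81,[(1,80)],[]),
  (85,[(1,84),(1,208)],[]),
  (97,[(1,96)],[]),
  (101,[(1,82),(-1,98),(1,100)],[]),
  (102,[(1,82),(-1,98)],[]),
  (113,[(1,82),(1,112)],[]),
  (114,[(1,82)],[]),
  (129,[(1,128)],[]),
  (133,[(1,132),(-1,192)],[]),
  (145,[(1,130),(1,144)],[]),
  (146,[(1,130)],[]),
  (149,[(1,148),(1,208)],[]),
  (161,[(1,160)],[]),
  (177,[(1,162),(1,176)],[]),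
  (178,[(1,162)],[]),
  (196,[(1,192)],[]),
  (212,[(1,208)],[])]
noncomputable def t1_248 : Tab := [(8,[(1,0)],[]),
  (24,[(1,16)],[]),
  (40,[(1,32)],[]),
  (72,[(1,64)],[]),
  (88,[(1,80),(-1,96)],[]),
  (112,[(-1,96)],[]),
  (136,[(1,128)],[]),
  (152,[(1,48),(-1,96),(1,144)],[]),
  (168,[(1,48),(-1,96),(1,160)],[]),
  (176,[(1,48),(-1,96)],[]),
  (200,[(1,192)],[]),
  (216,[(1,208)],[])]
noncomputable def t1_249 : Tab := [(1,[(1,0)],[]),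
  (9,[(1,8)],[]),
  (17,[(1,16)],[]),
  (33,[(1,32)],[]),
  (41,[(-1,24),(1,40),(-1,72),(1,136)],[]),
  (49,[(-1,24),(1,48),(-1,72),(1,144),(1,192)],[]),
  (65,[(1,64)],[]),
  (81,[(-1,72),(1,80),(1,192)],[]),
  (97,[(1,96)],[]),
  (113,[(1,112)],[]),
  (129,[(1,128)],[]),
  (152,[(-1,24)],[]),
  (161,[(1,136),(-1,144),(1,160),(-1,192)],[]),
  (168,[(-1,24),(-1,72),(1,136)],[]),
  (169,[(-1,137)],[]),
  (176,[(-1,24),(-1,72),(1,144),(1,192)],[]),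
  (177,[(-1,145)],[]),
  (200,[(-1,72)],[]),
  (208,[(-1,72),(1,192)],[]),
  (216,[(1,88)],[])]
noncomputable def t1_250 : Tab := [(2,[(1,0)],[]),
  (10,[(1,8)],[]),
  (18,[(1,16)],[]),
  (26,[(1,24)],[]),
  (34,[(1,32)],[]),
  (42,[(1,40)],[]),
  (50,[(1,48)],[]),
  (66,[(1,64)],[]),
  (74,[(1,72),(-1,192)],[]),
  (82,[(1,80)],[]),
  (90,[(1,88),(1,208)],[]),
  (98,[(1,96)],[]),
  (114,[(1,112)],[]),
  (130,[(1,128)],[]),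
  (138,[(1,136),(-1,192)],[]),
  (146,[(1,144)],[]),
  (154,[(1,152),(1,208)],[]),
  (162,[(1,160)],[]),
  (170,[(1,168)],[]),
  (178,[(1,176)],[]),
  (200,[(-1,192)],[]),
  (216,[(-1,208)],[])]
noncomputable def t1_251 : Tab := [(1,[(1,0)],[]),
  (3,[(1,2)],[]),
  (9,[(1,8)],[]),
  (11,[(1,10),(-1,24),(-1,72),(1,130),(1,192)],[]),
  (17,[(1,16)],[]),
  (26,[(-1,24),(-1,72),(1,192)],[]),
  (33,[(1,32)],[]),
  (35,[(-1,18),(1,24),(1,34),(-1,66),(1,72),(-1,192)],[]),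
  (41,[(1,40)],[]),
  (43,[(1,42),(1,146),(-1,152),(-1,162),(-1,208)],[]),
  (49,[(1,18),(-1,24),(1,48),(1,66),(-1,72),(1,192)],[]),
  (50,[(1,18),(-1,24),(1,66),(-1,72),(1,192)],[]),
  (65,[(1,64)],[]),
  (81,[(1,66),(-1,72),(1,80),(1,192)],[]),
  (82,[(1,66)],[]),
  (88,[(1,72),(-1,192)],[]),
  (90,[(-1,74)],[]),
  (97,[(1,96)],[]),
  (113,[(1,98),(1,112)],[]),
  (114,[(1,98)],[]),
  (129,[(1,128)],[]),
  (137,[(-1,130),(1,136),(-1,192)],[]),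
  (138,[(-1,130)],[]),
  (145,[(1,144)],[]),
  (154,[(-1,152),(-1,208)],[]),
  (161,[(1,160)],[]),
  (169,[(1,146),(-1,152),(-1,162),(1,168),(-1,208)],[]),
  (170,[(1,146),(-1,152),(-1,162),(-1,208)],[]),
  (177,[(1,146),(-1,152),(1,176),(-1,208)],[]),
  (178,[(1,146),(-1,152),(-1,208)],[]),
  (200,[(1,192)],[]),
  (216,[(1,208)],[])]
noncomputable def t1_252 : Tab := [(4,[(1,0)],[]),
  (12,[(1,8)],[]),
  (20,[(1,16)],[]),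
  (36,[(1,32)],[]),
  (68,[(1,64)],[]),
  (76,[(1,24),(-1,40),(1,72),(-1,136)],[]),
  (84,[(1,24),(1,40),(-1,48),(1,80),(-1,160)],[]),
  (88,[(1,24)],[]),
  (100,[(1,40),(-1,48),(1,96),(-1,160)],[]),
  (112,[(-1,40),(1,48),(1,160)],[]),
  (132,[(1,128)],[]),
  (148,[(1,40),(1,144),(-1,160)],[]),
  (168,[(-1,40)],[]),
  (176,[(-1,40),(1,160)],[]),
  (196,[(-1,40),(-1,136),(1,192)],[]),
  (200,[(-1,40),(-1,136)],[]),
  (204,[(1,140)],[]),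
  (212,[(1,152),(1,208)],[]),
  (216,[(1,152)],[])]
noncomputable def t1_253 : Tab := [(1,[(1,0)],[]),
  (5,[(1,4)],[]),
  (9,[(1,8)],[]),
  (13,[(1,12),(-1,24),(-1,72)],[]),
  (17,[(1,16)],[]),
  (21,[(1,20)],[]),
  (33,[(1,32)],[]),
  (37,[(1,36)],[]),
  (41,[(1,40)],[]),
  (49,[(1,48)],[]),
  (65,[(1,64)],[]),
  (69,[(-1,24),(1,68),(-1,72),(1,192)],[]),
  (76,[(-1,24),(-1,72)],[]),
  (81,[(1,24),(1,80)],[]),
  (85,[(1,84),(-1,152),(-1,208)],[]),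
  (88,[(-1,24)],[]),
  (97,[(1,96)],[]),
  (101,[(1,100)],[]),
  (113,[(1,112)],[]),
  (129,[(1,128)],[]),
  (133,[(1,132),(1,192)],[]),
  (137,[(1,136)],[]),
  (141,[(1,140),(-1,152),(-1,200)],[]),
  (145,[(1,144)],[]),
  (149,[(1,148),(-1,152),(-1,208)],[]),
  (161,[(1,160)],[]),
  (169,[(1,168)],[]),
  (177,[(1,176)],[]),
  (196,[(-1,192)],[]),
  (204,[(-1,152),(-1,200)],[]),
  (212,[(-1,152),(-1,208)],[]),
  (216,[(-1,152)],[])]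
noncomputable def t1_254 : Tab := [(2,[(1,0)],[]),
  (6,[(1,4)],[]),
  (10,[(1,8)],[]),
  (14,[(1,12),(1,132),(1,192)],[]),
  (18,[(1,16)],[]),
  (26,[(1,24)],[]),
  (34,[(1,32)],[]),
  (38,[(1,36)],[]),
  (42,[(1,40)],[]),
  (50,[(1,48)],[]),
  (66,[(1,64)],[]),
  (70,[(1,20),(1,68),(1,192)],[]),
  (74,[(1,72)],[]),
  (78,[(1,76),(-1,148),(-1,200),(1,208)],[]),
  (82,[(-1,20),(1,80)],[]),
  (84,[(-1,20)],[]),
  (90,[(1,88),(-1,148),(1,208)],[]),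
  (98,[(1,96)],[]),
  (102,[(1,100)],[]),
  (114,[(1,112)],[]),
  (130,[(1,128)],[]),
  (138,[(-1,132),(1,136),(-1,192)],[]),
  (140,[(-1,132),(-1,192)],[]),
  (146,[(1,144)],[]),
  (154,[(-1,148),(1,152),(1,208)],[]),
  (162,[(1,160)],[]),
  (170,[(1,168)],[]),
  (178,[(1,176)],[]),
  (196,[(-1,192)],[]),
  (204,[(-1,148),(-1,200),(1,208)],[]),
  (212,[(-1,148)],[]),
  (216,[(-1,148),(1,208)],[])]
noncomputable def t1_255 : Tab := [(1,[(1,0)],[]),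
  (3,[(1,2)],[]),
  (5,[(1,4)],[]),
  (7,[(1,6),(1,66),(1,72)],[]),
  (9,[(1,8)],[]),
  (11,[(1,10),(1,24),(1,72),(1,130)],[]),
  (13,[(1,12)],[]),
  (15,[(1,14),(-1,76),(1,200)],[(1,63)]),
  (17,[(1,16)],[]),
  (21,[(1,20)],[]),
  (26,[(-1,24)],[]),
  (33,[(1,32)],[]),
  (35,[(-1,18),(-1,24),(1,34)],[]),
  (37,[(1,36)],[]),
  (39,[(1,38),(1,82),(1,88),(-1,98)],[(-1,63)]),
  (41,[(1,40)],[]),
  (43,[(1,42),(1,146),(1,152),(-1,162)],[(-1,63)]),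
  (49,[(-1,18),(-1,24),(1,48)],[]),
  (50,[(-1,18),(-1,24)],[]),
  (65,[(1,64)],[]),
  (69,[(-1,66),(1,68),(-1,72),(1,192)],[]),
  (70,[(-1,66),(-1,72)],[]),
  (74,[(-1,72)],[]),
  (78,[(-1,76),(1,200)],[(1,63)]),
  (81,[(1,80)],[]),
  (85,[(1,84),(-1,208)],[(-1,63)]),
  (90,[(-1,88)],[(1,63)]),
  (97,[(1,96)],[]),
  (101,[(1,82),(1,88),(-1,98),(1,100)],[(-1,63)]),
  (102,[(1,82),(1,88),(-1,98)],[(-1,63)]),
  (113,[(-1,82),(-1,88),(1,112)],[(1,63)]),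
  (114,[(-1,82),(-1,88)],[(1,63)]),
  (129,[(1,128)],[]),
  (133,[(1,132),(1,192)],[]),
  (137,[(1,130),(1,136)],[]),
  (138,[(1,130)],[]),
  (141,[(1,140),(-1,200)],[(-1,63)]),
  (145,[(1,144)],[]),
  (149,[(1,148),(-1,208)],[(-1,63)]),
  (154,[(-1,152)],[(1,63)]),
  (161,[(1,160)],[]),
  (169,[(-1,146),(-1,152),(1,162),(1,168)],[(1,63)]),
  (170,[(-1,146),(-1,152),(1,162)],[(1,63)]),
  (177,[(-1,146),(-1,152),(1,176)],[(1,63)]),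
  (178,[(-1,146),(-1,152)],[(1,63)]),
  (196,[(1,192)],[]),
  (204,[(1,200)],[(1,63)]),
  (212,[(1,208)],[(1,63)]),
  (216,[],[(1,63)])]
noncomputable def tl1 : List Tab := [t1_0, t1_1, t1_2, t1_3, t1_4, t1_5, t1_6, t1_7, t1_8, t1_9, t1_10, t1_11, t1_12, t1_13, t1_14, t1_15, t1_16, t1_17, t1_18, t1_19, t1_20, t1_21, t1_22, t1_23, t1_24, t1_25, t1_26, t1_27, t1_28, t1_29, t1_30, t1_31, t1_32, t1_33, t1_34, t1_35, t1_36, t1_37, t1_38, t1_39, t1_40, t1_41, t1_42, t1_43, t1_44, t1_45, t1_46, t1_47, t1_48, t1_49, t1_50, t1_51, t1_52, t1_53, t1_54, t1_55, t1_56, t1_57, t1_58, t1_59, t1_60, t1_61, t1_62, t1_63, t1_64, t1_65, t1_66, t1_67, t1_68, t1_69, t1_70, t1_71, t1_72, t1_73, t1_74, t1_75, t1_76, t1_77, t1_78, t1_79, t1_80, t1_81, t1_82, t1_83, t1_84, t1_85, t1_86, t1_87, t1_88, t1_89, t1_90, t1_91, t1_92, t1_93, t1_94, t1_95, t1_96, t1_97,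 t1_98, t1_99, t1_100, t1_101, t1_102, t1_103, t1_104, t1_105, t1_106, t1_107, t1_108, t1_109, t1_110, t1_111, t1_112, t1_113, t1_114, t1_115, t1_116, t1_117, t1_118, t1_119, t1_120, t1_121, t1_122, t1_123, t1_124, t1_125, t1_126, t1_127, t1_128, t1_129, t1_130, t1_131, t1_132, t1_133, t1_134, t1_135, t1_136, t1_137, t1_138, t1_139, t1_140, t1_141, t1_142, t1_143, t1_144, t1_145, t1_146, t1_147, t1_148, t1_149, t1_150, t1_151, t1_152, t1_153, t1_154, t1_155, t1_156, t1_157, t1_158, t1_159, t1_160, t1_161, t1_162, t1_163, t1_164, t1_165, t1_166, t1_167, t1_168, t1_169, t1_170, t1_171, t1_172, t1_173, t1_174, t1_175, t1_176, t1_177, t1_178, t1_179, t1_180, t1_181, t1_182, t1_183, t1_184, t1_185, t1_186, t1_187, t1_188, t1_189, t1_190, t1_191, t1_192, t1_193, t1_194, t1_195, t1_196, t1_197, t1_198, t1_199, t1_200, t1_201, t1_202, t1_203, t1_204,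 t1_205, t1_206, t1_207, t1_208, t1_209, t1_210, t1_211, t1_212, t1_213, t1_214, t1_215, t1_216, t1_217, t1_218, t1_219, t1_220, t1_221, t1_222, t1_223, t1_224, t1_225, t1_226, t1_227, t1_228, t1_229, t1_230, t1_231, t1_232, t1_233, t1_234, t1_235, t1_236, t1_237, t1_238, t1_239, t1_240, t1_241, t1_242, t1_243, t1_244, t1_245, t1_246, t1_247, t1_248, t1_249, t1_250, t1_251, t1_252, t1_253, t1_254, t1_255]
noncomputable def tabs1 (J : ℕ) : Tab := tl1.getD J []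


end Pool.Agent.H81.Tor
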