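import Pool.Agent.H81.Tor4
import Pool.Agent.H81.TorK

set_option autoImplicit false
set_option maxRecDepth 100000

namespace Pool.Agent.H81.Tor

noncomputable def rl2 : List (ℕ × Ls) := [(0,[(1,0)]),
  (21,[(1,20)]),
  (22,[(1,20)]),
  (25,[(1,24)]),
  (28,[(1,24)]),
  (37,[(1,36)]),
  (38,[(1,36)]),
  (49,[(1,48)]),
  (70,[(1,68)]),
  (74,[(1,72)]),
  (88,[(1,80)]),
  (137,[(1,136)]),
  (161,[(1,160)]),
  (162,[(1,160)]),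
  (194,[(1,192)]),
  (200,[(1,192)]),
  (224,[(1,192)]),
  (23,[(1,20)]),
  (29,[(1,20)]),
  (29,[(1,24)]),
  (39,[(1,36)]),
  (53,[(-1,20),(1,36)]),
  (53,[(-1,20),(1,48)]),
  (57,[(-1,24),(1,48)]),
  (89,[(1,24)]),
  (153,[(-1,24),(1,136)]),
  (163,[(1,160)]),
  (165,[(-1,36),(1,160)]),
  (169,[(-1,136),(1,160)]),
  (177,[(-1,48),(1,160)]),
  (201,[(1,136)]),
  (225,[(1,160)]),
  (30,[(1,20)]),
  (54,[(-1,20),(1,36)]),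
  (78,[(-1,68),(1,72)]),
  (86,[(-1,20),(1,68)]),
  (90,[(-1,72)]),
  (92,[(1,24)]),
  (102,[(-1,36),(1,68)]),
  (166,[(-1,36),(1,160)]),
  (198,[(-1,68),(1,192)]),
  (202,[(1,72),(-1,192)]),
  (202,[(-1,72)]),
  (216,[(1,80),(-1,192)]),
  (226,[(-1,160),(1,192)]),
  (226,[(-1,192)]),
  (232,[(1,192)]),
  (31,[(-1,20)]),
  (55,[(1,20),(-1,36)]),
  (61,[(-1,20),(1,24),(-1,48)]),
  (93,[(-1,24)]),
  (94,[(1,20),(-1,68),(1,72)]),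
  (118,[(-1,20),(1,36),(-1,68)]),
  (167,[(1,36),(-1,160)]),
  (181,[(-1,36),(1,48),(-1,160)]),
  (185,[(1,24),(-1,48),(1,136),(1,160)]),
  (206,[(1,68),(-1,72),(1,192)]),
  (217,[(-1,24),(-1,136)]),
  (218,[(1,72)]),
  (227,[(1,160)]),
  (230,[(1,36),(-1,68),(1,160),(-1,192)]),
  (233,[(1,136),(-1,160)]),
  (234,[(1,192)]),
  (255,[(1,212)])]
noncomputable def rp2 (t : ℕ) : ℕ × Ls := rl2.getD t (0, [])
noncomputable def t2_0 : Tab := [(0,[],[(1,0)])]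
noncomputable def t2_1 : Tab := [(1,[(1,0)],[])]
noncomputable def t2_2 : Tab := [(2,[(1,0)],[])]
noncomputable def t2_3 : Tab := [(1,[(1,0)],[]),
  (3,[(1,2)],[])]
noncomputable def t2_4 : Tab := [(4,[(1,0)],[])]
noncomputable def t2_5 : Tab := [(1,[(1,0)],[]),
  (5,[(1,4)],[])]
noncomputable def t2_6 : Tab := [(2,[(1,0)],[]),
  (6,[(1,4)],[])]
noncomputable def t2_7 : Tab := [(1,[(1,0)],[]),
  (3,[(1,2)],[]),
  (5,[(1,4)],[]),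
  (7,[(1,6)],[])]
noncomputable def t2_8 : Tab := [(8,[(1,0)],[])]
noncomputable def t2_9 : Tab := [(1,[(1,0)],[]),
  (9,[(1,8)],[])]
noncomputable def t2_10 : Tab := [(2,[(1,0)],[]),
  (10,[(1,8)],[])]
noncomputable def t2_11 : Tab := [(1,[(1,0)],[]),
  (3,[(1,2)],[]),
  (9,[(1,8)],[]),
  (11,[(1,10)],[])]
noncomputable def t2_12 : Tab := [(4,[(1,0)],[]),
  (12,[(1,8)],[])]
noncomputable def t2_13 : Tab := [(1,[(1,0)],[]),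
  (5,[(1,4)],[]),
  (9,[(1,8)],[]),
  (13,[(1,12)],[])]
noncomputable def t2_14 : Tab := [(2,[(1,0)],[]),
  (6,[(1,4)],[]),
  (10,[(1,8)],[]),
  (14,[(1,12)],[])]
noncomputable def t2_15 : Tab := [(1,[(1,0)],[]),
  (3,[(1,2)],[]),
  (5,[(1,4)],[]),
  (7,[(1,6)],[]),
  (9,[(1,8)],[]),
  (11,[(1,10)],[]),
  (13,[(1,12)],[]),
  (15,[(1,14)],[])]
noncomputable def t2_16 : Tab := [(16,[(1,0)],[])]
noncomputable def t2_17 : Tab := [(1,[(1,0)],[]),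
  (17,[(1,16)],[])]
noncomputable def t2_18 : Tab := [(2,[(1,0)],[]),
  (18,[(1,16)],[])]
noncomputable def t2_19 : Tab := [(1,[(1,0)],[]),
  (3,[(1,2)],[]),
  (17,[(1,16)],[]),
  (19,[(1,18)],[])]
noncomputable def t2_20 : Tab := [(4,[(1,0)],[]),
  (20,[(1,16)],[])]
noncomputable def t2_21 : Tab := [(1,[(1,0)],[]),
  (5,[(1,4)],[(1,1)]),
  (17,[(1,16)],[(1,1)]),
  (20,[],[(1,1)])]
noncomputable def t2_22 : Tab := [(2,[(1,0)],[]),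
  (6,[(1,4)],[(1,2)]),
  (18,[(1,16)],[(1,2)]),
  (20,[],[(1,2)])]
noncomputable def t2_23 : Tab := [(1,[(1,0)],[]),
  (3,[(1,2)],[]),
  (5,[(1,4)],[(-1,17)]),
  (7,[(1,6)],[]),
  (17,[(1,16)],[(-1,17)]),
  (19,[(1,18)],[]),
  (20,[],[(1,17)])]
noncomputable def t2_24 : Tab := [(8,[(1,0)],[]),
  (24,[(1,16)],[])]
noncomputable def t2_25 : Tab := [(1,[(1,0)],[]),
  (9,[(1,8)],[(1,3)]),
  (17,[(1,16)],[(1,3)]),
  (24,[],[(1,3)])]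
noncomputable def t2_26 : Tab := [(2,[(1,0)],[]),
  (10,[(1,8)],[]),
  (18,[(1,16)],[]),
  (26,[(1,24)],[])]
noncomputable def t2_27 : Tab := [(1,[(1,0)],[]),
  (3,[(1,2)],[]),
  (9,[(1,8)],[]),
  (11,[(1,10),(-1,24)],[]),
  (17,[(1,16)],[]),
  (19,[(1,18),(-1,24)],[]),
  (26,[(-1,24)],[])]
noncomputable def t2_28 : Tab := [(4,[(1,0)],[]),
  (12,[(1,8)],[(1,4)]),
  (20,[(1,16)],[(1,4)]),
  (24,[],[(1,4)])]
noncomputable def t2_29 : Tab := [(1,[(1,0)],[]),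
  (5,[(1,4)],[(-1,18)]),
  (9,[(1,8)],[(-1,19)]),
  (13,[(1,12)],[]),
  (17,[(1,16)],[(1,18),(-1,19)]),
  (20,[],[(1,18)]),
  (24,[],[(1,19)])]
noncomputable def t2_30 : Tab := [(2,[(1,0)],[]),
  (6,[(1,4)],[(-1,32)]),
  (10,[(1,8)],[]),
  (14,[(1,12)],[]),
  (18,[(1,16)],[(1,32)]),
  (20,[],[(1,32)]),
  (26,[(1,24)],[])]
noncomputable def t2_31 : Tab := [(1,[(1,0)],[]),
  (3,[(1,2)],[]),
  (5,[(1,4)],[(-1,47)]),
  (7,[(1,6)],[]),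
  (9,[(1,8)],[]),
  (11,[(1,10),(1,24)],[]),
  (13,[(1,12)],[]),
  (15,[(1,14)],[]),
  (17,[(1,16)],[(1,47)]),
  (19,[(1,18),(1,24)],[]),
  (20,[],[(-1,47)]),
  (26,[(-1,24)],[])]
noncomputable def t2_32 : Tab := [(32,[(1,0)],[])]
noncomputable def t2_33 : Tab := [(1,[(1,0)],[]),
  (33,[(1,32)],[])]
noncomputable def t2_34 : Tab := [(2,[(1,0)],[]),
  (34,[(1,32)],[])]
noncomputable def t2_35 : Tab := [(1,[(1,0)],[]),
  (3,[(1,2)],[]),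
  (33,[(1,32)],[]),
  (35,[(1,34)],[])]
noncomputable def t2_36 : Tab := [(4,[(1,0)],[]),
  (36,[(1,32)],[])]
noncomputable def t2_37 : Tab := [(1,[(1,0)],[]),
  (5,[(1,4)],[(1,5)]),
  (33,[(1,32)],[(1,5)]),
  (36,[],[(1,5)])]
noncomputable def t2_38 : Tab := [(2,[(1,0)],[]),
  (6,[(1,4)],[(1,6)]),
  (34,[(1,32)],[(1,6)]),
  (36,[],[(1,6)])]
noncomputable def t2_39 : Tab := [(1,[(1,0)],[]),
  (3,[(1,2)],[]),
  (5,[(1,4)],[(-1,20)]),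
  (7,[(1,6)],[]),
  (33,[(1,32)],[(-1,20)]),
  (35,[(1,34)],[]),
  (36,[],[(1,20)])]
noncomputable def t2_40 : Tab := [(8,[(1,0)],[]),
  (40,[(1,32)],[])]
noncomputable def t2_41 : Tab := [(1,[(1,0)],[]),
  (9,[(1,8)],[]),
  (33,[(1,32)],[]),
  (41,[(1,40)],[])]
noncomputable def t2_42 : Tab := [(2,[(1,0)],[]),
  (10,[(1,8)],[]),
  (34,[(1,32)],[]),
  (42,[(1,40)],[])]
noncomputable def t2_43 : Tab := [(1,[(1,0)],[]),
  (3,[(1,2)],[]),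
  (9,[(1,8)],[]),
  (11,[(1,10)],[]),
  (33,[(1,32)],[]),
  (35,[(1,34)],[]),
  (41,[(1,40)],[]),
  (43,[(1,42)],[])]
noncomputable def t2_44 : Tab := [(4,[(1,0)],[]),
  (12,[(1,8)],[]),
  (36,[(1,32)],[]),
  (44,[(1,40)],[])]
noncomputable def t2_45 : Tab := [(1,[(1,0)],[]),
  (5,[(1,4)],[]),
  (9,[(1,8)],[]),
  (13,[(1,12),(-1,36)],[]),
  (33,[(1,32)],[]),
  (41,[(-1,36),(1,40)],[]),
  (44,[(-1,36)],[])]
noncomputable def t2_46 : Tab := [(2,[(1,0)],[]),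
  (6,[(1,4)],[]),
  (10,[(1,8)],[]),
  (14,[(1,12),(-1,36)],[]),
  (34,[(1,32)],[]),
  (42,[(-1,36),(1,40)],[]),
  (44,[(-1,36)],[])]
noncomputable def t2_47 : Tab := [(1,[(1,0)],[]),
  (3,[(1,2)],[]),
  (5,[(1,4)],[]),
  (7,[(1,6)],[]),
  (9,[(1,8)],[]),
  (11,[(1,10),(-1,36),(1,40)],[]),
  (13,[(1,12),(-1,36)],[]),
  (15,[(1,14)],[]),
  (33,[(1,32)],[]),
  (35,[(1,34),(-1,36),(1,40)],[]),
  (42,[(1,36),(-1,40)],[]),
  (43,[(1,41)],[]),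
  (44,[(1,36)],[])]
noncomputable def t2_48 : Tab := [(16,[(1,0)],[]),
  (48,[(1,32)],[])]
noncomputable def t2_49 : Tab := [(1,[(1,0)],[]),
  (17,[(1,16)],[(1,7)]),
  (33,[(1,32)],[(1,7)]),
  (48,[],[(1,7)])]
noncomputable def t2_50 : Tab := [(2,[(1,0)],[]),
  (18,[(1,16)],[]),
  (34,[(1,32)],[]),
  (50,[(1,48)],[])]
noncomputable def t2_51 : Tab := [(1,[(1,0)],[]),
  (3,[(1,2)],[]),
  (17,[(1,16)],[]),
  (19,[(1,18),(-1,48)],[]),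
  (33,[(1,32)],[]),
  (35,[(1,34),(-1,48)],[]),
  (50,[(-1,48)],[])]
noncomputable def t2_52 : Tab := [(4,[(1,0)],[]),
  (20,[(1,16)],[]),
  (36,[(1,32)],[]),
  (52,[(1,48)],[])]
noncomputable def t2_53 : Tab := [(1,[(1,0)],[]),
  (5,[(1,4)],[(-1,21)]),
  (17,[(1,16)],[(-1,22)]),
  (33,[(1,32)],[(1,21),(-1,22)]),
  (36,[],[(1,21)]),
  (48,[],[(1,22)]),
  (52,[(-1,20)],[])]
noncomputable def t2_54 : Tab := [(2,[(1,0)],[]),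
  (6,[(1,4)],[(-1,33)]),
  (18,[(1,16)],[]),
  (34,[(1,32)],[(1,33)]),
  (36,[],[(1,33)]),
  (50,[(-1,20),(1,48)],[]),
  (52,[(-1,20)],[])]
noncomputable def t2_55 : Tab := [(1,[(1,0)],[]),
  (3,[(1,2)],[]),
  (5,[(1,4)],[(-1,48)]),
  (7,[(1,6)],[]),
  (17,[(1,16)],[]),
  (19,[(1,18),(-1,20),(1,48)],[]),
  (33,[(1,32)],[(1,48)]),
  (35,[(-1,20),(1,34),(1,48)],[]),
  (36,[],[(-1,48)]),
  (50,[(1,20),(-1,48)],[]),
  (52,[(1,20)],[])]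
noncomputable def t2_56 : Tab := [(8,[(1,0)],[]),
  (24,[(1,16)],[]),
  (40,[(1,32)],[]),
  (56,[(1,48)],[])]
noncomputable def t2_57 : Tab := [(1,[(1,0)],[]),
  (9,[(1,8)],[]),
  (17,[(1,16)],[(-1,23)]),
  (33,[(1,32)],[(-1,23)]),
  (41,[(-1,24),(1,40)],[]),
  (48,[],[(1,23)]),
  (56,[(-1,24)],[])]
noncomputable def t2_58 : Tab := [(2,[(1,0)],[]),
  (10,[(1,8)],[]),
  (18,[(1,16)],[]),
  (26,[(1,24)],[]),
  (34,[(1,32)],[]),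
  (42,[(1,40)],[]),
  (50,[(1,48)],[]),
  (58,[(1,56)],[])]
noncomputable def t2_59 : Tab := [(1,[(1,0)],[]),
  (3,[(1,2)],[]),
  (9,[(1,8)],[]),
  (11,[(1,10),(-1,24)],[]),
  (17,[(1,16)],[]),
  (19,[(1,18),(-1,24),(1,48)],[]),
  (26,[(-1,24)],[]),
  (33,[(1,32)],[]),
  (35,[(1,34),(1,48)],[]),
  (41,[(1,40)],[]),
  (43,[(1,42),(-1,56)],[]),
  (50,[(-1,48)],[]),
  (58,[(-1,56)],[])]
noncomputable def t2_60 : Tab := [(4,[(1,0)],[]),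
  (12,[(1,8)],[]),
  (20,[(1,16)],[]),
  (36,[(1,32)],[]),
  (44,[(-1,24),(1,40)],[]),
  (52,[(-1,24),(1,48)],[]),
  (56,[(-1,24)],[])]
noncomputable def t2_61 : Tab := [(1,[(1,0)],[]),
  (5,[(1,4)],[]),
  (9,[(1,8)],[]),
  (13,[(1,12),(-1,20),(1,36)],[]),
  (17,[(1,16)],[(-1,49)]),
  (33,[(1,32)],[(-1,49)]),
  (41,[(1,20),(-1,24),(-1,36),(1,40)],[]),
  (44,[(1,20),(-1,36)],[]),
  (48,[],[(-1,49)]),
  (52,[(1,20)],[]),
  (56,[(1,24)],[])]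
noncomputable def t2_62 : Tab := [(2,[(1,0)],[]),
  (6,[(1,4)],[]),
  (10,[(1,8)],[]),
  (14,[(1,12),(-1,20),(1,36)],[]),
  (18,[(1,16)],[]),
  (26,[(-1,20),(1,24),(-1,48)],[]),
  (34,[(1,32)],[]),
  (42,[(-1,36),(1,40),(-1,48)],[]),
  (44,[(1,20),(-1,36)],[]),
  (52,[(1,20)],[]),
  (56,[(1,20),(1,48)],[]),
  (58,[(-1,50)],[])]
noncomputable def t2_63 : Tab := [(1,[(1,0)],[]),
  (3,[(1,2)],[]),
  (5,[(1,4)],[]),
  (7,[(1,6)],[]),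
  (9,[(1,8)],[]),
  (11,[(1,10),(-1,20),(1,24),(-1,48)],[]),
  (13,[(1,12),(-1,20),(1,36)],[]),
  (15,[(1,14)],[]),
  (17,[(1,16)],[]),
  (19,[(1,18),(-1,20),(1,24),(-1,48)],[]),
  (26,[(1,20),(-1,24),(1,48)],[]),
  (33,[(1,32)],[]),
  (35,[(1,34)],[]),
  (41,[(-1,36),(1,40),(-1,48)],[]),
  (43,[(1,42),(-1,50)],[]),
  (44,[(-1,20),(1,36)],[]),
  (52,[(-1,20)],[]),
  (56,[(-1,20),(-1,48)],[]),
  (58,[(1,50)],[])]
noncomputable def t2_64 : Tab := [(64,[(1,0)],[])]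
noncomputable def t2_65 : Tab := [(1,[(1,0)],[]),
  (65,[(1,64)],[])]
noncomputable def t2_66 : Tab := [(2,[(1,0)],[]),
  (66,[(1,64)],[])]
noncomputable def t2_67 : Tab := [(1,[(1,0)],[]),
  (3,[(1,2)],[]),
  (65,[(1,64)],[]),
  (67,[(1,66)],[])]
noncomputable def t2_68 : Tab := [(4,[(1,0)],[]),
  (68,[(1,64)],[])]
noncomputable def t2_69 : Tab := [(1,[(1,0)],[]),
  (5,[(1,4)],[]),
  (65,[(1,64)],[]),
  (69,[(1,68)],[])]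
noncomputable def t2_70 : Tab := [(2,[(1,0)],[]),
  (6,[(1,4)],[(1,8)]),
  (66,[(1,64)],[(1,8)]),
  (68,[],[(1,8)])]
noncomputable def t2_71 : Tab := [(1,[(1,0)],[]),
  (3,[(1,2)],[]),
  (5,[(1,4)],[]),
  (7,[(1,6)],[]),
  (65,[(1,64)],[]),
  (67,[(1,66)],[]),
  (69,[(1,68)],[])]
noncomputable def t2_72 : Tab := [(8,[(1,0)],[]),
  (72,[(1,64)],[])]
noncomputable def t2_73 : Tab := [(1,[(1,0)],[]),
  (9,[(1,8)],[]),
  (65,[(1,64)],[]),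
  (73,[(1,72)],[])]
noncomputable def t2_74 : Tab := [(2,[(1,0)],[]),
  (10,[(1,8)],[(1,9)]),
  (66,[(1,64)],[(1,9)]),
  (72,[],[(1,9)])]
noncomputable def t2_75 : Tab := [(1,[(1,0)],[]),
  (3,[(1,2)],[]),
  (9,[(1,8)],[]),
  (11,[(1,10)],[]),
  (65,[(1,64)],[]),
  (67,[(1,66)],[]),
  (73,[(1,72)],[])]
noncomputable def t2_76 : Tab := [(4,[(1,0)],[]),
  (12,[(1,8)],[]),
  (68,[(1,64)],[]),
  (76,[(1,72)],[])]
noncomputable def t2_77 : Tab := [(1,[(1,0)],[]),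
  (5,[(1,4)],[]),
  (9,[(1,8)],[]),
  (13,[(1,12)],[]),
  (65,[(1,64)],[]),
  (69,[(1,68)],[]),
  (73,[(1,72)],[]),
  (77,[(1,76)],[])]
noncomputable def t2_78 : Tab := [(2,[(1,0)],[]),
  (6,[(1,4)],[]),
  (10,[(1,8)],[(-1,34)]),
  (14,[(1,12),(-1,68)],[]),
  (66,[(1,64)],[(-1,34)]),
  (72,[],[(1,34)]),
  (76,[(-1,68)],[])]
noncomputable def t2_79 : Tab := [(1,[(1,0)],[]),
  (3,[(1,2)],[]),
  (5,[(1,4)],[]),
  (7,[(1,6)],[]),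
  (9,[(1,8)],[]),
  (11,[(1,10)],[]),
  (13,[(1,12)],[]),
  (15,[(1,14)],[]),
  (65,[(1,64)],[]),
  (67,[(1,66)],[]),
  (69,[(1,68)],[]),
  (73,[(1,72)],[]),
  (77,[(1,76)],[])]
noncomputable def t2_80 : Tab := [(16,[(1,0)],[]),
  (80,[(1,64)],[])]
noncomputable def t2_81 : Tab := [(1,[(1,0)],[]),
  (17,[(1,16)],[]),
  (65,[(1,64)],[]),
  (81,[(1,80)],[])]
noncomputable def t2_82 : Tab := [(2,[(1,0)],[]),
  (18,[(1,16)],[]),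
  (66,[(1,64)],[]),
  (82,[(1,80)],[])]
noncomputable def t2_83 : Tab := [(1,[(1,0)],[]),
  (3,[(1,2)],[]),
  (17,[(1,16)],[]),
  (19,[(1,18)],[]),
  (65,[(1,64)],[]),
  (67,[(1,66)],[]),
  (81,[(1,80)],[]),
  (83,[(1,82)],[])]
noncomputable def t2_84 : Tab := [(4,[(1,0)],[]),
  (20,[(1,16)],[]),
  (68,[(1,64)],[]),
  (84,[(1,80)],[])]
noncomputable def t2_85 : Tab := [(1,[(1,0)],[]),
  (5,[(1,4)],[]),
  (17,[(1,16)],[]),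
  (65,[(1,64)],[]),
  (69,[(-1,20),(1,68)],[]),
  (81,[(-1,20),(1,80)],[]),
  (84,[(-1,20)],[])]
noncomputable def t2_86 : Tab := [(2,[(1,0)],[]),
  (6,[(1,4)],[(-1,35)]),
  (18,[(1,16)],[]),
  (66,[(1,64)],[(1,35)]),
  (68,[],[(1,35)]),
  (82,[(-1,20),(1,80)],[]),
  (84,[(-1,20)],[])]
noncomputable def t2_87 : Tab := [(1,[(1,0)],[]),
  (3,[(1,2)],[]),
  (5,[(1,4)],[]),
  (7,[(1,6)],[]),
  (17,[(1,16)],[]),
  (19,[(1,18),(-1,20),(1,80)],[]),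
  (65,[(1,64)],[]),
  (67,[(-1,20),(1,66),(1,80)],[]),
  (69,[(-1,20),(1,68)],[]),
  (82,[(1,20),(-1,80)],[]),
  (83,[(1,81)],[]),
  (84,[(1,20)],[])]
noncomputable def t2_88 : Tab := [(8,[(1,0)],[]),
  (24,[(1,16)],[(1,10)]),
  (72,[(1,64)],[(1,10)]),
  (80,[],[(1,10)])]
noncomputable def t2_89 : Tab := [(1,[(1,0)],[]),
  (9,[(1,8)],[(1,24)]),
  (17,[(1,16)],[(1,24)]),
  (24,[],[(1,24)]),
  (65,[(1,64)],[]),
  (73,[(1,72)],[]),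
  (81,[(1,80)],[])]
noncomputable def t2_90 : Tab := [(2,[(1,0)],[]),
  (10,[(1,8)],[(1,36)]),
  (18,[(1,16)],[]),
  (26,[(1,24)],[]),
  (66,[(1,64)],[(-1,36)]),
  (72,[],[(-1,36)]),
  (82,[(1,80)],[])]
noncomputable def t2_91 : Tab := [(1,[(1,0)],[]),
  (3,[(1,2)],[]),
  (9,[(1,8)],[]),
  (11,[(1,10),(-1,24)],[]),
  (17,[(1,16)],[]),
  (19,[(1,18),(-1,24)],[]),
  (26,[(-1,24)],[]),
  (65,[(1,64)],[]),
  (67,[(1,66)],[]),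
  (73,[(1,72)],[]),
  (81,[(1,80)],[]),
  (83,[(1,82)],[])]
noncomputable def t2_92 : Tab := [(4,[(1,0)],[]),
  (12,[(1,8)],[(1,37)]),
  (20,[(1,16)],[(1,37)]),
  (24,[],[(1,37)]),
  (68,[(1,64)],[]),
  (76,[(1,72)],[]),
  (84,[(1,80)],[])]
noncomputable def t2_93 : Tab := [(1,[(1,0)],[]),
  (5,[(1,4)],[]),
  (9,[(1,8)],[(1,50)]),
  (13,[(1,12),(-1,20),(1,68)],[]),
  (17,[(1,16)],[(1,50)]),
  (24,[],[(-1,50)]),
  (65,[(1,64)],[]),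
  (73,[(1,20),(-1,68),(1,72)],[]),
  (76,[(1,20),(-1,68)],[]),
  (77,[(1,69)],[]),
  (81,[(1,20),(1,80)],[]),
  (84,[(1,20)],[])]
noncomputable def t2_94 : Tab := [(2,[(1,0)],[]),
  (6,[(1,4)],[(-1,51)]),
  (10,[(1,8)],[]),
  (14,[(1,12),(1,72)],[]),
  (18,[(1,16)],[]),
  (26,[(1,24)],[]),
  (66,[(1,64)],[(-1,51)]),
  (68,[],[(-1,51)]),
  (76,[(-1,72)],[]),
  (82,[(1,20),(1,80)],[]),
  (84,[(1,20)],[])]
noncomputable def t2_95 : Tab := [(1,[(1,0)],[]),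
  (3,[(1,2)],[]),
  (5,[(1,4)],[]),
  (7,[(1,6)],[]),
  (9,[(1,8)],[]),
  (11,[(1,10),(1,24)],[]),
  (13,[(1,12),(-1,20),(1,68)],[]),
  (15,[(1,14)],[]),
  (17,[(1,16)],[]),
  (19,[(1,18),(-1,20),(1,24),(-1,80)],[]),
  (26,[(-1,24)],[]),
  (65,[(1,64)],[]),
  (67,[(-1,20),(1,66),(-1,80)],[]),
  (73,[(1,20),(-1,68),(1,72)],[]),
  (76,[(-1,20),(1,68)],[]),
  (77,[(-1,69)],[]),
  (82,[(-1,20),(-1,80)],[]),
  (83,[(1,81)],[]),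
  (84,[(-1,20)],[])]
noncomputable def t2_96 : Tab := [(32,[(1,0)],[]),
  (96,[(1,64)],[])]
noncomputable def t2_97 : Tab := [(1,[(1,0)],[]),
  (33,[(1,32)],[]),
  (65,[(1,64)],[]),
  (97,[(1,96)],[])]
noncomputable def t2_98 : Tab := [(2,[(1,0)],[]),
  (34,[(1,32)],[]),
  (66,[(1,64)],[]),
  (98,[(1,96)],[])]
noncomputable def t2_99 : Tab := [(1,[(1,0)],[]),
  (3,[(1,2)],[]),
  (33,[(1,32)],[]),
  (35,[(1,34)],[]),
  (65,[(1,64)],[]),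
  (67,[(1,66)],[]),
  (97,[(1,96)],[]),
  (99,[(1,98)],[])]
noncomputable def t2_100 : Tab := [(4,[(1,0)],[]),
  (36,[(1,32)],[]),
  (68,[(1,64)],[]),
  (100,[(1,96)],[])]
noncomputable def t2_101 : Tab := [(1,[(1,0)],[]),
  (5,[(1,4)],[]),
  (33,[(1,32)],[]),
  (65,[(1,64)],[]),
  (69,[(-1,36),(1,68)],[]),
  (97,[(-1,36),(1,96)],[]),
  (100,[(-1,36)],[])]
noncomputable def t2_102 : Tab := [(2,[(1,0)],[]),
  (6,[(1,4)],[(-1,38)]),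
  (34,[(1,32)],[]),
  (66,[(1,64)],[(1,38)]),
  (68,[],[(1,38)]),
  (98,[(-1,36),(1,96)],[]),
  (100,[(-1,36)],[])]
noncomputable def t2_103 : Tab := [(1,[(1,0)],[]),
  (3,[(1,2)],[]),
  (5,[(1,4)],[]),
  (7,[(1,6)],[]),
  (33,[(1,32)],[]),
  (35,[(1,34),(-1,36),(1,96)],[]),
  (65,[(1,64)],[]),
  (67,[(-1,36),(1,66),(1,96)],[]),
  (69,[(-1,36),(1,68)],[]),
  (98,[(1,36),(-1,96)],[]),
  (99,[(1,97)],[]),
  (100,[(1,36)],[])]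
noncomputable def t2_104 : Tab := [(8,[(1,0)],[]),
  (40,[(1,32)],[]),
  (72,[(1,64)],[]),
  (104,[(1,96)],[])]
noncomputable def t2_105 : Tab := [(1,[(1,0)],[]),
  (9,[(1,8)],[]),
  (33,[(1,32)],[]),
  (41,[(1,40)],[]),
  (65,[(1,64)],[]),
  (73,[(1,72)],[]),
  (97,[(1,96)],[]),
  (105,[(1,104)],[])]
noncomputable def t2_106 : Tab := [(2,[(1,0)],[]),
  (10,[(1,8)],[]),
  (34,[(1,32)],[]),
  (42,[(1,40),(-1,72)],[]),
  (66,[(1,64)],[]),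
  (98,[(-1,72),(1,96)],[]),
  (104,[(-1,72)],[])]
noncomputable def t2_107 : Tab := [(1,[(1,0)],[]),
  (3,[(1,2)],[]),
  (9,[(1,8)],[]),
  (11,[(1,10)],[]),
  (33,[(1,32)],[]),
  (35,[(1,34)],[]),
  (41,[(1,40)],[]),
  (43,[(1,42)],[]),
  (65,[(1,64)],[]),
  (67,[(1,66)],[]),
  (73,[(1,72)],[]),
  (97,[(1,96)],[]),
  (99,[(1,98)],[]),
  (105,[(1,104)],[])]
noncomputable def t2_108 : Tab := [(4,[(1,0)],[]),
  (12,[(1,8)],[]),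
  (36,[(1,32)],[]),
  (44,[(1,40)],[]),
  (68,[(1,64)],[]),
  (76,[(1,72)],[]),
  (100,[(1,96)],[]),
  (108,[(1,104)],[])]
noncomputable def t2_109 : Tab := [(1,[(1,0)],[]),
  (5,[(1,4)],[]),
  (9,[(1,8)],[]),
  (13,[(1,12),(-1,36)],[]),
  (33,[(1,32)],[]),
  (41,[(-1,36),(1,40)],[]),
  (44,[(-1,36)],[]),
  (65,[(1,64)],[]),
  (69,[(1,68)],[]),
  (73,[(1,72)],[]),
  (77,[(1,76),(-1,100)],[]),
  (97,[(1,96)],[]),
  (105,[(-1,100),(1,104)],[]),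
  (108,[(-1,100)],[])]
noncomputable def t2_110 : Tab := [(2,[(1,0)],[]),
  (6,[(1,4)],[]),
  (10,[(1,8)],[]),
  (14,[(1,12),(-1,36),(1,68)],[]),
  (34,[(1,32)],[]),
  (42,[(-1,36),(1,40),(1,68),(-1,72)],[]),
  (44,[(-1,36),(1,68)],[]),
  (66,[(1,64)],[]),
  (98,[(1,68),(-1,72),(1,96)],[]),
  (100,[(1,68)],[]),
  (104,[(1,72)],[]),
  (108,[(-1,76)],[])]
noncomputable def t2_111 : Tab := [(1,[(1,0)],[]),
  (3,[(1,2)],[]),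
  (5,[(1,4)],[]),
  (7,[(1,6)],[]),
  (9,[(1,8)],[]),
  (11,[(1,10)],[]),
  (13,[(1,12),(-1,36)],[]),
  (15,[(1,14)],[]),
  (33,[(1,32)],[]),
  (35,[(1,34)],[]),
  (41,[(-1,36),(1,40)],[]),
  (43,[(1,42)],[]),
  (44,[(1,36)],[]),
  (65,[(1,64)],[]),
  (67,[(1,66)],[]),
  (69,[(1,68)],[]),
  (73,[(1,72)],[]),
  (77,[(1,76),(-1,100)],[]),
  (97,[(1,96)],[]),
  (99,[(1,98)],[]),
  (105,[(-1,100),(1,104)],[]),
  (108,[(1,100)],[])]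
noncomputable def t2_112 : Tab := [(16,[(1,0)],[]),
  (48,[(1,32)],[]),
  (80,[(1,64)],[]),
  (112,[(1,96)],[])]
noncomputable def t2_113 : Tab := [(1,[(1,0)],[]),
  (17,[(1,16)],[]),
  (33,[(1,32)],[]),
  (65,[(1,64)],[]),
  (81,[(-1,48),(1,80)],[]),
  (97,[(-1,48),(1,96)],[]),
  (112,[(-1,48)],[])]
noncomputable def t2_114 : Tab := [(2,[(1,0)],[]),
  (18,[(1,16)],[]),
  (34,[(1,32)],[]),
  (50,[(1,48)],[]),
  (66,[(1,64)],[]),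
  (82,[(1,80)],[]),
  (98,[(1,96)],[]),
  (114,[(1,112)],[])]
noncomputable def t2_115 : Tab := [(1,[(1,0)],[]),
  (3,[(1,2)],[]),
  (17,[(1,16)],[]),
  (19,[(1,18),(-1,48)],[]),
  (33,[(1,32)],[]),
  (35,[(1,34),(-1,48)],[]),
  (50,[(-1,48)],[]),
  (65,[(1,64)],[]),
  (67,[(1,66)],[]),
  (81,[(1,80)],[]),
  (83,[(1,82),(-1,112)],[]),
  (97,[(1,96)],[]),
  (99,[(1,98),(-1,112)],[]),
  (114,[(-1,112)],[])]
noncomputable def t2_116 : Tab := [(4,[(1,0)],[]),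
  (20,[(1,16)],[]),
  (36,[(1,32)],[]),
  (52,[(1,48)],[]),
  (68,[(1,64)],[]),
  (84,[(1,80)],[]),
  (100,[(1,96)],[]),
  (116,[(1,112)],[])]
noncomputable def t2_117 : Tab := [(1,[(1,0)],[]),
  (5,[(1,4)],[]),
  (17,[(1,16)],[]),
  (33,[(1,32)],[]),
  (65,[(1,64)],[]),
  (69,[(1,20),(-1,36),(1,68)],[]),
  (81,[(1,20),(-1,48),(1,80)],[]),
  (84,[(1,20)],[]),
  (97,[(1,36),(-1,48),(1,96)],[]),
  (100,[(1,36)],[]),
  (112,[(1,48)],[]),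
  (116,[(-1,52)],[])]
noncomputable def t2_118 : Tab := [(2,[(1,0)],[]),
  (6,[(1,4)],[(-1,52)]),
  (18,[(1,16)],[]),
  (34,[(1,32)],[]),
  (50,[(-1,20),(1,48),(-1,80)],[]),
  (66,[(1,64)],[(-1,52)]),
  (68,[],[(-1,52)]),
  (84,[(1,20)],[]),
  (98,[(-1,20),(1,36),(-1,80),(1,96)],[]),
  (100,[(1,36)],[]),
  (112,[(1,20),(1,80)],[]),
  (114,[(-1,82)],[]),
  (116,[(-1,52)],[])]
noncomputable def t2_119 : Tab := [(1,[(1,0)],[]),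
  (3,[(1,2)],[]),
  (5,[(1,4)],[]),
  (7,[(1,6)],[]),
  (17,[(1,16)],[]),
  (19,[(1,18),(-1,20),(1,48),(-1,80)],[]),
  (33,[(1,32)],[]),
  (35,[(1,34),(-1,36),(1,48),(-1,96)],[]),
  (50,[(-1,48)],[]),
  (65,[(1,64)],[]),
  (67,[(1,20),(-1,36),(1,66),(1,80),(-1,96)],[]),
  (69,[(1,20),(-1,36),(1,68)],[]),
  (82,[(-1,20),(-1,80)],[]),
  (83,[(1,81)],[]),
  (84,[(-1,20)],[]),
  (98,[(-1,36),(-1,96)],[]),
  (99,[(1,97)],[]),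
  (100,[(-1,36)],[]),
  (114,[(1,52),(-1,112)],[]),
  (116,[(1,52)],[])]
noncomputable def t2_120 : Tab := [(8,[(1,0)],[]),
  (24,[(1,16)],[]),
  (40,[(1,32)],[]),
  (56,[(1,48),(-1,80)],[]),
  (72,[(1,64)],[]),
  (104,[(-1,80),(1,96)],[]),
  (112,[(-1,80)],[])]
noncomputable def t2_121 : Tab := [(1,[(1,0)],[]),
  (9,[(1,8)],[]),
  (17,[(1,16)],[]),
  (33,[(1,32)],[]),
  (56,[(-1,24)],[]),
  (65,[(1,64)],[]),
  (73,[(1,24),(-1,40),(1,72)],[]),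
  (81,[(1,24),(-1,48),(1,80)],[]),
  (97,[(1,40),(-1,48),(1,96)],[]),
  (104,[(-1,24),(1,40)],[]),
  (105,[(-1,41)],[]),
  (112,[(-1,24),(1,48)],[])]
noncomputable def t2_122 : Tab := [(2,[(1,0)],[]),
  (10,[(1,8)],[]),
  (18,[(1,16)],[]),
  (26,[(1,24)],[]),
  (34,[(1,32)],[]),
  (42,[(1,40),(-1,72)],[]),
  (50,[(1,48),(-1,72),(-1,96)],[]),
  (58,[(1,56)],[]),
  (66,[(1,64)],[]),
  (82,[(-1,72),(1,80),(-1,96)],[]),
  (104,[(1,72)],[]),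
  (112,[(1,72),(1,96)],[]),
  (114,[(-1,98)],[])]
noncomputable def t2_123 : Tab := [(1,[(1,0)],[]),
  (3,[(1,2)],[]),
  (9,[(1,8)],[]),
  (11,[(1,10),(-1,24)],[]),
  (17,[(1,16)],[]),
  (19,[(1,18),(-1,24),(1,48)],[]),
  (26,[(-1,24)],[]),
  (33,[(1,32)],[]),
  (35,[(1,34),(1,48)],[]),
  (41,[(1,40)],[]),
  (43,[(1,42),(-1,56)],[]),
  (50,[(-1,48)],[]),
  (58,[(-1,56)],[]),
  (65,[(1,64)],[]),
  (67,[(1,66)],[]),
  (73,[(1,72)],[]),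
  (81,[(1,80)],[]),
  (83,[(1,82),(1,112)],[]),
  (97,[(1,96)],[]),
  (99,[(1,98),(1,112)],[]),
  (105,[(1,104)],[]),
  (114,[(-1,112)],[])]
noncomputable def t2_124 : Tab := [(4,[(1,0)],[]),
  (12,[(1,8)],[]),
  (20,[(1,16)],[]),
  (36,[(1,32)],[]),
  (56,[(-1,24)],[]),
  (68,[(1,64)],[]),
  (76,[(1,24),(-1,40),(1,72)],[]),
  (84,[(1,24),(-1,48),(1,80)],[]),
  (100,[(1,40),(-1,48),(1,96)],[]),
  (104,[(-1,24),(1,40)],[]),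
  (108,[(-1,44)],[]),
  (112,[(-1,24),(1,48)],[]),
  (116,[(-1,52)],[])]
noncomputable def t2_125 : Tab := [(1,[(1,0)],[]),
  (5,[(1,4)],[]),
  (9,[(1,8)],[]),
  (13,[(1,12),(-1,20),(1,36),(-1,68)],[]),
  (17,[(1,16)],[]),
  (33,[(1,32)],[]),
  (56,[(1,24)],[]),
  (65,[(1,64)],[]),
  (73,[(-1,20),(1,24),(1,36),(-1,40),(-1,68),(1,72)],[]),
  (76,[(-1,20),(1,36),(-1,68)],[]),
  (77,[(1,69)],[]),
  (81,[(-1,20),(1,24),(-1,48),(1,80)],[]),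
  (84,[(-1,20)],[]),
  (97,[(-1,36),(1,40),(-1,48),(1,96)],[]),
  (100,[(-1,36)],[]),
  (104,[(1,24),(-1,40)],[]),
  (105,[(1,41)],[]),
  (108,[(1,44)],[]),
  (112,[(1,24),(-1,48)],[]),
  (116,[(1,52)],[])]
noncomputable def t2_126 : Tab := [(2,[(1,0)],[]),
  (6,[(1,4)],[]),
  (10,[(1,8)],[]),
  (14,[(1,12),(-1,20),(1,36),(-1,68)],[]),
  (18,[(1,16)],[]),
  (26,[(1,24)],[]),
  (34,[(1,32)],[]),
  (42,[(1,20),(-1,36),(1,40),(1,68),(-1,72)],[]),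
  (44,[(1,20),(-1,36),(1,68)],[]),
  (50,[(1,20),(1,48),(1,68),(-1,72),(-1,96)],[]),
  (52,[(1,20),(1,68),(-1,72),(-1,96)],[]),
  (58,[(1,56)],[]),
  (66,[(1,64)],[]),
  (82,[(1,68),(-1,72),(1,80),(-1,96)],[]),
  (84,[(1,68),(-1,72),(-1,96)],[]),
  (100,[(-1,72),(-1,96)],[]),
  (104,[(-1,72)],[]),
  (108,[(1,76)],[]),
  (114,[(1,98)],[]),
  (116,[(1,98),(-1,112)],[])]
noncomputable def t2_127 : Tab := [(1,[(1,0)],[]),
  (3,[(1,2)],[]),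
  (5,[(1,4)],[]),
  (7,[(1,6)],[]),
  (9,[(1,8)],[]),
  (11,[(1,10),(1,24)],[]),
  (13,[(1,12),(-1,20),(1,36)],[]),
  (15,[(1,14)],[]),
  (17,[(1,16)],[]),
  (19,[(1,18),(-1,20),(1,24),(-1,48)],[]),
  (26,[(-1,24)],[]),
  (33,[(1,32)],[]),
  (35,[(-1,20),(1,34),(-1,48)],[]),
  (41,[(1,20),(-1,36),(1,40)],[]),
  (43,[(1,42),(1,56)],[]),
  (44,[(-1,20),(1,36)],[]),
  (50,[(-1,20),(-1,48)],[]),
  (52,[(-1,20)],[]),
  (58,[(-1,56)],[]),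
  (65,[(1,64)],[]),
  (67,[(1,66)],[]),
  (69,[(1,68)],[]),
  (73,[(1,72)],[]),
  (77,[(1,76),(-1,84),(1,100)],[]),
  (81,[(1,80)],[]),
  (83,[(1,82),(-1,84),(-1,112)],[]),
  (97,[(1,96)],[]),
  (99,[(-1,84),(1,98),(-1,112)],[]),
  (105,[(1,84),(-1,100),(1,104)],[]),
  (108,[(-1,84),(1,100)],[]),
  (114,[(-1,84),(-1,112)],[]),
  (116,[(-1,84)],[])]
noncomputable def t2_128 : Tab := [(128,[(1,0)],[])]
noncomputable def t2_129 : Tab := [(1,[(1,0)],[]),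
  (129,[(1,128)],[])]
noncomputable def t2_130 : Tab := [(2,[(1,0)],[]),
  (130,[(1,128)],[])]
noncomputable def t2_131 : Tab := [(1,[(1,0)],[]),
  (3,[(1,2)],[]),
  (129,[(1,128)],[]),
  (131,[(1,130)],[])]
noncomputable def t2_132 : Tab := [(4,[(1,0)],[]),
  (132,[(1,128)],[])]
noncomputable def t2_133 : Tab := [(1,[(1,0)],[]),
  (5,[(1,4)],[]),
  (129,[(1,128)],[]),
  (133,[(1,132)],[])]
noncomputable def t2_134 : Tab := [(2,[(1,0)],[]),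
  (6,[(1,4)],[]),
  (130,[(1,128)],[]),
  (134,[(1,132)],[])]
noncomputable def t2_135 : Tab := [(1,[(1,0)],[]),
  (3,[(1,2)],[]),
  (5,[(1,4)],[]),
  (7,[(1,6)],[]),
  (129,[(1,128)],[]),
  (131,[(1,130)],[]),
  (133,[(1,132)],[]),
  (135,[(1,134)],[])]
noncomputable def t2_136 : Tab := [(8,[(1,0)],[]),
  (136,[(1,128)],[])]
noncomputable def t2_137 : Tab := [(1,[(1,0)],[]),
  (9,[(1,8)],[(1,11)]),
  (129,[(1,128)],[(1,11)]),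
  (136,[],[(1,11)])]
noncomputable def t2_138 : Tab := [(2,[(1,0)],[]),
  (10,[(1,8)],[]),
  (130,[(1,128)],[]),
  (138,[(1,136)],[])]
noncomputable def t2_139 : Tab := [(1,[(1,0)],[]),
  (3,[(1,2)],[]),
  (9,[(1,8)],[]),
  (11,[(1,10),(-1,136)],[]),
  (129,[(1,128)],[]),
  (131,[(1,130),(-1,136)],[]),
  (138,[(-1,136)],[])]
noncomputable def t2_140 : Tab := [(4,[(1,0)],[]),
  (12,[(1,8)],[]),
  (132,[(1,128)],[]),
  (140,[(1,136)],[])]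
noncomputable def t2_141 : Tab := [(1,[(1,0)],[]),
  (5,[(1,4)],[]),
  (9,[(1,8)],[]),
  (13,[(1,12),(-1,136)],[]),
  (129,[(1,128)],[]),
  (133,[(1,132),(-1,136)],[]),
  (140,[(-1,136)],[])]
noncomputable def t2_142 : Tab := [(2,[(1,0)],[]),
  (6,[(1,4)],[]),
  (10,[(1,8)],[]),
  (14,[(1,12)],[]),
  (130,[(1,128)],[]),
  (134,[(1,132)],[]),
  (138,[(1,136)],[]),
  (142,[(1,140)],[])]
noncomputable def t2_143 : Tab := [(1,[(1,0)],[]),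
  (3,[(1,2)],[]),
  (5,[(1,4)],[]),
  (7,[(1,6)],[]),
  (9,[(1,8)],[]),
  (11,[(1,10),(1,136)],[]),
  (13,[(1,12)],[]),
  (15,[(1,14),(-1,140)],[]),
  (129,[(1,128)],[]),
  (131,[(1,130),(1,136)],[]),
  (133,[(1,132)],[]),
  (135,[(1,134),(-1,140)],[]),
  (138,[(-1,136)],[]),
  (142,[(-1,140)],[])]
noncomputable def t2_144 : Tab := [(16,[(1,0)],[]),
  (144,[(1,128)],[])]
noncomputable def t2_145 : Tab := [(1,[(1,0)],[]),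
  (17,[(1,16)],[]),
  (129,[(1,128)],[]),
  (145,[(1,144)],[])]
noncomputable def t2_146 : Tab := [(2,[(1,0)],[]),
  (18,[(1,16)],[]),
  (130,[(1,128)],[]),
  (146,[(1,144)],[])]
noncomputable def t2_147 : Tab := [(1,[(1,0)],[]),
  (3,[(1,2)],[]),
  (17,[(1,16)],[]),
  (19,[(1,18)],[]),
  (129,[(1,128)],[]),
  (131,[(1,130)],[]),
  (145,[(1,144)],[]),
  (147,[(1,146)],[])]
noncomputable def t2_148 : Tab := [(4,[(1,0)],[]),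
  (20,[(1,16)],[]),
  (132,[(1,128)],[]),
  (148,[(1,144)],[])]
noncomputable def t2_149 : Tab := [(1,[(1,0)],[]),
  (5,[(1,4)],[]),
  (17,[(1,16)],[]),
  (129,[(1,128)],[]),
  (133,[(-1,20),(1,132)],[]),
  (145,[(-1,20),(1,144)],[]),
  (148,[(-1,20)],[])]
noncomputable def t2_150 : Tab := [(2,[(1,0)],[]),
  (6,[(1,4)],[]),
  (18,[(1,16)],[]),
  (130,[(1,128)],[]),
  (134,[(-1,20),(1,132)],[]),
  (146,[(-1,20),(1,144)],[]),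
  (148,[(-1,20)],[])]
noncomputable def t2_151 : Tab := [(1,[(1,0)],[]),
  (3,[(1,2)],[]),
  (5,[(1,4)],[]),
  (7,[(1,6),(-1,20),(1,132)],[]),
  (17,[(1,16)],[]),
  (19,[(1,18),(-1,20),(1,144)],[]),
  (129,[(1,128)],[]),
  (131,[(1,130),(-1,132),(1,144)],[]),
  (134,[(1,20),(-1,132)],[]),
  (135,[(1,133)],[]),
  (146,[(1,20),(-1,144)],[]),
  (147,[(1,145)],[]),
  (148,[(1,20)],[])]
noncomputable def t2_152 : Tab := [(8,[(1,0)],[]),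
  (24,[(1,16)],[]),
  (136,[(1,128)],[]),
  (152,[(1,144)],[])]
noncomputable def t2_153 : Tab := [(1,[(1,0)],[]),
  (9,[(1,8)],[(-1,25)]),
  (17,[(1,16)],[]),
  (129,[(1,128)],[(1,25)]),
  (136,[],[(1,25)]),
  (145,[(-1,24),(1,144)],[]),
  (152,[(-1,24)],[])]
noncomputable def t2_154 : Tab := [(2,[(1,0)],[]),
  (10,[(1,8)],[]),
  (18,[(1,16)],[]),
  (26,[(1,24)],[]),
  (130,[(1,128)],[]),
  (138,[(1,136)],[]),
  (146,[(1,144)],[]),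
  (154,[(1,152)],[])]
noncomputable def t2_155 : Tab := [(1,[(1,0)],[]),
  (3,[(1,2)],[]),
  (9,[(1,8)],[]),
  (11,[(1,10),(-1,24),(1,136)],[]),
  (17,[(1,16)],[]),
  (19,[(1,18),(-1,24)],[]),
  (26,[(-1,24)],[]),
  (129,[(1,128)],[]),
  (131,[(1,130),(-1,136)],[]),
  (138,[(-1,136)],[]),
  (145,[(1,144)],[]),
  (147,[(1,146),(-1,152)],[]),
  (154,[(-1,152)],[])]
noncomputable def t2_156 : Tab := [(4,[(1,0)],[]),
  (12,[(1,8)],[]),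
  (20,[(1,16)],[]),
  (132,[(1,128)],[]),
  (140,[(-1,24),(1,136)],[]),
  (148,[(-1,24),(1,144)],[]),
  (152,[(-1,24)],[])]
noncomputable def t2_157 : Tab := [(1,[(1,0)],[]),
  (5,[(1,4)],[]),
  (9,[(1,8)],[]),
  (13,[(1,12),(-1,24),(1,136)],[]),
  (17,[(1,16)],[]),
  (129,[(1,128)],[]),
  (133,[(-1,20),(1,24),(1,132),(-1,136)],[]),
  (140,[(1,24),(-1,136)],[]),
  (145,[(1,20),(-1,24),(1,144)],[]),
  (148,[(1,20)],[]),
  (152,[(1,24)],[])]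
noncomputable def t2_158 : Tab := [(2,[(1,0)],[]),
  (6,[(1,4)],[]),
  (10,[(1,8)],[]),
  (14,[(1,12),(-1,20),(1,132)],[]),
  (18,[(1,16)],[]),
  (26,[(-1,20),(1,24),(-1,144)],[]),
  (130,[(1,128)],[]),
  (138,[(-1,132),(1,136),(-1,144)],[]),
  (140,[(1,20),(-1,132)],[]),
  (142,[(1,134)],[]),
  (148,[(1,20)],[]),
  (152,[(1,20),(1,144)],[]),
  (154,[(-1,146)],[])]
noncomputable def t2_159 : Tab := [(1,[(1,0)],[]),
  (3,[(1,2)],[]),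
  (5,[(1,4)],[]),
  (7,[(1,6),(1,20),(-1,132)],[]),
  (9,[(1,8)],[]),
  (11,[(1,10),(1,24),(-1,136)],[]),
  (13,[(1,12)],[]),
  (15,[(1,14),(1,140)],[]),
  (17,[(1,16)],[]),
  (19,[(1,18),(-1,20),(1,24),(-1,144)],[]),
  (26,[(-1,24)],[]),
  (129,[(1,128)],[]),
  (131,[(1,130),(-1,132),(1,136),(-1,144)],[]),
  (134,[(1,20),(-1,132)],[]),
  (135,[(1,133)],[]),
  (138,[(-1,136)],[]),
  (142,[(-1,140)],[]),
  (146,[(-1,20),(-1,144)],[]),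
  (147,[(1,145)],[]),
  (148,[(-1,20)],[]),
  (154,[(-1,152)],[])]
noncomputable def t2_160 : Tab := [(32,[(1,0)],[]),
  (160,[(1,128)],[])]
noncomputable def t2_161 : Tab := [(1,[(1,0)],[]),
  (33,[(1,32)],[(1,12)]),
  (129,[(1,128)],[(1,12)]),
  (160,[],[(1,12)])]
noncomputable def t2_162 : Tab := [(2,[(1,0)],[]),
  (34,[(1,32)],[(1,13)]),
  (130,[(1,128)],[(1,13)]),
  (160,[],[(1,13)])]
noncomputable def t2_163 : Tab := [(1,[(1,0)],[]),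
  (3,[(1,2)],[]),
  (33,[(1,32)],[(-1,26)]),
  (35,[(1,34)],[]),
  (129,[(1,128)],[(-1,26)]),
  (131,[(1,130)],[]),
  (160,[],[(1,26)])]
noncomputable def t2_164 : Tab := [(4,[(1,0)],[]),
  (36,[(1,32)],[]),
  (132,[(1,128)],[]),
  (164,[(1,160)],[])]
noncomputable def t2_165 : Tab := [(1,[(1,0)],[]),
  (5,[(1,4)],[]),
  (33,[(1,32)],[(-1,27)]),
  (129,[(1,128)],[(-1,27)]),
  (133,[(-1,36),(1,132)],[]),
  (160,[],[(1,27)]),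
  (164,[(-1,36)],[])]
noncomputable def t2_166 : Tab := [(2,[(1,0)],[]),
  (6,[(1,4)],[]),
  (34,[(1,32)],[(-1,39)]),
  (130,[(1,128)],[(-1,39)]),
  (134,[(-1,36),(1,132)],[]),
  (160,[],[(1,39)]),
  (164,[(-1,36)],[])]
noncomputable def t2_167 : Tab := [(1,[(1,0)],[]),
  (3,[(1,2)],[]),
  (5,[(1,4)],[]),
  (7,[(1,6),(-1,36),(1,132)],[]),
  (33,[(1,32)],[(-1,53)]),
  (35,[(1,34)],[]),
  (129,[(1,128)],[(-1,53)]),
  (131,[(1,36),(1,130),(-1,132)],[]),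
  (134,[(1,36),(-1,132)],[]),
  (135,[(1,133)],[]),
  (160,[],[(-1,53)]),
  (164,[(1,36)],[])]
noncomputable def t2_168 : Tab := [(8,[(1,0)],[]),
  (40,[(1,32)],[]),
  (136,[(1,128)],[]),
  (168,[(1,160)],[])]
noncomputable def t2_169 : Tab := [(1,[(1,0)],[]),
  (9,[(1,8)],[]),
  (33,[(1,32)],[(-1,28)]),
  (41,[(1,40),(-1,136)],[]),
  (129,[(1,128)],[(-1,28)]),
  (160,[],[(1,28)]),
  (168,[(-1,136)],[])]
noncomputable def t2_170 : Tab := [(2,[(1,0)],[]),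
  (10,[(1,8)],[]),
  (34,[(1,32)],[]),
  (42,[(1,40),(-1,160)],[]),
  (130,[(1,128)],[]),
  (138,[(1,136),(-1,160)],[]),
  (168,[(-1,160)],[])]
noncomputable def t2_171 : Tab := [(1,[(1,0)],[]),
  (3,[(1,2)],[]),
  (9,[(1,8)],[]),
  (11,[(1,10),(1,136),(-1,160)],[]),
  (33,[(1,32)],[]),
  (35,[(1,34)],[]),
  (41,[(1,40),(-1,160)],[]),
  (43,[(1,42)],[]),
  (129,[(1,128)],[]),
  (131,[(1,130),(-1,136),(1,160)],[]),
  (138,[(-1,136),(1,160)],[]),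
  (168,[(1,160)],[])]
noncomputable def t2_172 : Tab := [(4,[(1,0)],[]),
  (12,[(1,8)],[]),
  (36,[(1,32)],[]),
  (44,[(1,40)],[]),
  (132,[(1,128)],[]),
  (140,[(1,136)],[]),
  (164,[(1,160)],[]),
  (172,[(1,168)],[])]
noncomputable def t2_173 : Tab := [(1,[(1,0)],[]),
  (5,[(1,4)],[]),
  (9,[(1,8)],[]),
  (13,[(1,12),(-1,36),(1,136),(-1,160)],[]),
  (33,[(1,32)],[]),
  (41,[(-1,36),(1,40),(-1,160)],[]),
  (44,[(-1,36),(-1,160)],[]),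
  (129,[(1,128)],[]),
  (133,[(1,132),(-1,136),(1,160)],[]),
  (140,[(-1,136)],[]),
  (164,[(-1,160)],[]),
  (172,[(-1,168)],[])]
noncomputable def t2_174 : Tab := [(2,[(1,0)],[]),
  (6,[(1,4)],[]),
  (10,[(1,8)],[]),
  (14,[(1,12),(-1,36),(-1,160)],[]),
  (34,[(1,32)],[]),
  (42,[(-1,36),(1,40),(-1,160)],[]),
  (44,[(-1,36),(-1,160)],[]),
  (130,[(1,128)],[]),
  (134,[(1,132),(1,160)],[]),
  (138,[(1,136)],[]),
  (142,[(1,140),(-1,168)],[]),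
  (164,[(-1,160)],[]),
  (172,[(-1,168)],[])]
noncomputable def t2_175 : Tab := [(1,[(1,0)],[]),
  (3,[(1,2)],[]),
  (5,[(1,4)],[]),
  (7,[(1,6)],[]),
  (9,[(1,8)],[]),
  (11,[(1,10),(-1,136)],[]),
  (13,[(1,12),(-1,36),(-1,160)],[]),
  (15,[(1,14),(1,140),(-1,168)],[]),
  (33,[(1,32)],[]),
  (35,[(1,34)],[]),
  (41,[(-1,36),(1,40),(-1,160)],[]),
  (43,[(1,42)],[]),
  (44,[(1,36),(1,160)],[]),
  (129,[(1,128)],[]),
  (131,[(1,130),(1,136)],[]),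
  (133,[(1,132),(1,160)],[]),
  (135,[(1,134),(-1,140),(1,168)],[]),
  (138,[(-1,136)],[]),
  (142,[(-1,140),(1,168)],[]),
  (164,[(1,160)],[]),
  (172,[(1,168)],[])]
noncomputable def t2_176 : Tab := [(16,[(1,0)],[]),
  (48,[(1,32)],[]),
  (144,[(1,128)],[]),
  (176,[(1,160)],[])]
noncomputable def t2_177 : Tab := [(1,[(1,0)],[]),
  (17,[(1,16)],[]),
  (33,[(1,32)],[(-1,29)]),
  (129,[(1,128)],[(-1,29)]),
  (145,[(-1,48),(1,144)],[]),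
  (160,[],[(1,29)]),
  (176,[(-1,48)],[])]
noncomputable def t2_178 : Tab := [(2,[(1,0)],[]),
  (18,[(1,16)],[]),
  (34,[(1,32)],[]),
  (50,[(1,48),(-1,160)],[]),
  (130,[(1,128)],[]),
  (146,[(1,144),(-1,160)],[]),
  (176,[(-1,160)],[])]
noncomputable def t2_179 : Tab := [(1,[(1,0)],[]),
  (3,[(1,2)],[]),
  (17,[(1,16)],[]),
  (19,[(1,18),(-1,48),(1,160)],[]),
  (33,[(1,32)],[]),
  (35,[(1,34),(-1,48),(1,160)],[]),
  (50,[(-1,48),(1,160)],[]),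
  (129,[(1,128)],[]),
  (131,[(1,130)],[]),
  (145,[(1,144),(-1,160)],[]),
  (147,[(1,146)],[]),
  (176,[(1,160)],[])]
noncomputable def t2_180 : Tab := [(4,[(1,0)],[]),
  (20,[(1,16)],[]),
  (36,[(1,32)],[]),
  (52,[(1,48)],[]),
  (132,[(1,128)],[]),
  (148,[(1,144)],[]),
  (164,[(1,160)],[]),
  (180,[(1,176)],[])]
noncomputable def t2_181 : Tab := [(1,[(1,0)],[]),
  (5,[(1,4)],[]),
  (17,[(1,16)],[]),
  (33,[(1,32)],[(-1,54)]),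
  (129,[(1,128)],[(-1,54)]),
  (133,[(1,20),(-1,36),(1,132)],[]),
  (145,[(1,20),(-1,48),(1,144)],[]),
  (148,[(1,20)],[]),
  (160,[],[(-1,54)]),
  (164,[(1,36)],[]),
  (176,[(1,48)],[]),
  (180,[(-1,52)],[])]
noncomputable def t2_182 : Tab := [(2,[(1,0)],[]),
  (6,[(1,4)],[]),
  (18,[(1,16)],[]),
  (34,[(1,32)],[]),
  (50,[(-1,36),(1,48),(-1,160)],[]),
  (130,[(1,128)],[]),
  (134,[(1,20),(-1,36),(1,132)],[]),
  (146,[(1,20),(-1,36),(1,144),(-1,160)],[]),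
  (148,[(1,20)],[]),
  (164,[(1,36)],[]),
  (176,[(1,36),(1,160)],[]),
  (180,[(-1,52)],[])]
noncomputable def t2_183 : Tab := [(1,[(1,0)],[]),
  (3,[(1,2)],[]),
  (5,[(1,4)],[]),
  (7,[(1,6),(-1,20),(1,36),(-1,132)],[]),
  (17,[(1,16)],[]),
  (19,[(1,18),(-1,20),(1,48),(-1,144)],[]),
  (33,[(1,32)],[]),
  (35,[(1,34),(-1,36),(1,48),(-1,160)],[]),
  (50,[(1,36),(-1,48),(1,160)],[]),
  (129,[(1,128)],[]),
  (131,[(1,130),(-1,132),(1,144),(-1,160)],[]),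
  (134,[(-1,20),(1,36),(-1,132)],[]),
  (135,[(1,133)],[]),
  (146,[(-1,20),(1,36),(-1,144),(1,160)],[]),
  (147,[(1,145)],[]),
  (148,[(-1,20)],[]),
  (164,[(-1,36)],[]),
  (176,[(-1,36),(-1,160)],[]),
  (180,[(1,52)],[])]
noncomputable def t2_184 : Tab := [(8,[(1,0)],[]),
  (24,[(1,16)],[]),
  (40,[(1,32)],[]),
  (56,[(1,48)],[]),
  (136,[(1,128)],[]),
  (152,[(1,144)],[]),
  (168,[(1,160)],[]),
  (184,[(1,176)],[])]
noncomputable def t2_185 : Tab := [(1,[(1,0)],[]),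
  (9,[(1,8)],[]),
  (17,[(1,16)],[]),
  (33,[(1,32)],[(1,55)]),
  (41,[(-1,24),(1,40),(-1,136)],[]),
  (129,[(1,128)],[(1,55)]),
  (145,[(1,24),(-1,48),(1,144)],[]),
  (152,[(1,24)],[]),
  (160,[],[(1,55)]),
  (168,[(1,24),(1,136)],[]),
  (176,[(1,48)],[]),
  (184,[(-1,56)],[])]
noncomputable def t2_186 : Tab := [(2,[(1,0)],[]),
  (10,[(1,8)],[]),
  (18,[(1,16)],[]),
  (26,[(1,24)],[]),
  (34,[(1,32)],[]),
  (42,[(1,40),(1,160)],[]),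
  (50,[(1,48)],[]),
  (58,[(1,56),(-1,176)],[]),
  (130,[(1,128)],[]),
  (138,[(1,136),(1,160)],[]),
  (146,[(1,144)],[]),
  (154,[(1,152),(-1,176)],[]),
  (168,[(-1,160)],[]),
  (184,[(-1,176)],[])]
noncomputable def t2_187 : Tab := [(1,[(1,0)],[]),
  (3,[(1,2)],[]),
  (9,[(1,8)],[]),
  (11,[(1,10),(-1,24),(-1,136),(-1,160)],[]),
  (17,[(1,16)],[]),
  (19,[(1,18),(-1,24),(1,48)],[]),
  (26,[(-1,24)],[]),
  (33,[(1,32)],[]),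
  (35,[(1,34),(1,48)],[]),
  (41,[(1,40),(1,160)],[]),
  (43,[(1,42),(-1,56),(1,176)],[]),
  (50,[(-1,48)],[]),
  (58,[(-1,56),(1,176)],[]),
  (129,[(1,128)],[]),
  (131,[(1,130),(-1,136),(-1,160)],[]),
  (138,[(-1,136),(-1,160)],[]),
  (145,[(1,144)],[]),
  (147,[(1,146),(-1,152),(1,176)],[]),
  (154,[(-1,152),(1,176)],[]),
  (168,[(1,160)],[]),
  (184,[(1,176)],[])]
noncomputable def t2_188 : Tab := [(4,[(1,0)],[]),
  (12,[(1,8)],[]),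
  (20,[(1,16)],[]),
  (36,[(1,32)],[]),
  (44,[(-1,24),(1,40)],[]),
  (52,[(-1,24),(1,48)],[]),
  (56,[(-1,24)],[]),
  (132,[(1,128)],[]),
  (140,[(1,136)],[]),
  (148,[(1,144)],[]),
  (164,[(1,160)],[]),
  (172,[(-1,152),(1,168)],[]),
  (180,[(-1,152),(1,176)],[]),
  (184,[(-1,152)],[])]
noncomputable def t2_189 : Tab := [(1,[(1,0)],[]),
  (5,[(1,4)],[]),
  (9,[(1,8)],[]),
  (13,[(1,12),(-1,24),(1,36),(1,48),(-1,136),(-1,160)],[]),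
  (17,[(1,16)],[]),
  (33,[(1,32)],[]),
  (41,[(-1,36),(1,40),(-1,48),(1,160)],[]),
  (44,[(1,24),(-1,36),(-1,48),(1,136),(1,160)],[]),
  (129,[(1,128)],[]),
  (133,[(1,20),(-1,24),(1,48),(1,132),(-1,136),(-1,160)],[]),
  (145,[(-1,20),(1,24),(-1,48),(1,144)],[]),
  (148,[(-1,20)],[]),
  (152,[(-1,24)],[]),
  (164,[(-1,24),(1,48),(-1,136),(-1,160)],[]),
  (168,[(-1,24),(-1,136)],[]),
  (172,[(1,140)],[]),
  (176,[(-1,48)],[]),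
  (180,[(1,52)],[]),
  (184,[(1,56)],[])]
noncomputable def t2_190 : Tab := [(2,[(1,0)],[]),
  (6,[(1,4)],[]),
  (10,[(1,8)],[]),
  (14,[(1,12),(-1,20),(1,36),(-1,160)],[]),
  (18,[(1,16)],[]),
  (26,[(1,24)],[]),
  (34,[(1,32)],[]),
  (42,[(1,20),(-1,36),(1,40),(1,160)],[]),
  (44,[(1,20),(-1,36),(1,160)],[]),
  (50,[(1,20),(1,48)],[]),
  (52,[(1,20)],[]),
  (58,[(1,56),(-1,148),(-1,176)],[]),
  (130,[(1,128)],[]),
  (134,[(1,132),(-1,160)],[]),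
  (138,[(1,136)],[]),
  (142,[(1,140),(-1,148),(1,168),(-1,176)],[]),
  (146,[(1,144)],[]),
  (154,[(-1,148),(1,152),(-1,176)],[]),
  (164,[(-1,160)],[]),
  (172,[(1,148),(-1,168),(1,176)],[]),
  (180,[(1,148)],[]),
  (184,[(1,148),(1,176)],[])]
noncomputable def t2_191 : Tab := [(1,[(1,0)],[]),
  (3,[(1,2)],[]),
  (5,[(1,4)],[]),
  (7,[(1,6)],[]),
  (9,[(1,8)],[]),
  (11,[(1,10),(1,24),(1,136)],[]),
  (13,[(1,12),(-1,20),(1,36),(-1,160)],[]),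
  (15,[(1,14),(-1,140),(1,148),(-1,168),(1,176)],[]),
  (17,[(1,16)],[]),
  (19,[(1,18),(-1,20),(1,24),(-1,48)],[]),
  (26,[(-1,24)],[]),
  (33,[(1,32)],[]),
  (35,[(-1,20),(1,34),(-1,48)],[]),
  (41,[(1,20),(-1,36),(1,40),(1,160)],[]),
  (43,[(1,42),(1,56),(-1,148),(-1,176)],[]),
  (44,[(-1,20),(1,36),(-1,160)],[]),
  (50,[(-1,20),(-1,48)],[]),
  (52,[(-1,20)],[]),
  (58,[(-1,56),(1,148),(1,176)],[]),
  (129,[(1,128)],[]),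
  (131,[(1,130),(1,136)],[]),
  (133,[(1,132),(-1,160)],[]),
  (135,[(1,134),(-1,140),(1,148),(-1,168),(1,176)],[]),
  (138,[(-1,136)],[]),
  (142,[(-1,140),(1,148),(-1,168),(1,176)],[]),
  (145,[(1,144)],[]),
  (147,[(1,146),(-1,148),(1,152),(-1,176)],[]),
  (154,[(1,148),(-1,152),(1,176)],[]),
  (164,[(1,160)],[]),
  (172,[(-1,148),(1,168),(-1,176)],[]),
  (180,[(-1,148)],[]),
  (184,[(-1,148),(-1,176)],[])]
noncomputable def t2_192 : Tab := [(64,[(1,0)],[]),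
  (192,[(1,128)],[])]
noncomputable def t2_193 : Tab := [(1,[(1,0)],[]),
  (65,[(1,64)],[]),
  (129,[(1,128)],[]),
  (193,[(1,192)],[])]
noncomputable def t2_194 : Tab := [(2,[(1,0)],[]),
  (66,[(1,64)],[(1,14)]),
  (130,[(1,128)],[(1,14)]),
  (192,[],[(1,14)])]
noncomputable def t2_195 : Tab := [(1,[(1,0)],[]),
  (3,[(1,2)],[]),
  (65,[(1,64)],[]),
  (67,[(1,66)],[]),
  (129,[(1,128)],[]),
  (131,[(1,130)],[]),
  (193,[(1,192)],[])]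
noncomputable def t2_196 : Tab := [(4,[(1,0)],[]),
  (68,[(1,64)],[]),
  (132,[(1,128)],[]),
  (196,[(1,192)],[])]
noncomputable def t2_197 : Tab := [(1,[(1,0)],[]),
  (5,[(1,4)],[]),
  (65,[(1,64)],[]),
  (69,[(1,68)],[]),
  (129,[(1,128)],[]),
  (133,[(1,132)],[]),
  (193,[(1,192)],[]),
  (197,[(1,196)],[])]
noncomputable def t2_198 : Tab := [(2,[(1,0)],[]),
  (6,[(1,4)],[]),
  (66,[(1,64)],[(-1,40)]),
  (130,[(1,128)],[(-1,40)]),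
  (134,[(-1,68),(1,132)],[]),
  (192,[],[(1,40)]),
  (196,[(-1,68)],[])]
noncomputable def t2_199 : Tab := [(1,[(1,0)],[]),
  (3,[(1,2)],[]),
  (5,[(1,4)],[]),
  (7,[(1,6)],[]),
  (65,[(1,64)],[]),
  (67,[(1,66)],[]),
  (69,[(1,68)],[]),
  (129,[(1,128)],[]),
  (131,[(1,130)],[]),
  (133,[(1,132)],[]),
  (135,[(1,134)],[]),
  (193,[(1,192)],[]),
  (197,[(1,196)],[])]
noncomputable def t2_200 : Tab := [(8,[(1,0)],[]),
  (72,[(1,64)],[(1,15)]),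
  (136,[(1,128)],[(1,15)]),
  (192,[],[(1,15)])]
noncomputable def t2_201 : Tab := [(1,[(1,0)],[]),
  (9,[(1,8)],[(-1,30)]),
  (65,[(1,64)],[]),
  (73,[(1,72)],[]),
  (129,[(1,128)],[(1,30)]),
  (136,[],[(1,30)]),
  (193,[(1,192)],[])]
noncomputable def t2_202 : Tab := [(2,[(1,0)],[]),
  (10,[(1,8)],[(-1,42)]),
  (66,[(1,64)],[(1,41)]),
  (72,[],[(-1,42)]),
  (130,[(1,128)],[(1,41),(1,42)]),
  (138,[(1,136)],[]),
  (192,[],[(-1,41),(-1,42)])]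
noncomputable def t2_203 : Tab := [(1,[(1,0)],[]),
  (3,[(1,2)],[]),
  (9,[(1,8)],[]),
  (11,[(1,10),(1,136)],[]),
  (65,[(1,64)],[]),
  (67,[(1,66)],[]),
  (73,[(1,72)],[]),
  (129,[(1,128)],[]),
  (131,[(1,130),(-1,136)],[]),
  (138,[(-1,136)],[]),
  (193,[(1,192)],[])]
noncomputable def t2_204 : Tab := [(4,[(1,0)],[]),
  (12,[(1,8)],[]),
  (68,[(1,64)],[]),
  (76,[(1,72)],[]),
  (132,[(1,128)],[]),
  (140,[(1,136)],[]),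
  (196,[(1,192)],[])]
noncomputable def t2_205 : Tab := [(1,[(1,0)],[]),
  (5,[(1,4)],[]),
  (9,[(1,8)],[]),
  (13,[(1,12),(1,136)],[]),
  (65,[(1,64)],[]),
  (69,[(1,68)],[]),
  (73,[(1,72)],[]),
  (77,[(1,76)],[]),
  (129,[(1,128)],[]),
  (133,[(1,132),(-1,136)],[]),
  (140,[(-1,136)],[]),
  (193,[(1,192)],[]),
  (197,[(1,196)],[])]
noncomputable def t2_206 : Tab := [(2,[(1,0)],[]),
  (6,[(1,4)],[(-1,56)]),
  (10,[(1,8)],[]),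
  (14,[(1,12),(-1,72)],[]),
  (66,[(1,64)],[(1,56)]),
  (68,[],[(1,56)]),
  (76,[(-1,72)],[]),
  (130,[(1,128)],[]),
  (134,[(1,132),(1,192)],[]),
  (138,[(1,136)],[]),
  (142,[(1,140)],[]),
  (196,[(-1,192)],[])]
noncomputable def t2_207 : Tab := [(1,[(1,0)],[]),
  (3,[(1,2)],[]),
  (5,[(1,4)],[]),
  (7,[(1,6)],[]),
  (9,[(1,8)],[]),
  (11,[(1,10),(-1,136)],[]),
  (13,[(1,12)],[]),
  (15,[(1,14),(1,140)],[]),
  (65,[(1,64)],[]),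
  (67,[(1,66)],[]),
  (69,[(1,68)],[]),
  (73,[(1,72)],[]),
  (77,[(1,76)],[]),
  (129,[(1,128)],[]),
  (131,[(1,130),(1,136)],[]),
  (133,[(1,132)],[]),
  (135,[(1,134),(-1,140)],[]),
  (138,[(-1,136)],[]),
  (142,[(-1,140)],[]),
  (193,[(1,192)],[]),
  (197,[(1,196)],[])]
noncomputable def t2_208 : Tab := [(16,[(1,0)],[]),
  (80,[(1,64)],[]),
  (144,[(1,128)],[]),
  (208,[(1,192)],[])]
noncomputable def t2_209 : Tab := [(1,[(1,0)],[]),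
  (17,[(1,16)],[]),
  (65,[(1,64)],[]),
  (81,[(1,80)],[]),
  (129,[(1,128)],[]),
  (145,[(1,144)],[]),
  (193,[(1,192)],[]),
  (209,[(1,208)],[])]
noncomputable def t2_210 : Tab := [(2,[(1,0)],[]),
  (18,[(1,16)],[]),
  (66,[(1,64)],[]),
  (82,[(1,80),(-1,192)],[]),
  (130,[(1,128)],[]),
  (146,[(1,144),(-1,192)],[]),
  (208,[(-1,192)],[])]
noncomputable def t2_211 : Tab := [(1,[(1,0)],[]),
  (3,[(1,2)],[]),
  (17,[(1,16)],[]),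
  (19,[(1,18)],[]),
  (65,[(1,64)],[]),
  (67,[(1,66)],[]),
  (81,[(1,80)],[]),
  (83,[(1,82)],[]),
  (129,[(1,128)],[]),
  (131,[(1,130)],[]),
  (145,[(1,144)],[]),
  (147,[(1,146)],[]),
  (193,[(1,192)],[]),
  (209,[(1,208)],[])]
noncomputable def t2_212 : Tab := [(4,[(1,0)],[]),
  (20,[(1,16)],[]),
  (68,[(1,64)],[]),
  (84,[(1,80)],[]),
  (132,[(1,128)],[]),
  (148,[(1,144)],[]),
  (196,[(1,192)],[]),
  (212,[(1,208)],[])]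
noncomputable def t2_213 : Tab := [(1,[(1,0)],[]),
  (5,[(1,4)],[]),
  (17,[(1,16)],[]),
  (65,[(1,64)],[]),
  (69,[(-1,20),(1,68)],[]),
  (81,[(-1,20),(1,80)],[]),
  (84,[(-1,20)],[]),
  (129,[(1,128)],[]),
  (133,[(1,132)],[]),
  (145,[(1,144)],[]),
  (193,[(1,192)],[]),
  (197,[(-1,148),(1,196)],[]),
  (209,[(-1,148),(1,208)],[]),
  (212,[(-1,148)],[])]
noncomputable def t2_214 : Tab := [(2,[(1,0)],[]),
  (6,[(1,4)],[]),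
  (18,[(1,16)],[]),
  (66,[(1,64)],[]),
  (82,[(-1,68),(1,80),(-1,192)],[]),
  (130,[(1,128)],[]),
  (134,[(1,20),(-1,68),(1,132)],[]),
  (146,[(1,20),(-1,68),(1,144),(-1,192)],[]),
  (148,[(1,20)],[]),
  (196,[(1,68)],[]),
  (208,[(1,68),(1,192)],[]),
  (212,[(-1,84)],[])]
noncomputable def t2_215 : Tab := [(1,[(1,0)],[]),
  (3,[(1,2)],[]),
  (5,[(1,4)],[]),
  (7,[(1,6)],[]),
  (17,[(1,16)],[]),
  (19,[(1,18)],[]),
  (65,[(1,64)],[]),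
  (67,[(1,66)],[]),
  (69,[(-1,20),(1,68)],[]),
  (81,[(-1,20),(1,80)],[]),
  (83,[(1,82)],[]),
  (84,[(1,20)],[]),
  (129,[(1,128)],[]),
  (131,[(1,130)],[]),
  (133,[(1,132)],[]),
  (135,[(1,134)],[]),
  (145,[(1,144)],[]),
  (147,[(1,146)],[]),
  (193,[(1,192)],[]),
  (197,[(-1,148),(1,196)],[]),
  (209,[(-1,148),(1,208)],[]),
  (212,[(1,148)],[])]
noncomputable def t2_216 : Tab := [(8,[(1,0)],[]),
  (24,[(1,16)],[]),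
  (72,[(1,64)],[(1,43)]),
  (136,[(1,128)],[(1,43)]),
  (152,[(-1,80),(1,144)],[]),
  (192,[],[(-1,43)]),
  (208,[(-1,80)],[])]
noncomputable def t2_217 : Tab := [(1,[(1,0)],[]),
  (9,[(1,8)],[(-1,57)]),
  (17,[(1,16)],[]),
  (65,[(1,64)],[]),
  (73,[(1,72)],[]),
  (81,[(-1,24),(1,80),(-1,144)],[]),
  (129,[(1,128)],[(-1,57)]),
  (136,[],[(-1,57)]),
  (152,[(1,24)],[]),
  (193,[(-1,24),(-1,144),(1,192)],[]),
  (208,[(1,24),(1,144)],[]),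
  (209,[(-1,145)],[])]
noncomputable def t2_218 : Tab := [(2,[(1,0)],[]),
  (10,[(1,8)],[(-1,58)]),
  (18,[(1,16)],[]),
  (26,[(1,24)],[]),
  (66,[(1,64)],[(1,58)]),
  (72,[],[(1,58)]),
  (82,[(1,80),(-1,192)],[]),
  (130,[(1,128)],[]),
  (138,[(1,136)],[]),
  (146,[(1,144),(-1,192)],[]),
  (154,[(1,152)],[]),
  (208,[(1,192)],[])]
noncomputable def t2_219 : Tab := [(1,[(1,0)],[]),
  (3,[(1,2)],[]),
  (9,[(1,8)],[]),
  (11,[(1,10),(-1,24),(-1,136)],[]),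
  (17,[(1,16)],[]),
  (19,[(1,18),(-1,24)],[]),
  (26,[(-1,24)],[]),
  (65,[(1,64)],[]),
  (67,[(1,66)],[]),
  (73,[(1,72)],[]),
  (81,[(1,80)],[]),
  (83,[(1,82)],[]),
  (129,[(1,128)],[]),
  (131,[(1,130),(-1,136)],[]),
  (138,[(-1,136)],[]),
  (145,[(1,144)],[]),
  (147,[(1,146),(-1,152)],[]),
  (154,[(-1,152)],[]),
  (193,[(1,192)],[]),
  (209,[(1,208)],[])]
noncomputable def t2_220 : Tab := [(4,[(1,0)],[]),
  (12,[(1,8)],[]),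
  (20,[(1,16)],[]),
  (68,[(1,64)],[]),
  (76,[(1,72)],[]),
  (84,[(-1,24),(1,80),(-1,144)],[]),
  (132,[(1,128)],[]),
  (140,[(1,24),(1,136)],[]),
  (152,[(1,24)],[]),
  (196,[(-1,24),(-1,144),(1,192)],[]),
  (208,[(1,24),(1,144)],[]),
  (212,[(-1,148)],[])]
noncomputable def t2_221 : Tab := [(1,[(1,0)],[]),
  (5,[(1,4)],[]),
  (9,[(1,8)],[]),
  (13,[(1,12),(-1,24),(-1,136)],[]),
  (17,[(1,16)],[]),
  (65,[(1,64)],[]),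
  (69,[(-1,20),(1,68)],[]),
  (73,[(1,72)],[]),
  (77,[(1,76)],[]),
  (81,[(1,20),(-1,24),(1,80),(-1,144)],[]),
  (84,[(1,20)],[]),
  (129,[(1,128)],[]),
  (133,[(-1,24),(1,132),(-1,136)],[]),
  (140,[(-1,24),(-1,136)],[]),
  (152,[(-1,24)],[]),
  (193,[(-1,24),(-1,144),(1,192)],[]),
  (197,[(-1,148),(1,196)],[]),
  (208,[(-1,24),(-1,144)],[]),
  (209,[(1,145)],[]),
  (212,[(1,148)],[])]
noncomputable def t2_222 : Tab := [(2,[(1,0)],[]),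
  (6,[(1,4)],[]),
  (10,[(1,8)],[]),
  (14,[(1,12),(-1,20),(1,68),(-1,132)],[]),
  (18,[(1,16)],[]),
  (26,[(-1,20),(1,24),(1,68),(-1,72),(1,144),(-1,192)],[]),
  (66,[(1,64)],[]),
  (76,[(-1,72)],[]),
  (82,[(1,68),(-1,72),(1,80),(-1,192)],[]),
  (130,[(1,128)],[]),
  (138,[(-1,132),(1,136),(-1,144),(1,192)],[]),
  (140,[(-1,20),(1,68),(-1,72),(-1,132)],[]),
  (142,[(1,134)],[]),
  (148,[(-1,20)],[]),
  (152,[(-1,20),(1,68),(-1,72),(1,144),(-1,192)],[]),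
  (154,[(-1,146)],[]),
  (196,[(-1,68),(1,72)],[]),
  (208,[(1,68),(-1,72),(-1,192)],[]),
  (212,[(1,84)],[])]
noncomputable def t2_223 : Tab := [(1,[(1,0)],[]),
  (3,[(1,2)],[]),
  (5,[(1,4)],[]),
  (7,[(1,6)],[]),
  (9,[(1,8)],[]),
  (11,[(1,10),(1,24),(1,136)],[]),
  (13,[(1,12)],[]),
  (15,[(1,14),(-1,140)],[]),
  (17,[(1,16)],[]),
  (19,[(1,18),(1,24)],[]),
  (26,[(-1,24)],[]),
  (65,[(1,64)],[]),
  (67,[(1,66)],[]),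
  (69,[(-1,20),(1,68)],[]),
  (73,[(1,72)],[]),
  (77,[(1,76)],[]),
  (81,[(1,20),(1,80)],[]),
  (83,[(1,82)],[]),
  (84,[(-1,20)],[]),
  (129,[(1,128)],[]),
  (131,[(1,130),(1,136)],[]),
  (133,[(1,132)],[]),
  (135,[(1,134),(-1,140)],[]),
  (138,[(-1,136)],[]),
  (142,[(-1,140)],[]),
  (145,[(1,144)],[]),
  (147,[(1,146),(1,152)],[]),
  (154,[(-1,152)],[]),
  (193,[(1,192)],[]),
  (197,[(-1,148),(1,196)],[]),
  (209,[(1,148),(1,208)],[]),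
  (212,[(-1,148)],[])]
noncomputable def t2_224 : Tab := [(32,[(1,0)],[]),
  (96,[(1,64)],[(1,16)]),
  (160,[(1,128)],[(1,16)]),
  (192,[],[(1,16)])]
noncomputable def t2_225 : Tab := [(1,[(1,0)],[]),
  (33,[(1,32)],[(-1,31)]),
  (65,[(1,64)],[]),
  (97,[(1,96)],[]),
  (129,[(1,128)],[(1,31)]),
  (160,[],[(1,31)]),
  (193,[(1,192)],[])]
noncomputable def t2_226 : Tab := [(2,[(1,0)],[]),
  (34,[(1,32)],[(1,44),(1,45)]),
  (66,[(1,64)],[(1,45)]),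
  (98,[(1,96)],[]),
  (130,[(1,128)],[(-1,44)]),
  (160,[],[(-1,44),(-1,45)]),
  (192,[],[(-1,45)])]
noncomputable def t2_227 : Tab := [(1,[(1,0)],[]),
  (3,[(1,2)],[]),
  (33,[(1,32)],[(1,59)]),
  (35,[(1,34)],[]),
  (65,[(1,64)],[]),
  (67,[(1,66)],[]),
  (97,[(1,96)],[]),
  (99,[(1,98)],[]),
  (129,[(1,128)],[(-1,59)]),
  (131,[(1,130)],[]),
  (160,[],[(1,59)]),
  (193,[(1,192)],[])]
noncomputable def t2_228 : Tab := [(4,[(1,0)],[]),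
  (36,[(1,32)],[]),
  (68,[(1,64)],[]),
  (100,[(1,96)],[]),
  (132,[(1,128)],[]),
  (164,[(1,160)],[]),
  (196,[(1,192)],[])]
noncomputable def t2_229 : Tab := [(1,[(1,0)],[]),
  (5,[(1,4)],[]),
  (33,[(1,32)],[]),
  (65,[(1,64)],[]),
  (69,[(-1,36),(1,68),(-1,160)],[]),
  (97,[(-1,36),(1,96),(-1,160)],[]),
  (100,[(-1,36),(-1,160)],[]),
  (129,[(1,128)],[]),
  (133,[(1,132),(-1,160)],[]),
  (164,[(-1,160)],[]),
  (193,[(1,192)],[]),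
  (197,[(1,196)],[])]
noncomputable def t2_230 : Tab := [(2,[(1,0)],[]),
  (6,[(1,4)],[(1,60)]),
  (34,[(1,32)],[]),
  (66,[(1,64)],[(-1,60)]),
  (68,[],[(-1,60)]),
  (98,[(-1,36),(1,96),(-1,160)],[]),
  (100,[(-1,36),(-1,160)],[]),
  (130,[(1,128)],[]),
  (134,[(1,132),(-1,160),(1,192)],[]),
  (164,[(-1,160)],[]),
  (196,[(-1,192)],[])]
noncomputable def t2_231 : Tab := [(1,[(1,0)],[]),
  (3,[(1,2)],[]),
  (5,[(1,4)],[]),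
  (7,[(1,6)],[]),
  (33,[(1,32)],[]),
  (35,[(1,34)],[]),
  (65,[(1,64)],[]),
  (67,[(1,66)],[]),
  (69,[(-1,36),(1,68),(-1,160)],[]),
  (97,[(-1,36),(1,96),(-1,160)],[]),
  (99,[(1,98)],[]),
  (100,[(1,36),(1,160)],[]),
  (129,[(1,128)],[]),
  (131,[(1,130)],[]),
  (133,[(1,132),(-1,160)],[]),
  (135,[(1,134)],[]),
  (164,[(1,160)],[]),
  (193,[(1,192)],[]),
  (197,[(1,196)],[])]
noncomputable def t2_232 : Tab := [(8,[(1,0)],[]),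
  (40,[(1,32)],[]),
  (72,[(1,64)],[(-1,46)]),
  (104,[(1,96)],[]),
  (136,[(1,128)],[(-1,46)]),
  (168,[(1,160)],[]),
  (192,[],[(1,46)])]
noncomputable def t2_233 : Tab := [(1,[(1,0)],[]),
  (9,[(1,8)],[]),
  (33,[(1,32)],[(-1,61)]),
  (41,[(1,40),(1,136)],[]),
  (65,[(1,64)],[]),
  (73,[(1,72)],[]),
  (97,[(1,96)],[]),
  (105,[(1,104)],[]),
  (129,[(1,128)],[(1,61)]),
  (160,[],[(-1,61)]),
  (168,[(-1,136)],[]),
  (193,[(1,192)],[])]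
noncomputable def t2_234 : Tab := [(2,[(1,0)],[]),
  (10,[(1,8)],[]),
  (34,[(1,32)],[]),
  (42,[(1,40),(-1,72),(1,160)],[]),
  (66,[(1,64)],[(1,62)]),
  (98,[(-1,72),(1,96)],[]),
  (104,[(-1,72)],[]),
  (130,[(1,128)],[(1,62)]),
  (138,[(1,136),(-1,160)],[]),
  (168,[(-1,160)],[]),
  (192,[],[(1,62)])]
noncomputable def t2_235 : Tab := [(1,[(1,0)],[]),
  (3,[(1,2)],[]),
  (9,[(1,8)],[]),
  (11,[(1,10),(-1,136),(1,160)],[]),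
  (33,[(1,32)],[]),
  (35,[(1,34)],[]),
  (41,[(1,40),(1,160)],[]),
  (43,[(1,42)],[]),
  (65,[(1,64)],[]),
  (67,[(1,66)],[]),
  (73,[(1,72)],[]),
  (97,[(1,96)],[]),
  (99,[(1,98)],[]),
  (105,[(1,104)],[]),
  (129,[(1,128)],[]),
  (131,[(1,130),(-1,136),(1,160)],[]),
  (138,[(-1,136),(1,160)],[]),
  (168,[(1,160)],[]),
  (193,[(1,192)],[])]
noncomputable def t2_236 : Tab := [(4,[(1,0)],[]),
  (12,[(1,8)],[]),
  (36,[(1,32)],[]),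
  (44,[(1,40)],[]),
  (68,[(1,64)],[]),
  (76,[(1,72)],[]),
  (100,[(1,96)],[]),
  (108,[(1,104)],[]),
  (132,[(1,128)],[]),
  (140,[(1,136)],[]),
  (164,[(1,160)],[]),
  (172,[(1,168)],[]),
  (196,[(1,192)],[])]
noncomputable def t2_237 : Tab := [(1,[(1,0)],[]),
  (5,[(1,4)],[]),
  (9,[(1,8)],[]),
  (13,[(1,12),(-1,36),(-1,136),(1,160)],[]),
  (33,[(1,32)],[]),
  (41,[(-1,36),(1,40),(1,160)],[]),
  (44,[(-1,36),(1,160)],[]),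
  (65,[(1,64)],[]),
  (69,[(1,68)],[]),
  (73,[(1,72)],[]),
  (77,[(1,76),(-1,100)],[]),
  (97,[(1,96)],[]),
  (105,[(-1,100),(1,104)],[]),
  (108,[(-1,100)],[]),
  (129,[(1,128)],[]),
  (133,[(1,132),(-1,136),(1,160)],[]),
  (140,[(-1,136)],[]),
  (164,[(-1,160)],[]),
  (172,[(-1,168)],[]),
  (193,[(1,192)],[]),
  (197,[(1,196)],[])]
noncomputable def t2_238 : Tab := [(2,[(1,0)],[]),
  (6,[(1,4)],[]),
  (10,[(1,8)],[]),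
  (14,[(1,12),(-1,36),(1,68),(1,160),(-1,192)],[]),
  (34,[(1,32)],[]),
  (42,[(-1,36),(1,40),(1,68),(-1,72),(1,160),(-1,192)],[]),
  (44,[(-1,36),(1,68),(1,160),(-1,192)],[]),
  (66,[(1,64)],[]),
  (98,[(1,68),(-1,72),(1,96),(-1,192)],[]),
  (100,[(1,68),(-1,192)],[]),
  (104,[(1,72)],[]),
  (108,[(-1,76)],[]),
  (130,[(1,128)],[]),
  (134,[(1,132),(1,160),(-1,192)],[]),
  (138,[(1,136)],[]),
  (142,[(1,140),(-1,168)],[]),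
  (164,[(-1,160)],[]),
  (172,[(-1,168)],[]),
  (196,[(-1,192)],[])]
noncomputable def t2_239 : Tab := [(1,[(1,0)],[]),
  (3,[(1,2)],[]),
  (5,[(1,4)],[]),
  (7,[(1,6)],[]),
  (9,[(1,8)],[]),
  (11,[(1,10),(1,136)],[]),
  (13,[(1,12),(-1,36),(1,160)],[]),
  (15,[(1,14),(-1,140),(1,168)],[]),
  (33,[(1,32)],[]),
  (35,[(1,34)],[]),
  (41,[(-1,36),(1,40),(1,160)],[]),
  (43,[(1,42)],[]),
  (44,[(1,36),(-1,160)],[]),
  (65,[(1,64)],[]),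
  (67,[(1,66)],[]),
  (69,[(1,68)],[]),
  (73,[(1,72)],[]),
  (77,[(1,76),(-1,100)],[]),
  (97,[(1,96)],[]),
  (99,[(1,98)],[]),
  (105,[(-1,100),(1,104)],[]),
  (108,[(1,100)],[]),
  (129,[(1,128)],[]),
  (131,[(1,130),(1,136)],[]),
  (133,[(1,132),(1,160)],[]),
  (135,[(1,134),(-1,140),(1,168)],[]),
  (138,[(-1,136)],[]),
  (142,[(-1,140),(1,168)],[]),
  (164,[(1,160)],[]),
  (172,[(1,168)],[]),
  (193,[(1,192)],[]),
  (197,[(1,196)],[])]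
noncomputable def t2_240 : Tab := [(16,[(1,0)],[]),
  (48,[(1,32)],[]),
  (80,[(1,64)],[]),
  (112,[(1,96)],[]),
  (144,[(1,128)],[]),
  (176,[(1,160)],[]),
  (208,[(1,192)],[])]
noncomputable def t2_241 : Tab := [(1,[(1,0)],[]),
  (17,[(1,16)],[]),
  (33,[(1,32)],[]),
  (65,[(1,64)],[]),
  (81,[(-1,48),(1,80),(-1,160)],[]),
  (97,[(-1,48),(1,96),(-1,160)],[]),
  (112,[(-1,48),(-1,160)],[]),
  (129,[(1,128)],[]),
  (145,[(1,144),(-1,160)],[]),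
  (176,[(-1,160)],[]),
  (193,[(1,192)],[]),
  (209,[(1,208)],[])]
noncomputable def t2_242 : Tab := [(2,[(1,0)],[]),
  (18,[(1,16)],[]),
  (34,[(1,32)],[]),
  (50,[(1,48),(1,160)],[]),
  (66,[(1,64)],[]),
  (82,[(1,80),(1,192)],[]),
  (98,[(1,96)],[]),
  (114,[(1,112)],[]),
  (130,[(1,128)],[]),
  (146,[(1,144),(-1,160),(1,192)],[]),
  (176,[(-1,160)],[]),
  (208,[(-1,192)],[])]
noncomputable def t2_243 : Tab := [(1,[(1,0)],[]),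
  (3,[(1,2)],[]),
  (17,[(1,16)],[]),
  (19,[(1,18),(-1,48),(-1,160)],[]),
  (33,[(1,32)],[]),
  (35,[(1,34),(-1,48),(-1,160)],[]),
  (50,[(-1,48),(-1,160)],[]),
  (65,[(1,64)],[]),
  (67,[(1,66)],[]),
  (81,[(1,80)],[]),
  (83,[(1,82),(-1,112)],[]),
  (97,[(1,96)],[]),
  (99,[(1,98),(-1,112)],[]),
  (114,[(-1,112)],[]),
  (129,[(1,128)],[]),
  (131,[(1,130)],[]),
  (145,[(1,144),(-1,160)],[]),
  (147,[(1,146)],[]),
  (176,[(1,160)],[]),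
  (193,[(1,192)],[]),
  (209,[(1,208)],[])]
noncomputable def t2_244 : Tab := [(4,[(1,0)],[]),
  (20,[(1,16)],[]),
  (36,[(1,32)],[]),
  (52,[(1,48)],[]),
  (68,[(1,64)],[]),
  (84,[(1,80)],[]),
  (100,[(1,96)],[]),
  (116,[(1,112)],[]),
  (132,[(1,128)],[]),
  (148,[(1,144)],[]),
  (164,[(1,160)],[]),
  (180,[(1,176)],[]),
  (196,[(1,192)],[]),
  (212,[(1,208)],[])]
noncomputable def t2_245 : Tab := [(1,[(1,0)],[]),
  (5,[(1,4)],[]),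
  (17,[(1,16)],[]),
  (33,[(1,32)],[]),
  (52,[(-1,48)],[]),
  (65,[(1,64)],[]),
  (69,[(1,20),(-1,36),(1,68),(1,160)],[]),
  (81,[(1,20),(-1,48),(1,80)],[]),
  (84,[(1,20),(-1,48)],[]),
  (97,[(1,36),(-1,48),(1,96),(-1,160)],[]),
  (100,[(1,36),(-1,48),(-1,160)],[]),
  (116,[(-1,112)],[]),
  (129,[(1,128)],[]),
  (133,[(1,132),(1,160)],[]),
  (145,[(1,144)],[]),
  (164,[(-1,160)],[]),
  (180,[(-1,176)],[]),
  (193,[(1,192)],[]),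
  (197,[(1,148),(-1,176),(1,196)],[]),
  (209,[(1,148),(-1,176),(1,208)],[]),
  (212,[(1,148),(-1,176)],[])]
noncomputable def t2_246 : Tab := [(2,[(1,0)],[]),
  (6,[(1,4)],[]),
  (18,[(1,16)],[]),
  (34,[(1,32)],[]),
  (50,[(-1,36),(1,48),(1,160)],[]),
  (52,[(-1,36),(1,160)],[]),
  (66,[(1,64)],[]),
  (82,[(-1,68),(1,80),(1,192)],[]),
  (84,[(-1,68),(1,192)],[]),
  (98,[(1,96)],[]),
  (114,[(-1,100),(1,112)],[]),
  (116,[(-1,100)],[]),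
  (130,[(1,128)],[]),
  (134,[(-1,20),(1,36),(-1,68),(1,132)],[]),
  (146,[(-1,20),(1,36),(-1,68),(1,144),(-1,160),(1,192)],[]),
  (148,[(-1,20),(1,36),(-1,68),(-1,160),(1,192)],[]),
  (164,[(-1,160)],[]),
  (180,[(-1,176)],[]),
  (196,[(-1,192)],[]),
  (212,[(-1,208)],[])]
noncomputable def t2_247 : Tab := [(1,[(1,0)],[]),
  (3,[(1,2)],[]),
  (5,[(1,4)],[]),
  (7,[(1,6)],[]),
  (17,[(1,16)],[]),
  (19,[(1,18),(-1,36),(1,48),(1,160)],[]),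
  (33,[(1,32)],[]),
  (35,[(1,34),(-1,36),(1,48),(1,160)],[]),
  (50,[(1,36),(-1,48),(-1,160)],[]),
  (52,[(1,36),(-1,160)],[]),
  (65,[(1,64)],[]),
  (67,[(1,66)],[]),
  (69,[(1,20),(-1,36),(1,68),(1,160)],[]),
  (81,[(1,20),(-1,36),(1,80),(1,160)],[]),
  (83,[(1,82),(-1,100),(1,112)],[]),
  (84,[(-1,20),(1,36),(-1,160)],[]),
  (97,[(1,96)],[]),
  (99,[(1,98),(-1,100),(1,112)],[]),
  (114,[(1,100),(-1,112)],[]),
  (116,[(1,100)],[]),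
  (129,[(1,128)],[]),
  (131,[(1,130)],[]),
  (133,[(1,132),(1,160)],[]),
  (135,[(1,134)],[]),
  (145,[(1,144)],[]),
  (147,[(1,146)],[]),
  (164,[(1,160)],[]),
  (180,[(1,176)],[]),
  (193,[(1,192)],[]),
  (197,[(1,148),(-1,176),(1,196)],[]),
  (209,[(1,148),(-1,176),(1,208)],[]),
  (212,[(-1,148),(1,176)],[])]
noncomputable def t2_248 : Tab := [(8,[(1,0)],[]),
  (24,[(1,16)],[]),
  (40,[(1,32)],[]),
  (56,[(1,48),(-1,80),(-1,192)],[]),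
  (72,[(1,64)],[]),
  (104,[(-1,80),(1,96),(-1,192)],[]),
  (112,[(-1,80),(-1,192)],[]),
  (136,[(1,128)],[]),
  (152,[(1,144),(1,192)],[]),
  (168,[(1,160)],[]),
  (184,[(1,176)],[]),
  (208,[(-1,192)],[])]
noncomputable def t2_249 : Tab := [(1,[(1,0)],[]),
  (9,[(1,8)],[]),
  (17,[(1,16)],[]),
  (33,[(1,32)],[]),
  (41,[(-1,24),(1,40),(1,136)],[]),
  (65,[(1,64)],[]),
  (73,[(1,72)],[]),
  (81,[(1,24),(-1,48),(1,80),(-1,144)],[]),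
  (97,[(1,24),(-1,48),(1,96),(-1,136),(-1,160)],[]),
  (105,[(1,104)],[]),
  (112,[(-1,24),(1,48),(1,136),(1,160)],[]),
  (129,[(1,128)],[]),
  (152,[(-1,24)],[]),
  (168,[(-1,24),(1,136)],[]),
  (176,[(-1,24),(1,136),(1,160)],[]),
  (184,[(1,56)],[]),
  (193,[(-1,136),(1,144),(-1,160),(1,192)],[]),
  (208,[(1,136),(-1,144),(1,160)],[]),
  (209,[(1,145)],[])]
noncomputable def t2_250 : Tab := [(2,[(1,0)],[]),
  (10,[(1,8)],[]),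
  (18,[(1,16)],[]),
  (26,[(1,24)],[]),
  (34,[(1,32)],[]),
  (42,[(1,40),(-1,72),(-1,160)],[]),
  (50,[(1,48),(-1,72),(-1,96)],[]),
  (58,[(1,56),(1,176)],[]),
  (66,[(1,64)],[]),
  (82,[(-1,72),(1,80),(-1,96),(1,192)],[]),
  (104,[(1,72)],[]),
  (112,[(1,72),(1,96)],[]),
  (114,[(-1,98)],[]),
  (130,[(1,128)],[]),
  (138,[(1,136),(1,160)],[]),
  (146,[(1,144),(1,192)],[]),
  (154,[(1,152),(-1,176)],[]),
  (168,[(-1,160)],[]),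
  (184,[(-1,176)],[]),
  (208,[(1,192)],[])]
noncomputable def t2_251 : Tab := [(1,[(1,0)],[]),
  (3,[(1,2)],[]),
  (9,[(1,8)],[]),
  (11,[(1,10),(-1,24),(1,136),(1,160)],[]),
  (17,[(1,16)],[]),
  (19,[(1,18),(-1,24),(1,48)],[]),
  (26,[(-1,24)],[]),
  (33,[(1,32)],[]),
  (35,[(1,34),(1,48)],[]),
  (41,[(1,40),(-1,160)],[]),
  (43,[(1,42),(-1,56),(-1,176)],[]),
  (50,[(-1,48)],[]),
  (58,[(-1,56),(-1,176)],[]),
  (65,[(1,64)],[]),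
  (67,[(1,66)],[]),
  (73,[(1,72)],[]),
  (81,[(1,80)],[]),
  (83,[(1,82),(1,112)],[]),
  (97,[(1,96)],[]),
  (99,[(1,98),(1,112)],[]),
  (105,[(1,104)],[]),
  (114,[(-1,112)],[]),
  (129,[(1,128)],[]),
  (131,[(1,130),(-1,136),(-1,160)],[]),
  (138,[(-1,136),(-1,160)],[]),
  (145,[(1,144)],[]),
  (147,[(1,146),(-1,152),(1,176)],[]),
  (154,[(-1,152),(1,176)],[]),
  (168,[(1,160)],[]),
  (184,[(1,176)],[]),
  (193,[(1,192)],[]),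
  (209,[(1,208)],[])]
noncomputable def t2_252 : Tab := [(4,[(1,0)],[]),
  (12,[(1,8)],[]),
  (20,[(1,16)],[]),
  (36,[(1,32)],[]),
  (44,[(-1,24),(1,40)],[]),
  (52,[(-1,24),(1,48)],[]),
  (56,[(-1,24)],[]),
  (68,[(1,64)],[]),
  (76,[(1,72)],[]),
  (84,[(1,80)],[]),
  (100,[(1,96)],[]),
  (108,[(1,104)],[]),
  (116,[(1,112)],[]),
  (132,[(1,128)],[]),
  (140,[(1,136)],[]),
  (148,[(1,144)],[]),
  (164,[(1,160)],[]),
  (172,[(-1,152),(1,168)],[]),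
  (180,[(-1,152),(1,176)],[]),
  (184,[(-1,152)],[]),
  (196,[(1,192)],[]),
  (212,[(1,208)],[])]
noncomputable def t2_253 : Tab := [(1,[(1,0)],[]),
  (5,[(1,4)],[]),
  (9,[(1,8)],[]),
  (13,[(1,12),(-1,24),(1,36),(1,48),(1,136),(1,160)],[]),
  (17,[(1,16)],[]),
  (33,[(1,32)],[]),
  (41,[(-1,36),(1,40),(-1,48),(-1,160)],[]),
  (44,[(1,24),(-1,36),(-1,48),(-1,136),(-1,160)],[]),
  (52,[(-1,48)],[]),
  (65,[(1,64)],[]),
  (69,[(1,20),(-1,24),(1,48),(1,68),(1,144)],[]),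
  (73,[(1,72)],[]),
  (77,[(1,76),(1,100),(1,112)],[]),
  (81,[(-1,20),(1,24),(-1,48),(1,80),(-1,144)],[]),
  (84,[(-1,20),(1,24),(-1,48),(-1,144)],[]),
  (97,[(1,96)],[]),
  (105,[(-1,100),(1,104),(-1,112)],[]),
  (108,[(-1,100),(-1,112)],[]),
  (116,[(-1,112)],[]),
  (129,[(1,128)],[]),
  (133,[(1,132),(-1,136),(1,144),(-1,160)],[]),
  (148,[(1,24),(-1,144)],[]),
  (152,[(1,24)],[]),
  (164,[(1,24),(-1,136),(-1,160)],[]),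
  (168,[(1,24),(-1,136)],[]),
  (172,[(1,140)],[]),
  (180,[(-1,56),(-1,176)],[]),
  (184,[(-1,56)],[]),
  (193,[(1,192)],[]),
  (197,[(1,145),(1,196),(1,208)],[]),
  (209,[(-1,145)],[]),
  (212,[(-1,145),(-1,208)],[])]
noncomputable def t2_254 : Tab := [(2,[(1,0)],[]),
  (6,[(1,4)],[]),
  (10,[(1,8)],[]),
  (14,[(1,12),(-1,20),(1,36),(-1,68),(1,160),(-1,192)],[]),
  (18,[(1,16)],[]),
  (26,[(1,24)],[]),
  (34,[(1,32)],[]),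
  (42,[(1,20),(-1,36),(1,40),(1,68),(-1,72),(-1,160),(1,192)],[]),
  (44,[(1,20),(-1,36),(1,68),(-1,160),(1,192)],[]),
  (50,[(1,20),(1,48),(1,68),(-1,72),(-1,96),(1,192)],[]),
  (52,[(1,20),(1,68),(-1,72),(-1,96),(1,192)],[]),
  (58,[(1,56),(1,148),(1,176),(-1,208)],[]),
  (66,[(1,64)],[]),
  (82,[(1,68),(-1,72),(1,80),(-1,96),(1,192)],[]),
  (84,[(1,68),(-1,72),(-1,96),(1,192)],[]),
  (100,[(-1,72),(-1,96)],[]),
  (104,[(-1,72)],[]),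
  (108,[(1,76)],[]),
  (114,[(1,98)],[]),
  (116,[(1,98),(-1,112)],[]),
  (130,[(1,128)],[]),
  (134,[(1,132),(-1,160),(1,192)],[]),
  (138,[(1,136)],[]),
  (142,[(1,140),(-1,148),(1,168),(-1,176),(1,208)],[]),
  (146,[(1,144)],[]),
  (154,[(-1,148),(1,152),(-1,176),(1,208)],[]),
  (164,[(-1,160)],[]),
  (172,[(1,148),(-1,168),(1,176),(-1,208)],[]),
  (180,[(1,148),(-1,208)],[]),
  (184,[(1,148),(1,176),(-1,208)],[]),
  (196,[(-1,192)],[]),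
  (212,[(-1,208)],[])]
noncomputable def t2_255 : Tab := [(1,[(1,0)],[]),
  (3,[(1,2)],[]),
  (5,[(1,4)],[]),
  (7,[(1,6)],[]),
  (9,[(1,8)],[]),
  (11,[(1,10),(1,24),(-1,136)],[]),
  (13,[(1,12),(-1,20),(1,36),(1,160)],[]),
  (15,[(1,14),(1,140),(-1,148),(1,168),(-1,176)],[(1,63)]),
  (17,[(1,16)],[]),
  (19,[(1,18),(-1,20),(1,24),(-1,48)],[]),
  (26,[(-1,24)],[]),
  (33,[(1,32)],[]),
  (35,[(-1,20),(1,34),(-1,48)],[]),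
  (41,[(1,20),(-1,36),(1,40),(-1,160)],[]),
  (43,[(1,42),(1,56),(1,148),(1,176)],[(-1,63)]),
  (44,[(-1,20),(1,36),(1,160)],[]),
  (50,[(-1,20),(-1,48)],[]),
  (52,[(-1,20)],[]),
  (58,[(-1,56),(-1,148),(-1,176)],[(1,63)]),
  (65,[(1,64)],[]),
  (67,[(1,66)],[]),
  (69,[(1,68)],[]),
  (73,[(1,72)],[]),
  (77,[(1,76),(-1,84),(1,100)],[(1,63)]),
  (81,[(1,80)],[]),
  (83,[(1,82),(-1,84),(-1,112)],[(1,63)]),
  (97,[(1,96)],[]),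
  (99,[(-1,84),(1,98),(-1,112)],[(1,63)]),
  (105,[(1,84),(-1,100),(1,104)],[(-1,63)]),
  (108,[(-1,84),(1,100)],[(1,63)]),
  (114,[(-1,84),(-1,112)],[(1,63)]),
  (116,[(-1,84)],[(1,63)]),
  (129,[(1,128)],[]),
  (131,[(1,130),(1,136)],[]),
  (133,[(1,132),(-1,160)],[]),
  (135,[(1,134),(-1,140),(1,148),(-1,168),(1,176)],[(-1,63)]),
  (138,[(-1,136)],[]),
  (142,[(-1,140),(1,148),(-1,168),(1,176)],[(-1,63)]),
  (145,[(1,144)],[]),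
  (147,[(1,146),(-1,148),(1,152),(-1,176)],[(1,63)]),
  (154,[(1,148),(-1,152),(1,176)],[(-1,63)]),
  (164,[(1,160)],[]),
  (172,[(-1,148),(1,168),(-1,176)],[(1,63)]),
  (180,[(-1,148)],[(1,63)]),
  (184,[(-1,148),(-1,176)],[(1,63)]),
  (193,[(1,192)],[]),
  (197,[(1,196)],[(1,63)]),
  (209,[(1,208)],[(-1,63)]),
  (212,[],[(1,63)])]
noncomputable def tl2 : List Tab := [t2_0, t2_1, t2_2, t2_3, t2_4, t2_5, t2_6, t2_7, t2_8, t2_9, t2_10, t2_11, t2_12, t2_13, t2_14, t2_15, t2_16, t2_17, t2_18, t2_19, t2_20, t2_21, t2_22, t2_23, t2_24, t2_25, t2_26, t2_27, t2_28, t2_29, t2_30, t2_31, t2_32, t2_33, t2_34, t2_35, t2_36, t2_37, t2_38, t2_39, t2_40, t2_41, t2_42, t2_43, t2_44, t2_45, t2_46, t2_47, t2_48, t2_49, t2_50, t2_51, t2_52, t2_53, t2_54, t2_55, t2_56, t2_57, t2_58, t2_59, t2_60, t2_61, t2_62, t2_63, t2_64, t2_65, t2_66, t2_67, t2_68, t2_69,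 t2_70, t2_71, t2_72, t2_73, t2_74, t2_75, t2_76, t2_77, t2_78, t2_79, t2_80, t2_81, t2_82, t2_83, t2_84, t2_85, t2_86, t2_87, t2_88, t2_89, t2_90, t2_91, t2_92, t2_93, t2_94, t2_95, t2_96, t2_97, t2_98, t2_99, t2_100, t2_101, t2_102, t2_103, t2_104, t2_105, t2_106, t2_107, t2_108, t2_109, t2_110, t2_111, t2_112, t2_113, t2_114, t2_115, t2_116, t2_117, t2_118, t2_119, t2_120, t2_121, t2_122, t2_123, t2_124, t2_125, t2_126, t2_127, t2_128, t2_129, t2_130, t2_131, t2_132, t2_133, t2_134, t2_135, t2_136, t2_137, t2_138, t2_139, t2_140, t2_141, t2_142, t2_143, t2_144, t2_145, t2_146, t2_147, t2_148, t2_149, t2_150, t2_151, t2_152, t2_153, t2_154, t2_155, t2_156, t2_157, t2_158, t2_159, t2_160, t2_161, t2_162, t2_163, t2_164, t2_165, t2_166, t2_167, t2_168, t2_169, t2_170, t2_171, t2_172, t2_173, t2_174, t2_175, t2_176, t2_177, t2_178, t2_179,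 t2_180, t2_181, t2_182, t2_183, t2_184, t2_185, t2_186, t2_187, t2_188, t2_189, t2_190, t2_191, t2_192, t2_193, t2_194, t2_195, t2_196, t2_197, t2_198, t2_199, t2_200, t2_201, t2_202, t2_203, t2_204, t2_205, t2_206, t2_207, t2_208, t2_209, t2_210, t2_211, t2_212, t2_213, t2_214, t2_215, t2_216, t2_217, t2_218, t2_219, t2_220, t2_221, t2_222, t2_223, t2_224, t2_225, t2_226, t2_227, t2_228, t2_229, t2_230, t2_231, t2_232, t2_233, t2_234, t2_235, t2_236, t2_237, t2_238, t2_239, t2_240, t2_241, t2_242, t2_243, t2_244, t2_245, t2_246, t2_247, t2_248, t2_249, t2_250, t2_251, t2_252, t2_253, t2_254, t2_255]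
noncomputable def tabs2 (J : ℕ) : Tab := tl2.getD J []


end Pool.Agent.H81.Tor
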