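import Mathlib

set_option autoImplicit false

open Finset Matrix

noncomputable section

namespace Pool.Agent.H81.Tor

variable (k : Type) [Field k] {m : ℕ} (K : Set (Finset (Fin m)))

/-- The Stanley-Reisner ideal `I_K`. -/
def IK : Ideal (MvPolynomial (Fin m) k) :=
  Ideal.span {f : MvPolynomial (Fin m) k | ∃ σ ∉ K, f = ∏ i ∈ σ, MvPolynomial.X i}

/-- The Stanley-Reisner ring `k[K] = k[v_1, ..., v_m] / I_K`. -/
def SR : Type := MvPolynomial (Fin m) k ⧸ IK k K

instance srRing : CommRing (SR k K) := Ideal.Quotient.commRing (IK k K)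
instance srAlg : Algebra k (SR k K) := Ideal.Quotient.algebra k

/-- The Koszul algebra `Λ[u_1, ..., u_m] ⊗ k[K]`. -/
def Kos : Type := ExteriorAlgebra (SR k K) (Fin m → SR k K)

/-- The ring structure of the exterior algebra. -/
def kosRingD : Ring (Kos k K) := CliffordAlgebra.instRing _

instance kosRing : Ring (Kos k K) := kosRingD k K
instance kosAlg : Algebra (SR k K) (Kos k K) := CliffordAlgebra.instAlgebra' _
instance kosAlgK : Algebra k (Kos k K) := CliffordAlgebra.instAlgebra' _

/-- The class in `k[K]` of the monomial `v^b`. -/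
def mon (b : Fin m →₀ ℕ) : SR k K := Ideal.Quotient.mk (IK k K) (MvPolynomial.monomial b 1)

/-- The inclusion of the generating module in the exterior algebra. -/
def iota : (Fin m → SR k K) →ₗ[SR k K] Kos k K := ExteriorAlgebra.ι (SR k K)

/-- The exterior generator `u_i`. -/
def u (i : Fin m) : Kos k K := (iota k K).toFun (Pi.single i 1)

/-- Linear forms on the generating module. -/
def Du : Type := Module.Dual (SR k K) (Fin m → SR k K)

instance duAdd : AddCommMonoid (Du k K) := LinearMap.addCommMonoid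
instance duMod : Module (SR k K) (Du k K) := LinearMap.module

/-- Linear endomorphisms of the Koszul algebra. -/
def En : Type := Kos k K →ₗ[SR k K] Kos k K

instance enAdd : AddCommMonoid (En k K) := LinearMap.addCommMonoid
instance enMod : Module (SR k K) (En k K) := LinearMap.module

/-- The `i`-th coordinate form. -/
def co (i : Fin m) : Du k K := LinearMap.proj i

/-- The linear form `u_i ↦ v_i`. -/
def form : Du k K := ∑ i, mon k K (Finsupp.single i 1) • co k K i

/-- Contraction of the exterior algebra with a linear form. -/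
def contr : Du k K →ₗ[SR k K] En k K := CliffordAlgebra.contractLeft

/-- The Koszul differential: the `k[K]`-linear antiderivation with `d u_i = v_i`. -/
def dS : Kos k K →ₗ[SR k K] Kos k K := (contr k K).toFun (form k K)

instance kosTower : IsScalarTower k (SR k K) (Kos k K) :=
  inferInstanceAs (IsScalarTower k (SR k K) (ExteriorAlgebra (SR k K) (Fin m → SR k K)))

/-- The Koszul differential as a `k`-linear map. -/
def dK : Kos k K →ₗ[k] Kos k K := (dS k K).restrictScalars k

/-- The part of bidegree `(-i, 2j)` of the Koszul algebra (`u_i` has bidegree `(-1, 2)`, `v_i` has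
bidegree `(0, 2)`). -/
def deg (i j : ℕ) : Submodule k (Kos k K) := Submodule.span k
  {x | ∃ (b : Fin m →₀ ℕ) (l : List (Fin m)), l.length = i ∧ i + b.degree = j ∧
    x = mon k K b • (l.map (u k K)).prod}

/-- Koszul cycles. -/
def Cyc : Submodule k (Kos k K) := LinearMap.ker (dK k K)

/-- Koszul boundaries. -/
def Bdy : Submodule k (Cyc k K) := (LinearMap.range (dK k K)).submoduleOf (Cyc k K)

/-- `Tor_{k[m]}(k[K]; k)` as the homology of the Koszul algebra. -/
def TorH : Type := Cyc k K ⧸ Bdy k K

instance torGroup : AddCommGroup (TorH k K) := Submodule.Quotient.addCommGroup (Bdy k K)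
instance torMod : Module k (TorH k K) := Submodule.Quotient.module (Bdy k K)

/-- The homology class of a cycle. -/
def cls : Cyc k K →ₗ[k] TorH k K := (Bdy k K).mkQ

/-- `Tor^{-i, 2j}`: the classes of the cycles of bidegree `(-i, 2j)`. -/
def torDeg (i j : ℕ) : Submodule k (TorH k K) :=
  ((deg k K i j).submoduleOf (Cyc k K)).map (cls k K)

/-- The bigraded Betti number `β^{-i, 2j}(K)`. -/
def betti (i j : ℕ) : Cardinal := Module.rank k (torDeg k K i j)

/-- The homology class of a cycle, as a plain function. -/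
def cl (x : Cyc k K) : TorH k K := Submodule.Quotient.mk x

/-- `x` is a cycle whose homology class is `c`. -/
def Rep (x : Kos k K) (c : TorH k K) : Prop := ∃ h : x ∈ Cyc k K, cl k K ⟨x, h⟩ = c

/-- An isomorphism of bigraded algebras between the Tor-algebras of `K` and `L`. -/
def TorIso (L : Set (Finset (Fin m))) : Prop :=
  ∃ Φ : TorH k K → TorH k L, IsLinearMap k Φ ∧ Function.Bijective Φ ∧
    (∀ i j c, c ∈ torDeg k K i j ↔ Φ c ∈ torDeg k L i j) ∧ (∀ c, Rep k K 1 c → Rep k L 1 (Φ c)) ∧
    ∀ x y a b c x' y', Rep k K x a → Rep k K y b → Rep k K (x * y) c →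
      Rep k L x' (Φ a) → Rep k L y' (Φ b) → Rep k L (x' * y') (Φ c)

/-- The moment-angle complex. -/
def ZK : Set (Fin m → ℂ) := {z | ∃ σ ∈ K, ∀ i, ‖z i‖ ≤ 1 ∧ (i ∉ σ → ‖z i‖ = 1)}

/-- The real moment-angle complex. -/
def RZK : Set (Fin m → ℝ) := {x | ∃ σ ∈ K, ∀ i, |x i| ≤ 1 ∧ (i ∉ σ → |x i| = 1)}

/-- The Buchstaber invariant: the largest `r` such that a torus `T^r` acts freely on `Z_K` through a
continuous homomorphism to `T^m`. -/
def buch : ℕ := sSup {r | ∃ φ : (Fin r → Circle) →* (Fin m → Circle), Continuous φ ∧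
  ∀ t, ∀ z ∈ ZK K, (∀ i, (φ t i : ℂ) * z i = z i) → t = 1}

/-- The real Buchstaber invariant: the same with the sign group `{1, -1}`. -/
def buchR : ℕ := sSup {r | ∃ φ : (Fin r → ℤˣ) →* (Fin m → ℤˣ),
  ∀ t, ∀ x ∈ RZK K, (∀ i, ((φ t i : ℤ) : ℝ) * x i = x i) → t = 1}

/-- The vertex sets of the proper faces of the convex hull of the points `x i`. -/
def bd {n : ℕ} (x : Fin m → Fin n → ℝ) : Set (Finset (Fin m)) :=
  {σ | σ ≠ univ ∧ ∃ (a : Fin n → ℝ) (c : ℝ), (∀ i ∈ σ, a ⬝ᵥ x i = c) ∧ ∀ i ∉ σ, a ⬝ᵥ x i < c}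

/-- The points `x i` are the vertices of a full-dimensional simplicial polytope. -/
def Simplicial {n : ℕ} (x : Fin m → Fin n → ℝ) : Prop :=
  affineSpan ℝ (Set.range x) = ⊤ ∧ (∀ i, {i} ∈ bd x) ∧
    ∀ σ ∈ bd x, AffineIndependent ℝ fun i : σ => x i

end Pool.Agent.H81.Tor
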