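import Pool.Agent.H81.Tor5
import Pool.Agent.H81.TorK

set_option autoImplicit false
set_option maxRecDepth 100000

open Finset

namespace Pool.Agent.H81.Tor

def lv {n : ℕ} (l : List ℤ) : Fin n → ℤ := fun i => l.getD i 0
def lm {n m : ℕ} (l : List (List ℤ)) : Fin n → Fin m → ℤ := fun i => lv (l.getD i [])

noncomputable def X1 : Fin 8 → Fin 4 → ℤ := lm [[2, 1, 1, 2], [-2, -1, -2, 1], [0, 2, 0, -1], [0, 0, -2, -1], [-2, -2, 2, 1], [-1, -1, -1, 2], [-2, 0, 0, 0], [2, -2, 0, -1]]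
noncomputable def fr1 : List (ℕ × List ℤ × ℤ) := [(0, [-10, 17, -6, 25], 117),
  (1, [4, 37, -5, 62], 164),
  (2, [-9, 8, -13, 7], 43),
  (3, [1, 16, -16, 12], 26),
  (4, [-16, 47, 5, 6], 88),
  (5, [-4, 39, 5, 14], 64),
  (6, [-9, 24, -14, 13], 35),
  (7, [-1, 14, -11, 9], 19),
  (8, [11, 2, -41, -4], 86),
  (9, [7, 4, -11, 5], 17),
  (10, [-2, 2, -12, -1], 25),
  (11, [1, 4, -5, 3], 7),
  (12, [1, 7, -7, -2], 16),
  (13, [7, 13, -13, 4], 22),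
  (14, [-1, 6, -6, 2], 10),
  (15, [1, 10, -10, 6], 14),
  (16, [-12, -1, 15, 11], 67),
  (17, [-7, 8, 30, 34], 92),
  (18, [-7, -4, -1, -2], 18),
  (20, [-3, 8, 22, -9], 25),
  (21, [-1, 9, 20, -3], 21),
  (24, [-8, -9, -2, -13], 17),
  (26, [-7, -8, -2, -11], 15),
  (32, [-11, 21, -18, 76], 160),
  (33, [-2, 15, -12, 61], 121),
  (34, [-3, 4, -4, 7], 17),
  (35, [0, 1, -1, 1], 2),
  (36, [-15, 25, -3, 19], 31),
  (37, [-10, 17, -2, 13], 21),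
  (38, [-7, 12, -2, 9], 15),
  (39, [-2, 4, -1, 3], 5),
  (40, [17, -3, -25, 13], 37),
  (41, [14, -1, -20, 11], 29),
  (42, [1, 0, -2, 1], 3),
  (43, [2, 2, -5, 3], 7),
  (48, [-13, -1, 10, 44], 92),
  (49, [-6, -1, 10, 37], 71),
  (50, [-1, 0, 0, 1], 3),
  (64, [-53, 44, 11, 24], 106),
  (65, [-29, 37, 11, 34], 58),
  (66, [-19, 10, -3, 4], 38),
  (68, [-25, 28, 4, 6], 50),
  (69, [-13, 20, 4, 14], 26),
  (70, [-8, 10, -3, 4], 16),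
  (72, [-5, -2, -1, -8], 10),
  (74, [-7, -2, -3, -8], 14),
  (76, [-5, 1, -1, -8], 10),
  (78, [-3, 2, -2, -2], 6),
  (80, [-35, 22, 14, 16], 70),
  (81, [-7, 8, 4, 8], 14),
  (82, [-1, 0, 0, 0], 2),
  (84, [-7, 6, 7, -2], 14),
  (85, [-5, 7, 5, 4], 10),
  (88, [-5, -5, -1, -8], 10),
  (90, [-4, -4, -1, -6], 8),
  (96, [-6, 7, 1, 7], 12),
  (97, [-4, 5, 1, 5], 8),
  (98, [-1, 1, 0, 1], 2),
  (100, [-13, 21, -2, 16], 26),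
  (101, [-8, 13, -1, 10], 16),
  (102, [-5, 8, -1, 6], 10),
  (112, [-23, 21, 8, 26], 46),
  (113, [-16, 17, 7, 20], 32),
  (114, [-7, 4, 1, 6], 14),
  (128, [27, -29, -4, 0], 112),
  (129, [2, -1, 0, 1], 5),
  (130, [0, -10, -7, -2], 22),
  (132, [2, 1, 5, -7], 9),
  (133, [10, 5, 12, -9], 19),
  (136, [15, -8, -23, -5], 51),
  (137, [3, 0, -3, 1], 5),
  (138, [0, -2, -2, -1], 5),
  (140, [2, 1, -1, -4], 6),
  (141, [6, 3, -3, -2], 8),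
  (144, [4, -13, 9, -1], 35),
  (145, [7, -8, 9, 5], 25),
  (146, [-3, -8, -2, -4], 14),
  (148, [2, 1, 17, -13], 15),
  (149, [4, 2, 15, -7], 11),
  (152, [-4, -5, -1, -7], 9),
  (154, [-3, -4, -1, -5], 7),
  (160, [25, -27, -18, 28], 76),
  (161, [22, -21, -12, 25], 61),
  (162, [1, -2, -2, 1], 5),
  (168, [3, -1, -4, 2], 6),
  (169, [12, -3, -15, 8], 22),
  (170, [3, -2, -5, 2], 8),
  (176, [5, -11, 1, 9], 23),
  (177, [10, -18, 3, 17], 39),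
  (178, [0, -4, -1, 1], 7),
  (192, [-5, -3, 3, -14], 10),
  (196, [-4, -2, 3, -12], 8),
  (200, [-3, -2, 1, -8], 6),
  (204, [-2, -1, 1, -6], 4),
  (208, [-3, -2, 2, -8], 6),
  (212, [-2, -1, 2, -6], 4),
  (216, [-1, -1, 0, -2], 2)]
noncomputable def fd1 : List (ℕ × (Fin 4 → ℤ) × ℤ) := fr1.map fun e => (e.1, lv e.2.1, e.2.2)
noncomputable def mr1 : List (List ℤ) := [[88, 212, -26, -5, 44, -238, -62, -13],
  [68, 110, -57, -1, -1, -152, 34, -1],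
  [60, 190, -5, -75, -5, -180, -10, 25],
  [42, -52, -59, 225, 126, -52, -118, -112],
  [44, -64, -110, 80, -20, -28, 120, -22],
  [50, -38, -130, -19, -101, -38, 242, 34],
  [-28, 90, 113, -19, 77, -16, -202, -15],
  [-24, 100, 82, -132, -26, -12, -40, 52],
  [-2, 28, -1, -92, -64, -2, 84, 49],
  [-2, -2, 14, 43, 41, -2, -66, -26],
  [-48, -102, 27, 15, -3, 120, -6, -3],
  [-48, -18, 81, -3, 39, 72, -114, -9],
  [-102, -114, 104, -63, -23, 206, -38, 30],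
  [-18, -92, -9, 75, 26, 68, -18, -32],
  [-30, -120, -13, 45, -8, 104, 34, -12],
  [-50, -128, -11, -74, -102, 150, 160, 55]]
noncomputable def X2 : Fin 8 → Fin 4 → ℤ := lm [[2, 1, 2, 2], [-2, 2, 0, 3], [3, 3, 1, -3], [-3, 1, 2, 0], [-3, -1, -2, -1], [-3, -1, 1, -2], [2, -3, 1, -3], [-3, 3, -2, 3]]
noncomputable def fr2 : List (ℕ × List ℤ × ℤ) := [(0, [-47, -99, 165, 30], 985),
  (1, [21, -52, 119, 110], 448),
  (2, [-61, -91, 117, 157], 411),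
  (3, [-26, -24, 87, 94], 286),
  (4, [8, 105, 110, -122], 815),
  (5, [43, 68, 84, 19], 360),
  (6, [-8, 93, 67, 20], 262),
  (7, [-5, 76, 57, 18], 216),
  (8, [-46, 36, 231, 5], 636),
  (9, [-14, 18, 158, 35], 376),
  (10, [-16, 20, 41, 26], 150),
  (11, [-16, 34, 69, 40], 220),
  (12, [-18, 95, 202, -40], 553),
  (13, [0, 1, 2, 0], 5),
  (14, [-9, 84, 63, 17], 237),
  (15, [-6, 67, 53, 15], 191),
  (16, [-45, -97, -34, -21], 321),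
  (17, [5, -21, -10, 19], 7),
  (18, [-6, -20, 3, 15], 17),
  (19, [2, -16, -5, 14], 6),
  (20, [-17, 8, -44, -101], 232),
  (24, [-14, -11, 3, 10], 37),
  (26, [-13, -11, 3, 10], 34),
  (32, [-92, -158, 90, -15], 554),
  (33, [-3, -11, 5, 8], 9),
  (34, [-49, -164, 54, 119], 127),
  (35, [-23, -84, 35, 62], 64),
  (36, [-38, 21, 26, -144], 407),
  (40, [-37, -43, 88, -1], 244),
  (41, [-14, -48, 26, 35], 46),
  (42, [-17, -40, 18, 31], 47),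
  (43, [-10, -33, 16, 25], 29),
  (44, [-5, 4, 20, -14], 59),
  (48, [-50, -71, -15, -45], 296),
  (50, [-26, -80, 19, 57], 63),
  (52, [-23, 9, -34, -102], 230),
  (56, [-8, -7, 2, 6], 21),
  (58, [-7, -7, 2, 6], 18),
  (64, [-2, -162, 85, -12], 603),
  (65, [35, -92, 48, 64], 202),
  (66, [-31, -137, 33, 99], 85),
  (67, [-3, -16, 4, 12], 10),
  (68, [30, -5, 47, -126], 500),
  (69, [48, -8, 27, 1], 144),
  (72, [-4, -15, 151, -37], 299),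
  (73, [2, -16, 89, -5], 156),
  (76, [0, 0, 3, -1], 6),
  (77, [6, -1, 79, -15], 139),
  (80, [-27, -89, -33, -28], 264),
  (81, [2, -9, -4, 8], 3),
  (82, [-9, -43, 7, 31], 25),
  (83, [1, -13, -3, 11], 5),
  (84, [-12, 2, -42, -95], 213),
  (96, [-60, -135, 76, -30], 451),
  (97, [-17, -66, 29, 47], 52),
  (98, [-8, -31, 9, 22], 20),
  (99, [-13, -51, 19, 37], 35),
  (100, [-12, 2, 15, -64], 177),
  (104, [-5, -7, 36, -11], 80),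
  (105, [-4, -15, 10, 10], 17),
  (108, [-6, 1, 62, -32], 143),
  (112, [-37, -70, -15, -45], 256),
  (114, [-19, -73, 17, 51], 45),
  (116, [-18, 3, -32, -96], 211),
  (128, [29, 23, -58, 18], 152),
  (129, [47, -6, -55, 27], 32),
  (130, [-7, 19, 13, 12], 88),
  (131, [1, 3, 1, 3], 13),
  (132, [32, 35, -52, 6], 131),
  (133, [43, 2, -48, 19], 30),
  (134, [-2, 26, 14, 5], 71),
  (135, [1, 9, 4, 3], 25),
  (136, [-19, 24, 9, -4], 99),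
  (138, [-9, 13, 11, 6], 62),
  (140, [-3, 7, 2, -2], 20),
  (142, [-3, 17, 10, 2], 46),
  (144, [-2, -7, -18, 7], 42),
  (145, [4, -8, -7, 8], 2),
  (146, [-5, -7, -1, 7], 17),
  (147, [1, -3, -2, 3], 1),
  (148, [1, 5, -12, -5], 21),
  (152, [-7, -4, 1, 4], 19),
  (154, [-6, -4, 1, 4], 16),
  (160, [-15, 17, -4, -16], 56),
  (164, [-14, 17, -4, -16], 53),
  (168, [-10, 11, -2, -10], 37),
  (172, [-9, 11, -2, -10], 34),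
  (176, [-3, 3, -1, -3], 11),
  (180, [-5, 6, -2, -6], 19),
  (184, [-1, 0, 0, 0], 3),
  (192, [51, -13, -67, 22], 8),
  (193, [15, -4, -19, 7], 2),
  (196, [48, -8, -62, 17], 7),
  (197, [42, -7, -52, 16], 5),
  (208, [3, -2, -5, 2], 1),
  (209, [3, -5, -5, 5], 1),
  (212, [6, -1, -10, 1], 2)]
noncomputable def fd2 : List (ℕ × (Fin 4 → ℤ) × ℤ) := fr2.map fun e => (e.1, lv e.2.1, e.2.2)
noncomputable def mr2 : List (List ℤ) := [[495, -108, 78, -54, 684, -27, -567, -501],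
  [505, -94, 39, -881, -47, 1058, -533, -47],
  [701, -960, -50, 490, 767, -449, -449, -50],
  [381, -1024, -146, 266, -33, -33, -1, 590],
  [506, -540, -20, -20, 347, 106, -374, -5],
  [429, -716, -94, -314, -210, 591, -173, 487],
  [-248, 1200, 220, -196, 478, -172, -256, -1026],
  [-220, 888, 112, -944, -442, 940, -92, -242],
  [-1312, 1744, 126, -82, -715, -242, 812, -331],
  [-315, 154, -9, 415, -9, -522, 295, -9],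
  [-4, 46, -1, -205, -154, 253, -4, 69],
  [-286, 228, -8, -8, -283, -2, 250, 109],
  [-12, -6, 21, 465, 402, -609, -12, -249],
  [-110, -238, -37, 799, 337, -925, 202, -28],
  [-417, -202, -113, 455, -462, -396, 593, 542],
  [-93, -372, -118, -186, -660, 429, 309, 691]]
noncomputable def cm : Fin 8 → Fin 4 → ℤ := lm [[0, -1, 0, -1], [0, -1, -1, 0], [-1, -1, 0, 0], [-1, 0, -1, -1], [1, 0, 0, 0], [0, 1, 0, 0], [0, 0, 1, 0], [0, 0, 0, 1]]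
noncomputable def gr : List (List (List ℤ)) := [[[0, 0, 0, 0, 1, 0, 0, 0], [0, 0, 0, 0, 0, 1, 0, 0], [0, 0, 0, 0, 0, 0, 1, 0], [0, 0, 0, 0, 0, 0, 0, 1]],
  [[0, 0, 0, 0, 1, 0, 0, 0], [0, 0, 0, 0, 0, 1, 0, 0], [0, 0, 0, 0, 0, 0, 1, 0], [0, 0, 0, -1, -1, 0, -1, 0]],
  [[0, 0, 0, 0, 1, 0, 0, 0], [0, 0, -1, 0, -1, 0, 0, 0], [0, 0, 0, 0, 0, 0, 1, 0], [0, 0, 0, 0, 0, 0, 0, 1]],
  [[0, 0, -1, 0, 0, -1, 0, 0], [0, 0, 0, 0, 0, 1, 0, 0], [0, 0, 1, -1, 0, 1, 0, -1], [0, 0, 0, 0, 0, 0, 0, 1]],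
  [[0, 0, -1, 0, 0, -1, 0, 0], [0, 0, 0, 0, 0, 1, 0, 0], [0, 0, 0, 0, 0, 0, 1, 0], [0, 0, 1, -1, 0, 1, -1, 0]],
  [[0, 0, 0, 0, 1, 0, 0, 0], [0, 0, -1, 0, -1, 0, 0, 0], [0, 0, 0, -1, -1, 0, 0, -1], [0, 0, 0, 0, 0, 0, 0, 1]],
  [[0, 0, 0, 0, 1, 0, 0, 0], [0, 0, 0, 0, 0, 1, 0, 0], [0, -1, 0, 0, 0, -1, 0, 0], [0, 0, 0, 0, 0, 0, 0, 1]],
  [[0, 0, 0, 0, 1, 0, 0, 0], [0, 0, 0, 0, 0, 1, 0, 0], [0, -1, 0, 0, 0, -1, 0, 0], [0, 1, 0, -1, -1, 1, 0, 0]],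
  [[0, 0, 0, 0, 1, 0, 0, 0], [0, 0, -1, 0, -1, 0, 0, 0], [0, -1, 1, 0, 1, 0, 0, 0], [0, 0, 0, 0, 0, 0, 0, 1]],
  [[0, 0, -1, 0, 0, -1, 0, 0], [0, 0, 0, 0, 0, 1, 0, 0], [0, -1, 0, 0, 0, -1, 0, 0], [0, 1, 1, -1, 0, 2, 0, 0]],
  [[0, 0, 0, 0, 1, 0, 0, 0], [0, 0, 0, 0, 0, 1, 0, 0], [0, 0, 0, 0, 0, 0, 1, 0], [-1, 0, 0, 0, 0, -1, 0, 0]],
  [[1, 0, -1, 0, 0, 0, 0, 1], [-1, 0, 0, 0, 0, 0, 0, -1], [0, 0, 0, 0, 0, 0, 1, 0], [0, 0, 0, 0, 0, 0, 0, 1]],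
  [[0, 0, -1, 0, 0, -1, 0, 0], [0, 0, 0, 0, 0, 1, 0, 0], [0, 0, 0, 0, 0, 0, 1, 0], [-1, 0, 0, 0, 0, -1, 0, 0]],
  [[1, 0, -1, 0, 0, 0, 0, 1], [-1, 0, 0, 0, 0, 0, 0, -1], [-1, 0, 1, -1, 0, 0, 0, -2], [0, 0, 0, 0, 0, 0, 0, 1]],
  [[0, 0, 0, 0, 1, 0, 0, 0], [-1, 0, 0, 0, 0, 0, 0, -1], [1, -1, 0, 0, 0, 0, 0, 1], [0, 0, 0, 0, 0, 0, 0, 1]],
  [[0, 0, 0, 0, 1, 0, 0, 0], [0, -1, 0, 0, 0, 0, -1, 0], [0, 0, 0, 0, 0, 0, 1, 0], [-1, 1, 0, 0, 0, 0, 1, 0]],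
  [[-1, 1, 0, -1, 0, 0, 0, -2], [-1, 0, 0, 0, 0, 0, 0, -1], [1, -1, 0, 0, 0, 0, 0, 1], [0, 0, 0, 0, 0, 0, 0, 1]],
  [[1, -1, 0, -1, 0, 0, -2, 0], [0, -1, 0, 0, 0, 0, -1, 0], [0, 0, 0, 0, 0, 0, 1, 0], [-1, 1, 0, 0, 0, 0, 1, 0]],
  [[1, 1, 0, -1, 0, 2, 0, 0], [0, 0, 0, 0, 0, 1, 0, 0], [0, -1, 0, 0, 0, -1, 0, 0], [-1, 0, 0, 0, 0, -1, 0, 0]],
  [[0, 1, -1, 0, 0, 0, 1, 0], [0, -1, 0, 0, 0, 0, -1, 0], [0, 0, 0, 0, 0, 0, 1, 0], [-1, 1, 0, 0, 0, 0, 1, 0]]]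

noncomputable def ml1 : List (Fin 8 → ℤ) := mr1.map lv
lemma g1 : chkG X1 kb1 fd1 ml1 := ⟨by decide +kernel, by decide +kernel, by decide +kernel,
  by decide +kernel, by decide +kernel, by decide +kernel⟩
noncomputable def ml2 : List (Fin 8 → ℤ) := mr2.map lv
lemma g2 : chkG X2 kb2 fd2 ml2 := ⟨by decide +kernel, by decide +kernel, by decide +kernel,
  by decide +kernel, by decide +kernel, by decide +kernel⟩
lemma nc1 : NoCode kb1 := by decide +kernel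
noncomputable def gl : List (Fin 4 → Fin 8 → ℤ) := gr.map lm
lemma gl1 : ∀ g ∈ gl, ∀ j l, ∑ i, cm i l * g j i = if j = l then 1 else 0 := by decide +kernel
lemma gl2 : ∀ n < 256, kb2.testBit n → ∃ g ∈ gl, ∀ i : Fin 8, n.testBit i → ∀ j, g j i = 0 := by
  decide +kernel


end Pool.Agent.H81.Tor
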