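import Mathlib

set_option autoImplicit false

open MeasureTheory Set Matrix

namespace Pool.Agent.H81.Tube

lemma rot {d : ℕ} (v w : Fin d → ℝ) (h : v ⬝ᵥ v = w ⬝ᵥ w) :
    ∃ U : (Fin d → ℝ) ≃ᵐ (Fin d → ℝ), MeasurePreserving U ∧ U v = w ∧
      (∀ x y, U x ⬝ᵥ U y = x ⬝ᵥ y) ∧ ∀ x, U (U x) = x := by
  have hn : ‖(WithLp.toLp 2 v : EuclideanSpace ℝ (Fin d))‖ = ‖(WithLp.toLp 2 w : EuclideanSpace ℝ (Fin d))‖ := by
    simp only [EuclideanSpace.norm_eq, Real.norm_eq_abs, sq_abs]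
    congr 1
    simpa [dotProduct, sq] using h
  set r := Submodule.reflection
    (ℝ ∙ ((WithLp.toLp 2 v : EuclideanSpace ℝ (Fin d)) - WithLp.toLp 2 w))ᗮ with hr
  refine ⟨((MeasurableEquiv.toLp 2 (Fin d → ℝ)).trans r.toHomeomorph.toMeasurableEquiv).trans
    (MeasurableEquiv.toLp 2 (Fin d → ℝ)).symm, ?_, ?_, ?_, ?_⟩
  · exact (PiLp.volume_preserving_ofLp (Fin d)).comp
      (r.measurePreserving.comp (PiLp.volume_preserving_toLp (Fin d)))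
  · show WithLp.ofLp (r (WithLp.toLp 2 v)) = w
    rw [hr, Submodule.reflection_sub hn]
  · intro x y
    show WithLp.ofLp (r (WithLp.toLp 2 x)) ⬝ᵥ WithLp.ofLp (r (WithLp.toLp 2 y)) = x ⬝ᵥ y
    have := r.inner_map_map (WithLp.toLp 2 y) (WithLp.toLp 2 x)
    rw [EuclideanSpace.inner_eq_star_dotProduct, EuclideanSpace.inner_eq_star_dotProduct] at this
    simpa using this
  · intro x
    show WithLp.ofLp (r (WithLp.toLp 2 (WithLp.ofLp (r (WithLp.toLp 2 x))))) = x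
    rw [WithLp.toLp_ofLp, hr, Submodule.reflection_reflection]

lemma ball_closed (d : ℕ) (q : ℝ) : IsClosed {z : Fin d → ℝ | z ⬝ᵥ z ≤ q} :=
  isClosed_le (by fun_prop) continuous_const

lemma ball_compact (d : ℕ) (q : ℝ) : IsCompact {z : Fin d → ℝ | z ⬝ᵥ z ≤ q} := by
  refine Metric.isCompact_of_isClosed_isBounded (ball_closed d q) ?_
  refine (Metric.isBounded_closedBall (x := (0 : Fin d → ℝ)) (r := |q| + 1)).subset ?_
  intro z hz
  rw [mem_closedBall_zero_iff, pi_norm_le_iff_of_nonneg (by positivity)]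
  intro i
  have h1 : z i * z i ≤ z ⬝ᵥ z :=
    Finset.single_le_sum (f := fun j => z j * z j) (fun j _ => mul_self_nonneg _) (Finset.mem_univ i)
  have h2 : z ⬝ᵥ z ≤ q := hz
  rw [Real.norm_eq_abs]
  nlinarith [abs_mul_abs_self (z i), abs_nonneg (z i), le_abs_self q, sq_nonneg (|z i| - 1)]

noncomputable def mom (d j : ℕ) (q : ℝ) (v : Fin d → ℝ) : ℝ :=
  ∫ w, ({w : Fin d → ℝ | w ⬝ᵥ w ≤ q}.indicator fun w => (v ⬝ᵥ w) ^ j) w

lemma mom_rot {d : ℕ} (j : ℕ) (q : ℝ) (v w : Fin d → ℝ) (h : v ⬝ᵥ v = w ⬝ᵥ w) :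
    mom d j q v = mom d j q w := by
  obtain ⟨U, hU, hv, hd, -⟩ := rot v w h
  unfold mom
  rw [← hU.integral_comp' (fun x => ({w : Fin d → ℝ | w ⬝ᵥ w ≤ q}.indicator
    fun x => (w ⬝ᵥ x) ^ j) x)]
  congr 1; ext x
  simp only [indicator, mem_setOf_eq, hd, ← hv]

lemma mom_smul {d : ℕ} (j : ℕ) (q c : ℝ) (v : Fin d → ℝ) :
    mom d j q (c • v) = c ^ j * mom d j q v := by
  unfold mom
  rw [← integral_const_mul]
  congr 1; ext x
  simp only [indicator, mem_setOf_eq, smul_dotProduct, smul_eq_mul, mul_pow]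
  split_ifs <;> simp

lemma mom_scale {d : ℕ} (j : ℕ) {ρ : ℝ} (hρ : 0 < ρ) (v : Fin d → ℝ) :
    mom d j (ρ ^ 2) v = ρ ^ (d + j) * mom d j 1 v := by
  have h := Measure.integral_comp_smul (volume : Measure (Fin d → ℝ))
    (fun x => ({w : Fin d → ℝ | w ⬝ᵥ w ≤ ρ ^ 2}.indicator fun x => (v ⬝ᵥ x) ^ j) x) ρ
  have e : (fun x : Fin d → ℝ => ({w : Fin d → ℝ | w ⬝ᵥ w ≤ ρ ^ 2}.indicator
      fun x => (v ⬝ᵥ x) ^ j) (ρ • x)) = fun x => ρ ^ j *
      ({w : Fin d → ℝ | w ⬝ᵥ w ≤ 1}.indicator fun x => (v ⬝ᵥ x) ^ j) x := by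
    ext x
    have : (ρ • x) ⬝ᵥ (ρ • x) ≤ ρ ^ 2 ↔ x ⬝ᵥ x ≤ 1 := by
      rw [smul_dotProduct, dotProduct_smul, smul_eq_mul, smul_eq_mul, ← mul_assoc, ← sq]
      exact mul_le_iff_le_one_right (by positivity)
    simp only [indicator, mem_setOf_eq, this]
    simp only [dotProduct_smul, smul_eq_mul, mul_pow]
    split_ifs <;> simp
  rw [e, integral_const_mul] at h
  simp only [Module.finrank_fin_fun, smul_eq_mul] at h
  rw [abs_of_pos (by positivity)] at h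
  unfold mom
  rw [pow_add, mul_assoc, h]
  field_simp

lemma ballmom (μ j : ℕ) : ∃ (C : ℝ) (l : ℕ), ∀ (v : Fin (2 * μ) → ℝ) (q : ℝ), 0 < q →
    mom (2 * μ) j q v = C * (v ⬝ᵥ v) ^ l * q ^ (μ + l) := by
  rcases Nat.even_or_odd' j with ⟨l, rfl | rfl⟩
  · have key : ∃ C : ℝ, ∀ v : Fin (2 * μ) → ℝ, mom (2 * μ) (2 * l) 1 v = C * (v ⬝ᵥ v) ^ l := by
      by_cases hex : ∃ e : Fin (2 * μ) → ℝ, e ⬝ᵥ e = 1
      · obtain ⟨e, he⟩ := hex
        refine ⟨mom _ (2 * l) 1 e, fun v => ?_⟩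
        have hv : 0 ≤ v ⬝ᵥ v := Finset.sum_nonneg fun i _ => mul_self_nonneg _
        rw [mom_rot _ _ v (Real.sqrt (v ⬝ᵥ v) • e), mom_smul, pow_mul, Real.sq_sqrt hv, mul_comm]
        rw [smul_dotProduct, dotProduct_smul, he]
        simp [Real.mul_self_sqrt hv]
      · have h0 : ∀ v : Fin (2 * μ) → ℝ, v = 0 := by
          intro v; ext i
          exact absurd ⟨Pi.single i 1, by simp⟩ hex
        refine ⟨mom (2 * μ) (2 * l) 1 0, fun v => ?_⟩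
        rw [h0 v]
        rcases Nat.eq_zero_or_pos l with rfl | hl
        · simp
        · have := mom_smul (d := 2 * μ) (2 * l) 1 0 0
          rw [zero_smul, zero_pow (by omega), zero_mul] at this
          simp [this]
    obtain ⟨C, hC⟩ := key
    refine ⟨C, l, fun v q hq => ?_⟩
    have := mom_scale (2 * l) (Real.sqrt_pos.2 hq) v
    rw [Real.sq_sqrt hq.le] at this
    rw [this, hC, show 2 * μ + 2 * l = 2 * (μ + l) by ring, pow_mul, Real.sq_sqrt hq.le]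
    ring
  · refine ⟨0, 0, fun v q _ => ?_⟩
    have h1 := mom_rot (2 * l + 1) q v ((-1 : ℝ) • v) (by simp)
    rw [mom_smul, Odd.neg_one_pow ⟨l, rfl⟩] at h1
    linarith

lemma slice1 {m : ℕ} (f : (Fin (m + 1) → ℝ) → ℝ) (hf : Integrable f) :
    ∫ z, f z = ∫ s : ℝ, ∫ y : Fin m → ℝ, f (Fin.cons s y) := by
  have hp := (volume_preserving_piFinSuccAbove (fun _ : Fin (m + 1) => ℝ) 0).symm
  rw [← hp.integral_comp', Measure.volume_eq_prod, integral_prod]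
  · simp [MeasurableEquiv.piFinSuccAbove, Fin.insertNthEquiv]
  · exact (hp.integrable_comp_emb (MeasurableEquiv.measurableEmbedding _)).2 hf

lemma slice2 {m : ℕ} (f : (Fin (m + 1) → ℝ) → ℝ) (hf : Integrable f) :
    ∫ z, f z = ∫ y : Fin m → ℝ, ∫ s : ℝ, f (Fin.cons s y) := by
  have hp := (volume_preserving_piFinSuccAbove (fun _ : Fin (m + 1) => ℝ) 0).symm
  rw [← hp.integral_comp', Measure.volume_eq_prod, integral_prod_symm]
  · simp [MeasurableEquiv.piFinSuccAbove, Fin.insertNthEquiv]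
  · exact (hp.integrable_comp_emb (MeasurableEquiv.measurableEmbedding _)).2 hf

lemma cap_integrable {d : ℕ} (q c : ℝ) (n : Fin d → ℝ) {f : (Fin d → ℝ) → ℝ}
    (hf : Continuous f) :
    Integrable ({z : Fin d → ℝ | z ⬝ᵥ z ≤ q ∧ c ≤ n ⬝ᵥ z}.indicator f) := by
  have h1 : IsClosed {z : Fin d → ℝ | c ≤ n ⬝ᵥ z} := isClosed_le continuous_const (by fun_prop)
  have hc : IsCompact {z : Fin d → ℝ | z ⬝ᵥ z ≤ q ∧ c ≤ n ⬝ᵥ z} :=
    (ball_compact d q).inter_right h1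
  exact (integrable_indicator_iff hc.measurableSet).2 (hf.continuousOn.integrableOn_compact hc)

lemma cons_dot {m : ℕ} (s : ℝ) (y : Fin m → ℝ) (w : Fin (m + 1) → ℝ) :
    w ⬝ᵥ (Fin.cons s y : Fin (m + 1) → ℝ) = w 0 * s + (fun i => w i.succ) ⬝ᵥ y := by
  simp [dotProduct, Fin.sum_univ_succ]

lemma cap (μ i j : ℕ) : ∃ (C : ℝ) (l : ℕ), ∀ (n v : Fin (2 * μ + 1) → ℝ) (r c : ℝ),
    n ⬝ᵥ n = 1 → n ⬝ᵥ v = 0 → 0 ≤ r →
    ∫ z, ({z : Fin (2 * μ + 1) → ℝ | z ⬝ᵥ z ≤ r ^ 2 ∧ c ≤ n ⬝ᵥ z}.indicator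
      fun z => (n ⬝ᵥ z) ^ i * (v ⬝ᵥ z) ^ j) z
      = C * (v ⬝ᵥ v) ^ l * ∫ σ in (max (-r) (min c r))..r, σ ^ i * (r ^ 2 - σ ^ 2) ^ (μ + l) := by
  obtain ⟨C, l, hC⟩ := ballmom μ j
  refine ⟨C, l, fun n v r c hn hnv hr => ?_⟩
  set e : Fin (2 * μ + 1) → ℝ := Pi.single 0 1 with he
  obtain ⟨U, hU, hv, hd, hi⟩ := rot e n (by rw [hn, he]; simp)
  have h1 : ∀ z, n ⬝ᵥ U z = e ⬝ᵥ z := fun z => by rw [← hv, hd]
  have h2 : ∀ z, v ⬝ᵥ U z = U v ⬝ᵥ z := fun z => by rw [← hd (U v) z, hi]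
  have h3 : U v 0 = 0 := by
    have := h1 (U v)
    rw [hi, hnv, he] at this
    simpa using this.symm
  set v' : Fin (2 * μ) → ℝ := fun i => U v i.succ with hv'
  have h4 : v' ⬝ᵥ v' = v ⬝ᵥ v := by
    rw [← hd v v]; simp [dotProduct, Fin.sum_univ_succ, h3, hv']
  rw [← hU.integral_comp']
  have e1 : (fun z => ({z : Fin (2 * μ + 1) → ℝ | z ⬝ᵥ z ≤ r ^ 2 ∧ c ≤ n ⬝ᵥ z}.indicator
      fun z => (n ⬝ᵥ z) ^ i * (v ⬝ᵥ z) ^ j) (U z)) =
      {z : Fin (2 * μ + 1) → ℝ | z ⬝ᵥ z ≤ r ^ 2 ∧ c ≤ e ⬝ᵥ z}.indicator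
      fun z => (e ⬝ᵥ z) ^ i * (U v ⬝ᵥ z) ^ j := by
    ext z; simp only [indicator, mem_setOf_eq, hd, h1, h2]
  rw [e1, slice1 _ (cap_integrable _ _ _ (by fun_prop))]
  have hle : max (-r) (min c r) ≤ r := max_le (by linarith) (min_le_right _ _)
  rw [intervalIntegral.integral_of_le hle, ← integral_const_mul,
    ← integral_indicator measurableSet_Ioc]
  apply integral_congr_ae
  have hfin : ({-r, r, c} : Set ℝ).Finite := toFinite _
  filter_upwards [measure_eq_zero_iff_ae_notMem.1 (hfin.measure_zero volume)] with s hs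
  have hs' : s ≠ -r ∧ s ≠ r ∧ s ≠ c := by
    simpa [not_or] using hs
  obtain ⟨s1, s2, s3⟩ := hs'
  have e2 : ∀ y : Fin (2 * μ) → ℝ,
      ({z : Fin (2 * μ + 1) → ℝ | z ⬝ᵥ z ≤ r ^ 2 ∧ c ≤ e ⬝ᵥ z}.indicator
      fun z => (e ⬝ᵥ z) ^ i * (U v ⬝ᵥ z) ^ j) (Fin.cons s y) =
      (if c ≤ s then s ^ i else 0) * ({w : Fin (2 * μ) → ℝ | w ⬝ᵥ w ≤ r ^ 2 - s ^ 2}.indicator
        fun w => (v' ⬝ᵥ w) ^ j) y := by
    intro y
    have a1 : e ⬝ᵥ (Fin.cons s y : Fin (2 * μ + 1) → ℝ) = s := by simp [he]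
    have a2 : U v ⬝ᵥ (Fin.cons s y : Fin (2 * μ + 1) → ℝ) = v' ⬝ᵥ y := by
      rw [cons_dot, h3]; simp [hv']
    have a3 : (Fin.cons s y : Fin (2 * μ + 1) → ℝ) ⬝ᵥ (Fin.cons s y : Fin (2 * μ + 1) → ℝ) ≤ r ^ 2
        ↔ y ⬝ᵥ y ≤ r ^ 2 - s ^ 2 := by
      rw [cons_dot]; simp only [Fin.cons_zero, Fin.cons_succ]
      constructor <;> intro h <;> nlinarith
    simp only [indicator, mem_setOf_eq, a1, a2, a3]
    by_cases b1 : c ≤ s <;> by_cases b2 : y ⬝ᵥ y ≤ r ^ 2 - s ^ 2 <;> simp [b1, b2]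
  simp only [e2]
  rw [integral_const_mul]
  by_cases hin : s ∈ Ioc (max (-r) (min c r)) r
  · rw [indicator_of_mem hin]
    obtain ⟨k1, k2⟩ := hin
    have k3 : -r < s := lt_of_le_of_lt (le_max_left _ _) k1
    have k4 : s < r := lt_of_le_of_ne k2 s2
    have k5 : c ≤ s := by
      have := lt_of_le_of_lt (le_max_right _ _) k1
      rcases min_lt_iff.1 this with h | h <;> linarith
    have := hC v' (r ^ 2 - s ^ 2) (by nlinarith)
    unfold mom at this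
    rw [if_pos k5, this, h4]; ring
  · rw [indicator_of_notMem hin]
    by_cases k5 : c ≤ s
    · have hq : r ^ 2 - s ^ 2 < 0 := by
        by_contra hq
        push Not at hq
        have k3 : -r < s := lt_of_le_of_ne (by nlinarith) (Ne.symm s1)
        have k4 : s ≤ r := by nlinarith
        exact hin ⟨max_lt k3 (min_lt_iff.2 (Or.inl (lt_of_le_of_ne k5 (Ne.symm s3)))), k4⟩
      have : {w : Fin (2 * μ) → ℝ | w ⬝ᵥ w ≤ r ^ 2 - s ^ 2} = ∅ := by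
        ext w
        have : 0 ≤ w ⬝ᵥ w := Finset.sum_nonneg fun i _ => mul_self_nonneg _
        simp only [mem_setOf_eq, mem_empty_iff_false, iff_false, not_le]; linarith
      simp [this]
    · simp [k5]

end Pool.Agent.H81.Tube
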