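import Pool.Agent.H81.Tube1

set_option autoImplicit false

open MeasureTheory Set Matrix

namespace Pool.Agent.H81.Tube

section alg
variable {Ω σ : Type} (co : Ω → σ → ℝ)

def Alg (f : Ω → ℝ) : Prop :=
  ∃ P : Polynomial (MvPolynomial σ ℝ), P ≠ 0 ∧
    ∀ ω, P.eval₂ (MvPolynomial.eval (co ω)) (f ω) = 0

@[reducible] noncomputable def algI : Algebra (MvPolynomial σ ℝ) (Ω → ℝ) :=
  (Pi.ringHom fun ω => MvPolynomial.eval (co ω)).toAlgebra

lemma alg_iff (f : Ω → ℝ) : Alg co f ↔ @IsAlgebraic (MvPolynomial σ ℝ) (Ω → ℝ) _ _ (algI co) f := by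
  letI := algI co
  have key : ∀ (P : Polynomial (MvPolynomial σ ℝ)) (ω : Ω),
      Polynomial.aeval f P ω = P.eval₂ (MvPolynomial.eval (co ω)) (f ω) := by
    intro P ω
    rw [Polynomial.aeval_def]
    exact Polynomial.hom_eval₂ P _ (Pi.evalRingHom (fun _ : Ω => ℝ) ω) f
  constructor
  · rintro ⟨P, h0, h⟩
    exact ⟨P, h0, funext fun ω => by rw [key, h]; rfl⟩
  · rintro ⟨P, h0, h⟩
    exact ⟨P, h0, fun ω => by rw [← key, h]; rfl⟩

variable {co}

lemma Alg.add {f g : Ω → ℝ} (hf : Alg co f) (hg : Alg co g) : Alg co fun ω => f ω + g ω := by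
  letI := algI co
  exact (alg_iff co _).2 (((alg_iff co _).1 hf).add ((alg_iff co _).1 hg))

lemma Alg.mul {f g : Ω → ℝ} (hf : Alg co f) (hg : Alg co g) : Alg co fun ω => f ω * g ω := by
  letI := algI co
  exact (alg_iff co _).2 (((alg_iff co _).1 hf).mul ((alg_iff co _).1 hg))

lemma Alg.poly (p : MvPolynomial σ ℝ) : Alg co fun ω => MvPolynomial.eval (co ω) p :=
  ⟨Polynomial.X - Polynomial.C p, Polynomial.X_sub_C_ne_zero p, fun ω => by
    simp [Polynomial.eval₂_sub]⟩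

lemma Alg.const (c : ℝ) : Alg co fun _ => c := by
  simpa using Alg.poly (co := co) (MvPolynomial.C c)

lemma Alg.coord (i : σ) : Alg co fun ω => co ω i := by
  simpa using Alg.poly (co := co) (MvPolynomial.X i)

lemma Alg.congr {f g : Ω → ℝ} (hf : Alg co f) (h : ∀ ω, g ω = f ω) : Alg co g := by
  rw [funext h]; exact hf

lemma Alg.neg {f : Ω → ℝ} (hf : Alg co f) : Alg co fun ω => -f ω :=
  ((Alg.const (-1)).mul hf).congr fun ω => by ring

lemma Alg.sub {f g : Ω → ℝ} (hf : Alg co f) (hg : Alg co g) : Alg co fun ω => f ω - g ω :=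
  (hf.add hg.neg).congr fun ω => by ring

lemma Alg.pow {f : Ω → ℝ} (hf : Alg co f) (n : ℕ) : Alg co fun ω => f ω ^ n := by
  induction n with
  | zero => simpa using Alg.const 1
  | succ n ih => exact (ih.mul hf).congr fun ω => pow_succ _ _

lemma Alg.sum {ι : Type} (s : Finset ι) {f : ι → Ω → ℝ} (hf : ∀ i, Alg co (f i)) :
    Alg co fun ω => ∑ i ∈ s, f i ω := by
  classical
  induction s using Finset.induction_on with
  | empty => simpa using Alg.const 0
  | insert a s ha ih => exact ((hf a).add ih).congr fun ω => Finset.sum_insert ha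

lemma Alg.choice {f g h : Ω → ℝ} (hf : Alg co f) (hg : Alg co g)
    (H : ∀ ω, h ω = f ω ∨ h ω = g ω) : Alg co h := by
  obtain ⟨P, P0, hP⟩ := hf
  obtain ⟨Q, Q0, hQ⟩ := hg
  refine ⟨P * Q, mul_ne_zero P0 Q0, fun ω => ?_⟩
  rw [Polynomial.eval₂_mul]
  rcases H ω with e | e <;> rw [e] <;> simp [hP, hQ]

lemma Alg.max {f g : Ω → ℝ} (hf : Alg co f) (hg : Alg co g) : Alg co fun ω => max (f ω) (g ω) :=
  hf.choice hg fun _ => max_choice _ _

lemma Alg.min {f g : Ω → ℝ} (hf : Alg co f) (hg : Alg co g) : Alg co fun ω => min (f ω) (g ω) :=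
  hf.choice hg fun _ => min_choice _ _

lemma Alg.sqrt {f : Ω → ℝ} (hf : Alg co f) (h0 : ∀ ω, 0 ≤ f ω) :
    Alg co fun ω => Real.sqrt (f ω) := by
  letI := algI co
  refine (alg_iff co _).2 (IsAlgebraic.of_pow (n := 2) (by norm_num) ((alg_iff co _).1 ?_))
  exact hf.congr fun ω => Real.sq_sqrt (h0 ω)

lemma Alg.inv {f : Ω → ℝ} (hf : Alg co f) (h0 : ∀ ω, f ω ≠ 0) : Alg co fun ω => (f ω)⁻¹ := by
  obtain ⟨P, P0, hP⟩ := hf
  refine ⟨P.reverse, by simpa using P0, fun ω => ?_⟩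
  letI := invertibleOfNonzero (h0 ω)
  have := (Polynomial.eval₂_reverse_eq_zero_iff (MvPolynomial.eval (co ω)) (f ω) P).2 (hP ω)
  simpa using this

inductive PA (co : Ω → σ → ℝ) : (Ω → ℝ → ℝ → ℝ) → Prop
  | mono (g : Ω → ℝ) (i j : ℕ) : Alg co g → PA co fun ω x y => g ω * (x ^ i * y ^ j)
  | add {f g : Ω → ℝ → ℝ → ℝ} : PA co f → PA co g → PA co fun ω x y => f ω x y + g ω x y

lemma PA.congr {f g : Ω → ℝ → ℝ → ℝ} (hf : PA co f) (h : ∀ ω x y, g ω x y = f ω x y) :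
    PA co g := by
  have : g = f := by ext; apply h
  rw [this]; exact hf

lemma PA.mul {f g : Ω → ℝ → ℝ → ℝ} (hf : PA co f) (hg : PA co g) :
    PA co fun ω x y => f ω x y * g ω x y := by
  induction hf with
  | mono a i j ha =>
    induction hg with
    | mono b k l hb => exact (PA.mono _ (i + k) (j + l) (ha.mul hb)).congr fun ω x y => by ring
    | add _ _ h1 h2 => exact (h1.add h2).congr fun ω x y => by ring
  | add _ _ h1 h2 => exact (h1.add h2).congr fun ω x y => by ring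

lemma PA.const {g : Ω → ℝ} (hg : Alg co g) : PA co fun ω _ _ => g ω :=
  (PA.mono g 0 0 hg).congr fun ω x y => by ring

lemma PA.lin {a b c : Ω → ℝ} (ha : Alg co a) (hb : Alg co b) (hc : Alg co c) :
    PA co fun ω x y => a ω + b ω * x + c ω * y :=
  (((PA.const ha).add (PA.mono b 1 0 hb)).add (PA.mono c 0 1 hc)).congr fun ω x y => by ring

lemma PA.pow {f : Ω → ℝ → ℝ → ℝ} (hf : PA co f) (n : ℕ) : PA co fun ω x y => f ω x y ^ n := by
  induction n with
  | zero => exact (PA.const (Alg.const 1)).congr fun ω x y => by simp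
  | succ n ih => exact (ih.mul hf).congr fun ω x y => pow_succ _ _

lemma PA.cont {f : Ω → ℝ → ℝ → ℝ} (hf : PA co f) (ω : Ω) :
    Continuous fun p : ℝ × ℝ => f ω p.1 p.2 := by
  induction hf with
  | mono a i j _ => fun_prop
  | add _ _ h1 h2 => exact h1.add h2

end alg

inductive P2 : (ℝ → ℝ → ℝ) → Prop
  | mono (c : ℝ) (i j : ℕ) : P2 fun x y => c * (x ^ i * y ^ j)
  | add {f g : ℝ → ℝ → ℝ} : P2 f → P2 g → P2 fun x y => f x y + g x y

lemma P2.congr {f g : ℝ → ℝ → ℝ} (hf : P2 f) (h : ∀ x y, g x y = f x y) : P2 g := by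
  have : g = f := by ext; apply h
  rw [this]; exact hf

lemma P2.mul {f g : ℝ → ℝ → ℝ} (hf : P2 f) (hg : P2 g) : P2 fun x y => f x y * g x y := by
  induction hf with
  | mono a i j =>
    induction hg with
    | mono b k l => exact (P2.mono (a * b) (i + k) (j + l)).congr fun x y => by ring
    | add _ _ h1 h2 => exact (h1.add h2).congr fun x y => by ring
  | add _ _ h1 h2 => exact (h1.add h2).congr fun x y => by ring

lemma P2.pow {f : ℝ → ℝ → ℝ} (hf : P2 f) (n : ℕ) : P2 fun x y => f x y ^ n := by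
  induction n with
  | zero => exact (P2.mono 1 0 0).congr fun x y => by simp
  | succ n ih => exact (ih.mul hf).congr fun x y => pow_succ _ _

lemma P2.cont {f : ℝ → ℝ → ℝ} (hf : P2 f) : Continuous fun p : ℝ × ℝ => f p.1 p.2 := by
  induction hf with
  | mono a i j => fun_prop
  | add _ _ h1 h2 => exact h1.add h2

lemma P2.anti {f : ℝ → ℝ → ℝ} (hf : P2 f) :
    ∃ Q, P2 Q ∧ ∀ x y, HasDerivAt (fun y => Q x y) (f x y) y := by
  induction hf with
  | mono a i j =>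
    refine ⟨_, P2.mono (a / (j + 1)) i (j + 1), fun x y => ?_⟩
    refine (((hasDerivAt_pow (j + 1) y).const_mul (x ^ i)).const_mul (a / (j + 1))).congr_deriv ?_
    have : (j : ℝ) + 1 ≠ 0 := by positivity
    push_cast; field_simp
  | add _ _ h1 h2 =>
    obtain ⟨Q1, a1, b1⟩ := h1
    obtain ⟨Q2, a2, b2⟩ := h2
    exact ⟨_, a1.add a2, fun x y => (b1 x y).fun_add (b2 x y)⟩

lemma P2.der {f : ℝ → ℝ → ℝ} (hf : P2 f) :
    ∃ D, P2 D ∧ ∀ x y, HasDerivAt (fun x => f x y) (D x y) x := by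
  induction hf with
  | mono a i j =>
    refine ⟨_, P2.mono (a * i) (i - 1) j, fun x y => ?_⟩
    refine (((hasDerivAt_pow i x).mul_const (y ^ j)).const_mul a).congr_deriv ?_
    ring
  | add _ _ h1 h2 =>
    obtain ⟨Q1, a1, b1⟩ := h1
    obtain ⟨Q2, a2, b2⟩ := h2
    exact ⟨_, a1.add a2, fun x y => (b1 x y).fun_add (b2 x y)⟩

lemma P2.diag {f : ℝ → ℝ → ℝ} (hf : P2 f) (η : ℝ) : P2 fun x _ => f x (η * x) := by
  induction hf with
  | mono a i j => exact (P2.mono (a * η ^ j) (i + j) 0).congr fun x y => by ring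
  | add _ _ h1 h2 => exact h1.add h2

lemma P2.compP {Ω σ : Type} {co : Ω → σ → ℝ} {f : ℝ → ℝ → ℝ} (hf : P2 f)
    {A B : Ω → ℝ → ℝ → ℝ} (hA : PA co A) (hB : PA co B) :
    PA co fun ω x y => f (A ω x y) (B ω x y) := by
  induction hf with
  | mono a i j => exact (PA.const (Alg.const a)).mul ((hA.pow i).mul (hB.pow j))
  | add _ _ h1 h2 => exact h1.add h2

lemma P2.compA {Ω σ : Type} {co : Ω → σ → ℝ} {f : ℝ → ℝ → ℝ} (hf : P2 f)
    {A B : Ω → ℝ} (hA : Alg co A) (hB : Alg co B) : Alg co fun ω => f (A ω) (B ω) := by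
  induction hf with
  | mono a i j => exact (Alg.const a).mul ((hA.pow i).mul (hB.pow j))
  | add _ _ h1 h2 => exact h1.add h2

lemma capQ (i p : ℕ) : ∃ Q, P2 Q ∧ ∀ r a b : ℝ,
    ∫ σ in a..b, σ ^ i * (r ^ 2 - σ ^ 2) ^ p = Q r b - Q r a := by
  have h : P2 fun r σ => σ ^ i * (r ^ 2 - σ ^ 2) ^ p :=
    ((P2.mono 1 0 i).mul (((P2.mono 1 2 0).add (P2.mono (-1) 0 2)).pow p)).congr
      fun x y => by ring
  obtain ⟨Q, hQ, hd⟩ := h.anti
  refine ⟨Q, hQ, fun r a b => ?_⟩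
  exact intervalIntegral.integral_eq_sub_of_hasDerivAt (fun y _ => hd r y)
    (Continuous.intervalIntegrable (by fun_prop) _ _)

lemma capAlg {Ω σ : Type} {co : Ω → σ → ℝ} (μ : ℕ) {r : ℝ} (hr : 0 ≤ r)
    {n v : Ω → Fin (2 * μ + 1) → ℝ} {c : Ω → ℝ} (hn : ∀ ω, n ω ⬝ᵥ n ω = 1)
    (hnv : ∀ ω, n ω ⬝ᵥ v ω = 0) (hc : Alg co c) (hv : Alg co fun ω => v ω ⬝ᵥ v ω)
    {f : Ω → ℝ → ℝ → ℝ} (hf : PA co f) :
    Alg co fun ω => ∫ z, ({z : Fin (2 * μ + 1) → ℝ | z ⬝ᵥ z ≤ r ^ 2 ∧ c ω ≤ n ω ⬝ᵥ z}.indicator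
      fun z => f ω (n ω ⬝ᵥ z) (v ω ⬝ᵥ z)) z := by
  induction hf with
  | mono g i j hg =>
    obtain ⟨C, l, hC⟩ := cap μ i j
    obtain ⟨Q, hQ, hI⟩ := capQ i (μ + l)
    have h1 := hQ.compA (Alg.const (co := co) r) (Alg.const r)
    have h2 := hQ.compA (Alg.const r) ((Alg.const (-r)).max (hc.min (Alg.const r)))
    refine (hg.mul (((Alg.const C).mul (hv.pow l)).mul (h1.sub h2))).congr fun ω => ?_
    rw [← hI, ← hC _ _ _ _ (hn ω) (hnv ω) hr, ← integral_const_mul]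
    congr 1; ext z
    simp only [indicator]
    split_ifs <;> simp
  | add p1 p2 h1 h2 =>
    refine (h1.add h2).congr fun ω => ?_
    rw [← integral_add]
    · congr 1; ext z
      simp only [indicator]
      split_ifs <;> simp
    · exact cap_integrable _ _ _ ((p1.cont ω).comp
        (by fun_prop : Continuous fun z => (n ω ⬝ᵥ z, v ω ⬝ᵥ z)))
    · exact cap_integrable _ _ _ ((p2.cont ω).comp
        (by fun_prop : Continuous fun z => (n ω ⬝ᵥ z, v ω ⬝ᵥ z)))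

end Pool.Agent.H81.Tube
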