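import Pool.Agent.H81.Tube2

set_option autoImplicit false

open MeasureTheory Set Matrix

namespace Pool.Agent.H81.Tube

lemma sph_null (d : ℕ) {r : ℝ} (hr : 0 < r) : volume {z : Fin d → ℝ | z ⬝ᵥ z = r ^ 2} = 0 := by
  have h := (PiLp.volume_preserving_toLp (Fin d)).measure_preimage
    (s := Metric.sphere (0 : EuclideanSpace ℝ (Fin d)) r)
    (Metric.isClosed_sphere.measurableSet.nullMeasurableSet)
  rw [Measure.addHaar_sphere_of_ne_zero _ _ hr.ne'] at h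
  rw [← h]; congr 1; ext z
  simp only [mem_setOf_eq, mem_preimage, mem_sphere_iff_norm, sub_zero, EuclideanSpace.norm_eq,
    Real.norm_eq_abs, sq_abs]
  rw [Real.sqrt_eq_iff_mul_self_eq_of_pos hr]
  simp [dotProduct, sq, eq_comm]

lemma ftc (C : ℝ) {Q : ℝ → ℝ → ℝ} (hQ : P2 Q) : ∃ D1 D2, P2 D1 ∧ P2 D2 ∧ ∀ c A B : ℝ, 0 < A →
    A ≤ B → ∫ R in A..B, ((if c ≤ 1 * R then D1 R c else 0) + if c ≤ -1 * R then D2 R c else 0) =
    C * (Q B B - Q B (max (-B) (min c B))) - C * (Q A A - Q A (max (-A) (min c A))) := by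
  have h1 : P2 fun R c => C * (Q R R - Q R c) :=
    ((P2.mono C 0 0).mul ((hQ.diag 1).add ((P2.mono (-1) 0 0).mul hQ))).congr fun x y => by
      simp only [one_mul]; ring
  have h2 : P2 fun R c => C * (Q R c - Q R (-R)) :=
    ((P2.mono C 0 0).mul (hQ.add ((P2.mono (-1) 0 0).mul (hQ.diag (-1))))).congr fun x y => by
      simp only [neg_mul, one_mul]; ring
  obtain ⟨D1, p1, d1⟩ := h1.der
  obtain ⟨D2, p2, d2⟩ := h2.der
  refine ⟨D1, D2, p1, p2, fun c A B hA hAB => ?_⟩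
  simp only [one_mul, neg_mul]
  refine integral_eq_of_hasDerivAt_off_countable_of_le
    (fun R => C * (Q R R - Q R (max (-R) (min c R)))) _ hAB (s := {c, -c})
    (toFinite _).countable ?_ ?_ ?_
  · refine Continuous.continuousOn (continuous_const.mul (Continuous.sub ?_ ?_))
    · exact hQ.cont.comp (by fun_prop : Continuous fun R : ℝ => (R, R))
    · exact hQ.cont.comp (by fun_prop : Continuous fun R : ℝ => (R, max (-R) (min c R)))
  · rintro x ⟨⟨x1, -⟩, hx⟩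
    have hx' : x ≠ c ∧ x ≠ -c := by simpa [not_or] using hx
    have x0 : 0 < x := hA.trans x1
    rcases lt_or_gt_of_ne hx'.1 with k1 | k1
    · rw [if_neg (by linarith), if_neg (by linarith), add_zero]
      refine (hasDerivAt_const x (0 : ℝ)).congr_of_eventuallyEq ?_
      filter_upwards [Ioo_mem_nhds x0 k1] with R hR
      rw [min_eq_right hR.2.le, max_eq_right (by linarith [hR.1])]; simp
    · rcases lt_or_gt_of_ne hx'.2 with k2 | k2
      · rw [if_pos k1.le, if_pos (by linarith)]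
        refine ((d1 x c).fun_add (d2 x c)).congr_of_eventuallyEq ?_
        filter_upwards [Ioo_mem_nhds x0 k2] with R hR
        rw [min_eq_left (by linarith [hR.1, hR.2]), max_eq_left (by linarith [hR.2])]; ring
      · rw [if_pos k1.le, if_neg (by linarith), add_zero]
        refine (d1 x c).congr_of_eventuallyEq ?_
        filter_upwards [Ioi_mem_nhds k1, Ioi_mem_nhds k2] with R r1 r2
        rw [min_eq_left (le_of_lt r1), max_eq_right (by linarith [mem_Ioi.1 r2])]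
  · have c1 : Continuous fun R => D1 R c := p1.cont.comp (by fun_prop : Continuous fun R : ℝ => (R, c))
    have c2 : Continuous fun R => D2 R c := p2.cont.comp (by fun_prop : Continuous fun R : ℝ => (R, c))
    refine IntervalIntegrable.add ?_ ?_
    · have := (c1.intervalIntegrable (μ := volume) A B)
      have hm : MeasurableSet {R : ℝ | c ≤ R} := measurableSet_Ici
      exact ⟨Integrable.indicator this.1 hm, Integrable.indicator this.2 hm⟩
    · have := (c2.intervalIntegrable (μ := volume) A B)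
      have hm : MeasurableSet {R : ℝ | c ≤ -R} := measurableSet_le measurable_const measurable_neg
      exact ⟨this.1.indicator hm, this.2.indicator hm⟩

lemma shell (j : ℕ) : ∃ D1 D2, P2 D1 ∧ P2 D2 ∧ ∀ (n : Fin (2 * j + 1) → ℝ) (c A B : ℝ),
    n ⬝ᵥ n = 1 → 0 < A → A ≤ B →
    ∫ x, ({x : Fin (2 * j + 1) → ℝ | A ^ 2 ≤ x ⬝ᵥ x ∧ x ⬝ᵥ x ≤ B ^ 2 ∧ c ≤ n ⬝ᵥ x}.indicator
      fun _ => (1 : ℝ)) x =
    ∫ R in A..B, ((if c ≤ 1 * R then D1 R c else 0) + if c ≤ -1 * R then D2 R c else 0) := by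
  obtain ⟨C, l, hC⟩ := cap j 0 0
  obtain ⟨Q, hQ, hI⟩ := capQ 0 (j + l)
  obtain ⟨D1, D2, p1, p2, h⟩ := ftc (C * ((0 : Fin (2 * j + 1) → ℝ) ⬝ᵥ 0) ^ l) hQ
  refine ⟨D1, D2, p1, p2, fun n c A B hn hA hAB => ?_⟩
  rw [h c A B hA hAB, ← hI, ← hI, ← hC n 0 B c hn (by simp) (by linarith),
    ← hC n 0 A c hn (by simp) hA.le, ← integral_sub (cap_integrable _ _ _ (by fun_prop))
      (cap_integrable _ _ _ (by fun_prop))]
  apply integral_congr_ae
  filter_upwards [measure_eq_zero_iff_ae_notMem.1 (sph_null (2 * j + 1) hA)] with x hx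
  have hx' : x ⬝ᵥ x ≠ A ^ 2 := hx
  have hAB2 : A ^ 2 ≤ B ^ 2 := by nlinarith
  simp only [indicator, mem_setOf_eq, pow_zero, mul_one]
  by_cases b1 : c ≤ n ⬝ᵥ x
  · rcases lt_or_gt_of_ne hx' with k | k
    · simp [b1, k.le, not_le.2 k, k.le.trans hAB2]
    · simp [b1, k.le, not_le.2 k]
  · simp [b1]

abbrev Om (k m : ℕ) := {ω : (Fin k → ℝ) × (Fin m → ℝ) × ℝ // ω.1 ≠ 0}

def cO (k m : ℕ) (ω : Om k m) : (Fin k ⊕ Fin m) ⊕ Unit → ℝ :=
  Sum.elim (Sum.elim ω.1.1 ω.1.2.1) fun _ => ω.1.2.2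

noncomputable def al {k m : ℕ} (ω : Om k m) : ℝ := Real.sqrt (ω.1.1 ⬝ᵥ ω.1.1)

lemma dot_nonneg {d : ℕ} (v : Fin d → ℝ) : 0 ≤ v ⬝ᵥ v :=
  Finset.sum_nonneg fun _ _ => mul_self_nonneg _

lemma al_pos {k m : ℕ} (ω : Om k m) : 0 < al ω :=
  Real.sqrt_pos.2 (lt_of_le_of_ne (dot_nonneg _) fun h => ω.2 (dotProduct_self_eq_zero.1 h.symm))

lemma al_sq {k m : ℕ} (ω : Om k m) : al ω * al ω = ω.1.1 ⬝ᵥ ω.1.1 :=
  Real.mul_self_sqrt (dot_nonneg _)

lemma al_alg (k m : ℕ) : Alg (cO k m) al :=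
  Alg.sqrt (Alg.sum Finset.univ fun i =>
    (Alg.coord (co := cO k m) (.inl (.inl i))).mul (Alg.coord (co := cO k m) (.inl (.inl i)))) fun _ => dot_nonneg _

noncomputable def cz {k m : ℕ} (ω : Om k m) (y : Fin m → ℝ) : ℝ := (ω.1.2.1 ⬝ᵥ y - ω.1.2.2) / al ω

lemma capEta (k μ : ℕ) {ε η : ℝ} (hε : 0 ≤ ε) (hη : η * η = 1) {D : ℝ → ℝ → ℝ} (hD : P2 D) :
    Alg (cO k (2 * μ)) fun ω => ∫ z, ({z : Fin (2 * μ + 1) → ℝ | z ⬝ᵥ z ≤ ε ^ 2 ∧
      cz ω (fun i => z i.succ) ≤ η * (1 + z 0)}.indicator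
      fun z => D (1 + z 0) (cz ω fun i => z i.succ)) z := by
  set N : Om k (2 * μ) → ℝ := fun ω => Real.sqrt (al ω * al ω + ω.1.2.1 ⬝ᵥ ω.1.2.1) with hN
  have N0 : ∀ ω : Om k (2 * μ), 0 < al ω * al ω + ω.1.2.1 ⬝ᵥ ω.1.2.1 := fun ω => by
    have := al_pos ω; have := dot_nonneg ω.1.2.1; positivity
  have Np : ∀ ω, 0 < N ω := fun ω => Real.sqrt_pos.2 (N0 ω)
  have Nsq : ∀ ω, N ω * N ω = al ω * al ω + ω.1.2.1 ⬝ᵥ ω.1.2.1 := fun ω =>
    Real.mul_self_sqrt (N0 ω).le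
  have aA := al_alg k (2 * μ)
  have aT : Alg (cO k (2 * μ)) fun ω => ω.1.2.2 := Alg.coord (co := cO k (2 * μ)) (.inr ())
  have aN : Alg (cO k (2 * μ)) N :=
    Alg.sqrt ((aA.mul aA).add (Alg.sum Finset.univ fun i =>
      (Alg.coord (co := cO k (2 * μ)) (.inl (.inr i))).mul 
        (Alg.coord (co := cO k (2 * μ)) (.inl (.inr i)))))
      fun ω => (N0 ω).le
  have aNi := aN.inv fun ω => (Np ω).ne'
  have aAi := aA.inv fun ω => (al_pos ω).ne'
  set n : Om k (2 * μ) → Fin (2 * μ + 1) → ℝ :=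
    fun ω => (N ω)⁻¹ • (Fin.cons (η * al ω) (-ω.1.2.1) : Fin (2 * μ + 1) → ℝ) with hn
  set n0 : Om k (2 * μ) → ℝ := fun ω => (N ω)⁻¹ * (η * al ω) with hn0
  have a0 : Alg (cO k (2 * μ)) n0 := aNi.mul ((Alg.const η).mul aA)
  set e : Fin (2 * μ + 1) → ℝ := Pi.single 0 1 with he
  have nz : ∀ ω z, n ω ⬝ᵥ z = (N ω)⁻¹ * (η * al ω * z 0 - ω.1.2.1 ⬝ᵥ fun i => z i.succ) := by
    intro ω z
    rw [hn, smul_dotProduct, dotProduct_comm, cons_dot, dotProduct_neg, dotProduct_comm]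
    simp only [smul_eq_mul]; ring
  have nn : ∀ ω, n ω ⬝ᵥ n ω = 1 := by
    intro ω
    rw [nz]
    have e1 : (fun i : Fin (2 * μ) => n ω i.succ) = -((N ω)⁻¹ • ω.1.2.1) := by
      ext i; simp [hn]
    have e2 : n ω 0 = (N ω)⁻¹ * (η * al ω) := by simp [hn]
    rw [e1, e2, dotProduct_neg, dotProduct_smul, smul_eq_mul]
    have := (Np ω).ne'
    field_simp
    linear_combination (-1) * Nsq ω + al ω ^ 2 * hη
  have ne : ∀ ω, n ω ⬝ᵥ e = n0 ω := fun ω => by simp [he, hn, hn0]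
  set v : Om k (2 * μ) → Fin (2 * μ + 1) → ℝ := fun ω => e - n0 ω • n ω with hv
  have vz : ∀ ω z, v ω ⬝ᵥ z = z 0 - n0 ω * (n ω ⬝ᵥ z) := fun ω z => by
    simp [hv, he, sub_dotProduct, smul_dotProduct]
  have nv : ∀ ω, n ω ⬝ᵥ v ω = 0 := fun ω => by
    simp [hv, dotProduct_sub, dotProduct_smul, nn, ne]
  have vv : ∀ ω, v ω ⬝ᵥ v ω = 1 - n0 ω * n0 ω := fun ω => by
    rw [vz, nv]
    have : n ω 0 = n0 ω := by simp [hn, hn0]
    simp [hv, he, this]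
  have hPA := hD.compP (co := cO k (2 * μ)) (PA.lin (Alg.const 1) a0 (Alg.const 1))
    (PA.lin (aT.neg.mul aAi) ((((Alg.const η).mul aA).mul a0 |>.sub aN).mul aAi) (Alg.const η))
  refine (capAlg μ hε nn nv ((aT.neg.sub ((Alg.const η).mul aA)).mul aNi)
    (((Alg.const 1).sub (a0.mul a0)).congr vv) hPA).congr fun ω => ?_
  congr 1; ext z
  have hA := al_pos ω
  have hN' := Np ω
  have k1 : cz ω (fun i => z i.succ) ≤ η * (1 + z 0) ↔
      (-ω.1.2.2 - η * al ω) * (N ω)⁻¹ ≤ n ω ⬝ᵥ z := by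
    rw [nz, mul_comm _ (N ω)⁻¹, mul_le_mul_iff_right₀ (inv_pos.2 hN'), cz, div_le_iff₀ hA]
    constructor <;> intro h <;> linarith
  have k2 : 1 + n0 ω * (n ω ⬝ᵥ z) + 1 * (v ω ⬝ᵥ z) = 1 + z 0 := by rw [vz]; ring
  have k3 : -ω.1.2.2 * (al ω)⁻¹ + (η * al ω * n0 ω - N ω) * (al ω)⁻¹ * (n ω ⬝ᵥ z) +
      η * (v ω ⬝ᵥ z) = cz ω fun i => z i.succ := by
    rw [vz, nz, cz]; field_simp; ring
  simp only [indicator, mem_setOf_eq, k1, k2, k3]

def tube (k m : ℕ) (ε : ℝ) (a : Fin k → ℝ) (b : Fin m → ℝ) (t : ℝ) :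
    Set ((Fin k → ℝ) × (Fin m → ℝ)) :=
  {p | (Real.sqrt (∑ i, p.1 i ^ 2) - 1) ^ 2 + ∑ j, p.2 j ^ 2 ≤ ε ^ 2 ∧
    ∑ i, a i * p.1 i + ∑ j, b j * p.2 j ≤ t}

lemma sum_sq {d : ℕ} (x : Fin d → ℝ) : ∑ i, x i ^ 2 = x ⬝ᵥ x := by simp [dotProduct, sq]

lemma tube_compact (k m : ℕ) (ε : ℝ) (a : Fin k → ℝ) (b : Fin m → ℝ) (t : ℝ) :
    IsCompact (tube k m ε a b t) := by
  refine ((ball_compact k ((1 + |ε|) ^ 2)).prod (ball_compact m (ε ^ 2))).of_isClosed_subset ?_ ?_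
  · have h1 : IsClosed {p : (Fin k → ℝ) × (Fin m → ℝ) |
      (Real.sqrt (∑ i, p.1 i ^ 2) - 1) ^ 2 + ∑ j, p.2 j ^ 2 ≤ ε ^ 2} :=
      isClosed_le (by fun_prop) continuous_const
    have h2 : IsClosed {p : (Fin k → ℝ) × (Fin m → ℝ) | ∑ i, a i * p.1 i + ∑ j, b j * p.2 j ≤ t} :=
      isClosed_le (by fun_prop) continuous_const
    exact h1.inter h2
  · rintro ⟨x, y⟩ ⟨h, -⟩
    simp only [sum_sq] at h
    have h1 := dot_nonneg y
    have h2 := Real.sq_sqrt (dot_nonneg x)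
    have h3 := Real.sqrt_nonneg (x ⬝ᵥ x)
    have h4 : Real.sqrt (x ⬝ᵥ x) - 1 ≤ |ε| := le_trans (le_abs_self _)
      (sq_le_sq.1 (by linarith))
    refine ⟨?_, ?_⟩
    · show x ⬝ᵥ x ≤ _
      nlinarith
    · show y ⬝ᵥ y ≤ _
      nlinarith [sq_nonneg (Real.sqrt (x ⬝ᵥ x) - 1)]

lemma eta_integrable {k m : ℕ} (ω : Om k m) (q η : ℝ) {D : ℝ → ℝ → ℝ} (hD : P2 D) :
    Integrable ({z : Fin (m + 1) → ℝ | z ⬝ᵥ z ≤ q ∧
      cz ω (fun i => z i.succ) ≤ η * (1 + z 0)}.indicator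
      fun z => D (1 + z 0) (cz ω fun i => z i.succ)) := by
  have c0 : Continuous fun z : Fin (m + 1) → ℝ => cz ω fun i => z i.succ := by
    unfold cz; fun_prop
  have h1 : IsClosed {z : Fin (m + 1) → ℝ | cz ω (fun i => z i.succ) ≤ η * (1 + z 0)} :=
    isClosed_le c0 (by fun_prop)
  have hc := (ball_compact (m + 1) q).inter_right h1
  exact (integrable_indicator_iff hc.measurableSet).2
    ((hD.cont.comp (Continuous.prodMk (by fun_prop) c0)).continuousOn.integrableOn_compact hc)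

lemma tubeAlg (j μ : ℕ) {ε : ℝ} (hε : 0 < ε) (hε1 : ε < 1) :
    Alg (cO (2 * j + 1) (2 * μ)) fun ω =>
      (volume (tube (2 * j + 1) (2 * μ) ε ω.1.1 ω.1.2.1 ω.1.2.2)).toReal := by
  obtain ⟨D1, D2, p1, p2, h⟩ := shell j
  refine ((capEta _ μ hε.le (η := 1) (by norm_num) p1).add
    (capEta _ μ hε.le (η := -1) (by norm_num) p2)).congr fun ω => ?_
  have hc := tube_compact (2 * j + 1) (2 * μ) ε ω.1.1 ω.1.2.1 ω.1.2.2
  rw [← integral_add (eta_integrable ω _ _ p1) (eta_integrable ω _ _ p2),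
    slice2 _ ((eta_integrable ω _ _ p1).fun_add (eta_integrable ω _ _ p2)),
    ← measureReal_def, ← integral_indicator_one hc.measurableSet, Measure.volume_eq_prod,
    integral_prod_symm _ ((integrable_indicator_iff hc.measurableSet).2
      (continuous_const.continuousOn.integrableOn_compact hc))]
  congr 1; ext y
  have a3 : ∀ s : ℝ, (Fin.cons s y : Fin (2 * μ + 1) → ℝ) ⬝ᵥ (Fin.cons s y : Fin (2 * μ + 1) → ℝ)
      = s ^ 2 + y ⬝ᵥ y := fun s => by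
    rw [cons_dot]; simp only [Fin.cons_zero, Fin.cons_succ]; ring
  simp only [Pi.add_apply, indicator, mem_setOf_eq, a3, Fin.cons_zero, Fin.cons_succ, tube, sum_sq,
    Pi.one_apply]
  by_cases hy : y ⬝ᵥ y ≤ ε ^ 2
  · set ρ := Real.sqrt (ε ^ 2 - y ⬝ᵥ y) with hρ
    have r0 : 0 ≤ ρ := Real.sqrt_nonneg _
    have r2 : ρ ^ 2 = ε ^ 2 - y ⬝ᵥ y := Real.sq_sqrt (by linarith)
    have r1 : ρ < 1 := by nlinarith [dot_nonneg y]
    have hA := al_pos ω
    have hn : (-(al ω)⁻¹ • ω.1.1) ⬝ᵥ (-(al ω)⁻¹ • ω.1.1) = 1 := by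
      rw [smul_dotProduct, dotProduct_smul, ← al_sq]; simp only [smul_eq_mul]; field_simp
    have := h _ (cz ω y) (1 + -ρ) (1 + ρ) hn (by linarith) (by linarith)
    rw [← intervalIntegral.integral_comp_add_left, intervalIntegral.integral_of_le (by linarith),
      ← integral_Icc_eq_integral_Ioc, ← integral_indicator measurableSet_Icc] at this
    refine Eq.trans ?_ (this.trans ?_)
    · congr 1; ext x
      have h2 := Real.sq_sqrt (dot_nonneg x)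
      have h3 := Real.sqrt_nonneg (x ⬝ᵥ x)
      have k1 : (Real.sqrt (x ⬝ᵥ x) - 1) ^ 2 + y ⬝ᵥ y ≤ ε ^ 2 ↔
          (1 + -ρ) ^ 2 ≤ x ⬝ᵥ x ∧ x ⬝ᵥ x ≤ (1 + ρ) ^ 2 := by
        generalize Real.sqrt (x ⬝ᵥ x) = u at h2 h3
        rw [← h2]
        constructor
        · intro k
          have := abs_le_of_sq_le_sq' (a := u - 1) (by linarith) r0
          constructor <;> nlinarith [this.1, this.2]
        · rintro ⟨k1, k2⟩
          have b1 := (abs_le_of_sq_le_sq' k1 h3).2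
          have b2 := (abs_le_of_sq_le_sq' k2 (by linarith)).2
          nlinarith
      have k2 : ∑ i, ω.1.1 i * x i + ∑ j, ω.1.2.1 j * y j ≤ ω.1.2.2 ↔
          cz ω y ≤ (-(al ω)⁻¹ • ω.1.1) ⬝ᵥ x := by
        rw [smul_dotProduct, cz, div_le_iff₀ hA, smul_eq_mul,
          show -(al ω)⁻¹ * (ω.1.1 ⬝ᵥ x) * al ω = -(ω.1.1 ⬝ᵥ x) by field_simp]
        unfold dotProduct
        constructor <;> intro h <;> linarith
      simp only [indicator, mem_setOf_eq, k1, k2, and_assoc]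
    · congr 1; ext s
      have k1 : s ^ 2 + y ⬝ᵥ y ≤ ε ^ 2 ↔ s ∈ Icc (-ρ) ρ := by
        constructor
        · intro k; exact abs_le_of_sq_le_sq' (by linarith) r0
        · rintro ⟨k1, k2⟩; nlinarith
      simp only [indicator, k1]
      by_cases k : s ∈ Icc (-ρ) ρ <;> simp [k]
  · have k1 : ∀ s : ℝ, ¬ s ^ 2 + y ⬝ᵥ y ≤ ε ^ 2 := fun s k => hy (by nlinarith [sq_nonneg s])
    simp [k1]

theorem tube_main (j μ : ℕ) {ε : ℝ} (hε : 0 < ε) (hε1 : ε < 1) :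
    ∃ F : MvPolynomial ((Fin (2 * j + 1) ⊕ Fin (2 * μ)) ⊕ Fin 2) ℝ, F ≠ 0 ∧
      ∀ (a : Fin (2 * j + 1) → ℝ) (b : Fin (2 * μ) → ℝ) (t : ℝ),
        MvPolynomial.eval (Sum.elim (Sum.elim a b)
          ![t, (volume (tube (2 * j + 1) (2 * μ) ε a b t)).toReal]) F = 0 := by
  obtain ⟨P, P0, hP⟩ := tubeAlg j μ hε hε1
  let g : Option ((Fin (2 * j + 1) ⊕ Fin (2 * μ)) ⊕ Unit) → (Fin (2 * j + 1) ⊕ Fin (2 * μ)) ⊕ Fin 2 :=
    fun o => o.elim (.inr 1) (Sum.map id fun _ => 0)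
  have hg : Function.Injective g := by
    rintro (_ | a | a) (_ | b | b) h <;> simp_all [g]
  refine ⟨(∑ i, MvPolynomial.X (.inl (.inl i)) ^ 2) *
    MvPolynomial.rename g ((MvPolynomial.optionEquivLeft ℝ _).symm P), mul_ne_zero ?_ ?_, ?_⟩
  · intro h
    have := congrArg (MvPolynomial.eval fun _ => (1 : ℝ)) h
    simp at this
    exact absurd this (by positivity)
  · intro h
    apply P0
    have := MvPolynomial.rename_injective g hg (h.trans (map_zero _).symm)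
    simpa using this
  · intro a b t
    rw [map_mul]
    by_cases ha : a = 0
    · simp [ha]
    · refine mul_eq_zero_of_right _ ?_
      rw [← hP ⟨(a, b, t), ha⟩, MvPolynomial.eval_rename, Polynomial.eval₂_eq_eval_map]
      conv_rhs => rw [← (MvPolynomial.optionEquivLeft ℝ _).apply_symm_apply P]
      rw [← MvPolynomial.optionEquivLeft_elim_eval]
      congr 2
      ext (_ | _ | _) <;> simp [g, cO]

end Pool.Agent.H81.Tube
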