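import Mathlib

namespace Pool.Agent.H81.Unstable

open Set Filter Topology

/-- small pushes -/
def Push {M : Type} [MetricSpace M] (p : M) (ε : ℝ) (k : M × ℝ → M) : Prop :=
  Continuous k ∧ (∀ z s, s ≤ 0 → k (z, s) = z) ∧ (∀ z s, 1 ≤ s → k (z, s) = k (z, 1)) ∧
    (∀ z, k (z, 1) ≠ p) ∧ ∀ z s, dist (k (z, s)) z ≤ ε

theorem glue {M : Type} [MetricSpace M] [CompactSpace M] (p : M)
    (h : ∀ ε > 0, ∃ k, Push p ε k) :
    ∃ H : M × ℝ → M, Continuous H ∧ (∀ z, H (z, 0) = z) ∧ ∀ z t, 0 < t → H (z, t) ≠ p := by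
  have step : ∀ (n : ℕ) (k : {k : M × ℝ → M // Push p (1 / ((n : ℝ) + 1)) k}),
      ∃ k' : {k : M × ℝ → M // Push p (1 / (((n + 1 : ℕ) : ℝ) + 1)) k},
        ∀ z s, k'.1 (k.1 (z, 1), s) ≠ p := by
    rintro n ⟨k, k1, k2, k3, k4, k5⟩
    obtain ⟨d, hd, hd'⟩ := isCompact_univ.exists_forall_le' (f := fun z => dist (k (z, 1)) p)
      (by fun_prop) (a := 0) fun z _ => dist_pos.2 (k4 z)
    obtain ⟨k', a1, a2, a3, a4, a5⟩ := h (min (d / 2) (1 / (((n + 1 : ℕ) : ℝ) + 1)))
      (lt_min (by linarith) (by positivity))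
    refine ⟨⟨k', a1, a2, a3, a4, fun z s => (a5 z s).trans (min_le_right _ _)⟩, fun z s e => ?_⟩
    have := (a5 (k (z, 1)) s).trans (min_le_left _ _)
    simp only at e
    rw [e, dist_comm] at this
    linarith [hd' z (mem_univ z)]
  choose nxt hnxt using step
  obtain ⟨k0, hk0⟩ := h (1 / (((0 : ℕ) : ℝ) + 1)) (by norm_num)
  let ks : (n : ℕ) → {k : M × ℝ → M // Push p (1 / ((n : ℝ) + 1)) k} :=
    fun n => Nat.rec ⟨k0, hk0⟩ (fun n k => nxt n k) n
  have hks : ∀ n z s, (ks (n + 1)).1 ((ks n).1 (z, 1), s) ≠ p := fun n => hnxt n (ks n)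
  set k : ℕ → M × ℝ → M := fun n => (ks n).1 with hk
  have hP : ∀ n : ℕ, Push p (1 / ((n : ℝ) + 1)) (k n) := fun n => (ks n).2
  have hks' : ∀ n z s, k (n + 1) (k n (z, 1), s) ≠ p := hks
  clear_value k
  clear hks hk ks hnxt nxt
  set Gn : ℕ → M × ℝ → M := fun n w =>
    k (n + 1) (k n (w.1, 2 * (n + 1 - w.2)), 2 * (w.2 - n)) with hGn
  have Gc : ∀ n, Continuous (Gn n) := fun n => by
    have := (hP n).1
    have := (hP (n + 1)).1
    simp only [hGn]
    fun_prop
  have Gne : ∀ n w, Gn n w ≠ p := by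
    intro n w
    simp only [hGn]
    by_cases c : 1 ≤ 2 * (w.2 - n)
    · rw [(hP (n + 1)).2.2.1 _ _ c]
      exact (hP (n + 1)).2.2.2.1 _
    · rw [(hP n).2.2.1 _ _ (by linarith)]
      exact hks' n _ _
  have Gd : ∀ n w, dist (Gn n w) w.1 ≤ 2 / ((n : ℝ) + 1) := by
    intro n w
    have a1 := (hP (n + 1)).2.2.2.2 (k n (w.1, 2 * (n + 1 - w.2))) (2 * (w.2 - n))
    have a2 := (hP n).2.2.2.2 w.1 (2 * (n + 1 - w.2))
    have a3 : 1 / (((n + 1 : ℕ) : ℝ) + 1) ≤ 1 / ((n : ℝ) + 1) :=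
      one_div_le_one_div_of_le (by positivity) (by push_cast; linarith)
    have a4 := dist_triangle (Gn n w) (k n (w.1, 2 * (n + 1 - w.2))) w.1
    have a5 : 2 / ((n : ℝ) + 1) = 1 / ((n : ℝ) + 1) + 1 / ((n : ℝ) + 1) := by ring
    simp only [hGn] at a4 ⊢
    linarith
  have Gm : ∀ (n : ℕ) z, Gn (n + 1) (z, (n : ℝ) + 1) = Gn n (z, (n : ℝ) + 1) := by
    intro n z
    simp only [hGn]
    rw [(hP (n + 1 + 1)).2.1 _ _ (by push_cast; linarith), (hP n).2.1 _ _ (by linarith),
      (hP (n + 1)).2.2.1 _ _ (by push_cast; linarith), (hP (n + 1)).2.2.1 _ (2 * _) (by linarith)]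
  set G : M × ℝ → M := fun w => Gn ⌊w.2⌋₊ w with hG
  have GC : Continuous G := by
    refine LocallyFinite.continuous (f := fun n : ℕ => {w : M × ℝ | (n = 0 ∨ (n : ℝ) ≤ w.2) ∧
      w.2 ≤ n + 1}) (fun w => ?_) ?_ (fun n => ?_) fun n => ?_
    · refine ⟨{v | v.2 < w.2 + 1}, (isOpen_lt continuous_snd continuous_const).mem_nhds
        (by simp), (finite_le_nat ⌈w.2 + 1⌉₊).subset ?_⟩
      rintro n ⟨v, ⟨h1 | h1, -⟩, h2⟩
      · simp [h1]
      · have h2' : v.2 < w.2 + 1 := h2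
        have : (n : ℝ) ≤ ⌈w.2 + 1⌉₊ := (h1.trans h2'.le).trans (Nat.le_ceil _)
        exact_mod_cast this
    · refine eq_univ_of_forall fun w => mem_iUnion.2 ⟨⌊w.2⌋₊, ?_, (Nat.lt_floor_add_one _).le⟩
      rcases le_total 0 w.2 with h0 | h0
      · exact .inr (Nat.floor_le h0)
      · exact .inl (Nat.floor_of_nonpos h0)
    · exact ((isClosed_const (p := n = 0)).union
        (isClosed_le (continuous_const (y := (n : ℝ))) (continuous_snd (X := M)))).inter
        (isClosed_le continuous_snd continuous_const)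
    · refine (Gc n).continuousOn.congr ?_
      rintro ⟨z, τ⟩ ⟨h1, h2⟩
      simp only at h1 h2
      rcases h2.eq_or_lt with h2 | h2
      · subst h2
        have : ⌊(n : ℝ) + 1⌋₊ = n + 1 := by exact_mod_cast Nat.floor_natCast (R := ℝ) (n + 1)
        simp only [hG, this]
        exact Gm n z
      · have : ⌊τ⌋₊ = n := by
          rcases h1 with h1 | h1
          · subst h1
            exact Nat.floor_eq_zero.2 (by simpa using h2)
          · exact (Nat.floor_eq_iff ((Nat.cast_nonneg n).trans h1)).2 ⟨h1, h2⟩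
        simp only [hG, this]
  refine ⟨fun w => if w.2 ≤ 0 then w.1 else G (w.1, w.2⁻¹), ?_, fun z => by simp,
    fun z t ht => ?_⟩
  · rw [continuous_iff_continuousAt]
    rintro ⟨z, t⟩
    rcases lt_trichotomy t 0 with h0 | h0 | h0
    · refine continuousAt_fst.congr ?_
      filter_upwards [(continuous_snd.tendsto (z, t)).eventually (gt_mem_nhds h0)] with w hw
      rw [if_pos (le_of_lt hw)]
    · subst h0
      rw [ContinuousAt, Metric.tendsto_nhds]
      intro ε hε
      obtain ⟨N, hN⟩ := exists_nat_one_div_lt (show 0 < ε / 4 by linarith)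
      have e1 : ∀ᶠ w : M × ℝ in 𝓝 (z, 0), dist w.1 z < ε / 2 :=
        Metric.tendsto_nhds.1 (continuous_fst.tendsto (z, (0 : ℝ))) _ (by linarith)
      have e2 : ∀ᶠ w : M × ℝ in 𝓝 (z, 0), w.2 < 1 / ((N : ℝ) + 1) :=
        (continuous_snd.tendsto (z, (0 : ℝ))).eventually (gt_mem_nhds (by positivity))
      filter_upwards [e1, e2] with w h1 h2
      simp only [le_refl, if_true]
      split_ifs with h3
      · linarith
      · have h4 : 0 < w.2 := not_le.1 h3
        have h5 : (N : ℝ) + 1 < w.2⁻¹ := by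
          rwa [lt_inv_comm₀ (by positivity) h4, ← one_div]
        have h6 : (N : ℝ) ≤ ⌊w.2⁻¹⌋₊ := by
          have := Nat.lt_floor_add_one w.2⁻¹
          linarith
        have h7 := Gd ⌊w.2⁻¹⌋₊ (w.1, w.2⁻¹)
        have h8 : 2 / ((⌊w.2⁻¹⌋₊ : ℝ) + 1) ≤ 2 / ((N : ℝ) + 1) := by gcongr
        have h9 := dist_triangle (G (w.1, w.2⁻¹)) w.1 z
        have h10 : 2 / ((N : ℝ) + 1) = 2 * (1 / ((N : ℝ) + 1)) := by ring
        simp only [hG] at h9 ⊢
        linarith
    · have c1 : ContinuousAt (fun w : M × ℝ => G (w.1, w.2⁻¹)) (z, t) :=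
        GC.continuousAt.comp (continuousAt_fst.prodMk (continuousAt_snd.inv₀ h0.ne'))
      refine c1.congr ?_
      filter_upwards [(continuous_snd.tendsto (z, t)).eventually (lt_mem_nhds h0)] with w hw
      rw [if_neg (not_le.2 hw)]
  · simp only [if_neg (not_le.2 ht)]
    exact Gne _ _

def real {n : ℕ} (K : Set (Finset (Fin n))) : Set (Fin n → ℝ) :=
  {x | x ∈ stdSimplex ℝ (Fin n) ∧ ∃ s ∈ K, ∀ i ∉ s, x i = 0}

theorem poly_push {n : ℕ} (K : Set (Finset (Fin n))) (p : real K)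
    (h : ∀ δ > 0, ∃ f : real K → real K, Continuous f ∧ (∀ z, f z ≠ p) ∧ ∀ z, dist (f z) z ≤ δ)
    (ε : ℝ) (hε : 0 < ε) : ∃ k, Push p ε k := by
  obtain ⟨δ, hδ, hδ1, hδ2⟩ : ∃ δ : ℝ, 0 < δ ∧ (n + 2) * δ ≤ ε ∧ n * δ ≤ 1 / 2 := by
    refine ⟨min (ε / (n + 2)) (1 / (2 * (n + 1))), lt_min (by positivity) (by positivity), ?_, ?_⟩
    · calc ((n : ℝ) + 2) * min (ε / (n + 2)) (1 / (2 * (n + 1))) ≤ (n + 2) * (ε / (n + 2)) := by
            gcongr; exact min_le_left _ _
        _ = ε := by field_simp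
    · calc (n : ℝ) * min (ε / (n + 2)) (1 / (2 * (n + 1))) ≤ (n + 1) * (1 / (2 * (n + 1))) := by
            gcongr
            · linarith
            · exact min_le_right _ _
        _ = 1 / 2 := by field_simp
  obtain ⟨f, fc, fp, fd⟩ := h δ hδ
  have fd' : ∀ z i, |(f z).1 i - z.1 i| ≤ δ := fun z i =>
    (dist_le_pi_dist (f z).1 z.1 i).trans (fd z)
  set c : ℝ → ℝ := fun s => max 0 (min 1 s) with hc
  have c0 : ∀ s, 0 ≤ c s := fun s => le_max_left _ _
  have c1 : ∀ s, c s ≤ 1 := fun s => max_le zero_le_one (min_le_left _ _)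
  set y : real K × ℝ → Fin n → ℝ := fun w i => (1 - c w.2) * w.1.1 i + c w.2 * (f w.1).1 i with hy
  set η : real K × ℝ → ℝ := fun w => min (c w.2) (1 - c w.2) * δ with hη
  set u : real K × ℝ → Fin n → ℝ := fun w i => max (y w i - η w) 0 with hu
  have η0 : ∀ w, 0 ≤ η w := fun w => mul_nonneg (le_min (c0 _) (sub_nonneg.2 (c1 _))) hδ.le
  have η1 : ∀ w, η w ≤ δ := fun w =>
    mul_le_of_le_one_left hδ.le ((min_le_left _ _).trans (c1 _))
  have y0 : ∀ w i, 0 ≤ y w i := fun w i =>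
    add_nonneg (mul_nonneg (sub_nonneg.2 (c1 _)) (w.1.2.1.1 i)) (mul_nonneg (c0 _) ((f w.1).2.1.1 i))
  have y1 : ∀ w, ∑ i, y w i = 1 := fun w => by
    simp only [hy, Finset.sum_add_distrib, ← Finset.mul_sum, w.1.2.1.2, (f w.1).2.1.2]
    ring
  have u0 : ∀ w i, 0 ≤ u w i := fun w i => le_max_right _ _
  have u1 : ∀ w i, u w i ≤ y w i := fun w i => max_le (by linarith [η0 w]) (y0 w i)
  have u2 : ∀ w i, y w i - δ ≤ u w i := fun w i => (by linarith [η1 w] : _ ≤ _).trans (le_max_left _ _)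
  have S1 : ∀ w, ∑ i, u w i ≤ 1 := fun w => (Finset.sum_le_sum fun i _ => u1 w i).trans (y1 w).le
  have S2 : ∀ w, 1 - n * δ ≤ ∑ i, u w i := fun w => by
    have := Finset.sum_le_sum fun i (_ : i ∈ Finset.univ) => u2 w i
    rwa [Finset.sum_sub_distrib, y1, Finset.sum_const, Finset.card_univ, Fintype.card_fin,
      nsmul_eq_mul] at this
  have S0 : ∀ w, 0 < ∑ i, u w i := fun w => by linarith [S2 w]
  have hm : ∀ w, (fun i => u w i / ∑ j, u w j) ∈ real K := by
    intro w
    refine ⟨⟨fun i => div_nonneg (u0 w i) (S0 w).le, ?_⟩, ?_⟩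
    · rw [← Finset.sum_div, div_self (S0 w).ne']
    · rcases le_total (c w.2) (1 - c w.2) with h1 | h1
      · obtain ⟨s, hs, hs'⟩ := w.1.2.2
        refine ⟨s, hs, fun i hi => ?_⟩
        have a1 := (abs_le.1 (fd' w.1 i)).2
        have : u w i = 0 := by
          refine max_eq_right ?_
          simp only [hy, hη, min_eq_left h1, hs' i hi] at a1 ⊢
          nlinarith [c0 w.2]
        simp [this]
      · obtain ⟨s, hs, hs'⟩ := (f w.1).2.2
        refine ⟨s, hs, fun i hi => ?_⟩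
        have a1 := (abs_le.1 (fd' w.1 i)).1
        have : u w i = 0 := by
          refine max_eq_right ?_
          simp only [hy, hη, min_eq_right h1, hs' i hi] at a1 ⊢
          nlinarith [c1 w.2]
        simp [this]
  have uc : ∀ i, Continuous fun w => u w i := fun i => by
    have a1 : Continuous fun w : real K × ℝ => w.1.1 i :=
      (continuous_apply i).comp (continuous_subtype_val.comp continuous_fst)
    have a2 : Continuous fun w : real K × ℝ => (f w.1).1 i :=
      (continuous_apply i).comp (continuous_subtype_val.comp (fc.comp continuous_fst))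
    have a3 : Continuous fun w : real K × ℝ => c w.2 :=
      continuous_const.max (continuous_const.min continuous_snd)
    exact (((((continuous_const.sub a3).mul a1).add (a3.mul a2))).sub
      ((a3.min (continuous_const.sub a3)).mul continuous_const)).max continuous_const
  have e0 : ∀ z s, c s = 0 → (⟨_, hm (z, s)⟩ : real K) = z := by
    intro z s hs
    have : ∀ i, u (z, s) i = z.1 i := fun i => by
      simp [hu, hy, hη, hs, z.2.1.1 i]
    refine Subtype.ext (funext fun i => ?_)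
    simp only [this, z.2.1.2, div_one]
  have e1 : ∀ z s, c s = 1 → (⟨_, hm (z, s)⟩ : real K) = f z := by
    intro z s hs
    have : ∀ i, u (z, s) i = (f z).1 i := fun i => by
      simp [hu, hy, hη, hs, (f z).2.1.1 i]
    refine Subtype.ext (funext fun i => ?_)
    simp only [this, (f z).2.1.2, div_one]
  have c2 : ∀ s, 1 ≤ s → c s = 1 := fun s hs => by simp [hc, hs]
  refine ⟨fun w => ⟨_, hm w⟩, Continuous.subtype_mk (continuous_pi fun i =>
    (uc i).div (continuous_finsetSum _ fun j _ => uc j) fun w => (S0 w).ne') _,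
    fun z s hs => e0 z s (by simp [hc, hs]), fun z s hs => ?_, fun z => ?_, fun z s => ?_⟩
  · exact (e1 z s (c2 s hs)).trans (e1 z 1 (c2 1 le_rfl)).symm
  · exact (e1 z 1 (c2 1 le_rfl)).trans_ne (fp z)
  · rw [Subtype.dist_eq, dist_pi_le_iff hε.le]
    intro i
    have a1 := abs_le.1 (fd' z i)
    have a2 : |y (z, s) i - z.1 i| ≤ δ := by
      have : y (z, s) i - z.1 i = c s * ((f z).1 i - z.1 i) := by simp only [hy]; ring
      rw [this, abs_mul, abs_of_nonneg (c0 s)]
      exact (mul_le_of_le_one_left (abs_nonneg _) (c1 s)).trans (fd' z i)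
    have a3 := abs_le.1 a2
    have a4 : u (z, s) i ≤ u (z, s) i / ∑ j, u (z, s) j :=
      le_div_self (u0 _ i) (S0 _) (S1 _)
    have a5 : u (z, s) i / ∑ j, u (z, s) j ≤ 1 :=
      (div_le_one (S0 _)).2 (Finset.single_le_sum (fun j _ => u0 _ j) (Finset.mem_univ i))
    have a6 : u (z, s) i / ∑ j, u (z, s) j - u (z, s) i =
        (u (z, s) i / ∑ j, u (z, s) j) * (1 - ∑ j, u (z, s) j) := by
      have := (S0 (z, s)).ne'
      field_simp
    have a7 : (u (z, s) i / ∑ j, u (z, s) j) * (1 - ∑ j, u (z, s) j) ≤ 1 - ∑ j, u (z, s) j :=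
      mul_le_of_le_one_left (sub_nonneg.2 (S1 _)) a5
    have a8 : (0 : ℝ) ≤ n * δ := by positivity
    rw [Real.dist_eq, abs_le]
    constructor <;> simp only <;> linarith [u1 (z, s) i, u2 (z, s) i, S2 (z, s)]

theorem approx {M C : Type} [MetricSpace M] [CompactSpace M] [TopologicalSpace C] (p : M) (a : C)
    [NeBot (𝓝[≠] a)] (F : M × C → M) (hF : Continuous F) (h0 : ∀ z, F (z, a) = z)
    (h1 : ∀ z c, c ≠ a → F (z, c) ≠ p) (δ : ℝ) (hδ : 0 < δ) :
    ∃ f : M → M, Continuous f ∧ (∀ z, f z ≠ p) ∧ ∀ z, dist (f z) z ≤ δ := by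
  have e : ∀ᶠ c in 𝓝 a, ∀ z ∈ (univ : Set M), dist (F (z, c)) z < δ := by
    refine isCompact_univ.eventually_forall_of_forall_eventually fun z _ => ?_
    have : Continuous fun w : C × M => dist (F (w.2, w.1)) w.2 := by fun_prop
    exact (this.tendsto (a, z)).eventually (gt_mem_nhds (by simpa [h0] using hδ))
  obtain ⟨c, hc, hc'⟩ := ((e.filter_mono nhdsWithin_le_nhds).and
    (self_mem_nhdsWithin (s := {a}ᶜ))).exists
  exact ⟨fun z => F (z, c), by fun_prop, fun z => h1 z c hc', fun z => (hc z (mem_univ z)).le⟩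

theorem localize {X Y : Type} [TopologicalSpace X] [MetricSpace Y] [CompactSpace Y] (x : X) (y : Y)
    (H : X × ℝ → X) (Hc : Continuous H) (H0 : ∀ z, H (z, 0) = z) (H1 : ∀ z t, 0 < t → H (z, t) ≠ x)
    (U : Set X) (V : Set Y) (hU : U ∈ 𝓝 x) (hV : V ∈ 𝓝 y) (h : U ≃ₜ V)
    (hxy : ∀ hx : x ∈ U, (h ⟨x, hx⟩).1 = y) :
    ∃ F : Y × unitInterval → Y, Continuous F ∧ (∀ z, F (z, 0) = z) ∧
      ∀ z c, c ≠ 0 → F (z, c) ≠ y := by
  classical
  have hx := mem_of_mem_nhds hU
  have hy := mem_of_mem_nhds hV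
  set φ : X → Y := fun z => if hz : z ∈ U then (h ⟨z, hz⟩).1 else y with hφ
  set ψ : Y → X := fun w => if hw : w ∈ V then (h.symm ⟨w, hw⟩).1 else x with hψ
  have φc : ContinuousOn φ U := by
    rw [continuousOn_iff_continuous_restrict]
    exact (continuous_subtype_val.comp h.continuous).congr fun z => by simp [hφ]
  have ψc : ContinuousOn ψ V := by
    rw [continuousOn_iff_continuous_restrict]
    exact (continuous_subtype_val.comp h.symm.continuous).congr fun z => by simp [hψ]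
  have φψ : ∀ w ∈ V, φ (ψ w) = w := fun w hw => by simp [hφ, hψ, hw]
  have ψφ : ∀ z ∈ U, ψ (φ z) = z := fun z hz => by simp [hφ, hψ, hz]
  have φx : φ x = y := by simp [hφ, hx, hxy]
  have ψy : ψ y = x := by rw [← φx, ψφ x hx]
  have e1 : V ∩ ψ ⁻¹' interior U ∈ 𝓝 y :=
    inter_mem hV ((ψc.continuousAt hV).preimage_mem_nhds (ψy ▸ interior_mem_nhds.2 hU))
  obtain ⟨ρ, hρ, hρ'⟩ := Metric.nhds_basis_closedBall.mem_iff.1 e1
  have hB : IsCompact (ψ '' Metric.closedBall y ρ) :=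
    Metric.isClosed_closedBall.isCompact.image_of_continuousOn (ψc.mono fun w hw => (hρ' hw).1)
  have e2 : ∀ᶠ t in 𝓝 (0 : ℝ), ∀ z ∈ ψ '' Metric.closedBall y ρ, H (z, t) ∈ interior U := by
    refine hB.eventually_forall_of_forall_eventually ?_
    rintro _ ⟨w, hw, rfl⟩
    have : Continuous fun v : ℝ × X => H (v.2, v.1) := by fun_prop
    exact (this.tendsto (0, ψ w)).eventually
      (isOpen_interior.mem_nhds (by simpa [H0] using (hρ' hw).2))
  obtain ⟨T, hT, hT'⟩ := Metric.nhds_basis_closedBall.mem_iff.1 e2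
  have hl : ∀ w : Y × unitInterval, dist w.1 y ≤ ρ →
      H (ψ w.1, T * (1 - dist w.1 y / ρ) * w.2) ∈ U := by
    intro w hw
    have a1 : 0 ≤ 1 - dist w.1 y / ρ := sub_nonneg.2 ((div_le_one hρ).2 hw)
    have a2 : 1 - dist w.1 y / ρ ≤ 1 := sub_le_self _ (by positivity)
    refine interior_subset (hT' ?_ _ ⟨w.1, hw, rfl⟩)
    rw [mem_closedBall_zero_iff, Real.norm_of_nonneg (mul_nonneg (by positivity) w.2.2.1), mul_assoc]
    exact mul_le_of_le_one_right hT.le (mul_le_one₀ a2 w.2.2.1 w.2.2.2)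
  refine ⟨fun w => if dist w.1 y ≤ ρ then φ (H (ψ w.1, T * (1 - dist w.1 y / ρ) * w.2)) else w.1,
    continuous_if_le (by fun_prop) continuous_const ?_ continuous_fst.continuousOn ?_, fun z => ?_,
    fun z c hc => ?_⟩
  · refine φc.comp (Hc.comp_continuousOn (ContinuousOn.prodMk ?_ (by fun_prop))) hl
    exact ψc.comp continuous_fst.continuousOn fun w hw => (hρ' hw).1
  · intro w hw
    simp only [hw, div_self hρ.ne', sub_self, mul_zero, zero_mul, H0]
    exact φψ _ (hρ' (le_of_eq hw)).1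
  · simp only [Icc.coe_zero, mul_zero, H0]
    split_ifs with h1
    · exact φψ _ (hρ' h1).1
    · rfl
  · simp only
    split_ifs with h1
    · rcases h1.eq_or_lt with h2 | h2
      · simp only [h2, div_self hρ.ne', sub_self, mul_zero, zero_mul, H0]
        rw [φψ _ (hρ' h1).1]
        rintro rfl
        exact hρ.ne (by simpa using h2)
      · intro e
        have a1 : 0 < 1 - dist z y / ρ := sub_pos.2 ((div_lt_one hρ).2 h2)
        have a2 : (0 : ℝ) < c := lt_of_le_of_ne c.2.1 fun e => hc (Subtype.ext e.symm)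
        have := ψφ _ (hl (z, c) h1)
        simp only at this
        rw [e, ψy] at this
        exact H1 _ _ (by positivity) this.symm
    · rintro rfl
      exact h1 (by simpa using hρ.le)

end Pool.Agent.H81.Unstable
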